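import Pool.Agent.H85.TauDefs

set_option autoImplicit false

namespace Pool.Agent.H85.TauDefs2

open Set Pool.Agent.H85.TauDefs

/-- Open `n`-covers: every `n`-element set lies in some member. -/
def NCover (Y : Type) [TopologicalSpace Y] (n : ℕ) : Set (Set (Set Y)) :=
  {C | (∀ U ∈ C, IsOpen U) ∧ IsCover C ∧ ∀ F : Finset Y, F.card = n → ∃ U ∈ C, (F : Set Y) ⊆ U}

/-- The selection principle `S1((A_n)_n, B)`. -/
def S1Seq {Y : Type} (A : ℕ → Set (Set (Set Y))) (B : Set (Set (Set Y))) : Prop :=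
  ∀ C : ℕ → Set (Set Y), (∀ n, C n ∈ A n) → ∃ U : ℕ → Set Y, (∀ n, U n ∈ C n) ∧ range U ∈ B

end Pool.Agent.H85.TauDefs2
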