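import Pool.Agent.H85.Tau
import Pool.Agent.H85.TauDefs2

set_option autoImplicit false

namespace Pool.Agent.H85.Tau2

open Set Filter Pool.Agent.H85.TauDefs Pool.Agent.H85.TauDefs2 Pool.Agent.H85.Tau

variable {Y : Type}

theorem range_gamma [TopologicalSpace Y] {U : ℕ → Set Y} (ho : ∀ n, IsOpen (U n))
    (hne : ∀ n, U n ≠ univ) (hg : ∀ x, ∀ᶠ n in atTop, x ∈ U n) : range U ∈ Gamma Y := by
  have hfin : ∀ x, {n | x ∉ U n}.Finite := fun x => by
    have := hg x
    rwa [← Nat.cofinite_eq_atTop, eventually_cofinite] at this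
  refine ⟨?_, ⟨?_, ?_⟩, ?_, fun x => ?_⟩
  · rintro _ ⟨n, rfl⟩; exact ho n
  · refine eq_univ_of_forall fun x => ?_
    obtain ⟨n, hn⟩ := (hg x).exists
    exact ⟨_, ⟨n, rfl⟩, hn⟩
  · rintro ⟨n, hn⟩; exact hne n hn
  · intro hf
    have : (univ : Set ℕ).Finite := by
      refine Finite.of_finite_fibers U (by simpa using hf) ?_
      rintro _ ⟨n, _, rfl⟩
      obtain ⟨x, hx⟩ := (ne_univ_iff_exists_notMem _).1 (hne n)
      refine (hfin x).subset ?_
      rintro k ⟨_, hk⟩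
      have hk' : U k = U n := hk
      show x ∉ U k
      rw [hk']; exact hx
    exact infinite_univ this
  · refine ((hfin x).image U).subset ?_
    rintro _ ⟨⟨n, rfl⟩, hn⟩
    exact ⟨n, hn, rfl⟩

theorem seq_of_S1GT [TopologicalSpace Y] [SecondCountableTopology Y] [T3Space Y]
    (hS : S1 (Gamma Y) (Tau Y)) (C : ℕ → Set (Set Y)) (hC : ∀ n, C n ∈ Gamma Y) :
    ∃ U : ℕ → Set Y, (∀ n, U n ∈ C n) ∧ ∀ x, ∀ᶠ n in atTop, x ∈ U n := by
  let u : ℕ → ℕ → Set Y := fun n m => ((hC n).2.2.1.natEmbedding (C n) m : Set Y)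
  have huC : ∀ n m, u n m ∈ C n := fun n m => ((hC n).2.2.1.natEmbedding (C n) m).2
  have hui : ∀ n, Function.Injective (u n) := fun n =>
    Subtype.val_injective.comp ((hC n).2.2.1.natEmbedding (C n)).injective
  obtain ⟨g, hg⟩ := JG_select (JG_univ hS (u := u) (fun n m => (hC n).1 _ (huC n m)) (by
    intro x n
    rw [← Nat.cofinite_eq_atTop, eventually_cofinite]
    exact (((hC n).2.2.2 x).preimage (hui n).injOn).subset fun m hm => ⟨huC n m, hm⟩))
  exact ⟨fun n => u n (g n), fun n => huC n _, hg⟩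

theorem nonempty_of_omega [TopologicalSpace Y] {C : Set (Set Y)} (hC : C ∈ Omega Y) :
    Nonempty Y := by
  rcases isEmpty_or_nonempty Y with hY | hY
  · obtain ⟨U, hU, _⟩ := hC.2.2 ∅ finite_empty
    exact absurd ((Subsingleton.elim U univ) ▸ hU) hC.2.1.2
  · exact hY

theorem seq_of_S1OG [TopologicalSpace Y] [SecondCountableTopology Y] [T3Space Y]
    (hS : S1 (Omega Y) (Gamma Y)) (C : ℕ → Set (Set Y)) (hC : ∀ n, C n ∈ Omega Y) :
    ∃ U : ℕ → Set Y, (∀ n, U n ∈ C n) ∧ ∀ x, ∀ᶠ n in atTop, x ∈ U n := by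
  have := nonempty_of_omega (hC 0)
  choose V hV hVγ using fun n => hS (fun _ => C n) fun _ => hC n
  obtain ⟨U, h1, h2⟩ := seq_of_S1GT (S1_mono hS (gamma_sub_tau.trans tau_sub_omega) gamma_sub_tau)
    (fun n => range (V n)) hVγ
  refine ⟨U, fun n => ?_, h2⟩
  obtain ⟨k, hk⟩ := h1 n
  exact hk ▸ hV n k

theorem tube [TopologicalSpace Y] {k : ℕ} {U : Set (Fin k → Y)} (hU : IsOpen U) {F : Set Y}
    (hF : F.Finite) (h : pi univ (fun _ : Fin k => F) ⊆ U) :
    ∃ V : Set Y, IsOpen V ∧ F ⊆ V ∧ pi univ (fun _ : Fin k => V) ⊆ U := by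
  have hP : (pi univ (fun _ : Fin k => F)).Finite := Finite.pi fun _ => hF
  have := hP.to_subtype
  choose W hW hWU using fun a : pi univ (fun _ : Fin k => F) => isOpen_pi_iff'.1 hU a.1 (h a.2)
  let V : Y → Set Y := fun x => ⋂ a, ⋂ i, ⋂ (_ : a.1 i = x), W a i
  refine ⟨⋃ x ∈ F, V x, isOpen_biUnion fun x _ => isOpen_iInter_of_finite fun a =>
    isOpen_iInter_of_finite fun i => isOpen_iInter_of_finite fun _ => (hW a i).1, ?_, ?_⟩
  · intro x hx
    refine mem_iUnion₂.2 ⟨x, hx, mem_iInter.2 fun a => mem_iInter.2 fun i => mem_iInter.2 ?_⟩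
    rintro rfl
    exact (hW a i).2
  · intro z hz
    choose a ha hza using fun i => mem_iUnion₂.1 (hz i trivial)
    refine hWU ⟨a, fun i _ => ha i⟩ fun i _ => ?_
    exact mem_iInter.1 (mem_iInter.1 (mem_iInter.1 (hza i) ⟨a, fun i _ => ha i⟩) i) rfl

theorem S1OG_pow [TopologicalSpace Y] [SecondCountableTopology Y] [T3Space Y]
    (hS : S1 (Omega Y) (Gamma Y)) (k : ℕ) : S1 (Omega (Fin k → Y)) (Gamma (Fin k → Y)) := by
  intro C hC
  have key : ∀ n (F : Set Y), F.Finite → ∃ V ∈ {V : Set Y | IsOpen V ∧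
      ∃ U ∈ C n, pi univ (fun _ : Fin k => V) ⊆ U}, F ⊆ V := by
    intro n F hF
    obtain ⟨U, hU, hFU⟩ := (hC n).2.2 (pi univ (fun _ : Fin k => F)) (Finite.pi fun _ => hF)
    obtain ⟨V, h1, h2, h3⟩ := tube ((hC n).1 U hU) hF hFU
    exact ⟨V, ⟨h1, U, hU, h3⟩, h2⟩
  obtain ⟨V, hV, hVx⟩ := seq_of_S1OG hS
    (fun n => {V : Set Y | IsOpen V ∧ ∃ U ∈ C n, pi univ (fun _ : Fin k => V) ⊆ U}) (by
      intro n
      refine ⟨fun V hV => hV.1, ⟨eq_univ_of_forall fun x => ?_, ?_⟩, key n⟩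
      · obtain ⟨V, hV, hx⟩ := key n {x} (finite_singleton x)
        exact ⟨V, hV, hx rfl⟩
      · rintro ⟨_, U, hU, h⟩
        rw [pi_univ, univ_subset_iff] at h
        exact (hC n).2.1.2 (h ▸ hU))
  choose U hU hVU using fun n => (hV n).2
  refine ⟨U, hU, range_gamma (fun n => (hC n).1 _ (hU n))
    (fun n h => (hC n).2.1.2 (h ▸ hU n)) fun z => ?_⟩
  filter_upwards [eventually_all.2 fun i => hVx (z i)] with n hn
  exact hVU n fun i _ => hn i

section double

variable {X : Type} [TopologicalSpace X] [TopologicalSpace Y]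

theorem S1OG_double [SecondCountableTopology X] [T3Space X] (hS : S1 (Omega X) (Gamma X))
    {i j : X → Y} (hi : Continuous i) (hj : Continuous j) (hij : ∀ y, y ∈ range i ∨ y ∈ range j)
    {r : Y → X} (hri : ∀ x, r (i x) = x) (hrj : ∀ x, r (j x) = x) :
    S1 (Omega Y) (Gamma Y) := by
  intro C hC
  have key : ∀ n (F : Set X), F.Finite →
      ∃ V ∈ (fun U => i ⁻¹' U ∩ j ⁻¹' U) '' C n, F ⊆ V := by
    intro n F hF
    obtain ⟨U, hU, hFU⟩ := (hC n).2.2 (i '' F ∪ j '' F) ((hF.image _).union (hF.image _))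
    exact ⟨_, ⟨U, hU, rfl⟩, fun x hx =>
      ⟨hFU (Or.inl ⟨x, hx, rfl⟩), hFU (Or.inr ⟨x, hx, rfl⟩)⟩⟩
  obtain ⟨V, hV, hVx⟩ := seq_of_S1OG hS (fun n => (fun U => i ⁻¹' U ∩ j ⁻¹' U) '' C n) (by
    intro n
    refine ⟨?_, ⟨eq_univ_of_forall fun x => ?_, ?_⟩, key n⟩
    · rintro _ ⟨U, hU, rfl⟩
      exact (((hC n).1 U hU).preimage hi).inter (((hC n).1 U hU).preimage hj)
    · obtain ⟨V, hV, hx⟩ := key n {x} (finite_singleton x)
      exact ⟨V, hV, hx rfl⟩
    · rintro ⟨U, hU, h'⟩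
      have h : i ⁻¹' U ∩ j ⁻¹' U = univ := h'
      have : U = univ := eq_univ_of_forall fun y => by
        rcases hij y with ⟨x, rfl⟩ | ⟨x, rfl⟩
        · exact (show x ∈ i ⁻¹' U ∩ j ⁻¹' U from h ▸ mem_univ x).1
        · exact (show x ∈ i ⁻¹' U ∩ j ⁻¹' U from h ▸ mem_univ x).2
      exact (hC n).2.1.2 (this ▸ hU))
  choose U hU hVU using hV
  refine ⟨U, hU, range_gamma (fun n => (hC n).1 _ (hU n))
    (fun n h => (hC n).2.1.2 (h ▸ hU n)) fun y => ?_⟩
  filter_upwards [hVx (r y)] with n hn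
  rw [← hVU n] at hn
  rcases hij y with ⟨x, rfl⟩ | ⟨x, rfl⟩
  · rw [hri] at hn; exact hn.1
  · rw [hrj] at hn; exact hn.2

theorem ncover_le [Infinite X] {C : Set (Set X)} {n : ℕ} (hC : C ∈ NCover X n) {F : Finset X}
    (hF : F.card ≤ n) : ∃ U ∈ C, (F : Set X) ⊆ U := by
  obtain ⟨G, hFG, hG⟩ := Infinite.exists_superset_card_eq F n hF
  obtain ⟨U, hU, h⟩ := hC.2.2 G hG
  exact ⟨U, hU, (Finset.coe_subset.2 hFG).trans h⟩

/-- The modified covers of the doubled space. -/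
def W (A : Set Y) (r : Y → X) (q : ℕ → Y) (C : ℕ → Set (Set X)) (n : ℕ) : Set (Set Y) :=
  {Z | ∃ U ∈ C (2 * n + 1), ∃ U' ∈ C (2 * n + 2), ∃ m,
    Z = (r ⁻¹' (U ∩ U') ∪ Aᶜ) \ {q (Nat.pair n m)}}

theorem W_mem [T1Space Y] [Infinite X] {A : Set Y} (hA : IsClosed A) {r : Y → X}
    (hr : Continuous r) {q : ℕ → Y} (hq : Function.Injective q) {C : ℕ → Set (Set X)}
    (hC : ∀ n, C n ∈ NCover X n) (n k : ℕ) (hk : k ≤ 2 * n + 1) : W A r q C n ∈ NCover Y k := by
  classical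
  have key : ∀ F : Finset Y, F.card ≤ 2 * n + 1 → ∃ Z ∈ W A r q C n, (F : Set Y) ⊆ Z := by
    intro F hF
    have h1 : (F.image r).card ≤ 2 * n + 1 := Finset.card_image_le.trans hF
    obtain ⟨U, hU, hFU⟩ := ncover_le (hC (2 * n + 1)) h1
    obtain ⟨U', hU', hFU'⟩ := ncover_le (hC (2 * n + 2)) (h1.trans (Nat.le_succ _))
    have hinj : Function.Injective fun m => q (Nat.pair n m) := fun a b h =>
      (Nat.pair_eq_pair.1 (hq h)).2
    obtain ⟨_, ⟨m, rfl⟩, hm⟩ := (infinite_range_of_injective hinj).exists_notMem_finset F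
    refine ⟨_, ⟨U, hU, U', hU', m, rfl⟩, fun y hy => ⟨Or.inl ⟨?_, ?_⟩, ?_⟩⟩
    · exact hFU (Finset.mem_coe.2 (Finset.mem_image_of_mem r hy))
    · exact hFU' (Finset.mem_coe.2 (Finset.mem_image_of_mem r hy))
    · rintro rfl
      exact hm hy
  refine ⟨?_, ⟨eq_univ_of_forall fun y => ?_, ?_⟩, fun F hF => key F (hF ▸ hk)⟩
  · rintro _ ⟨U, hU, U', hU', m, rfl⟩
    exact (((((hC _).1 U hU).inter ((hC _).1 U' hU')).preimage hr).union
      hA.isOpen_compl).sdiff isClosed_singleton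
  · obtain ⟨Z, hZ, h⟩ := key {y} (by simp)
    exact ⟨Z, hZ, h (by simp)⟩
  · rintro ⟨U, hU, U', hU', m, h⟩
    have : q (Nat.pair n m) ∈ (r ⁻¹' (U ∩ U') ∪ Aᶜ) \ {q (Nat.pair n m)} := h ▸ mem_univ _
    exact this.2 rfl

theorem W_half [Infinite X] {i : X → Y} {r : Y → X} (hri : ∀ x, r (i x) = x)
    {q : ℕ → Y} (hq : Function.Injective q) (hqA : ∀ m, q m ∉ range i) {C : ℕ → Set (Set X)}
    (hC : ∀ n, C n ∈ NCover X n)
    (hno : ¬ ∃ U : ℕ → Set X, (∀ n, U n ∈ C n) ∧ range U ∈ Gamma X)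
    {R : Set (Set Y)} (hR : ∀ n, ∃ Z ∈ W (range i) r q C n, Z ∈ R) :
    ∃ x ∈ range i, ∀ y, y ∉ range i → {U ∈ R | y ∈ U ∧ x ∉ U}.Infinite := by
  choose Z hZ hZR using hR
  choose U hU U' hU' m hm using hZ
  refine half_piece (w := fun n => r ⁻¹' (U n ∩ U' n)) (p := fun n => q (Nat.pair n (m n)))
    (T := fun k => {k}) (fun a b h => (Nat.pair_eq_pair.1 (hq h)).1) (fun n => hqA _) ?_
    (fun k => ⟨k, rfl, by have := hZR k; rw [hm k] at this; exact this⟩)
  intro g hg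
  have hg' : range g = univ := eq_univ_of_forall fun k => ⟨k, hg k⟩
  by_contra hcon
  push Not at hcon
  obtain ⟨U0, hU0, _⟩ := ncover_le (hC 0) (F := ∅) le_rfl
  let V : ℕ → Set X := fun n =>
    if n = 0 then U0 else if n % 2 = 1 then U (n / 2) else U' (n / 2 - 1)
  have hV : ∀ n, V n ∈ C n := by
    intro n
    by_cases h0 : n = 0
    · subst h0; exact hU0
    by_cases h1 : n % 2 = 1
    · have e : n = 2 * (n / 2) + 1 := by omega
      simp only [V, h0, h1, if_false, if_true]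
      have := hU (n / 2)
      rwa [← e] at this
    · have e : n = 2 * (n / 2 - 1) + 2 := by omega
      simp only [V, h0, h1, if_false]
      have := hU' (n / 2 - 1)
      rwa [← e] at this
  refine hno ⟨V, hV, range_gamma (fun n => (hC n).1 _ (hV n))
    (fun n h => (hC n).2.1.2 (h ▸ hV n)) fun x => ?_⟩
  obtain ⟨b, hb⟩ := (hcon (i x) ⟨x, rfl⟩).bddAbove
  have hx : ∀ k, b < k → x ∈ U k ∩ U' k := by
    intro k hk
    by_contra h
    have := hb ⟨hg' ▸ mem_univ k, fun h' => h (by rwa [mem_preimage, hri] at h')⟩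
    omega
  filter_upwards [eventually_ge_atTop (2 * b + 5)] with n hn
  have h0 : n ≠ 0 := by omega
  by_cases h1 : n % 2 = 1
  · simp only [V, h0, h1, if_false, if_true]
    exact (hx _ (by omega)).1
  · simp only [V, h0, h1, if_false]
    exact (hx _ (by omega)).2

theorem strong_of_double [T1Space Y] {i j : X → Y} (hic : IsClosed (range i))
    (hjc : IsClosed (range j)) (hd : Disjoint (range i) (range j))
    {r : Y → X} (hr : Continuous r) (hri : ∀ x, r (i x) = x) (hrj : ∀ x, r (j x) = x)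
    (hS : S1Seq (NCover Y) (Tau Y)) : S1Seq (NCover X) (Gamma X) := by
  intro C hC
  rcases finite_or_infinite X with hX | hX
  · have := Fintype.ofFinite X
    obtain ⟨U, hU, h⟩ := (hC (Fintype.card X)).2.2 Finset.univ rfl
    rw [Finset.coe_univ, univ_subset_iff] at h
    exact absurd (h ▸ hU) (hC _).2.1.2
  by_contra hno
  let e : ℕ → X := Infinite.natEmbedding X
  have he : Function.Injective e := (Infinite.natEmbedding X).injective
  have hii : Function.Injective i := Function.LeftInverse.injective hri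
  have hji : Function.Injective j := Function.LeftInverse.injective hrj
  obtain ⟨U, hU, hτ⟩ := hS
    (fun n => if n % 2 = 0 then W (range i) r (j ∘ e) C (n / 2)
      else W (range j) r (i ∘ e) C (n / 2)) (by
      intro n
      by_cases h : n % 2 = 0
      · simp only [h, if_true]; exact W_mem hic hr (hji.comp he) hC _ _ (by omega)
      · simp only [h, if_false]; exact W_mem hjc hr (hii.comp he) hC _ _ (by omega))
  obtain ⟨x, hx, hx'⟩ := W_half (R := range U) hri (hji.comp he)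
    (fun m h => disjoint_left.1 hd h ⟨_, rfl⟩) hC hno (by
    intro k
    have := hU (2 * k)
    have e1 : 2 * k % 2 = 0 := by omega
    have e2 : 2 * k / 2 = k := by omega
    simp only [e1, e2, if_true] at this
    exact ⟨_, this, _, rfl⟩)
  obtain ⟨y, hy, hy'⟩ := W_half (R := range U) hrj (hii.comp he)
    (fun m h => disjoint_left.1 hd ⟨_, rfl⟩ h) hC hno (by
    intro k
    have := hU (2 * k + 1)
    have e1 : ¬ (2 * k + 1) % 2 = 0 := by omega
    have e2 : (2 * k + 1) / 2 = k := by omega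
    simp only [e1, e2, if_false] at this
    exact ⟨_, this, _, rfl⟩)
  rcases hτ.2.2.2 x y with h | h
  · exact hy' x (fun h' => disjoint_left.1 hd hx h') h
  · exact hx' y (fun h' => disjoint_left.1 hd h' hy) h

end double

theorem exists_double (X : Set ℝ) (h1 : S1 (Omega X) (Gamma X))
    (h2 : ¬ S1Seq (NCover X) (Gamma X)) :
    ∃ Y : Set ℝ, S1 (Omega Y) (Gamma Y) ∧ ¬ S1Seq (NCover Y) (Tau Y) := by
  let Y : Set ℝ := {y | y ≠ 0 ∧ Real.log y ∈ X}
  let i : X → Y := fun x => ⟨Real.exp x, (Real.exp_pos _).ne', by simp⟩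
  let j : X → Y := fun x => ⟨-Real.exp x, neg_ne_zero.2 (Real.exp_pos _).ne', by simp⟩
  let r : Y → X := fun y => ⟨Real.log y, y.2.2⟩
  have hi : Continuous i := by fun_prop
  have hj : Continuous j := by fun_prop
  have hr : Continuous r := (continuous_subtype_val.log fun y => y.2.1).subtype_mk _
  have hri : ∀ x, r (i x) = x := fun x => by simp [r, i]
  have hrj : ∀ x, r (j x) = x := fun x => by simp [r, j]
  have ei : range i = {y : Y | 0 ≤ (y : ℝ)} := by
    ext y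
    constructor
    · rintro ⟨x, rfl⟩; exact (Real.exp_pos _).le
    · intro hy
      exact ⟨r y, Subtype.ext (Real.exp_log (lt_of_le_of_ne hy y.2.1.symm))⟩
  have ej : range j = {y : Y | (y : ℝ) ≤ 0} := by
    ext y
    constructor
    · rintro ⟨x, rfl⟩; exact neg_nonpos.2 (Real.exp_pos _).le
    · intro hy
      refine ⟨r y, Subtype.ext ?_⟩
      show -Real.exp (Real.log y) = y
      rw [Real.exp_log_of_neg (lt_of_le_of_ne hy y.2.1), neg_neg]
  refine ⟨Y, S1OG_double h1 hi hj (fun y => ?_) hri hrj, fun h => h2 (strong_of_double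
    (i := i) (j := j) ?_ ?_ ?_ hr hri hrj h)⟩
  · rw [ei, ej]; exact le_total (0 : ℝ) (y : ℝ)
  · rw [ei]; exact isClosed_le continuous_const continuous_subtype_val
  · rw [ej]; exact isClosed_le continuous_subtype_val continuous_const
  · rw [ei, ej, disjoint_left]
    exact fun y h h' => y.2.1 (le_antisymm h' h)

end Pool.Agent.H85.Tau2
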