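import Mathlib

set_option autoImplicit false

namespace Pool.Agent.H85.TauDefs

open Set

variable {Y : Type}

/-- A cover of the space `Y`: the union is everything and `Y` itself is not a member. -/
def IsCover (C : Set (Set Y)) : Prop := ⋃₀ C = univ ∧ (univ : Set Y) ∉ C

/-- Open omega-covers: every finite set lies in some member. -/
def Omega (Y : Type) [TopologicalSpace Y] : Set (Set (Set Y)) :=
  {C | (∀ U ∈ C, IsOpen U) ∧ IsCover C ∧ ∀ F : Set Y, F.Finite → ∃ U ∈ C, F ⊆ U}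

/-- Open gamma-covers: infinite, and each point lies in all but finitely many members. -/
def Gamma (Y : Type) [TopologicalSpace Y] : Set (Set (Set Y)) :=
  {C | (∀ U ∈ C, IsOpen U) ∧ IsCover C ∧ C.Infinite ∧ ∀ x : Y, {U ∈ C | x ∉ U}.Finite}

/-- Open tau-covers: large, and any two points are almost comparable. -/
def Tau (Y : Type) [TopologicalSpace Y] : Set (Set (Set Y)) :=
  {C | (∀ U ∈ C, IsOpen U) ∧ IsCover C ∧ (∀ x : Y, {U ∈ C | x ∈ U}.Infinite) ∧
    ∀ x y : Y, {U ∈ C | x ∈ U ∧ y ∉ U}.Finite ∨ {U ∈ C | y ∈ U ∧ x ∉ U}.Finite}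

/-- The selection principle `S1(A, B)`. -/
def S1 (A B : Set (Set (Set Y))) : Prop :=
  ∀ C : ℕ → Set (Set Y), (∀ n, C n ∈ A) → ∃ U : ℕ → Set Y, (∀ n, U n ∈ C n) ∧ range U ∈ B

end Pool.Agent.H85.TauDefs
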