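import Mathlib
import Pool.Agent.H85.TauDefs

set_option autoImplicit false

namespace Pool.Agent.H85.SplitDefs

open Set Pool.Agent.H85.TauDefs

variable {Y : Type}

/-- Open large covers: every point lies in infinitely many members. -/
def Lambda (Y : Type) [TopologicalSpace Y] : Set (Set (Set Y)) :=
  {C | (∀ U ∈ C, IsOpen U) ∧ IsCover C ∧ ∀ x : Y, {U ∈ C | x ∈ U}.Infinite}

/-- `Split(A, B)`: each member of `A` is a union of two disjoint subfamilies, each containing
a member of `B`. -/
def Split (A B : Set (Set (Set Y))) : Prop :=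
  ∀ C ∈ A, ∃ V W : Set (Set Y), V ∪ W = C ∧ Disjoint V W ∧
    (∃ V' ∈ B, V' ⊆ V) ∧ ∃ W' ∈ B, W' ⊆ W

end Pool.Agent.H85.SplitDefs
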