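import Mathlib
import Pool.Agent.H85.TauDefs

set_option autoImplicit false

namespace Pool.Agent.H85.Tau

open Set Filter Pool.Agent.H85.TauDefs

variable {Y : Type}

/-- A prime sigma-ideal containing the points contains the whole space. -/
theorem univ_mem_of_prime [TopologicalSpace Y] [SecondCountableTopology Y] [T3Space Y]
    (J : Set Y → Prop) (h0 : J ∅) (hpt : ∀ x, J {x})
    (hσ : ∀ A : ℕ → Set Y, (∀ n, J (A n)) → J (⋃ n, A n))
    (hpr : ∀ A B : Set Y, IsClosed A → IsClosed B → Disjoint A B → J A ∨ J B) : J univ := by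
  have hS : ∀ S : Set (Set Y), S.Countable → (∀ A ∈ S, J A) → J (⋃₀ S) := by
    intro S hS hJ
    rcases S.eq_empty_or_nonempty with rfl | hne
    · simpa using h0
    · obtain ⟨f, rfl⟩ := hS.exists_eq_range hne
      rw [sUnion_range]
      exact hσ f fun n => hJ _ ⟨n, rfl⟩
  let S : Set (Set Y) := {A | J A ∧ ∃ b ∈ TopologicalSpace.countableBasis Y, A = closure b}
  have hSc : S.Countable := by
    refine ((TopologicalSpace.countable_countableBasis Y).image closure).mono ?_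
    rintro A ⟨_, b, hb, rfl⟩
    exact ⟨b, hb, rfl⟩
  have hsub : (⋃₀ S)ᶜ.Subsingleton := by
    intro x hx y hy
    by_contra hxy
    obtain ⟨U, V, hU, hV, hUV⟩ := t2_separation_nhds hxy
    obtain ⟨U', hU', hU'c, hU'U⟩ := exists_mem_nhds_isClosed_subset hU
    obtain ⟨V', hV', hV'c, hV'V⟩ := exists_mem_nhds_isClosed_subset hV
    obtain ⟨b, hb, hxb, hbU⟩ := (TopologicalSpace.isBasis_countableBasis Y).mem_nhds_iff.1 hU'
    obtain ⟨c, hc, hyc, hcV⟩ := (TopologicalSpace.isBasis_countableBasis Y).mem_nhds_iff.1 hV'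
    have hd : Disjoint (closure b) (closure c) :=
      hUV.mono ((closure_minimal hbU hU'c).trans hU'U) ((closure_minimal hcV hV'c).trans hV'V)
    rcases hpr _ _ isClosed_closure isClosed_closure hd with h | h
    · exact hx ⟨_, ⟨h, b, hb, rfl⟩, subset_closure hxb⟩
    · exact hy ⟨_, ⟨h, c, hc, rfl⟩, subset_closure hyc⟩
  have hc : J (⋃₀ S)ᶜ := by
    rcases hsub.eq_empty_or_singleton with h | ⟨x, h⟩
    · rw [h]; exact h0
    · rw [h]; exact hpt x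
  have := hS {⋃₀ S, (⋃₀ S)ᶜ} (by simp) (by
    rintro A (rfl | rfl)
    · exact hS S hSc fun A hA => hA.1
    · exact hc)
  simpa using this

/-- The modified sets used in the two piece argument. -/
def vv (A : Set Y) (w : ℕ → Set Y) (p : ℕ → Y) (j : ℕ) : Set Y := (w j ∪ Aᶜ) \ {p j}

theorem vv_inj {A : Set Y} {w : ℕ → Set Y} {p : ℕ → Y} (hp : Function.Injective p)
    (hpA : ∀ j, p j ∉ A) : Function.Injective (vv A w p) := by
  intro i j hij
  by_contra hne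
  have h1 : p i ∈ vv A w p j := ⟨Or.inr (hpA i), fun h => hne (hp h)⟩
  rw [← hij] at h1
  exact h1.2 rfl

theorem vv_ne {A : Set Y} {w : ℕ → Set Y} {p : ℕ → Y} (j : ℕ) : vv A w p j ≠ univ := by
  intro h
  have : p j ∈ vv A w p j := h ▸ mem_univ _
  exact this.2 rfl

theorem vv_open [TopologicalSpace Y] [T1Space Y] {A : Set Y} {w : ℕ → Set Y} {p : ℕ → Y}
    (hA : IsClosed A) (j : ℕ) (hw : IsOpen (w j)) : IsOpen (vv A w p j) :=
  (hw.union hA.isOpen_compl).sdiff isClosed_singleton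

theorem fin_p {p : ℕ → Y} (hp : Function.Injective p) (x : Y) : {j | p j = x}.Finite := by
  have : {j | p j = x} = p ⁻¹' {x} := rfl
  rw [this]
  exact (finite_singleton x).preimage hp.injOn

theorem half_piece {A : Set Y} {w : ℕ → Set Y} {p : ℕ → Y} (hp : Function.Injective p)
    (hpA : ∀ j, p j ∉ A) {T : ℕ → Set ℕ}
    (hbad : ∀ g : ℕ → ℕ, (∀ k, g k ∈ T k) → ∃ x ∈ A, {j ∈ range g | x ∉ w j}.Infinite)
    {R : Set (Set Y)} (hR : ∀ k, ∃ j ∈ T k, vv A w p j ∈ R) :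
    ∃ x ∈ A, ∀ y, y ∉ A → {U ∈ R | y ∈ U ∧ x ∉ U}.Infinite := by
  choose g hg hgR using hR
  obtain ⟨x, hx, hinf⟩ := hbad g hg
  refine ⟨x, hx, fun y hy => ?_⟩
  have h1 := (hinf.sdiff (fin_p hp y)).image (vv_inj (w := w) hp hpA).injOn
  refine h1.mono ?_
  rintro _ ⟨j, ⟨⟨⟨k, rfl⟩, hxw⟩, hj⟩, rfl⟩
  refine ⟨hgR k, ⟨Or.inr hy, fun h => hj (Eq.symm h)⟩, ?_⟩
  rintro ⟨h | h, _⟩
  · exact hxw h
  · exact h hx

/-- The two piece argument. -/
theorem two_piece [TopologicalSpace Y] {K : Set (Set (Set Y))} (hS : S1 K (Tau Y))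
    {A B : Set Y} (hAB : Disjoint A B) (hAi : A.Infinite) (hBi : B.Infinite)
    (w w' : ℕ → Set Y) (T T' : ℕ → Set ℕ)
    (hK : ∀ p : ℕ → Y, Function.Injective p → (∀ j, p j ∉ A) → ∀ k, vv A w p '' T k ∈ K)
    (hK' : ∀ p : ℕ → Y, Function.Injective p → (∀ j, p j ∉ B) → ∀ k, vv B w' p '' T' k ∈ K)
    (hbad : ∀ g : ℕ → ℕ, (∀ k, g k ∈ T k) → ∃ x ∈ A, {j ∈ range g | x ∉ w j}.Infinite)
    (hbad' : ∀ g : ℕ → ℕ, (∀ k, g k ∈ T' k) → ∃ x ∈ B, {j ∈ range g | x ∉ w' j}.Infinite) :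
    False := by
  let p : ℕ → Y := fun j => (hBi.natEmbedding B j : Y)
  let q : ℕ → Y := fun j => (hAi.natEmbedding A j : Y)
  have hp : Function.Injective p := Subtype.val_injective.comp (hBi.natEmbedding B).injective
  have hq : Function.Injective q := Subtype.val_injective.comp (hAi.natEmbedding A).injective
  have hpA : ∀ j, p j ∉ A := fun j h => disjoint_left.1 hAB h (hBi.natEmbedding B j).2
  have hqB : ∀ j, q j ∉ B := fun j h => disjoint_left.1 hAB (hAi.natEmbedding A j).2 h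
  obtain ⟨U, hU, hτ⟩ := hS
    (fun n => if n % 2 = 0 then vv A w p '' T (n / 2) else vv B w' q '' T' (n / 2)) (by
      intro n
      by_cases h : n % 2 = 0
      · simp only [h, if_true]; exact hK p hp hpA _
      · simp only [h, if_false]; exact hK' q hq hqB _)
  obtain ⟨x, hx, hx'⟩ := half_piece (R := range U) hp hpA hbad (by
    intro k
    have := hU (2 * k)
    have e1 : 2 * k % 2 = 0 := by omega
    have e2 : 2 * k / 2 = k := by omega
    simp only [e1, e2, if_true] at this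
    obtain ⟨j, hj, hj'⟩ := this
    exact ⟨j, hj, _, hj'.symm⟩)
  obtain ⟨y, hy, hy'⟩ := half_piece (R := range U) hq hqB hbad' (by
    intro k
    have := hU (2 * k + 1)
    have e1 : ¬ (2 * k + 1) % 2 = 0 := by omega
    have e2 : (2 * k + 1) / 2 = k := by omega
    simp only [e1, e2, if_false] at this
    obtain ⟨j, hj, hj'⟩ := this
    exact ⟨j, hj, _, hj'.symm⟩)
  rcases hτ.2.2.2 x y with h | h
  · exact hy' x (fun h' => disjoint_left.1 hAB hx h') h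
  · exact hx' y (fun h' => disjoint_left.1 hAB h' hy) h

/-- The ideal attached to an array of sets. -/
def JG (u : ℕ → ℕ → Set Y) (A : Set Y) : Prop :=
  ∀ S : ℕ → Set ℕ, (∀ n, (S n).Infinite) → ∃ S' : ℕ → Set ℕ, (∀ n, S' n ⊆ S n) ∧
    (∀ n, (S' n).Infinite) ∧ ∀ x ∈ A, ∀ᶠ n in atTop, ∀ m ∈ S' n, x ∈ u n m

theorem JG_mono {u : ℕ → ℕ → Set Y} {A B : Set Y} (h : JG u B) (hAB : A ⊆ B) : JG u A := by
  intro S hS
  obtain ⟨S', h1, h2, h3⟩ := h S hS
  exact ⟨S', h1, h2, fun x hx => h3 x (hAB hx)⟩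

theorem JG_empty (u : ℕ → ℕ → Set Y) : JG u ∅ := fun S hS =>
  ⟨S, fun _ => Subset.rfl, hS, fun _ h => h.elim⟩

theorem JG_single {u : ℕ → ℕ → Set Y} (hu : ∀ x n, ∀ᶠ m in atTop, x ∈ u n m) (x : Y) :
    JG u {x} := by
  intro S hS
  refine ⟨fun n => S n \ {m | x ∉ u n m}, fun n => sdiff_subset, fun n => (hS n).sdiff ?_, ?_⟩
  · have := hu x n
    rwa [← Nat.cofinite_eq_atTop, eventually_cofinite] at this
  · rintro y rfl
    exact Eventually.of_forall fun n m hm => not_not.1 hm.2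

theorem JG_iUnion {u : ℕ → ℕ → Set Y} (A : ℕ → Set Y) (hA : ∀ k, JG u (A k)) :
    JG u (⋃ k, A k) := by
  intro S hS
  choose F hF1 hF2 hF3 using hA
  let Q : ℕ → {S : ℕ → Set ℕ // ∀ n, (S n).Infinite} := fun k =>
    Nat.rec ⟨S, hS⟩ (fun k P => ⟨F k P.1 P.2, hF2 k P.1 P.2⟩) k
  have hQs : ∀ k n, (Q (k + 1)).1 n ⊆ (Q k).1 n := fun k n => hF1 k (Q k).1 (Q k).2 n
  have hanti : ∀ n, Antitone fun k => (Q k).1 n := fun n =>
    antitone_nat_of_succ_le fun k => hQs k n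
  refine ⟨fun n => (Q n).1 n, fun n => hanti n (Nat.zero_le n), fun n => (Q n).2 n, ?_⟩
  intro x hx
  obtain ⟨k, hk⟩ := mem_iUnion.1 hx
  filter_upwards [hF3 k (Q k).1 (Q k).2 x hk, eventually_ge_atTop (k + 1)] with n h1 h2 m hm
  exact h1 m (hanti n h2 hm)

theorem JG_finite {u : ℕ → ℕ → Set Y} (hu : ∀ x n, ∀ᶠ m in atTop, x ∈ u n m) {A : Set Y}
    (hA : A.Finite) : JG u A := by
  rcases A.eq_empty_or_nonempty with rfl | hne
  · exact JG_empty u
  · obtain ⟨f, rfl⟩ := hA.countable.exists_eq_range hne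
    rw [← iUnion_singleton_eq_range]
    exact JG_iUnion _ fun k => JG_single hu _

theorem image_gamma [TopologicalSpace Y] {v : ℕ → Set Y} (hv : Function.Injective v)
    (ho : ∀ j, IsOpen (v j)) (hne : ∀ j, v j ≠ univ) {T : Set ℕ} (hT : T.Infinite)
    (hx : ∀ x, {j ∈ T | x ∉ v j}.Finite) : v '' T ∈ Gamma Y := by
  refine ⟨?_, ⟨?_, ?_⟩, hT.image hv.injOn, fun x => ((hx x).image v).subset ?_⟩
  · rintro _ ⟨j, _, rfl⟩; exact ho j
  · refine eq_univ_of_forall fun x => ?_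
    obtain ⟨j, hj, hj'⟩ := (hT.sdiff (hx x)).nonempty
    exact ⟨v j, ⟨j, hj, rfl⟩, by by_contra h; exact hj' ⟨hj, h⟩⟩
  · rintro ⟨j, _, h⟩; exact hne j h
  · rintro _ ⟨⟨j, hj, rfl⟩, h⟩; exact ⟨j, ⟨hj, h⟩, rfl⟩

theorem not_JG {u : ℕ → ℕ → Set Y} (hu : ∀ x n, ∀ᶠ m in atTop, x ∈ u n m) {A : Set Y}
    (hA : ¬ JG u A) : ∃ T : ℕ → Set ℕ, (∀ k, (T k).Infinite) ∧
      (∀ k x, {j ∈ T k | x ∉ u j.unpair.1 j.unpair.2}.Finite) ∧
      ∀ g : ℕ → ℕ, (∀ k, g k ∈ T k) →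
        ∃ x ∈ A, {j ∈ range g | x ∉ u j.unpair.1 j.unpair.2}.Infinite := by
  unfold JG at hA
  push Not at hA
  obtain ⟨S, hS, hA⟩ := hA
  have hpi : ∀ n : ℕ, Function.Injective (Nat.pair n) := fun n a b h => (Nat.pair_eq_pair.1 h).2
  refine ⟨fun k => Nat.pair k.unpair.1 '' (S k.unpair.1 \ Iio k.unpair.2), fun k => ?_,
    fun k x => ?_, fun g hg => ?_⟩
  · exact ((hS _).sdiff (finite_Iio _)).image (hpi _).injOn
  · have := hu x k.unpair.1
    rw [← Nat.cofinite_eq_atTop, eventually_cofinite] at this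
    refine (this.image (Nat.pair k.unpair.1)).subset ?_
    rintro _ ⟨⟨m, _, rfl⟩, h⟩
    exact ⟨m, by simpa using h, rfl⟩
  · choose m hm hmg using hg
    obtain ⟨x, hx, hfr⟩ := hA (fun n => range fun i => m (Nat.pair n i)) (by
      rintro n _ ⟨i, rfl⟩
      simpa using (hm (Nat.pair n i)).1) (by
      intro n
      refine infinite_of_not_bddAbove ?_
      rintro ⟨b, hb⟩
      have h1 := hb ⟨b + 1, rfl⟩
      have h2 := (hm (Nat.pair n (b + 1))).2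
      simp at h1 h2
      omega)
    refine ⟨x, hx, ?_⟩
    rw [← Nat.cofinite_eq_atTop, frequently_cofinite_iff_infinite] at hfr
    refine Infinite.of_image (fun j => j.unpair.1) (hfr.mono ?_)
    rintro n ⟨_, ⟨i, rfl⟩, h⟩
    refine ⟨g (Nat.pair n i), ⟨⟨_, rfl⟩, ?_⟩, ?_⟩
    · rw [← hmg]; simpa using h
    · rw [← hmg]; simp

theorem vv_miss {A : Set Y} {w : ℕ → Set Y} {p : ℕ → Y} (hp : Function.Injective p) {T : Set ℕ}
    {x : Y} (h : {j ∈ T | x ∉ w j}.Finite) : {j ∈ T | x ∉ vv A w p j}.Finite := by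
  refine (h.union (fin_p hp x)).subset ?_
  rintro j ⟨hj, hx⟩
  by_cases h1 : x ∈ w j
  · right
    by_contra h2
    exact hx ⟨Or.inl h1, fun h3 => h2 (Eq.symm h3)⟩
  · exact Or.inl ⟨hj, h1⟩

theorem JG_univ [TopologicalSpace Y] [SecondCountableTopology Y] [T3Space Y]
    (hS : S1 (Gamma Y) (Tau Y)) {u : ℕ → ℕ → Set Y} (ho : ∀ n m, IsOpen (u n m))
    (hu : ∀ x n, ∀ᶠ m in atTop, x ∈ u n m) : JG u univ := by
  refine univ_mem_of_prime (JG u) (JG_empty u) (JG_single hu) JG_iUnion ?_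
  intro A B hA hB hAB
  by_contra hcon
  push Not at hcon
  obtain ⟨T, hT1, hT2, hT3⟩ := not_JG hu hcon.1
  obtain ⟨T', hT1', hT2', hT3'⟩ := not_JG hu hcon.2
  refine two_piece hS hAB (fun h => hcon.1 (JG_finite hu h)) (fun h => hcon.2 (JG_finite hu h))
    (fun j => u j.unpair.1 j.unpair.2) (fun j => u j.unpair.1 j.unpair.2) T T' ?_ ?_ hT3 hT3'
  · intro p hp hpA k
    exact image_gamma (vv_inj hp hpA) (fun j => vv_open hA j (ho _ _)) vv_ne (hT1 k)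
      fun x => vv_miss hp (hT2 k x)
  · intro p hp hpA k
    exact image_gamma (vv_inj hp hpA) (fun j => vv_open hB j (ho _ _)) vv_ne (hT1' k)
      fun x => vv_miss hp (hT2' k x)

theorem JG_select {u : ℕ → ℕ → Set Y} (h : JG u univ) :
    ∃ g : ℕ → ℕ, ∀ x, ∀ᶠ n in atTop, x ∈ u n (g n) := by
  obtain ⟨S', _, h2, h3⟩ := h (fun _ => univ) fun _ => infinite_univ
  choose g hg using fun n => (h2 n).nonempty
  exact ⟨g, fun x => (h3 x trivial).mono fun n hn => hn _ (hg n)⟩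

/-- If every array of open sets has a selection then `S1(Gamma, Gamma)` holds. -/
theorem S1GG_of_JG [TopologicalSpace Y]
    (h : ∀ u : ℕ → ℕ → Set Y, (∀ n m, IsOpen (u n m)) → (∀ x n, ∀ᶠ m in atTop, x ∈ u n m) →
      JG u univ) : S1 (Gamma Y) (Gamma Y) := by
  intro C hC
  let u : ℕ → ℕ → Set Y := fun n m => ((hC n).2.2.1.natEmbedding (C n) m : Set Y)
  have huC : ∀ n m, u n m ∈ C n := fun n m => ((hC n).2.2.1.natEmbedding (C n) m).2
  have hui : ∀ n, Function.Injective (u n) := fun n =>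
    Subtype.val_injective.comp ((hC n).2.2.1.natEmbedding (C n)).injective
  obtain ⟨g, hg⟩ := JG_select (h u (fun n m => (hC n).1 _ (huC n m)) (by
    intro x n
    rw [← Nat.cofinite_eq_atTop, eventually_cofinite]
    exact (((hC n).2.2.2 x).preimage (hui n).injOn).subset fun m hm => ⟨huC n m, hm⟩))
  have hne : ∀ n, u n (g n) ≠ univ := fun n h' => (hC n).2.1.2 (h' ▸ huC n (g n))
  have hfin : ∀ x, {n | x ∉ u n (g n)}.Finite := fun x => by
    have := hg x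
    rwa [← Nat.cofinite_eq_atTop, eventually_cofinite] at this
  refine ⟨fun n => u n (g n), fun n => huC n _, ?_, ⟨?_, ?_⟩, ?_, fun x => ?_⟩
  · rintro _ ⟨n, rfl⟩; exact (hC n).1 _ (huC n _)
  · refine eq_univ_of_forall fun x => ?_
    obtain ⟨n, hn⟩ := (hg x).exists
    exact ⟨_, ⟨n, rfl⟩, hn⟩
  · rintro ⟨n, hn⟩; exact hne n hn
  · intro hf
    have : (univ : Set ℕ).Finite := by
      refine Finite.of_finite_fibers (fun n => u n (g n)) (by simpa using hf) ?_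
      rintro _ ⟨n, _, rfl⟩
      obtain ⟨x, hx⟩ := (ne_univ_iff_exists_notMem _).1 (hne n)
      refine (hfin x).subset ?_
      rintro k ⟨_, hk⟩
      have hk' : u k (g k) = u n (g n) := hk
      show x ∉ u k (g k)
      rw [hk']; exact hx
    exact infinite_univ this
  · refine ((hfin x).image fun n => u n (g n)).subset ?_
    rintro _ ⟨⟨n, rfl⟩, hn⟩
    exact ⟨n, hn, rfl⟩

theorem S1_mono {A A' B B' : Set (Set (Set Y))} (h : S1 A B) (hA : A' ⊆ A) (hB : B ⊆ B') :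
    S1 A' B' := fun C hC => by
  obtain ⟨U, h1, h2⟩ := h C fun n => hA (hC n)
  exact ⟨U, h1, hB h2⟩

theorem gamma_sub_tau [TopologicalSpace Y] : Gamma Y ⊆ Tau Y := by
  rintro C ⟨h1, h2, h3, h4⟩
  refine ⟨h1, h2, fun x => (h3.sdiff (h4 x)).mono ?_, fun x y => Or.inl ((h4 y).subset ?_)⟩
  · rintro U ⟨hU, h⟩
    exact ⟨hU, by by_contra h'; exact h ⟨hU, h'⟩⟩
  · rintro U ⟨hU, _, h⟩; exact ⟨hU, h⟩

theorem tau_inter {C : Set (Set Y)} (h3 : ∀ x : Y, {U ∈ C | x ∈ U}.Infinite)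
    (h4 : ∀ x y : Y, {U ∈ C | x ∈ U ∧ y ∉ U}.Finite ∨ {U ∈ C | y ∈ U ∧ x ∉ U}.Finite)
    {F : Set Y} (hF : F.Finite) (hne : F.Nonempty) : {U ∈ C | F ⊆ U}.Infinite := by
  have key : ∃ x ∈ F, {U ∈ C | x ∈ U ∧ ¬ F ⊆ U}.Finite := by
    induction F, hF using Set.Finite.induction_on with
    | empty => exact absurd hne (by simp)
    | @insert a s _ _ ih =>
      rcases s.eq_empty_or_nonempty with rfl | hs
      · exact ⟨a, by simp, by simp⟩
      · obtain ⟨x, hx, hfin⟩ := ih hs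
        rcases h4 x a with h | h
        · refine ⟨x, mem_insert_of_mem _ hx, (hfin.union h).subset ?_⟩
          rintro U ⟨hU, hxU, hn⟩
          by_cases haU : a ∈ U
          · exact Or.inl ⟨hU, hxU, fun hs => hn (insert_subset haU hs)⟩
          · exact Or.inr ⟨hU, hxU, haU⟩
        · refine ⟨a, mem_insert _ _, (hfin.union h).subset ?_⟩
          rintro U ⟨hU, haU, hn⟩
          by_cases hxU : x ∈ U
          · exact Or.inl ⟨hU, hxU, fun hs => hn (insert_subset haU hs)⟩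
          · exact Or.inr ⟨hU, haU, hxU⟩
  obtain ⟨x, _, hfin⟩ := key
  refine ((h3 x).sdiff hfin).mono ?_
  rintro U ⟨⟨hU, hxU⟩, h⟩
  exact ⟨hU, by by_contra h'; exact h ⟨hU, hxU, h'⟩⟩

theorem tau_sub_omega [TopologicalSpace Y] [Nonempty Y] : Tau Y ⊆ Omega Y := by
  rintro C ⟨h1, h2, h3, h4⟩
  refine ⟨h1, h2, fun F hF => ?_⟩
  obtain ⟨y⟩ := ‹Nonempty Y›
  obtain ⟨U, hU, h⟩ := (tau_inter h3 h4 (hF.insert y) (insert_nonempty _ _)).nonempty
  exact ⟨U, hU, (subset_insert _ _).trans h⟩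

theorem S1GG_of_S1GT [TopologicalSpace Y] [SecondCountableTopology Y] [T3Space Y]
    (hS : S1 (Gamma Y) (Tau Y)) : S1 (Gamma Y) (Gamma Y) :=
  S1GG_of_JG fun _ ho hu => JG_univ hS ho hu

/-- Restriction of an array to a subspace. -/
theorem JG_of_sub {Z : Type} (e : Z → Y) {u : ℕ → ℕ → Set Y}
    (h : JG (fun n m => e ⁻¹' u n m) univ) : JG u (range e) := by
  intro S hS
  obtain ⟨S', h1, h2, h3⟩ := h S hS
  refine ⟨S', h1, h2, ?_⟩
  rintro _ ⟨z, rfl⟩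
  exact h3 z trivial

theorem S1GT_iUnion (X : ℕ → Set ℝ) (hX : ∀ k, S1 (Gamma (X k)) (Tau (X k))) :
    S1 (Gamma (⋃ k, X k : Set ℝ)) (Tau (⋃ k, X k : Set ℝ)) := by
  refine S1_mono (S1GG_of_JG fun u ho hu => ?_) Subset.rfl gamma_sub_tau
  have hk : ∀ k, JG u (range (inclusion (subset_iUnion X k))) := fun k =>
    JG_of_sub _ (JG_univ (hX k)
      (fun n m => (ho n m).preimage (continuous_inclusion _)) fun x n => hu _ n)
  refine JG_mono (JG_iUnion _ hk) ?_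
  rintro ⟨x, hx⟩ _
  obtain ⟨k, hk⟩ := mem_iUnion.1 hx
  exact mem_iUnion.2 ⟨k, ⟨x, hk⟩, rfl⟩

/-- The ideal of sets with a pseudo-intersection. -/
def JT (u : ℕ → Set Y) (A : Set Y) : Prop :=
  ∃ P : Set ℕ, P.Infinite ∧ ∀ x ∈ A, {j ∈ P | x ∉ u j}.Finite

theorem inter_inf {u : ℕ → Set Y} (h3 : ∀ x, {j | x ∈ u j}.Infinite)
    (h4 : ∀ x y : Y, {j | x ∈ u j ∧ y ∉ u j}.Finite ∨ {j | y ∈ u j ∧ x ∉ u j}.Finite)
    (x : ℕ → Y) (n : ℕ) : {j | ∀ i ≤ n, x i ∈ u j}.Infinite := by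
  have key : ∃ k, {j | x k ∈ u j ∧ ¬ ∀ i ≤ n, x i ∈ u j}.Finite := by
    induction n with
    | zero => exact ⟨0, by simp⟩
    | succ n ih =>
      obtain ⟨k, hk⟩ := ih
      rcases h4 (x k) (x (n + 1)) with h | h
      · refine ⟨k, (hk.union h).subset ?_⟩
        rintro j ⟨hj, hn⟩
        by_cases ha : x (n + 1) ∈ u j
        · refine Or.inl ⟨hj, fun hs => hn fun i hi => ?_⟩
          rcases Nat.of_le_succ hi with h' | rfl
          · exact hs i h'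
          · exact ha
        · exact Or.inr ⟨hj, ha⟩
      · refine ⟨n + 1, (hk.union h).subset ?_⟩
        rintro j ⟨hj, hn⟩
        by_cases ha : x k ∈ u j
        · refine Or.inl ⟨ha, fun hs => hn fun i hi => ?_⟩
          rcases Nat.of_le_succ hi with h' | rfl
          · exact hs i h'
          · exact hj
        · exact Or.inr ⟨hj, ha⟩
  obtain ⟨k, hk⟩ := key
  refine ((h3 (x k)).sdiff hk).mono ?_
  rintro j ⟨hj, h⟩
  by_contra h'
  exact h ⟨hj, h'⟩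

theorem JT_range {u : ℕ → Set Y} (h3 : ∀ x, {j | x ∈ u j}.Infinite)
    (h4 : ∀ x y : Y, {j | x ∈ u j ∧ y ∉ u j}.Finite ∨ {j | y ∈ u j ∧ x ∉ u j}.Finite)
    (x : ℕ → Y) : JT u (range x) := by
  choose g hg hgn using fun n => (inter_inf h3 h4 x n).exists_gt n
  refine ⟨range g, infinite_of_not_bddAbove ?_, ?_⟩
  · rintro ⟨b, hb⟩
    have h1 := hb ⟨b, rfl⟩
    have h2 := hgn b
    omega
  · rintro _ ⟨k, rfl⟩
    refine ((finite_Iio k).image g).subset ?_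
    rintro _ ⟨⟨n, rfl⟩, hn⟩
    refine ⟨n, ?_, rfl⟩
    by_contra h
    exact hn (hg n k (not_lt.1 h))

theorem JT_iUnion {u : ℕ → Set Y} (h3 : ∀ x, {j | x ∈ u j}.Infinite)
    (h4 : ∀ x y : Y, {j | x ∈ u j ∧ y ∉ u j}.Finite ∨ {j | y ∈ u j ∧ x ∉ u j}.Finite)
    (A : ℕ → Set Y) (hA : ∀ k, JT u (A k)) : JT u (⋃ k, A k) := by
  by_cases hco : ∃ k, ∀ x, ∃ y ∈ A k, {j | y ∈ u j ∧ x ∉ u j}.Finite
  · obtain ⟨k, hk⟩ := hco
    obtain ⟨P, hP, hPA⟩ := hA k
    refine ⟨P, hP, fun x _ => ?_⟩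
    obtain ⟨y, hy, hf⟩ := hk x
    refine ((hPA y hy).union hf).subset ?_
    rintro j ⟨hj, hx⟩
    by_cases h : y ∈ u j
    · exact Or.inr ⟨h, hx⟩
    · exact Or.inl ⟨hj, h⟩
  · push Not at hco
    choose x hx using hco
    obtain ⟨P, hP, hPA⟩ := JT_range h3 h4 x
    refine ⟨P, hP, fun y hy => ?_⟩
    obtain ⟨k, hk⟩ := mem_iUnion.1 hy
    have hf := (h4 (x k) y).resolve_right (hx k y hk)
    refine ((hPA (x k) ⟨k, rfl⟩).union hf).subset ?_
    rintro j ⟨hj, hy⟩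
    by_cases h : x k ∈ u j
    · exact Or.inr ⟨h, hy⟩
    · exact Or.inl ⟨hj, h⟩

theorem JT_finite {u : ℕ → Set Y} (h3 : ∀ x, {j | x ∈ u j}.Infinite)
    (h4 : ∀ x y : Y, {j | x ∈ u j ∧ y ∉ u j}.Finite ∨ {j | y ∈ u j ∧ x ∉ u j}.Finite)
    {A : Set Y} (hA : A.Finite) : JT u A := by
  rcases A.eq_empty_or_nonempty with rfl | hne
  · exact ⟨univ, infinite_univ, fun _ h => h.elim⟩
  · obtain ⟨f, rfl⟩ := hA.countable.exists_eq_range hne
    exact JT_range h3 h4 f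

theorem vv_tau [TopologicalSpace Y] [T1Space Y] {u : ℕ → Set Y} (ho : ∀ j, IsOpen (u j))
    (h3 : ∀ x, {j | x ∈ u j}.Infinite)
    (h4 : ∀ x y : Y, {j | x ∈ u j ∧ y ∉ u j}.Finite ∨ {j | y ∈ u j ∧ x ∉ u j}.Finite)
    {A : Set Y} (hA : IsClosed A) {p : ℕ → Y} (hp : Function.Injective p) (hpA : ∀ j, p j ∉ A)
    (k : ℕ) : vv A u p '' Ici k ∈ Tau Y := by
  have hinf : ∀ x, {U ∈ vv A u p '' Ici k | x ∈ U}.Infinite := by
    intro x
    refine ((((h3 x).sdiff (finite_Iio k)).sdiff (fin_p hp x)).image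
      (vv_inj (w := u) hp hpA).injOn).mono ?_
    rintro _ ⟨j, ⟨⟨h1, h2⟩, h5⟩, rfl⟩
    exact ⟨⟨j, mem_Ici.2 (not_lt.1 h2), rfl⟩, Or.inl h1, fun h => h5 (Eq.symm h)⟩
  have hcmp : ∀ x y, (y ∉ A ∨ (x ∈ A ∧ {j | x ∈ u j ∧ y ∉ u j}.Finite)) →
      {U ∈ vv A u p '' Ici k | x ∈ U ∧ y ∉ U}.Finite := by
    rintro x y (hy | ⟨hx, hf⟩)
    · refine ((fin_p hp y).image (vv A u p)).subset ?_
      rintro _ ⟨⟨j, _, rfl⟩, _, h⟩
      refine ⟨j, ?_, rfl⟩
      by_contra h'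
      exact h ⟨Or.inr hy, fun h'' => h' (Eq.symm h'')⟩
    · refine (((fin_p hp y).union hf).image (vv A u p)).subset ?_
      rintro _ ⟨⟨j, _, rfl⟩, h1, h⟩
      refine ⟨j, ?_, rfl⟩
      by_cases h' : p j = y
      · exact Or.inl h'
      · refine Or.inr ⟨h1.1.resolve_right (not_not.2 hx), fun h'' => ?_⟩
        exact h ⟨Or.inl h'', fun h'' => h' (Eq.symm h'')⟩
  refine ⟨?_, ⟨?_, ?_⟩, hinf, fun x y => ?_⟩
  · rintro _ ⟨j, _, rfl⟩; exact vv_open hA j (ho j)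
  · refine eq_univ_of_forall fun x => ?_
    obtain ⟨U, hU, hx⟩ := (hinf x).nonempty
    exact ⟨U, hU, hx⟩
  · rintro ⟨j, _, h⟩; exact vv_ne j h
  · by_cases hx : x ∈ A
    · by_cases hy : y ∈ A
      · rcases h4 x y with h | h
        · exact Or.inl (hcmp x y (Or.inr ⟨hx, h⟩))
        · exact Or.inr (hcmp y x (Or.inr ⟨hy, h⟩))
      · exact Or.inl (hcmp x y (Or.inl hy))
    · exact Or.inr (hcmp y x (Or.inl hx))

theorem not_JT {u : ℕ → Set Y} {A : Set Y} (hA : ¬ JT u A) (g : ℕ → ℕ) (hg : ∀ k, g k ∈ Ici k) :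
    ∃ x ∈ A, {j ∈ range g | x ∉ u j}.Infinite := by
  unfold JT at hA
  push Not at hA
  refine hA (range g) (infinite_of_not_bddAbove ?_)
  rintro ⟨b, hb⟩
  have h1 := hb ⟨b + 1, rfl⟩
  have h2 : b + 1 ≤ g (b + 1) := hg (b + 1)
  omega

theorem JT_univ [TopologicalSpace Y] [SecondCountableTopology Y] [T3Space Y]
    (hS : S1 (Tau Y) (Tau Y)) {u : ℕ → Set Y} (ho : ∀ j, IsOpen (u j))
    (h3 : ∀ x, {j | x ∈ u j}.Infinite)
    (h4 : ∀ x y : Y, {j | x ∈ u j ∧ y ∉ u j}.Finite ∨ {j | y ∈ u j ∧ x ∉ u j}.Finite) :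
    JT u univ := by
  refine univ_mem_of_prime (JT u) (JT_finite h3 h4 finite_empty)
    (fun x => JT_finite h3 h4 (finite_singleton x)) (JT_iUnion h3 h4) ?_
  intro A B hA hB hAB
  by_contra hcon
  push Not at hcon
  exact two_piece hS hAB (fun h => hcon.1 (JT_finite h3 h4 h))
    (fun h => hcon.2 (JT_finite h3 h4 h)) u u Ici Ici
    (fun p hp hpA k => vv_tau ho h3 h4 hA hp hpA k)
    (fun p hp hpA k => vv_tau ho h3 h4 hB hp hpA k) (not_JT hcon.1) (not_JT hcon.2)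

/-- A large open cover contains a countable large subfamily. -/
theorem countable_large [TopologicalSpace Y] [SecondCountableTopology Y] {C : Set (Set Y)}
    (ho : ∀ U ∈ C, IsOpen U) (h3 : ∀ x : Y, {U ∈ C | x ∈ U}.Infinite) :
    ∃ D ⊆ C, D.Countable ∧ ∀ x : Y, {U ∈ D | x ∈ U}.Infinite := by
  classical
  have hk : ∀ k : ℕ, ∃ D ⊆ C, D.Countable ∧
      ∀ x : Y, ∃ F : Finset (Set Y), F.card = k ∧ (F : Set (Set Y)) ⊆ {U ∈ D | x ∈ U} := by
    intro k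
    choose F hF hFc using fun x => (h3 x).exists_subset_card_eq k
    obtain ⟨s, hs, hcov⟩ := TopologicalSpace.countable_cover_nhds
      (f := fun x => ⋂ U ∈ F x, U) (fun x => (biInter_finset_mem _).2 fun U hU =>
        (ho U (hF x hU).1).mem_nhds (hF x hU).2)
    refine ⟨⋃ x ∈ s, (F x : Set (Set Y)), ?_, hs.biUnion fun x _ => (F x).countable_toSet, ?_⟩
    · intro U hU
      obtain ⟨x, _, hU⟩ := mem_iUnion₂.1 hU
      exact (hF x hU).1
    · intro y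
      obtain ⟨x, hx, hy⟩ := mem_iUnion₂.1 (hcov ▸ mem_univ y : y ∈ ⋃ x ∈ s, ⋂ U ∈ F x, U)
      refine ⟨F x, hFc x, fun U hU => ⟨mem_iUnion₂.2 ⟨x, hx, hU⟩, ?_⟩⟩
      exact mem_iInter₂.1 hy U hU
  choose D hD hDc hDx using hk
  refine ⟨⋃ k, D k, iUnion_subset hD, countable_iUnion hDc, fun x hf => ?_⟩
  obtain ⟨F, hF, hsub⟩ := hDx (hf.toFinset.card + 1) x
  have : F ⊆ hf.toFinset := fun U hU => by
    rw [Finite.mem_toFinset]
    exact ⟨mem_iUnion.2 ⟨_, (hsub hU).1⟩, (hsub hU).2⟩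
  have := Finset.card_le_card this
  omega

theorem tau_choose_gamma [TopologicalSpace Y] [SecondCountableTopology Y] [T3Space Y] [Nonempty Y]
    (hS : S1 (Tau Y) (Tau Y)) {C : Set (Set Y)} (hC : C ∈ Tau Y) : ∃ D ⊆ C, D ∈ Gamma Y := by
  obtain ⟨h1, h2, h3, h4⟩ := hC
  obtain ⟨D, hDC, hDc, hD⟩ := countable_large h1 h3
  obtain ⟨y⟩ := ‹Nonempty Y›
  have hDi : D.Infinite := (hD y).mono fun U hU => hU.1
  have := hDc.to_subtype
  have := hDi.to_subtype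
  obtain ⟨e⟩ := nonempty_denumerable D
  let u : ℕ → Set Y := fun j => (Denumerable.ofNat D j : Set Y)
  have hu : Function.Injective u :=
    Subtype.val_injective.comp (Denumerable.eqv D).symm.injective
  have huD : ∀ j, u j ∈ D := fun j => (Denumerable.ofNat D j).2
  have hsurj : ∀ U ∈ D, ∃ j, u j = U := fun U hU =>
    ⟨Encodable.encode (⟨U, hU⟩ : D), by simp [u]⟩
  obtain ⟨P, hP, hPx⟩ := JT_univ hS (u := u) (fun j => h1 _ (hDC (huD j))) (by
      intro x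
      refine Infinite.of_image u ((hD x).mono ?_)
      rintro U ⟨hU, hx⟩
      obtain ⟨j, rfl⟩ := hsurj U hU
      exact ⟨j, hx, rfl⟩) (by
      intro x y
      refine (h4 x y).imp (fun h => ?_) (fun h => ?_) <;>
      exact (h.preimage hu.injOn).subset fun j hj => ⟨hDC (huD j), hj⟩)
  refine ⟨u '' P, ?_, image_gamma hu (fun j => h1 _ (hDC (huD j)))
    (fun j h => h2.2 (h ▸ hDC (huD j))) hP fun x => hPx x trivial⟩
  rintro _ ⟨j, _, rfl⟩
  exact hDC (huD j)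

theorem S1TG_of_S1TT [TopologicalSpace Y] [SecondCountableTopology Y] [T3Space Y]
    (hS : S1 (Tau Y) (Tau Y)) : S1 (Tau Y) (Gamma Y) := by
  rcases isEmpty_or_nonempty Y with hY | hY
  · obtain ⟨U, hU, _⟩ := hS (fun _ => ∅) fun _ =>
      ⟨by simp, ⟨Subsingleton.elim _ _, by simp⟩, fun x => hY.elim x, fun x => hY.elim x⟩
    exact (hU 0).elim
  intro C hC
  choose D hDC hD using fun n => tau_choose_gamma hS (hC n)
  obtain ⟨U, h1, h2⟩ := S1GG_of_S1GT (S1_mono hS gamma_sub_tau Subset.rfl) D hD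
  exact ⟨U, fun n => hDC n (h1 n), h2⟩

theorem S1OG_of_S1OT [TopologicalSpace Y] [SecondCountableTopology Y] [T3Space Y]
    (hS : S1 (Omega Y) (Tau Y)) : S1 (Omega Y) (Gamma Y) := by
  intro C hC
  rcases isEmpty_or_nonempty Y with hY | hY
  · obtain ⟨U, hU, _⟩ := (hC 0).2.2 ∅ finite_empty
    exact absurd ((Subsingleton.elim U univ) ▸ hU) (hC 0).2.1.2
  choose V hV hVτ using fun n => hS (fun _ => C n) fun _ => hC n
  obtain ⟨U, h1, h2⟩ := S1TG_of_S1TT (S1_mono hS tau_sub_omega Subset.rfl)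
    (fun n => range (V n)) hVτ
  refine ⟨U, fun n => ?_, h2⟩
  obtain ⟨k, hk⟩ := h1 n
  exact hk ▸ hV n k

/-- The Hurewicz property from `S1(Gamma, Tau)`. -/
theorem hurewicz_of_S1GT [TopologicalSpace Y] [SecondCountableTopology Y] [T3Space Y]
    (hS : S1 (Gamma Y) (Tau Y)) (U : ℕ → Set (Set Y))
    (hU : ∀ n, (∀ V ∈ U n, IsOpen V) ∧ ⋃₀ U n = univ) :
    ∃ F : ℕ → Finset (Set Y), (∀ n, (↑(F n) : Set (Set Y)) ⊆ U n) ∧
      ∀ x : Y, ∀ᶠ n in atTop, x ∈ ⋃₀ (↑(F n) : Set (Set Y)) := by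
  classical
  rcases isEmpty_or_nonempty Y with hY | hY
  · exact ⟨fun _ => ∅, fun _ => by simp, fun x => hY.elim x⟩
  have hc : ∀ n, ∃ f : ℕ → Set Y, (∀ j, f j ∈ U n) ∧ ∀ x, ∃ j, x ∈ f j := by
    intro n
    obtain ⟨T, hTc, hTU, hT⟩ := TopologicalSpace.isOpen_sUnion_countable (U n) (hU n).1
    rw [(hU n).2] at hT
    obtain ⟨y⟩ := hY
    obtain ⟨V, hV, _⟩ : y ∈ ⋃₀ T := hT ▸ mem_univ y
    obtain ⟨f, rfl⟩ := hTc.exists_eq_range ⟨V, hV⟩
    refine ⟨f, fun j => hTU ⟨j, rfl⟩, fun x => ?_⟩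
    obtain ⟨_, ⟨j, rfl⟩, hx⟩ : x ∈ ⋃₀ range f := hT ▸ mem_univ x
    exact ⟨j, hx⟩
  choose f hf hfx using hc
  obtain ⟨g, hg⟩ := JG_select (JG_univ hS (u := fun n m => ⋃ j ∈ Finset.range m, f n j)
    (fun n m => isOpen_biUnion fun j _ => (hU n).1 _ (hf n j)) (by
      intro x n
      obtain ⟨j, hj⟩ := hfx n x
      filter_upwards [eventually_gt_atTop j] with m hm
      exact mem_iUnion₂.2 ⟨j, Finset.mem_range.2 hm, hj⟩))
  refine ⟨fun n => (Finset.range (g n)).image (f n), fun n => ?_, fun x => ?_⟩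
  · intro V hV
    obtain ⟨j, _, rfl⟩ := Finset.mem_image.1 hV
    exact hf n j
  · filter_upwards [hg x] with n hn
    obtain ⟨j, hj, hx⟩ := mem_iUnion₂.1 hn
    exact ⟨f n j, Finset.mem_coe.2 (Finset.mem_image_of_mem _ hj), hx⟩

end Pool.Agent.H85.Tau
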