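import Mathlib

/-! Coloured covers of topological manifolds by cells. -/

namespace Pool.Agent.H85.Apo

open Set Filter Topology Metric

variable {n : ℕ}

/-- grid point -/
def ctr (δ : ℝ) (k : Fin n → ℤ) : Fin n → ℝ := fun j => δ * k j

/-- parity vector -/
def par (k : Fin n → ℤ) : Fin n → ZMod 2 := fun j => (k j : ZMod 2)

lemma grid_cover {δ : ℝ} (hδ : 0 < δ) (z : Fin n → ℝ) : ∃ k, dist z (ctr δ k) ≤ δ / 2 := by
  refine ⟨fun j => round (z j / δ), (dist_pi_le_iff (by positivity)).2 fun j => ?_⟩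
  have := abs_sub_round (z j / δ)
  rw [Real.dist_eq, ctr, show z j - δ * (round (z j / δ) : ℝ) = δ * (z j / δ - round (z j / δ)) by
    field_simp, abs_mul, abs_of_pos hδ]
  nlinarith

lemma grid_sep {δ : ℝ} (hδ : 0 < δ) {k k' : Fin n → ℤ} (h : k ≠ k') (hp : par k = par k') :
    2 * δ ≤ dist (ctr δ k) (ctr δ k') := by
  obtain ⟨j, hj⟩ := Function.ne_iff.1 h
  refine le_trans ?_ (dist_le_pi_dist _ _ j)
  have h2 : (2 : ℤ) ∣ k' j - k j := (ZMod.intCast_eq_intCast_iff_dvd_sub _ _ 2).1 (congrFun hp j)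
  have h3 : (2 : ℤ) ≤ |k j - k' j| := by
    rw [abs_sub_comm]
    exact Int.le_abs_of_dvd (sub_ne_zero.2 hj.symm) h2
  have h4 : (2 : ℝ) ≤ |(k j : ℝ) - k' j| := by exact_mod_cast h3
  rw [Real.dist_eq, ctr, ctr, ← mul_sub, abs_mul, abs_of_pos hδ]
  nlinarith

variable {M : Type} [TopologicalSpace M]

/-- shrinking of a cover to bounded order on `A` -/
def Shr (N : ℕ∞) (ι : Type) (S A : Set M) : Prop :=
  ∀ U : ι → Set M, (∀ i, IsOpen (U i)) → S ⊆ ⋃ i, U i →
    ∃ V : ι → Set M, (∀ i, IsOpen (V i)) ∧ (∀ i, V i ⊆ U i) ∧ S ⊆ ⋃ i, V i ∧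
      ∀ x ∈ A, {i | x ∈ V i}.encard ≤ N

lemma shr_local [T2Space M] (e : OpenPartialHomeomorph M (Fin n → ℝ)) {ι : Type} {S A : Set M}
    (hA : IsCompact A) (hAS : A ⊆ S) (hAe : A ⊆ e.source) (hne : A.Nonempty) :
    Shr (univ : Set (Fin n → ZMod 2)).encard ι S A := by
  intro U hU hS
  have hA' : IsCompact (e '' A) := hA.image_of_continuousOn (e.continuousOn.mono hAe)
  obtain ⟨δ, hδ, hL⟩ := lebesgue_number_lemma_of_metric (c := fun i => e '' (U i ∩ e.source)) hA'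
    (fun i => e.isOpen_image_of_subset_source ((hU i).inter e.open_source) inter_subset_right)
    (by
      rintro _ ⟨x, hx, rfl⟩
      obtain ⟨i, hi⟩ := mem_iUnion.1 (hS (hAS hx))
      exact mem_iUnion.2 ⟨i, x, ⟨hi, hAe hx⟩, rfl⟩)
  have hι : Nonempty ι := by
    obtain ⟨x, hx⟩ := hne
    obtain ⟨i, _⟩ := mem_iUnion.1 (hS (hAS hx))
    exact ⟨i⟩
  have hδ2 : 0 < δ / 2 := by positivity
  have hch : ∀ k : Fin n → ℤ, ∃ i, ∀ x ∈ A, e x ∈ ball (ctr (δ / 2) k) (δ / 2) → x ∈ U i := by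
    intro k
    by_cases h : ∃ a ∈ A, e a ∈ ball (ctr (δ / 2) k) (δ / 2)
    · obtain ⟨a, ha, hak⟩ := h
      obtain ⟨i, hi⟩ := hL _ ⟨a, ha, rfl⟩
      refine ⟨i, fun x hx hxk => ?_⟩
      have : e x ∈ ball (e a) δ := by
        have := dist_triangle_right (e x) (e a) (ctr (δ / 2) k)
        rw [mem_ball] at *
        linarith
      obtain ⟨y, hy, hyx⟩ := hi this
      rw [← e.injOn hy.2 (hAe hx) hyx]
      exact hy.1
    · exact ⟨hι.some, fun x hx hxk => (h ⟨x, hx, hxk⟩).elim⟩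
  choose f hf using hch
  refine ⟨fun i => U i ∩ (Aᶜ ∪ (e.source ∩ e ⁻¹' ⋃ k ∈ f ⁻¹' {i}, ball (ctr (δ / 2) k) (δ / 2))),
    fun i => (hU i).inter (hA.isClosed.isOpen_compl.union
      (e.isOpen_inter_preimage (isOpen_biUnion fun _ _ => isOpen_ball))),
    fun i => inter_subset_left, fun x hx => ?_, fun x hx => ?_⟩
  · by_cases hxA : x ∈ A
    · obtain ⟨k, hk⟩ := grid_cover hδ2 (e x)
      have hk' : e x ∈ ball (ctr (δ / 2) k) (δ / 2) := by rw [mem_ball]; linarith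
      exact mem_iUnion.2 ⟨f k, hf k x hxA hk', Or.inr ⟨hAe hxA, mem_biUnion (x := k) rfl hk'⟩⟩
    · obtain ⟨i, hi⟩ := mem_iUnion.1 (hS hx)
      exact mem_iUnion.2 ⟨i, hi, Or.inl hxA⟩
  · set T : Set (Fin n → ℤ) := {k | e x ∈ ball (ctr (δ / 2) k) (δ / 2)}
    refine le_trans (encard_le_encard (t := f '' T) ?_) (le_trans (encard_image_le _ _) ?_)
    · rintro i ⟨-, h | ⟨-, h⟩⟩
      · exact (h hx).elim
      · obtain ⟨k, hk, hk'⟩ := mem_iUnion₂.1 h
        exact ⟨k, hk', hk⟩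
    · refine encard_le_encard_of_injOn (f := par) (mapsTo_univ _ _) fun k hk k' hk' hp => ?_
      by_contra hne
      have h1 := grid_sep hδ2 hne hp
      have h2 := dist_triangle_left (ctr (δ / 2) k) (ctr (δ / 2) k') (e x)
      simp only [T, mem_ofPred_eq, mem_ball] at hk hk'
      linarith

lemma shr_compact [T2Space M] [LocallyCompactSpace M]
    (hch : ∀ x : M, ∃ e : OpenPartialHomeomorph M (Fin n → ℝ), x ∈ e.source) {ι : Type}
    {S : Set M} (hS : IsCompact S) : Shr (univ : Set (Fin n → ZMod 2)).encard ι S S := by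
  refine hS.induction_on (p := Shr (univ : Set (Fin n → ZMod 2)).encard ι S) ?_ ?_ ?_ ?_
  · exact fun U hU h => ⟨U, hU, fun _ => Subset.rfl, h, fun _ h => h.elim⟩
  · intro s t hst ht U hU h
    obtain ⟨V, h1, h2, h3, h4⟩ := ht U hU h
    exact ⟨V, h1, h2, h3, fun x hx => h4 x (hst hx)⟩
  · intro s t hs ht U hU h
    obtain ⟨V, h1, h2, h3, h4⟩ := hs U hU h
    obtain ⟨W, h5, h6, h7, h8⟩ := ht V h1 h3
    refine ⟨W, h5, fun i => (h6 i).trans (h2 i), h7, ?_⟩
    rintro x (hx | hx)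
    · exact le_trans (encard_le_encard fun i hi => h6 i hi) (h4 x hx)
    · exact h8 x hx
  · intro x hx
    obtain ⟨e, he⟩ := hch x
    obtain ⟨C, hC, hCe, hCc⟩ := local_compact_nhds (e.open_source.mem_nhds he)
    exact ⟨S ∩ C, inter_mem_nhdsWithin _ hC, shr_local e (hS.inter hCc) inter_subset_left
      (inter_subset_right.trans hCe) ⟨x, hx, mem_of_mem_nhds hC⟩⟩

/-- `S` is covered by a locally finite `κ`-coloured family of cells inside `G`. -/
def Good (κ : Type) (S G : Set M) : Prop :=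
  ∃ (T : Type) (Q O D : T → Set M) (col : T → κ), LocallyFinite D ∧
    (∀ t, IsClosed (Q t) ∧ IsOpen (O t) ∧ IsCompact (D t) ∧ Q t ⊆ O t ∧ O t ⊆ D t ∧
      IsPreconnected (D t \ O t) ∧ D t ⊆ G) ∧
    (∀ s t, s ≠ t → col s = col t → Disjoint (D s) (D t)) ∧ S ⊆ ⋃ t, Q t

lemma Good.combine {κ κ' J : Type} {S G : J → Set M} {S₀ G₀ : Set M} (c : J → κ')
    (hG : LocallyFinite G) (hd : ∀ i j, i ≠ j → c i = c j → Disjoint (G i) (G j))
    (h : ∀ j, Good κ (S j) (G j)) (h₀ : ∀ j, G j ⊆ G₀) (hS : S₀ ⊆ ⋃ j, S j) :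
    Good (κ' × κ) S₀ G₀ := by
  choose T Q O D col h1 h2 h3 h4 using h
  refine ⟨Σ j, T j, fun t => Q t.1 t.2, fun t => O t.1 t.2, fun t => D t.1 t.2,
    fun t => (c t.1, col t.1 t.2), fun x => ?_, fun t => ?_, ?_, fun x hx => ?_⟩
  · obtain ⟨U, hU, hfin⟩ := hG x
    choose W hW hWf using fun j => h1 j x
    refine ⟨U ∩ ⋂ j ∈ {j | (G j ∩ U).Nonempty}, W j,
      inter_mem hU ((biInter_mem hfin).2 fun j _ => hW j), ?_⟩
    refine (hfin.biUnion (t := fun j => Sigma.mk j '' {i | (D j i ∩ W j).Nonempty})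
      fun j _ => (hWf j).image _).subset ?_
    rintro ⟨j, t⟩ ⟨z, hz, hzU, hzW⟩
    have hj : (G j ∩ U).Nonempty := ⟨z, (h2 j t).2.2.2.2.2.2 hz, hzU⟩
    exact mem_biUnion (x := j) hj ⟨t, ⟨z, hz, mem_iInter₂.1 hzW j hj⟩, rfl⟩
  · obtain ⟨a1, a2, a3, a4, a5, a6, a7⟩ := h2 t.1 t.2
    exact ⟨a1, a2, a3, a4, a5, a6, a7.trans (h₀ _)⟩
  · rintro ⟨i, s⟩ ⟨j, t⟩ hne hc
    simp only [Prod.mk.injEq] at hc
    by_cases hij : i = j
    · subst hij
      exact h3 i s t (fun h => hne (by rw [h])) hc.2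
    · exact (hd i j hij hc.1).mono (h2 i s).2.2.2.2.2.2 (h2 j t).2.2.2.2.2.2
  · obtain ⟨j, hj⟩ := mem_iUnion.1 (hS hx)
    obtain ⟨t, ht⟩ := mem_iUnion.1 (h4 j hj)
    exact mem_iUnion.2 ⟨⟨j, t⟩, ht⟩

lemma good_chart [T2Space M] (hn : 1 < n) (e : OpenPartialHomeomorph M (Fin n → ℝ))
    {C G : Set M} (hC : IsCompact C) (hG : IsOpen G) (hCG : C ⊆ G) (hGe : G ⊆ e.source) :
    Good (Fin n → ZMod 2) C G := by
  have hC' : IsCompact (e '' C) := hC.image_of_continuousOn (e.continuousOn.mono (hCG.trans hGe))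
  obtain ⟨ε, hε, hth⟩ := hC'.exists_thickening_subset_open
    (e.isOpen_image_of_subset_source hG hGe) (image_mono hCG)
  obtain ⟨δ, r, R, hδ, hr, hrR, hR, hεδ⟩ : ∃ δ r R : ℝ, 0 < δ ∧ δ / 2 < r ∧ r < R ∧ R < δ ∧
      2 * δ ≤ ε := ⟨ε / 2, ε / 3, 2 * ε / 5, by positivity, by linarith, by linarith, by linarith,
        by linarith⟩
  obtain ⟨F, hF⟩ := hC'.elim_finite_subcover (fun k : Fin n → ℤ => ball (ctr δ k) r)
    (fun _ => isOpen_ball) fun z _ => by
      obtain ⟨k, hk⟩ := grid_cover hδ z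
      exact mem_iUnion.2 ⟨k, by rw [mem_ball]; linarith⟩
  obtain ⟨T, hTd⟩ : ∃ T : Set (Fin n → ℤ), ∀ k, k ∈ T ↔
      k ∈ F ∧ ∃ z ∈ e '' C, z ∈ ball (ctr δ k) r := ⟨{k | _}, fun _ => Iff.rfl⟩
  have hT : T.Finite := F.finite_toSet.subset fun k hk => ((hTd k).1 hk).1
  have hsub : ∀ k ∈ T, closedBall (ctr δ k) R ⊆ e '' G := by
    intro k hk w hw
    obtain ⟨-, z, hz, hzk⟩ := (hTd k).1 hk
    refine hth (mem_thickening_iff.2 ⟨z, hz, ?_⟩)
    have := dist_triangle_right w z (ctr δ k)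
    rw [mem_ball] at hzk
    rw [mem_closedBall] at hw
    linarith
  have htar : ∀ k ∈ T, closedBall (ctr δ k) R ⊆ e.target := fun k hk =>
    (hsub k hk).trans (by rintro _ ⟨x, hx, rfl⟩; exact e.map_source (hGe hx))
  have hfin : Finite T := hT
  have h68 : ∀ k : Fin n → ℤ, closedBall (ctr δ k) r ⊆ ball (ctr δ k) R := fun k =>
    closedBall_subset_ball hrR
  have hcell : ∀ k ∈ T, IsClosed (e.symm '' closedBall (ctr δ k) r) ∧
      IsOpen (e.symm '' ball (ctr δ k) R) ∧ IsCompact (e.symm '' closedBall (ctr δ k) R) ∧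
      e.symm '' closedBall (ctr δ k) r ⊆ e.symm '' ball (ctr δ k) R ∧
      e.symm '' ball (ctr δ k) R ⊆ e.symm '' closedBall (ctr δ k) R ∧
      IsPreconnected (e.symm '' closedBall (ctr δ k) R \ e.symm '' ball (ctr δ k) R) ∧
      e.symm '' closedBall (ctr δ k) R ⊆ G := fun k hk => by
    have ht := htar k hk
    refine ⟨((isCompact_closedBall _ _).image_of_continuousOn (e.continuousOn_symm.mono
      ((h68 k).trans (ball_subset_closedBall.trans ht)))).isClosed,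
      e.symm.isOpen_image_of_subset_source isOpen_ball (ball_subset_closedBall.trans ht),
      (isCompact_closedBall _ _).image_of_continuousOn (e.continuousOn_symm.mono ht),
      image_mono (h68 k), image_mono ball_subset_closedBall, ?_, ?_⟩
    · rw [← (e.symm.injOn.mono ht).image_sdiff_subset ball_subset_closedBall,
        closedBall_sdiff_ball]
      exact (isPreconnected_sphere (by simp; exact_mod_cast hn) _ _).image _
        (e.continuousOn_symm.mono (sphere_subset_closedBall.trans ht))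
    · rintro _ ⟨w, hw, rfl⟩
      obtain ⟨x, hx, rfl⟩ := hsub k hk hw
      rwa [e.left_inv (hGe hx)]
  have hdis : ∀ k ∈ T, ∀ k' ∈ T, k ≠ k' → par k = par k' →
      Disjoint (e.symm '' closedBall (ctr δ k) R) (e.symm '' closedBall (ctr δ k') R) := by
    intro k hk k' hk' hne hp
    rw [Set.disjoint_left]
    rintro _ ⟨w, hw, rfl⟩ ⟨w', hw', h⟩
    have := e.symm.injOn (htar _ hk' hw') (htar _ hk hw) h
    subst this
    have h1 := grid_sep hδ hne hp
    have h2 := dist_triangle_left (ctr δ k) (ctr δ k') w'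
    rw [mem_closedBall] at hw hw'
    linarith
  refine ⟨T, fun k => e.symm '' closedBall (ctr δ k.1) r,
    fun k => e.symm '' ball (ctr δ k.1) R, fun k => e.symm '' closedBall (ctr δ k.1) R,
    fun k => par k.1, locallyFinite_of_finite _, fun k => hcell k.1 k.2,
    fun k k' hne hp => hdis _ k.2 _ k'.2 (fun h => hne (Subtype.ext h)) hp, fun x hx => ?_⟩
  obtain ⟨k, hk, hxk⟩ := mem_iUnion₂.1 (hF ⟨x, hx, rfl⟩)
  exact mem_iUnion.2 ⟨⟨k, (hTd k).2 ⟨hk, _, ⟨x, hx, rfl⟩, hxk⟩⟩, e x, ball_subset_closedBall hxk,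
      e.left_inv (hGe (hCG hx))⟩

lemma good_compact [T2Space M] [LocallyCompactSpace M] [NormalSpace M] (hn : 1 < n)
    (hch : ∀ x : M, ∃ e : OpenPartialHomeomorph M (Fin n → ℝ), x ∈ e.source)
    {S G : Set M} (hS : IsCompact S) (hG : IsOpen G) (hSG : S ⊆ G) :
    Good (Fin (Nat.card (Fin n → ZMod 2) + 1) × (Fin n → ZMod 2)) S G := by
  classical
  choose e he using hch
  obtain ⟨F, hF⟩ := hS.elim_finite_subcover (fun x => G ∩ (e x).source)
    (fun x => hG.inter (e x).open_source) fun x hx => mem_iUnion.2 ⟨x, hSG hx, he x⟩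
  obtain ⟨V, hVo, hVU, hSV, hord⟩ := shr_compact (ι := F) (fun x => ⟨e x, he x⟩) hS
    (fun x => G ∩ (e x).source) (fun x => hG.inter (e x).open_source) fun x hx => by
      obtain ⟨y, hy, h⟩ := mem_iUnion₂.1 (hF hx)
      exact mem_iUnion.2 ⟨⟨y, hy⟩, h⟩
  obtain ⟨K, hKc, hKV, hSK⟩ := hS.finite_compact_cover Finset.univ V (fun i _ => hVo i)
    (by simpa using hSV)
  choose φ hφ0 hφ1 hφ using fun i => exists_continuous_zero_one_of_isClosed
    (hVo i).isClosed_compl (hKc i).isClosed (disjoint_compl_left_iff_subset.2 (hKV i))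
  set N := Nat.card (Fin n → ZMod 2)
  let J := {σ : Finset F // σ.Nonempty ∧ σ.card < N + 1}
  let O : J → Set M := fun σ => ⋂ i ∈ σ.1, ({x | 0 < φ i x} ∩ ⋂ j ∈ σ.1ᶜ, {x | φ j x < φ i x})
  have hOo : ∀ σ, IsOpen (O σ) := fun σ => isOpen_biInter_finset fun i _ =>
    (isOpen_lt continuous_const (φ i).continuous).inter
      (isOpen_biInter_finset fun j _ => isOpen_lt (φ j).continuous (φ i).continuous)
  have hpos : ∀ i x, 0 < φ i x → x ∈ V i := fun i x h => by
    by_contra h'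
    exact h.ne' (hφ0 i h')
  have hOV : ∀ σ, ∃ i, O σ ⊆ V i := fun σ => by
    obtain ⟨i, hi⟩ := σ.2.1
    exact ⟨i, fun x hx => hpos i x (mem_iInter₂.1 hx i hi).1⟩
  have hSO : S ⊆ ⋃ σ ∈ (Finset.univ : Finset J), O σ := fun x hx => by
    have h1 : (Finset.univ.filter fun i => 0 < φ i x).Nonempty := by
      rw [hSK] at hx
      obtain ⟨i, _, hi⟩ := mem_iUnion₂.1 hx
      exact ⟨i, by simp [hφ1 i hi]⟩
    have h2 : (Finset.univ.filter fun i => 0 < φ i x).card < N + 1 := by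
      have h3 := le_trans (encard_le_encard (s := ↑(Finset.univ.filter fun i => 0 < φ i x))
        fun i hi => hpos i x (by simpa using hi)) (hord x hx)
      rw [encard_coe_eq_coe_finsetCard, encard_univ, ENat.card_eq_coe_natCard] at h3
      exact Nat.lt_succ_of_le (by exact_mod_cast h3)
    refine mem_biUnion (x := ⟨_, h1, h2⟩) (Finset.mem_univ _) (mem_iInter₂.2 fun i hi => ?_)
    have hi' : 0 < φ i x := by simpa using hi
    refine ⟨hi', mem_iInter₂.2 fun j hj => lt_of_le_of_lt ?_ hi'⟩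
    simpa using hj
  obtain ⟨C, hCc, hCO, hSC⟩ := hS.finite_compact_cover Finset.univ O (fun σ _ => hOo σ) hSO
  refine Good.combine (S := C) (G := O) (fun σ => ⟨σ.1.card, σ.2.2⟩) (locallyFinite_of_finite _)
    (fun σ τ hne hc => ?_) (fun σ => ?_) (fun σ => ?_) (by rw [hSC]; simp)
  · have hcard : σ.1.card = τ.1.card := congrArg Fin.val hc
    have hne' : σ.1 ≠ τ.1 := fun h => hne (Subtype.ext h)
    obtain ⟨i, hi, hi'⟩ := Finset.not_subset.1
      fun h => hne' (Finset.eq_of_subset_of_card_le h hcard.ge)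
    obtain ⟨j, hj, hj'⟩ := Finset.not_subset.1
      fun h => hne' (Finset.eq_of_subset_of_card_le h hcard.le).symm
    rw [Set.disjoint_left]
    intro x hx hx'
    have h1 : φ j x < φ i x := mem_iInter₂.1 (mem_iInter₂.1 hx i hi).2 j (Finset.mem_compl.2 hj')
    have h2 : φ i x < φ j x := mem_iInter₂.1 (mem_iInter₂.1 hx' j hj).2 i (Finset.mem_compl.2 hi')
    linarith
  · obtain ⟨i, hi⟩ := hOV σ
    exact good_chart hn (e i) (hCc σ) (hOo σ) (hCO σ) (hi.trans ((hVU i).trans inter_subset_right))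
  · obtain ⟨i, hi⟩ := hOV σ
    exact hi.trans ((hVU i).trans inter_subset_left)

theorem good_closed [T2Space M] [LocallyCompactSpace M] [NormalSpace M] [SigmaCompactSpace M]
    (hn : 1 < n) (hch : ∀ x : M, ∃ e : OpenPartialHomeomorph M (Fin n → ℝ), x ∈ e.source)
    {B G : Set M} (hB : IsClosed B) (hG : IsOpen G) (hBG : B ⊆ G) :
    ∃ κ : Type, Finite κ ∧ Good κ B G := by
  let K := (CompactExhaustion.choice M).shiftr
  have hK0 : K 0 = ∅ := rfl
  refine ⟨Fin 3 × (Fin (Nat.card (Fin n → ZMod 2) + 1) × (Fin n → ZMod 2)), inferInstance, ?_⟩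
  have key : ∀ i j : ℕ, i < j → i % 3 = j % 3 →
      Disjoint (G ∩ (interior (K (i + 2)) \ K (i - 1))) (G ∩ (interior (K (j + 2)) \ K (j - 1))) := by
    intro i j hij h
    rw [Set.disjoint_left]
    rintro x ⟨-, h1, -⟩ ⟨-, -, h2⟩
    exact h2 (K.subset (by omega) (interior_subset h1))
  refine Good.combine (S := fun m : ℕ => B ∩ (K (m + 1) \ interior (K m)))
    (G := fun m : ℕ => G ∩ (interior (K (m + 2)) \ K (m - 1)))
    (fun m => ⟨m % 3, Nat.mod_lt _ (by norm_num)⟩) (fun x => ?_) (fun i j hne hc => ?_)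
    (fun m => good_compact hn hch (((K.isCompact _).diff isOpen_interior).inter_left hB)
      (hG.inter (isOpen_interior.sdiff (K.isCompact _).isClosed)) ?_)
    (fun m => inter_subset_left) fun x hx => ?_
  · obtain ⟨l, hl⟩ := K.exists_mem_nhds x
    refine ⟨K l, hl, (finite_le_nat l).subset ?_⟩
    rintro m ⟨z, ⟨-, -, h1⟩, h2⟩
    by_contra h
    simp only [mem_ofPred_eq, not_le] at h
    exact h1 (K.subset (by omega) h2)
  · have hc' : i % 3 = j % 3 := congrArg Fin.val hc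
    rcases lt_or_gt_of_ne hne with h | h
    · exact key i j h hc'
    · exact (key j i h hc'.symm).symm
  · rintro x ⟨h1, h2, h3⟩
    refine ⟨hBG h1, K.subset_interior_succ _ h2, fun h4 => ?_⟩
    rcases m with _ | m
    · exact h4
    · exact h3 (K.subset_interior_succ _ h4)
  · have h1 := K.mem_find x
    have h2 : K.find x ≠ 0 := fun h => by rw [h, hK0] at h1; exact h1
    obtain ⟨m, hm⟩ := Nat.exists_eq_succ_of_ne_zero h2
    refine mem_iUnion.2 ⟨m, hx, by rwa [hm] at h1, fun h => ?_⟩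
    have := K.mem_iff_find_le.1 (interior_subset h)
    omega

end Pool.Agent.H85.Apo
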