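import Pool.Agent.H85.ApoCells

/-! Two-point compactifications and Stone–Čech remainders. -/

namespace Pool.Agent.H85.Apo

open Set Filter Topology

variable {M : Type} [TopologicalSpace M]

/-- existence of a two-point compactification -/
def TwoPt (M : Type) [TopologicalSpace M] : Prop :=
  ∃ (Y : Type) (_ : TopologicalSpace Y), CompactSpace Y ∧ T2Space Y ∧
    ∃ f : M → Y, Topology.IsEmbedding f ∧ DenseRange f ∧ (Set.range f)ᶜ.ncard = 2

/-- `W` splits at infinity -/
def Splits (W : Set M) : Prop :=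
  ∃ F G K : Set M, IsClosed F ∧ IsClosed G ∧ IsCompact K ∧ Disjoint F G ∧ F ⊆ W ∧ G ⊆ W ∧
    W ⊆ F ∪ G ∪ K ∧ ¬ IsCompact F ∧ ¬ IsCompact G

lemma twoPt_of_splits [T2Space M] [LocallyCompactSpace M] [NormalSpace M]
    (h : Splits (univ : Set M)) : TwoPt M := by
  obtain ⟨F, G, K, hF, hG, hK, hd, -, -, hcov, hFn, hGn⟩ := h
  obtain ⟨f, hf0, hf1, -⟩ := exists_continuous_zero_one_of_isClosed hF hG hd
  let j : M → OnePoint M × ℝ := fun x => (x, f x)
  have hjc : Continuous j := OnePoint.continuous_coe.prodMk f.continuous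
  have hje : IsEmbedding j :=
    IsEmbedding.of_comp hjc continuous_fst OnePoint.isOpenEmbedding_coe.isEmbedding
  let Y : Set (OnePoint M × ℝ) := range j ∪ {(OnePoint.infty, 0), (OnePoint.infty, 1)}
  have hhat : ∀ A : Set M, IsClosed A → IsCompact (insert OnePoint.infty ((↑) '' A : Set (OnePoint M))) := by
    intro A hA
    refine IsClosed.isCompact ⟨?_⟩
    have : (insert OnePoint.infty ((↑) '' A : Set (OnePoint M)))ᶜ = (↑) '' Aᶜ := by
      ext z
      induction z using OnePoint.rec <;> simp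
    rw [this]
    exact OnePoint.isOpenEmbedding_coe.isOpenMap _ hA.isOpen_compl
  have hY : IsCompact Y := by
    have : Y = j '' K ∪ (insert OnePoint.infty ((↑) '' F)) ×ˢ {0} ∪
        (insert OnePoint.infty ((↑) '' G)) ×ˢ {1} := by
      apply Subset.antisymm
      · rintro _ (⟨x, rfl⟩ | rfl | rfl)
        · rcases hcov (mem_univ x) with (h | h) | h
          · exact Or.inl (Or.inr ⟨Or.inr ⟨x, h, rfl⟩, hf0 h⟩)
          · exact Or.inr ⟨Or.inr ⟨x, h, rfl⟩, hf1 h⟩
          · exact Or.inl (Or.inl ⟨x, h, rfl⟩)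
        · exact Or.inl (Or.inr ⟨Or.inl rfl, rfl⟩)
        · exact Or.inr ⟨Or.inl rfl, rfl⟩
      · rintro ⟨z, t⟩ ((⟨x, -, h⟩ | ⟨rfl | ⟨x, hx, rfl⟩, rfl⟩) | ⟨rfl | ⟨x, hx, rfl⟩, rfl⟩)
        · exact Or.inl ⟨x, h⟩
        · exact Or.inr (Or.inl rfl)
        · exact Or.inl ⟨x, Prod.ext rfl (hf0 hx)⟩
        · exact Or.inr (Or.inr rfl)
        · exact Or.inl ⟨x, Prod.ext rfl (hf1 hx)⟩
    rw [this]
    exact ((hK.image hjc).union ((hhat F hF).prod isCompact_singleton)).union
      ((hhat G hG).prod isCompact_singleton)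
  have hcl : ∀ (A : Set M) (t : ℝ), IsClosed A → ¬ IsCompact A → (∀ x ∈ A, f x = t) →
      (OnePoint.infty, t) ∈ closure (range j) := by
    intro A t hA hAn ht
    have hne : (coclosedCompact M ⊓ 𝓟 A).NeBot := by
      rw [inf_principal_neBot_iff]
      intro U hU
      have hC := mem_coclosedCompact_iff.1 hU
      by_contra h
      exact hAn (hC.of_isClosed_subset hA fun x hx => subset_closure fun hx' => h ⟨x, hx', hx⟩)
    refine mem_closure_of_tendsto (b := coclosedCompact M ⊓ 𝓟 A) (f := j) ?_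
      (Eventually.of_forall fun x => ⟨x, rfl⟩)
    refine Tendsto.prodMk_nhds (OnePoint.tendsto_coe_infty.mono_left inf_le_left) ?_
    refine tendsto_const_nhds.congr' ?_
    filter_upwards [mem_inf_of_right (mem_principal_self A)] with x hx using (ht x hx).symm
  refine ⟨Y, inferInstance, isCompact_iff_compactSpace.1 hY, inferInstance,
    fun x => ⟨j x, Or.inl ⟨x, rfl⟩⟩, hje.codRestrict Y (fun x => Or.inl ⟨x, rfl⟩), ?_, ?_⟩
  · rintro ⟨z, hz⟩
    rw [closure_subtype, ← range_comp]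
    rcases hz with h | rfl | rfl
    · exact subset_closure h
    · exact hcl F 0 hF hFn hf0
    · exact hcl G 1 hG hGn hf1
  · refine ncard_eq_two.2 ⟨⟨(OnePoint.infty, 0), Or.inr (Or.inl rfl)⟩,
      ⟨(OnePoint.infty, 1), Or.inr (Or.inr rfl)⟩, by simp, ?_⟩
    ext ⟨z, hz⟩
    simp only [mem_compl_iff, mem_range, Subtype.mk.injEq, mem_insert_iff, mem_singleton_iff]
    constructor
    · intro h
      rcases hz with h' | h'
      · exact (h h').elim
      · exact h'
    · rintro (rfl | rfl) ⟨x, hx⟩ <;> exact OnePoint.coe_ne_infty x (congrArg Prod.fst hx)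

lemma splits_of_cells [T2Space M] {T : Type} {O D : T → Set M} (hlf : LocallyFinite D)
    (hD : ∀ t, IsCompact (D t)) (hOD : ∀ t, O t ⊆ D t) (hc : ∀ t, IsPreconnected (D t \ O t))
    (hd : ∀ s t, s ≠ t → Disjoint (D s) (D t)) (h : Splits (⋃ t, O t)ᶜ) :
    Splits (univ : Set M) := by
  obtain ⟨F, G, K, hF, hG, hK, hFG, hFW, hGW, hcov, hFn, hGn⟩ := h
  have hW : ∀ t, D t \ O t ⊆ (⋃ t, O t)ᶜ := fun t z hz h => by
    obtain ⟨s, hs⟩ := mem_iUnion.1 h
    by_cases hst : s = t
    · exact hz.2 (hst ▸ hs)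
    · exact Set.disjoint_left.1 (hd s t hst) (hOD s hs) hz.1
  have hside : ∀ t, Disjoint (D t) K → ¬ D t \ O t ⊆ F → D t \ O t ⊆ G := fun t ht h => by
    have h1 : D t \ O t ⊆ F ∪ G := fun z hz => (hcov (hW t hz)).resolve_right
      (Set.disjoint_left.1 ht hz.1)
    exact ((isPreconnected_iff_subset_of_disjoint_closed.1 (hc t)) F G hF hG h1
      (by rw [hFG.inter_eq, inter_empty])).resolve_left h
  have hcl : ∀ p : T → Prop, IsClosed (⋃ t : {t // p t}, D t) := fun p =>
    (hlf.comp_injective Subtype.val_injective).isClosed_iUnion fun t => (hD t).isClosed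
  refine ⟨F ∪ ⋃ t : {t // Disjoint (D t) K ∧ D t \ O t ⊆ F}, D t,
    G ∪ ⋃ t : {t // Disjoint (D t) K ∧ ¬ D t \ O t ⊆ F}, D t,
    K ∪ ⋃ t ∈ {t | (D t ∩ K).Nonempty}, D t, hF.union (hcl _), hG.union (hcl _),
    hK.union ((hlf.finite_nonempty_inter_compact hK).isCompact_biUnion fun t _ => hD t), ?_,
    subset_univ _, subset_univ _, fun z _ => ?_,
    fun h => hFn (h.of_isClosed_subset hF subset_union_left),
    fun h => hGn (h.of_isClosed_subset hG subset_union_left)⟩
  · rw [Set.disjoint_left]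
    rintro z (hz | hz) (hz' | hz')
    · exact Set.disjoint_left.1 hFG hz hz'
    · obtain ⟨t, ht⟩ := mem_iUnion.1 hz'
      exact Set.disjoint_left.1 hFG hz
        (hside t t.2.1 t.2.2 ⟨ht, fun h => hFW hz (mem_iUnion.2 ⟨_, h⟩)⟩)
    · obtain ⟨t, ht⟩ := mem_iUnion.1 hz
      exact Set.disjoint_left.1 hFG (t.2.2 ⟨ht, fun h => hGW hz' (mem_iUnion.2 ⟨_, h⟩)⟩) hz'
    · obtain ⟨s, hs⟩ := mem_iUnion.1 hz
      obtain ⟨t, ht⟩ := mem_iUnion.1 hz'
      exact Set.disjoint_left.1 (hd s t fun h => t.2.2 (h ▸ s.2.2)) hs ht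
  · by_cases hz : z ∈ ⋃ t, O t
    · obtain ⟨t, ht⟩ := mem_iUnion.1 hz
      by_cases h1 : Disjoint (D t) K
      · by_cases h2 : D t \ O t ⊆ F
        · exact Or.inl (Or.inl (Or.inr (mem_iUnion.2 ⟨⟨t, h1, h2⟩, hOD t ht⟩)))
        · exact Or.inl (Or.inr (Or.inr (mem_iUnion.2 ⟨⟨t, h1, h2⟩, hOD t ht⟩)))
      · exact Or.inr (Or.inr (mem_biUnion (x := t) (not_disjoint_iff_nonempty_inter.1 h1) (hOD t ht)))
    · rcases hcov hz with (h | h) | h
      · exact Or.inl (Or.inl (Or.inl h))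
      · exact Or.inl (Or.inr (Or.inl h))
      · exact Or.inr (Or.inl h)

omit [TopologicalSpace M] in
lemma mem_closure_piece {Z : Type} [TopologicalSpace Z] {u : M → Z} {W : Set M} {z : Z}
    (hz : z ∈ closure (u '' W)) {U : Set Z} (hU : IsOpen U) (hzU : z ∈ U) :
    z ∈ closure (u '' (W ∩ u ⁻¹' U)) := by
  rw [image_inter_preimage]
  exact hU.closure_inter ⟨hz, hzU⟩

lemma preconn_of_not_splits {Z : Type} [TopologicalSpace Z] [CompactSpace Z] [T2Space Z]
    {u : M → Z} (hu : IsOpenEmbedding u) {W : Set M} (hW : IsClosed W) (h : ¬ Splits W) :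
    IsPreconnected (closure (u '' W) ∩ (range u)ᶜ) := by
  have hc : IsClosed (closure (u '' W) ∩ (range u)ᶜ) :=
    isClosed_closure.inter hu.isOpen_range.isClosed_compl
  rw [isPreconnected_iff_subset_of_fully_disjoint_closed hc]
  intro P R hP hR hcov hd
  by_contra hne
  rw [not_or, not_subset, not_subset] at hne
  obtain ⟨⟨r, hr, hrP⟩, ⟨p, hp, hpR⟩⟩ := hne
  have hrR := (hcov hr).resolve_left hrP
  have hpP := (hcov hp).resolve_right hpR
  obtain ⟨g, hg0, hg1, -⟩ := exists_continuous_zero_one_of_isClosed hP hR hd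
  have hgu : Continuous fun x => g (u x) := g.continuous.comp hu.continuous
  have hnc : ∀ (A : Set M) (U : Set Z) (z : Z), IsOpen U → z ∈ U →
      z ∈ closure (u '' W) ∩ (range u)ᶜ → W ∩ u ⁻¹' U ⊆ A → ¬ IsCompact A := by
    intro A U z hU hzU hz hA hc
    have h1 := closure_mono (image_mono hA) (mem_closure_piece hz.1 hU hzU)
    rw [(hc.image hu.continuous).isClosed.closure_eq] at h1
    exact hz.2 (image_subset_range _ _ h1)
  refine h ⟨W ∩ {x | g (u x) ≤ 1 / 3}, W ∩ {x | 2 / 3 ≤ g (u x)},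
    W ∩ {x | 1 / 3 ≤ g (u x) ∧ g (u x) ≤ 2 / 3}, hW.inter (isClosed_le hgu continuous_const),
    hW.inter (isClosed_le continuous_const hgu), ?_, ?_, inter_subset_left, inter_subset_left,
    fun x hx => ?_, hnc _ {z | g z < 1 / 3} p (isOpen_lt g.continuous continuous_const)
      (by simp [hg0 hpP]) hp fun x hx => ⟨hx.1, le_of_lt (a := g (u x)) hx.2⟩,
    hnc _ {z | 2 / 3 < g z} r (isOpen_lt continuous_const g.continuous)
      (by simp [hg1 hrR]; norm_num) hr fun x hx => ⟨hx.1, le_of_lt (b := g (u x)) hx.2⟩⟩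
  · rw [hu.isInducing.isCompact_iff]
    have : u '' (W ∩ {x | 1 / 3 ≤ g (u x) ∧ g (u x) ≤ 2 / 3}) =
        closure (u '' W) ∩ {z | 1 / 3 ≤ g z ∧ g z ≤ 2 / 3} := by
      apply Subset.antisymm
      · rintro _ ⟨x, hx, rfl⟩
        exact ⟨subset_closure ⟨x, hx.1, rfl⟩, hx.2⟩
      · rintro z ⟨hz, h1, h2⟩
        by_cases hzr : z ∈ range u
        · obtain ⟨x, rfl⟩ := hzr
          refine ⟨x, ⟨?_, h1, h2⟩, rfl⟩
          rw [← hW.closure_eq, hu.isInducing.closure_eq_preimage_closure_image]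
          exact hz
        · rcases hcov ⟨hz, hzr⟩ with h | h
          · rw [hg0 h] at h1; norm_num at h1
          · rw [hg1 h] at h2; norm_num at h2
    rw [this]
    exact (isClosed_closure.inter ((isClosed_le continuous_const g.continuous).inter
      (isClosed_le g.continuous continuous_const))).isCompact
  · rw [Set.disjoint_left]
    rintro x ⟨-, h1⟩ ⟨-, h2⟩
    simp only [mem_ofPred_eq] at h1 h2
    linarith
  · rcases le_total (g (u x)) (1 / 3) with h1 | h1
    · exact Or.inl (Or.inl ⟨hx, h1⟩)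
    · rcases le_total (g (u x)) (2 / 3) with h2 | h2
      · exact Or.inr ⟨hx, h1, h2⟩
      · exact Or.inl (Or.inr ⟨hx, h2⟩)

lemma sc_disjoint [NormalSpace M] {A B : Set M} (hA : IsClosed A) (hB : IsClosed B)
    (hd : Disjoint A B) :
    Disjoint (closure (stoneCechUnit '' A)) (closure (stoneCechUnit '' B)) := by
  obtain ⟨f, hf0, hf1, hf⟩ := exists_continuous_zero_one_of_isClosed hA hB hd
  have hc : Continuous fun x => (⟨f x, hf x⟩ : Icc (0 : ℝ) 1) := f.continuous.subtype_mk _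
  have hg : Continuous fun z => (stoneCechExtend hc z).1 :=
    continuous_subtype_val.comp (continuous_stoneCechExtend hc)
  rw [Set.disjoint_left]
  intro z h1 h2
  have h3 : (stoneCechExtend hc z).1 = 0 :=
    closure_minimal (t := {z | (stoneCechExtend hc z).1 = 0}) (by
      rintro _ ⟨x, hx, rfl⟩
      simp only [mem_ofPred_eq, stoneCechExtend_stoneCechUnit]
      exact hf0 hx) (isClosed_eq hg continuous_const) h1
  have h4 : (stoneCechExtend hc z).1 = 1 :=
    closure_minimal (t := {z | (stoneCechExtend hc z).1 = 1}) (by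
      rintro _ ⟨x, hx, rfl⟩
      simp only [mem_ofPred_eq, stoneCechExtend_stoneCechUnit]
      exact hf1 hx) (isClosed_eq hg continuous_const) h2
  rw [h3] at h4
  exact zero_ne_one h4

lemma isOpen_range_of_dense {Z : Type} [TopologicalSpace Z] [T2Space Z] [LocallyCompactSpace M]
    {u : M → Z} (hu : IsEmbedding u) (hd : DenseRange u) : IsOpenEmbedding u := by
  refine ⟨hu, isOpen_iff_mem_nhds.2 ?_⟩
  rintro _ ⟨x, rfl⟩
  obtain ⟨C, hC, hx⟩ := exists_compact_mem_nhds x
  rw [hu.isInducing.nhds_eq_comap, mem_comap] at hx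
  obtain ⟨V, hV, hVC⟩ := hx
  obtain ⟨U, hUV, hU, hxU⟩ := mem_nhds_iff.1 hV
  refine mem_of_superset (hU.mem_nhds hxU) fun z hz => ?_
  have h1 := mem_closure_piece (W := univ) (by rw [image_univ]; exact hd z) hU hz
  have h2 := closure_mono (image_mono (f := u) (show univ ∩ u ⁻¹' U ⊆ C from
    fun y hy => hVC (hUV hy.2))) h1
  rw [(hC.image hu.continuous).isClosed.closure_eq] at h2
  exact image_subset_range _ _ h2

end Pool.Agent.H85.Apo
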