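import Mathlib

set_option autoImplicit false

namespace Pool.Agent.H85.BDefs

open Set Filter Cardinal

/-- The bounding number. -/
noncomputable def bnum : Cardinal.{0} :=
  sInf {κ | ∃ F : Set (ℕ → ℕ), (¬ ∃ b : ℕ → ℕ, ∀ a ∈ F, ∀ᶠ n in atTop, a n ≤ b n) ∧ #F = κ}

/-- A subset of the Cantor space which is `κ`-concentrated on a countable subset of itself. -/
def Concentrated (κ : Cardinal.{0}) (X : Set (ℕ → Bool)) : Prop :=
  κ ≤ #X ∧ ∃ A ⊆ X, A.Countable ∧ ∀ U : Set (ℕ → Bool), IsOpen U → A ⊆ U → #(X \ U : Set _) < κ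

end Pool.Agent.H85.BDefs
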