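import Mathlib

namespace Pool.Agent.H85.LamA

open Set Real Filter Topology

inductive L : ℝ → ℝ → Prop
  | top : L 0 1
  | fan (n : ℤ) : L 0 (sigmoid n)
  | sub (n : ℤ) {a b : ℝ} : L a b → L (sigmoid (n + a)) (sigmoid (n + b))

lemma L.bd {a b : ℝ} (h : L a b) : 0 ≤ a ∧ a < b ∧ b ≤ 1 := by
  induction h with
  | top => norm_num
  | fan n => exact ⟨le_rfl, sigmoid_pos _, sigmoid_le_one _⟩
  | sub n _ ih => exact ⟨sigmoid_nonneg _, sigmoid_lt (by linarith [ih.2.1]), sigmoid_le_one _⟩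

lemma L.unl {a b : ℝ} (h : L a b) : ∀ {c d : ℝ}, L c d → ¬ (a < c ∧ c < b ∧ b < d) := by
  induction h with
  | top => exact fun h2 h => h.2.2.not_ge h2.bd.2.2
  | fan n =>
    intro c d h2 h
    cases h2 with
    | top => exact h.1.false
    | fan m => exact h.1.false
    | sub m h3 =>
      have := h3.bd
      rw [sigmoid_lt_iff, sigmoid_lt_iff] at h
      have h4 : m < n := by exact_mod_cast (show (m : ℝ) < n by linarith [h.2.1])
      have h5 : n < m + 1 := by exact_mod_cast (show (n : ℝ) < m + 1 by linarith [h.2.2])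
      omega
  | sub n h1 ih =>
    intro c d h2 h
    cases h2 with
    | top => exact h.1.not_ge (sigmoid_nonneg _)
    | fan m => exact h.1.not_ge (sigmoid_nonneg _)
    | sub m h3 =>
      have := h3.bd
      have := h1.bd
      rw [sigmoid_lt_iff, sigmoid_lt_iff, sigmoid_lt_iff] at h
      have h4 : m < n + 1 := by exact_mod_cast (show (m : ℝ) < n + 1 by linarith [h.2.1])
      have h5 : n < m + 1 := by exact_mod_cast (show (n : ℝ) < m + 1 by linarith [h.2.2])
      obtain rfl : m = n := by omega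
      exact ih h3 ⟨by linarith [h.1], by linarith [h.2.1], by linarith [h.2.2]⟩

lemma sig_lip {u v : ℝ} (h : u ≤ v) : sigmoid v - sigmoid u ≤ (v - u) / 2 := by
  have := image_sub_le_mul_sub_of_deriv_le differentiable_sigmoid (C := 1 / 2) (fun x => by
    rw [deriv_sigmoid]; nlinarith [sq_nonneg (sigmoid x - 1 / 2)]) h
  linarith

lemma exs {u : ℝ} (h0 : 0 < u) (h1 : u < 1) : ∃ y, sigmoid y = u := by
  have : u ∈ range sigmoid := range_sigmoid ▸ ⟨h0, h1⟩
  exact this

def Unl (a b : ℝ) : Prop := ∀ c d, L c d → ¬ (a < c ∧ c < b ∧ b < d) ∧ ¬ (c < a ∧ a < d ∧ d < b)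

lemma L.step (n : ℤ) : L (sigmoid n) (sigmoid (n + 1)) := by simpa using L.sub n L.top

lemma maximal (k : ℕ) : ∀ a b, 0 ≤ a → b ≤ 1 → 1 / 2 ^ k < b - a → Unl a b → L a b := by
  induction k with
  | zero => intro a b h0 h1 h; norm_num at h; linarith
  | succ k ih =>
    intro a b h0 h1 h hu
    have hab : a < b := by
      have : (0 : ℝ) < 1 / 2 ^ (k + 1) := by positivity
      linarith
    rcases h0.eq_or_lt with rfl | h0
    · rcases h1.eq_or_lt with rfl | h1
      · exact L.top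
      obtain ⟨y, rfl⟩ := exs hab h1
      rcases (Int.floor_le y).eq_or_lt with e | e
      · rw [← e]; exact L.fan _
      · exact absurd ⟨sigmoid_pos _, sigmoid_lt e, sigmoid_lt (Int.lt_floor_add_one y)⟩
          (hu _ _ (L.step ⌊y⌋)).1
    · obtain ⟨y, rfl⟩ := exs h0 (hab.trans_le h1)
      have e := Int.lt_floor_add_one y
      have hb : b ≤ sigmoid (⌊y⌋ + 1) := by
        by_contra hb
        have := (hu _ _ (L.fan (⌊y⌋ + 1))).2
        push_cast at this
        exact this ⟨sigmoid_pos _, sigmoid_lt e, not_le.1 hb⟩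
      obtain ⟨y', rfl⟩ := exs (h0.trans hab) (hb.trans_lt (sigmoid_lt_one _))
      rw [sigmoid_le_iff] at hb
      rw [sigmoid_lt_iff] at hab
      have := L.sub ⌊y⌋ (ih (y - ⌊y⌋) (y' - ⌊y⌋) (by linarith [Int.floor_le y]) (by linarith)
        (by have := sig_lip hab.le; rw [pow_succ, ← div_div] at h; linarith) fun c d hcd => by
          have := hu _ _ (L.sub ⌊y⌋ hcd)
          simp only [sigmoid_lt_iff] at this
          exact ⟨fun h => this.1 ⟨by linarith [h.1], by linarith [h.2.1], by linarith [h.2.2]⟩,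
            fun h => this.2 ⟨by linarith [h.1], by linarith [h.2.1], by linarith [h.2.2]⟩⟩)
      simpa using this

def K : Set (ℝ × ℝ) := {p | 0 ≤ p.1 ∧ p.1 ≤ p.2 ∧ p.2 ≤ 1 ∧ Unl p.1 p.2}

lemma L.mem {a b : ℝ} (h : L a b) : (a, b) ∈ K :=
  ⟨h.bd.1, h.bd.2.1.le, h.bd.2.2, fun _ _ h2 => ⟨h.unl h2, h2.unl h⟩⟩

lemma K_cases {p : ℝ × ℝ} (h : p ∈ K) : p.1 = p.2 ∨ L p.1 p.2 := by
  rcases h.2.1.eq_or_lt with e | e
  · exact Or.inl e
  obtain ⟨k, hk⟩ := exists_pow_lt_of_lt_one (sub_pos.2 e) (show (1 / 2 : ℝ) < 1 by norm_num)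
  exact Or.inr (maximal k _ _ h.1 h.2.2.1 (by rwa [← one_div_pow]) h.2.2.2)

lemma K_compact : IsCompact K := by
  refine (isCompact_Icc (a := ((0, 0) : ℝ × ℝ)) (b := (1, 1))).of_isClosed_subset ?_
    fun p h => ⟨⟨h.1, h.1.trans h.2.1⟩, h.2.1.trans h.2.2.1, h.2.2.1⟩
  refine (isClosed_le continuous_const continuous_fst).inter
    ((isClosed_le continuous_fst continuous_snd).inter
      ((isClosed_le continuous_snd continuous_const).inter ?_))
  change IsClosed {p : ℝ × ℝ | Unl p.1 p.2}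
  simp only [Unl, ofPred_forall]
  refine isClosed_iInter fun c => isClosed_iInter fun d => isClosed_iInter fun _ =>
    IsClosed.inter (IsOpen.isClosed_compl ?_) (IsOpen.isClosed_compl ?_)
  · exact (isOpen_lt continuous_fst continuous_const).inter
      ((isOpen_lt continuous_const continuous_snd).inter (isOpen_lt continuous_snd continuous_const))
  · exact (isOpen_lt continuous_const continuous_fst).inter
      ((isOpen_lt continuous_fst continuous_const).inter (isOpen_lt continuous_const continuous_snd))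

noncomputable def B : List ℤ → ℝ → ℝ
  | [], u => u
  | n :: w, u => sigmoid (n + B w u)

lemma L_countable : {p : ℝ × ℝ | L p.1 p.2}.Countable := by
  refine (countable_range fun x : List ℤ × Option ℤ =>
    (B x.1 0, B x.1 (x.2.elim 1 fun n => sigmoid n))).mono ?_
  rintro ⟨a, b⟩ (h : L a b)
  induction h with
  | top => exact ⟨([], none), rfl⟩
  | fan n => exact ⟨([], some n), rfl⟩
  | sub n _ ih =>
    obtain ⟨x, hx⟩ := ih
    refine ⟨(n :: x.1, x.2), ?_⟩
    simp only [Prod.mk.injEq] at hx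
    simp only [B, hx.1, hx.2]

open Classical in
noncomputable def e (F : ℝ ≃o ℝ) (u : ℝ) : ℝ :=
  if u ∈ Ioo (0 : ℝ) 1 then sigmoid (F (Function.invFun sigmoid u)) else u

lemma e_sig (F : ℝ ≃o ℝ) (y : ℝ) : e F (sigmoid y) = sigmoid (F y) := by
  rw [e, if_pos ⟨sigmoid_pos y, sigmoid_lt_one y⟩, Function.leftInverse_invFun sigmoid_injective y]

lemma e_out (F : ℝ ≃o ℝ) {u : ℝ} (h : u ≤ 0 ∨ 1 ≤ u) : e F u = u :=
  if_neg fun h' => h.elim h'.1.not_ge h'.2.not_ge

lemma tri (u : ℝ) : u ≤ 0 ∨ 1 ≤ u ∨ ∃ y, sigmoid y = u := by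
  by_cases h0 : u ≤ 0
  · exact Or.inl h0
  by_cases h1 : 1 ≤ u
  exacts [Or.inr (Or.inl h1), Or.inr (Or.inr (exs (not_le.1 h0) (not_le.1 h1)))]

lemma e_mul (F G : ℝ ≃o ℝ) (u : ℝ) : e (F * G) u = e F (e G u) := by
  rcases tri u with h | h | ⟨y, rfl⟩
  · simp only [e_out _ (Or.inl h)]
  · simp only [e_out _ (Or.inr h)]
  · simp only [e_sig]; rfl

lemma e_one (u : ℝ) : e 1 u = u := by
  rcases tri u with h | h | ⟨y, rfl⟩
  exacts [e_out _ (Or.inl h), e_out _ (Or.inr h), e_sig _ _]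

lemma e_mono (F : ℝ ≃o ℝ) : StrictMono (e F) := by
  intro u v huv
  rcases tri u with h | h | ⟨y, rfl⟩ <;> rcases tri v with h' | h' | ⟨y', rfl⟩
  · rwa [e_out _ (Or.inl h), e_out _ (Or.inl h')]
  · rwa [e_out _ (Or.inl h), e_out _ (Or.inr h')]
  · rw [e_out _ (Or.inl h), e_sig]; exact h.trans_lt (sigmoid_pos _)
  · linarith
  · rwa [e_out _ (Or.inr h), e_out _ (Or.inr h')]
  · linarith [sigmoid_lt_one y']
  · linarith [sigmoid_pos y]
  · rw [e_out _ (Or.inr h'), e_sig]; exact (sigmoid_lt_one _).trans_le h'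
  · rw [e_sig, e_sig]; exact sigmoid_lt (F.strictMono (sigmoid_lt_iff.1 huv))

noncomputable def X : (ℝ ≃o ℝ) →* (ℝ ≃o ℝ) :=
  MonoidHom.mk' (fun F => (e_mono F).orderIsoOfRightInverse (e F) (e F⁻¹) fun u => by
    rw [← e_mul, mul_inv_cancel, e_one]) fun F G => by ext u; exact e_mul F G u

lemma X_apply (F : ℝ ≃o ℝ) (u : ℝ) : X F u = e F u := rfl

def Good (F : ℝ ≃o ℝ) : Prop := ∀ a b, L a b → L (e F a) (e F b)

lemma good_X {F : ℝ ≃o ℝ} (h : Good F) : Good (X F) := by
  intro a b hab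
  cases hab with
  | top => rw [e_out _ (Or.inl le_rfl), e_out _ (Or.inr le_rfl)]; exact L.top
  | fan n =>
    rw [e_out _ (Or.inl le_rfl), e_sig, X_apply, e_out]
    · exact L.fan n
    · exact_mod_cast (by omega : n ≤ 0 ∨ 1 ≤ n)
  | sub n h1 =>
    rename_i a b
    rw [e_sig, e_sig, X_apply, X_apply]
    have := h1.bd
    rcases lt_trichotomy n 0 with hn | rfl | hn
    · have : (n : ℝ) + 1 ≤ 0 := by exact_mod_cast hn
      rw [e_out _ (Or.inl (by linarith)), e_out _ (Or.inl (by linarith))]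
      exact L.sub n h1
    · simpa using L.sub 0 (h a b h1)
    · have : (1 : ℝ) ≤ n := by exact_mod_cast hn
      rw [e_out _ (Or.inr (by linarith)), e_out _ (Or.inr (by linarith))]
      exact L.sub n h1

lemma good_of {F : ℝ ≃o ℝ} (m : ℤ) (h : ∀ y, F y = m + y) : Good F := by
  intro a b hab
  cases hab with
  | top => rw [e_out _ (Or.inl le_rfl), e_out _ (Or.inr le_rfl)]; exact L.top
  | fan n => rw [e_out _ (Or.inl le_rfl), e_sig, h]; exact_mod_cast L.fan (m + n)
  | sub n h1 =>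
    rw [e_sig, e_sig, h, h, ← add_assoc, ← add_assoc]
    exact_mod_cast L.sub (m + n) h1

def t : ℝ ≃o ℝ := OrderIso.addLeft 1

lemma t_pow (n : ℕ) (y : ℝ) : (t ^ n) y = n + y := by
  induction n with
  | zero => simp
  | succ n ih =>
    rw [pow_succ', RelIso.coe_mul, Function.comp, ih]
    change 1 + ((n : ℝ) + y) = _
    push_cast; ring

lemma t_inv (y : ℝ) : t⁻¹ y = (-1 : ℤ) + y := by
  change t.symm y = _
  rw [OrderIso.symm_apply_eq]
  change y = 1 + _
  push_cast; ring

noncomputable def G : Subgroup (ℝ ≃o ℝ) := Subgroup.closure {t, X t, X (X t)}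

lemma G_good {F : ℝ ≃o ℝ} (h : F ∈ G) : Good F := by
  have h1 : Good t := good_of 1 fun y => by change 1 + y = _; simp
  have h2 : Good t⁻¹ := good_of (-1) t_inv
  induction h using Subgroup.closure_induction'' with
  | mem x hx => rcases hx with rfl | rfl | rfl; exacts [h1, good_X h1, good_X (good_X h1)]
  | inv_mem x hx =>
    rcases hx with rfl | rfl | rfl
    · exact h2
    · rw [← map_inv]; exact good_X h2
    · rw [← map_inv, ← map_inv]; exact good_X (good_X h2)
  | one => intro a b h; rwa [e_one, e_one]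
  | mul x y _ _ hx hy => intro a b h; rw [e_mul, e_mul]; exact hx _ _ (hy _ _ h)

lemma comm (F F' : ℝ ≃o ℝ) {n : ℕ} (hn : 0 < n) :
    X F * t ^ n * X F' = t ^ n * X F' * (t ^ n)⁻¹ * X F * t ^ n := by
  have hn' : (1 : ℝ) ≤ n := by exact_mod_cast hn
  have hi : ∀ y, (t ^ n)⁻¹ y = y - n := fun y => by
    change (t ^ n).symm y = _
    rw [OrderIso.symm_apply_eq, t_pow]; ring
  ext u
  simp only [RelIso.coe_mul, Function.comp, t_pow, X_apply, hi]
  rcases le_total u 0 with h | h
  · rw [e_out F' (Or.inl h), e_out F' (Or.inl ?_)]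
    · ring
    · have := (e_mono F).monotone (show n + u ≤ n by linarith)
      rw [e_out F (Or.inr hn')] at this
      linarith
  · have := (e_mono F').monotone h
    rw [e_out F' (Or.inl le_rfl)] at this
    rw [e_out F (Or.inr (by linarith)), e_out F (Or.inr (by linarith)), add_sub_cancel_left]

theorem nonRF : ∃ g : G, g ≠ 1 ∧ ∀ (H : Type) [Group H] [Finite H] (φ : G →* H), φ g = 1 := by
  let T : G := ⟨t, Subgroup.subset_closure (by simp)⟩
  let a : G := ⟨X t, Subgroup.subset_closure (by simp)⟩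
  let b : G := ⟨X (X t), Subgroup.subset_closure (by simp)⟩
  refine ⟨a * b * a⁻¹ * b⁻¹, fun h => ?_, fun H _ _ φ => ?_⟩
  · rw [mul_inv_eq_one, mul_inv_eq_iff_eq_mul] at h
    have := congrArg (fun g : G => g.1 (sigmoid (sigmoid 0))) h
    change e t (e (X t) _) = e (X t) (e t _) at this
    simp only [e_sig, X_apply, sigmoid_inj] at this
    change 1 + sigmoid (1 + 0) = e t (1 + _) at this
    rw [e_out _ (Or.inr (by linarith [sigmoid_pos 0]))] at this
    rw [add_right_inj, sigmoid_inj] at this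
    simp at this
  · have h1 : a * T ^ Nat.card H * b = T ^ Nat.card H * b * (T ^ Nat.card H)⁻¹ * a * T ^ Nat.card H :=
      Subtype.ext (comm t (X t) Nat.card_pos)
    have := congrArg φ h1
    simp only [map_mul, map_pow, map_inv, pow_card_eq_one', mul_one, one_mul, inv_one] at this
    simp only [map_mul, map_inv, this]
    group

end Pool.Agent.H85.LamA
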