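import Mathlib
import Pool.Agent.H85.LamA

namespace Pool.Agent.H85.BigA

open Set Real Filter Topology Pool.Agent.H85.LamA

structure Gd (A : Set ℝ) : Prop where
  sub : A ⊆ Icc 0 1
  cl : IsClosed A
  pp : ∀ x ∈ A, ∃ᶠ y in 𝓝 x, y ≠ x ∧ y ∈ A
  gap : ∀ u v, u < v → ∃ w, u < w ∧ w < v ∧ w ∉ A
  zero : 0 ∈ A

lemma mem_c (x : ℝ) : x ∈ cantorSet ↔ 3 * x ∈ cantorSet ∨ 3 * x - 2 ∈ cantorSet := by
  nth_rw 1 [cantorSet_eq_union_halves]
  constructor
  · rintro (⟨y, hy, rfl⟩ | ⟨y, hy, rfl⟩)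
    · left; convert hy using 1; ring
    · right; convert hy using 1; ring
  · rintro (h | h)
    exacts [Or.inl ⟨_, h, by ring⟩, Or.inr ⟨_, h, by ring⟩]

lemma nc {x : ℝ} (h : x < 0 ∨ 1 < x) : x ∉ cantorSet := fun hx =>
  h.elim (cantorSet_subset_unitInterval hx).1.not_gt (cantorSet_subset_unitInterval hx).2.not_gt

lemma c_gd : Gd cantorSet where
  sub := cantorSet_subset_unitInterval
  cl := isClosed_cantorSet
  zero := zero_mem_cantorSet
  pp x hx := by
    have key : ∀ n : ℕ, ∀ x ∈ cantorSet, ∃ z ∈ cantorSet, z ≠ x ∧ |z - x| ≤ (1 / 3) ^ n := by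
      intro n
      induction n with
      | zero =>
        intro x hx
        have := cantorSet_subset_unitInterval hx
        rcases eq_or_ne x 0 with rfl | h
        · exact ⟨_, quarter_mem_cantorSet, by norm_num, by norm_num [abs_le]⟩
        · exact ⟨0, zero_mem_cantorSet, h.symm, by simpa [abs_of_nonneg this.1] using this.2⟩
      | succ n ih =>
        intro x hx
        rcases (mem_c x).1 hx with h | h <;> obtain ⟨z, h1, h2, h3⟩ := ih _ h <;>
          rw [abs_le] at h3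
        · exact ⟨z / 3, (mem_c _).2 (Or.inl (by convert h1 using 1; ring)),
            fun e => h2 (by linarith), by rw [pow_succ, abs_le]; constructor <;> linarith⟩
        · exact ⟨(z + 2) / 3, (mem_c _).2 (Or.inr (by convert h1 using 1; ring)),
            fun e => h2 (by linarith), by rw [pow_succ, abs_le]; constructor <;> linarith⟩
    rw [Metric.nhds_basis_ball.frequently_iff]
    intro ε hε
    obtain ⟨n, hn⟩ := exists_pow_lt_of_lt_one hε (show (1 / 3 : ℝ) < 1 by norm_num)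
    obtain ⟨z, h1, h2, h3⟩ := key n x hx
    exact ⟨z, h3.trans_lt hn, h2, h1⟩
  gap u v huv := by
    obtain ⟨n, hn⟩ := exists_pow_lt_of_lt_one (sub_pos.2 huv) (show (1 / 3 : ℝ) < 1 by norm_num)
    induction n generalizing u v with
    | zero =>
      rcases lt_or_ge u 0 with h | h
      · obtain ⟨w, h1, h2⟩ := exists_between (lt_min huv h)
        exact ⟨w, h1, h2.trans_le (min_le_left _ _), nc (Or.inl (h2.trans_le (min_le_right _ _)))⟩
      · obtain ⟨w, h1, h2⟩ := exists_between (show u + 1 < v by norm_num at hn; linarith)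
        exact ⟨w, by linarith, h2, nc (Or.inr (by linarith))⟩
    | succ n ih =>
      rw [pow_succ] at hn
      rcases le_or_gt v (1 / 3) with h | h
      · obtain ⟨w, h1, h2, h3⟩ := ih (3 * u) (3 * v) (by linarith) (by linarith)
        refine ⟨w / 3, by linarith, by linarith, fun hw => ((mem_c _).1 hw).elim (fun k => h3 ?_)
          (nc (Or.inl (by linarith)))⟩
        convert k using 1; ring
      rcases le_or_gt (2 / 3) u with h' | h'
      · obtain ⟨w, h1, h2, h3⟩ := ih (3 * u - 2) (3 * v - 2) (by linarith) (by linarith)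
        refine ⟨(w + 2) / 3, by linarith, by linarith, fun hw => ((mem_c _).1 hw).elim
          (nc (Or.inr (by linarith))) fun k => h3 ?_⟩
        convert k using 1; ring
      · obtain ⟨w, h1, h2⟩ := exists_between
          (max_lt (lt_min huv h') (lt_min h (show (1 / 3 : ℝ) < 2 / 3 by norm_num)))
        rw [max_lt_iff] at h1
        rw [lt_min_iff] at h2
        exact ⟨w, h1.1, h2.1, fun hw => ((mem_c _).1 hw).elim (nc (Or.inr (by linarith)))
          (nc (Or.inl (by linarith)))⟩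

def P (A : Set ℝ) : Set ℝ := {y | ∃ n : ℤ, y - 2 * n ∈ A}

def Φ (A : Set ℝ) : Set ℝ := {u | u = 0 ∨ u = 1 ∨ ∃ y ∈ P A, sigmoid y = u}

lemma sig_mem {A : Set ℝ} {y : ℝ} : sigmoid y ∈ Φ A ↔ y ∈ P A :=
  ⟨fun h => h.elim (fun e => absurd e (sigmoid_pos y).ne') fun h =>
    h.elim (fun e => absurd e (sigmoid_lt_one y).ne) fun ⟨_, h1, h2⟩ => sigmoid_injective h2 ▸ h1,
    fun h => Or.inr (Or.inr ⟨y, h, rfl⟩)⟩

lemma P_iff {A : Set ℝ} (h : Gd A) {y : ℝ} (h0 : -1 < y) (h1 : y < 2) : y ∈ P A ↔ y ∈ A := by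
  refine ⟨fun ⟨n, hn⟩ => ?_, fun h => ⟨0, by simpa using h⟩⟩
  have := h.sub hn
  have h3 : n < 1 := by exact_mod_cast (show (n : ℝ) < 1 by linarith [this.1])
  have h4 : -1 < n := by exact_mod_cast (show (-1 : ℝ) < n by linarith [this.2])
  obtain rfl : n = 0 := by omega
  simpa using hn

lemma P_add {A : Set ℝ} (n : ℤ) (y : ℝ) : y + 2 * n ∈ P A ↔ y ∈ P A :=
  ⟨fun ⟨m, h⟩ => ⟨m - n, by convert h using 1; push_cast; ring⟩,
    fun ⟨m, h⟩ => ⟨m + n, by convert h using 1; push_cast; ring⟩⟩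

lemma Gd.phi {A : Set ℝ} (h : Gd A) : Gd (Φ A) where
  sub := by
    rintro _ (rfl | rfl | ⟨y, -, rfl⟩)
    exacts [by simp, by simp, ⟨sigmoid_nonneg _, sigmoid_le_one _⟩]
  zero := Or.inl rfl
  cl := by
    have h1 : IsClosed (P A) := by
      have := (Int.isClosedEmbedding_coe_real.isClosed_range.preimage
        (continuous_id.div_const (2 : ℝ))).add_right_of_isCompact
          (isCompact_Icc.of_isClosed_subset h.cl h.sub)
      convert this
      ext y
      refine ⟨fun ⟨n, hn⟩ => ⟨2 * n, ⟨n, by simp⟩, _, hn, by simp⟩, ?_⟩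
      rintro ⟨a, ⟨n, hn⟩, b, hb, rfl⟩
      exact ⟨n, by convert hb using 1; simp only [hn, id]; ring⟩
    have h2 : IsOpenEmbedding sigmoid :=
      ⟨sigmoid_strictMono.isEmbedding_of_ordConnected (range_sigmoid ▸ ordConnected_Ioo),
        range_sigmoid ▸ isOpen_Ioo⟩
    have := (isClosed_Icc (a := (0 : ℝ)) (b := 1)).sdiff (h2.isOpenMap _ h1.isOpen_compl)
    convert this
    ext u
    constructor
    · rintro (rfl | rfl | ⟨y, hy, rfl⟩)
      · exact ⟨by simp, fun ⟨y, _, e⟩ => (sigmoid_pos y).ne' e⟩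
      · exact ⟨by simp, fun ⟨y, _, e⟩ => (sigmoid_lt_one y).ne e⟩
      · exact ⟨⟨sigmoid_nonneg _, sigmoid_le_one _⟩, fun ⟨z, hz, e⟩ => hz (sigmoid_injective e ▸ hy)⟩
    · rintro ⟨h3, h4⟩
      rcases tri u with k | k | ⟨y, rfl⟩
      exacts [Or.inl (k.antisymm h3.1), Or.inr (Or.inl (h3.2.antisymm k)),
        sig_mem.2 (by_contra fun k => h4 ⟨y, k, rfl⟩)]
  pp := by
    have h0 : ∀ n : ℤ, sigmoid (2 * n) ∈ Φ A := fun n => sig_mem.2 ⟨n, by simpa using h.zero⟩
    rintro _ (rfl | rfl | ⟨y, ⟨n, hn⟩, rfl⟩)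
    · exact (tendsto_sigmoid_atBot.comp ((tendsto_intCast_atBot_iff.2 tendsto_id).const_mul_atBot
        two_pos)).frequently (Frequently.of_forall fun n => ⟨(sigmoid_pos _).ne', h0 n⟩)
    · exact (tendsto_sigmoid_atTop.comp (tendsto_intCast_atTop_atTop.const_mul_atTop
        two_pos)).frequently (Frequently.of_forall fun n => ⟨(sigmoid_lt_one _).ne, h0 n⟩)
    · have : Tendsto (fun x => sigmoid (x + 2 * n)) (𝓝 (y - 2 * n)) (𝓝 (sigmoid y)) :=
        (continuous_sigmoid.comp (by fun_prop)).tendsto' _ _ (by simp)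
      exact this.frequently ((h.pp _ hn).mono fun x hx => ⟨fun e => hx.1 (by
        rw [← sigmoid_injective e]; ring), sig_mem.2 ⟨n, by simpa using hx.2⟩⟩)
  gap u v huv := by
    have hs : ∀ w, w < 0 ∨ 1 < w → w ∉ Φ A := by
      rintro _ k (rfl | rfl | ⟨y, -, rfl⟩) <;> rcases k with k | k <;>
        first | linarith | linarith [sigmoid_pos y, sigmoid_lt_one y]
    rcases lt_or_ge u 0 with k | k
    · obtain ⟨w, h1, h2⟩ := exists_between (lt_min huv k)
      exact ⟨w, h1, h2.trans_le (min_le_left _ _), hs _ (Or.inl (h2.trans_le (min_le_right _ _)))⟩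
    rcases lt_or_ge 1 v with k' | k'
    · obtain ⟨w, h1, h2⟩ := exists_between (max_lt huv k')
      exact ⟨w, (le_max_left _ _).trans_lt h1, h2, hs _ (Or.inr ((le_max_right _ _).trans_lt h1))⟩
    obtain ⟨q, h1, h2⟩ := exists_between huv
    obtain ⟨p, h3, h4⟩ := exists_between h1
    obtain ⟨a, rfl⟩ := exs (k.trans_lt h3) (by linarith)
    obtain ⟨b, rfl⟩ := exs (k.trans_lt h1) (by linarith)
    rw [sigmoid_lt_iff] at h4
    have f1 := Int.floor_le (a / 2)
    have f2 := Int.lt_floor_add_one (a / 2)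
    obtain ⟨w, w1, w2, w3⟩ := h.gap (a - 2 * ⌊a / 2⌋) (min (b - 2 * ⌊a / 2⌋) 2)
      (lt_min (by linarith) (by linarith))
    rw [lt_min_iff] at w2
    refine ⟨sigmoid (w + 2 * ⌊a / 2⌋), h3.trans (sigmoid_lt (by linarith)),
      (sigmoid_lt (by linarith)).trans h2, fun hw => w3 ?_⟩
    rwa [sig_mem, P_add, P_iff h (by linarith) w2.2] at hw

def Inv (A : Set ℝ) (f : ℝ → ℝ) : Prop := ∀ y, f y ∈ A ↔ y ∈ A

lemma inv_phi {A : Set ℝ} {F : ℝ ≃o ℝ} (h : Inv (P A) F) : Inv (Φ A) (e F) := fun u => by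
  rcases tri u with k | k | ⟨y, rfl⟩
  · rw [e_out _ (Or.inl k)]
  · rw [e_out _ (Or.inr k)]
  · rw [e_sig, sig_mem, sig_mem, h]

lemma inv_P {A : Set ℝ} (hA : Gd A) {F : ℝ ≃o ℝ} (h : Inv A (e F)) : Inv (P A) (X F) := fun u => by
  rw [X_apply]
  rcases tri u with k | k | ⟨y, rfl⟩
  · rw [e_out _ (Or.inl k)]
  · rw [e_out _ (Or.inr k)]
  · rw [P_iff hA (y := sigmoid y) (by linarith [sigmoid_pos y]) (by linarith [sigmoid_lt_one y]), ← h,
      e_sig, P_iff hA (by linarith [sigmoid_pos (F y)]) (by linarith [sigmoid_lt_one (F y)])]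

def τ : ℝ ≃o ℝ := OrderIso.addRight 2

lemma τ_ap (y : ℝ) : τ y = y + 2 := rfl

lemma τ_inv (A : Set ℝ) : Inv (P A) τ := fun y => by simpa using! P_add (A := A) 1 y

noncomputable def g0 (x : ℝ) : ℝ := max x (min (3 * x) (min (x + 4 / 3) (x / 3 + 2)))
noncomputable def g1 (y : ℝ) : ℝ := min y (max (y / 3) (max (y - 4 / 3) (3 * y - 6)))
noncomputable def r (y : ℝ) : ℝ := y - 4 * ⌊y / 4⌋

lemma r_bd (y : ℝ) : 0 ≤ r y ∧ r y < 4 := by
  unfold r; constructor <;> linarith [Int.floor_le (y / 4), Int.lt_floor_add_one (y / 4)]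

lemma r_eq (n : ℤ) {x : ℝ} (h0 : 0 ≤ x) (h1 : x < 4) : r (4 * n + x) = x := by
  rw [r, Int.floor_eq_iff.2 (⟨by linarith, by linarith⟩ : (n : ℝ) ≤ _ ∧ _ < (n : ℝ) + 1)]; ring

noncomputable def per (g : ℝ → ℝ) (y : ℝ) : ℝ := 4 * (⌊y / 4⌋ : ℤ) + g (r y)

lemma g0_bd {x : ℝ} (h : 0 ≤ x ∧ x < 4) : 0 ≤ g0 x ∧ g0 x < 4 := by unfold g0; grind
lemma g1_bd {x : ℝ} (h : 0 ≤ x ∧ x < 4) : 0 ≤ g1 x ∧ g1 x < 4 := by unfold g1; grind
lemma g01 (x : ℝ) : g0 (g1 x) = x := by unfold g0 g1; grind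
lemma g0_mono : StrictMono g0 := fun x y h => by unfold g0; grind

lemma r_per (y : ℝ) : r (per g0 y) = g0 (r y) := r_eq _ (g0_bd (r_bd y)).1 (g0_bd (r_bd y)).2

noncomputable def γ : ℝ ≃o ℝ :=
  StrictMono.orderIsoOfRightInverse (per g0) (fun x y h => by
    unfold per
    rcases (Int.floor_mono (show x / 4 ≤ y / 4 by linarith)).eq_or_lt with k | k
    · have := g0_mono (show r x < r y by unfold r; rw [k]; linarith)
      rw [k]; linarith
    · have : (⌊x / 4⌋ : ℝ) + 1 ≤ ⌊y / 4⌋ := by exact_mod_cast k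
      linarith [g0_bd (r_bd x), g0_bd (r_bd y)]) (per g1) fun y => by
    have h := r_eq ⌊y / 4⌋ (g1_bd (r_bd y)).1 (g1_bd (r_bd y)).2
    have h2 : per g0 (per g1 y) = per g1 y - r (per g1 y) + g0 (r (per g1 y)) := by
      rw [per, r]; ring
    rw [h2, per, h, g01, r]; ring

lemma γ_ap (y : ℝ) : γ y = per g0 y := rfl

lemma P_c {x : ℝ} (h : 0 ≤ x ∧ x < 4) : x ∈ P cantorSet ↔ x ∈ cantorSet ∨ x - 2 ∈ cantorSet := by
  rcases lt_or_ge x 2 with k | k
  · rw [P_iff c_gd (by linarith) k, or_iff_left (nc (Or.inl (by linarith)))]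
  · rw [or_iff_right (nc (Or.inr (by linarith))), ← P_iff c_gd (by linarith) (by linarith),
      ← τ_inv _ (x - 2), τ_ap, sub_add_cancel]

lemma γ_inv : Inv (P cantorSet) γ := fun y => by
  have h1 : γ y = g0 (r y) + 2 * (2 * ⌊y / 4⌋ : ℤ) := by rw [γ_ap, per]; push_cast; ring
  have h2 : y = r y + 2 * (2 * ⌊y / 4⌋ : ℤ) := by rw [r]; push_cast; ring
  rw [h1, P_add]
  nth_rw 2 [h2]
  rw [P_add, P_c (r_bd y), P_c (g0_bd (r_bd y))]
  have := r_bd y
  generalize r y = x at *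
  rcases le_total x (2 / 3) with k | k
  · rw [show g0 x = 3 * x by unfold g0; grind, ← mem_c, or_iff_left (nc (Or.inl (by linarith)))]
  rcases le_total x 1 with k' | k'
  · rw [show g0 x = x + 4 / 3 by unfold g0; grind, or_iff_right (nc (Or.inr (by linarith))),
      or_iff_left (nc (Or.inl (by linarith))), mem_c, mem_c x,
      or_iff_left (nc (Or.inl (by linarith))), or_iff_right (nc (Or.inr (by linarith)))]
    exact iff_of_eq (congrArg (· ∈ cantorSet) (by ring))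
  rcases le_total x 3 with k'' | k''
  · rw [show g0 x = x / 3 + 2 by unfold g0; grind, or_iff_right (nc (Or.inr (by linarith))), mem_c,
      show 3 * (x / 3 + 2 - 2) = x by ring]
  · rw [show g0 x = x by unfold g0; grind]

lemma paradox (ν : Set ℝ → ℝ) (h1 : ν univ = 1)
    (h2 : ∀ A B, Disjoint A B → ν (A ∪ B) = ν A + ν B) (h3 : ∀ A, ν (γ ⁻¹' A) = ν A)
    (h4 : ∀ A, ν (τ ⁻¹' A) = ν A) : False := by
  have a : ∀ u, ν {y | r y < g0 u} = ν {y | r y < u} := fun u => by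
    rw [← h3]; congr 1; ext y; simp only [mem_preimage, mem_ofPred_eq, γ_ap, r_per, g0_mono.lt_iff_lt]
  have a1 := a (1 / 2)
  have a2 := a (3 / 2)
  rw [show g0 (1 / 2) = 3 / 2 by norm_num [g0]] at a1
  rw [show g0 (3 / 2) = 5 / 2 by norm_num [g0]] at a2
  have b : ∀ y, r (τ y) = if r y < 2 then r y + 2 else r y - 2 := fun y => by
    have := r_bd y
    split_ifs with h
    · rw [← r_eq ⌊y / 4⌋ (x := r y + 2) (by linarith) (by linarith), τ_ap]
      exact congrArg r (by unfold r; ring)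
    · rw [← r_eq (⌊y / 4⌋ + 1) (x := r y - 2) (by linarith) (by linarith), τ_ap]
      exact congrArg r (by unfold r; push_cast; ring)
  have c : ∀ u, 0 ≤ u → u ≤ 2 → ν {y | r y < u + 2} = ν {y | r y < 2} + ν {y | r y < u} := fun u _ hu => by
    rw [← h4 {y | r y < u}, ← h2]
    · congr 1; ext y
      simp only [mem_preimage, mem_ofPred_eq, mem_union, b]
      have := r_bd y
      grind
    · rw [Set.disjoint_left]
      intro y hy
      simp only [mem_preimage, mem_ofPred_eq, b] at hy ⊢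
      have := r_bd y
      grind
  have c1 := c (1 / 2) (by norm_num) (by norm_num)
  have c2 := c 2 (by norm_num) le_rfl
  rw [show {y | r y < 2 + 2} = univ from eq_univ_of_forall fun y => by
    simpa only [mem_ofPred_eq, show (2 : ℝ) + 2 = 4 by norm_num] using (r_bd y).2] at c2
  norm_num at c1 a1 a2
  linarith

section qm
variable {Γ : Type*} [Group Γ] {φ : Γ → ℝ} {D : ℝ}

lemma zero_of_mul {x D : ℝ} (h : ∀ n : ℕ, |n * x| ≤ D) : x = 0 := by
  by_contra hx
  obtain ⟨n, hn⟩ := exists_nat_gt (D / |x|)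
  have := h n
  rw [abs_mul, Nat.abs_cast] at this
  rw [div_lt_iff₀ (abs_pos.2 hx)] at hn
  linarith

variable (hD : ∀ g h, |φ (g * h) - φ g - φ h| ≤ D) (hh : ∀ g (n : ℤ), φ (g ^ n) = n * φ g)
include hD hh

lemma hn (g : Γ) (n : ℕ) : φ (g ^ n) = n * φ g := by simpa using hh g n

lemma q_conj (g x : Γ) : φ (g * x * g⁻¹) = φ x := by
  refine sub_eq_zero.1 (zero_of_mul (D := 2 * D) fun n => ?_)
  have h1 := hD (g * x ^ n) g⁻¹
  have h2 := hD g (x ^ n)
  have h3 : φ g⁻¹ = -φ g := by simpa using hh g (-1)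
  rw [← conj_pow, hn hD hh] at h1
  rw [hn hD hh] at h2
  rw [abs_le] at *
  constructor <;> linarith

lemma q_comm {x y : Γ} (h : Commute x y) : φ (x * y) = φ x + φ y := by
  refine sub_eq_zero.1 (zero_of_mul (D := D) fun n => ?_)
  have h1 := hD (x ^ n) (y ^ n)
  rw [← h.mul_pow, hn hD hh, hn hD hh, hn hD hh] at h1
  convert h1 using 2; ring

omit hD hh in
def Pr (s z : Γ) : ℕ → Γ
  | 0 => 1
  | j + 1 => z * (s * Pr s z j * s⁻¹)

lemma q_one : φ 1 = 0 := by simpa using hh 1 0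

lemma q_disp (M : Subgroup Γ) (s : Γ)
    (h : ∀ i : ℕ, ∀ z ∈ M, ∀ w ∈ M, Commute w (s ^ (i + 1) * z * (s ^ (i + 1))⁻¹))
    {x y : Γ} (hx : x ∈ M) (hy : y ∈ M) : φ (x * y) = φ x + φ y := by
  have c : ∀ z ∈ M, ∀ w ∈ M, ∀ j i : ℕ, Commute w (s ^ (i + 1) * Pr s z j * (s ^ (i + 1))⁻¹) := by
    intro z hz w hw j
    induction j with
    | zero => simp [Pr]
    | succ j ih =>
      intro i
      rw [show s ^ (i + 1) * Pr s z (j + 1) * (s ^ (i + 1))⁻¹ = s ^ (i + 1) * z * (s ^ (i + 1))⁻¹ *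
        (s ^ (i + 1 + 1) * Pr s z j * (s ^ (i + 1 + 1))⁻¹) by rw [Pr]; group]
      exact (h i z hz w hw).mul_right (ih (i + 1))
  have c' : ∀ z ∈ M, ∀ w ∈ M, ∀ j, Commute w (s * Pr s z j * s⁻¹) := fun z hz w hw j => by
    simpa using c z hz w hw j 0
  have e : ∀ z ∈ M, ∀ j : ℕ, φ (Pr s z j) = j * φ z := fun z hz j => by
    induction j with
    | zero => simp [Pr, q_one hD hh]
    | succ j ih => rw [Pr, q_comm hD hh (c' z hz z hz j), q_conj hD hh, ih]; push_cast; ring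
  have m : ∀ j, Pr s (x * y) j = Pr s x j * Pr s y j := fun j => by
    induction j with
    | zero => simp [Pr]
    | succ j ih =>
      rw [Pr, Pr, Pr, ih, mul_assoc x (_ * _ * _), ← mul_assoc (_ * _ * _) y, ← (c' x hx y hy j).eq]
      group
  refine sub_eq_zero.1 (zero_of_mul (D := D) fun n => ?_)
  have h1 := hD (Pr s x n) (Pr s y n)
  rw [← m, e _ (M.mul_mem hx hy), e _ hx, e _ hy] at h1
  convert h1 using 2; ring

lemma q_hom (N : Subgroup Γ) [hN : N.Normal] (t : Γ) (h1 : ∀ g, ∃ n ∈ N, ∃ k : ℤ, g = n * t ^ k)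
    (h2 : ∀ x ∈ N, ∀ y ∈ N, φ (x * y) = φ x + φ y) (g h : Γ) : φ (g * h) = φ g + φ h := by
  have key : ∀ n ∈ N, ∀ u, φ (n * u) = φ n + φ u := fun n hn' u => by
    have e : ∀ j : ℕ, Pr u n j ∈ N ∧ φ (Pr u n j) = j * φ n ∧ (n * u) ^ j = Pr u n j * u ^ j := by
      intro j
      induction j with
      | zero => simp [Pr, q_one hD hh]
      | succ j ih =>
        have := hN.conj_mem _ ih.1 u
        refine ⟨N.mul_mem hn' this, ?_, ?_⟩
        · rw [Pr, h2 _ hn' _ this, q_conj hD hh, ih.2.1]; push_cast; ring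
        · rw [pow_succ', ih.2.2, Pr]; group
    refine sub_eq_zero.1 (zero_of_mul (D := D) fun j => ?_)
    have h1 := hD (Pr u n j) (u ^ j)
    rw [← (e j).2.2, (e j).2.1, hn hD hh, hn hD hh] at h1
    convert h1 using 2; ring
  obtain ⟨n, hn', k, rfl⟩ := h1 g
  obtain ⟨m, hm, l, rfl⟩ := h1 h
  have := hN.conj_mem _ hm (t ^ k)
  rw [show n * t ^ k * (m * t ^ l) = n * (t ^ k * m * (t ^ k)⁻¹ * t ^ (k + l)) by group,
    key _ hn', key _ this, key _ hn', key _ hm, q_conj hD hh, hh, hh, hh]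
  push_cast; ring

end qm

end Pool.Agent.H85.BigA
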