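import Mathlib

set_option autoImplicit false

namespace Pool.Agent.H85.CovDefs

open Set Filter

/-- A sequence of open covers of `X`. -/
def CoverSeq {X : Type*} [TopologicalSpace X] (U : ℕ → Set (Set X)) : Prop :=
  ∀ n, (∀ V ∈ U n, IsOpen V) ∧ ⋃₀ U n = univ

/-- The Menger property. -/
def Menger (X : Type*) [TopologicalSpace X] : Prop :=
  ∀ U : ℕ → Set (Set X), CoverSeq U → ∃ F : ℕ → Set (Set X),
    (∀ n, F n ⊆ U n ∧ (F n).Finite) ∧ ∀ x, ∃ n, x ∈ ⋃₀ F n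

/-- The Hurewicz property. -/
def Hurewicz (X : Type*) [TopologicalSpace X] : Prop :=
  ∀ U : ℕ → Set (Set X), CoverSeq U → ∃ F : ℕ → Set (Set X),
    (∀ n, F n ⊆ U n ∧ (F n).Finite) ∧ ∀ x, ∀ᶠ n in atTop, x ∈ ⋃₀ F n

/-- Sierpinski sets of reals. -/
def Sierpinski (S : Set ℝ) : Prop :=
  ¬ S.Countable ∧ ∀ N : Set ℝ, MeasureTheory.volume N = 0 → (S ∩ N).Countable

end Pool.Agent.H85.CovDefs
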