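import Mathlib
import Pool.Agent.H85.CovDefs

set_option autoImplicit false

namespace Pool.Agent.H85.Cov

open Set Filter Cardinal Pool.Agent.H85.CovDefs

/-- Under CH, an index set of size at most continuum has a well order with countable
initial segments. -/
theorem ch_order (hCH : continuum.{0} = aleph 1) (ι : Type) (hι : #ι ≤ continuum) :
    ∃ (_ : LinearOrder ι) (_ : WellFoundedLT ι), ∀ i : ι, (Iic i).Countable := by
  obtain ⟨_, _, hord⟩ := exists_ord_eq_type_lt ι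
  refine ⟨_, ‹_›, fun i => ?_⟩
  rw [← Iio_insert]
  refine Countable.insert _ ?_
  have := (mk_Iio_lt i hord).trans_le (hι.trans hCH.le)
  rwa [lt_aleph_one_iff, le_aleph0_iff_set_countable] at this

theorem ch_rel (hCH : continuum.{0} = aleph 1) (ι : Type) (hι : #ι ≤ continuum) :
    ∃ L : ι → Set ι, (∀ i, (L i).Countable) ∧ ∀ i j, i ∈ L j ∨ j ∈ L i := by
  obtain ⟨_, _, hc⟩ := ch_order hCH ι hι
  exact ⟨Iic, hc, fun i j => le_total i j⟩

variable {X : Type*} [TopologicalSpace X]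

/-- An increasing array of open sets whose rows cover. -/
def Arr (u : ℕ → ℕ → Set X) : Prop :=
  (∀ n k, IsOpen (u n k)) ∧ (∀ n, Monotone (u n)) ∧ ∀ n x, ∃ k, x ∈ u n k

theorem arr_select {u : ℕ → ℕ → Set X} (hu : Arr u) {F : ℕ → Set (Set X)}
    (hF : ∀ n, F n ⊆ range (u n) ∧ (F n).Finite) : ∃ g : ℕ → ℕ, ∀ n, ⋃₀ F n ⊆ u n (g n) := by
  have : ∀ n, ∃ m, ⋃₀ F n ⊆ u n m := by
    intro n
    obtain ⟨T, -, hTf, hT⟩ := (hF n).2.exists_subset_finite_image_eq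
      (f := u n) (s := univ) (by simpa using (hF n).1)
    obtain ⟨m, hm⟩ := hTf.bddAbove
    refine ⟨m, ?_⟩
    rw [← hT]
    rintro x ⟨_, ⟨k, hk, rfl⟩, hx⟩
    exact hu.2.1 n (hm hk) hx
  exact ⟨fun n => (this n).choose, fun n => (this n).choose_spec⟩

theorem arr_cover {u : ℕ → ℕ → Set X} (hu : Arr u) : CoverSeq fun n => range (u n) := fun n =>
  ⟨by rintro _ ⟨k, rfl⟩; exact hu.1 n k, eq_univ_of_forall fun x => by
    obtain ⟨k, hk⟩ := hu.2.2 n x; exact ⟨_, ⟨k, rfl⟩, hk⟩⟩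

theorem arr_of_hurewicz (h : Hurewicz X) {u : ℕ → ℕ → Set X} (hu : Arr u) :
    ∃ g : ℕ → ℕ, ∀ x, ∀ᶠ n in atTop, x ∈ u n (g n) := by
  obtain ⟨F, hF, hx⟩ := h _ (arr_cover hu)
  obtain ⟨g, hg⟩ := arr_select hu hF
  exact ⟨g, fun x => (hx x).mono fun n hn => hg n hn⟩

theorem arr_of_menger (h : Menger X) {u : ℕ → ℕ → Set X} (hu : Arr u) :
    ∃ g : ℕ → ℕ, ∀ x, ∃ n, x ∈ u n (g n) := by
  obtain ⟨F, hF, hx⟩ := h _ (arr_cover hu)
  obtain ⟨g, hg⟩ := arr_select hu hF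
  exact ⟨g, fun x => (hx x).imp fun n hn => hg n hn⟩

theorem exists_arr [LindelofSpace X] {U : ℕ → Set (Set X)} (hU : CoverSeq U) :
    ∃ u : ℕ → ℕ → Set X, Arr u ∧ ∀ n k, ∃ F ⊆ U n, F.Finite ∧ u n k ⊆ ⋃₀ F := by
  have : ∀ n, ∃ w : ℕ → Set X, (∀ k, w k ∈ U n ∨ w k = ∅) ∧ ∀ x, ∃ k, x ∈ w k := by
    intro n
    obtain ⟨T, hTU, hTc, hT⟩ := isLindelof_univ.elim_countable_subcover_image
      (b := U n) (c := id) (hU n).1 (by rw [← (hU n).2, sUnion_eq_biUnion]; rfl)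
    obtain ⟨w, hw⟩ := (hTc.insert ∅).exists_eq_range (insert_nonempty _ _)
    refine ⟨w, fun k => ?_, fun x => ?_⟩
    · have : w k ∈ insert ∅ T := hw ▸ mem_range_self k
      exact this.symm.imp (fun h => hTU h) id
    · obtain ⟨V, hV, hx⟩ := mem_iUnion₂.1 (hT (mem_univ x))
      have : V ∈ range w := hw ▸ mem_insert_of_mem _ hV
      obtain ⟨k, rfl⟩ := this
      exact ⟨k, hx⟩
  choose w hw1 hw2 using this
  refine ⟨fun n k => ⋃ i ∈ Iic k, w n i, ⟨fun n k => isOpen_biUnion fun i _ => ?_,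
    fun n a b hab => biUnion_subset_biUnion_left (Iic_subset_Iic.2 hab), fun n x => ?_⟩,
    fun n k => ⟨U n ∩ w n '' Iic k, inter_subset_left,
      ((finite_Iic k).image _).subset inter_subset_right, ?_⟩⟩
  · rcases hw1 n i with h | h
    · exact (hU n).1 _ h
    · rw [h]; exact isOpen_empty
  · obtain ⟨k, hk⟩ := hw2 n x
    exact ⟨k, mem_biUnion (x := k) (mem_Iic.2 le_rfl) hk⟩
  · intro x hx
    obtain ⟨i, hi, hx⟩ := mem_iUnion₂.1 hx
    rcases hw1 n i with h | h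
    · exact ⟨_, ⟨h, i, hi, rfl⟩, hx⟩
    · rw [h] at hx; exact hx.elim

theorem hurewicz_of_arr [LindelofSpace X]
    (h : ∀ u : ℕ → ℕ → Set X, Arr u → ∃ g : ℕ → ℕ, ∀ x, ∀ᶠ n in atTop, x ∈ u n (g n)) :
    Hurewicz X := by
  intro U hU
  obtain ⟨u, hu, hF⟩ := exists_arr hU
  choose F h1 h2 h3 using hF
  obtain ⟨g, hg⟩ := h u hu
  exact ⟨fun n => F n (g n), fun n => ⟨h1 _ _, h2 _ _⟩,
    fun x => (hg x).mono fun n hn => h3 _ _ hn⟩

theorem menger_of_arr [LindelofSpace X]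
    (h : ∀ u : ℕ → ℕ → Set X, Arr u → ∃ g : ℕ → ℕ, ∀ x, ∃ n, x ∈ u n (g n)) :
    Menger X := by
  intro U hU
  obtain ⟨u, hu, hF⟩ := exists_arr hU
  choose F h1 h2 h3 using hF
  obtain ⟨g, hg⟩ := h u hu
  exact ⟨fun n => F n (g n), fun n => ⟨h1 _ _, h2 _ _⟩,
    fun x => (hg x).imp fun n hn => h3 _ _ hn⟩

/-- An array on a subspace extends to an increasing array of open sets of the ambient space. -/
theorem arr_extend {Y : Set X} {u : ℕ → ℕ → Set Y} (hu : Arr u) :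
    ∃ v : ℕ → ℕ → Set X, (∀ n k, IsOpen (v n k)) ∧ (∀ n, Monotone (v n)) ∧
      ∀ n k (y : Y), y.1 ∈ v n k ↔ y ∈ u n k := by
  have : ∀ n k, ∃ t, IsOpen t ∧ Subtype.val ⁻¹' t = u n k := fun n k =>
    isOpen_induced_iff.1 (hu.1 n k)
  choose t ht1 ht2 using this
  refine ⟨fun n k => ⋃ i ∈ Iic k, t n i, fun n k => isOpen_biUnion fun i _ => ht1 n i,
    fun n a b hab => biUnion_subset_biUnion_left (Iic_subset_Iic.2 hab), fun n k y => ⟨fun h => ?_,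
      fun h => mem_biUnion (x := k) (mem_Iic.2 le_rfl) (by rw [← ht2] at h; exact h)⟩⟩
  obtain ⟨i, hi, hy⟩ := mem_iUnion₂.1 h
  exact hu.2.1 n hi (by rw [← ht2]; exact hy)

/-- A countable set is eventually absorbed by a suitable selection. -/
theorem absorb {Z : Type*} {u : ℕ → ℕ → Set Z} (hm : ∀ n, Monotone (u n)) {C : Set Z}
    (hC : C.Countable) (hc : ∀ n, ∀ x ∈ C, ∃ k, x ∈ u n k) :
    ∃ g : ℕ → ℕ, ∀ x ∈ C, ∀ᶠ n in atTop, x ∈ u n (g n) := by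
  rcases C.eq_empty_or_nonempty with rfl | hne
  · exact ⟨fun _ => 0, by simp⟩
  obtain ⟨c, rfl⟩ := hC.exists_eq_range hne
  choose k hk using fun n j => hc n (c j) (mem_range_self j)
  refine ⟨fun n => (Finset.range (n + 1)).sup (k n), ?_⟩
  rintro _ ⟨j, rfl⟩
  exact (eventually_ge_atTop j).mono fun n hn =>
    hm n (Finset.le_sup (f := k n) (Finset.mem_range.2 (by omega))) (hk n j)

end Pool.Agent.H85.Cov
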