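import Mathlib
import Pool.Agent.H85.Cov

set_option autoImplicit false

namespace Pool.Agent.H85.Scale

open Cardinal hiding univ
open Set Filter Topology TopologicalSpace Pool.Agent.H85.CovDefs Pool.Agent.H85.Cov

theorem mk_open_le {Z : Type} [TopologicalSpace Z] [SecondCountableTopology Z] :
    #{s : Set Z // IsOpen s} ≤ continuum := by
  have hc := (countable_countableBasis Z).to_subtype
  let f : {s : Set Z // IsOpen s} → Set (countableBasis Z) := fun s => {b | b.1 ⊆ s.1}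
  have key : ∀ s t, f s = f t → s.1 ⊆ t.1 := by
    intro s t h x hx
    obtain ⟨b, hb, hxb, hbs⟩ := (isBasis_countableBasis Z).exists_subset_of_mem_open hx s.2
    have : (⟨b, hb⟩ : countableBasis Z) ∈ f t := h ▸ hbs
    exact this hxb
  have hf : Function.Injective f := fun s t h =>
    Subtype.ext (Subset.antisymm (key s t h) (key t s h.symm))
  refine (mk_le_of_injective hf).trans ?_
  rw [mk_set, ← two_power_aleph0]
  exact power_le_power_left two_ne_zero mk_le_aleph0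

theorem mk_seq_le {Z : Type} (h : #Z ≤ continuum) : #(ℕ → Z) ≤ continuum := by
  rw [← power_def, mk_nat]
  exact (power_le_power_right h).trans continuum_power_aleph0.le

theorem mk_prod_le {A B : Type} (hA : #A ≤ continuum) (hB : #B ≤ continuum) :
    #(A × B) ≤ continuum := by
  simp only [mk_prod, lift_id]
  exact (mul_le_mul' hA hB).trans continuum_mul_self.le

/-- Recursion of length `omega_1` building a tower. -/
theorem rec_tower (hCH : continuum.{0} = aleph 1) {ι α : Type} (hι : #ι ≤ continuum)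
    (G : α → Prop) (R : ι → α → Prop) (P : α → α → Prop)
    (step : ∀ i (S : Set α), S.Countable → (∀ a ∈ S, G a) →
      (∀ a ∈ S, ∀ b ∈ S, a = b ∨ P a b ∨ P b a) → ∃ a, G a ∧ R i a ∧ ∀ b ∈ S, P b a) :
    ∃ f : ι → α, (∀ i, G (f i) ∧ R i (f i)) ∧ (∀ i, {j | ¬ P (f i) (f j)}.Countable) ∧
      ∀ i j, i = j ∨ P (f i) (f j) ∨ P (f j) (f i) := by
  classical
  obtain ⟨_, _, hc⟩ := ch_order hCH ι hι
  have hne : ι → Nonempty α := fun i => by
    obtain ⟨a, -⟩ := step i ∅ countable_empty (by simp) (by simp)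
    exact ⟨a⟩
  let F : (i : ι) → ((j : ι) → j < i → α) → α := fun i g =>
    if h : ∃ a, G a ∧ R i a ∧ ∀ j, ∀ hj : j < i, P (g j hj) a then h.choose else (hne i).some
  let f : ι → α := (wellFounded_lt (α := ι)).fix F
  have hf : ∀ i, f i = F i (fun j _ => f j) := fun i => WellFounded.fix_eq _ _ _
  have key : ∀ i, G (f i) ∧ R i (f i) ∧ ∀ j < i, P (f j) (f i) := by
    intro i
    induction i using WellFoundedLT.induction with
    | ind i ih =>
      obtain ⟨a, h1, h2, h3⟩ := step i (f '' Iio i) (((hc i).mono Iio_subset_Iic_self).image f)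
        (by rintro _ ⟨j, hj, rfl⟩; exact (ih j hj).1) (by
          rintro _ ⟨j, hj, rfl⟩ _ ⟨k, hk, rfl⟩
          rcases lt_trichotomy j k with h | rfl | h
          · exact Or.inr (Or.inl ((ih k hk).2.2 j h))
          · exact Or.inl rfl
          · exact Or.inr (Or.inr ((ih j hj).2.2 k h)))
      have h : ∃ a, G a ∧ R i a ∧ ∀ j, ∀ _ : j < i, P (f j) a :=
        ⟨a, h1, h2, fun j hj => h3 _ ⟨j, hj, rfl⟩⟩
      rw [hf i]
      simp only [F, dif_pos h]
      exact h.choose_spec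
  refine ⟨f, fun i => ⟨(key i).1, (key i).2.1⟩, fun i => (hc i).mono fun j hj => ?_, fun i j => ?_⟩
  · by_contra h
    exact hj ((key j).2.2 i (not_le.1 h))
  · rcases lt_trichotomy i j with h | rfl | h
    · exact Or.inr (Or.inl ((key j).2.2 i h))
    · exact Or.inl rfl
    · exact Or.inr (Or.inr ((key i).2.2 j h))

/-- Construction of a sequence by finite extensions. -/
theorem fusion {β : Type} (T : ℕ → (ℕ → β) → ℕ → ℕ → Prop) (x0 : ℕ → β) (l0 : ℕ)
    (h : ∀ (j : ℕ) (x : ℕ → β) (l : ℕ), ∃ (x' : ℕ → β) (l' : ℕ), l < l' ∧ (∀ i < l, x' i = x i) ∧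
      ∀ y : ℕ → β, (∀ i < l', y i = x' i) → T j y l l') :
    ∃ (y : ℕ → β) (L : ℕ → ℕ), StrictMono L ∧ L 0 = l0 ∧ (∀ i < l0, y i = x0 i) ∧
      ∀ j, T j y (L j) (L (j + 1)) := by
  choose X Λ h1 h2 h3 using h
  let s : ℕ → (ℕ → β) × ℕ := fun n =>
    Nat.rec (x0, l0) (fun j p => (X j p.1 p.2, Λ j p.1 p.2)) n
  have hs : ∀ j, s (j + 1) = (X j (s j).1 (s j).2, Λ j (s j).1 (s j).2) := fun j => rfl
  have hL : StrictMono fun j => (s j).2 := strictMono_nat_of_lt_succ fun j => by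
    rw [hs]; exact h1 _ _ _
  have hstab : ∀ a b, a ≤ b → ∀ i < (s a).2, (s b).1 i = (s a).1 i := by
    intro a b hab i hi
    induction b, hab using Nat.le_induction with
    | base => rfl
    | succ b hab ih => rw [hs, ← ih]; exact h2 _ _ _ i (hi.trans_le (hL.monotone hab))
  have hy : ∀ a, ∀ i < (s a).2, (s (i + 1)).1 i = (s a).1 i := by
    intro a i hi
    rcases le_total a (i + 1) with h | h
    · exact hstab _ _ h i hi
    · exact (hstab _ _ h i ((Nat.lt_succ_self i).trans_le hL.le_apply)).symm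
  exact ⟨fun i => (s (i + 1)).1 i, fun j => (s j).2, hL, rfl, hy 0,
    fun j => h3 j (s j).1 (s j).2 _ (hy (j + 1))⟩

theorem exists_block {L : ℕ → ℕ} (hL : StrictMono L) {i : ℕ} (hi : L 0 ≤ i) :
    ∃ j, L j ≤ i ∧ i < L (j + 1) := by
  classical
  have hex : ∃ j, i < L (j + 1) := ⟨i, (Nat.lt_succ_self i).trans_le hL.le_apply⟩
  refine ⟨Nat.find hex, ?_, Nat.find_spec hex⟩
  rcases hj : Nat.find hex with _ | j
  · exact hi
  · exact not_lt.1 (Nat.find_min hex (by omega))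

theorem open_cyl {β : Type} [TopologicalSpace β] [DiscreteTopology β] {O : Set (ℕ → β)}
    (hO : IsOpen O) {z : ℕ → β} (hz : z ∈ O) : ∃ l, ∀ y : ℕ → β, (∀ i < l, y i = z i) → y ∈ O := by
  obtain ⟨_, ⟨x, n, rfl⟩, hzx, hsub⟩ :=
    (PiNat.isTopologicalBasis_cylinders fun _ : ℕ => β).exists_subset_of_mem_open hz hO
  exact ⟨n, fun y hy => hsub fun i hi => (hy i hi).trans (hzx i hi)⟩

/-- The open set `O` is dense above the bound `c`. -/
def Dns (O : Set (ℕ → ℕ)) (c : ℕ → ℕ) : Prop :=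
  ∀ (x : ℕ → ℕ) (l K : ℕ), ∃ z ∈ O, (∀ i < l, z i = x i) ∧ ∀ i, l ≤ i → c i + K ≤ z i

theorem Dns.anti {O : Set (ℕ → ℕ)} {c d : ℕ → ℕ} (h : Dns O c) (hd : ∀ᶠ i in atTop, d i ≤ c i) :
    Dns O d := by
  obtain ⟨N, hN⟩ := eventually_atTop.1 hd
  intro x l K
  obtain ⟨z, hz, h1, h2⟩ := h x l (K + (Finset.range N).sup d)
  refine ⟨z, hz, h1, fun i hi => ?_⟩
  have := h2 i hi
  by_cases hiN : i < N
  · have : d i ≤ (Finset.range N).sup d := Finset.le_sup (Finset.mem_range.2 hiN)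
    omega
  · have := hN i (not_lt.1 hiN)
    omega

/-- An enumeration of all finite tasks. -/
theorem exists_tasks : ∃ (τ : ℕ → (ℕ → ℕ) × ℕ × ℕ × ℕ), ∀ (x : ℕ → ℕ) (l K k : ℕ),
    ∃ j, (∀ i < l, (τ j).1 i = x i) ∧ (τ j).2 = (l, K, k) := by
  obtain ⟨e, he⟩ := exists_surjective_nat (List ℕ × ℕ × ℕ × ℕ)
  refine ⟨fun j => (fun i => (e j).1.getD i 0, (e j).2), fun x l K k => ?_⟩
  obtain ⟨j, hj⟩ := he (List.ofFn fun i : Fin l => x i, l, K, k)
  refine ⟨j, fun i hi => ?_, by simp [hj]⟩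
  simp [hj, List.getD, hi]

/-- A generic point above a bound. -/
theorem generic {O : ℕ → Set (ℕ → ℕ)} {c : ℕ → ℕ} (ho : ∀ k, IsOpen (O k)) (hd : ∀ k, Dns (O k) c)
    (x : ℕ → ℕ) (l K : ℕ) :
    ∃ y, (∀ k, y ∈ O k) ∧ (∀ i < l, y i = x i) ∧ ∀ i, l ≤ i → c i + K ≤ y i := by
  obtain ⟨y, L, hL, h0, h1, h2⟩ := fusion
    (fun j y a b => y ∈ O j ∧ ∀ i, a ≤ i → i < b → c i + K ≤ y i) x l (fun j x a => by
      obtain ⟨z, hz, h1, h2⟩ := hd j x a K
      obtain ⟨b, hb⟩ := open_cyl (ho j) hz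
      refine ⟨z, max (a + 1) b, by omega, h1, fun y hy =>
        ⟨hb y fun i hi => hy i (by omega), fun i hi hi' => ?_⟩⟩
      rw [hy i hi']; exact h2 i hi)
  refine ⟨y, fun k => (h2 k).1, h1, fun i hi => ?_⟩
  obtain ⟨j, hj1, hj2⟩ := exists_block hL (h0 ▸ hi)
  exact (h2 j).2 i hj1 hj2

/-- A new bound above countably many bounds keeping countably many open sets dense. -/
theorem extend {O : ℕ → Set (ℕ → ℕ)} {d : ℕ → ℕ → ℕ} (ho : ∀ k, IsOpen (O k))
    (hm : Monotone d) (hd : ∀ k j, Dns (O k) (d j)) (f : ℕ → ℕ) :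
    ∃ c : ℕ → ℕ, (∀ j, ∀ᶠ i in atTop, d j i ≤ c i) ∧ (∃ᶠ i in atTop, f i ≤ c i) ∧
      ∀ k, Dns (O k) c := by
  obtain ⟨τ, hτ⟩ := exists_tasks
  obtain ⟨c, L, hL, h0, -, h2⟩ := fusion
    (fun j c a b => (∀ i, a ≤ i → i < b → d j i ≤ c i) ∧ f a ≤ c a ∧ (τ j).2.1 ≤ b ∧
      ∃ z : ℕ → ℕ, (∀ y : ℕ → ℕ, (∀ i < b, y i = z i) → y ∈ O (τ j).2.2.2) ∧
        (∀ i < (τ j).2.1, z i = (τ j).1 i) ∧
        ∀ i, (τ j).2.1 ≤ i → i < b → c i + (τ j).2.2.1 ≤ z i) (fun _ => 0) 0 (fun j x a => by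
      obtain ⟨z, hz, h1, h2⟩ := hd (τ j).2.2.2 j (τ j).1 (τ j).2.1
        ((τ j).2.2.1 + f a + (Finset.range a).sup x)
      obtain ⟨b, hb⟩ := open_cyl (ho _) hz
      refine ⟨fun i => if i < a then x i else d j i + f a, max (max (a + 1) b) (τ j).2.1,
        by omega, fun i hi => if_pos hi, fun y hy => ⟨fun i hi hi' => ?_, ?_, by omega,
          z, fun w hw => hb w fun i hi => hw i (by omega), h1, fun i hi hi' => ?_⟩⟩
      · rw [hy i hi']; dsimp only; rw [if_neg (by omega)]; omega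
      · rw [hy a (by omega)]; dsimp only; rw [if_neg (by omega)]; omega
      · have := h2 i hi
        rw [hy i hi']
        dsimp only
        split_ifs with hia
        · have : x i ≤ (Finset.range a).sup x := Finset.le_sup (Finset.mem_range.2 hia)
          omega
        · omega)
  refine ⟨c, fun j => (eventually_ge_atTop (L j)).mono fun i hi => ?_,
    frequently_atTop.2 fun n => ⟨L n, hL.le_apply, (h2 n).2.1⟩, fun k x l K => ?_⟩
  · obtain ⟨j', h1, h3⟩ := exists_block hL (i := i) (by omega)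
    have : j ≤ j' := Nat.lt_succ_iff.1 (hL.lt_iff_lt.1 (hi.trans_lt h3))
    exact (hm this i).trans ((h2 j').1 i h1 h3)
  · obtain ⟨j, hj1, hj2⟩ := hτ x l K k
    obtain ⟨-, -, h3, z, h4, h5, h6⟩ := h2 j
    simp only [hj2] at h3 h4 h5 h6
    refine ⟨fun i => if i < L (j + 1) then z i else c i + K, h4 _ fun i hi => if_pos hi,
      fun i hi => ?_, fun i hi => ?_⟩
    · simp only [if_pos (hi.trans_le h3)]
      rw [h5 i hi, hj1 i hi]
    · dsimp only
      split_ifs with h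
      · exact h6 i hi h
      · exact le_rfl

/-- A promise for an array whose rows have dense unions. -/
theorem promise {V : ℕ → ℕ → Set (ℕ → ℕ)} {c : ℕ → ℕ} (hm : ∀ n, Monotone (V n))
    (hd : ∀ n, Dns (⋃ k, V n k) c) : ∃ g : ℕ → ℕ, ∀ n, Dns (⋃ m ∈ Ici n, V m (g m)) c := by
  obtain ⟨τ, hτ⟩ := exists_tasks
  have : ∀ m j, ∃ k, ∃ z ∈ V m k, (∀ i < (τ j).2.1, z i = (τ j).1 i) ∧
      ∀ i, (τ j).2.1 ≤ i → c i + (τ j).2.2.1 ≤ z i := fun m j => by
    obtain ⟨z, hz, h⟩ := hd m (τ j).1 (τ j).2.1 (τ j).2.2.1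
    obtain ⟨k, hk⟩ := mem_iUnion.1 hz
    exact ⟨k, z, hk, h⟩
  choose k hk using this
  refine ⟨fun m => (Finset.range (m + 1)).sup (k m), fun n x l K => ?_⟩
  obtain ⟨j, hj1, hj2⟩ := hτ x l K 0
  obtain ⟨z, hz, h1, h2⟩ := hk (max n j) j
  simp only [hj2] at h1 h2
  refine ⟨z, mem_biUnion (x := max n j) (le_max_left n j) (hm _ ?_ hz),
    fun i hi => (h1 i hi).trans (hj1 i hi), h2⟩
  exact Finset.le_sup (f := k (max n j)) (Finset.mem_range.2 (by omega))

/-- Under CH there is a scale which is Menger. -/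
theorem menger_scale (hCH : continuum.{0} = aleph 1) :
    ∃ (ι : Type) (f y : ι → ℕ → ℕ), Function.Surjective f ∧ Menger (range y) ∧
      (∀ i, ∃ᶠ n in atTop, f i n ≤ y i n) ∧
      ∀ b : ℕ → ℕ, ∃ c : ℕ → ℕ, (∃ᶠ n in atTop, b n ≤ c n) ∧
        {i | ¬ ∀ᶠ n in atTop, c n ≤ y i n}.Countable := by
  let ι := (ℕ → ℕ) × {V : ℕ → ℕ → {s : Set (ℕ → ℕ) // IsOpen s} // ∀ n, Monotone (V n)}
  have hι : #ι ≤ continuum :=
    mk_prod_le (mk_seq_le (by simp [aleph0_le_continuum]))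
      ((mk_subtype_le _).trans (mk_seq_le (mk_seq_le mk_open_le)))
  obtain ⟨F, hF, hP, -⟩ := rec_tower hCH hι
    (α := (ℕ → ℕ) × (ℕ → Set (ℕ → ℕ)) × (ℕ → ℕ))
    (fun a => (∀ n, IsOpen (a.2.1 n) ∧ Dns (a.2.1 n) a.1) ∧ ∀ᶠ n in atTop, a.1 n ≤ a.2.2 n)
    (fun i a => (∃ᶠ n in atTop, i.1 n ≤ a.1 n) ∧ ((∃ n, ∀ k, a.2.2 ∉ (i.2.1 n k).1) ∨
      ∃ g : ℕ → ℕ, ∀ n, a.2.1 n = ⋃ m ∈ Ici n, (i.2.1 m (g m)).1))
    (fun b a => (∀ᶠ n in atTop, b.1 n ≤ a.1 n) ∧ ∀ n, Dns (b.2.1 n) a.1 ∧ a.2.2 ∈ b.2.1 n)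
    (fun i S hS hG hS' => by
      obtain ⟨e, he⟩ := (hS.insert (0, fun _ => univ, 0)).exists_eq_range (insert_nonempty _ _)
      have hmem : ∀ j, e j = (0, fun _ => univ, 0) ∨ e j ∈ S := fun j =>
        (he ▸ mem_range_self j : e j ∈ insert _ S)
      have huniv : ∀ c, Dns univ c := fun c x l K =>
        ⟨fun i => if i < l then x i else c i + K, mem_univ _, fun i hi => if_pos hi,
          fun i hi => (if_neg (not_lt.2 hi)).ge⟩
      have hle : ∀ j k, (∀ᶠ n in atTop, (e j).1 n ≤ (e k).1 n) ∨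
          ∀ᶠ n in atTop, (e k).1 n ≤ (e j).1 n := by
        intro j k
        rcases hmem j with h | hj
        · exact Or.inl (Eventually.of_forall fun n => by simp [h])
        rcases hmem k with h | hk
        · exact Or.inr (Eventually.of_forall fun n => by simp [h])
        rcases hS' _ hj _ hk with h | h | h
        · exact Or.inl (Eventually.of_forall fun n => by rw [h])
        · exact Or.inl h.1
        · exact Or.inr h.1
      have hdn : ∀ j k n, IsOpen ((e j).2.1 n) ∧ Dns ((e j).2.1 n) (e k).1 := by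
        intro j k n
        rcases hmem j with h | hj
        · rw [h]; exact ⟨isOpen_univ, huniv _⟩
        refine ⟨((hG _ hj).1 n).1, ?_⟩
        rcases hmem k with h | hk
        · exact ((hG _ hj).1 n).2.anti (Eventually.of_forall fun n => by simp [h])
        rcases hS' _ hj _ hk with h | h | h
        · exact h ▸ ((hG _ hj).1 n).2
        · exact (h.2 n).1
        · exact ((hG _ hj).1 n).2.anti h.1
      let d : ℕ → ℕ → ℕ := fun j n => (Finset.range (j + 1)).sup fun k => (e k).1 n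
      have hdb : ∀ j, ∃ k, ∀ᶠ n in atTop, d j n ≤ (e k).1 n := by
        intro j
        induction j with
        | zero => exact ⟨0, Eventually.of_forall fun n => by simp [d]⟩
        | succ j ih =>
          obtain ⟨k, hk⟩ := ih
          have hs : ∀ n, d (j + 1) n = max ((e (j + 1)).1 n) (d j n) := fun n => by
            simp only [d]; rw [Finset.range_add_one, Finset.sup_insert]
          rcases hle k (j + 1) with h | h
          · exact ⟨j + 1, (hk.and h).mono fun n hn => by rw [hs]; omega⟩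
          · exact ⟨k, (hk.and h).mono fun n hn => by rw [hs]; omega⟩
      let O : ℕ → Set (ℕ → ℕ) := fun k => (e k.unpair.1).2.1 k.unpair.2
      have hO : ∀ k, IsOpen (O k) := fun k => (hdn _ 0 _).1
      obtain ⟨c, hc1, hc2, hc3⟩ := extend (O := O) (d := d) hO
        (fun a b hab n => Finset.sup_mono (Finset.range_mono (by omega)))
        (fun k j => by obtain ⟨k', hk'⟩ := hdb j; exact (hdn _ k' _).2.anti hk') i.1
      have hfin : ∀ y : ℕ → ℕ, (∀ k, y ∈ O k) → ∀ b ∈ S, (∀ᶠ n in atTop, b.1 n ≤ c n) ∧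
          ∀ n, Dns (b.2.1 n) c ∧ y ∈ b.2.1 n := by
        intro y hy b hb
        obtain ⟨j, rfl⟩ : b ∈ range e := he ▸ mem_insert_of_mem _ hb
        refine ⟨(hc1 j).mono fun n hn => le_trans ?_ hn, fun n => ?_⟩
        · exact Finset.le_sup (f := fun k => (e k).1 n) (Finset.self_mem_range_succ j)
        · have h1 := hc3 (Nat.pair j n)
          have h2 := hy (Nat.pair j n)
          simp only [O, Nat.unpair_pair] at h1 h2
          exact ⟨h1, h2⟩
      by_cases hV : ∀ n, Dns (⋃ k, (i.2.1 n k).1) c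
      · obtain ⟨g, hg⟩ := promise (V := fun n k => (i.2.1 n k).1)
          (fun n a b hab => i.2.2 n hab) hV
        obtain ⟨y, hy, -, hy2⟩ := generic hO hc3 0 0 0
        exact ⟨(c, fun n => ⋃ m ∈ Ici n, (i.2.1 m (g m)).1, y),
          ⟨fun n => ⟨isOpen_biUnion fun m _ => (i.2.1 m (g m)).2, hg n⟩,
            Eventually.of_forall fun n => hy2 n (Nat.zero_le n)⟩,
          ⟨hc2, Or.inr ⟨g, fun n => rfl⟩⟩, hfin y hy⟩
      · simp only [Dns, not_forall] at hV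
        obtain ⟨n, x, l, K, hV⟩ := hV
        obtain ⟨y, hy, hy1, hy2⟩ := generic hO hc3 x l K
        exact ⟨(c, fun _ => univ, y), ⟨fun n => ⟨isOpen_univ, huniv c⟩,
          (eventually_ge_atTop l).mono fun n hn => le_trans (Nat.le_add_right _ _) (hy2 n hn)⟩,
          ⟨hc2, Or.inl ⟨n, fun k hk => hV ⟨y, mem_iUnion.2 ⟨k, hk⟩, hy1, hy2⟩⟩⟩, hfin y hy⟩)
  let V0 : {V : ℕ → ℕ → {s : Set (ℕ → ℕ) // IsOpen s} // ∀ n, Monotone (V n)} :=
    ⟨fun _ _ => ⟨univ, isOpen_univ⟩, fun _ => monotone_const⟩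
  refine ⟨ι, fun i => i.1, fun i => (F i).2.2, fun b => ⟨(b, V0), rfl⟩,
    menger_of_arr fun u hu => ?_,
    fun i => ((hF i).2.1.and_eventually (hF i).1.2).mono fun n hn => hn.1.trans hn.2,
    fun b => ⟨(F (b, V0)).1, (hF (b, V0)).2.1, (hP (b, V0)).mono ?_⟩⟩
  · obtain ⟨v, hv1, hv2, hv3⟩ := arr_extend hu
    let i : ι := (0, ⟨fun n k => ⟨v n k, hv1 n k⟩, fun n a b hab => hv2 n hab⟩)
    rcases (hF i).2.2 with ⟨n, hn⟩ | ⟨g, hg⟩
    · obtain ⟨k, hk⟩ := hu.2.2 n ⟨_, i, rfl⟩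
      exact absurd ((hv3 _ _ _).2 hk) (hn k)
    obtain ⟨g', hg'⟩ := absorb hu.2.1 ((hP i).image
      fun j => (⟨(F j).2.2, j, rfl⟩ : range fun i => (F i).2.2)) (fun n x _ => hu.2.2 n x)
    refine ⟨fun n => max (g n) (g' n), ?_⟩
    rintro ⟨_, j, rfl⟩
    by_cases hj : j ∈ {j | ¬ ((∀ᶠ n in atTop, (F i).1 n ≤ (F j).1 n) ∧
        ∀ n, Dns ((F i).2.1 n) (F j).1 ∧ (F j).2.2 ∈ (F i).2.1 n)}
    · obtain ⟨n, hn⟩ := (hg' _ ⟨j, hj, rfl⟩).exists
      exact ⟨n, hu.2.1 n (le_max_right _ _) hn⟩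
    · have := ((not_not.1 hj).2 0).2
      rw [hg] at this
      obtain ⟨m, -, hm⟩ := mem_iUnion₂.1 this
      exact ⟨m, hu.2.1 m (le_max_left _ _) ((hv3 _ _ _).1 hm)⟩
  · intro j hj hc
    exact hj ((hc.1.and (hF j).1.2).mono fun n hn => hn.1.trans hn.2)

end Pool.Agent.H85.Scale
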