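import Mathlib
import Pool.Agent.H85.CovDefs

set_option autoImplicit false

namespace Pool.Agent.H85.ScaleDefs

open Set Filter Cardinal Pool.Agent.H85.CovDefs

/-- Infinite subsets of `ℕ`, identified with their increasing enumerations. -/
def Inc : Set (ℕ → ℕ) := {a | StrictMono a}

/-- `a n ≤ b n` for all but finitely many `n`. -/
def LeStar (a b : ℕ → ℕ) : Prop := ∀ᶠ n in atTop, a n ≤ b n

/-- `a n ≤ b n` for infinitely many `n`. -/
def LeInf (a b : ℕ → ℕ) : Prop := ∃ᶠ n in atTop, a n ≤ b n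

/-- The bounding number. -/
noncomputable def bnum : Cardinal.{0} :=
  sInf {κ | ∃ F ⊆ Inc, (¬ ∃ b ∈ Inc, ∀ a ∈ F, LeStar a b) ∧ #F = κ}

/-- Scales for the filter of cofinite sets. -/
def CFinScale (X : Set (ℕ → ℕ)) : Prop :=
  X ⊆ Inc ∧ bnum ≤ #X ∧
    ∀ b ∈ Inc, ∃ c ∈ Inc, LeInf b c ∧ #{x ∈ X | ¬ LeStar c x} < bnum

/-- The Menger property, each point being covered infinitely often. -/
def MengerInf (X : Type*) [TopologicalSpace X] : Prop :=
  ∀ U : ℕ → Set (Set X), CoverSeq U → ∃ F : ℕ → Set (Set X),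
    (∀ n, F n ⊆ U n ∧ (F n).Finite) ∧ ∀ x, ∃ᶠ n in atTop, x ∈ ⋃₀ F n

end Pool.Agent.H85.ScaleDefs
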