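import Mathlib
import Pool.Agent.H85.Scale
import Pool.Agent.H85.ScaleDefs

set_option autoImplicit false

namespace Pool.Agent.H85.Scale2

open Cardinal hiding univ
open Set Filter Topology Pool.Agent.H85.CovDefs Pool.Agent.H85.Cov Pool.Agent.H85.Scale
  Pool.Agent.H85.ScaleDefs

theorem mengerInf_of_menger {X : Type*} [TopologicalSpace X] (h : Menger X) : MengerInf X := by
  intro U hU
  choose F hF hx using fun N => h (fun n => U (Nat.pair N n)) fun n => hU _
  refine ⟨fun m => F m.unpair.1 m.unpair.2, fun m => ?_, fun x => frequently_atTop.2 fun N => ?_⟩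
  · simpa using hF m.unpair.1 m.unpair.2
  · obtain ⟨n, hn⟩ := hx N x
    exact ⟨Nat.pair N n, Nat.left_le_pair _ _, by simpa using hn⟩

theorem menger_image {X Y : Type*} [TopologicalSpace X] [TopologicalSpace Y] (h : Menger X)
    {f : X → Y} (hf : Continuous f) (hs : Function.Surjective f) : Menger Y := by
  intro U hU
  obtain ⟨F, hF, hx⟩ := h (fun n => preimage f '' U n) fun n =>
    ⟨by rintro _ ⟨V, hV, rfl⟩; exact ((hU n).1 V hV).preimage hf, eq_univ_of_forall fun x => by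
      obtain ⟨V, hV, hxV⟩ : f x ∈ ⋃₀ U n := (hU n).2 ▸ mem_univ _
      exact ⟨_, ⟨V, hV, rfl⟩, hxV⟩⟩
  choose T h1 h2 h3 using fun n => (hF n).2.exists_subset_finite_image_eq (hF n).1
  refine ⟨T, fun n => ⟨h1 n, h2 n⟩, fun y => ?_⟩
  obtain ⟨x, rfl⟩ := hs y
  obtain ⟨n, W, hW, hxW⟩ := hx x
  rw [← h3 n] at hW
  obtain ⟨V, hV, rfl⟩ := hW
  exact ⟨n, V, hV, hxW⟩

/-- Partial sums, made strictly increasing. -/
def ph (x : ℕ → ℕ) (n : ℕ) : ℕ := n + ∑ i ∈ Finset.range (n + 1), x i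

theorem ph_mono (x : ℕ → ℕ) : StrictMono (ph x) := strictMono_nat_of_lt_succ fun n => by
  simp only [ph, Finset.sum_range_succ x (n + 1)]; omega

theorem le_ph (x : ℕ → ℕ) {i n : ℕ} (h : i ≤ n) : n + x i ≤ ph x n :=
  Nat.add_le_add_left (Finset.single_le_sum (fun _ _ => Nat.zero_le _)
    (Finset.mem_range.2 (by omega))) n

theorem ph_cont : Continuous ph := continuous_pi fun n => by
  unfold ph; fun_prop

theorem menger_scale_mono (hCH : continuum.{0} = aleph 1) :
    ∃ (ι : Type) (f y : ι → ℕ → ℕ), Function.Surjective f ∧ (∀ i, StrictMono (y i)) ∧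
      Menger (range y) ∧ (∀ i, ∃ᶠ n in atTop, f i n ≤ y i n) ∧
      ∀ b : ℕ → ℕ, StrictMono b → ∃ c : ℕ → ℕ, StrictMono c ∧ (∃ᶠ n in atTop, b n ≤ c n) ∧
        {i | ¬ ∀ᶠ n in atTop, c n ≤ y i n}.Countable := by
  obtain ⟨ι, f, y, h1, h2, h3, h4⟩ := menger_scale hCH
  have hp : ∀ z : range y, ph z.1 ∈ range fun i => ph (y i) := fun z => by
    obtain ⟨i, hi⟩ := z.2; exact ⟨i, congrArg ph hi⟩
  refine ⟨ι, f, fun i => ph (y i), h1, fun i => ph_mono _, menger_image h2
    (f := fun z => ⟨ph z.1, hp z⟩)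
    (Continuous.subtype_mk (f := fun z : range y => ph z.1)
      (ph_cont.comp continuous_subtype_val) hp) ?_,
    fun i => (h3 i).mono fun n hn => ?_, fun b hb => ?_⟩
  · rintro ⟨_, i, rfl⟩; exact ⟨⟨y i, i, rfl⟩, rfl⟩
  · have := le_ph (y i) (le_refl n); dsimp only; omega
  obtain ⟨c, hc1, hc2⟩ := h4 b
  refine ⟨fun n => n + (Finset.range (n + 1)).sup c, strictMono_nat_of_lt_succ fun n => ?_,
    hc1.mono fun n hn => ?_, hc2.mono ?_⟩
  · have : (Finset.range (n + 1)).sup c ≤ (Finset.range (n + 1 + 1)).sup c :=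
      Finset.sup_mono (Finset.range_mono (by omega))
    omega
  · have : c n ≤ (Finset.range (n + 1)).sup c := Finset.le_sup (Finset.self_mem_range_succ n)
    dsimp only
    omega
  · intro i hi hc
    refine hi ?_
    obtain ⟨N, hN⟩ := eventually_atTop.1 hc
    obtain ⟨i0, h5, h6⟩ := frequently_atTop.1 hc1 (max N ((Finset.range N).sup c))
    refine (eventually_ge_atTop i0).mono fun n hn => ?_
    have : (Finset.range (n + 1)).sup c ≤ ph (y i) n - n := Finset.sup_le fun j hj => by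
      have hj := Finset.mem_range.1 hj
      by_cases hjN : j < N
      · have a1 : c j ≤ (Finset.range N).sup c := Finset.le_sup (Finset.mem_range.2 hjN)
        have a2 : i0 ≤ b i0 := hb.le_apply
        have a3 := hN i0 (by omega)
        have a4 := le_ph (y i) hn
        omega
      · have a3 := hN j (by omega)
        have a4 := le_ph (y i) (show j ≤ n by omega)
        omega
    have a4 := le_ph (y i) hn
    dsimp only
    omega

theorem aleph0_lt_bnum : aleph0 < bnum := by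
  have hne : {κ | ∃ F ⊆ Inc, (¬ ∃ b ∈ Inc, ∀ a ∈ F, LeStar a b) ∧ #F = κ}.Nonempty := by
    refine ⟨_, Inc, Subset.rfl, ?_, rfl⟩
    rintro ⟨b, hb, h⟩
    obtain ⟨n, hn⟩ := (h (fun n => b n + 1) fun m n hmn => Nat.succ_lt_succ (hb hmn)).exists
    exact absurd hn (by simp)
  obtain ⟨F, -, hF, hκ⟩ := csInf_mem hne
  by_contra hc
  have hFc : F.Countable := le_aleph0_iff_set_countable.1 (hκ ▸ not_lt.1 hc)
  obtain ⟨g, hg⟩ := absorb (u := fun n k => {a : ℕ → ℕ | a n ≤ k})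
    (fun n a b hab x hx => le_trans hx hab) hFc fun n x _ => ⟨x n, (le_rfl : x n ≤ x n)⟩
  exact hF ⟨ph g, ph_mono g, fun a ha => (hg a ha).mono fun n hn =>
    le_trans hn (by have := le_ph g (le_refl n); omega)⟩

theorem exists_menger_scale (hCH : continuum.{0} = aleph 1) :
    ∃ X : Set (ℕ → ℕ), CFinScale X ∧ MengerInf X := by
  obtain ⟨ι, f, y, h1, h2, h3, h4, h5⟩ := menger_scale_mono hCH
  have hX : range y ⊆ Inc := by rintro _ ⟨i, rfl⟩; exact h2 i
  refine ⟨range y, ⟨hX, csInf_le' ⟨_, hX, ?_, rfl⟩, fun b hb => ?_⟩, mengerInf_of_menger h3⟩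
  · rintro ⟨b, -, hb⟩
    obtain ⟨i, hi⟩ := h1 fun n => b n + 1
    obtain ⟨n, hn1, hn2⟩ := ((h4 i).and_eventually (hb _ ⟨i, rfl⟩)).exists
    rw [hi] at hn1
    exact absurd (hn1.trans hn2) (by simp)
  · obtain ⟨c, hc1, hc2, hc3⟩ := h5 b hb
    refine ⟨c, hc1, hc2, lt_of_le_of_lt (le_aleph0_iff_set_countable.2
      ((hc3.image y).mono ?_)) aleph0_lt_bnum⟩
    rintro _ ⟨⟨i, rfl⟩, hi⟩
    exact ⟨i, hi, rfl⟩

end Pool.Agent.H85.Scale2
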