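import Mathlib
import Pool.Agent.H85.Scale2

set_option autoImplicit false

namespace Pool.Agent.H85.Scale3

open Cardinal hiding univ
open Set Filter Topology Pool.Agent.H85.CovDefs Pool.Agent.H85.Cov Pool.Agent.H85.Scale
  Pool.Agent.H85.Scale2

universe u

/-- Sets covered by finitely many members of a family. -/
def Sm {X : Type*} (U : Set (Set X)) (A : Set X) : Prop := ∃ F ⊆ U, F.Finite ∧ A ⊆ ⋃₀ F

theorem Sm.mono {X : Type*} {U : Set (Set X)} {A B : Set X} (h : Sm U B) (hAB : A ⊆ B) :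
    Sm U A := by
  obtain ⟨F, h1, h2, h3⟩ := h; exact ⟨F, h1, h2, hAB.trans h3⟩

theorem Sm.biUnion {X I : Type*} {U : Set (Set X)} {s : Set I} (hs : s.Finite) {A : I → Set X}
    (h : ∀ i ∈ s, Sm U (A i)) : Sm U (⋃ i ∈ s, A i) := by
  choose! F h1 h2 h3 using h
  refine ⟨⋃ i ∈ s, F i, iUnion₂_subset h1, hs.biUnion h2, iUnion₂_subset fun i hi => ?_⟩
  exact (h3 i hi).trans (sUnion_subset_sUnion (subset_biUnion_of_mem (u := F) hi))

theorem Sm.union {X : Type*} {U : Set (Set X)} {A B : Set X} (hA : Sm U A) (hB : Sm U B) :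
    Sm U (A ∪ B) := by
  obtain ⟨F, h1, h2, h3⟩ := hA
  obtain ⟨G, h4, h5, h6⟩ := hB
  exact ⟨F ∪ G, union_subset h1 h4, h2.union h5, by
    rw [sUnion_union]; exact union_subset_union h3 h6⟩

theorem tube {X Z : Type*} [TopologicalSpace X] [TopologicalSpace Z] {U : Set (Set (X × Z))}
    (hU : (∀ V ∈ U, IsOpen V) ∧ ⋃₀ U = univ) {T : Set X} (hT : T.Finite) (z : Z) :
    ∃ O W, IsOpen O ∧ IsOpen W ∧ T ⊆ O ∧ z ∈ W ∧ Sm U (O ×ˢ W) := by
  choose V hV1 hV2 using fun w : X × Z => (hU.2 ▸ mem_univ w : w ∈ ⋃₀ U)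
  obtain ⟨O, W, h1, h2, h3, h4, h5⟩ := generalized_tube_lemma hT.isCompact
    (isCompact_singleton (x := z)) (n := ⋃₀ ((fun t => V (t, z)) '' T))
    (isOpen_sUnion (by rintro _ ⟨t, _, rfl⟩; exact hU.1 _ (hV1 _))) (by
      rintro ⟨t, _⟩ ⟨ht, rfl⟩
      exact ⟨_, ⟨t, ht, rfl⟩, hV2 _⟩)
  exact ⟨O, W, h1, h2, h3, h4 rfl, _, by rintro _ ⟨t, _, rfl⟩; exact hV1 _, hT.image _, h5⟩

theorem finite_bdd (m : ℕ) : {t : ℕ → Bool | ∀ p, m ≤ p → t p = false}.Finite := by
  refine Finite.of_finite_image (f := fun t (i : Fin m) => t i) (toFinite _) ?_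
  intro s hs t ht h
  funext p
  by_cases hp : p < m
  · exact congrFun h ⟨p, hp⟩
  · rw [hs p (not_lt.1 hp), ht p (not_lt.1 hp)]

theorem countable_fin : {t : ℕ → Bool | {p | t p = true}.Finite}.Countable := by
  refine (countable_iUnion fun m => (finite_bdd m).countable).mono fun t ht => ?_
  obtain ⟨m, hm⟩ := Finite.bddAbove ht
  refine mem_iUnion.2 ⟨m + 1, fun p hp => ?_⟩
  by_contra h
  have := hm (show p ∈ {p | t p = true} by simpa using h)
  omega

theorem prod_hurewicz {P : Set (ℕ → Bool)} (hFin : ∀ z, {p | z p = true}.Finite → z ∈ P)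
    (hsc : ∀ b : ℕ → ℕ, ∃ J : Set ℕ, J.Infinite ∧ {z : P | ¬ ∀ᶠ j in atTop, j ∈ J →
      ∃ T : Finset ℕ, T.card ≤ j ∧ ∀ p < b j, z.1 p = true → p ∈ T}.Countable)
    {Z : Type u} [TopologicalSpace Z] (hZ : Hurewicz Z) : Hurewicz (P × Z) := by
  classical
  intro U hU
  suffices H : ∃ A : ℕ → Set (P × Z), (∀ n, Sm (U n) (A n)) ∧ ∀ w, ∀ᶠ n in atTop, w ∈ A n by
    obtain ⟨A, hA, hw⟩ := H
    choose F h1 h2 h3 using hA
    exact ⟨F, fun n => ⟨h1 n, h2 n⟩, fun w => (hw w).mono fun n hn => h3 n hn⟩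
  let gap : ℕ → ℕ → Set P := fun m k => {x | ∀ p, m ≤ p → p < k → x.1 p = false}
  obtain ⟨F, hF, hz⟩ := hZ (fun r => {W | IsOpen W ∧ ∃ k, r.unpair.2 < k ∧
      Sm (U r.unpair.1) (gap r.unpair.2 k ×ˢ W)}) fun r => ⟨fun W hW => hW.1,
        eq_univ_of_forall fun z => by
    obtain ⟨O, W, h1, h2, h3, h4, h5⟩ := tube (hU r.unpair.1)
      ((finite_bdd r.unpair.2).preimage (Subtype.val_injective (p := (· ∈ P))).injOn) z
    obtain ⟨O', hO', rfl⟩ := isOpen_induced_iff.1 h1
    have : ∀ t : ℕ → Bool, ∃ l, (∀ p, r.unpair.2 ≤ p → t p = false) →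
        ∀ y : ℕ → Bool, (∀ i < l, y i = t i) → y ∈ O' := fun t => by
      by_cases ht : ∀ p, r.unpair.2 ≤ p → t p = false
      · have htP : t ∈ P := hFin t ((finite_Iio r.unpair.2).subset fun p hp => by
          by_contra h
          have := ht p (not_lt.1 h)
          simp_all)
        obtain ⟨l, hl⟩ := open_cyl hO' (h3 (a := ⟨t, htP⟩) ht)
        exact ⟨l, fun _ => hl⟩
      · exact ⟨0, fun h => absurd h ht⟩
    choose l hl using this
    obtain ⟨k, hk⟩ := ((finite_bdd r.unpair.2).image l).bddAbove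
    refine ⟨W, ⟨h2, max k (r.unpair.2 + 1), by omega, h5.mono (prod_mono ?_ Subset.rfl)⟩, h4⟩
    intro x hx
    have ht : ∀ p, r.unpair.2 ≤ p → (fun p => if p < r.unpair.2 then x.1 p else false) p = false :=
      fun p hp => if_neg (not_lt.2 hp)
    refine hl _ ht x.1 fun i hi => ?_
    have := hk ⟨_, ht, rfl⟩
    split_ifs with h
    · rfl
    · exact hx i (not_lt.1 h) (by omega)⟩
  have hk : ∀ n m, ∃ k, m < k ∧ Sm (U n) (gap m k ×ˢ ⋃₀ F (Nat.pair n m)) := by
    intro n m
    have h1 : ∀ W ∈ F (Nat.pair n m), ∃ k, m < k ∧ Sm (U n) (gap m k ×ˢ W) := fun W hW => by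
      simpa using ((hF _).1 hW).2
    choose! k h1 h2 using h1
    obtain ⟨K, hK⟩ := ((hF (Nat.pair n m)).2.image k).bddAbove
    refine ⟨max K (m + 1), by omega, (Sm.biUnion (hF _).2 h2).mono ?_⟩
    rintro ⟨x, z⟩ ⟨hx, W, hW, hz⟩
    have := hK ⟨W, hW, rfl⟩
    exact mem_biUnion hW ⟨fun p hp hp' => hx p hp (by omega), hz⟩
  choose k hk1 hk2 using hk
  let M : ℕ → ℕ → ℕ := fun n t => (k n)^[t] 0
  have hM : ∀ n t, M n (t + 1) = k n (M n t) := fun n t => Function.iterate_succ_apply' _ _ _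
  have hMs : ∀ n, StrictMono (M n) := fun n => strictMono_nat_of_lt_succ fun t => by
    rw [hM]; exact hk1 _ _
  let b : ℕ → ℕ := fun j => (Finset.range (j + 1)).sup fun n => M n (j + 1)
  obtain ⟨J, hJ, hC⟩ := hsc b
  choose j hj1 hj2 using fun n => hJ.exists_gt n
  obtain ⟨c, hc⟩ := (hC.insert ⟨fun _ => false, hFin _ (by simp)⟩).exists_eq_range
    (insert_nonempty _ _)
  obtain ⟨F', hF', hz'⟩ := hZ (fun n => {W | IsOpen W ∧ Sm (U n) ((c '' Iic n) ×ˢ W)})
    fun n => ⟨fun W hW => hW.1, eq_univ_of_forall fun z => by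
      obtain ⟨O, W, -, h2, h3, h4, h5⟩ := tube (hU n) ((finite_Iic n).image c) z
      exact ⟨W, ⟨h2, h5.mono (prod_mono h3 Subset.rfl)⟩, h4⟩⟩
  refine ⟨fun n => (⋃ m ∈ Iio (b (j n)), gap m (k n m) ×ˢ ⋃₀ F (Nat.pair n m)) ∪
    ⋃ W ∈ F' n, (c '' Iic n) ×ˢ W, fun n => (Sm.biUnion (finite_Iio _) fun m _ => hk2 n m).union
      (Sm.biUnion (hF' n).2 fun W hW => ((hF' n).1 hW).2), ?_⟩
  rintro ⟨x, z⟩
  by_cases hx : x ∈ range c
  · obtain ⟨i, rfl⟩ := hx
    filter_upwards [hz' z, eventually_ge_atTop i] with n ⟨W, hW, hzW⟩ hi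
    exact Or.inr (mem_biUnion hW ⟨⟨i, hi, rfl⟩, hzW⟩)
  rw [← hc] at hx
  obtain ⟨N, hN⟩ := eventually_atTop.1 (not_not.1 fun h => hx (mem_insert_of_mem _ h))
  obtain ⟨N', hN'⟩ := eventually_atTop.1 (hz z)
  filter_upwards [eventually_ge_atTop N, eventually_ge_atTop N'] with n h1 h2
  obtain ⟨T, hT1, hT2⟩ := hN (j n) (h1.trans (hj2 n).le) (hj1 n)
  have hb : M n (j n + 1) ≤ b (j n) :=
    Finset.le_sup (f := fun n' => M n' (j n + 1)) (Finset.mem_range.2 (by have := hj2 n; omega))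
  obtain ⟨t, ht, hx⟩ : ∃ t ≤ j n, x ∈ gap (M n t) (M n (t + 1)) := by
    by_contra hcon
    have : ∀ t : Fin (j n + 1), ∃ p, M n t ≤ p ∧ p < M n (t + 1) ∧ x.1 p = true := fun t => by
      by_contra h
      push Not at h
      exact hcon ⟨t, Nat.lt_succ_iff.1 t.2, fun p h1 h2 => by simpa using h p h1 h2⟩
    choose p hp1 hp2 hp3 using this
    have hs : StrictMono p := fun s t hst =>
      (hp2 s).trans_le (((hMs n).monotone (show (s : ℕ) + 1 ≤ t from hst)).trans (hp1 t))
    have := Finset.card_le_card_of_injOn (s := Finset.univ) (t := T) p (fun t _ =>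
      hT2 _ ((hp2 t).trans_le (((hMs n).monotone (show (t : ℕ) + 1 ≤ j n + 1 from t.2)).trans hb))
        (hp3 t)) hs.injective.injOn
    simp at this
    omega
  refine Or.inl (mem_biUnion (x := M n t) ((hMs n (Nat.lt_succ_of_le ht)).trans_le hb)
    ⟨by rw [← hM]; exact hx, hN' _ (h2.trans (Nat.left_le_pair _ _))⟩)

theorem exists_card_bdd {S : Set ℕ} (hS : S.Infinite) (n : ℕ) :
    ∃ k, ∃ T : Finset ℕ, T.card = n + 1 ∧ ∀ j ∈ T, j < k ∧ j ∈ S := by
  obtain ⟨T, h1, h2⟩ := hS.exists_subset_card_eq (n + 1)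
  exact ⟨T.sup id + 1, T, h2, fun j hj => ⟨Nat.lt_succ_of_le (Finset.le_sup (f := id) hj), h1 hj⟩⟩

theorem main (hCH : continuum.{0} = aleph 1) : ∃ X : Set (ℕ → Bool),
    (∀ (Z : Type u) [TopologicalSpace Z], Hurewicz Z → Hurewicz (X × Z)) ∧
      ∃ M : Set (ℕ → ℕ), Menger M ∧ ¬ Menger (X × M) := by
  classical
  obtain ⟨ι, f, y, h1, h2, h3, -, h5⟩ := menger_scale_mono hCH
  let e : ι → ℕ → ℕ := fun i j => 2 * y i j + if j ∈ range (ph (f i)) then 1 else 0
  let x : ι → ℕ → Bool := fun i p => decide (p ∈ range (e i))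
  let P : Set (ℕ → Bool) := range x ∪ {z | {p | z p = true}.Finite}
  refine ⟨P, fun Z _ hZ => prod_hurewicz (fun z hz => Or.inr hz) (fun b => ?_) hZ,
    range y, h3, fun hM => ?_⟩
  · obtain ⟨c, -, hc2, hc3⟩ := h5 (ph b) (ph_mono b)
    refine ⟨{j | ph b j ≤ c j}, Nat.frequently_atTop_iff_infinite.1 hc2,
      (((hc3.image x).union countable_fin).preimage Subtype.val_injective).mono ?_⟩
    rintro ⟨z, ⟨i, rfl⟩ | hz⟩ h
    · refine Or.inl ⟨i, fun hi => h (hi.mono fun j hj hJ => ?_), rfl⟩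
      refine ⟨(Finset.range j).image (e i), Finset.card_image_le.trans (by simp), fun p hp hx => ?_⟩
      obtain ⟨a, rfl⟩ : p ∈ range (e i) := by simpa [x] using hx
      refine Finset.mem_image_of_mem _ (Finset.mem_range.2 ?_)
      by_contra ha
      have a1 := (h2 i).monotone (not_lt.1 ha)
      have a2 := le_ph b (le_refl j)
      have a3 : ph b j ≤ c j := hJ
      simp only [e] at hp
      omega
    · exact Or.inr hz
  · refine (fun hu : Arr (X := P × range y) fun n k => {w | ∃ T : Finset ℕ, T.card = n + 1 ∧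
        ((∀ j ∈ T, j < k ∧ w.1.1 (2 * w.2.1 j) = false) ∨
          ∀ j ∈ T, j < k ∧ w.1.1 (2 * j + 1) = true)} => ?_) ⟨fun n k => ?_,
            fun n a b hab w => ?_, fun n w => ?_⟩
    · obtain ⟨g, hg⟩ := arr_of_menger hM hu
      obtain ⟨i, rfl⟩ := h1 g
      obtain ⟨n, T, hT, h⟩ := hg (⟨x i, Or.inl ⟨i, rfl⟩⟩, ⟨y i, i, rfl⟩)
      have hlt : ∀ a, ph (f i) a < f i n → a ∈ Finset.range n := fun a ha => by
        have := le_ph (f i) (le_refl n)
        exact Finset.mem_range.2 ((ph_mono (f i)).lt_iff_lt.1 (by omega))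
      rcases h with h | h
      · have : T ⊆ (Finset.range n).image (ph (f i)) := fun j hj => by
          obtain ⟨h1, h2⟩ := h j hj
          obtain ⟨a, rfl⟩ : j ∈ range (ph (f i)) := by
            by_contra hc
            have : 2 * y i j ∈ range (e i) := ⟨j, by simp only [e, if_neg hc]; rfl⟩
            simp [x] at h2
            obtain ⟨a, ha⟩ := this
            exact h2 a ha
          exact Finset.mem_image_of_mem _ (hlt a h1)
        have := (Finset.card_le_card this).trans Finset.card_image_le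
        simp at this; omega
      · have : T ⊆ (Finset.range n).image (y i ∘ ph (f i)) := fun j hj => by
          obtain ⟨h1, h3⟩ := h j hj
          obtain ⟨j', hj'⟩ : 2 * j + 1 ∈ range (e i) := by simpa [x] using h3
          simp only [e] at hj'
          split_ifs at hj' with hc
          · obtain ⟨a, rfl⟩ := hc
            have a1 : ph (f i) a ≤ y i (ph (f i) a) := (h2 i).le_apply
            exact Finset.mem_image.2 ⟨a, hlt a (by omega), by simp only [Function.comp]; omega⟩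
          · omega
        have := (Finset.card_le_card this).trans Finset.card_image_le
        simp at this; omega
    · have hev : ∀ p, Continuous fun w : P × range y => w.1.1 p := fun p =>
        (continuous_apply p).comp (continuous_subtype_val.comp continuous_fst)
      have o1 : ∀ j, IsOpen {w : P × range y | j < k ∧ w.1.1 (2 * w.2.1 j) = false} := fun j => by
        have : {w : P × range y | j < k ∧ w.1.1 (2 * w.2.1 j) = false} =
            ⋃ a, {w | j < k} ∩ ({w | w.2.1 j = a} ∩ {w | w.1.1 (2 * a) = false}) := by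
          ext w; simp
        rw [this]
        refine isOpen_iUnion fun a => isOpen_const.inter (IsOpen.inter ?_ ?_)
        · exact (isOpen_discrete {a}).preimage (f := fun w : P × range y => w.2.1 j)
            ((continuous_apply j).comp (continuous_subtype_val.comp continuous_snd))
        · exact (isOpen_discrete {false}).preimage (hev (2 * a))
      have o2 : ∀ j, IsOpen {w : P × range y | j < k ∧ w.1.1 (2 * j + 1) = true} := fun j =>
        isOpen_const.inter ((isOpen_discrete {true}).preimage (hev _))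
      dsimp only
      rw [ofPred_exists]
      refine isOpen_iUnion fun T => isOpen_const.inter (IsOpen.union ?_ ?_)
      · have := isOpen_biInter_finset (s := T) fun j _ => o1 j
        convert this using 1
        ext w; simp only [mem_iInter]; rfl
      · have := isOpen_biInter_finset (s := T) fun j _ => o2 j
        convert this using 1
        ext w; simp only [mem_iInter]; rfl
    · rintro ⟨T, hT, h | h⟩
      · exact ⟨T, hT, Or.inl fun j hj => ⟨(h j hj).1.trans_le hab, (h j hj).2⟩⟩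
      · exact ⟨T, hT, Or.inr fun j hj => ⟨(h j hj).1.trans_le hab, (h j hj).2⟩⟩
    · obtain ⟨⟨z, ⟨i, rfl⟩ | hz⟩, ⟨_, i', rfl⟩⟩ := w
      · obtain ⟨k, T, hT, h⟩ := exists_card_bdd (S := {j | x i (2 * j + 1) = true})
          (infinite_of_injective_forall_mem (f := y i ∘ ph (f i))
            ((h2 i).comp (ph_mono _)).injective fun a => by
              simp only [x, mem_ofPred_eq, decide_eq_true_eq]
              exact ⟨ph (f i) a, by simp [e]⟩) n
        exact ⟨k, T, hT, Or.inr h⟩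
      · obtain ⟨k, T, hT, h⟩ := exists_card_bdd (S := {j | z (2 * y i' j) = false})
          (((Finite.preimage (f := fun j => 2 * y i' j) (fun a _ b _ hab =>
            (h2 i').injective (by simpa using hab)) hz).infinite_compl).mono
              fun j hj => by simpa using hj) n
        exact ⟨k, T, hT, Or.inl h⟩

end Pool.Agent.H85.Scale3
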