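import Mathlib
import Pool.Agent.H85.Scale3
import Pool.Agent.H85.BDefs

set_option autoImplicit false

namespace Pool.Agent.H85.Conc

open Cardinal hiding univ
open Set Filter Topology MeasureTheory Pool.Agent.H85.CovDefs Pool.Agent.H85.Cov
  Pool.Agent.H85.Scale3 Pool.Agent.H85.BDefs

universe u v

theorem tubes {X : Type u} {Z : Type v} [TopologicalSpace X] [TopologicalSpace Z] (hZ : Hurewicz Z)
    {U : ℕ → Set (Set (X × Z))} (hU : CoverSeq U) (q : ℕ → X) :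
    ∃ (O : ℕ → ℕ → Set X) (W : ℕ → ℕ → Set Z), (∀ n i, IsOpen (O n i) ∧ q i ∈ O n i ∧
      Sm (U n) (O n i ×ˢ W n i)) ∧ ∀ z, ∀ᶠ n in atTop, ∀ i, z ∈ W n i := by
  obtain ⟨F, hF, hz⟩ := hZ (fun r => {W | IsOpen W ∧ ∃ O, IsOpen O ∧ q r.unpair.2 ∈ O ∧
      Sm (U r.unpair.1) (O ×ˢ W)}) fun r => ⟨fun W hW => hW.1, eq_univ_of_forall fun z => by
    obtain ⟨O, W, h1, h2, h3, h4, h5⟩ := tube (hU r.unpair.1) (finite_singleton (q r.unpair.2)) z
    exact ⟨W, ⟨h2, O, h1, h3 rfl, h5⟩, h4⟩⟩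
  have : ∀ n i, ∃ O, IsOpen O ∧ q i ∈ O ∧ Sm (U n) (O ×ˢ ⋃₀ F (Nat.pair n i)) := by
    intro n i
    have h1 : ∀ W ∈ F (Nat.pair n i), ∃ O, IsOpen O ∧ q i ∈ O ∧ Sm (U n) (O ×ˢ W) :=
      fun W hW => by simpa using ((hF _).1 hW).2
    choose! O h1 h2 h3 using h1
    refine ⟨⋂ W ∈ F (Nat.pair n i), O W, (hF _).2.isOpen_biInter h1, mem_iInter₂.2 h2,
      (Sm.biUnion (hF _).2 h3).mono ?_⟩
    rintro ⟨x, z⟩ ⟨hx, W, hW, hz⟩
    exact mem_biUnion hW ⟨mem_iInter₂.1 hx W hW, hz⟩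
  choose O hO using this
  refine ⟨O, fun n i => ⋃₀ F (Nat.pair n i), hO, fun z => ?_⟩
  obtain ⟨N, hN⟩ := eventually_atTop.1 (hz z)
  exact (eventually_ge_atTop N).mono fun n hn i => hN _ (hn.trans (Nat.left_le_pair _ _))

/-- A Hurewicz space concentrated on a countable subset is productively Hurewicz. -/
theorem conc_prod {X : Type u} {Z : Type v} [TopologicalSpace X] [TopologicalSpace Z]
    (hX : Hurewicz X) {Q : Set X} (hQ : Q.Countable)
    (hc : ∀ U : Set X, IsOpen U → Q ⊆ U → Uᶜ.Countable) (hZ : Hurewicz Z) : Hurewicz (X × Z) := by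
  intro U hU
  suffices H : ∃ A : ℕ → Set (X × Z), (∀ n, Sm (U n) (A n)) ∧ ∀ w, ∀ᶠ n in atTop, w ∈ A n by
    obtain ⟨A, hA, hw⟩ := H
    choose F h1 h2 h3 using hA
    exact ⟨F, fun n => ⟨h1 n, h2 n⟩, fun w => (hw w).mono fun n hn => h3 n hn⟩
  rcases isEmpty_or_nonempty X with hX0 | ⟨⟨x0⟩⟩
  · exact ⟨fun _ => ∅, fun n => ⟨∅, by simp⟩, fun w => hX0.elim w.1⟩
  obtain ⟨q, hq⟩ := (hQ.insert x0).exists_eq_range (insert_nonempty _ _)
  obtain ⟨O, W, h1, h2⟩ := tubes hZ hU q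
  have hA : (⋃ n, (⋃ i, O n i)ᶜ).Countable := countable_iUnion fun n =>
    hc _ (isOpen_iUnion fun i => (h1 n i).1) fun x hx => by
      obtain ⟨i, rfl⟩ : x ∈ range q := hq ▸ mem_insert_of_mem _ hx
      exact mem_iUnion.2 ⟨i, (h1 n i).2.1⟩
  obtain ⟨a, ha⟩ := (hA.insert x0).exists_eq_range (insert_nonempty _ _)
  obtain ⟨O', W', h3, h4⟩ := tubes hZ hU a
  obtain ⟨g, hg⟩ := arr_of_hurewicz hX (u := fun n k => ⋃ i ∈ Iic k, O n i ∪ O' n i)
    ⟨fun n k => isOpen_biUnion fun i _ => (h1 n i).1.union (h3 n i).1,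
      fun n a b hab => biUnion_subset_biUnion_left (Iic_subset_Iic.2 hab), fun n x => by
        by_cases hx : x ∈ ⋃ i, O n i
        · obtain ⟨i, hi⟩ := mem_iUnion.1 hx
          exact ⟨i, mem_biUnion (x := i) (mem_Iic.2 le_rfl) (Or.inl hi)⟩
        · obtain ⟨i, rfl⟩ : x ∈ range a := ha ▸ mem_insert_of_mem _ (mem_iUnion.2 ⟨n, hx⟩)
          exact ⟨i, mem_biUnion (x := i) (mem_Iic.2 le_rfl) (Or.inr (h3 n i).2.1)⟩⟩
  refine ⟨fun n => ⋃ i ∈ Iic (g n), O n i ×ˢ W n i ∪ O' n i ×ˢ W' n i, fun n =>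
    Sm.biUnion (finite_Iic _) fun i _ => (h1 n i).2.2.union (h3 n i).2.2, ?_⟩
  rintro ⟨x, z⟩
  filter_upwards [hg x, h2 z, h4 z] with n a1 a2 a3
  obtain ⟨i, hi, hx⟩ := mem_iUnion₂.1 a1
  exact mem_biUnion hi (hx.imp (fun h => ⟨h, a2 i⟩) fun h => ⟨h, a3 i⟩)

theorem bnum_le : bnum ≤ continuum := by
  refine csInf_le' ⟨univ, ?_, by simp⟩
  rintro ⟨b, hb⟩
  obtain ⟨n, hn⟩ := (hb (fun n => b n + 1) (mem_univ _)).exists
  exact absurd hn (by simp)

theorem main {X : Set (ℕ → Bool)} (h : continuum.{0} = aleph 1 ∨ bnum = aleph 1)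
    (hX : Hurewicz X) (hc : Concentrated bnum X) (Z : Type u) [TopologicalSpace Z]
    (hZ : Hurewicz Z) : Hurewicz (X × Z) := by
  have hb : bnum ≤ aleph 1 := h.elim (fun h => bnum_le.trans h.le) le_of_eq
  obtain ⟨-, A, hAX, hA, hU⟩ := hc
  refine conc_prod hX (Q := Subtype.val ⁻¹' A) (hA.preimage Subtype.val_injective)
    (fun U hUo hAU => ?_) hZ
  obtain ⟨V, hV, rfl⟩ := isOpen_induced_iff.1 hUo
  have := (hU V hV fun a ha => hAU (a := ⟨a, hAX ha⟩) ha).trans_le hb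
  rw [lt_aleph_one_iff, le_aleph0_iff_set_countable] at this
  refine (this.preimage (f := (Subtype.val : X → _)) Subtype.val_injective).mono ?_
  intro x hx
  exact ⟨x.2, hx⟩

theorem hurewicz_of_small {Y : Type} [TopologicalSpace Y] [LindelofSpace Y] (h : #Y < bnum) :
    Hurewicz Y := by
  refine hurewicz_of_arr fun u hu => ?_
  choose k hk using hu.2.2
  obtain ⟨g, hg⟩ : ∃ b : ℕ → ℕ, ∀ a ∈ range fun y n => k n y, ∀ᶠ n in atTop, a n ≤ b n := by
    by_contra hc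
    exact absurd ((csInf_le' ⟨_, hc, rfl⟩ : bnum ≤ _).trans mk_range_le) (not_le.2 h)
  exact ⟨g, fun y => (hg _ ⟨y, rfl⟩).mono fun n hn => hu.2.1 n hn (hk n y)⟩

theorem menger_of_hurewicz {Y : Type*} [TopologicalSpace Y] (h : Hurewicz Y) : Menger Y :=
  fun U hU => by
    obtain ⟨F, h1, h2⟩ := h U hU
    exact ⟨F, h1, fun x => (h2 x).exists⟩

theorem split_sierp {S : Set ℝ} (hS : Sierpinski S) : ∃ A ⊆ S, ∃ Z ⊆ S, Disjoint A Z ∧
    ¬ A.Countable ∧ ∀ K, MeasurableSet K → Disjoint K Z → (K ∩ A).Countable := by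
  have hinf : Infinite S := by
    by_contra h
    haveI := not_infinite_iff_finite.1 h
    exact hS.1 (Set.toFinite S).countable
  obtain ⟨e⟩ : Nonempty (S × S ≃ S) := Cardinal.eq.1 (by simp)
  have hSu : Uncountable S := not_countable_iff.1 fun h => hS.1 (countable_coe_iff.1 h)
  let T : S → Set ℝ := fun i => range fun j => (e (i, j) : ℝ)
  have hTS : ∀ i, T i ⊆ S := fun i => by rintro _ ⟨j, rfl⟩; exact (e (i, j)).2
  have hT : ∀ i, 0 < volume (toMeasurable volume (T i)) := fun i => by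
    rw [measure_toMeasurable, pos_iff_ne_zero]
    intro h0
    have := hS.2 _ h0
    rw [inter_eq_right.2 (hTS i)] at this
    have hinj : Function.Injective fun j => (e (i, j) : ℝ) := fun a b hab => by
      simpa using e.injective (Subtype.ext hab)
    refine not_countable (α := S) (countable_univ_iff.1 ((this.preimage hinj).mono ?_))
    intro j _
    exact ⟨j, rfl⟩
  obtain ⟨i, j, hij, hne⟩ : ∃ i j, i ≠ j ∧
      volume (toMeasurable volume (T i) ∩ toMeasurable volume (T j)) ≠ 0 := by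
    by_contra hc
    push Not at hc
    have := Measure.countable_meas_pos_of_disjoint_iUnion₀ (μ := volume)
      (As := fun i => toMeasurable volume (T i))
      (fun i => (measurableSet_toMeasurable _ _).nullMeasurableSet) fun i j hij => hc i j hij
    refine not_countable (α := S) (countable_univ_iff.1 (this.mono ?_))
    intro j _
    exact hT j
  refine ⟨T i ∩ toMeasurable volume (T j), inter_subset_left.trans (hTS i), T j, hTS j,
    disjoint_left.2 ?_, fun hc => hne ?_, fun K hK hd => ?_⟩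
  · rintro _ ⟨⟨a, rfl⟩, -⟩ ⟨b, hb⟩
    exact hij (congrArg Prod.fst (e.injective (Subtype.ext hb))).symm
  · rw [Measure.measure_toMeasurable_inter_of_sFinite (measurableSet_toMeasurable _ _)]
    exact hc.measure_zero _
  · refine (hS.2 (toMeasurable volume (T j) ∩ K) ?_).mono ?_
    · rw [Measure.measure_toMeasurable_inter_of_sFinite hK, hd.symm.inter_eq, measure_empty]
    · intro x hx
      exact ⟨hTS i hx.2.1, hx.2.2, hx.1⟩

/-- The topology on a set of reals in which the points of `A` are made isolated. -/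
def michael (B A : Set ℝ) : TopologicalSpace B where
  IsOpen W := ∀ y ∈ W, y.1 ∉ A → W ∈ 𝓝 y
  isOpen_univ := fun _ _ _ => univ_mem
  isOpen_inter := fun _ _ h1 h2 y hy hA => inter_mem (h1 y hy.1 hA) (h2 y hy.2 hA)
  isOpen_sUnion := fun _ h y ⟨W, hW, hy⟩ hA =>
    mem_of_superset (h W hW y hy hA) (subset_sUnion_of_mem hW)

theorem small_bad {S : Set ℝ} (hS : Sierpinski S) (hb : #S < bnum) :
    ∃ A : Set ℝ, #A < bnum ∧ ∃ (Y : Type) (_ : TopologicalSpace Y), T2Space Y ∧ Hurewicz Y ∧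
      Menger Y ∧ ¬ Hurewicz (A × Y) ∧ ¬ Menger (A × Y) := by
  obtain ⟨A, hA, Z, hZ, hd, hAc, hK⟩ := split_sierp hS
  have hle : michael (A ∪ Z) A ≤ instTopologicalSpaceSubtype :=
    fun W hW y hy _ => hW.mem_nhds hy
  have hL : @LindelofSpace _ (michael (A ∪ Z) A) := by
    refine @LindelofSpace.mk _ (michael (A ∪ Z) A)
      (@isLindelof_of_countable_subcover _ (michael (A ∪ Z) A) _ fun {ι} U ho hcov => ?_)
    choose c hc using fun y => mem_iUnion.1 (hcov (mem_univ y))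
    have : ∀ y : ↥(A ∪ Z), ∃ V : Set ℝ, IsOpen V ∧ (y.1 ∉ A → y.1 ∈ V ∧
        Subtype.val ⁻¹' V ⊆ U (c y)) := fun y => by
      by_cases hy : y.1 ∈ A
      · exact ⟨∅, isOpen_empty, fun h => absurd hy h⟩
      · obtain ⟨t, ht, h⟩ := (mem_nhds_induced _ _ _).1 (ho (c y) y (hc y) hy)
        obtain ⟨V, h1, h2, h3⟩ := mem_nhds_iff.1 ht
        exact ⟨V, h2, fun _ => ⟨h3, (preimage_mono h1).trans h⟩⟩
    choose V hV1 hV2 using this
    obtain ⟨T, hT1, hT2, hT3⟩ := TopologicalSpace.isOpen_biUnion_countable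
      {y : ↥(A ∪ Z) | y.1 ∉ A} V fun y _ => hV1 y
    have hC := hK (⋃ y ∈ T, V y)ᶜ (isOpen_biUnion fun y _ => hV1 y).measurableSet.compl
      (disjoint_left.2 fun z hz hzZ => hz (by
        have hzA : z ∉ A := fun h => disjoint_left.1 hd h hzZ
        rw [hT3]
        exact mem_biUnion (x := ⟨z, Or.inr hzZ⟩) hzA (hV2 _ hzA).1))
    refine ⟨c '' (T ∪ Subtype.val ⁻¹' ((⋃ y ∈ T, V y)ᶜ ∩ A)),
      (hT2.union (hC.preimage Subtype.val_injective)).image _, fun y _ => ?_⟩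
    by_cases hy : y.1 ∈ ⋃ y ∈ T, V y
    · obtain ⟨y', h1, h2⟩ := mem_iUnion₂.1 hy
      exact mem_biUnion (x := c y') ⟨y', Or.inl h1, rfl⟩ ((hV2 y' (hT1 h1)).2 h2)
    · refine mem_biUnion (x := c y) ⟨y, Or.inr ⟨hy, ?_⟩, rfl⟩ (hc y)
      by_contra hyA
      exact hy (hT3 ▸ mem_biUnion (x := y) hyA (hV2 y hyA).1)
  have hH : @Hurewicz _ (michael (A ∪ Z) A) := @hurewicz_of_small _ (michael (A ∪ Z) A) hL
    ((mk_le_mk_of_subset (union_subset hA hZ)).trans_lt hb)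
  have hval : @Continuous _ _ (michael (A ∪ Z) A) _ Subtype.val :=
    continuous_le_dom hle continuous_subtype_val
  have hM : ¬ @Menger (A × ↥(A ∪ Z)) (@instTopologicalSpaceProd _ _ _ (michael (A ∪ Z) A)) := by
    letI := michael (A ∪ Z) A
    intro hM
    obtain ⟨F, h1, h2⟩ := hM (fun _ => insert {w | w.1.1 ≠ w.2.1}
      (range fun a : A => {w | w.2.1 = a})) fun _ => ⟨by
        rintro _ (rfl | ⟨a, rfl⟩)
        · exact isOpen_ne_fun (continuous_subtype_val.comp continuous_fst)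
            (hval.comp continuous_snd)
        · exact IsOpen.preimage continuous_snd (t := {y : ↥(A ∪ Z) | y.1 = a})
            fun y hy hyA => absurd (hy ▸ a.2) hyA,
      eq_univ_of_forall fun w => by
        by_cases h : w.1.1 = w.2.1
        · exact ⟨_, Or.inr ⟨w.1, rfl⟩, h.symm⟩
        · exact ⟨_, Or.inl rfl, h⟩⟩
    have hinj : Function.Injective fun a : A => {w : A × ↥(A ∪ Z) | w.2.1 = a} := fun a b hab => by
      have : (a, (⟨a, Or.inl a.2⟩ : ↥(A ∪ Z))) ∈ {w : A × ↥(A ∪ Z) | w.2.1 = a} := rfl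
      simp only at hab
      rw [hab] at this
      exact Subtype.ext this
    refine hAc (countable_coe_iff.1 (countable_univ_iff.1
      (((countable_iUnion fun n => (h1 n).2.countable).preimage hinj).mono fun a _ => ?_)))
    obtain ⟨n, W, hW, hw⟩ := h2 (a, ⟨a, Or.inl a.2⟩)
    rcases (h1 n).1 hW with rfl | ⟨b, rfl⟩
    · exact absurd rfl hw
    · obtain rfl : a = b := Subtype.ext hw
      exact mem_iUnion.2 ⟨n, hW⟩
  exact ⟨A, (mk_le_mk_of_subset hA).trans_lt hb, _, michael (A ∪ Z) A,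
    @T2Space.of_injective_continuous _ _ (michael (A ∪ Z) A) _ _ _ Subtype.val_injective hval,
    hH, @menger_of_hurewicz _ (michael (A ∪ Z) A) hH,
    fun h => hM (@menger_of_hurewicz _ (_) h), hM⟩

end Pool.Agent.H85.Conc
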