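import Mathlib

/-! Equivariant Kuiper theorem, algebraic part: rotations, swindle, polar decomposition. -/

namespace Pool.Agent.H85.EqK

set_option linter.unusedSectionVars false
set_option linter.unusedVariables false
set_option linter.unusedSimpArgs false

open Set Filter Topology
open scoped unitInterval

section ring
variable {B : Type*} [Ring B] [Algebra ℝ B]

def rot (M N : B) (c s : ℝ) : B := 1 + (c - 1) • (N * M + M * N) + s • (M - N)

structure PI (M N : B) : Prop where
  mnm : M * N * M = M
  nmn : N * M * N = N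
  mm : M * M = 0
  nn : N * N = 0

lemma rot_mul {M N : B} (h : PI M N) {c s : ℝ} (hcs : c ^ 2 + s ^ 2 = 1) :
    rot M N c s * rot M N c (-s) = 1 := by
  have h1 : M * (N * M) = M := by rw [← mul_assoc, h.mnm]
  have h2 : N * (M * N) = N := by rw [← mul_assoc, h.nmn]
  have h3 : ∀ x, M * (M * x) = 0 := fun x => by rw [← mul_assoc, h.mm, zero_mul]
  have h4 : ∀ x, N * (N * x) = 0 := fun x => by rw [← mul_assoc, h.nn, zero_mul]
  have hEE : (N * M + M * N) * (N * M + M * N) = N * M + M * N := by
    simp only [mul_add, add_mul, mul_assoc, h1, h2, h3, h4, mul_zero, add_zero, zero_add]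
  have hED : (N * M + M * N) * (M - N) = M - N := by
    simp only [mul_sub, add_mul, mul_assoc, h1, h2, h.mm, h.nn, mul_zero, add_zero, zero_add]
  have hDE : (M - N) * (N * M + M * N) = M - N := by
    simp only [mul_add, sub_mul, h1, h2, h3, h4, sub_zero, zero_sub]
    abel
  have hDD : (M - N) * (M - N) = -(N * M + M * N) := by
    simp only [mul_sub, sub_mul, h.mm, h.nn]
    abel
  unfold rot
  generalize N * M + M * N = E at *
  generalize M - N = D at *
  simp only [mul_add, add_mul, one_mul, mul_one, smul_mul_assoc, mul_smul_comm, hEE, hED, hDE, hDD,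
    smul_add, smul_smul, smul_neg]
  have : (1 : B) = 1 + (c ^ 2 + s ^ 2 - 1) • E := by rw [hcs]; simp
  conv_rhs => rw [this]
  module

lemma rot_unit {M N : B} (h : PI M N) {c s : ℝ} (hcs : c ^ 2 + s ^ 2 = 1) :
    IsUnit (rot M N c s) := by
  have h1 := rot_mul h hcs
  have h2 := rot_mul h (c := c) (s := -s) (by rw [neg_sq]; exact hcs)
  rw [neg_neg] at h2
  exact ⟨⟨_, _, h1, h2⟩, rfl⟩

lemma rot_one (M N : B) : rot M N 1 0 = 1 := by simp [rot]

lemma rot_conj {M N X : B} (h : PI M N) (hl : N * M * X = X) (hr : X * (N * M) = X) :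
    rot M N 0 1 * (1 + X) * rot M N 0 (-1) = 1 + M * X * N := by
  have e1 : N * X = 0 := by rw [← hl, ← mul_assoc, ← mul_assoc, h.nn, zero_mul, zero_mul]
  have e2 : X * M = 0 := by rw [← hr, mul_assoc, mul_assoc, h.mm, mul_zero, mul_zero]
  have e3 : rot M N 0 1 * X = M * X := by
    unfold rot
    simp only [add_mul, one_mul, smul_mul_assoc, sub_mul, hl, e1, mul_assoc M N X, mul_zero]
    module
  have e4 : X * rot M N 0 (-1) = X * N := by
    unfold rot
    simp only [mul_add, mul_one, mul_smul_comm, mul_sub, hr, e2, ← mul_assoc X M N, zero_mul]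
    module
  rw [mul_add, add_mul, mul_one, rot_mul h (by norm_num), e3, mul_assoc, e4, mul_assoc]

lemma unit_one_add_conj {W W' Z : B} (hW : W' * W = 1) (h : IsUnit (1 + Z)) :
    IsUnit (1 + W * Z * W') := by
  obtain ⟨u, hu⟩ := h
  have hW' : ∀ x, W' * (W * x) = x := fun x => by rw [← mul_assoc, hW, one_mul]
  have key : ∀ a b : B, (1 + a) * (1 + b) = 1 → (1 + W * a * W') * (1 + W * b * W') = 1 := by
    intro a b hab
    have : a + b + a * b = 0 := by
      have h2 : (1 + a) * (1 + b) = 1 + (a + b + a * b) := by noncomm_ring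
      rw [h2] at hab
      simpa using hab
    have h3 : (1 + W * a * W') * (1 + W * b * W') = 1 + W * (a + b + a * b) * W' := by
      simp only [mul_add, add_mul, one_mul, mul_one, mul_assoc, hW']
      abel
    rw [h3, this]; simp
  refine ⟨⟨_, 1 + W * ((u⁻¹ : Bˣ) - 1) * W', key _ _ ?_, key _ _ ?_⟩, rfl⟩
  · rw [← hu]; simp
  · rw [← hu]; simp

end ring

variable {B : Type*} [CStarAlgebra B] {G : Type*} (α : G → B ≃⋆ₐ[ℂ] B)
variable {Z : Type*} [TopologicalSpace Z]

structure Good (act : G → Z → Z) (f : Z → B) : Prop where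
  cont : Continuous f
  eqv : ∀ g z, f (act g z) = α g (f z)

variable {α} {act : G → Z → Z}

lemma Good.const {b : B} (hb : ∀ g, α g b = b) : Good α act (fun _ => b) :=
  ⟨continuous_const, fun g _ => (hb g).symm⟩

lemma Good.one : Good α act (fun _ => 1) := Good.const fun g => map_one _

lemma Good.mul {f k : Z → B} (hf : Good α act f) (hk : Good α act k) :
    Good α act (fun z => f z * k z) :=
  ⟨hf.cont.mul hk.cont, fun g z => by rw [hf.eqv, hk.eqv, map_mul]⟩

lemma Good.add {f k : Z → B} (hf : Good α act f) (hk : Good α act k) :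
    Good α act (fun z => f z + k z) :=
  ⟨hf.cont.add hk.cont, fun g z => by rw [hf.eqv, hk.eqv, map_add]⟩

lemma Good.sub {f k : Z → B} (hf : Good α act f) (hk : Good α act k) :
    Good α act (fun z => f z - k z) :=
  ⟨hf.cont.sub hk.cont, fun g z => by rw [hf.eqv, hk.eqv, map_sub]⟩

lemma Good.neg {f : Z → B} (hf : Good α act f) : Good α act (fun z => - f z) :=
  ⟨hf.cont.neg, fun g z => by rw [hf.eqv, map_neg]⟩

lemma Good.star {f : Z → B} (hf : Good α act f) : Good α act (fun z => star (f z)) :=
  ⟨hf.cont.star, fun g z => by rw [hf.eqv, map_star]⟩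

lemma map_rsmul (g : G) (c : ℝ) (b : B) : α g (c • b) = c • α g b := by
  rw [← Complex.coe_smul, map_smul, Complex.coe_smul]

lemma Good.smul {c : Z → ℝ} (hc : Continuous c) (hi : ∀ g z, c (act g z) = c z) {f : Z → B}
    (hf : Good α act f) : Good α act (fun z => c z • f z) :=
  ⟨hc.smul hf.cont, fun g z => by rw [hf.eqv, hi, map_rsmul]⟩

lemma Good.inv {f : Z → B} (hf : Good α act f) (hu : ∀ z, IsUnit (f z)) :
    Good α act (fun z => Ring.inverse (f z)) := by
  refine ⟨continuous_iff_continuousAt.2 fun z => ?_, fun g z => ?_⟩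
  · obtain ⟨u, hz⟩ := hu z
    have := NormedRing.inverse_continuousAt u
    rw [hz] at this
    exact this.comp hf.cont.continuousAt
  · have h1 : α g (Ring.inverse (f z)) * f (act g z) = 1 := by
      rw [hf.eqv, ← map_mul, Ring.inverse_mul_cancel _ (hu z), map_one]
    calc Ring.inverse (f (act g z))
        = α g (Ring.inverse (f z)) * f (act g z) * Ring.inverse (f (act g z)) := by
          rw [h1, one_mul]
      _ = _ := by rw [mul_assoc, Ring.mul_inverse_cancel _ (hu _), mul_one]

/-- the action on the cylinder -/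
def cyl (act : G → Z → Z) : G → I × Z → I × Z := fun g p => (p.1, act g p.2)

lemma Good.snd {f : Z → B} (hf : Good α act f) : Good α (cyl act) (fun p => f p.2) :=
  ⟨hf.cont.comp continuous_snd, fun g p => hf.eqv g p.2⟩

variable (α act) in
def Rel (f k : Z → B) : Prop :=
  ∃ h : I × Z → B, Good α (cyl act) h ∧ (∀ p, IsUnit (h p)) ∧ (∀ z, h (0, z) = f z) ∧
    ∀ z, h (1, z) = k z

lemma Rel.refl {f : Z → B} (hf : Good α act f) (hu : ∀ z, IsUnit (f z)) : Rel α act f f :=
  ⟨fun p => f p.2, hf.snd, fun p => hu _, fun _ => rfl, fun _ => rfl⟩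

lemma Rel.right {f k : Z → B} (h : Rel α act f k) : Good α act k ∧ ∀ z, IsUnit (k z) := by
  obtain ⟨h, hg, hu, -, h1⟩ := h
  have : k = fun z => h (1, z) := funext fun z => (h1 z).symm
  rw [this]
  exact ⟨⟨hg.cont.comp (by fun_prop), fun g z => hg.eqv g (1, z)⟩, fun z => hu _⟩

lemma Rel.symm {f k : Z → B} (h : Rel α act f k) : Rel α act k f := by
  obtain ⟨h, hg, hu, h0, h1⟩ := h
  refine ⟨fun p => h (unitInterval.symm p.1, p.2), ⟨hg.cont.comp (by fun_prop),
    fun g p => hg.eqv g (unitInterval.symm p.1, p.2)⟩, fun p => hu _, fun z => ?_, fun z => ?_⟩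
  · simpa using h1 z
  · simpa using h0 z

lemma Rel.left {f k : Z → B} (h : Rel α act f k) : Good α act f ∧ ∀ z, IsUnit (f z) :=
  h.symm.right

lemma Rel.mul {f k f' k' : Z → B} (h : Rel α act f k) (h' : Rel α act f' k') :
    Rel α act (fun z => f z * f' z) (fun z => k z * k' z) := by
  obtain ⟨h, hg, hu, h0, h1⟩ := h
  obtain ⟨h', hg', hu', h0', h1'⟩ := h'
  exact ⟨fun p => h p * h' p, hg.mul hg', fun p => (hu p).mul (hu' p),
    fun z => by simp only [h0, h0'], fun z => by simp only [h1, h1']⟩

lemma Rel.congr {f k f' k' : Z → B} (h : Rel α act f k) (hf : ∀ z, f z = f' z)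
    (hk : ∀ z, k z = k' z) : Rel α act f' k' := by
  rw [← funext hf, ← funext hk]; exact h

lemma Rel.trans {f k l : Z → B} (h : Rel α act f k) (h' : Rel α act k l) : Rel α act f l := by
  obtain ⟨hk, hu⟩ := h.right
  refine ((h.mul (Rel.refl (hk.inv hu) fun z => (hu z).ringInverse)).mul h').congr
    (fun z => ?_) fun z => ?_
  · rw [mul_assoc, Ring.inverse_mul_cancel _ (hu z), mul_one]
  · rw [Ring.mul_inverse_cancel _ (hu z), one_mul]

lemma Rel.line {f k : Z → B} (hf : Good α act f) (hk : Good α act k)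
    (hu : ∀ (t : ℝ) z, 0 ≤ t → t ≤ 1 → IsUnit (f z + t • k z)) :
    Rel α act f (fun z => f z + k z) :=
  ⟨fun p => f p.2 + (p.1 : ℝ) • k p.2,
    hf.snd.add (Good.smul (act := cyl act) (c := fun p : I × Z => (p.1 : ℝ)) (by fun_prop) (fun _ _ => rfl) hk.snd),
    fun p => hu _ _ p.1.2.1 p.1.2.2, fun z => by simp, fun z => by simp⟩

lemma Rel.rot {M N : Z → B} (hM : Good α act M) (hN : Good α act N) (h : ∀ z, PI (M z) (N z))
    (e : ℝ) (he : e ^ 2 = 1) :
    Rel α act (fun _ => 1) (fun z => EqK.rot (M z) (N z) 0 e) := by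
  refine ⟨fun p => EqK.rot (M p.2) (N p.2) (Real.cos (Real.pi / 2 * p.1))
    (e * Real.sin (Real.pi / 2 * p.1)), ?_, fun p => rot_unit (h _) ?_, fun z => ?_, fun z => ?_⟩
  · exact (Good.one.add (Good.smul (act := cyl act) (c := fun p : I × Z => Real.cos (Real.pi / 2 * p.1) - 1)
      (by fun_prop) (fun _ _ => rfl)
      ((hN.snd.mul hM.snd).add (hM.snd.mul hN.snd)))).add
      (Good.smul (act := cyl act) (c := fun p : I × Z => e * Real.sin (Real.pi / 2 * p.1))
        (by fun_prop) (fun _ _ => rfl) (hM.snd.sub hN.snd))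
  · rw [mul_pow, he, one_mul, Real.cos_sq_add_sin_sq]
  · simp [rot_one]
  · simp

lemma Rel.lrot {M N f : Z → B} (hM : Good α act M) (hN : Good α act N) (h : ∀ z, PI (M z) (N z))
    (hf : Good α act f) (hu : ∀ z, IsUnit (f z)) :
    Rel α act f (fun z => EqK.rot (M z) (N z) 0 1 * f z) :=
  ((Rel.rot hM hN h 1 (by norm_num)).mul (Rel.refl hf hu)).congr (fun _ => one_mul _) fun _ => rfl

lemma Rel.conj {M N X : Z → B} (hM : Good α act M) (hN : Good α act N) (hX : Good α act X)
    (h : ∀ z, PI (M z) (N z)) (hl : ∀ z, N z * M z * X z = X z)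
    (hr : ∀ z, X z * (N z * M z) = X z) (hu : ∀ z, IsUnit (1 + X z)) :
    Rel α act (fun z => 1 + X z) (fun z => 1 + M z * X z * N z) :=
  (((Rel.rot hM hN h 1 (by norm_num)).mul (Rel.refl (Good.one.add hX) hu)).mul
    (Rel.rot hM hN h (-1) (by norm_num))).congr (fun _ => by simp)
    fun z => rot_conj (h z) (hl z) (hr z)

/-- the infinite amplification data -/
structure Amp (α : G → B ≃⋆ₐ[ℂ] B) (s t : B) (A : B → B) : Prop where
  fs : ∀ g, α g s = s
  ft : ∀ g, α g t = t
  ss : star s * s = 1
  tt : star t * t = 1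
  st : star s * t = 0
  cont : Continuous A
  eqv : ∀ g b, A (α g b) = α g (A b)
  unit : ∀ b, IsUnit (1 + b) → IsUnit (1 + A b)
  rec' : ∀ b, A b = s * b * star s + t * A b * star t

lemma swindle {s t : B} {A : B → B} (hA : Amp α s t A) {V z : Z → B} (hV : Good α act V)
    (hz : Good α act z) (hVV : ∀ x, star (V x) * V x = 1) (hzV : ∀ x, z x * V x = 0)
    (hVz : ∀ x, star (V x) * z x = 0) (hu : ∀ x, IsUnit (1 + z x)) :
    Rel α act (fun x => 1 + z x) (fun _ => 1) := by
  have hs : Good α act (fun _ => s) := Good.const hA.fs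
  have ht : Good α act (fun _ => t) := Good.const hA.ft
  have hAz : Good α act (fun x => A (z x)) :=
    ⟨hA.cont.comp hz.cont, fun g x => by rw [hz.eqv, hA.eqv]⟩
  have ts : star t * s = 0 := by simpa using congrArg star hA.st
  have ss' : ∀ y, star s * (s * y) = y := fun y => by rw [← mul_assoc, hA.ss, one_mul]
  have tt' : ∀ y, star t * (t * y) = y := fun y => by rw [← mul_assoc, hA.tt, one_mul]
  have st' : ∀ y, star s * (t * y) = 0 := fun y => by rw [← mul_assoc, hA.st, zero_mul]
  have ts' : ∀ y, star t * (s * y) = 0 := fun y => by rw [← mul_assoc, ts, zero_mul]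
  have VV' : ∀ x y, star (V x) * (V x * y) = y := fun x y => by rw [← mul_assoc, hVV, one_mul]
  have zV' : ∀ x y, z x * (V x * y) = 0 := fun x y => by rw [← mul_assoc, hzV, zero_mul]
  have Vz' : ∀ x y, star (V x) * (z x * y) = 0 := fun x y => by rw [← mul_assoc, hVz, zero_mul]
  have hc : ∀ x, IsUnit (1 + V x * s * A (z x) * (star s * star (V x))) := fun x =>
    unit_one_add_conj (by simp only [mul_assoc, VV', hA.ss]) (hA.unit _ (hu x))
  have gX : Good α act (fun x => V x * s * A (z x) * (star s * star (V x))) :=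
    ((hV.mul hs).mul hAz).mul (hs.star.mul hV.star)
  have r1 := Rel.conj (M := fun x => V x * t * star s * star (V x))
    (N := fun x => V x * s * star t * star (V x))
    (((hV.mul ht).mul hs.star).mul hV.star) (((hV.mul hs).mul ht.star).mul hV.star) gX
    (fun x => ⟨by simp only [mul_assoc, VV', ss', tt'], by simp only [mul_assoc, VV', ss', tt'],
      by simp only [mul_assoc, VV', st', mul_zero], by simp only [mul_assoc, VV', ts', mul_zero]⟩)
    (fun x => by simp only [mul_assoc, VV', ss', tt'])
    (fun x => by simp only [mul_assoc, VV', ss', tt']) hc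
  have hb : ∀ x, (1 + z x) * (1 + V x * s * A (z x) * (star s * star (V x))) =
      1 + (z x + V x * s * A (z x) * (star s * star (V x))) := fun x => by
    simp only [mul_add, add_mul, one_mul, mul_one, mul_assoc, zV']
    abel
  have r2 := Rel.conj
    (M := fun x => V x * t * (s * (1 - V x * star (V x)) + t * star s * star (V x)))
    (N := fun x => ((1 - V x * star (V x)) * star s + V x * s * star t) * star t * star (V x))
    (X := fun x => z x + V x * s * A (z x) * (star s * star (V x)))
    ((hV.mul ht).mul ((hs.mul (Good.one.sub (hV.mul hV.star))).add ((ht.mul hs.star).mul hV.star)))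
    (((((Good.one.sub (hV.mul hV.star)).mul hs.star).add ((hV.mul hs).mul ht.star)).mul
      ht.star).mul hV.star) (hz.add gX)
    (fun x => ⟨by
      simp only [mul_add, add_mul, mul_sub, sub_mul, one_mul, mul_one, mul_assoc, VV', ss', tt',
        st', ts', mul_zero, hA.ss, hA.tt, hA.st, ts, hVV]
      abel, by
      simp only [mul_add, add_mul, mul_sub, sub_mul, one_mul, mul_one, mul_assoc, VV', ss', tt',
        st', ts', mul_zero, hA.ss, hA.tt, hA.st, ts, hVV]
      abel, by
      simp only [mul_add, add_mul, mul_sub, sub_mul, one_mul, mul_one, mul_assoc, VV', ss', tt',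
        st', ts', mul_zero, hA.ss, hA.tt, hA.st, ts, hVV]
      abel, by
      simp only [mul_add, add_mul, mul_sub, sub_mul, one_mul, mul_one, mul_assoc, VV', ss', tt',
        st', ts', mul_zero, hA.ss, hA.tt, hA.st, ts, hVV]
      abel⟩)
    (fun x => by
      simp only [mul_add, add_mul, mul_sub, sub_mul, one_mul, mul_one, mul_assoc, VV', ss', tt',
        st', ts', mul_zero, hA.ss, hA.tt, hA.st, ts, hVV, hVz, Vz']
      abel)
    (fun x => by
      simp only [mul_add, add_mul, mul_sub, sub_mul, one_mul, mul_one, mul_assoc, VV', ss', tt',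
        st', ts', mul_zero, hA.ss, hA.tt, hA.st, ts, hVV, hzV, zV']
      abel)
    (fun x => hb x ▸ (hu x).mul (hc x))
  have r3 : Rel α act (fun x => (1 + z x) * (1 + V x * s * A (z x) * (star s * star (V x))))
      (fun x => 1 + V x * s * A (z x) * (star s * star (V x))) := by
    refine (r2.congr (fun x => (hb x).symm) fun x => ?_).trans r1.symm
    have e := hA.rec' (z x)
    have e2 : V x * (t * (A (z x) * (star t * star (V x)))) =
        V x * (t * ((s * z x * star s + t * A (z x) * star t) * (star t * star (V x)))) := by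
      rw [← e]
    simp only [mul_assoc, VV', ss']
    rw [e2]
    simp only [mul_add, add_mul, mul_sub, sub_mul, one_mul, mul_one, mul_assoc, VV', ss', tt',
      st', ts', mul_zero, hA.ss, hA.tt, hA.st, ts, hVV, hVz, Vz', zV']
    abel
  have gc := Good.one.add gX
  refine (r3.mul (Rel.refl (gc.inv hc) fun x => (hc x).ringInverse)).congr (fun x => ?_) fun x => ?_
  · rw [mul_assoc, Ring.mul_inverse_cancel _ (hc x), mul_one]
  · rw [Ring.mul_inverse_cancel _ (hc x)]

lemma rot_apply {M N a w : B} (h1 : N * (M * a) = a) (h2 : N * a = 0) (h3 : M * a = w) :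
    EqK.rot M N 0 1 * a = w := by
  unfold EqK.rot
  simp only [add_mul, one_mul, smul_mul_assoc, sub_mul, mul_assoc, h1, h2, mul_zero]
  rw [h3]
  module

lemma norm_iso [Nontrivial B] {V : B} (h : star V * V = 1) : ‖V‖ = 1 := by
  have := CStarRing.norm_star_mul_self (x := V)
  rw [h, norm_one] at this
  nlinarith [norm_nonneg V]

lemma step_fix {s t : B} {A : B → B} (hA : Amp α s t A) {T V : Z → B}
    (hT : Good α act T) (hV : Good α act V) (hu : ∀ x, IsUnit (T x))
    (hVV : ∀ x, star (V x) * V x = 1) (hf : ∀ x, T x * V x = V x) : Rel α act T (fun _ => 1) := by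
  have VV' : ∀ x y, star (V x) * (V x * y) = y := fun x y => by rw [← mul_assoc, hVV, one_mul]
  have hf' : ∀ x y, T x * (V x * y) = V x * y := fun x y => by rw [← mul_assoc, hf]
  have r1 := Rel.line (k := fun x => -(V x * star (V x) * T x * (1 - V x * star (V x)))) hT
    (((hV.mul hV.star).mul hT).mul (Good.one.sub (hV.mul hV.star))).neg (fun c x h0 h1 => by
      have e : T x + c • -(V x * star (V x) * T x * (1 - V x * star (V x))) =
          T x * (1 - c • (V x * star (V x) * T x * (1 - V x * star (V x)))) := by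
        rw [mul_sub (T x) 1, mul_one, mul_smul_comm, smul_neg, ← sub_eq_add_neg]
        simp only [mul_assoc, hf']
      have hN : (V x * star (V x) * T x * (1 - V x * star (V x))) *
          (V x * star (V x) * T x * (1 - V x * star (V x))) = 0 := by
        simp only [mul_sub, sub_mul, one_mul, mul_one, mul_assoc, VV']
        abel
      rw [e]
      generalize V x * star (V x) * T x * (1 - V x * star (V x)) = N at hN
      refine (hu x).mul ⟨⟨_, 1 + c • N, ?_, ?_⟩, rfl⟩
      · simp [mul_add, sub_mul, hN]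
      · simp [mul_sub, add_mul, hN])
  obtain ⟨g1, u1⟩ := r1.right
  refine r1.trans ((swindle hA hV (g1.sub Good.one) hVV (fun x => ?_) (fun x => ?_)
    (fun x => ?_)).congr (fun x => ?_) fun _ => rfl)
  · simp only [mul_sub, sub_mul, add_mul, neg_mul, one_mul, mul_one, mul_assoc, hVV, hf]
    abel
  · simp only [mul_sub, mul_add, mul_neg, mul_one, mul_assoc, VV', hf']
    abel
  · rw [add_sub_cancel]; exact u1 x
  · rw [add_sub_cancel]

lemma step_rot2 {s t : B} {A : B → B} (hA : Amp α s t A) {T V W : Z → B}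
    (hT : Good α act T) (hV : Good α act V) (hW : Good α act W) (hu : ∀ x, IsUnit (T x))
    (hVV : ∀ x, star (V x) * V x = 1) (hWW : ∀ x, star (W x) * W x = 1)
    (hWV : ∀ x, star (W x) * V x = 0) (hf : ∀ x, T x * V x = W x) :
    Rel α act T (fun _ => 1) := by
  have hVW : ∀ x, star (V x) * W x = 0 := fun x => by simpa using congrArg star (hWV x)
  have VV' : ∀ x y, star (V x) * (V x * y) = y := fun x y => by rw [← mul_assoc, hVV, one_mul]
  have WW' : ∀ x y, star (W x) * (W x * y) = y := fun x y => by rw [← mul_assoc, hWW, one_mul]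
  have VW' : ∀ x y, star (V x) * (W x * y) = 0 := fun x y => by rw [← mul_assoc, hVW, zero_mul]
  have WV' : ∀ x y, star (W x) * (V x * y) = 0 := fun x y => by rw [← mul_assoc, hWV, zero_mul]
  have r := Rel.lrot (M := fun x => V x * star (W x)) (N := fun x => W x * star (V x))
    (hV.mul hW.star) (hW.mul hV.star) (fun x => ⟨by simp only [mul_assoc, VV', WW'],
      by simp only [mul_assoc, VV', WW'], by simp only [mul_assoc, WV', mul_zero],
      by simp only [mul_assoc, VW', mul_zero]⟩) hT hu
  obtain ⟨g1, u1⟩ := r.right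
  refine r.trans (step_fix hA g1 hV u1 hVV fun x => ?_)
  rw [mul_assoc, hf]
  exact rot_apply (by simp only [mul_assoc, VV', hWW, hVV, mul_one])
    (by simp only [mul_assoc, hVW, mul_zero]) (by simp only [mul_assoc, hWW, mul_one])

lemma step_rot1 {s t : B} {A : B → B} (hA : Amp α s t A) {T V W : Z → B}
    (hT : Good α act T) (hV : Good α act V) (hW : Good α act W) (hu : ∀ x, IsUnit (T x))
    (hVV : ∀ x, star (V x) * V x = 1) (hWW : ∀ x, star (W x) * W x = 1)
    (hWV : ∀ x, star (W x) * V x = 0) (a1 : ∀ x, star (W x) * (T x * V x) = 0) :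
    Rel α act T (fun _ => 1) := by
  have VV' : ∀ x y, star (V x) * (V x * y) = y := fun x y => by rw [← mul_assoc, hVV, one_mul]
  have WW' : ∀ x y, star (W x) * (W x * y) = y := fun x y => by rw [← mul_assoc, hWW, one_mul]
  have a1' : ∀ x y, star (W x) * (T x * (V x * y)) = 0 := fun x y => by
    rw [← mul_assoc (T x), ← mul_assoc, a1, zero_mul]
  have i1 : ∀ x y, Ring.inverse (T x) * (T x * y) = y := fun x y => by
    rw [← mul_assoc, Ring.inverse_mul_cancel _ (hu x), one_mul]
  have r := Rel.lrot
    (M := fun x => W x * (star (V x) * Ring.inverse (T x) * (1 - W x * star (W x))))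
    (N := fun x => T x * V x * star (W x))
    (hW.mul ((hV.star.mul (hT.inv hu)).mul (Good.one.sub (hW.mul hW.star))))
    ((hT.mul hV).mul hW.star) (fun x => ⟨by
      simp only [mul_sub, sub_mul, one_mul, mul_one, mul_assoc, WW', a1', i1, VV', mul_zero,
        sub_zero], by
      simp only [mul_sub, sub_mul, one_mul, mul_one, mul_assoc, WW', a1', i1, VV', mul_zero,
        sub_zero], by
      simp only [mul_sub, sub_mul, one_mul, mul_one, mul_assoc, WW', a1', i1, VV', mul_zero,
        sub_zero]
      abel, by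
      simp only [mul_assoc, a1', mul_zero]⟩) hT hu
  obtain ⟨g1, u1⟩ := r.right
  refine r.trans (step_rot2 hA g1 hV hW u1 hVV hWW hWV fun x => ?_)
  rw [mul_assoc]
  refine rot_apply ?_ ?_ ?_
  · simp only [mul_sub, sub_mul, one_mul, mul_one, mul_assoc, WW', a1, i1, hVV, mul_zero,
      sub_zero, hWW]
  · simp only [mul_assoc, a1, mul_zero]
  · simp only [mul_sub, sub_mul, one_mul, mul_one, mul_assoc, WW', a1, i1, hVV, mul_zero,
      sub_zero]

theorem null_of [Nontrivial B] {s t : B} {A : B → B} (hA : Amp α s t A) {T V W : Z → B}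
    (hT : Good α act T) (hV : Good α act V) (hW : Good α act W) (hTu : ∀ x, T x ∈ unitary B)
    (hVV : ∀ x, star (V x) * V x = 1) (hWW : ∀ x, star (W x) * W x = 1)
    (hWV : ∀ x, star (W x) * V x = 0) (hn : ∀ x, ‖star (W x) * T x * V x‖ < 1) :
    Rel α act T (fun _ => 1) := by
  have WW' : ∀ x y, star (W x) * (W x * y) = y := fun x y => by rw [← mul_assoc, hWW, one_mul]
  have r1 := Rel.line (k := fun x => -(W x * (star (W x) * T x * V x) * star (V x))) hT
    ((hW.mul ((hW.star.mul hT).mul hV)).mul hV.star).neg (fun c x h0 h1 => by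
      have e : T x + c • -(W x * (star (W x) * T x * V x) * star (V x)) =
          T x * (1 - c • (star (T x) * (W x * (star (W x) * T x * V x) * star (V x)))) := by
        rw [mul_sub, mul_one, mul_smul_comm, ← mul_assoc (T x) (star (T x)),
          (Unitary.mem_iff.1 (hTu x)).2, one_mul, smul_neg, sub_eq_add_neg]
      rw [e]
      refine (Unitary.toUnits ⟨T x, hTu x⟩).isUnit.mul (isUnit_one_sub_of_norm_lt_one ?_)
      rw [norm_smul, Real.norm_of_nonneg h0]
      have n1 : ‖star (T x)‖ = 1 := by
        rw [norm_star]; exact norm_iso (Unitary.mem_iff.1 (hTu x)).1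
      have n2 := norm_mul_le (star (T x)) (W x * (star (W x) * T x * V x) * star (V x))
      have n3 := norm_mul_le (W x * (star (W x) * T x * V x)) (star (V x))
      have n4 := norm_mul_le (W x) (star (W x) * T x * V x)
      rw [n1, one_mul] at n2
      rw [norm_star, norm_iso (hVV x), mul_one] at n3
      rw [norm_iso (hWW x), one_mul] at n4
      have n5 := hn x
      exact (mul_le_of_le_one_left (norm_nonneg _) h1).trans_lt (by linarith))
  obtain ⟨g1, u1⟩ := r1.right
  refine r1.trans (step_rot1 hA g1 hV hW u1 hVV hWW hWV fun x => ?_)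
  simp only [add_mul, mul_add, neg_mul, mul_neg, mul_assoc, hVV, WW', mul_one]
  abel

variable [PartialOrder B] [StarOrderedRing B]

theorem polar {T : Z → B} (hTu : ∀ x, T x ∈ unitary B) (h : Rel α act T (fun _ => 1)) :
    ∃ h : I × Z → B, Good α (cyl act) h ∧ (∀ p, h p ∈ unitary B) ∧ (∀ z, h (0, z) = T z) ∧
      ∀ z, h (1, z) = 1 := by
  obtain ⟨h, hg, hu, h0, h1⟩ := h
  have hs : Good α (cyl act) (fun p => CFC.sqrt (star (h p) * h p)) := by
    refine ⟨CFC.continuousOn_sqrt.comp_continuous (hg.star.mul hg).cont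
      fun p => star_mul_self_nonneg _, fun g p => ?_⟩
    refine CFC.sqrt_unique ?_ ?_
    · rw [← map_mul, CFC.sqrt_mul_sqrt_self _ (star_mul_self_nonneg _), hg.eqv, map_mul, map_star]
    · have hn := CFC.sqrt_nonneg (star (h p) * h p)
      generalize CFC.sqrt (star (h p) * h p) = a at hn
      have : a = star (CFC.sqrt a) * CFC.sqrt a := by
        rw [(IsSelfAdjoint.of_nonneg (CFC.sqrt_nonneg a)).star_eq, CFC.sqrt_mul_sqrt_self _ hn]
      rw [this, map_mul, map_star]
      exact star_mul_self_nonneg _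
  have su : ∀ p, IsUnit (CFC.sqrt (star (h p) * h p)) := fun p =>
    (CFC.isUnit_sqrt_iff _ (star_mul_self_nonneg _)).2 ((hu p).star.mul (hu p))
  refine ⟨fun p => h p * Ring.inverse (CFC.sqrt (star (h p) * h p)), hg.mul (hs.inv su),
    fun p => ?_, fun z => ?_, fun z => ?_⟩
  · refine ((hu p).mul (su p).ringInverse).mem_unitary_of_star_mul_self ?_
    have e := CFC.sqrt_mul_sqrt_self _ (star_mul_self_nonneg (h p))
    have sa : IsSelfAdjoint (Ring.inverse (CFC.sqrt (star (h p) * h p))) :=
      (IsSelfAdjoint.of_nonneg (CFC.sqrt_nonneg _)).ringInverse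
    have hu' := su p
    rw [star_mul, sa.star_eq, mul_assoc, ← mul_assoc (star (h p))]
    generalize CFC.sqrt (star (h p) * h p) = r at e hu'
    rw [← e, mul_assoc, Ring.mul_inverse_cancel _ hu', mul_one, Ring.inverse_mul_cancel _ hu']
  · simp only [h0, (Unitary.mem_iff.1 (hTu z)).1, CFC.sqrt_one, Ring.inverse_one, mul_one]
  · simp only [h1, star_one, mul_one, CFC.sqrt_one, Ring.inverse_one]

end Pool.Agent.H85.EqK
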