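import Pool.Agent.H85.EqK1

/-! Equivariant Kuiper theorem, Hilbert space part: strong sums, amplification, Peter-Weyl. -/

namespace Pool.Agent.H85.EqK

set_option linter.unusedSectionVars false
set_option linter.unusedVariables false
set_option linter.unusedSimpArgs false

open Set Filter Topology MeasureTheory
open scoped InnerProductSpace

variable {H : Type*} [NormedAddCommGroup H] [InnerProductSpace ℂ H] [CompleteSpace H]

lemma inner_eq_zero_of {a b : H →L[ℂ] H} (h : star a * b = 0) (x y : H) : ⟪a x, b y⟫_ℂ = 0 := by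
  rw [← ContinuousLinearMap.adjoint_inner_right, ← ContinuousLinearMap.star_eq_adjoint,
    ← mul_apply_eq_comp, h]
  simp

lemma orthFam {a : ℕ → H →L[ℂ] H} (ha : ∀ k l, k ≠ l → star (a k) * a l = 0) :
    OrthogonalFamily ℂ (fun k => (a k).range) (fun k => (a k).range.subtypeₗᵢ) := by
  rintro k l hkl ⟨_, x, rfl⟩ ⟨_, y, rfl⟩
  exact inner_eq_zero_of (ha k l hkl) x y

lemma norm_sum_sq {a : ℕ → H →L[ℂ] H} (ha : ∀ k l, k ≠ l → star (a k) * a l = 0) (x : H)
    (F : Finset ℕ) : ‖∑ k ∈ F, a k x‖ ^ 2 = ∑ k ∈ F, ‖a k x‖ ^ 2 :=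
  (orthFam ha).norm_sum (fun k => ⟨a k x, x, rfl⟩) F

lemma ssum {a : ℕ → H →L[ℂ] H} (ha : ∀ k l, k ≠ l → star (a k) * a l = 0) {C : ℝ} (hC : 0 ≤ C)
    (hb : ∀ x (F : Finset ℕ), ∑ k ∈ F, ‖a k x‖ ^ 2 ≤ (C * ‖x‖) ^ 2) :
    ∃ b : H →L[ℂ] H, ‖b‖ ≤ C ∧ ∀ x, HasSum (fun k => a k x) (b x) := by
  have hs : ∀ x, Summable (fun k => a k x) := fun x =>
    ((orthFam ha).summable_iff_norm_sq_summable (fun k => ⟨a k x, x, rfl⟩)).2
      (summable_of_sum_le (fun _ => sq_nonneg _) (hb x))
  let L : H →ₗ[ℂ] H :=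
    { toFun := fun x => ∑' k, a k x
      map_add' := fun x y => by simp only [map_add]; exact (hs x).tsum_add (hs y)
      map_smul' := fun c x => by simp only [map_smul]; exact (hs x).tsum_const_smul c }
  have hL : ∀ x, ‖L x‖ ≤ C * ‖x‖ := fun x => by
    refine le_of_tendsto' (hs x).hasSum.norm fun F => ?_
    exact (pow_le_pow_iff_left₀ (norm_nonneg _) (by positivity) two_ne_zero).1
      ((norm_sum_sq ha x F).trans_le (hb x F))
  exact ⟨L.mkContinuous C hL, L.mkContinuous_norm_le hC hL, fun x => (hs x).hasSum⟩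

lemma bessel {e : ℕ → H →L[ℂ] H} (h1 : ∀ k, star (e k) * e k = e k)
    (ha : ∀ k l, k ≠ l → star (e k) * e l = 0) (x : H) (F : Finset ℕ) :
    ∑ k ∈ F, ‖e k x‖ ^ 2 ≤ ‖x‖ ^ 2 := by
  have hsa : ∀ k, star (e k) = e k := fun k => by rw [← h1 k, star_mul, star_star]
  have hP : IsStarProjection (∑ k ∈ F, e k) := by
    refine ⟨?_, ?_⟩
    · unfold IsIdempotentElem
      rw [Finset.sum_mul_sum]
      refine Finset.sum_congr rfl fun k hk => ?_
      rw [Finset.sum_eq_single k (fun l _ hl => by rw [← hsa k]; exact ha k l hl.symm)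
        (fun h => absurd hk h)]
      nth_rewrite 1 [← hsa k]
      exact h1 k
    · unfold IsSelfAdjoint
      rw [star_sum]
      exact Finset.sum_congr rfl fun k _ => hsa k
  rw [← norm_sum_sq ha]
  have := (∑ k ∈ F, e k).le_of_opNorm_le (hP.norm_le _) x
  rw [one_mul, sum_apply] at this
  exact pow_le_pow_left₀ (norm_nonneg _) this 2

lemma norm_iso_apply {c : H →L[ℂ] H} (h : star c * c = 1) (x : H) : ‖c x‖ = ‖x‖ := by
  have : ⟪c x, c x⟫_ℂ = ⟪x, x⟫_ℂ := by
    rw [← ContinuousLinearMap.adjoint_inner_right, ← ContinuousLinearMap.star_eq_adjoint,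
      ← mul_apply_eq_comp, h]
    simp
  rw [norm_eq_sqrt_re_inner (𝕜 := ℂ), this, ← norm_eq_sqrt_re_inner]

section shift
variable {s t : H →L[ℂ] H} (ss : star s * s = 1) (tt : star t * t = 1) (st : star s * t = 0)
include ss tt st

lemma sn_self (n : ℕ) : star (t ^ n * s) * (t ^ n * s) = 1 := by
  induction n with
  | zero => simpa using ss
  | succ n ih =>
    rw [pow_succ', mul_assoc, star_mul t, mul_assoc, ← mul_assoc (star t), tt, one_mul, ih]

lemma sn_ne (n m : ℕ) (h : n ≠ m) : star (t ^ n * s) * (t ^ m * s) = 0 := by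
  induction n generalizing m with
  | zero =>
    obtain ⟨m, rfl⟩ := Nat.exists_eq_succ_of_ne_zero h.symm
    rw [pow_zero, one_mul, pow_succ', mul_assoc, ← mul_assoc, st, zero_mul]
  | succ n ih =>
    cases m with
    | zero =>
      have ts : star t * s = 0 := by simpa using congrArg star st
      rw [pow_zero, one_mul, pow_succ', mul_assoc, star_mul t, mul_assoc, ts, mul_zero]
    | succ m =>
      rw [pow_succ', pow_succ', mul_assoc, mul_assoc, star_mul t, mul_assoc, ← mul_assoc (star t),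
        tt, one_mul, ih m (by omega)]

lemma ex_amp (z : H →L[ℂ] H) : ∃ b : H →L[ℂ] H, ‖b‖ ≤ ‖z‖ ∧
    ∀ x, HasSum (fun n => (t ^ n * s * z * star (t ^ n * s)) x) (b x) := by
  refine ssum (fun k l hkl => ?_) (norm_nonneg z) fun x F => ?_
  · rw [star_mul, star_mul _ z, mul_assoc, mul_assoc, mul_assoc (t ^ l * s), ← mul_assoc (star _)
      (t ^ l * s), sn_ne ss tt st k l hkl]
    simp
  · have hb := bessel (e := fun n => t ^ n * s * star (t ^ n * s)) (fun k => by
      rw [star_mul (t ^ k * s), star_star, mul_assoc, ← mul_assoc (star _), sn_self ss tt st,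
        one_mul]) (fun k l hkl => by
      rw [star_mul (t ^ k * s), star_star, mul_assoc, ← mul_assoc (star _), sn_ne ss tt st k l hkl]
      simp) x F
    rw [mul_pow]
    refine le_trans ?_ (mul_le_mul_of_nonneg_left hb (sq_nonneg _))
    rw [Finset.mul_sum]
    refine Finset.sum_le_sum fun n _ => ?_
    rw [← mul_pow]
    refine pow_le_pow_left₀ (norm_nonneg _) ?_ 2
    rw [mul_assoc (t ^ n * s), mul_apply_eq_comp (t ^ n * s), mul_apply_eq_comp (t ^ n * s),
      norm_iso_apply (sn_self ss tt st n), norm_iso_apply (sn_self ss tt st n), mul_apply_eq_comp]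
    exact z.le_opNorm _

theorem exists_amp {G : Type*} (u : G → unitary (H →L[ℂ] H))
    (hs : ∀ g, (u g : H →L[ℂ] H) * s = s * u g) (ht : ∀ g, (u g : H →L[ℂ] H) * t = t * u g) :
    ∃ A, Amp (fun g => Unitary.conjStarAlgAut ℂ (H →L[ℂ] H) (u g)) s t A := by
  choose A hA1 hA using ex_amp ss tt st
  have fix : ∀ g (c : H →L[ℂ] H), (u g : H →L[ℂ] H) * c = c * u g →
      Unitary.conjStarAlgAut ℂ (H →L[ℂ] H) (u g) c = c := fun g c h => by
    rw [Unitary.conjStarAlgAut_apply, h, mul_assoc, Unitary.mul_star_self_of_mem (u g).2, mul_one]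
  have hsub : ∀ y z, A y - A z = A (y - z) := fun y z => by
    ext x
    refine ((hA y x).sub (hA z x)).unique ((hA (y - z) x).congr_fun fun n => ?_)
    simp [mul_sub, sub_mul]
  have hadd : ∀ y z, A y + A z = A (y + z) := fun y z => by
    ext x
    refine ((hA y x).add (hA z x)).unique ((hA (y + z) x).congr_fun fun n => ?_)
    simp [mul_add, add_mul]
  have hsn : ∀ z m, A z * (t ^ m * s) = t ^ m * s * z := fun z m => by
    ext x
    refine (hA z ((t ^ m * s) x)).unique ?_
    have := hasSum_single (f := fun n => (t ^ n * s * z * star (t ^ n * s)) ((t ^ m * s) x)) m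
      (fun n hn => by
        rw [← mul_apply_eq_comp, mul_assoc (t ^ n * s * z), sn_ne ss tt st n m hn]; simp)
    rw [← mul_apply_eq_comp _ (t ^ m * s), mul_assoc (t ^ m * s * z), sn_self ss tt st,
      mul_one] at this
    exact this
  have hmul : ∀ y z, A y * A z = A (y * z) := fun y z => by
    ext x
    refine ((hA z x).mapL (A y)).unique ((hA (y * z) x).congr_fun fun n => ?_)
    rw [← mul_apply_eq_comp (A y), mul_assoc (t ^ n * s) z, ← mul_assoc (A y), hsn]
    simp only [mul_assoc]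
  have h0 : A 0 = 0 := by simpa using (hsub 0 0).symm
  refine ⟨A, fun g => fix g s (hs g), fun g => fix g t (ht g), ss, tt, st, ?_, fun g b => ?_,
    fun b hb => ?_, fun b => ?_⟩
  · refine (LipschitzWith.of_dist_le_mul (K := 1) fun y z => ?_).continuous
    rw [dist_eq_norm, dist_eq_norm, hsub, NNReal.coe_one, one_mul]
    exact hA1 _
  · ext x
    have hc : ∀ n, Unitary.conjStarAlgAut ℂ (H →L[ℂ] H) (u g) (t ^ n * s) = t ^ n * s := fun n => by
      rw [map_mul, map_pow, fix g s (hs g), fix g t (ht g)]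
    refine (hA _ x).unique (((hA b (star (u g : H →L[ℂ] H) x)).mapL
      (u g : H →L[ℂ] H)).congr_fun fun n => ?_)
    change _ = Unitary.conjStarAlgAut ℂ (H →L[ℂ] H) (u g) (t ^ n * s * b * star (t ^ n * s)) x
    rw [map_mul, map_mul _ (t ^ n * s), map_star, hc]
  · obtain ⟨v, hv⟩ := hb
    have key : ∀ a c : H →L[ℂ] H, (1 + a) * (1 + c) = 1 → (1 + A a) * (1 + A c) = 1 := by
      intro a c hac
      have h2 : ∀ a c : H →L[ℂ] H, (1 + a) * (1 + c) = 1 + (a + c + a * c) := fun a c => by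
        noncomm_ring
      rw [h2, add_eq_left] at hac
      rw [h2, hmul, hadd, hadd, hac, h0, add_zero]
    refine ⟨⟨_, 1 + A ((v⁻¹ : (H →L[ℂ] H)ˣ) - 1), key _ _ ?_, key _ _ ?_⟩, rfl⟩
    · rw [← hv]; simp
    · rw [← hv]; simp
  · ext x
    refine (hA b x).unique ?_
    have := ((hA b (star t x)).mapL t)
    rw [← hasSum_nat_add_iff' 1]
    simp only [Finset.range_one, Finset.sum_singleton, pow_zero, one_mul,
      add_apply, add_sub_cancel_left]
    refine this.congr_fun fun n => ?_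
    rw [pow_succ', mul_assoc t, star_mul t]
    simp [mul_assoc]

end shift

end Pool.Agent.H85.EqK
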