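import Pool.Agent.H85.EqK2

/-! Equivariant Kuiper theorem: Peter-Weyl decomposition and invariant isometries in general
position. -/

namespace Pool.Agent.H85.EqK

set_option linter.unusedSectionVars false
set_option linter.unusedVariables false
set_option linter.unusedSimpArgs false

open Set Filter Topology MeasureTheory
open scoped InnerProductSpace

variable {H : Type*} [NormedAddCommGroup H] [InnerProductSpace ℂ H] [CompleteSpace H]
variable {G : Type*} [Group G] (u : G →* unitary (H →L[ℂ] H))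

lemma u_inv (g : G) : (u g⁻¹ : H →L[ℂ] H) = star (u g : H →L[ℂ] H) := by
  rw [map_inv]; rfl

lemma u_adj (g : G) (v w : H) : ⟪(u g : H →L[ℂ] H) v, w⟫_ℂ = ⟪v, (u g⁻¹ : H →L[ℂ] H) w⟫_ℂ := by
  rw [u_inv, ContinuousLinearMap.star_eq_adjoint, ContinuousLinearMap.adjoint_inner_right]

def Inv (F : Submodule ℂ H) : Prop := ∀ g, ∀ v ∈ F, (u g : H →L[ℂ] H) v ∈ F

lemma pw [TopologicalSpace G] [IsTopologicalGroup G] [CompactSpace G]
    [SecondCountableTopology G] (hu : ∀ v, Continuous fun g => (u g : H →L[ℂ] H) v) (ξ : H)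
    (hξ : ∀ F : Submodule ℂ H, FiniteDimensional ℂ F → Inv u F → ∀ v ∈ F, ⟪ξ, v⟫_ℂ = 0) :
    ξ = 0 := by
  borelize G
  let μ : Measure G := Measure.haarMeasure ⊤
  have : IsProbabilityMeasure μ := ⟨Measure.haarMeasure_self⟩
  let f : G → H →L[ℂ] H := fun g =>
    InnerProductSpace.rankOne ℂ ((u g : H →L[ℂ] H) ξ) ((u g : H →L[ℂ] H) ξ)
  have hf : Continuous f :=
    ((ContinuousLinearMap.smulRightL ℂ H H).continuous.comp
      ((innerSL ℂ (E := H)).continuous.comp (hu ξ))).clm_apply (hu ξ)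
  have hfi : Integrable f μ := hf.integrable_of_hasCompactSupport (HasCompactSupport.of_compactSpace f)
  set K : H →L[ℂ] H := ∫ g, f g ∂μ
  have hK : IsCompactOperator K := by
    have hc : Convex ℝ {T : H →L[ℂ] H | IsCompactOperator T} :=
      ((compactOperator (RingHom.id ℂ) H H).restrictScalars ℝ).convex
    refine hc.integral_mem isClosed_setOfPred_isCompactOperator (Eventually.of_forall fun g => ?_) hfi
    change IsCompactOperator (f g)
    simp only [f, InnerProductSpace.rankOne_def']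
    exact (isCompactOperator_of_locallyCompactSpace_rng
      (ContinuousLinearMap.toSpanSingleton ℂ ((u g : H →L[ℂ] H) ξ))).comp_clm
      (innerSL ℂ ((u g : H →L[ℂ] H) ξ))
  have hKa : ∀ v w, ⟪w, K v⟫_ℂ = ∫ g, ⟪(u g : H →L[ℂ] H) ξ, v⟫_ℂ * ⟪w, (u g : H →L[ℂ] H) ξ⟫_ℂ ∂μ := by
    intro v w
    rw [ContinuousLinearMap.integral_apply hfi, ← integral_inner (hfi.apply_continuousLinearMap v)]
    simp [f, inner_smul_right]
  have hKs : (K : H →ₗ[ℂ] H).IsSymmetric := fun v w => by
    change ⟪K v, w⟫_ℂ = ⟪v, K w⟫_ℂ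
    rw [← inner_conj_symm, hKa, hKa, ← integral_conj]
    simp [mul_comm]
  have hKu : ∀ h v, (u h : H →L[ℂ] H) (K v) = K ((u h : H →L[ℂ] H) v) := fun h v => by
    apply ext_inner_left ℂ
    intro w
    rw [← inner_conj_symm, u_adj, inner_conj_symm, hKa, hKa,
      ← integral_mul_left_eq_self (μ := μ) _ h⁻¹]
    congr 1
    ext g
    have e : (u (h⁻¹ * g) : H →L[ℂ] H) ξ = (u h⁻¹ : H →L[ℂ] H) ((u g : H →L[ℂ] H) ξ) := by
      rw [map_mul]; rfl
    rw [e, u_adj u h⁻¹, inv_inv, u_adj u h⁻¹, inv_inv, ← mul_apply_eq_comp (u h : H →L[ℂ] H),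
      u_inv, Unitary.mul_star_self_of_mem (u h).2]
    rfl
  have hK0 : K = 0 := by
    rw [← ContinuousLinearMap.eq_zero_of_forall_hasEigenvalue_eq_zero hK hKs]
    intro c hc
    by_contra hc0
    obtain ⟨v, hv⟩ := hc.exists_hasEigenvector
    have hinv : Inv u (Module.End.eigenspace (K : H →ₗ[ℂ] H) c) := fun g w hw => by
      rw [Module.End.mem_eigenspace_iff] at hw ⊢
      change K _ = _
      change K w = _ at hw
      rw [← hKu, hw, map_smul]
    have h1 := hKa v v
    have h2 : K v = c • v := hv.apply_eq_smul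
    have h3 : ∀ g, ⟪(u g : H →L[ℂ] H) ξ, v⟫_ℂ = 0 := fun g => by
      rw [u_adj]
      exact hξ _ (ContinuousLinearMap.finite_dimensional_eigenspace hK c hc0) hinv _
        (hinv _ _ hv.1)
    simp only [h3, zero_mul, integral_zero, h2, inner_smul_right, mul_eq_zero, hc0, false_or,
      inner_self_eq_zero] at h1
    exact hv.2 h1
  have h1 := hKa ξ ξ
  rw [hK0] at h1
  have h2 : ∫ g, ‖⟪ξ, (u g : H →L[ℂ] H) ξ⟫_ℂ‖ ^ 2 ∂μ = 0 := by
    have : ∀ g, ⟪(u g : H →L[ℂ] H) ξ, ξ⟫_ℂ * ⟪ξ, (u g : H →L[ℂ] H) ξ⟫_ℂ =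
        ((‖⟪ξ, (u g : H →L[ℂ] H) ξ⟫_ℂ‖ ^ 2 : ℝ) : ℂ) := fun g => by
      rw [← inner_conj_symm, Complex.conj_mul']; simp
    simp only [this, integral_complex_ofReal, zero_apply, inner_zero_right] at h1
    exact_mod_cast h1.symm
  have hc : Continuous fun g => ‖⟪ξ, (u g : H →L[ℂ] H) ξ⟫_ℂ‖ ^ 2 :=
    (continuous_const.inner (hu ξ)).norm.pow 2
  by_contra hne
  refine (hc.integral_pos_of_hasCompactSupport_nonneg_nonzero (μ := μ) (x := 1)
    (HasCompactSupport.of_compactSpace _) (fun _ => sq_nonneg _) ?_).ne' h2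
  simpa using hne

lemma comm_proj {F : Submodule ℂ H} [F.HasOrthogonalProjection] (hF : Inv u F) (g : G) :
    (u g : H →L[ℂ] H) * F.starProjection = F.starProjection * u g := by
  have key : ∀ g, F.starProjection * (u g * F.starProjection) = u g * F.starProjection := fun g => by
    ext x
    exact Submodule.starProjection_eq_self_iff.2 (hF g _ (F.starProjection_apply_mem x))
  have h2 := congrArg star (key g⁻¹)
  have hsa : star F.starProjection = F.starProjection := isStarProjection_starProjection.2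
  simp only [star_mul, hsa, u_inv, star_star] at h2
  rw [← key g, ← h2, mul_assoc]

structure Dec (p : ℕ → H →L[ℂ] H) : Prop where
  proj : ∀ k, star (p k) * p k = p k
  orth : ∀ k l, k ≠ l → star (p k) * p l = 0
  comm : ∀ g k, (u g : H →L[ℂ] H) * p k = p k * u g
  fin : ∀ k, FiniteDimensional ℂ (p k).range
  sum : ∀ x, HasSum (fun k => p k x) x

theorem exists_dec [TopologicalSpace G] [IsTopologicalGroup G] [CompactSpace G]
    [SecondCountableTopology G] [TopologicalSpace.SeparableSpace H]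
    (hu : ∀ v, Continuous fun g => (u g : H →L[ℂ] H) v) : ∃ p, Dec u p := by
  let W : Submodule ℂ H :=
    { carrier := {v | ∃ F : Submodule ℂ H, FiniteDimensional ℂ F ∧ Inv u F ∧ v ∈ F}
      zero_mem' := ⟨⊥, inferInstance, fun g v hv => by simp [(Submodule.mem_bot ℂ).1 hv], zero_mem _⟩
      add_mem' := by
        rintro a b ⟨F, h1, h2, h3⟩ ⟨F', h1', h2', h3'⟩
        refine ⟨F ⊔ F', inferInstance, fun g v hv => ?_, Submodule.add_mem_sup h3 h3'⟩
        obtain ⟨x, hx, y, hy, rfl⟩ := Submodule.mem_sup.1 hv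
        rw [map_add]
        exact Submodule.add_mem_sup (h2 g x hx) (h2' g y hy)
      smul_mem' := by
        rintro c a ⟨F, h1, h2, h3⟩
        exact ⟨F, h1, h2, F.smul_mem c h3⟩ }
  have hW : W.topologicalClosure = ⊤ := by
    rw [Submodule.topologicalClosure_eq_top_iff, eq_bot_iff]
    intro ξ hξ
    exact pw u hu ξ fun F h1 h2 v hv => Submodule.inner_left_of_mem_orthogonal (K := W) ⟨F, h1, h2, hv⟩ hξ
  have hd : Dense (W : Set H) := Submodule.dense_iff_topologicalClosure_eq_top.2 hW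
  obtain ⟨D, hDW, hDc, hDd⟩ := hd.exists_countable_dense_subset
  obtain ⟨y, hy⟩ := hDc.exists_eq_range hDd.nonempty
  choose F0 hF1 hF2 hF3 using fun n => hDW (show y n ∈ D from hy ▸ mem_range_self n)
  let F : ℕ → Submodule ℂ H := fun n => (Finset.range n).sup F0
  have hs : ∀ n, F (n + 1) = F0 n ⊔ F n := fun n => by
    simp only [F, Finset.range_add_one, Finset.sup_insert]
  have hfin : ∀ n, FiniteDimensional ℂ (F n) := fun n =>
    Submodule.finiteDimensional_finset_sup _ _
  have hinv : ∀ n, Inv u (F n) := by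
    intro n
    induction n with
    | zero => intro g v hv; simp only [F, Finset.range_zero, Finset.sup_empty] at hv ⊢; simp [(Submodule.mem_bot ℂ).1 hv]
    | succ n ih =>
      intro g v hv
      rw [hs] at hv ⊢
      obtain ⟨a, ha, b, hb, rfl⟩ := Submodule.mem_sup.1 hv
      rw [map_add]
      exact Submodule.add_mem_sup (hF2 n g a ha) (ih g b hb)
  have hmono : Monotone F := monotone_nat_of_le_succ fun n => by rw [hs]; exact le_sup_right
  let P : ℕ → H →L[ℂ] H := fun n => (F n).starProjection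
  have hP : ∀ m n, m ≤ n → P n * P m = P m := fun m n h => by
    ext x
    exact Submodule.starProjection_eq_self_iff.2 (hmono h ((F m).starProjection_apply_mem x))
  have hsa : ∀ n, star (P n) = P n := fun n => isStarProjection_starProjection.2
  have hP' : ∀ m n, m ≤ n → P m * P n = P m := fun m n h => by
    simpa [hsa] using congrArg star (hP m n h)
  have hlim : ∀ x, Tendsto (fun n => P n x) atTop (𝓝 x) := fun x => by
    refine Submodule.starProjection_tendsto_self F hmono x ?_
    intro z _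
    refine closure_mono ?_ (hDd z)
    rw [hy]
    rintro _ ⟨n, rfl⟩
    refine Submodule.mem_iSup_of_mem (n + 1) ?_
    rw [hs]
    exact Submodule.mem_sup_left (hF3 n)
  have h1 : ∀ k, star (P (k + 1) - P k) * (P (k + 1) - P k) = P (k + 1) - P k := fun k => by
    simp only [star_sub, hsa, mul_sub, sub_mul, hP _ _ le_rfl, hP _ _ (Nat.le_succ k),
      hP' _ _ (Nat.le_succ k)]
    abel
  have h2 : ∀ k l, k ≠ l → star (P (k + 1) - P k) * (P (l + 1) - P l) = 0 := fun k l hkl => by
    simp only [star_sub, hsa, mul_sub, sub_mul]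
    rcases lt_or_gt_of_ne hkl with h | h
    · rw [hP' _ _ (by omega), hP' _ _ (by omega), hP' _ _ (by omega), hP' _ _ (by omega)]; abel
    · rw [hP _ _ (by omega), hP _ _ (by omega), hP _ _ (by omega), hP _ _ (by omega)]; abel
  refine ⟨fun k => P (k + 1) - P k, h1, h2, fun g k => ?_, fun k => ?_, fun x => ?_⟩
  · rw [mul_sub, sub_mul, comm_proj u (hinv _), comm_proj u (hinv _)]
  · refine Submodule.finiteDimensional_of_le (S₂ := F (k + 1)) ?_
    rintro _ ⟨x, rfl⟩
    exact sub_mem ((F _).starProjection_apply_mem x)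
      (hmono (Nat.le_succ k) ((F _).starProjection_apply_mem x))
  · obtain ⟨b, -, hb⟩ := ssum h2 zero_le_one fun x F => by rw [one_mul]; exact bessel h1 h2 x F
    have h3 := (hb x).tendsto_sum_nat
    have h4 : ∀ n, ∑ k ∈ Finset.range n, (P (k + 1) - P k) x = P n x := fun n => by
      simp only [sub_apply]
      rw [Finset.sum_range_sub (fun k => P k x)]
      simp [P, F]
    simp only [h4] at h3
    rw [← tendsto_nhds_unique h3 (hlim x)]
    nth_rewrite 1 [tendsto_nhds_unique h3 (hlim x)]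
    exact hb x

lemma wf_choice {ι β : Type*} (r : ι → ι → Prop) (wf : WellFounded r) (b0 : β)
    (Q : ι → (ι → β) → β → Prop) (hQ : ∀ i f, ∃ y, Q i f y)
    (hdep : ∀ i f g y, (∀ j, r j i → f j = g j) → Q i f y → Q i g y) :
    ∃ f, ∀ i, Q i f (f i) := by
  classical
  choose F hF using hQ
  let f : ι → β := wf.fix fun i rec => F i fun j => if h : r j i then rec j h else b0
  refine ⟨f, fun i => ?_⟩
  have e : f i = F i fun j => if h : r j i then f j else b0 := wf.fix_eq _ i
  rw [e]
  exact hdep i _ _ _ (fun j hj => by simp [hj]) (hF i _)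

lemma Dec.ext {p : ℕ → H →L[ℂ] H} (hp : Dec u p) {D : H →L[ℂ] H}
    (h : ∀ l k, star (p l) * D * p k = 0) : D = 0 := by
  have hsa : ∀ k, star (p k) = p k := fun k => by rw [← hp.proj k, star_mul, star_star]
  ext x
  have h1 : ∀ k, D (p k x) = 0 := fun k => by
    refine (hp.sum (D (p k x))).unique ?_
    have : (fun l => p l (D (p k x))) = fun _ => 0 := funext fun l => by
      have := congrArg (fun T : H →L[ℂ] H => T x) (h l k)
      simpa [hsa] using this
    rw [this]; exact hasSum_zero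
  refine ((hp.sum x).mapL D).unique ?_
  simp only [h1]
  exact hasSum_zero

lemma step {s : ℕ → H →L[ℂ] H} (h1 : ∀ n, star (s n) * s n = 1)
    (h2 : ∀ n m, n ≠ m → star (s n) * s m = 0) (h3 : ∀ g n, (u g : H →L[ℂ] H) * s n = s n * u g)
    (E D : Submodule ℂ H) [FiniteDimensional ℂ E] [FiniteDimensional ℂ D] :
    ∃ c : H →L[ℂ] H, star c * c = 1 ∧ (∀ g, (u g : H →L[ℂ] H) * c = c * u g) ∧
      ∀ x ∈ E, ∀ y ∈ D, ⟪c x, y⟫_ℂ = 0 := by
  let v : ℕ → E →L[ℂ] D := fun n => D.orthogonalProjectionOnto ∘L s n ∘L E.subtypeL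
  obtain ⟨F, a, ha, i, hi, hai⟩ :=
    not_linearIndependent_iff.1 (Module.Finite.not_linearIndependent_of_infinite (R := ℂ) v)
  set c0 : H →L[ℂ] H := ∑ n ∈ F, a n • s n with hc0
  set r : ℝ := ∑ n ∈ F, ‖a n‖ ^ 2 with hr
  have hr0 : 0 < r := Finset.sum_pos' (fun _ _ => sq_nonneg _) ⟨i, hi, by positivity⟩
  have e : star c0 * c0 = (r : ℂ) • 1 := by
    rw [hc0, hr, star_sum, Finset.sum_mul_sum, Complex.ofReal_sum, Finset.sum_smul]
    refine Finset.sum_congr rfl fun n hn => ?_
    rw [Finset.sum_eq_single n (fun m _ hm => by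
      rw [star_smul, smul_mul_smul_comm, h2 n m hm.symm, smul_zero]) (fun h => absurd hn h),
      star_smul, smul_mul_smul_comm, h1]
    congr 1
    rw [Complex.star_def, Complex.conj_mul']; simp
  refine ⟨(((Real.sqrt r)⁻¹ : ℝ) : ℂ) • c0, ?_, fun g => ?_, fun x hx y hy => ?_⟩
  · rw [star_smul, smul_mul_smul_comm, e, smul_smul, Complex.star_def, Complex.conj_ofReal,
      ← Complex.ofReal_mul, ← Complex.ofReal_mul, ← mul_inv, Real.mul_self_sqrt hr0.le,
      inv_mul_cancel₀ hr0.ne']
    simp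
  · simp only [hc0, mul_smul_comm, smul_mul_assoc, Finset.mul_sum, Finset.sum_mul, h3]
  · have h4 : D.orthogonalProjectionOnto (c0 x) = 0 := by
      have := congrArg (fun T : E →L[ℂ] D => T ⟨x, hx⟩) ha
      simpa [v, hc0, sum_apply] using this
    rw [smul_apply, inner_smul_left,
      Submodule.inner_left_of_mem_orthogonal hy (Submodule.orthogonalProjectionOnto_eq_zero_iff.1 h4),
      mul_zero]

structure Tri (S : Set (H →L[ℂ] H)) (j V W : H →L[ℂ] H) : Prop where
  jj : star j * j = 1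
  VV : star V * V = 1
  WW : star W * W = 1
  cj : ∀ g, (u g : H →L[ℂ] H) * j = j * u g
  cV : ∀ g, (u g : H →L[ℂ] H) * V = V * u g
  cW : ∀ g, (u g : H →L[ℂ] H) * W = W * u g
  jV : ∀ T ∈ S, star j * T * V = 0
  Wj : ∀ T ∈ S, star W * T * j = 0
  WV : ∀ T ∈ S, star W * T * V = 0
  jW : ∀ T ∈ S, star j * T * W = 0

theorem exists_tri {p : ℕ → H →L[ℂ] H} (hp : Dec u p) {s : ℕ → H →L[ℂ] H}
    (h1 : ∀ n, star (s n) * s n = 1)
    (h2 : ∀ n m, n ≠ m → star (s n) * s m = 0) (h3 : ∀ g n, (u g : H →L[ℂ] H) * s n = s n * u g)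
    {S : Set (H →L[ℂ] H)} (hS : S.Finite) : ∃ j V W, Tri u S j V W := by
  classical
  have hsa : ∀ k, star (p k) = p k := fun k => by rw [← hp.proj k, star_mul, star_star]
  let S' : Finset (H →L[ℂ] H) := insert 1 (hS.toFinset ∪ hS.toFinset.image star)
  have hS' : ∀ T ∈ S', star T ∈ S' := fun T hT => by
    simp only [S', Finset.mem_insert, Finset.mem_union, Finset.mem_image] at hT ⊢
    rcases hT with rfl | hT | ⟨T, hT, rfl⟩
    · simp
    · exact Or.inr (Or.inr ⟨T, hT, rfl⟩)
    · exact Or.inr (Or.inl (by simpa using hT))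
  obtain ⟨c, hc⟩ := wf_choice (· < ·) wellFounded_lt (0 : H →L[ℂ] H)
    (fun n f c => star c * c = 1 ∧ (∀ g, (u g : H →L[ℂ] H) * c = c * u g) ∧
      ∀ m < n, ∀ T ∈ S', star (c * p (n / 3)) * T * (f m * p (m / 3)) = 0) (fun n f => by
      have := hp.fin
      let D : Submodule ℂ H := ((Finset.range n) ×ˢ S').sup
        fun q => (p (q.1 / 3)).range.map (q.2 * f q.1 : H →L[ℂ] H).toLinearMap
      have : FiniteDimensional ℂ D := Submodule.finiteDimensional_finset_sup _ _
      obtain ⟨c, c1, c2, c3⟩ := step u h1 h2 h3 (p (n / 3)).range D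
      refine ⟨c, c1, c2, fun m hm T hT => ?_⟩
      ext x
      apply ext_inner_left ℂ
      intro y
      rw [mul_assoc, mul_apply_eq_comp, ContinuousLinearMap.star_eq_adjoint,
        ContinuousLinearMap.adjoint_inner_right, zero_apply, inner_zero_right]
      refine c3 _ ⟨y, rfl⟩ _ ((Finset.le_sup (f := fun q : ℕ × (H →L[ℂ] H) =>
        (p (q.1 / 3)).range.map (q.2 * f q.1 : H →L[ℂ] H).toLinearMap) (b := (m, T))
        (by simp [hm, hT])) ⟨_, ⟨x, rfl⟩, rfl⟩))
    (fun n f g y hfg h => ⟨h.1, h.2.1, fun m hm T hT => hfg m hm ▸ h.2.2 m hm T hT⟩)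
  have horth : ∀ n m, n ≠ m → ∀ T ∈ S', star (c n * p (n / 3)) * T * (c m * p (m / 3)) = 0 := by
    intro n m hnm T hT
    rcases lt_or_gt_of_ne hnm with h | h
    · simpa [mul_assoc] using congrArg star ((hc m).2.2 n h _ (hS' T hT))
    · exact (hc n).2.2 m h T hT
  have hex : ∀ i < 3, ∃ b : H →L[ℂ] H, ∀ x, HasSum (fun k => (c (3 * k + i) * p k) x) (b x) := by
    intro i hi
    obtain ⟨b, -, hb⟩ := ssum (a := fun k => c (3 * k + i) * p k) (fun k l hkl => by
      have := horth (3 * k + i) (3 * l + i) (by omega) 1 (Finset.mem_insert_self _ _)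
      rwa [show (3 * k + i) / 3 = k by omega, show (3 * l + i) / 3 = l by omega, mul_one] at this)
      zero_le_one fun x F => by
        rw [one_mul]
        refine le_trans (le_of_eq ?_) (bessel hp.proj hp.orth x F)
        exact Finset.sum_congr rfl fun k _ => by rw [mul_apply_eq_comp, norm_iso_apply (hc _).1]
    exact ⟨b, hb⟩
  choose! b hb using hex
  have bp : ∀ i < 3, ∀ k, b i * p k = c (3 * k + i) * p k := fun i hi k => by
    ext x
    refine (hb i hi (p k x)).unique ?_
    have := hasSum_single (f := fun l => (c (3 * l + i) * p l) (p k x)) k (fun l hl => by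
      rw [← mul_apply_eq_comp, mul_assoc, ← hsa l, hp.orth l k hl]; simp)
    rw [← mul_apply_eq_comp _ (p k), mul_assoc, ← hsa k, hsa k] at this
    nth_rewrite 2 [← hsa k] at this
    rwa [hp.proj k] at this
  have bb : ∀ i < 3, star (b i) * b i = 1 := fun i hi => by
    rw [← sub_eq_zero]
    refine hp.ext u fun l k => ?_
    rw [mul_sub, sub_mul, ← mul_assoc, ← star_mul, mul_assoc, bp i hi, bp i hi, mul_one]
    by_cases h : l = k
    · subst h
      rw [star_mul, mul_assoc, ← mul_assoc (star (c _)), (hc _).1, one_mul, sub_self]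
    · have := horth (3 * l + i) (3 * k + i) (by omega) 1 (Finset.mem_insert_self _ _)
      rw [show (3 * k + i) / 3 = k by omega, show (3 * l + i) / 3 = l by omega, mul_one] at this
      rw [this, hp.orth l k h, sub_self]
  have bc : ∀ i < 3, ∀ g, (u g : H →L[ℂ] H) * b i = b i * u g := fun i hi g => by
    ext x
    refine ((hb i hi x).mapL (u g : H →L[ℂ] H)).unique ((hb i hi _).congr_fun fun k => ?_)
    rw [← mul_apply_eq_comp (u g : H →L[ℂ] H), ← mul_assoc, (hc _).2.1, mul_assoc, hp.comm,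
      ← mul_assoc]
    rfl
  have bo : ∀ i < 3, ∀ i' < 3, i ≠ i' → ∀ T ∈ S, star (b i) * T * b i' = 0 := by
    intro i hi i' hi' hii T hT
    refine hp.ext u fun l k => ?_
    have := horth (3 * l + i) (3 * k + i') (by omega) T (by simp [S', hT])
    rw [show (3 * k + i') / 3 = k by omega, show (3 * l + i) / 3 = l by omega, ← bp i hi,
      ← bp i' hi'] at this
    simpa [mul_assoc] using this
  exact ⟨b 0, b 1, b 2, bb 0 (by omega), bb 1 (by omega), bb 2 (by omega), bc 0 (by omega),
    bc 1 (by omega), bc 2 (by omega), bo 0 (by omega) 1 (by omega) (by omega),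
    bo 2 (by omega) 0 (by omega) (by omega), bo 2 (by omega) 1 (by omega) (by omega),
    bo 0 (by omega) 2 (by omega) (by omega)⟩

end Pool.Agent.H85.EqK
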