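import Pool.Agent.H85.EqK3

/-! Equivariant Kuiper theorem: gluing isometries in general position along a partition of unity. -/

namespace Pool.Agent.H85.EqK

set_option linter.unusedSectionVars false
set_option linter.unusedVariables false
set_option linter.unusedSimpArgs false

open Set Filter Topology Function
open scoped Pointwise

structure Lev {Y ι : Type*} [TopologicalSpace Y] (φ : ι → Y → ℝ) (c : Finset ι → Y → ℝ) : Prop where
  cont : ∀ σ, Continuous (c σ)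
  nonneg : ∀ σ y, 0 ≤ c σ y
  lf : LocallyFinite fun σ => support (c σ)
  supp : ∀ σ y, c σ y ≠ 0 → ∀ a ∈ σ, φ a y ≠ 0
  empty : ∀ y, c ∅ y = 0
  nest : ∀ σ τ y, c σ y ≠ 0 → c τ y ≠ 0 → σ ⊆ τ ∨ τ ⊆ σ
  full : ∀ y, ∃ σ, 1 ≤ c σ y

theorem exists_lev {Y ι : Type*} [TopologicalSpace Y] (φ : PartitionOfUnity ι Y univ) :
    ∃ c, Lev (fun a y => φ a y) c := by
  classical
  let w : Finset ι → Y → ℝ := fun σ y => max 0 (∏ a ∈ σ, φ a y - (1 - ∑ a ∈ σ, φ a y))
  have wc : ∀ σ, Continuous (w σ) := fun σ => by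
    have := fun a => (φ a).continuous
    fun_prop
  have w0 : ∀ σ y, 0 ≤ w σ y := fun _ _ => le_max_left _ _
  have sle : ∀ (σ : Finset ι) y, ∑ a ∈ σ, φ a y ≤ 1 := fun σ y => by
    rw [← φ.sum_finsupport' (mem_univ y) (I := σ ∪ φ.finsupport y) Finset.subset_union_right]
    exact Finset.sum_le_sum_of_subset_of_nonneg Finset.subset_union_left fun _ _ _ => φ.nonneg _ _
  have wpos : ∀ σ y, w σ y ≠ 0 → 1 - ∑ a ∈ σ, φ a y < ∏ a ∈ σ, φ a y := fun σ y h => by
    by_contra hn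
    exact h (max_eq_left (by linarith))
  have ple : ∀ (σ : Finset ι) y, ∀ a ∈ σ, ∏ a ∈ σ, φ a y ≤ φ a y := fun σ y a ha => by
    rw [← Finset.mul_prod_erase σ _ ha]
    exact mul_le_of_le_one_right (φ.nonneg _ _)
      (Finset.prod_le_one (fun _ _ => φ.nonneg _ _) fun _ _ => φ.le_one _ _)
  have wlt : ∀ σ y, w σ y ≠ 0 → ∀ a ∈ σ, ∀ b ∉ σ, φ b y < φ a y := fun σ y h a ha b hb => by
    have h1 := sle (insert b σ) y
    rw [Finset.sum_insert hb] at h1
    linarith [wpos σ y h, ple σ y a ha]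
  have wsupp : ∀ σ y, w σ y ≠ 0 → ∀ a ∈ σ, φ a y ≠ 0 := fun σ y h a ha => by
    have := wpos σ y h
    exact ne_of_gt (by linarith [sle σ y, ple σ y a ha])
  have wlf : LocallyFinite fun σ => support (w σ) := fun y => by
    obtain ⟨t, ht, hf⟩ := φ.locallyFinite y
    refine ⟨t, ht, (hf.toFinset.powerset.finite_toSet).subset ?_⟩
    rintro σ ⟨z, hz, hzt⟩
    simp only [Finset.coe_powerset, mem_preimage, mem_powerset_iff, Finite.coe_toFinset]
    exact fun a ha => ⟨z, wsupp σ z hz a ha, hzt⟩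
  have wex : ∀ y, ∃ σ, 0 < w σ y := fun y => ⟨φ.finsupport y, lt_max_of_lt_right (by
    rw [φ.sum_finsupport (mem_univ y), sub_self, sub_zero]
    exact Finset.prod_pos fun a ha =>
      lt_of_le_of_ne (φ.nonneg _ _) (Ne.symm ((φ.mem_finsupport y).1 ha)))⟩
  have wfin : ∀ y, (support fun σ => w σ y).Finite := fun y => wlf.point_finite y
  have wfin2 : ∀ y, (support fun σ => w σ y ^ 2) ⊆ (wfin y).toFinset := fun y σ h => by
    simpa using h
  have wlf2 : LocallyFinite fun σ => support (fun y => w σ y ^ 2) :=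
    wlf.subset fun σ y h => by simpa using h
  let S1 : Y → ℝ := fun y => ∑ᶠ σ, w σ y
  let S2 : Y → ℝ := fun y => ∑ᶠ σ, w σ y ^ 2
  have e1 : ∀ y, S1 y = ∑ σ ∈ (wfin y).toFinset, w σ y := fun y =>
    finsum_eq_sum_of_support_subset _ (by simp)
  have e2 : ∀ y, S2 y = ∑ σ ∈ (wfin y).toFinset, w σ y ^ 2 := fun y =>
    finsum_eq_sum_of_support_subset _ (wfin2 y)
  have p2 : ∀ y, 0 < S2 y := fun y => by
    obtain ⟨σ, hσ⟩ := wex y
    rw [e2]
    exact Finset.sum_pos' (fun _ _ => sq_nonneg _) ⟨σ, by simpa using hσ.ne', by positivity⟩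
  have p1 : ∀ y, 0 ≤ S1 y := fun y => by rw [e1]; exact Finset.sum_nonneg fun _ _ => w0 _ _
  have hw : ∀ σ y, w σ y * S1 y / S2 y ≠ 0 → w σ y ≠ 0 := fun σ y h h0 => h (by simp [h0])
  refine ⟨fun σ y => w σ y * S1 y / S2 y, fun σ => ((wc σ).mul (continuous_finsum wc wlf)).div
    (continuous_finsum (fun σ => (wc σ).pow 2) wlf2) fun y => (p2 y).ne',
    fun σ y => div_nonneg (mul_nonneg (w0 _ _) (p1 _)) (p2 _).le,
    wlf.subset fun σ y h => hw σ y h, fun σ y h => wsupp σ y (hw σ y h), fun y => by simp [w],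
    fun σ τ y h1 h2 => ?_, fun y => ?_⟩
  · by_contra hn
    push Not at hn
    obtain ⟨a, ha, ha'⟩ := Finset.not_subset.1 hn.1
    obtain ⟨b, hb, hb'⟩ := Finset.not_subset.1 hn.2
    exact lt_asymm (wlt σ y (hw _ _ h1) a ha b hb') (wlt τ y (hw _ _ h2) b hb a ha')
  · obtain ⟨σ0, hσ0⟩ := wex y
    obtain ⟨σ, -, hσ⟩ := (wfin y).toFinset.exists_max_image (fun σ => w σ y)
      ⟨σ0, by simpa using hσ0.ne'⟩
    refine ⟨σ, (one_le_div (p2 y)).2 ?_⟩
    rw [e1, e2, Finset.mul_sum]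
    exact Finset.sum_le_sum fun τ hτ => by
      rw [sq]; exact mul_le_mul_of_nonneg_right (hσ τ hτ) (w0 _ _)

structure Coef (a b e : ℝ → ℝ) : Prop where
  ca : Continuous a
  cb : Continuous b
  ce : Continuous e
  a0 : a 0 = 1
  b0 : b 0 = 0
  e0 : e 0 = 0
  ae : ∀ c, a c * e c = 0
  sq : ∀ c, 0 ≤ c → a c ^ 2 + b c ^ 2 + e c ^ 2 = 1
  a1 : ∀ c, 1 ≤ c → a c = 0
  b1 : ∀ c, 1 ≤ c → b c = 0
  e1 : ∀ c, 1 ≤ c → e c = 1

theorem exists_coef : ∃ a b e, Coef a b e := by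
  have ha1 : ∀ c : ℝ, 1 ≤ c → √(1 - 2 * c) = 0 := fun c h => Real.sqrt_eq_zero'.2 (by linarith)
  have he1 : ∀ c : ℝ, 1 ≤ c → √(min (2 * c - 1) 1) = 1 := fun c h => by
    rw [min_eq_right (by linarith), Real.sqrt_one]
  refine ⟨fun c => √(1 - 2 * c), fun c => √(1 - √(1 - 2 * c) ^ 2 - √(min (2 * c - 1) 1) ^ 2),
    fun c => √(min (2 * c - 1) 1), by fun_prop, by fun_prop, by fun_prop, by simp, ?_, ?_,
    fun c => ?_, fun c hc => ?_, ha1, fun c hc => by simp [ha1 c hc, he1 c hc], he1⟩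
  · simp [Real.sqrt_eq_zero']
  · simp [Real.sqrt_eq_zero']
  · rcases le_total (2 * c) 1 with h | h
    · rw [Real.sqrt_eq_zero'.2 (min_le_of_left_le (by linarith)), mul_zero]
    · rw [Real.sqrt_eq_zero'.2 (by linarith : 1 - 2 * c ≤ 0), zero_mul]
  · have : √(1 - 2 * c) ^ 2 + √(min (2 * c - 1) 1) ^ 2 ≤ 1 := by
      rcases le_total (2 * c) 1 with h | h
      · rw [Real.sqrt_eq_zero'.2 (min_le_of_left_le (by linarith) : min (2 * c - 1) 1 ≤ 0),
          Real.sq_sqrt (by linarith)]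
        linarith
      · rw [Real.sqrt_eq_zero'.2 (by linarith : 1 - 2 * c ≤ 0),
          Real.sq_sqrt (le_min (by linarith) zero_le_one)]
        simp
    rw [Real.sq_sqrt (by linarith : 0 ≤ 1 - √(1 - 2 * c) ^ 2 - √(min (2 * c - 1) 1) ^ 2)]
    ring

section rec
variable {B : Type*} [CStarAlgebra B] {Y ι : Type*} [TopologicalSpace Y]

lemma step_alg {Φ Ψ S i0 i1 j V W : B} {a b e r : ℝ} (h00 : star i0 * i0 = 1)
    (h11 : star i1 * i1 = 1) (h01 : star i0 * i1 = 0) (hj : star j * j = 1) (hae : a * e = 0)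
    (hsq : a ^ 2 + b ^ 2 + e ^ 2 = 1) (h1 : star Ψ * S * Φ = r • 1) (h2 : star W * S * V = r • 1)
    (h3 : star j * (star (Ψ * i1) * S) * V = 0) (h4 : star W * (S * (Φ * i1)) * j = 0) :
    star (a • (Ψ * i0) + b • (Ψ * (i1 * j)) + e • W) * S *
      (a • (Φ * i0) + b • (Φ * (i1 * j)) + e • V) = r • 1 := by
  have h10 : star i1 * i0 = 0 := by simpa using congrArg star h01
  have h1' : ∀ x, star Ψ * (S * (Φ * x)) = r • x := fun x => by
    rw [← mul_assoc, ← mul_assoc, h1, smul_mul_assoc, one_mul]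
  have h11' : ∀ x, star i1 * (i1 * x) = x := fun x => by rw [← mul_assoc, h11, one_mul]
  have h01' : ∀ x, star i0 * (i1 * x) = 0 := fun x => by rw [← mul_assoc, h01, zero_mul]
  simp only [star_mul, mul_assoc] at h2 h3 h4
  simp only [star_add, star_smul, star_trivial, star_mul, add_mul, mul_add, smul_mul_assoc,
    mul_smul_comm, mul_assoc, h1', h2, h3, h4, h00, h10, h11', h01', hj, mul_zero, smul_zero,
    smul_add, smul_smul, mul_comm e a, hae, zero_smul, add_zero, zero_add]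
  rw [← add_smul, ← add_smul]
  congr 1
  linear_combination r * hsq

open Classical in
/-- the glued isometries, level by level -/
noncomputable def Ph (c : Finset ι → Y → ℝ) (a b e : ℝ → ℝ) (i0 i1 : B) (j V : Finset ι → B) :
    ℕ → Y → B
  | 0 => fun _ => 1
  | d + 1 => fun y => Ph c a b e i0 i1 j V d y * i0 + ∑ᶠ σ, if σ.card = d + 1 then
      (a (c σ y) - 1) • (Ph c a b e i0 i1 j V d y * i0) +
        b (c σ y) • (Ph c a b e i0 i1 j V d y * (i1 * j σ)) + e (c σ y) • V σ else 0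

variable {φ : ι → Y → ℝ} {c : Finset ι → Y → ℝ} {a b e : ℝ → ℝ} {i0 i1 : B} {j V : Finset ι → B}

lemma Ph_cont (hc : Lev φ c) (hk : Coef a b e) (d : ℕ) : Continuous (Ph c a b e i0 i1 j V d) := by
  induction d with
  | zero => exact continuous_const
  | succ d ih =>
    refine (ih.mul continuous_const).add (continuous_finsum (fun σ => ?_)
      (hc.lf.subset fun σ y h h0 => h ?_))
    · split_ifs
      · have := hc.cont σ
        have := hk.ca
        have := hk.cb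
        have := hk.ce
        fun_prop
      · exact continuous_const
    · simp [h0, hk.a0, hk.b0, hk.e0]

lemma Ph_none (hk : Coef a b e) {d : ℕ} {y : Y} (h : ∀ σ : Finset ι, σ.card = d + 1 → c σ y = 0) :
    Ph c a b e i0 i1 j V (d + 1) y = Ph c a b e i0 i1 j V d y * i0 := by
  rw [Ph]
  beta_reduce
  rw [finsum_eq_zero_of_forall_eq_zero, add_zero]
  intro σ
  split_ifs with hσ
  · simp [h σ hσ, hk.a0, hk.b0, hk.e0]
  · rfl

lemma Ph_some (hc : Lev φ c) (hk : Coef a b e) {d : ℕ} {y : Y} {σ : Finset ι}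
    (hσ : σ.card = d + 1) (h : c σ y ≠ 0) :
    Ph c a b e i0 i1 j V (d + 1) y = a (c σ y) • (Ph c a b e i0 i1 j V d y * i0) +
      b (c σ y) • (Ph c a b e i0 i1 j V d y * (i1 * j σ)) + e (c σ y) • V σ := by
  rw [Ph]
  beta_reduce
  rw [finsum_eq_single _ σ, if_pos hσ]
  · module
  · intro τ hτ
    split_ifs with hτc
    · have : c τ y = 0 := by
        by_contra h2
        rcases hc.nest σ τ y h h2 with h3 | h3
        · exact hτ (Finset.eq_of_subset_of_card_le h3 (by omega)).symm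
        · exact hτ (Finset.eq_of_subset_of_card_le h3 (by omega))
      simp [this, hk.a0, hk.b0, hk.e0]
    · rfl

lemma Ph_mem (hc : Lev φ c) (hk : Coef a b e) {y : Y} {σ : Finset ι} (h : c σ y ≠ 0) {Γ : Set B}
    (h1 : 1 ∈ Γ) (h0 : i0 ∈ Γ) (hΓ : ∀ τ ⊂ σ, i1 * j τ ∈ Γ ∧ V τ ∈ Γ) (d : ℕ) (hd : d < σ.card) :
    Ph c a b e i0 i1 j V d y ∈ Submodule.span ℝ (Γ ^ (d + 1)) := by
  induction d with
  | zero => exact Submodule.subset_span (by simpa [Ph] using h1)
  | succ d ih =>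
    have hm : ∀ g ∈ Γ, Ph c a b e i0 i1 j V d y * g ∈ Submodule.span ℝ (Γ ^ (d + 1 + 1)) := by
      intro g hg
      rw [pow_succ Γ (d + 1), ← Submodule.span_mul_span]
      exact Submodule.mul_mem_mul (ih (by omega)) (Submodule.subset_span hg)
    by_cases hx : ∀ τ : Finset ι, τ.card = d + 1 → c τ y = 0
    · rw [Ph_none hk hx]; exact hm _ h0
    · push Not at hx
      obtain ⟨τ, hτ, hτ0⟩ := hx
      have hs : τ ⊂ σ := by
        rcases hc.nest σ τ y h hτ0 with h3 | h3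
        · have := Finset.card_le_card h3; omega
        · exact Finset.ssubset_iff_subset_ne.2 ⟨h3, fun h4 => by rw [h4] at hτ; omega⟩
      rw [Ph_some hc hk hτ hτ0]
      exact add_mem (add_mem (Submodule.smul_mem _ _ (hm _ h0))
        (Submodule.smul_mem _ _ (hm _ (hΓ τ hs).1))) (Submodule.smul_mem _ _
          (Submodule.subset_span (Set.subset_pow h1 (by omega) (hΓ τ hs).2)))

lemma Ph_comm (hc : Lev φ c) (hk : Coef a b e) {w : B} (h0 : w * i0 = i0 * w)
    (h1 : w * i1 = i1 * w) (hj : ∀ σ, w * j σ = j σ * w) (hV : ∀ σ, w * V σ = V σ * w) (y : Y)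
    (d : ℕ) : w * Ph c a b e i0 i1 j V d y = Ph c a b e i0 i1 j V d y * w := by
  induction d with
  | zero => simp [Ph]
  | succ d ih =>
    have hm : ∀ g, w * g = g * w →
        w * (Ph c a b e i0 i1 j V d y * g) = Ph c a b e i0 i1 j V d y * g * w := fun g hg => by
      rw [← mul_assoc, ih, mul_assoc, hg, mul_assoc]
    by_cases hx : ∀ τ : Finset ι, τ.card = d + 1 → c τ y = 0
    · rw [Ph_none hk hx]; exact hm _ h0
    · push Not at hx
      obtain ⟨τ, hτ, hτ0⟩ := hx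
      rw [Ph_some hc hk hτ hτ0]
      simp only [mul_add, add_mul, mul_smul_comm, smul_mul_assoc, hV, hm _ h0,
        hm (i1 * j τ) (by rw [← mul_assoc, h1, mul_assoc, hj, mul_assoc])]

lemma Ph_lim (hc : Lev φ c) (hk : Coef a b e) {p : B} (hp : i0 * p = p) :
    ∃ F : Y → B, Continuous F ∧ ∀ y, ∀ᶠ n in atTop, Ph c a b e i0 i1 j V n y * p = F y := by
  have hlf : LocallyFinite fun n =>
      {y | Ph c a b e i0 i1 j V (n + 1) y * p ≠ Ph c a b e i0 i1 j V n y * p} := fun y => by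
    obtain ⟨t, ht, hf⟩ := hc.lf y
    refine ⟨t, ht, (hf.image fun σ => σ.card - 1).subset ?_⟩
    rintro n ⟨z, hz, hzt⟩
    by_contra hn
    refine hz ?_
    rw [Ph_none hk, mul_assoc, hp]
    intro σ hσ
    by_contra h0
    exact hn ⟨σ, ⟨z, h0, hzt⟩, by simp [hσ]⟩
  obtain ⟨F, hF⟩ := hlf.exists_forall_eventually_atTop_eventuallyEq
    (f := fun n y => Ph c a b e i0 i1 j V n y * p)
  refine ⟨F, continuous_iff_continuousAt.2 fun y => ?_,
    fun y => (hF y).mono fun n hn => hn.eq_of_nhds⟩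
  obtain ⟨n, hn⟩ := (hF y).exists
  exact (((Ph_cont hc hk n).mul continuous_const).continuousAt).congr hn

/-- propagation of an orthogonality relation from level `d` to level `d + 1` -/
lemma Ph_rel (hc : Lev φ c) (hk : Coef a b e) {W : Finset ι → B} {S : B} {r : ℝ} {y : Y} {d : ℕ}
    (h00 : star i0 * i0 = 1) (h11 : star i1 * i1 = 1) (h01 : star i0 * i1 = 0)
    (hj : ∀ σ, star (j σ) * j σ = 1)
    (ih : star (Ph c a b e i0 i1 j W d y) * S * Ph c a b e i0 i1 j V d y = r • 1)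
    (h : ∀ σ : Finset ι, σ.card = d + 1 → c σ y ≠ 0 → star (W σ) * S * V σ = r • 1 ∧
      star (j σ) * (star (Ph c a b e i0 i1 j W d y * i1) * S) * V σ = 0 ∧
      star (W σ) * (S * (Ph c a b e i0 i1 j V d y * i1)) * j σ = 0) :
    star (Ph c a b e i0 i1 j W (d + 1) y) * S * Ph c a b e i0 i1 j V (d + 1) y = r • 1 := by
  by_cases hx : ∀ τ : Finset ι, τ.card = d + 1 → c τ y = 0
  · rw [Ph_none hk hx, Ph_none hk hx, star_mul, mul_assoc, mul_assoc, ← mul_assoc S,
      ← mul_assoc (star (Ph c a b e i0 i1 j W d y)), ← mul_assoc (star (Ph c a b e i0 i1 j W d y)),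
      ih, smul_mul_assoc, one_mul, mul_smul_comm, h00]
  · push Not at hx
    obtain ⟨τ, hτ, hτ0⟩ := hx
    rw [Ph_some hc hk hτ hτ0, Ph_some hc hk hτ hτ0]
    obtain ⟨h2, h3, h4⟩ := h τ hτ hτ0
    exact step_alg h00 h11 h01 (hj τ) (hk.ae _) (hk.sq _ (hc.nonneg _ _)) ih h2 h3 h4

end rec

variable {H : Type*} [NormedAddCommGroup H] [InnerProductSpace ℂ H] [CompleteSpace H]
variable {G : Type*} [Group G] (u : G →* unitary (H →L[ℂ] H))

theorem glue {Y ι : Type*} [TopologicalSpace Y] {φ : ι → Y → ℝ} {c : Finset ι → Y → ℝ}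
    (hc : Lev φ c) (T : ι → H →L[ℂ] H)
    (htri : ∀ S : Set (H →L[ℂ] H), S.Finite → ∃ j V W, Tri u S j V W) {i0 i1 p : H →L[ℂ] H}
    (h00 : star i0 * i0 = 1) (h11 : star i1 * i1 = 1) (h01 : star i0 * i1 = 0)
    (hpp : star p * p = 1) (hp : i0 * p = p) (c0 : ∀ g, (u g : H →L[ℂ] H) * i0 = i0 * u g)
    (c1 : ∀ g, (u g : H →L[ℂ] H) * i1 = i1 * u g) (cp : ∀ g, (u g : H →L[ℂ] H) * p = p * u g) :
    ∃ V W : Y → H →L[ℂ] H, Continuous V ∧ Continuous W ∧
      (∀ g y, (u g : H →L[ℂ] H) * V y = V y * u g) ∧ (∀ g y, (u g : H →L[ℂ] H) * W y = W y * u g) ∧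
      (∀ y, star (V y) * V y = 1) ∧ (∀ y, star (W y) * W y = 1) ∧ (∀ y, star (W y) * V y = 0) ∧
      ∀ y, ∃ a, φ a y ≠ 0 ∧ star (W y) * T a * V y = 0 := by
  obtain ⟨a, b, e, hk⟩ := exists_coef
  let Γ : Finset ι → (Finset ι → (H →L[ℂ] H) × (H →L[ℂ] H) × (H →L[ℂ] H)) → Set (H →L[ℂ] H) :=
    fun σ f => {1, i0} ∪ ⋃ τ ∈ {τ | τ < σ}, {i1 * (f τ).1, (f τ).2.1, (f τ).2.2}
  let R : Finset ι → Set (H →L[ℂ] H) := fun σ => insert 1 (T '' σ)
  let S : Finset ι → Set (H →L[ℂ] H) → Set (H →L[ℂ] H) := fun σ Γ => R σ ∪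
    (image2 (fun x r => star (x * i1) * r) (Γ ^ σ.card) (R σ) ∪
      image2 (fun x r => r * (x * i1)) (Γ ^ σ.card) (R σ))
  obtain ⟨D, hD⟩ := wf_choice (· < ·) (wellFounded_lt (α := Finset ι)) (0, 0, 0)
    (fun σ f y => Tri u (S σ (Γ σ f)) y.1 y.2.1 y.2.2) (fun σ f => by
      have hΓ : (Γ σ f).Finite := (Set.toFinite _).union
        (Finite.biUnion (σ.powerset.finite_toSet.subset fun τ hτ =>
          Finset.mem_coe.2 (Finset.mem_powerset.2 (le_of_lt hτ))) fun _ _ => Set.toFinite _)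
      have hR : (R σ).Finite := (σ.finite_toSet.image T).insert 1
      have hP : ∀ n, (Γ σ f ^ n).Finite := fun n => by
        induction n with
        | zero => simp
        | succ n ih => rw [pow_succ]; exact ih.mul hΓ
      obtain ⟨j, V, W, h⟩ := htri (S σ (Γ σ f))
        (hR.union (((hP _).image2 _ hR).union ((hP _).image2 _ hR)))
      exact ⟨(j, V, W), h⟩) (fun σ f g y hfg h => by
      have : Γ σ f = Γ σ g := by
        simp only [Γ]
        congr 1
        exact iUnion₂_congr fun τ hτ => by rw [hfg τ hτ]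
      rw [← this]; exact h)
  set j := fun σ => (D σ).1
  set V := fun σ => (D σ).2.1
  set W := fun σ => (D σ).2.2
  have hmem : ∀ U : Finset ι → H →L[ℂ] H, (U = V ∨ U = W) → ∀ σ y d, σ.card = d + 1 → c σ y ≠ 0 →
      Ph c a b e i0 i1 j U d y ∈ Submodule.span ℝ (Γ σ D ^ σ.card) := by
    intro U hU σ y d hσ h0
    rw [hσ]
    refine Ph_mem (Γ := Γ σ D) hc hk h0 (Or.inl (by simp)) (Or.inl (by simp))
      (fun τ hτ => ⟨Or.inr ?_, Or.inr ?_⟩) d (by omega)
    · exact mem_biUnion (show τ ∈ {τ | τ < σ} from hτ) (by simp [j])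
    · refine mem_biUnion (show τ ∈ {τ | τ < σ} from hτ) ?_
      rcases hU with rfl | rfl <;> simp [V, W]
  have k1 : ∀ σ, ∀ r ∈ R σ, ∀ x ∈ Submodule.span ℝ (Γ σ D ^ σ.card),
      star (j σ) * (star (x * i1) * r) * V σ = 0 ∧ star (j σ) * (star (x * i1) * r) * W σ = 0 ∧
      star (W σ) * (r * (x * i1)) * j σ = 0 := by
    intro σ r hr x hx
    induction hx using Submodule.span_induction with
    | mem x hx =>
      exact ⟨(hD σ).jV _ (Or.inr (Or.inl (mem_image2_of_mem hx hr))),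
        (hD σ).jW _ (Or.inr (Or.inl (mem_image2_of_mem hx hr))),
        (hD σ).Wj _ (Or.inr (Or.inr (mem_image2_of_mem hx hr)))⟩
    | zero => simp
    | add x y _ _ hx hy =>
      simp only [add_mul, mul_add, star_add, hx.1, hx.2.1, hx.2.2, hy.1, hy.2.1, hy.2.2, add_zero,
        and_self]
    | smul t x _ hx =>
      simp only [smul_mul_assoc, mul_smul_comm, star_smul, hx.1, hx.2.1, hx.2.2, smul_zero,
        and_self]
  have one_mem : ∀ σ, (1 : H →L[ℂ] H) ∈ R σ := fun σ => mem_insert _ _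
  have iso : ∀ U : Finset ι → H →L[ℂ] H, (U = V ∨ U = W) → ∀ y d,
      star (Ph c a b e i0 i1 j U d y) * 1 * Ph c a b e i0 i1 j U d y = (1 : ℝ) • 1 := by
    intro U hU y d
    induction d with
    | zero => simp [Ph]
    | succ d ih =>
      refine Ph_rel hc hk h00 h11 h01 (fun σ => (hD σ).jj) ih fun σ hσ h0 => ?_
      have h3 := k1 σ 1 (one_mem σ) _ (hmem U hU σ y d hσ h0)
      have h4 : star (j σ) * (star (Ph c a b e i0 i1 j U d y * i1) * 1) * U σ = 0 := by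
        rcases hU with rfl | rfl
        exacts [h3.1, h3.2.1]
      refine ⟨?_, h4, by simpa [mul_assoc] using congrArg star h4⟩
      rcases hU with rfl | rfl
      · simpa using (hD σ).VV
      · simpa using (hD σ).WW
  have cross : ∀ y σ0, 1 ≤ c σ0 y → ∀ r ∈ R σ0, ∀ d, σ0.card ≤ d →
      star (Ph c a b e i0 i1 j W d y) * r * Ph c a b e i0 i1 j V d y = (0 : ℝ) • 1 := by
    intro y σ0 h1 r hr d hd
    have h0 : c σ0 y ≠ 0 := by linarith
    induction d, hd using Nat.le_induction with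
    | base =>
      obtain ⟨d, hd⟩ : ∃ d, σ0.card = d + 1 := Nat.exists_eq_succ_of_ne_zero fun h => by
        rw [Finset.card_eq_zero.1 h] at h0; exact h0 (hc.empty y)
      rw [hd, Ph_some hc hk hd h0, Ph_some hc hk hd h0, hk.a1 _ h1, hk.b1 _ h1, hk.e1 _ h1]
      simpa using (hD σ0).WV r (Or.inl hr)
    | succ d hd ih =>
      refine Ph_rel hc hk h00 h11 h01 (fun σ => (hD σ).jj) ih fun σ hσ hσ0 => ?_
      have hs : σ0 ⊆ σ := by
        rcases hc.nest σ σ0 y hσ0 h0 with h | h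
        · have := Finset.card_le_card h; omega
        · exact h
      have hr' : r ∈ R σ := insert_subset_insert (image_mono (by exact_mod_cast hs)) hr
      exact ⟨by simpa using (hD σ).WV r (Or.inl hr'),
        (k1 σ r hr' _ (hmem W (Or.inr rfl) σ y d hσ hσ0)).1,
        (k1 σ r hr' _ (hmem V (Or.inl rfl) σ y d hσ hσ0)).2.2⟩
  obtain ⟨FV, cV, hV⟩ := Ph_lim (j := j) (V := V) (i1 := i1) hc hk hp
  obtain ⟨FW, cW, hW⟩ := Ph_lim (j := j) (V := W) (i1 := i1) hc hk hp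
  have sand : ∀ (x z r : H →L[ℂ] H) (t : ℝ), star x * r * z = t • 1 →
      star (x * p) * r * (z * p) = t • 1 := fun x z r t h => by
    have : star (x * p) * r * (z * p) = star p * (star x * r * z) * p := by
      simp only [star_mul, mul_assoc]
    rw [this, h, mul_smul_comm, smul_mul_assoc, mul_one, hpp]
  have crossF : ∀ y σ0, 1 ≤ c σ0 y → ∀ r ∈ R σ0, star (FW y) * r * FV y = 0 := by
    intro y σ0 h1 r hr
    obtain ⟨n, ⟨h2, h3⟩, h4⟩ := (((hV y).and (hW y)).and (eventually_ge_atTop σ0.card)).exists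
    rw [← h2, ← h3, sand _ _ _ _ (cross y σ0 h1 r hr n h4), zero_smul]
  refine ⟨FV, FW, cV, cW, fun g y => ?_, fun g y => ?_, fun y => ?_, fun y => ?_, fun y => ?_,
    fun y => ?_⟩
  · obtain ⟨n, hn⟩ := (hV y).exists
    rw [← hn, ← mul_assoc, Ph_comm hc hk (c0 g) (c1 g) (fun σ => (hD σ).cj g)
      (fun σ => (hD σ).cV g), mul_assoc, cp, mul_assoc]
  · obtain ⟨n, hn⟩ := (hW y).exists
    rw [← hn, ← mul_assoc, Ph_comm hc hk (c0 g) (c1 g) (fun σ => (hD σ).cj g)
      (fun σ => (hD σ).cW g), mul_assoc, cp, mul_assoc]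
  · obtain ⟨n, hn⟩ := (hV y).exists
    simpa [hn] using sand _ _ _ _ (iso V (Or.inl rfl) y n)
  · obtain ⟨n, hn⟩ := (hW y).exists
    simpa [hn] using sand _ _ _ _ (iso W (Or.inr rfl) y n)
  · obtain ⟨σ0, h1⟩ := hc.full y
    simpa using crossF y σ0 h1 1 (one_mem _)
  · obtain ⟨σ0, h1⟩ := hc.full y
    have h0 : c σ0 y ≠ 0 := by linarith
    obtain ⟨x, hx⟩ : σ0.Nonempty := Finset.nonempty_iff_ne_empty.2 fun h => by
      rw [h] at h0; exact h0 (hc.empty y)
    exact ⟨x, hc.supp σ0 y h0 x hx, crossF y σ0 h1 _ (mem_insert_of_mem _ ⟨x, hx, rfl⟩)⟩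

end Pool.Agent.H85.EqK
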