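import Pool.Agent.H85.EqK4

/-! Equivariant Kuiper theorem: the abstract statement. -/

namespace Pool.Agent.H85.EqK

set_option linter.unusedSectionVars false
set_option linter.unusedVariables false
set_option linter.unusedSimpArgs false

open Set Filter Topology Function TopologicalSpace
open scoped unitInterval InnerProductSpace

variable {H : Type*} [NormedAddCommGroup H] [InnerProductSpace ℂ H] [CompleteSpace H]
variable {G : Type*} [Group G] (u : G →* unitary (H →L[ℂ] H))

lemma edist_conj [Nontrivial H] (w : unitary (H →L[ℂ] H)) (x y : H →L[ℂ] H) :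
    dist (w * x * star (w : H →L[ℂ] H)) (w * y * star (w : H →L[ℂ] H)) = dist x y := by
  rw [dist_eq_norm, dist_eq_norm, ← sub_mul, ← mul_sub, ← Unitary.coe_star,
    CStarRing.norm_mul_coe_unitary, CStarRing.norm_coe_unitary_mul]

theorem kuiper [Nontrivial H] [SeparableSpace H] [TopologicalSpace G] [IsTopologicalGroup G]
    [CompactSpace G] [SecondCountableTopology G]
    (hu : ∀ v, Continuous fun g => (u g : H →L[ℂ] H) v) {s t : H →L[ℂ] H} (ss : star s * s = 1)
    (tt : star t * t = 1) (st : star s * t = 0) (hs : ∀ g, (u g : H →L[ℂ] H) * s = s * u g)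
    (ht : ∀ g, (u g : H →L[ℂ] H) * t = t * u g) :
    ∃ h : I × unitary (H →L[ℂ] H) → unitary (H →L[ℂ] H), Continuous h ∧ (∀ y, h (0, y) = y) ∧
      (∀ y, h (1, y) = 1) ∧ ∀ c g y, h (c, u g * y * (u g)⁻¹) = u g * h (c, y) * (u g)⁻¹ := by
  obtain ⟨A, hA⟩ := exists_amp ss tt st u hs ht
  obtain ⟨p, hp⟩ := exists_dec u hu
  have htri : ∀ S : Set (H →L[ℂ] H), S.Finite → ∃ j V W, Tri u S j V W := fun S hS =>
    exists_tri u hp (s := fun n => t ^ n * s) (sn_self ss tt st) (sn_ne ss tt st) (fun g n => by
      have : Commute (u g : H →L[ℂ] H) (t ^ n * s) :=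
        (Commute.pow_right (ht g) n).mul_right (hs g)
      exact this) hS
  let orb : unitary (H →L[ℂ] H) → Set (H →L[ℂ] H) := fun T =>
    range fun g => (u g : H →L[ℂ] H) * T * star (u g : H →L[ℂ] H)
  let o : unitary (H →L[ℂ] H) → Closeds (H →L[ℂ] H) := fun T => Closeds.closure (orb T)
  have oe : ∀ T T', edist (o T) (o T') = Metric.hausdorffEDist (orb T) (orb T') := fun T T' =>
    Metric.hausdorffEDist_closure
  have ho : Continuous o := by
    refine (LipschitzWith.of_edist_le fun T T' => ?_).continuous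
    rw [oe]
    refine Metric.hausdorffEDist_le_of_mem_edist ?_ ?_
    · rintro _ ⟨g, rfl⟩
      exact ⟨_, ⟨g, rfl⟩, by simp only [edist_dist, edist_conj]; exact le_rfl⟩
    · rintro _ ⟨g, rfl⟩
      exact ⟨_, ⟨g, rfl⟩, by simp only [edist_dist, edist_conj]; rw [dist_comm]; exact le_rfl⟩
  have hoi : ∀ g T, o (u g * T * (u g)⁻¹) = o T := fun g T => by
    have : orb (u g * T * (u g)⁻¹) = orb T := by
      have e : (fun k => (u k : H →L[ℂ] H) * ((u g * T * (u g)⁻¹ : unitary (H →L[ℂ] H)) : H →L[ℂ] H)
          * star (u k : H →L[ℂ] H)) = (fun k => (u k : H →L[ℂ] H) * T * star (u k : H →L[ℂ] H)) ∘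
          (fun k => k * g) := by
        ext1 k
        simp [mul_assoc, ← Unitary.star_eq_inv]
      simp only [orb]
      rw [e, (mul_right_surjective g).range_comp]
    simp only [o, this]
  let o' : unitary (H →L[ℂ] H) → range o := fun T => ⟨o T, T, rfl⟩
  have ho' : Continuous o' := ho.subtype_mk _
  obtain ⟨φ, hφ⟩ := PartitionOfUnity.exists_isSubordinate (X := range o) isClosed_univ
    (fun T => Metric.eball (o' T) 1) (fun _ => Metric.isOpen_eball) (by
      rintro ⟨_, T, rfl⟩ -
      exact mem_iUnion.2 ⟨T, Metric.mem_eball_self one_pos⟩)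
  obtain ⟨c, hc⟩ := exists_lev φ
  have ts : star t * s = 0 := by simpa using congrArg star st
  have ss' : ∀ y, star s * (s * y) = y := fun y => by rw [← mul_assoc, ss, one_mul]
  have tt' : ∀ y, star t * (t * y) = y := fun y => by rw [← mul_assoc, tt, one_mul]
  have st' : ∀ y, star s * (t * y) = 0 := fun y => by rw [← mul_assoc, st, zero_mul]
  have ts' : ∀ y, star t * (s * y) = 0 := fun y => by rw [← mul_assoc, ts, zero_mul]
  have hs' : ∀ g, (u g : H →L[ℂ] H) * star s = star s * u g := fun g => by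
    simpa only [u_inv, star_mul, star_star] using (congrArg star (hs g⁻¹)).symm
  obtain ⟨V, W, cV, cW, uV, uW, VV, WW, WV, hVW⟩ := glue u hc (fun T => (T : H →L[ℂ] H)) htri
    (i0 := s * star s + t * (1 - s * star s)) (i1 := t * s) (p := s) (by
      simp only [star_add, star_mul, star_sub, star_one, star_star, mul_add, add_mul, mul_sub,
        sub_mul, mul_one, one_mul, mul_assoc, ss', tt', st', ts', st, tt, mul_zero]
      abel) (by simp only [star_mul, mul_assoc, tt', ss]) (by
      simp only [star_add, star_mul, star_sub, star_one, star_star, mul_add, add_mul, mul_sub,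
        sub_mul, mul_one, one_mul, mul_assoc, ss', tt', st', ts', st, tt, ss, mul_zero]
      abel) ss (by
      simp only [mul_add, add_mul, mul_sub, sub_mul, mul_one, one_mul, mul_assoc, ss]
      abel) (fun g => by
      have h1 : Commute (u g : H →L[ℂ] H) (s * star s) := Commute.mul_right (hs g) (hs' g)
      exact h1.add_right (Commute.mul_right (ht g) ((Commute.one_right _).sub_right h1)))
    (fun g => Commute.mul_right (ht g) (hs g)) hs
  let act : G → unitary (H →L[ℂ] H) → unitary (H →L[ℂ] H) := fun g T => u g * T * (u g)⁻¹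
  have good : ∀ F : range o → H →L[ℂ] H, Continuous F →
      (∀ g y, (u g : H →L[ℂ] H) * F y = F y * u g) →
      Good (fun g => Unitary.conjStarAlgAut ℂ (H →L[ℂ] H) (u g)) act (fun T => F (o' T)) := by
    intro F h1 h2
    refine ⟨h1.comp ho', fun g T => ?_⟩
    have : o' (act g T) = o' T := Subtype.ext (hoi g T)
    rw [this, Unitary.conjStarAlgAut_apply, h2, mul_assoc, Unitary.mul_star_self_of_mem (u g).2,
      mul_one]
  have hT : Good (fun g => Unitary.conjStarAlgAut ℂ (H →L[ℂ] H) (u g)) act
      (fun T => (T : H →L[ℂ] H)) := ⟨continuous_subtype_val, fun g T => rfl⟩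
  obtain ⟨h, hg, hu', h0, h1⟩ := polar (fun T => T.2) (null_of hA hT (good V cV uV) (good W cW uW)
    (fun T => T.2) (fun _ => VV _) (fun _ => WW _) (fun _ => WV _) fun T => by
      obtain ⟨a, ha, ha0⟩ := hVW (o' T)
      have h2 : edist (o T) (o a) < 1 := hφ a (subset_tsupport _ ha)
      rw [oe] at h2
      obtain ⟨_, ⟨g, rfl⟩, h3⟩ := Metric.exists_edist_lt_of_hausdorffEDist_lt
        (show (T : H →L[ℂ] H) ∈ orb T from ⟨1, by simp⟩) h2
      rw [edist_dist, ENNReal.ofReal_lt_one, dist_eq_norm] at h3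
      have e0 : star (W (o' T)) * ((u g : H →L[ℂ] H) * a * star (u g : H →L[ℂ] H)) * V (o' T) = 0 := by
        have e1 : star (W (o' T)) * (u g : H →L[ℂ] H) = u g * star (W (o' T)) := by
          simpa only [u_inv, star_mul, star_star] using congrArg star (uW g⁻¹ (o' T))
        have e2 : star (u g : H →L[ℂ] H) * V (o' T) = V (o' T) * star (u g : H →L[ℂ] H) := by
          simpa only [u_inv] using uV g⁻¹ (o' T)
        calc _ = (star (W (o' T)) * u g) * a * (star (u g : H →L[ℂ] H) * V (o' T)) := by
              simp only [mul_assoc]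
          _ = u g * (star (W (o' T)) * a * V (o' T)) * star (u g : H →L[ℂ] H) := by
              rw [e1, e2]; simp only [mul_assoc]
          _ = 0 := by rw [ha0]; simp
      have e3 : star (W (o' T)) * (T : H →L[ℂ] H) * V (o' T) = star (W (o' T)) *
          ((T : H →L[ℂ] H) - (u g : H →L[ℂ] H) * a * star (u g : H →L[ℂ] H)) * V (o' T) := by
        rw [mul_sub, sub_mul, e0, sub_zero]
      rw [e3]
      refine lt_of_le_of_lt ((norm_mul_le _ _).trans ?_) h3
      rw [norm_iso (VV _), mul_one]
      refine (norm_mul_le _ _).trans ?_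
      rw [norm_star, norm_iso (WW _), one_mul])
  exact ⟨fun p => ⟨h p, hu' p⟩, hg.cont.subtype_mk _, fun y => Subtype.ext (h0 y),
    fun y => Subtype.ext (h1 y), fun c g y => Subtype.ext (hg.eqv g (c, y))⟩

theorem exists_st {E : Type*} [NormedAddCommGroup E] [InnerProductSpace ℂ E] [CompleteSpace E]
    (b : HilbertBasis ℕ ℂ E) : ∃ ρ τ : E →ₗᵢ[ℂ] E, ∀ x y, ⟪ρ x, τ y⟫_ℂ = 0 := by
  have h1 := b.orthonormal.comp (fun n => 2 * n) fun _ _ h => by simpa using h
  have h2 := b.orthonormal.comp (fun n => 2 * n + 1) fun _ _ h => by simpa using h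
  refine ⟨h1.orthogonalFamily.linearIsometry.comp b.repr.toLinearIsometry,
    h2.orthogonalFamily.linearIsometry.comp b.repr.toLinearIsometry, fun x y => ?_⟩
  have k2 : ∀ n, ⟪b (2 * n), h2.orthogonalFamily.linearIsometry (b.repr y)⟫_ℂ = 0 := fun n => by
    refine ((h2.orthogonalFamily.hasSum_linearIsometry (b.repr y)).mapL
      (innerSL ℂ (b (2 * n)))).unique ?_
    convert hasSum_zero with m
    simp [inner_smul_right, b.orthonormal.2 (show 2 * n ≠ 2 * m + 1 by omega)]
  rw [inner_eq_zero_symm]
  refine ((h1.orthogonalFamily.hasSum_linearIsometry (b.repr x)).mapL (innerSL ℂ _)).unique ?_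
  convert hasSum_zero with m
  simp [inner_smul_right, inner_eq_zero_symm.1 (k2 m)]

end Pool.Agent.H85.EqK
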