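import Pool.Agent.H85.ParDefs

set_option autoImplicit false

namespace Pool.Agent.H85.FlatQ

open Set Filter Pool.Agent.H85.SemiRiemDefs Pool.Agent.H85.ParDefs
open scoped Manifold ContDiff Topology

/-- A free, properly discontinuous affine action. -/
class Aff (Γ : Type) (n : outParam ℕ) [Group Γ] extends MulAction Γ (Euc n) where
  L : Γ → Euc n →L[ℝ] Euc n
  tr : Γ → Euc n
  smul_def : ∀ (g : Γ) (p : Euc n), g • p = L g p + tr g
  L_mul : ∀ g h : Γ, ∀ v, L (g * h) v = L g (L h v)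
  L_one : ∀ v, L 1 v = v
  free : IsCancelSMul Γ (Euc n)
  pd : ProperlyDiscontinuousSMul Γ (Euc n)

variable (Γ : Type) {n : ℕ} [Group Γ] [Aff Γ n]

instance : IsCancelSMul Γ (Euc n) := Aff.free
instance : ProperlyDiscontinuousSMul Γ (Euc n) := Aff.pd

variable {Γ} in
theorem smul_fun (g : Γ) : (fun q : Euc n => g • q) = fun q => Aff.L g q + Aff.tr g :=
  funext (Aff.smul_def g)

instance : ContinuousConstSMul Γ (Euc n) :=
  ⟨fun g => by rw [smul_fun]; exact (Aff.L g).continuous.add continuous_const⟩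

/-- The quotient manifold. -/
def N : Type := MulAction.orbitRel.Quotient Γ (Euc n)

instance : TopologicalSpace (N Γ) :=
  inferInstanceAs (TopologicalSpace (MulAction.orbitRel.Quotient Γ (Euc n)))

instance : T2Space (N Γ) :=
  inferInstanceAs (T2Space (Quotient (MulAction.orbitRel Γ (Euc n))))

/-- The projection. -/
noncomputable def pr : Euc n → N Γ := Quotient.mk _

theorem pr_loc : IsLocalHomeomorph (pr Γ) :=
  (isQuotientCoveringMap_quotientMk_of_properlyDiscontinuousSMul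
    (G := Γ) (E := Euc n)).isCoveringMap.isLocalHomeomorph

variable {Γ}

theorem pr_smul (g : Γ) (p : Euc n) : pr Γ (g • p) = pr Γ p := Quotient.sound ⟨g, rfl⟩

theorem pr_eq {p q : Euc n} (h : pr Γ p = pr Γ q) : ∃ g : Γ, g • q = p := Quotient.exact h

theorem pr_out (x : N Γ) : pr Γ (Quotient.out x) = x := Quotient.out_eq x

instance : ConnectedSpace (N Γ) :=
  Function.Surjective.connectedSpace (f := pr Γ) (fun x => ⟨_, pr_out x⟩) (pr_loc Γ).continuous

noncomputable instance : ChartedSpace (Euc n) (N Γ) where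
  atlas := range (pr_loc Γ).localInverseAt
  chartAt x := (pr_loc Γ).localInverseAt (Quotient.out x)
  mem_chart_source x := by
    have := (pr_loc Γ).apply_self_mem_localInverseAt_source (x := Quotient.out x)
    rwa [pr_out x] at this
  chart_mem_atlas x := ⟨_, rfl⟩

theorem atlas_symm {e : OpenPartialHomeomorph (N Γ) (Euc n)} (he : e ∈ atlas (Euc n) (N Γ)) :
    (e.symm : Euc n → N Γ) = pr Γ := by
  obtain ⟨p, rfl⟩ := he
  exact (pr_loc Γ).localInverseAt_symm p

theorem pr_chart {e : OpenPartialHomeomorph (N Γ) (Euc n)} (he : e ∈ atlas (Euc n) (N Γ))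
    {x : N Γ} (hx : x ∈ e.source) : pr Γ (e x) = x := by
  rw [← atlas_symm he]; exact e.left_inv hx

theorem chart_pr {e : OpenPartialHomeomorph (N Γ) (Euc n)} (he : e ∈ atlas (Euc n) (N Γ))
    {p : Euc n} (hp : p ∈ e.target) : e (pr Γ p) = p := by
  rw [← atlas_symm he]; exact e.right_inv hp

theorem chart_local {e : OpenPartialHomeomorph (N Γ) (Euc n)} (he : e ∈ atlas (Euc n) (N Γ))
    {p : Euc n} (hp : pr Γ p ∈ e.source) : ∃ g : Γ, (e ∘ pr Γ) =ᶠ[𝓝 p] fun q => g • q := by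
  obtain ⟨g, hg⟩ := pr_eq (pr_chart he hp)
  refine ⟨g, ?_⟩
  have : ∀ᶠ q in 𝓝 p, g • q ∈ e.target :=
    (continuous_const_smul g).continuousAt.eventually_mem
      (e.open_target.mem_nhds (by rw [hg]; exact e.map_source hp))
  filter_upwards [this] with q hq
  rw [Function.comp_apply, ← pr_smul g q, chart_pr he hq]

theorem smul_hasFDerivAt (g : Γ) (p : Euc n) :
    HasFDerivAt (fun q : Euc n => g • q) (Aff.L g) p := by
  rw [smul_fun]; exact (Aff.L g).hasFDerivAt.add_const (Aff.tr g)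

theorem smul_contDiff (g : Γ) : ContDiff ℝ ∞ (fun q : Euc n => g • q) := by
  rw [smul_fun]; exact (Aff.L g).contDiff.add contDiff_const

instance : IsManifold 𝓘(ℝ, Euc n) ∞ (N Γ) := by
  refine isManifold_of_contDiffOn _ _ _ fun e e' he he' => ?_
  intro p hp
  simp only [mfld_simps] at hp ⊢
  rw [atlas_symm he] at hp ⊢
  obtain ⟨g, hg⟩ := chart_local he' hp.2
  exact ((smul_contDiff g).contDiffAt.congr_of_eventuallyEq hg).contDiffWithinAt

theorem pr_hasMFDerivAt (p : Euc n) : ∃ g : Γ,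
    HasMFDerivAt 𝓘(ℝ, Euc n) 𝓘(ℝ, Euc n) (pr Γ) p (Aff.L g) := by
  obtain ⟨g, hg⟩ := chart_local (chart_mem_atlas (Euc n) (pr Γ p)) (mem_chart_source _ _)
  refine ⟨g, (pr_loc Γ).continuous.continuousAt, ?_⟩
  simp only [mfld_simps, hasFDerivWithinAt_univ]
  exact (smul_hasFDerivAt g p).congr_of_eventuallyEq hg

variable (Γ) in
/-- The differential of the projection. -/
noncomputable def D (p : Euc n) : Euc n →L[ℝ] Euc n :=
  mfderiv 𝓘(ℝ, Euc n) 𝓘(ℝ, Euc n) (pr Γ) p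

theorem D_spec (p : Euc n) : ∃ g : Γ, D Γ p = Aff.L g := by
  obtain ⟨g, h2⟩ := pr_hasMFDerivAt (Γ := Γ) p
  exact ⟨g, h2.mfderiv⟩

theorem pr_mdiff (p : Euc n) : HasMFDerivAt 𝓘(ℝ, Euc n) 𝓘(ℝ, Euc n) (pr Γ) p (D Γ p) := by
  obtain ⟨g, h2⟩ := pr_hasMFDerivAt (Γ := Γ) p
  exact h2.mdifferentiableAt.hasMFDerivAt

theorem D_surj (p v : Euc n) : ∃ w, D Γ p w = v := by
  obtain ⟨g, h⟩ := D_spec (Γ := Γ) p
  exact ⟨Aff.L g⁻¹ v, by rw [h, ← Aff.L_mul, mul_inv_cancel, Aff.L_one]⟩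

theorem D_inj (p : Euc n) {v w : Euc n} (k : D Γ p v = D Γ p w) : v = w := by
  obtain ⟨g, h⟩ := D_spec (Γ := Γ) p
  have := congrArg (Aff.L g⁻¹) k
  rwa [h, ← Aff.L_mul, ← Aff.L_mul, inv_mul_cancel, Aff.L_one, Aff.L_one] at this

theorem D_smul (g : Γ) (p v : Euc n) : D Γ (g • p) (Aff.L g v) = D Γ p v := by
  have h1 : HasMFDerivAt 𝓘(ℝ, Euc n) 𝓘(ℝ, Euc n) (fun q : Euc n => g • q) p (Aff.L g) :=
    (smul_hasFDerivAt g p).hasMFDerivAt
  have h2 := ((pr_mdiff (Γ := Γ) (g • p)).comp p h1).mfderiv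
  have h3 : (pr Γ ∘ fun q : Euc n => g • q) = pr Γ := funext (pr_smul g)
  rw [h3] at h2
  exact (congrArg (fun f : Euc n →L[ℝ] Euc n => f v) h2).symm

theorem dInv_eq {e : OpenPartialHomeomorph (N Γ) (Euc n)} (he : e ∈ atlas (Euc n) (N Γ))
    (y v : Euc n) : (dInv e y v : Euc n) = D Γ y v := by
  have : (mfderiv 𝓘(ℝ, Euc n) 𝓘(ℝ, Euc n) e.symm y : Euc n →L[ℝ] Euc n) = D Γ y := by
    unfold D; rw [atlas_symm he]
  exact congrArg (fun f : Euc n →L[ℝ] Euc n => f v) this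

theorem coord_D {e : OpenPartialHomeomorph (N Γ) (Euc n)} (he : e ∈ atlas (Euc n) (N Γ))
    {y : Euc n} (hy : y ∈ e.target) {x : N Γ} (hx : x = pr Γ y) (w : Euc n) :
    coord e x (D Γ y w) = w := by
  subst hx
  have hs : pr Γ y ∈ e.source := by rw [← atlas_symm he]; exact e.map_target hy
  have h1 := (mdifferentiableAt_atlas (I := 𝓘(ℝ, Euc n)) he hs).hasMFDerivAt
  have h2 := h1.comp y (pr_mdiff (Γ := Γ) y)
  have h3 : (e ∘ pr Γ) =ᶠ[𝓝 y] id := by
    filter_upwards [e.open_target.mem_nhds hy] with q hq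
    exact chart_pr he hq
  have h4 := (h2.congr_of_eventuallyEq h3.symm).mfderiv
  rw [mfderiv_id] at h4
  exact (congrArg (fun f : Euc n →L[ℝ] Euc n => f w) h4).symm

theorem chris_const (B : Euc n →L[ℝ] Euc n →L[ℝ] ℝ) (hB : ∀ v, (∀ w, B v w = 0) → v = 0)
    (y u v : Euc n) : chris (fun _ v w => B v w) y u v = 0 := by
  apply hB
  intro z
  have := Classical.epsilon_spec (p := fun c : Euc n => ∀ z, B c z = (1 / 2) *
    (dd (fun _ : Euc n => B v z) y u + dd (fun _ : Euc n => B u z) y v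
      - dd (fun _ : Euc n => B u v) y z)) ⟨0, fun z => by simp [dd]⟩ z
  simpa [dd, chris] using this

theorem locBilin_eq (B : Euc n →L[ℝ] Euc n →L[ℝ] ℝ)
    (hB : ∀ (g : Γ) v w, B (Aff.L g v) (Aff.L g w) = B v w)
    {e : OpenPartialHomeomorph (N Γ) (Euc n)} (he : e ∈ atlas (Euc n) (N Γ)) :
    locBilin (fun (_ : N Γ) v w => B v w) e = fun _ v w => B v w := by
  funext y v w
  show B (dInv e y v) (dInv e y w) = B v w
  obtain ⟨g, h⟩ := D_spec (Γ := Γ) y
  rw [dInv_eq he, dInv_eq he, h, hB]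

/-- A parallel field on a covering space lifts to a constant field. -/
theorem parallel_const (B : Euc n →L[ℝ] Euc n →L[ℝ] ℝ)
    (hB : ∀ (g : Γ) v w, B (Aff.L g v) (Aff.L g w) = B v w) (hB' : ∀ v, (∀ w, B v w = 0) → v = 0)
    {M' : Type} [TopologicalSpace M'] (π : M' → N Γ) (V : ∀ x : M', Tx (Euc n) (π x))
    (hV : IsParallelVec (fun (_ : N Γ) v w => B v w) π V) (f : Euc n → M') (hf : Continuous f)
    (hπ : ∀ y, π (f y) = pr Γ y) : ∃ w : Euc n, ∀ y, D Γ y w = (V (f y) : Euc n) := by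
  choose W hW using fun y => D_surj (Γ := Γ) y (V (f y))
  have key : ∀ y, DifferentiableAt ℝ W y ∧ fderiv ℝ W y = 0 := by
    intro y
    let e := (pr_loc Γ).localInverseAt y
    have he : e ∈ atlas (Euc n) (N Γ) := ⟨y, rfl⟩
    have hy : y ∈ e.target := (pr_loc Γ).self_mem_localInverseAt_target
    obtain ⟨h1, h2⟩ := hV e he e.target f e.open_target subset_rfl hf.continuousOn
      (fun z _ => by rw [hπ, atlas_symm he])
    have h3 : W =ᶠ[𝓝 y] fun z => coord e (π (f z)) (V (f z)) := by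
      filter_upwards [e.open_target.mem_nhds hy] with z hz
      rw [← hW z, coord_D he hz (hπ z)]
    refine ⟨((h1.contDiffAt (e.open_target.mem_nhds hy)).differentiableAt
      (by simp)).congr_of_eventuallyEq h3, ?_⟩
    rw [h3.fderiv_eq]
    ext1 u
    have := h2 y hy u
    rw [locBilin_eq B hB he, chris_const B hB', add_zero] at this
    exact this
  have hc := is_const_of_fderiv_eq_zero (fun y => (key y).1) (fun y => (key y).2)
  exact ⟨W 0, fun y => by rw [hc 0 y, hW]⟩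

theorem parallel_end (B : Euc n →L[ℝ] Euc n →L[ℝ] ℝ)
    (hB : ∀ (g : Γ) v w, B (Aff.L g v) (Aff.L g w) = B v w) (hB' : ∀ v, (∀ w, B v w = 0) → v = 0)
    (A : Euc n →ₗ[ℝ] Euc n) (hA : ∀ (g : Γ) v, A (Aff.L g v) = Aff.L g (A v)) :
    IsParallelEnd (fun (_ : N Γ) v w => B v w) (fun _ => A) := by
  intro e he v
  have h1 : ∀ y ∈ e.target, ∀ w, locEnd (fun _ : N Γ => A) e y w = A w := by
    intro y hy w
    obtain ⟨g, h⟩ := D_spec (Γ := Γ) y
    show coord e (e.symm y) (A (dInv e y w)) = A w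
    rw [dInv_eq he, h, hA, ← h]
    exact coord_D he hy (by rw [atlas_symm he]) _
  refine ⟨contDiffOn_const.congr fun y hy => h1 y hy v, fun y hy u => ?_⟩
  have h3 : (fun y' => locEnd (fun _ : N Γ => A) e y' v) =ᶠ[𝓝 y] fun _ => A v := by
    filter_upwards [e.open_target.mem_nhds hy] with z hz
    exact h1 z hz v
  rw [h3.fderiv_eq, locBilin_eq B hB he, chris_const B hB', chris_const B hB', h1 y hy]
  simp

end Pool.Agent.H85.FlatQ
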