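import Mathlib

set_option autoImplicit false

namespace Pool.Agent.H85.GameDefs

open Set

/-- The collection `D_Omega` of families of open sets. -/
def DOmega (X : Type*) [TopologicalSpace X] : Set (Set (Set X)) :=
  {C | (∀ U ∈ C, IsOpen U) ∧ Dense (⋃₀ C) ∧ (∀ U ∈ C, ¬ Dense U) ∧
    ∀ p : Set (Set X), p.Finite → (∀ F ∈ p, IsOpen F ∧ F.Nonempty) →
      ∃ U ∈ C, ∀ F ∈ p, (U ∩ F).Nonempty}

variable {M : Type*}

/-- The selection principle `S1(A, A)`. -/
def S1 (A : Set (Set M)) : Prop :=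
  ∀ C : ℕ → Set M, (∀ n, C n ∈ A) → ∃ U : ℕ → M, (∀ n, U n ∈ C n) ∧ range U ∈ A

/-- The selection principle `Sfin(A, A)`. -/
def Sfin (A : Set (Set M)) : Prop :=
  ∀ C : ℕ → Set M, (∀ n, C n ∈ A) →
    ∃ F : ℕ → Set M, (∀ n, F n ⊆ C n ∧ (F n).Finite) ∧ (⋃ n, F n) ∈ A

/-- ONE has a winning strategy in `G1(A, A)`: a member of `A` is assigned to each finite list
of earlier moves of TWO, and TWO loses every play following the strategy. -/
def OneWinsG1 (A : Set (Set M)) : Prop :=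
  ∃ s : List M → Set M, (∀ l, s l ∈ A) ∧
    ∀ U : ℕ → M, (∀ n, U n ∈ s ((List.range n).map U)) → range U ∉ A

/-- ONE has a winning strategy in `Gfin(A, A)`. -/
def OneWinsGfin (A : Set (Set M)) : Prop :=
  ∃ s : List (Set M) → Set M, (∀ l, s l ∈ A) ∧
    ∀ F : ℕ → Set M, (∀ n, F n ⊆ s ((List.range n).map F) ∧ (F n).Finite) → (⋃ n, F n) ∉ A

end Pool.Agent.H85.GameDefs
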