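import Mathlib
import Pool.Agent.H85.GameDefs

set_option autoImplicit false

namespace Pool.Agent.H85.Game

open Set Pool.Agent.H85.GameDefs

variable {X : Type*} [TopologicalSpace X]

/-- Finite families of nonempty open sets. -/
def Cond (p : Set (Set X)) : Prop := p.Finite ∧ ∀ F ∈ p, IsOpen F ∧ F.Nonempty

/-- `U` meets every member of `p`. -/
def Cmp {Y : Type*} (p : Set (Set Y)) (U : Set Y) : Prop := ∀ F ∈ p, (U ∩ F).Nonempty

theorem Cmp.mono {Y : Type*} {p : Set (Set Y)} {U V : Set Y} (h : Cmp p U) (hUV : U ⊆ V) :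
    Cmp p V := fun F hF => (h F hF).mono (inter_subset_inter_left _ hUV)

theorem mem_of {C : Set (Set X)} (h1 : ∀ U ∈ C, IsOpen U ∧ ¬ Dense U)
    (h2 : ∀ p, Cond p → ∃ U ∈ C, Cmp p U) : C ∈ DOmega X := by
  refine ⟨fun U hU => (h1 U hU).1, dense_iff_inter_open.2 fun F hF hne => ?_,
    fun U hU => (h1 U hU).2, fun p hp hp' => h2 p ⟨hp, hp'⟩⟩
  obtain ⟨U, hU, h⟩ := h2 {F} ⟨finite_singleton F, by simpa using ⟨hF, hne⟩⟩
  obtain ⟨x, hx1, hx2⟩ := h F rfl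
  exact ⟨x, hx2, U, hU, hx1⟩

theorem refine_one {C : Set (Set X)} (hC : C ∈ DOmega X) {p : Set (Set X)} (hp : Cond p)
    {W : Set X} (hW : IsOpen W) (h : Cmp p W) : ∃ U ∈ C, Cmp p (W ∩ U) := by
  obtain ⟨U, hU, hc⟩ := hC.2.2.2 ((fun F => W ∩ F) '' p) (hp.1.image _) (by
    rintro _ ⟨F, hF, rfl⟩; exact ⟨hW.inter (hp.2 F hF).1, h F hF⟩)
  refine ⟨U, hU, fun F hF => ?_⟩
  obtain ⟨x, h1, h2, h3⟩ := hc _ ⟨F, hF, rfl⟩
  exact ⟨x, ⟨h2, h1⟩, h3⟩

theorem refine_fin {I : Type*} {u : I → ℕ → Set X} (hu : ∀ σ, range (u σ) ∈ DOmega X)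
    {S : Set I} (hS : S.Finite) {p : Set (Set X)} (hp : Cond p) {W : Set X} (hW : IsOpen W)
    (h : Cmp p W) : ∃ W', IsOpen W' ∧ W' ⊆ W ∧ Cmp p W' ∧ ∀ σ ∈ S, ∃ i, W' ⊆ u σ i := by
  induction S, hS using Set.Finite.induction_on with
  | empty => exact ⟨W, hW, Subset.rfl, h, by simp⟩
  | @insert a s _ _ ih =>
    obtain ⟨W', h1, h2, h3, h4⟩ := ih
    obtain ⟨_, ⟨i, rfl⟩, h5⟩ := refine_one (hu a) hp h1 h3
    refine ⟨W' ∩ u a i, h1.inter ((hu a).1 _ ⟨i, rfl⟩), inter_subset_left.trans h2, h5, ?_⟩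
    rintro σ (rfl | hσ)
    · exact ⟨i, inter_subset_right⟩
    · obtain ⟨j, hj⟩ := h4 σ hσ
      exact ⟨j, inter_subset_left.trans hj⟩

/-- The node of the branch `f` at level `n`, latest entry first. -/
def nd (f : ℕ → ℕ) : ℕ → List ℕ
  | 0 => []
  | n + 1 => f n :: nd f n

theorem nd_length (f : ℕ → ℕ) (n : ℕ) : (nd f n).length = n := by
  induction n with
  | zero => rfl
  | succ n ih => simp [nd, ih]

theorem exists_branch (K : ℕ → List ℕ → ℕ) : ∃ f : ℕ → ℕ, ∀ n, f n = K n (nd f n) := by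
  let τ : ℕ → List ℕ := fun n => Nat.rec [] (fun n σ => K n σ :: σ) n
  have : ∀ n, nd (fun n => K n (τ n)) n = τ n := fun n => by
    induction n with
    | zero => rfl
    | succ n ih => simp only [nd, ih]; rfl
  exact ⟨fun n => K n (τ n), fun n => by rw [this]⟩

/-- `W` lies in a set chosen along the node. -/
def Cov {Y : Type*} (u : List ℕ → ℕ → Set Y) (N : ℕ) (W : Set Y) : List ℕ → Prop
  | [] => False
  | k :: σ => Cov u N W σ ∨ (N ≤ k ∧ ∃ i ≤ k, W ⊆ u σ i)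

theorem Cov.anti {Y : Type*} {u : List ℕ → ℕ → Set Y} {N : ℕ} {W W' : Set Y} (hW : W' ⊆ W)
    {σ : List ℕ} (h : Cov u N W σ) : Cov u N W' σ := by
  induction σ with
  | nil => exact h
  | cons k σ ih =>
    rcases h with h | ⟨h1, i, h2, h3⟩
    · exact Or.inl (ih h)
    · exact Or.inr ⟨h1, i, h2, hW.trans h3⟩

theorem Cov.branch {Y : Type*} {u : List ℕ → ℕ → Set Y} {N : ℕ} {W : Set Y} {f : ℕ → ℕ} {n : ℕ}
    (h : Cov u N W (nd f n)) : ∃ j, N ≤ f j ∧ ∃ i ≤ f j, W ⊆ u (nd f j) i := by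
  induction n with
  | zero => exact h.elim
  | succ n ih =>
    rcases h with h | h
    · exact ih h
    · exact ⟨n, h⟩

theorem good_exists {u : List ℕ → ℕ → Set X} (hu : ∀ σ, range (u σ) ∈ DOmega X) (N n : ℕ)
    {p : Set (Set X)} (hp : Cond p) :
    ∃ W, IsOpen W ∧ Cmp p W ∧ {σ | σ.length = n ∧ ¬ Cov u N W σ}.Finite := by
  induction n with
  | zero =>
    refine ⟨univ, isOpen_univ, fun F hF => by simpa using (hp.2 F hF).2,
      (finite_singleton []).subset fun σ hσ => List.length_eq_zero_iff.1 hσ.1⟩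
  | succ n ih =>
    obtain ⟨W, h1, h2, h3⟩ := ih
    obtain ⟨W', h4, h5, h6, h7⟩ := refine_fin hu h3 hp h1 h2
    choose! i hi using h7
    refine ⟨W', h4, h6, (h3.biUnion (t := fun σ => (fun k => k :: σ) '' Iio (max N (i σ)))
      fun σ _ => (finite_Iio _).image _).subset ?_⟩
    rintro (_ | ⟨k, σ⟩) ⟨hl, hc⟩
    · simp at hl
    · have hσ : σ ∈ {σ | σ.length = n ∧ ¬ Cov u N W σ} :=
        ⟨by simpa using hl, fun h => hc (Or.inl (h.anti h5))⟩
      refine mem_biUnion hσ ⟨k, ?_, rfl⟩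
      by_contra hk
      have hk : max N (i σ) ≤ k := not_lt.1 hk
      exact hc (Or.inr ⟨by omega, i σ, by omega, hi σ hσ⟩)

theorem tree_fin (hS : Sfin (DOmega X)) {u : List ℕ → ℕ → Set X}
    (hu : ∀ σ, range (u σ) ∈ DOmega X) : ∃ f : ℕ → ℕ, ∀ p, Cond p → ∀ N, ∃ j, N ≤ j ∧
      ∃ i ≤ f j, Cmp p (u (nd f j) i) := by
  have hG : ∀ N n, {W | (IsOpen W ∧ ¬ Dense W) ∧
      {σ | σ.length = n ∧ ¬ Cov u N W σ}.Finite} ∈ DOmega X := fun N n =>
    mem_of (fun U hU => hU.1) fun p hp => by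
      obtain ⟨W, h1, h2, h3⟩ := good_exists hu N n hp
      obtain ⟨W', h4, h5, h6, h7⟩ := refine_fin hu (finite_singleton []) hp h1 h2
      obtain ⟨i, hi⟩ := h7 [] rfl
      exact ⟨W', ⟨⟨h4, fun hd => (hu []).2.2.1 _ ⟨i, rfl⟩ (hd.mono hi)⟩,
        h3.subset fun σ hσ => ⟨hσ.1, fun h => hσ.2 (h.anti h5)⟩⟩, h6⟩
  choose H hH1 hH2 using fun N => hS _ fun m => hG N (Nat.pair N m + 1)
  have hK : ∀ (n : ℕ) (σ : List ℕ), ∃ k, ∀ W ∈ H n.unpair.1 n.unpair.2,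
      k :: σ ∉ {τ | τ.length = n + 1 ∧ ¬ Cov u n.unpair.1 W τ} := by
    intro n σ
    have hf := (hH1 n.unpair.1 n.unpair.2).2.biUnion
      fun W hW => ((hH1 n.unpair.1 n.unpair.2).1 hW).2
    obtain ⟨k, hk⟩ := (hf.preimage (f := fun k => k :: σ)
      (fun a _ b _ hab => by simpa using hab)).infinite_compl.nonempty
    exact ⟨k, fun W hW hc => hk (mem_biUnion hW (by simpa using hc))⟩
  choose K hK using hK
  obtain ⟨f, hf⟩ := exists_branch K
  refine ⟨f, fun p hp N => ?_⟩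
  obtain ⟨W, hW, hc⟩ := (hH2 ((Finset.range N).sup f + 1)).2.2.2 p hp.1 hp.2
  obtain ⟨m, hm⟩ := mem_iUnion.1 hW
  have := hK (Nat.pair ((Finset.range N).sup f + 1) m) 
    (nd f (Nat.pair ((Finset.range N).sup f + 1) m)) W (by simpa using hm)
  rw [← hf] at this
  simp only [Nat.unpair_pair, mem_ofPred_eq, not_and, not_not] at this
  obtain ⟨j, h1, i, h2, h3⟩ := Cov.branch (n := Nat.pair ((Finset.range N).sup f + 1) m + 1)
    (this (nd_length f (_ + 1)))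
  refine ⟨j, ?_, i, h2, Cmp.mono hc h3⟩
  by_contra hj
  have : f j ≤ (Finset.range N).sup f := Finset.le_sup (Finset.mem_range.2 (not_le.1 hj))
  omega

theorem enum (hS : Sfin (DOmega X)) {C : Set (Set X)} (hC : C ∈ DOmega X) :
    ∃ e : ℕ → Set X, (∀ i, e i ∈ C) ∧ range e ∈ DOmega X := by
  obtain ⟨F, h1, h2⟩ := hS (fun _ => C) fun _ => hC
  obtain ⟨U, hU, -⟩ := h2.2.2.2 ∅ finite_empty (by simp)
  obtain ⟨e, he⟩ := (countable_iUnion fun n => (h1 n).2.countable).exists_eq_range ⟨U, hU⟩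
  refine ⟨e, fun i => ?_, he ▸ h2⟩
  obtain ⟨n, hn⟩ := mem_iUnion.1 (he ▸ mem_range_self i : e i ∈ ⋃ n, F n)
  exact (h1 n).1 hn

theorem sfin_iff : Sfin (DOmega X) ↔ ¬ OneWinsGfin (DOmega X) := by
  constructor
  · rintro hS ⟨s, hs1, hs2⟩
    choose e he1 he2 using fun l => enum hS (hs1 l)
    let h : List ℕ → List (Set (Set X)) := fun σ =>
      List.rec [] (fun k _ l => l ++ [e l '' Iic k]) σ
    obtain ⟨f, hf⟩ := tree_fin hS (u := fun σ => e (h σ)) fun σ => he2 _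
    let F : ℕ → Set (Set X) := fun n => e (h (nd f n)) '' Iic (f n)
    have hh : ∀ n, (List.range n).map F = h (nd f n) := fun n => by
      induction n with
      | zero => rfl
      | succ n ih => rw [List.range_succ, List.map_append, ih]; rfl
    refine hs2 F (fun n => ⟨?_, (finite_Iic _).image _⟩) (mem_of ?_ fun p hp => ?_)
    · rintro _ ⟨i, -, rfl⟩; rw [hh]; exact he1 _ _
    · intro U hU
      obtain ⟨n, i, -, rfl⟩ := mem_iUnion.1 hU
      exact ⟨(hs1 _).1 _ (he1 _ _), (hs1 _).2.2.1 _ (he1 _ _)⟩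
    · obtain ⟨j, -, i, hi, hc⟩ := hf p hp 0
      exact ⟨_, mem_iUnion.2 ⟨j, i, hi, rfl⟩, hc⟩
  · intro h C hC
    by_contra hc
    exact h ⟨fun l => C l.length, fun l => hC _, fun F hF hA => hc ⟨F, by simpa using hF, hA⟩⟩

theorem sfin_of_s1 {M : Type*} {A : Set (Set M)} (h : S1 A) : Sfin A := fun C hC => by
  obtain ⟨U, h1, h2⟩ := h C hC
  exact ⟨fun n => {U n}, fun n => ⟨by simpa using h1 n, finite_singleton _⟩, by
    rwa [iUnion_singleton_eq_range]⟩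

theorem select_one (hS : S1 (DOmega X)) {v : ℕ → ℕ → Set X} {g : ℕ → ℕ}
    (ho : ∀ j i, IsOpen (v j i) ∧ ¬ Dense (v j i))
    (hv : ∀ p, Cond p → ∀ N, ∃ j, N ≤ j ∧ ∃ i ≤ g j, Cmp p (v j i)) :
    ∃ I : ℕ → ℕ, (∀ j, I j ≤ g j) ∧ ∀ p, Cond p → ∃ j, Cmp p (v j (I j)) := by
  classical
  have key : ∀ m p, Cond p → ∃ W, IsOpen W ∧ Cmp p W ∧ ∃ J : Finset ℕ, J.card = m ∧
      ∀ j ∈ J, ∃ i ≤ g j, W ⊆ v j i := by
    intro m p hp
    induction m with
    | zero => exact ⟨univ, isOpen_univ, fun F hF => by simpa using (hp.2 F hF).2, ∅, rfl, by simp⟩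
    | succ m ih =>
      obtain ⟨W, h1, h2, J, h3, h4⟩ := ih
      obtain ⟨j, hj, i, hi, hc⟩ := hv ((fun F => W ∩ F) '' p) ⟨hp.1.image _, by
        rintro _ ⟨F, hF, rfl⟩; exact ⟨h1.inter (hp.2 F hF).1, h2 F hF⟩⟩ (J.sup id + 1)
      refine ⟨W ∩ v j i, h1.inter (ho j i).1, fun F hF => ?_, insert j J, ?_, ?_⟩
      · obtain ⟨x, a1, a2, a3⟩ := hc _ ⟨F, hF, rfl⟩
        exact ⟨x, ⟨a2, a1⟩, a3⟩
      · rw [Finset.card_insert_of_notMem, h3]
        intro hj'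
        have : j ≤ J.sup id := Finset.le_sup (f := id) hj'
        omega
      · intro j' hj'
        rcases Finset.mem_insert.1 hj' with rfl | hj'
        · exact ⟨i, hi, inter_subset_right⟩
        · obtain ⟨i', a1, a2⟩ := h4 j' hj'
          exact ⟨i', a1, inter_subset_left.trans a2⟩
  obtain ⟨W, hW1, hW2⟩ := hS (fun m => {W | (IsOpen W ∧ ¬ Dense W) ∧ ∃ J : Finset ℕ,
      J.card = m + 1 ∧ ∀ j ∈ J, ∃ i ≤ g j, W ⊆ v j i}) fun m =>
    mem_of (fun U hU => hU.1) fun p hp => by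
      obtain ⟨W, h1, h2, J, h3, h4⟩ := key (m + 1) p hp
      obtain ⟨j, hj⟩ := Finset.card_pos.1 (show 0 < J.card by omega)
      obtain ⟨i, -, hi⟩ := h4 j hj
      exact ⟨W, ⟨⟨h1, fun hd => (ho j i).2 (hd.mono hi)⟩, J, h3, h4⟩, h2⟩
  choose J hJ1 hJ2 using fun m => (hW1 m).2
  obtain ⟨r, hr1, hr2⟩ := (Finset.all_card_le_biUnion_card_iff_exists_injective J).1 fun s => by
    rcases s.eq_empty_or_nonempty with rfl | hs
    · simp
    · calc s.card ≤ (Finset.range (s.max' hs + 1)).card := Finset.card_le_card fun a ha =>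
            Finset.mem_range.2 (Nat.lt_succ_of_le (s.le_max' a ha))
        _ = (J (s.max' hs)).card := by rw [hJ1, Finset.card_range]
        _ ≤ _ := Finset.card_le_card (Finset.subset_biUnion_of_mem J (s.max'_mem hs))
  have : ∀ j, ∃ i ≤ g j, ∀ m, r m = j → W m ⊆ v j i := fun j => by
    by_cases h : ∃ m, r m = j
    · obtain ⟨m, rfl⟩ := h
      obtain ⟨i, h1, h2⟩ := hJ2 m _ (hr2 m)
      exact ⟨i, h1, fun m' hm' => hr1 hm' ▸ h2⟩
    · exact ⟨0, Nat.zero_le _, fun m hm => absurd ⟨m, hm⟩ h⟩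
  choose I hI1 hI2 using this
  refine ⟨I, hI1, fun p hp => ?_⟩
  obtain ⟨_, ⟨m, rfl⟩, hc⟩ := hW2.2.2.2 p hp.1 hp.2
  exact ⟨r m, Cmp.mono hc (hI2 _ m rfl)⟩

theorem tree_one (hS : S1 (DOmega X)) {t : List ℕ → ℕ → Set X}
    (ht : ∀ σ, range (t σ) ∈ DOmega X) :
    ∃ f : ℕ → ℕ, ∀ p, Cond p → ∃ j, Cmp p (t (nd f j) (f j)) := by
  have hR : ∀ T : {T : Set (List ℕ) // T.Finite}, {V | (IsOpen V ∧ ¬ Dense V) ∧
      ∀ σ ∈ T.1, ∃ k, V ⊆ t σ k} ∈ DOmega X := fun T =>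
    mem_of (fun U hU => hU.1) fun p hp => by
      obtain ⟨W, h1, -, h2, h3⟩ := refine_fin ht (T.2.insert []) hp isOpen_univ
        (fun F hF => by simpa using (hp.2 F hF).2)
      obtain ⟨i, hi⟩ := h3 [] (mem_insert _ _)
      exact ⟨W, ⟨⟨h1, fun hd => (ht []).2.2.1 _ ⟨i, rfl⟩ (hd.mono hi)⟩,
        fun σ hσ => h3 σ (mem_insert_of_mem _ hσ)⟩, h2⟩
  choose e he1 he2 using fun T => enum (sfin_of_s1 hS) (hR T)
  choose! κ hκ using fun T i => (he1 T i).2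
  let T : List ℕ → {T : Set (List ℕ) // T.Finite} := fun ρ =>
    List.rec ⟨{[]}, finite_singleton _⟩ (fun k _ S =>
      ⟨image2 (fun i σ => κ S i σ :: σ) (Iic k) S.1, (finite_Iic k).image2 _ S.2⟩) ρ
  obtain ⟨g, hg⟩ := tree_fin (sfin_of_s1 hS) (u := fun ρ => e (T ρ)) fun ρ => he2 _
  obtain ⟨I, hI1, hI2⟩ := select_one hS (v := fun j => e (T (nd g j))) (g := g)
    (fun j i => (he1 _ _).1) hg
  obtain ⟨f, hf⟩ := exists_branch fun n σ => κ (T (nd g n)) (I n) σ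
  have hmem : ∀ n, nd f n ∈ (T (nd g n)).1 := fun n => by
    induction n with
    | zero => exact rfl
    | succ n ih => exact ⟨I n, hI1 n, nd f n, ih, by simp only [nd]; rw [hf n]⟩
  refine ⟨f, fun p hp => ?_⟩
  obtain ⟨j, hj⟩ := hI2 p hp
  exact ⟨j, hj.mono (hf j ▸ hκ _ _ _ (hmem j))⟩

theorem s1_iff : S1 (DOmega X) ↔ ¬ OneWinsG1 (DOmega X) := by
  constructor
  · rintro hS ⟨s, hs1, hs2⟩
    choose e he1 he2 using fun l => enum (sfin_of_s1 hS) (hs1 l)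
    let h : List ℕ → List (Set X) := fun σ => List.rec [] (fun k _ l => l ++ [e l k]) σ
    obtain ⟨f, hf⟩ := tree_one hS (t := fun σ => e (h σ)) fun σ => he2 _
    let U : ℕ → Set X := fun n => e (h (nd f n)) (f n)
    have hh : ∀ n, (List.range n).map U = h (nd f n) := fun n => by
      induction n with
      | zero => rfl
      | succ n ih => rw [List.range_succ, List.map_append, ih]; rfl
    refine hs2 U (fun n => by rw [hh]; exact he1 _ _) (mem_of ?_ fun p hp => ?_)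
    · rintro _ ⟨n, rfl⟩
      exact ⟨(hs1 _).1 _ (he1 _ _), (hs1 _).2.2.1 _ (he1 _ _)⟩
    · obtain ⟨j, hc⟩ := hf p hp
      exact ⟨_, ⟨j, rfl⟩, hc⟩
  · intro h C hC
    by_contra hc
    exact h ⟨fun l => C l.length, fun l => hC _, fun F hF hA => hc ⟨F, by simpa using hF, hA⟩⟩

end Pool.Agent.H85.Game
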