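import Mathlib

set_option autoImplicit false

namespace Pool.Agent.H85.GammaOne

open Set Filter Topology

/-- A nonempty open subset of a perfect set contains infinitely many disjoint closed pieces
with nonempty interior in the perfect set. -/
theorem pieces {P : Set ℝ} (hP : Preperfect P) {U : Set ℝ} (hU : IsOpen U) (hne : (P ∩ U).Nonempty) :
    ∃ (F : ℕ → Set ℝ), (∀ m, IsClosed (F m)) ∧ Pairwise (Function.onFun Disjoint F) ∧
      ∀ m, (P ∩ U ∩ interior (F m)).Nonempty := by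
  obtain ⟨p, hp, hpU⟩ := hne
  have h : ∀ r : ℝ, ∃ q, 0 < r → q ∈ P ∧ q ∈ U ∧ q ≠ p ∧ dist q p < r := fun r => by
    by_cases hr : 0 < r
    · obtain ⟨q, ⟨⟨h1, h2⟩, h3⟩, h4⟩ := accPt_iff_nhds.1 (hP p hp) (U ∩ Metric.ball p r)
        (inter_mem (hU.mem_nhds hpU) (Metric.ball_mem_nhds p hr))
      exact ⟨q, fun _ => ⟨h3, h1, h4, h2⟩⟩
    · exact ⟨p, fun h => absurd h hr⟩
  choose q hq using h
  let r : ℕ → ℝ := fun n => (fun t => dist (q t) p / 2)^[n] 1
  have hr : ∀ n, r (n + 1) = dist (q (r n)) p / 2 := fun n => Function.iterate_succ_apply' _ _ _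
  have hpos : ∀ n, 0 < r n := fun n => by
    induction n with
    | zero => exact one_pos
    | succ n ih => rw [hr]; exact half_pos (dist_pos.2 (hq _ ih).2.2.1)
  have hanti : StrictAnti r := strictAnti_nat_of_succ_lt fun n => by
    have := (hq _ (hpos n)).2.2.2
    have := hpos n
    rw [hr]; linarith
  have hd : Continuous fun x : ℝ => dist x p := by fun_prop
  refine ⟨fun m => {x | 3 / 2 * r (m + 1) ≤ dist x p ∧ dist x p ≤ r m}, fun m =>
    (isClosed_le continuous_const hd).inter (isClosed_le hd continuous_const),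
    ?_, fun m => ⟨q (r m), ⟨(hq _ (hpos m)).1, (hq _ (hpos m)).2.1⟩, ?_⟩⟩
  · refine pairwise_disjoint_on _ |>.2 fun m n hmn => ?_
    refine disjoint_left.2 fun x hx hx' => ?_
    have h1 := hanti.antitone (show m + 1 ≤ n from hmn)
    have h2 := hpos (m + 1)
    linarith [hx.1, hx'.2]
  · refine mem_interior.2 ⟨{x | 3 / 2 * r (m + 1) < dist x p ∧ dist x p < r m},
      fun x hx => ⟨hx.1.le, hx.2.le⟩, (isOpen_lt continuous_const hd).inter
        (isOpen_lt hd continuous_const), ?_, (hq _ (hpos m)).2.2.2⟩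
    have := hpos (m + 1)
    rw [hr] at this ⊢
    linarith

theorem meagre {X : Set ℝ}
    (hX : ∀ V : ℕ → ℕ → Set X, (∀ n m, IsOpen (V n m)) →
      (∀ x n, {m | x ∉ V n m}.Subsingleton) → ∃ d : ℕ → ℕ, ∀ x, ∀ᶠ n in atTop, x ∈ V n (d n))
    {P : Set ℝ} (hP : Perfect P) (hne : P.Nonempty) : IsMeagre (Subtype.val ⁻¹' X : Set P) := by
  obtain ⟨B, hBc, -, hB⟩ := TopologicalSpace.exists_countable_basis ℝ
  have hc : {U ∈ B | (P ∩ U).Nonempty}.Countable := hBc.mono fun U hU => hU.1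
  have hn : {U ∈ B | (P ∩ U).Nonempty}.Nonempty := by
    obtain ⟨p, hp⟩ := hne
    obtain ⟨U, hU, hpU, -⟩ := hB.exists_subset_of_mem_open (mem_univ p) isOpen_univ
    exact ⟨U, hU, p, hp, hpU⟩
  obtain ⟨u, hu⟩ := hc.exists_eq_range hn
  have hm : ∀ n, u n ∈ {U ∈ B | (P ∩ U).Nonempty} := fun n => hu ▸ mem_range_self n
  choose F h1 h2 h3 using fun n : ℕ => pieces hP.acc (hB.isOpen (hm n.unpair.1).1) (hm n.unpair.1).2
  obtain ⟨d, hd⟩ := hX (fun n m => Subtype.val ⁻¹' (F n m)ᶜ)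
    (fun n m => (h1 n m).isOpen_compl.preimage continuous_subtype_val) (fun x n a ha b hb => by
      by_contra hab
      exact disjoint_left.1 (h2 n hab) (not_not.1 ha) (not_not.1 hb))
  have : (⋂ N, ⋃ n ∈ Ici N, (Subtype.val ⁻¹' interior (F n (d n)) : Set P)) ∈ residual P := by
    refine countable_iInter_mem.2 fun N => residual_of_dense_open
      (isOpen_biUnion fun n _ => isOpen_interior.preimage continuous_subtype_val) ?_
    refine dense_iff_inter_open.2 fun W hW ⟨p, hp⟩ => ?_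
    obtain ⟨W', hW', rfl⟩ := isOpen_induced_iff.1 hW
    obtain ⟨U, hU, hpU, hUW⟩ := hB.exists_subset_of_mem_open hp hW'
    obtain ⟨k, hk⟩ : U ∈ range u := hu ▸ ⟨hU, p, p.2, hpU⟩
    obtain ⟨x, ⟨hx1, hx2⟩, hx3⟩ := h3 (Nat.pair k N) (d (Nat.pair k N))
    simp only [Nat.unpair_pair, hk] at hx2
    exact ⟨⟨x, hx1⟩, hUW hx2, mem_biUnion (x := Nat.pair k N) (Nat.right_le_pair k N) hx3⟩
  refine mem_of_superset this fun p hp hX' => ?_
  obtain ⟨N, hN⟩ := eventually_atTop.1 (hd ⟨p.1, hX'⟩)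
  obtain ⟨n, hn, hp'⟩ := mem_iUnion₂.1 (mem_iInter.1 hp N)
  exact hN n hn (interior_subset hp')

end Pool.Agent.H85.GammaOne
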