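import Mathlib

/-! Virtual and welded string links as Gauss diagrams modulo the Gauss-diagram forms of the
Reidemeister moves (virtual crossings, planar isotopy and the virtual and mixed moves do not
change the Gauss diagram). -/

namespace Pool.Agent.H85.Gauss

/-- One of the two passages of the diagram through a classical crossing: the name of the crossing,
`true` for the over-passing branch (tail of the arrow) and `false` for the under-passing branch
(head), and the sign of the crossing (`true` for `+`). -/
abbrev End := ℕ × Bool × Bool

/-- A Gauss diagram on ordered oriented strands: for each strand, the passages met along it. -/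
abbrev Diagram := List (List End)

/-- Words in passages and in the symbol `none`, which marks the end of a strand. -/
abbrev Word := List (Option End)

/-- The strands written one after the other, each followed by `none`. -/
def flat (D : Diagram) : Word := (D.map fun c => c.map some ++ [none]).flatten

/-- `D` is a Gauss diagram on `n` strands: every crossing that occurs is passed exactly once over
and once under, with one sign. -/
def WF (n : ℕ) (D : Diagram) : Prop :=
  D.length = n ∧ (D.flatten.map fun e => (e.1, e.2.1)).Nodup ∧
    ∀ e ∈ D.flatten, (e.1, !e.2.1, e.2.2) ∈ D.flatten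

/-- Over-passage of crossing `a` of sign `s`. -/
def O (a : ℕ) (s : Bool) : Option End := some (a, true, s)

/-- Under-passage of crossing `a` of sign `s`. -/
def U (a : ℕ) (s : Bool) : Option End := some (a, false, s)

/-- `p` then `q` if `d`, and `q` then `p` otherwise. -/
def ord (d : Bool) (p q : Option End) : Word := if d then [p, q] else [q, p]

/-- Moves: renaming of crossings, R1, R2, R3 (all oriented versions; in R3, `a` is top over
middle, `b` top over bottom, `c` middle over bottom); Overcrossings Commute if `oc`;
self-crossing change if `sc`. -/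
inductive Move (oc sc : Bool) : Word → Word → Prop
  | rename (σ : ℕ → ℕ) (hσ : Function.Injective σ) (w : Word) :
      Move oc sc w (w.map (Option.map fun e => (σ e.1, e.2)))
  | r1 (x y : Word) (a : ℕ) (s d : Bool) :
      Move oc sc (x ++ y) (x ++ ord d (O a s) (U a s) ++ y)
  | r2 (x y z P Q : Word) (a b : ℕ) (s d : Bool)
      (h : [P, Q].Perm [[O a s, O b (!s)], ord d (U a s) (U b (!s))]) :
      Move oc sc (x ++ y ++ z) (x ++ P ++ y ++ Q ++ z)
  | r3 (x y z v P Q R : Word) (a b c : ℕ) (sa sb sc' t m u : Bool)
      (h : [P, Q, R].Perm
        [ord t (O a sa) (O b sb), ord m (U a sa) (O c sc'), ord u (U b sb) (U c sc')])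
      (h1 : (sa == sb) = (m == u)) (h2 : (sa == sc') = (t == u)) :
      Move oc sc (x ++ P ++ y ++ Q ++ z ++ R ++ v)
        (x ++ P.reverse ++ y ++ Q.reverse ++ z ++ R.reverse ++ v)
  | oc (h : oc = true) (x y : Word) (a b : ℕ) (s t : Bool) :
      Move oc sc (x ++ [O a s, O b t] ++ y) (x ++ [O b t, O a s] ++ y)
  | sc (h : sc = true) (x y z : Word) (a : ℕ) (o s : Bool) (hy : none ∉ y) :
      Move oc sc (x ++ [some (a, o, s)] ++ y ++ [some (a, !o, s)] ++ z)
        (x ++ [some (a, !o, !s)] ++ y ++ [some (a, o, !s)] ++ z)

/-- One move between Gauss diagrams on `n` strands. -/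
def Step (oc sc : Bool) (n : ℕ) (D D' : Diagram) : Prop :=
  WF n D ∧ WF n D' ∧ Move oc sc (flat D) (flat D')

/-- Equality in `vSL_n` (`oc = sc = false`), `wSL_n` (`oc`), `vSL_n^{sc}` (`sc`),
`wSL_n^{sc}` (both). -/
def Eqv (oc sc : Bool) (n : ℕ) : Diagram → Diagram → Prop := Relation.EqvGen (Step oc sc n)

/-- Monotone diagram: the crossings can be given heights that increase along every strand. -/
def Mono (D : Diagram) : Prop :=
  ∃ h : ℕ → ℕ, ∀ c ∈ D, c.Pairwise fun e e' => h e.1 < h e'.1

/-- Equality in the pure braid group `vP_n` (`oc = false`) or `wP_n` (`oc = true`): moves carried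
out through monotone diagrams. -/
def EqvP (oc : Bool) (n : ℕ) : Diagram → Diagram → Prop :=
  Relation.EqvGen fun D D' => Mono D ∧ Mono D' ∧ Step oc false n D D'

/-- The trivial string link on `n` strands. -/
def triv (n : ℕ) : Diagram := List.replicate n []

/-- Stacking product (crossings renamed to keep them apart). -/
def stack (D D' : Diagram) : Diagram :=
  List.zipWith (fun c c' => c.map (fun e => (2 * e.1, e.2)) ++ c'.map fun e => (2 * e.1 + 1, e.2))
    D D'

end Pool.Agent.H85.Gauss
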