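import Pool.Agent.H85.GaussPath

namespace Pool.Agent.H85.Gauss

def Rh (h : ℕ → ℕ) (p q : Option End) : Prop := ∀ e ∈ p, ∀ e' ∈ q, h e.1 < h e'.1

theorem chain_flat (h : ℕ → ℕ) (D : Diagram)
    (hD : ∀ c ∈ D, c.Pairwise fun e e' => h e.1 < h e'.1) : (flat D).IsChain (Rh h) := by
  induction D with
  | nil => exact List.IsChain.nil
  | cons c D ih =>
    rw [flat_cons]
    have h1 : (none :: flat D).IsChain (Rh h) := by
      rw [List.isChain_cons]
      exact ⟨fun y _ e he => by simp at he, ih fun c' hc' => hD c' (List.mem_cons_of_mem _ hc')⟩
    rw [List.isChain_append]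
    refine ⟨?_, h1, ?_⟩
    · rw [List.isChain_map]
      refine (hD c List.mem_cons_self).isChain.imp ?_
      intro a b hab e he e' he'
      simp only [Option.mem_def, Option.some.injEq] at he he'
      subst he he'
      exact hab
    · intro x _ y hy e _ e' he'
      simp only [List.head?_cons, Option.mem_def, Option.some.injEq] at hy
      subst hy
      simp at he'

theorem chain_lt (h : ℕ → ℕ) (y z : Word) (e e' : End) (hy : none ∉ y)
    (hc : (some e :: (y ++ some e' :: z)).IsChain (Rh h)) : h e.1 < h e'.1 := by
  induction y generalizing e with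
  | nil =>
    simp only [List.nil_append, List.isChain_cons_cons] at hc
    exact hc.1 e rfl e' rfl
  | cons p y ih =>
    cases p with
    | none => simp at hy
    | some f =>
      simp only [List.cons_append, List.isChain_cons_cons] at hc
      have := hc.1 e rfl f rfl
      exact this.trans (ih f (fun k => hy (List.mem_cons_of_mem _ k)) hc.2)

theorem chain_ne (h : ℕ → ℕ) (x y z : Word) (e e' : End) (hy : none ∉ y)
    (hc : (x ++ some e :: (y ++ some e' :: z)).IsChain (Rh h)) : e.1 ≠ e'.1 := by
  intro k
  have := chain_lt h y z e e' hy hc.right_of_append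
  rw [k] at this
  exact lt_irrefl _ this

/-- two segments that share a crossing are separated by a `none` -/
theorem sep (h : ℕ → ℕ) (x P y Q z : Word) (hP : none ∉ P) (hQ : none ∉ Q)
    (e e' : End) (he : some e ∈ P) (he' : some e' ∈ Q) (k : e.1 = e'.1)
    (hc : (x ++ P ++ y ++ Q ++ z).IsChain (Rh h)) : none ∈ y := by
  by_contra hy
  obtain ⟨p1, p2, rfl⟩ := List.append_of_mem he
  obtain ⟨q1, q2, rfl⟩ := List.append_of_mem he'
  refine chain_ne h (x ++ p1) (p2 ++ y ++ q1) (q2 ++ z) e e' ?_ ?_ k
  · simp only [List.mem_append, List.mem_cons, not_or] at hP hQ ⊢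
    exact ⟨⟨hP.2.2, hy⟩, hQ.1⟩
  · simpa [List.append_assoc] using hc

theorem last_flat (D : Diagram) (x : Word) (e : End) : flat D ≠ x ++ [some e] := by
  induction D generalizing x with
  | nil => simp [flat_nil]
  | cons c D ih =>
    rw [flat_cons]
    intro k
    have := congrArg List.getLast? k
    cases hD : flat D with
    | nil => simp [hD] at this
    | cons p w =>
      rw [hD] at this
      simp only [List.getLast?_append, List.getLast?_cons_cons, List.getLast?_singleton,
        Option.some_or] at this
      have h2 : (p :: w).getLast? = some (some e) := by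
        cases hh : (p :: w).getLast? with
        | none => simp at hh
        | some q => rw [hh] at this; simpa using this
      obtain ⟨x', hx'⟩ := List.getLast?_eq_some_iff.mp h2
      exact ih x' (hD.trans hx')

theorem none_mem_tail (D : Diagram) (x v : Word) (e : End) (k : flat D = x ++ some e :: v) :
    none ∈ v := by
  induction v using List.reverseRecOn with
  | nil => exact absurd k (last_flat D x e)
  | append_singleton v p _ =>
    cases p with
    | none => simp
    | some f => exact absurd (by simpa using k) (last_flat D (x ++ some e :: v) f)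

end Pool.Agent.H85.Gauss
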