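import Pool.Agent.H85.GaussDefs

namespace Pool.Agent.H85.Gauss

instance (n : ℕ) (D : Diagram) : Decidable (WF n D) := by unfold WF; infer_instance

theorem Move.cast {oc sc : Bool} {w1 w2 v1 v2 : Word} (h : Move oc sc w1 w2) (e1 : w1 = v1)
    (e2 : w2 = v2) : Move oc sc v1 v2 := e1 ▸ e2 ▸ h

theorem Eqv.fwd {oc sc : Bool} {n : ℕ} {D E : Diagram} (D' : Diagram) {w1 w2 : Word}
    (h : Move oc sc w1 w2) (k : WF n D ∧ WF n D' ∧ w1 = flat D ∧ w2 = flat D')
    (r : Eqv oc sc n D' E) : Eqv oc sc n D E :=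
  Relation.EqvGen.trans _ _ _ (Relation.EqvGen.rel _ _ ⟨k.1, k.2.1, h.cast k.2.2.1 k.2.2.2⟩) r

theorem Eqv.bwd {oc sc : Bool} {n : ℕ} {D E : Diagram} (D' : Diagram) {w1 w2 : Word}
    (h : Move oc sc w1 w2) (k : WF n D ∧ WF n D' ∧ w1 = flat D' ∧ w2 = flat D)
    (r : Eqv oc sc n D' E) : Eqv oc sc n D E :=
  Relation.EqvGen.trans _ _ _ (Relation.EqvGen.symm _ _
    (Relation.EqvGen.rel _ _ ⟨k.2.1, k.1, h.cast k.2.2.1 k.2.2.2⟩)) r

theorem Move.mono {oc sc oc' sc' : Bool} (h1 : oc = true → oc' = true) (h2 : sc = true → sc' = true)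
    {w w' : Word} (h : Move oc sc w w') : Move oc' sc' w w' := by
  cases h with
  | rename σ hσ w => exact .rename σ hσ w
  | r1 x y a s d => exact .r1 x y a s d
  | r2 x y z P Q a b s d h => exact .r2 x y z P Q a b s d h
  | r3 x y z v P Q R a b c sa sb sc' t m u h k1 k2 =>
    exact .r3 x y z v P Q R a b c sa sb sc' t m u h k1 k2
  | oc h x y a b s t => exact .oc (h1 h) x y a b s t
  | sc h x y z a o s hy => exact .sc (h2 h) x y z a o s hy

theorem Eqv.mono {oc sc oc' sc' : Bool} (h1 : oc = true → oc' = true) (h2 : sc = true → sc' = true)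
    {n : ℕ} {D D' : Diagram} (h : Eqv oc sc n D D') : Eqv oc' sc' n D D' := by
  induction h with
  | rel _ _ k => exact .rel _ _ ⟨k.1, k.2.1, k.2.2.mono h1 h2⟩
  | refl _ => exact .refl _
  | symm _ _ _ ih => exact .symm _ _ ih
  | trans _ _ _ _ _ i1 i2 => exact .trans _ _ _ i1 i2

theorem flat_cons (c : List End) (D : Diagram) : flat (c :: D) = c.map some ++ none :: flat D := by
  simp [flat]

theorem flat_nil : flat [] = [] := rfl

theorem filterMap_flat (D : Diagram) : (flat D).filterMap id = D.flatten := by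
  induction D with
  | nil => rfl
  | cons c D ih => rw [flat_cons, List.filterMap_append, List.filterMap_cons_none rfl, ih]; simp [List.filterMap_map]

theorem count_flat (D : Diagram) : (flat D).count none = D.length := by
  induction D with
  | nil => rfl
  | cons c D ih =>
    rw [flat_cons]; simp [List.count_append, ih, List.count_eq_zero]

theorem mem_flat (D : Diagram) (e : End) : some e ∈ flat D ↔ e ∈ D.flatten := by
  rw [← filterMap_flat]; simp

end Pool.Agent.H85.Gauss
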