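import Pool.Agent.H85.GaussDefs

/-! Virtual string links up to self-virtualization, as Gauss diagrams. -/

namespace Pool.Agent.H85.Gauss

/-- A generalized Reidemeister move, or the inverse of a self-virtualization (a classical crossing
with both passages on one strand becomes virtual, i.e. disappears from the Gauss diagram). -/
inductive MoveSV : Word → Word → Prop
  | move (w w' : Word) (h : Move false false w w') : MoveSV w w'
  | sv (x y z : Word) (a : ℕ) (o s : Bool) (hy : none ∉ y) :
      MoveSV (x ++ y ++ z) (x ++ [some (a, o, s)] ++ y ++ [some (a, !o, s)] ++ z)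

/-- Equality in `vSL_n^{sv}`. -/
def EqvSV (n : ℕ) : Diagram → Diagram → Prop :=
  Relation.EqvGen fun D D' => WF n D ∧ WF n D' ∧ MoveSV (flat D) (flat D')

end Pool.Agent.H85.Gauss
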