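import Pool.Agent.H85.GaussMono

namespace Pool.Agent.H85.Gauss

def eps (s : Bool) : ℤ := if s then 1 else -1

def stepW (τ : ℕ → Bool → ZMod 2) (st : ℤ × ℤ × ℤ) : Option End → ℤ × ℤ × ℤ
  | none => (0, st.2.1 * st.1, st.2.2)
  | some e =>
    if τ e.1 true = τ e.1 false then
      (st.1, st.2.1, st.2.2 + (if e.2.1 then -eps e.2.2 else eps e.2.2) * st.1)
    else if e.2.1 then (st.1, st.2.1, st.2.2 + eps e.2.2 * st.1)
    else (st.1 + eps e.2.2, st.2.1, st.2.2)

def runW (τ : ℕ → Bool → ZMod 2) (st : ℤ × ℤ × ℤ) (w : Word) : ℤ × ℤ × ℤ := w.foldl (stepW τ) st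

def sh (c : ℤ) (st : ℤ × ℤ × ℤ) : ℤ × ℤ × ℤ := (st.1, st.2.1, st.2.2 + c)

theorem stepW_sh (τ : ℕ → Bool → ZMod 2) (c : ℤ) (st : ℤ × ℤ × ℤ) (p : Option End) :
    stepW τ (sh c st) p = sh c (stepW τ st p) := by
  cases p with
  | none => rfl
  | some e =>
    simp only [stepW, sh]
    split_ifs <;> simp <;> ring

theorem runW_sh (τ : ℕ → Bool → ZMod 2) (c : ℤ) (w : Word) (st : ℤ × ℤ × ℤ) :
    runW τ (sh c st) w = sh c (runW τ st w) := by
  induction w generalizing st with
  | nil => rfl
  | cons p w ih =>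
    simp only [runW, List.foldl_cons] at ih ⊢
    rw [stepW_sh, ih]

theorem runW_append (τ : ℕ → Bool → ZMod 2) (st : ℤ × ℤ × ℤ) (x y : Word) :
    runW τ st (x ++ y) = runW τ (runW τ st x) y := List.foldl_append ..

def Diff (τ : ℕ → Bool → ZMod 2) (S S' : Word) (c : ℤ) : Prop :=
  ∀ st, runW τ st S' = sh c (runW τ st S)

theorem Diff.refl (τ : ℕ → Bool → ZMod 2) (S : Word) : Diff τ S S 0 := fun st => by simp [sh]

theorem Diff.append {τ : ℕ → Bool → ZMod 2} {S S' T T' : Word} {c d : ℤ} (h : Diff τ S S' c)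
    (k : Diff τ T T' d) : Diff τ (S ++ T) (S' ++ T') (c + d) := fun st => by
  rw [runW_append, runW_append, h, runW_sh, k]
  simp [sh]; ring

theorem Diff.eq {τ : ℕ → Bool → ZMod 2} {S S' : Word} {c : ℤ} (h : Diff τ S S' c) (hc : c = 0)
    (st : ℤ × ℤ × ℤ) : runW τ st S = runW τ st S' := by
  rw [h, hc]; simp [sh]

def ok (τ : ℕ → Bool → ZMod 2) : ZMod 2 → Word → Prop
  | _, [] => True
  | i, none :: w => ok τ (i + 1) w
  | i, some e :: w => τ e.1 e.2.1 = i ∧ ok τ i w

theorem ok_append (τ : ℕ → Bool → ZMod 2) (x y : Word) (i : ZMod 2) :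
    ok τ i (x ++ y) ↔ ok τ i x ∧ ok τ (i + (x.count none : ℕ)) y := by
  induction x generalizing i with
  | nil => simp [ok]
  | cons p x ih =>
    cases p with
    | none => simp [ok, ih, add_assoc, add_comm (1 : ZMod 2)]
    | some e => simp [ok, ih, and_assoc]

def dd (τ : ℕ → Bool → ZMod 2) (S : Word) : ℤ :=
  (runW τ (0, 0, 0) S.reverse).2.2 - (runW τ (0, 0, 0) S).2.2

theorem diff_two (τ : ℕ → Bool → ZMod 2) (e f : End) :
    Diff τ [some e, some f] [some e, some f].reverse (dd τ [some e, some f]) := by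
  intro st
  simp only [dd, runW, List.reverse_cons, List.reverse_nil, List.nil_append, List.cons_append,
    List.foldl_cons, List.foldl_nil, stepW, sh]
  split_ifs <;> simp <;> ring_nf

def Two (S : Word) : Prop := ∃ e f : End, S = [some e, some f]

theorem two_ord (d : Bool) (e f : End) : Two (ord d (some e) (some f)) := by
  cases d
  · exact ⟨f, e, rfl⟩
  · exact ⟨e, f, rfl⟩

theorem ok_ord (τ : ℕ → Bool → ZMod 2) (i : ZMod 2) (d : Bool) (e f : End) :
    ok τ i (ord d (some e) (some f)) ↔ τ e.1 e.2.1 = i ∧ τ f.1 f.2.1 = i := by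
  cases d <;> simp [ord, ok, and_comm]

theorem Two.count {S : Word} (h : Two S) : S.count none = 0 := by
  obtain ⟨e, f, rfl⟩ := h; simp

theorem Two.ok_rev {S : Word} (h : Two S) (τ : ℕ → Bool → ZMod 2) (i : ZMod 2) :
    ok τ i S.reverse ↔ ok τ i S := by
  obtain ⟨e, f, rfl⟩ := h; simp [ok, and_comm]

theorem dd_sum (τ : ℕ → Bool → ZMod 2) (a b c : ℕ) (sa sb sc t m u : Bool)
    (h1 : (sa == sb) = (m == u)) (h2 : (sa == sc) = (t == u))
    (k1 : τ a true = τ b true) (k2 : τ a false = τ c true) (k3 : τ b false = τ c false) :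
    dd τ (ord t (O a sa) (O b sb)) + dd τ (ord m (U a sa) (O c sc)) +
      dd τ (ord u (U b sb) (U c sc)) = 0 := by
  by_cases ha : τ a true = τ a false <;> by_cases hb : τ b true = τ b false <;>
    by_cases hc : τ c true = τ c false <;>
    first
    | (exfalso; rw [← k1, k3] at hb; rw [← k2] at hc; revert ha hb hc
       generalize τ a true = p; generalize τ a false = q; generalize τ c false = r
       revert p q r; decide)
    | (cases sa <;> cases sb <;> cases sc <;> cases t <;> cases m <;> cases u <;>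
        first
        | (exfalso; revert h1 h2; decide)
        | simp [dd, ord, O, U, runW, stepW, ha, hb, hc, eps])

theorem perm2 {α : Type*} {P Q A B : α} (h : [P, Q].Perm [A, B]) :
    (P = A ∧ Q = B) ∨ (P = B ∧ Q = A) := by
  have := List.perm_pair.mp h
  simpa using this

theorem diff_OO (τ : ℕ → Bool → ZMod 2) (a b : ℕ) (s : Bool) (k1 : τ a true = τ b true)
    (k2 : τ a false = τ b false) : Diff τ [] [O a s, O b (!s)] 0 := by
  intro st
  by_cases h : τ b true = τ b false <;> cases s <;> simp [runW, stepW, O, sh, k1, k2, h, eps]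

theorem diff_UU (τ : ℕ → Bool → ZMod 2) (a b : ℕ) (s d : Bool) (k1 : τ a true = τ b true)
    (k2 : τ a false = τ b false) : Diff τ [] (ord d (U a s) (U b (!s))) 0 := by
  intro st
  by_cases h : τ b true = τ b false <;> cases s <;> cases d <;>
    simp [runW, stepW, U, ord, sh, k1, k2, h, eps]

theorem ok_map (τ : ℕ → Bool → ZMod 2) (σ : ℕ → ℕ) (w : Word) (i : ZMod 2) :
    ok τ i (w.map (Option.map fun e => (σ e.1, e.2))) ↔ ok (fun a => τ (σ a)) i w := by
  induction w generalizing i with
  | nil => simp [ok]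
  | cons p w ih => cases p <;> simp [ok, ih]

theorem runW_map (τ : ℕ → Bool → ZMod 2) (σ : ℕ → ℕ) (w : Word) (st : ℤ × ℤ × ℤ) :
    runW τ st (w.map (Option.map fun e => (σ e.1, e.2))) = runW (fun a => τ (σ a)) st w := by
  induction w generalizing st with
  | nil => rfl
  | cons p w ih =>
    simp only [runW, List.map_cons, List.foldl_cons] at ih ⊢
    rw [ih]
    cases p <;> rfl

theorem move_run {oc sc : Bool} {w w' : Word} (hm : Move oc sc w w') (τ' : ℕ → Bool → ZMod 2)
    (h : ok τ' 0 w') (st : ℤ × ℤ × ℤ) : ∃ τ, ok τ 0 w ∧ runW τ st w = runW τ' st w' := by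
  cases hm with
  | rename σ hσ w => exact ⟨fun a => τ' (σ a), (ok_map τ' σ _ 0).mp h, (runW_map τ' σ _ st).symm⟩
  | r1 x y a s d =>
    have t := two_ord d (a, true, s) (a, false, s)
    simp only [ok_append, List.count_append] at h
    obtain ⟨⟨h1, h2⟩, h3⟩ := h
    have h2' := (ok_ord τ' _ d (a, true, s) (a, false, s)).mp h2
    have hc : List.count none (ord d (O a s) (U a s)) = 0 := t.count
    refine ⟨τ', (ok_append ..).mpr ⟨h1, by simpa [hc] using h3⟩, ?_⟩
    have hd : Diff τ' [] (ord d (O a s) (U a s)) 0 := by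
      intro st
      have : τ' a true = τ' a false := h2'.1.trans h2'.2.symm
      cases d <;> cases s <;> simp [runW, stepW, O, U, ord, sh, this, eps]
    have := (((Diff.refl τ' x).append hd).append (Diff.refl τ' y)).eq (by simp) st
    simpa using this
  | r2 x y z P Q a b s d hp =>
    have tO : Two [O a s, O b (!s)] := ⟨_, _, rfl⟩
    have tU : Two (ord d (U a s) (U b (!s))) := two_ord d _ _
    simp only [ok_append, List.count_append] at h
    obtain ⟨⟨⟨⟨h1, h2⟩, h3⟩, h4⟩, h5⟩ := h
    rcases perm2 hp with ⟨rfl, rfl⟩ | ⟨rfl, rfl⟩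
    · have k1 := (ok_ord τ' _ true (a, true, s) (b, true, !s)).mp h2
      have k2 := (ok_ord τ' _ d (a, false, s) (b, false, !s)).mp h4
      have k1' : τ' a true = τ' b true := k1.1.trans k1.2.symm
      have k2' : τ' a false = τ' b false := k2.1.trans k2.2.symm
      rw [tO.count] at h3 h5
      rw [tU.count] at h5
      refine ⟨τ', by simp only [ok_append, List.count_append]; exact ⟨⟨h1, by simpa using h3⟩, by simpa using h5⟩, ?_⟩
      have := (((((Diff.refl τ' x).append (diff_OO τ' a b s k1' k2')).append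
        (Diff.refl τ' y)).append (diff_UU τ' a b s d k1' k2')).append (Diff.refl τ' z)).eq
        (by simp) st
      simpa using this
    · have k1 := (ok_ord τ' _ true (a, true, s) (b, true, !s)).mp h4
      have k2 := (ok_ord τ' _ d (a, false, s) (b, false, !s)).mp h2
      have k1' : τ' a true = τ' b true := k1.1.trans k1.2.symm
      have k2' : τ' a false = τ' b false := k2.1.trans k2.2.symm
      rw [tU.count] at h3 h5
      rw [tO.count] at h5
      refine ⟨τ', by simp only [ok_append, List.count_append]; exact ⟨⟨h1, by simpa using h3⟩, by simpa using h5⟩, ?_⟩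
      have := (((((Diff.refl τ' x).append (diff_UU τ' a b s d k1' k2')).append
        (Diff.refl τ' y)).append (diff_OO τ' a b s k1' k2')).append (Diff.refl τ' z)).eq
        (by simp) st
      simpa using this
  | r3 x y z v P Q R a b c sa sb sc' t m u hp h1 h2 =>
    have two : ∀ S ∈ [P, Q, R], Two S := by
      intro S hS
      have := hp.subset hS
      simp only [List.mem_cons, List.not_mem_nil, or_false] at this
      rcases this with rfl | rfl | rfl <;> exact two_ord _ _ _
    have tP := two P (by simp)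
    have tQ := two Q (by simp)
    have tR := two R (by simp)
    simp only [ok_append, List.count_append, List.count_reverse, tP.ok_rev, tQ.ok_rev,
      tR.ok_rev] at h
    refine ⟨τ', by simp only [ok_append, List.count_append]; exact h, ?_⟩
    obtain ⟨⟨⟨⟨⟨⟨-, hP⟩, -⟩, hQ⟩, -⟩, hR⟩, -⟩ := h
    have same : ∀ S ∈ [ord t (O a sa) (O b sb), ord m (U a sa) (O c sc'),
        ord u (U b sb) (U c sc')], ∃ i, ok τ' i S := by
      intro S hS
      have := hp.symm.subset hS
      simp only [List.mem_cons, List.not_mem_nil, or_false] at this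
      rcases this with rfl | rfl | rfl
      exacts [⟨_, hP⟩, ⟨_, hQ⟩, ⟨_, hR⟩]
    obtain ⟨i1, k1⟩ := same (ord t (O a sa) (O b sb)) (by simp)
    obtain ⟨i2, k2⟩ := same (ord m (U a sa) (O c sc')) (by simp)
    obtain ⟨i3, k3⟩ := same (ord u (U b sb) (U c sc')) (by simp)
    have k1 := (ok_ord τ' _ t (a, true, sa) (b, true, sb)).mp k1
    have k2 := (ok_ord τ' _ m (a, false, sa) (c, true, sc')).mp k2
    have k3 := (ok_ord τ' _ u (b, false, sb) (c, false, sc')).mp k3
    have hs := dd_sum τ' a b c sa sb sc' t m u h1 h2 (k1.1.trans k1.2.symm) (k2.1.trans k2.2.symm)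
      (k3.1.trans k3.2.symm)
    have hs2 := (hp.map (dd τ')).sum_eq
    simp only [List.map_cons, List.map_nil, List.sum_cons, List.sum_nil] at hs2
    have dP : Diff τ' P P.reverse (dd τ' P) := by obtain ⟨e, f, rfl⟩ := tP; exact diff_two _ _ _
    have dQ : Diff τ' Q Q.reverse (dd τ' Q) := by obtain ⟨e, f, rfl⟩ := tQ; exact diff_two _ _ _
    have dR : Diff τ' R R.reverse (dd τ' R) := by obtain ⟨e, f, rfl⟩ := tR; exact diff_two _ _ _
    exact (((((((Diff.refl τ' x).append dP).append (Diff.refl τ' y)).append dQ).append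
      (Diff.refl τ' z)).append dR).append (Diff.refl τ' v)).eq (by linarith) st
  | oc _ x y a b s t =>
    simp only [ok_append, List.count_append] at h
    refine ⟨τ', ?_, ?_⟩
    · simp only [ok_append, List.count_append]
      refine ⟨⟨h.1.1, ?_⟩, ?_⟩
      · have := h.1.2; simp only [ok, O] at this ⊢; tauto
      · simpa [O] using h.2
    · have hd : Diff τ' [O a s, O b t] [O b t, O a s] 0 := by
        intro st
        simp only [runW, stepW, O, sh, List.foldl_cons, List.foldl_nil]
        split_ifs <;> simp <;> ring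
      exact (((Diff.refl τ' x).append hd).append (Diff.refl τ' y)).eq (by simp) st
  | sc _ x y z a o s hy =>
    have hc : y.count none = 0 := List.count_eq_zero.mpr hy
    simp only [ok_append, List.count_append, hc, ok] at h
    obtain ⟨⟨⟨⟨h1, h2, -⟩, h3⟩, h4, -⟩, h5⟩ := h
    simp only [List.count_singleton, reduceCtorEq, beq_iff_eq, ite_false, add_zero] at h3 h4 h5
    have hs : τ' a true = τ' a false := by cases o <;> simp_all
    refine ⟨τ', ?_, ?_⟩
    · simp only [ok_append, List.count_append, hc, ok]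
      simp only [List.count_singleton, reduceCtorEq, beq_iff_eq, ite_false, add_zero]
      exact ⟨⟨⟨⟨h1, h4, trivial⟩, h3⟩, h2, trivial⟩, h5⟩
    · have hd : ∀ o : Bool, Diff τ' [some (a, o, s)] [some (a, !o, !s)] 0 := by
        intro o st
        cases o <;> cases s <;> simp [runW, stepW, sh, hs, eps]
      have hd2 := hd (!o)
      rw [Bool.not_not] at hd2
      exact (((((Diff.refl τ' x).append (hd o)).append (Diff.refl τ' y)).append hd2).append
        (Diff.refl τ' z)).eq (by simp) st

theorem ok_unique {τ τ' : ℕ → Bool → ZMod 2} {w : Word} {i : ZMod 2} (h : ok τ i w)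
    (h' : ok τ' i w) (e : End) (he : some e ∈ w) : τ e.1 e.2.1 = τ' e.1 e.2.1 := by
  induction w generalizing i with
  | nil => simp at he
  | cons p w ih =>
    cases p with
    | none => exact ih h h' (by simpa using he)
    | some f =>
      rcases List.mem_cons.mp he with k | k
      · obtain rfl := Option.some.inj k
        exact h.1.trans h'.1.symm
      · exact ih h.2 h'.2 k

theorem ok_congr {τ τ' : ℕ → Bool → ZMod 2} {w : Word} {i : ZMod 2} (h : ok τ i w)
    (k : ∀ e : End, some e ∈ w → τ' e.1 e.2.1 = τ e.1 e.2.1) : ok τ' i w := by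
  induction w generalizing i with
  | nil => trivial
  | cons p w ih =>
    cases p with
    | none => exact ih h fun e he => k e (List.mem_cons_of_mem _ he)
    | some f =>
      exact ⟨(k f List.mem_cons_self).trans h.1, ih h.2 fun e he => k e (List.mem_cons_of_mem _ he)⟩

theorem ok_exists (w : Word) (hw : ((w.filterMap id).map fun e => (e.1, e.2.1)).Nodup)
    (i : ZMod 2) : ∃ τ, ok τ i w := by
  induction w generalizing i with
  | nil => exact ⟨fun _ _ => 0, trivial⟩
  | cons p w ih =>
    cases p with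
    | none => exact ih (by simpa using hw) (i + 1)
    | some f =>
      rw [List.filterMap_cons_some (f := id) (b := f) rfl, List.map_cons, List.nodup_cons] at hw
      obtain ⟨τ, hτ⟩ := ih hw.2 i
      refine ⟨fun a o => if (a, o) = (f.1, f.2.1) then i else τ a o, by simp, ok_congr hτ ?_⟩
      intro e he
      rw [if_neg]
      intro k
      exact hw.1 (List.mem_map.mpr ⟨e, by simpa using he, k⟩)

theorem runW_congr {τ τ' : ℕ → Bool → ZMod 2} (w : Word) (st : ℤ × ℤ × ℤ)
    (k : ∀ e : End, some e ∈ w → τ e.1 true = τ' e.1 true ∧ τ e.1 false = τ' e.1 false) :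
    runW τ st w = runW τ' st w := by
  induction w generalizing st with
  | nil => rfl
  | cons p w ih =>
    simp only [runW, List.foldl_cons] at ih ⊢
    have : stepW τ st p = stepW τ' st p := by
      cases p with
      | none => rfl
      | some e => simp only [stepW, (k e List.mem_cons_self).1, (k e List.mem_cons_self).2]
    rw [this]
    exact ih _ fun e he => k e (List.mem_cons_of_mem _ he)

theorem run_unique {n : ℕ} {D : Diagram} (hD : WF n D) {τ τ' : ℕ → Bool → ZMod 2}
    (h : ok τ 0 (flat D)) (h' : ok τ' 0 (flat D)) (st : ℤ × ℤ × ℤ) :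
    runW τ st (flat D) = runW τ' st (flat D) := by
  refine runW_congr _ _ fun e he => ?_
  have k1 := ok_unique h h' e he
  have k2 := ok_unique h h' _ ((mem_flat _ _).mpr (hD.2.2 e ((mem_flat _ _).mp he)))
  obtain ⟨a, o, s⟩ := e
  cases o
  · exact ⟨k2, k1⟩
  · exact ⟨k1, k2⟩

/-- the invariant property: the weight equals the product of the linking numbers -/
def Bal (D : Diagram) : Prop :=
  ∀ τ, ok τ 0 (flat D) → (runW τ (0, 1, 0) (flat D)).2.2 = (runW τ (0, 1, 0) (flat D)).2.1

theorem bal_step {oc sc : Bool} {n : ℕ} {D D' : Diagram} (h : Step oc sc n D D') :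
    Bal D ↔ Bal D' := by
  obtain ⟨h1, h2, hm⟩ := h
  constructor
  · intro k τ' hτ'
    obtain ⟨τ, hτ, e⟩ := move_run hm τ' hτ' (0, 1, 0)
    rw [← e]; exact k τ hτ
  · intro k τ hτ
    obtain ⟨τ', hτ'⟩ := ok_exists (flat D') (by rw [filterMap_flat]; exact h2.2.1) 0
    obtain ⟨τ'', hτ'', e⟩ := move_run hm τ' hτ' (0, 1, 0)
    rw [run_unique h1 hτ hτ'', e]; exact k τ' hτ'

theorem bal_eqv {oc sc : Bool} {n : ℕ} {D D' : Diagram} (h : Eqv oc sc n D D') :
    Bal D ↔ Bal D' := by
  induction h with
  | rel D D' k => exact bal_step k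
  | refl _ => rfl
  | symm _ _ _ ih => exact ih.symm
  | trans _ _ _ _ _ i1 i2 => exact i1.trans i2

end Pool.Agent.H85.Gauss
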