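import Mathlib

set_option autoImplicit false

namespace Pool.Agent.H85.Harm

open MvPolynomial Module

variable {σ : Type} [Fintype σ] [DecidableEq σ]

noncomputable def lap : MvPolynomial σ ℝ →ₗ[ℝ] MvPolynomial σ ℝ :=
  ∑ i : σ, (pderiv i).toLinearMap ∘ₗ (pderiv i).toLinearMap

noncomputable def act (g : Matrix σ σ ℝ) : MvPolynomial σ ℝ →ₐ[ℝ] MvPolynomial σ ℝ :=
  aeval fun i => ∑ j, C (g i j) * X j

noncomputable def r2 : MvPolynomial σ ℝ := ∑ i, X i * X i

omit [DecidableEq σ] in
theorem lap_apply (p : MvPolynomial σ ℝ) : lap p = ∑ i, pderiv i (pderiv i p) := by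
  simp [lap, LinearMap.sum_apply]

omit [DecidableEq σ] in
theorem act_X (g : Matrix σ σ ℝ) (i : σ) : act g (X i) = ∑ j, C (g i j) * X j := by simp [act]

omit [DecidableEq σ] in
theorem act_act (g h : Matrix σ σ ℝ) (p : MvPolynomial σ ℝ) : act g (act h p) = act (h * g) p := by
  have : (act g).comp (act h) = act (h * g) := by
    ext1 i
    simp only [AlgHom.comp_apply, act_X, map_sum, map_mul, Matrix.mul_apply, Finset.mul_sum,
      Finset.sum_mul, algHom_C, algebraMap_eq, mul_assoc]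
    exact Finset.sum_comm
  exact DFunLike.congr_fun this p

theorem act_one (p : MvPolynomial σ ℝ) : act 1 p = p := by
  have : act (1 : Matrix σ σ ℝ) = AlgHom.id _ _ := by
    ext1 i
    simp [act_X, Matrix.one_apply, apply_ite C]
  rw [this]; rfl

theorem pderiv_act (g : Matrix σ σ ℝ) (i : σ) (p : MvPolynomial σ ℝ) :
    pderiv i (act g p) = ∑ j, C (g j i) * act g (pderiv j p) := by
  induction p using MvPolynomial.induction_on with
  | C a => simp
  | add p q hp hq => simp [hp, hq, mul_add, Finset.sum_add_distrib]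
  | mul_X p k hp =>
    have h1 : pderiv i (act g (X k)) = C (g k i) := by
      simp [act_X, pderiv_X, Pi.single_apply, apply_ite]
    have h2 : ∑ j, C (g j i) * (act g p * act g (pderiv j (X k))) = act g p * C (g k i) := by
      simp [pderiv_X, Pi.single_apply, apply_ite, mul_comm]
    simp only [map_mul, pderiv_mul, hp, h1, map_add, mul_add, Finset.sum_add_distrib, h2,
      Finset.sum_mul, mul_assoc]

theorem lap_act {g : Matrix σ σ ℝ} (hg : g * g.transpose = 1) (p : MvPolynomial σ ℝ) :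
    lap (act g p) = act g (lap p) := by
  have h : ∀ j l, ∑ i, (C (g j i) * C (g l i) : MvPolynomial σ ℝ) = if j = l then 1 else 0 := by
    intro j l
    have := congrFun (congrFun hg j) l
    simp only [Matrix.mul_apply, Matrix.transpose_apply, Matrix.one_apply] at this
    simp only [← map_mul, ← map_sum, this, apply_ite C, map_one, map_zero]
  simp only [lap_apply, pderiv_act, map_sum, pderiv_C_mul, Finset.mul_sum, ← mul_assoc]
  rw [Finset.sum_comm]
  refine Finset.sum_congr rfl fun j _ => ?_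
  rw [Finset.sum_comm]
  simp [← Finset.sum_mul, h]

theorem act_r2 {g : Matrix σ σ ℝ} (hg : g.transpose * g = 1) : act g r2 = r2 := by
  have h : ∀ j l, ∑ i, (C (g i j) * C (g i l) : MvPolynomial σ ℝ) = if j = l then 1 else 0 := by
    intro j l
    have := congrFun (congrFun hg j) l
    simp only [Matrix.mul_apply, Matrix.transpose_apply, Matrix.one_apply] at this
    simp only [← map_mul, ← map_sum, this, apply_ite C, map_one, map_zero]
  simp only [r2, map_sum, map_mul, act_X, Finset.sum_mul_sum]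
  rw [Finset.sum_comm]
  refine Finset.sum_congr rfl fun j _ => ?_
  rw [Finset.sum_comm]
  simp only [mul_mul_mul_comm (C _ : MvPolynomial σ ℝ) (X _) (C _) (X _), ← Finset.sum_mul, h]
  simp

omit [DecidableEq σ] in
theorem act_hom (g : Matrix σ σ ℝ) {p : MvPolynomial σ ℝ} {k : ℕ} (h : p.IsHomogeneous k) :
    (act g p).IsHomogeneous k := by
  have := h.aeval (n := 1) _ fun i => IsHomogeneous.sum Finset.univ _ _ fun j _ =>
    isHomogeneous_C_mul_X (g i j) j
  rwa [one_mul] at this

omit [DecidableEq σ] in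
theorem r2_hom : (r2 : MvPolynomial σ ℝ).IsHomogeneous 2 :=
  IsHomogeneous.sum _ _ _ fun i _ => (isHomogeneous_X ℝ i).mul (isHomogeneous_X ℝ i)

omit [DecidableEq σ] in
theorem lap_hom {p : MvPolynomial σ ℝ} {k : ℕ} (h : p.IsHomogeneous k) :
    (lap p).IsHomogeneous (k - 2) := by
  rw [lap_apply]
  exact IsHomogeneous.sum _ _ _ fun i _ => h.pderiv.pderiv

omit [DecidableEq σ] in
theorem lap_small {p : MvPolynomial σ ℝ} {k : ℕ} (h : p.IsHomogeneous k) (hk : k < 2) :
    lap p = 0 := by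
  rw [lap_apply]
  refine Finset.sum_eq_zero fun i _ => ?_
  have : (pderiv i p).IsHomogeneous 0 := by
    have := h.pderiv (i := i)
    rwa [show k - 1 = 0 by omega] at this
  rw [totalDegree_eq_zero_iff_eq_C.1 ((totalDegree_zero_iff_isHomogeneous _).2 this), pderiv_C]

theorem lap_r2_mul {p : MvPolynomial σ ℝ} {k : ℕ} (h : p.IsHomogeneous k) :
    lap (r2 * p) = ((2 * Fintype.card σ + 4 * k : ℕ) : ℝ) • p + r2 * lap p := by
  have h1 : ∀ i : σ, pderiv i (r2 : MvPolynomial σ ℝ) = 2 * X i := by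
    intro i
    simp [r2, pderiv_X, Pi.single_apply, Finset.sum_add_distrib, two_mul]
  have h2 : ∀ i : σ, pderiv i (pderiv i (r2 * p)) =
      2 * p + 4 * (X i * pderiv i p) + r2 * pderiv i (pderiv i p) := by
    intro i
    have h3 : pderiv i (2 : MvPolynomial σ ℝ) = 0 := by
      rw [← one_add_one_eq_two, map_add, pderiv_one, add_zero]
    simp only [pderiv_mul, h1, map_add, h3, pderiv_X_self]
    ring
  simp only [lap_apply, h2, Finset.sum_add_distrib, ← Finset.mul_sum, h.sum_X_mul_pderiv,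
    Finset.sum_const, Finset.card_univ, Nat.cast_smul_eq_nsmul, nsmul_eq_mul]
  push_cast
  ring

theorem inj_aux (k : ℕ) : ∀ c : ℝ, 0 < c → ∀ p : MvPolynomial σ ℝ, p.IsHomogeneous k →
    c • p + r2 * lap p = 0 → p = 0 := by
  induction k using Nat.strong_induction_on with
  | _ k ih =>
  intro c hc p hp h
  have : lap p = 0 := by
    by_cases hk : k < 2
    · exact lap_small hp hk
    refine ih (k - 2) (by omega) (c + ((2 * Fintype.card σ + 4 * (k - 2) : ℕ) : ℝ))
      (by positivity) _ (lap_hom hp) ?_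
    have := congrArg lap h
    rw [map_add, map_smul, lap_r2_mul (lap_hom hp), map_zero] at this
    rw [add_smul, add_assoc, this]
  rw [this, mul_zero, add_zero] at h
  exact (smul_eq_zero.1 h).resolve_left hc.ne'

instance finite_hom (k : ℕ) (I : Submodule ℝ (MvPolynomial σ ℝ)) :
    Module.Finite ℝ ↥(homogeneousSubmodule σ ℝ k ⊓ I) := by
  have : Module.Finite ℝ (homogeneousSubmodule σ ℝ k) :=
    Module.Finite.iff_fg.2 (homogeneousSubmodule_fg _ _ k)
  exact Submodule.finiteDimensional_of_le inf_le_left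

/-- Dimension of harmonic invariants. -/
theorem finrank_harm [Nonempty σ] (I : Submodule ℝ (MvPolynomial σ ℝ)) (h1 : ∀ p ∈ I, lap p ∈ I)
    (h2 : ∀ p ∈ I, r2 * p ∈ I) (k : ℕ) :
    finrank ℝ ↥(homogeneousSubmodule σ ℝ (k + 2) ⊓ LinearMap.ker lap ⊓ I) +
      finrank ℝ ↥(homogeneousSubmodule σ ℝ k ⊓ I) =
      finrank ℝ ↥(homogeneousSubmodule σ ℝ (k + 2) ⊓ I) := by
  let L : ↥(homogeneousSubmodule σ ℝ (k + 2) ⊓ I) →ₗ[ℝ] ↥(homogeneousSubmodule σ ℝ k ⊓ I) :=
    lap.restrict fun p hp => ⟨lap_hom (k := k + 2) hp.1, h1 p hp.2⟩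
  let R : ↥(homogeneousSubmodule σ ℝ k ⊓ I) →ₗ[ℝ] ↥(homogeneousSubmodule σ ℝ (k + 2) ⊓ I) :=
    (LinearMap.mulLeft ℝ r2).restrict fun p hp => ⟨add_comm 2 k ▸ r2_hom.mul hp.1, h2 p hp.2⟩
  have hi : Function.Injective (L ∘ₗ R) := by
    rw [← LinearMap.ker_eq_bot, eq_bot_iff]
    intro p hp
    have h : lap (r2 * p.1) = 0 := congrArg Subtype.val hp
    rw [lap_r2_mul p.2.1] at h
    have := Fintype.card_pos (α := σ)
    exact Subtype.ext (inj_aux k _ (by positivity) _ p.2.1 h)
  have hs : Function.Surjective L :=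
    Function.Surjective.of_comp (g := R) (LinearMap.injective_iff_surjective.1 hi)
  have := L.finrank_range_add_finrank_ker
  rw [LinearMap.range_eq_top.2 hs, finrank_top] at this
  rw [← this, add_comm]
  congr 1
  rw [← Submodule.finrank_map_subtype_eq]
  refine congrArg (fun S : Submodule ℝ (MvPolynomial σ ℝ) => finrank ℝ S) ?_
  ext p
  simp only [Submodule.mem_map, Submodule.mem_inf, LinearMap.mem_ker]
  constructor
  · rintro ⟨⟨a, b⟩, c⟩
    exact ⟨⟨p, a, c⟩, Subtype.ext b, rfl⟩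
  · rintro ⟨q, hq, rfl⟩
    exact ⟨⟨q.2.1, congrArg Subtype.val hq⟩, q.2.2⟩

theorem finrank_harm_eq [Nonempty σ] {I J : Submodule ℝ (MvPolynomial σ ℝ)}
    (h1 : ∀ p ∈ I, lap p ∈ I) (h2 : ∀ p ∈ I, r2 * p ∈ I)
    (h3 : ∀ p ∈ J, lap p ∈ J) (h4 : ∀ p ∈ J, r2 * p ∈ J)
    (h : ∀ k, finrank ℝ ↥(homogeneousSubmodule σ ℝ k ⊓ I) =
      finrank ℝ ↥(homogeneousSubmodule σ ℝ k ⊓ J)) (k : ℕ) :
    finrank ℝ ↥(homogeneousSubmodule σ ℝ k ⊓ LinearMap.ker lap ⊓ I) =
      finrank ℝ ↥(homogeneousSubmodule σ ℝ k ⊓ LinearMap.ker lap ⊓ J) := by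
  by_cases hk : k < 2
  · have : homogeneousSubmodule σ ℝ k ⊓ LinearMap.ker lap = homogeneousSubmodule σ ℝ k :=
      inf_eq_left.2 fun p hp => lap_small hp hk
    rw [this, h]
  · obtain ⟨k, rfl⟩ : ∃ j, k = j + 2 := ⟨k - 2, by omega⟩
    have a := finrank_harm I h1 h2 k
    have b := finrank_harm J h3 h4 k
    have := h k
    have := h (k + 2)
    omega

/-- The invariants of a subgroup of the orthogonal group. -/
noncomputable def Inv (S : Set (Matrix.orthogonalGroup σ ℝ)) : Submodule ℝ (MvPolynomial σ ℝ) :=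
  ⨅ g ∈ S, LinearMap.ker ((act g.1).toLinearMap - LinearMap.id)

theorem mem_Inv {S : Set (Matrix.orthogonalGroup σ ℝ)} {p : MvPolynomial σ ℝ} :
    p ∈ Inv S ↔ ∀ g ∈ S, act g.1 p = p := by
  simp [Inv, Submodule.mem_iInf, sub_eq_zero]

theorem Inv_closure (S : Set (Matrix.orthogonalGroup σ ℝ)) :
    Inv (Subgroup.closure S : Set _) = Inv S := by
  ext p
  simp only [mem_Inv]
  refine ⟨fun h g hg => h g (Subgroup.subset_closure hg), fun h g hg => ?_⟩
  induction hg using Subgroup.closure_induction with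
  | mem g hg => exact h g hg
  | one => exact act_one p
  | mul a b _ _ ha hb => rw [Submonoid.coe_mul, ← act_act, ha, hb]
  | inv a _ ha =>
    conv_lhs => rw [← ha, act_act, ← Submonoid.coe_mul, mul_inv_cancel]
    exact act_one p

theorem lap_Inv (S : Set (Matrix.orthogonalGroup σ ℝ)) : ∀ p ∈ Inv S, lap p ∈ Inv S := by
  intro p hp
  rw [mem_Inv] at hp ⊢
  intro g hg
  rw [← lap_act ((Matrix.mem_orthogonalGroup_iff _ _).1 g.2), hp g hg]

theorem r2_Inv (S : Set (Matrix.orthogonalGroup σ ℝ)) : ∀ p ∈ Inv S, r2 * p ∈ Inv S := by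
  intro p hp
  rw [mem_Inv] at hp ⊢
  intro g hg
  rw [map_mul, act_r2 ((Matrix.mem_orthogonalGroup_iff' _ _).1 g.2), hp g hg]

/-- Orthogonal integer matrices generate a finite group. -/
theorem finite_closure {S : Set (Matrix.orthogonalGroup σ ℝ)}
    (h : ∀ g ∈ S, ∀ i j, ∃ z : ℤ, g.1 i j = z) : Finite (Subgroup.closure S) := by
  have h1 : ∀ g ∈ Subgroup.closure S, ∀ i j, ∃ z : ℤ, g.1 i j = z := by
    intro g hg
    induction hg using Subgroup.closure_induction with
    | mem g hg => exact h g hg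
    | one => intro i j; exact ⟨if i = j then 1 else 0, by simp [Matrix.one_apply]⟩
    | mul a b _ _ ha hb =>
      choose A hA using ha
      choose B hB using hb
      intro i j
      exact ⟨∑ l, A i l * B l j, by simp [Matrix.mul_apply, hA, hB]⟩
    | inv a _ ha => intro i j; simpa using ha j i
  have h2 : ∀ (g : Subgroup.closure S) i j, g.1.1 i j ∈ ({-1, 0, 1} : Set ℝ) := by
    intro g i j
    obtain ⟨z, hz⟩ := h1 g g.2 i j
    have := entry_norm_bound_of_unitary g.1.2 i j
    rw [hz, Real.norm_eq_abs, abs_le] at this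
    obtain ⟨a, b⟩ := this
    have a' : -1 ≤ z := by exact_mod_cast a
    have b' : z ≤ 1 := by exact_mod_cast b
    rw [hz]
    interval_cases z <;> simp
  have : Finite ({-1, 0, 1} : Set ℝ) := Set.toFinite _
  exact Finite.of_injective (fun (g : Subgroup.closure S) i j => (⟨_, h2 g i j⟩ : ({-1, 0, 1} : Set ℝ)))
    fun a b hab => Subtype.ext (Subtype.ext (Matrix.ext fun i j =>
      congrArg Subtype.val (congrFun (congrFun hab i) j)))

/-- Signed permutation matrices. -/
def sp (π : Equiv.Perm σ) (ε : σ → ℤˣ) : Matrix.orthogonalGroup σ ℝ :=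
  ⟨Matrix.of fun i j => if j = π i then ((ε i : ℤ) : ℝ) else 0, by
    rw [Matrix.mem_orthogonalGroup_iff]
    ext i j
    have : ((ε i : ℤ) : ℝ) * (ε i : ℤ) = 1 := by
      rcases Int.units_eq_one_or (ε i) with h | h <;> simp [h]
    by_cases h : i = j
    · subst h
      simp [Matrix.mul_apply, this]
    · simp [Matrix.mul_apply, h, Ne.symm h]⟩

theorem coeff_act_sp (π : Equiv.Perm σ) (ε : σ → ℤˣ) (p : MvPolynomial σ ℝ) (m : σ →₀ ℕ) :
    coeff (m.mapDomain π) (act (sp π ε).1 p) = (∏ i, ((ε i : ℤ) : ℝ) ^ m i) * coeff m p := by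
  have h : ∀ (m : σ →₀ ℕ) (c : ℝ), act (sp π ε).1 (monomial m c) =
      monomial (m.mapDomain π) ((∏ i, ((ε i : ℤ) : ℝ) ^ m i) * c) := by
    intro m c
    have : ∀ i, act (sp π ε).1 (X i) = C ((ε i : ℤ) : ℝ) * X (π i) := by
      intro i
      simp [act_X, sp, apply_ite C]
    rw [monomial_eq, monomial_eq, Finsupp.prod_mapDomain_index_inj π.injective,
      Finsupp.prod_fintype _ _ (by simp), Finsupp.prod_fintype _ _ (by simp)]
    simp only [map_mul, map_prod, map_pow, this, mul_pow, Finset.prod_mul_distrib, algHom_C,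
      algebraMap_eq]
    ring
  induction p using MvPolynomial.induction_on' with
  | monomial m' c =>
    simp only [h, coeff_monomial, (Finsupp.mapDomain_injective π.injective).eq_iff]
    split_ifs with h'
    · rw [h']
    · simp
  | add p q hp hq => simp [hp, hq, mul_add]

end Pool.Agent.H85.Harm
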