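import Mathlib

/-! A hexagon with hyperbolic caps: equal chords on all supporting lines of an inner hexagon. -/

namespace Pool.Agent.H85.HexCap

/-- membership in the body, in coordinates `a + b + s = 0` -/
def M (a b s : ℝ) : Prop :=
  (-1 ≤ a ∧ -1 ≤ b ∧ -1 ≤ s) ∧
  (a - b ≤ 8 / 5 ∧ b - a ≤ 8 / 5 ∧ b - s ≤ 8 / 5 ∧ s - b ≤ 8 / 5 ∧ s - a ≤ 8 / 5 ∧ a - s ≤ 8 / 5) ∧
  (s ≤ 1 ∨ 6 / 25 ≤ (1 + a) * (1 + b)) ∧ (a ≤ 1 ∨ 6 / 25 ≤ (1 + b) * (1 + s)) ∧
  (b ≤ 1 ∨ 6 / 25 ≤ (1 + s) * (1 + a))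

lemma M_swap {a b s : ℝ} : M a b s ↔ M b a s := by
  unfold M
  rw [mul_comm (1 + a) (1 + b), mul_comm (1 + b) (1 + s), mul_comm (1 + s) (1 + a)]
  tauto

lemma M_rot {a b s : ℝ} : M a b s ↔ M b s a := by
  unfold M
  tauto

lemma M_swap' {a b s : ℝ} : M a b s ↔ M a s b := by
  rw [M_swap, M_rot]

lemma M1 {m t : ℝ} (h0 : 0 ≤ m) (h1 : m ≤ 1) :
    M (-t) (-19 / 25 + m * t) (19 / 25 + (1 - m) * t) ↔
      ((-t * (1 + m) ≤ 21 / 25 ∧ (1 - 2 * m) * t ≤ 2 / 25 ∧ (2 - m) * t ≤ 21 / 25) ∧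
        -6 / 25 ≤ m * t ∧ ((1 - m) * t ≤ 6 / 25 ∨ (0 ≤ t ∧ m * t ≤ m - 6 / 25))) := by
  constructor
  · rintro ⟨⟨a1, a2, a3⟩, ⟨b1, b2, b3, b4, b5, b6⟩, c1, -, -⟩
    refine ⟨⟨by linarith, by linarith, by linarith⟩, by linarith, ?_⟩
    by_cases h : (1 - m) * t ≤ 6 / 25
    · exact Or.inl h
    · have c2 := c1.resolve_left (fun h' => h (by linarith))
      have ht : 0 < t := by
        by_contra ht
        push Not at ht h
        nlinarith
      refine Or.inr ⟨ht.le, ?_⟩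
      by_contra h'
      push Not at h'
      nlinarith
  · rintro ⟨⟨b1, b2, b3⟩, a1, c⟩
    have t1 : t ≤ 21 / 25 := by nlinarith
    have t2 : -21 / 25 ≤ t := by nlinarith
    refine ⟨⟨by linarith, by linarith, by nlinarith⟩, ⟨by linarith, by nlinarith, by nlinarith,
      by linarith, by linarith, by nlinarith⟩, ?_, Or.inl (by linarith), Or.inl (by nlinarith)⟩
    rcases c with c | ⟨c, c'⟩
    · exact Or.inl (by linarith)
    · exact Or.inr (by nlinarith)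

lemma M2 {m t : ℝ} (h0 : 0 ≤ m) (h1 : m ≤ 1) :
    M (-(-t)) (-(-19 / 25 + m * t)) (-(19 / 25 + (1 - m) * t)) ↔
      ((-t * (1 + m) ≤ 21 / 25 ∧ (1 - 2 * m) * t ≤ 2 / 25 ∧ (2 - m) * t ≤ 21 / 25) ∧
        (1 - m) * t ≤ 6 / 25 ∧ (-6 / 25 ≤ m * t ∨ (t ≤ 0 ∧ 6 / 25 - (1 - m) ≤ (1 - m) * t))) := by
  have := M1 (m := 1 - m) (t := -t) (by linarith) (by linarith)
  rw [M_swap'] at this
  rw [show -(-19 / 25 + m * t) = 19 / 25 + (1 - (1 - m)) * -t by ring,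
    show -(19 / 25 + (1 - m) * t) = -19 / 25 + (1 - m) * -t by ring, this]
  constructor
  · rintro ⟨⟨b1, b2, b3⟩, a, c⟩
    exact ⟨⟨by linarith, by linarith, by linarith⟩, by linarith,
      c.imp (fun c => by linarith) fun c => ⟨by linarith [c.1], by linarith [c.2]⟩⟩
  · rintro ⟨⟨b1, b2, b3⟩, a, c⟩
    exact ⟨⟨by linarith, by linarith, by linarith⟩, by linarith,
      c.imp (fun c => by linarith) fun c => ⟨by linarith [c.1], by linarith [c.2]⟩⟩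

lemma mid {m t : ℝ} (h0 : 2 / 5 ≤ m) (h1 : m ≤ 3 / 5) :
    M (-t) (-19 / 25 + m * t) (19 / 25 + (1 - m) * t) ↔ -6 / 25 ≤ m * t ∧ m * t ≤ m - 6 / 25 := by
  rw [M1 (by linarith) (by linarith)]
  have hm : 6 / 25 ≤ m * (1 - m) := by nlinarith
  constructor
  · rintro ⟨-, a, c | c⟩
    · exact ⟨a, by nlinarith⟩
    · exact ⟨a, c.2⟩
  · rintro ⟨a, c⟩
    have hm0 : 0 < m := by linarith
    refine ⟨⟨?_, ?_, ?_⟩, a, ?_⟩
    · refine le_of_mul_le_mul_left ?_ hm0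
      nlinarith
    · refine le_of_mul_le_mul_left ?_ hm0
      rcases le_total m (1 / 2) with h | h
      · nlinarith [mul_nonneg (sub_nonneg.2 h0) (show 0 ≤ m - 3 / 10 by linarith)]
      · nlinarith
    · refine le_of_mul_le_mul_left ?_ hm0
      nlinarith [mul_nonneg (sub_nonneg.2 h1) (show 0 ≤ 4 / 5 - m by linarith)]
    · rcases le_total 0 t with h | h
      · exact Or.inr ⟨h, c⟩
      · exact Or.inl (by nlinarith)

lemma shift {m : ℝ} (h0 : 0 ≤ m) (h1 : m ≤ 1) : ∃ δ : ℝ, ∀ t,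
    M (-t) (-19 / 25 + m * t) (19 / 25 + (1 - m) * t) ↔
      M (-(-(t + δ))) (-(-19 / 25 + m * (t + δ))) (-(19 / 25 + (1 - m) * (t + δ))) := by
  by_cases h : 2 / 5 ≤ m ∧ m ≤ 3 / 5
  · have hm0 : 0 < m := by linarith [h.1]
    have hm1 : 0 < 1 - m := by linarith [h.2]
    refine ⟨6 / 25 / (1 - m) + 6 / 25 / m - 1, fun t => ?_⟩
    set δ := 6 / 25 / (1 - m) + 6 / 25 / m - 1 with hδ
    have := mid (m := 1 - m) (t := -(t + δ)) (by linarith [h.2]) (by linarith [h.1])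
    rw [M_swap'] at this
    rw [mid h.1 h.2, show -(-19 / 25 + m * (t + δ)) = 19 / 25 + (1 - (1 - m)) * -(t + δ) by ring,
      show -(19 / 25 + (1 - m) * (t + δ)) = -19 / 25 + (1 - m) * -(t + δ) by ring, this]
    have e1 : m * ((1 - m) * -(t + δ) + 6 / 25) = (1 - m) * (m - 6 / 25 - m * t) := by
      rw [hδ]; field_simp; ring
    have e2 : m * (1 - m - 6 / 25 - (1 - m) * -(t + δ)) = (1 - m) * (m * t + 6 / 25) := by
      rw [hδ]; field_simp; ring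
    constructor
    · rintro ⟨a, b⟩
      constructor
      · have : 0 ≤ m * ((1 - m) * -(t + δ) + 6 / 25) := by rw [e1]; nlinarith
        linarith [(mul_nonneg_iff_of_pos_left hm0).1 this]
      · have : 0 ≤ m * (1 - m - 6 / 25 - (1 - m) * -(t + δ)) := by rw [e2]; nlinarith
        linarith [(mul_nonneg_iff_of_pos_left hm0).1 this]
    · rintro ⟨a, b⟩
      constructor
      · have : 0 ≤ (1 - m) * (m * t + 6 / 25) := by rw [← e2]; nlinarith
        linarith [(mul_nonneg_iff_of_pos_left hm1).1 this]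
      · have : 0 ≤ (1 - m) * (m - 6 / 25 - m * t) := by rw [← e1]; nlinarith
        linarith [(mul_nonneg_iff_of_pos_left hm1).1 this]
  · refine ⟨0, fun t => ?_⟩
    rw [add_zero, M1 h0 h1, M2 h0 h1]
    have hm : m * (1 - m) ≤ 6 / 25 := by
      rcases not_and_or.1 h with h | h <;> push Not at h <;> nlinarith
    constructor
    · rintro ⟨b, a, c | ⟨c, c'⟩⟩
      · exact ⟨b, c, Or.inl a⟩
      · refine ⟨b, ?_, Or.inl a⟩
        by_contra h'
        push Not at h'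
        nlinarith
    · rintro ⟨b, a, c | ⟨c, c'⟩⟩
      · exact ⟨b, c, Or.inl a⟩
      · refine ⟨b, ?_, Or.inl a⟩
        by_contra h'
        push Not at h'
        nlinarith

/-- the chord statement for the functional `α a + β b + γ s` with maximal value `c` -/
def Ch (α β γ c : ℝ) : Prop :=
  ∃ x y z : ℝ, x + y + z = 0 ∧ α * x + β * y + γ * z = 0 ∧ ∀ a b s : ℝ, a + b + s = 0 →
    α * a + β * b + γ * s = c → (M a b s ↔ M (-(a + x)) (-(b + y)) (-(s + z)))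

lemma Ch.swap {α β γ c : ℝ} (h : Ch α β γ c) : Ch β α γ c := by
  obtain ⟨x, y, z, h1, h2, h3⟩ := h
  exact ⟨y, x, z, by linarith, by linarith, fun a b s h4 h5 => by
    rw [M_swap, h3 b a s (by linarith) (by linarith), M_swap]⟩

lemma Ch.swap' {α β γ c : ℝ} (h : Ch α β γ c) : Ch α γ β c := by
  obtain ⟨x, y, z, h1, h2, h3⟩ := h
  exact ⟨x, z, y, by linarith, by linarith, fun a b s h4 h5 => by
    rw [M_swap', h3 a s b (by linarith) (by linarith), M_swap']⟩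

/-- `c` is the maximum of the functional on the inner hexagon -/
def Sup (α β γ c : ℝ) : Prop :=
  (∀ a b s : ℝ, a + b + s = 0 → |a| ≤ 19 / 25 → |b| ≤ 19 / 25 → |s| ≤ 19 / 25 →
    α * a + β * b + γ * s ≤ c) ∧
  ∃ a b s : ℝ, a + b + s = 0 ∧ |a| ≤ 19 / 25 ∧ |b| ≤ 19 / 25 ∧ |s| ≤ 19 / 25 ∧
    α * a + β * b + γ * s = c

lemma Sup.swap {α β γ c : ℝ} (h : Sup α β γ c) : Sup β α γ c := by
  obtain ⟨h1, a, b, s, h2, h3, h4, h5, h6⟩ := h
  exact ⟨fun a b s k1 k2 k3 k4 => by linarith [h1 b a s (by linarith) k3 k2 k4],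
    b, a, s, by linarith, h4, h3, h5, by linarith⟩

lemma Sup.swap' {α β γ c : ℝ} (h : Sup α β γ c) : Sup α γ β c := by
  obtain ⟨h1, a, b, s, h2, h3, h4, h5, h6⟩ := h
  exact ⟨fun a b s k1 k2 k3 k4 => by linarith [h1 a s b (by linarith) k2 k4 k3],
    a, s, b, by linarith, h3, h5, h4, by linarith⟩

lemma core {α β γ c : ℝ} (h1 : β ≤ α) (h2 : α ≤ γ) (h3 : ¬ (α = β ∧ β = γ)) (h : Sup α β γ c) :
    Ch α β γ c := by
  have hlt : 0 < γ - β := by
    by_contra h4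
    exact h3 ⟨by linarith, by linarith⟩
  have hc : c = 19 / 25 * (γ - β) := by
    obtain ⟨k1, a, b, s, k2, k3, k4, k5, k6⟩ := h
    have k7 := k1 0 (-(19 / 25)) (19 / 25) (by ring) (by norm_num) (by norm_num [abs_le])
      (by norm_num [abs_le])
    rw [abs_le] at k4 k5
    have : a = -b - s := by linarith
    subst this
    nlinarith [mul_nonneg (sub_nonneg.2 h1) (show 0 ≤ b + 19 / 25 by linarith),
      mul_nonneg (sub_nonneg.2 h2) (show 0 ≤ 19 / 25 - s by linarith)]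
  set m := (γ - α) / (γ - β) with hm
  have hm' : m * (γ - β) = γ - α := by rw [hm]; field_simp
  obtain ⟨δ, hδ⟩ := shift (m := m) (div_nonneg (by linarith) hlt.le)
    ((div_le_one hlt).2 (by linarith))
  refine ⟨-δ, m * δ, (1 - m) * δ, by ring, by linear_combination (-δ) * hm', fun a b s k1 k2 => ?_⟩
  have hb : b = -19 / 25 + m * -a := by
    apply mul_right_cancel₀ hlt.ne'
    linear_combination a * hm' - k2 + γ * k1 - hc
  have hs : s = 19 / 25 + (1 - m) * -a := by linarith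
  have := hδ (-a)
  rw [neg_neg, ← hb, ← hs] at this
  rw [this]
  congr! 2
  · ring
  · rw [hb]; ring
  · rw [hs]; ring

lemma chord {α β γ c : ℝ} (h3 : ¬ (α = β ∧ β = γ)) (h : Sup α β γ c) : Ch α β γ c := by
  rcases le_total β α with h1 | h1 <;> rcases le_total α γ with h2 | h2 <;>
    rcases le_total β γ with h4 | h4
  · exact core h1 h2 h3 h
  · exact core h1 h2 h3 h
  · exact (core h4 h2 (fun k => h3 ⟨k.2.symm, k.1.symm⟩) h.swap'.swap.swap').swap'.swap.swap'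
  · exact (core h4 h1 (fun k => h3 ⟨by linarith [k.1, k.2], k.1⟩) h.swap.swap').swap'.swap
  · exact (core h1 h4 (fun k => h3 ⟨k.1.symm, by linarith [k.1, k.2]⟩) h.swap).swap
  · exact (core h2 h4 (fun k => h3 ⟨k.2, by linarith [k.1, k.2]⟩) h.swap'.swap).swap.swap'
  · exact (core h1 h4 (fun k => h3 ⟨k.1.symm, by linarith [k.1, k.2]⟩) h.swap).swap
  · exact (core h2 h1 (fun k => h3 ⟨by linarith [k.1, k.2], k.2.symm⟩) h.swap').swap'

lemma cap_iff {x y : ℝ} (h1 : 7 / 5 ≤ x + 2 * y) (h2 : 7 / 5 ≤ 2 * x + y) :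
    (1 ≤ x + y ∨ 6 / 25 ≤ x * y) ↔
      ∀ τ : ℝ, 2 / 5 ≤ τ → τ ≤ 3 / 5 → 12 / 25 * τ ≤ 6 / 25 * x + τ ^ 2 * y := by
  constructor
  · intro h τ k1 k2
    by_cases h3 : 1 ≤ x + y
    · rcases le_total (6 / 25) (τ ^ 2) with k | k
      · nlinarith [mul_nonneg (sub_nonneg.2 k) (sub_nonneg.2 h1),
          mul_nonneg (show 0 ≤ 12 / 25 - τ ^ 2 by nlinarith) (sub_nonneg.2 h3), sq_nonneg (τ - 3 / 5)]
      · nlinarith [mul_nonneg (sub_nonneg.2 k) (sub_nonneg.2 h2),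
          mul_nonneg (show 0 ≤ 2 * τ ^ 2 - 6 / 25 by nlinarith) (sub_nonneg.2 h3),
          sq_nonneg (τ - 2 / 5)]
    · have h4 := h.resolve_left h3
      have hx : 0 < x := by linarith
      refine le_of_mul_le_mul_left ?_ hx
      nlinarith [mul_nonneg (sq_nonneg τ) (sub_nonneg.2 h4), sq_nonneg (x - τ)]
  · intro h
    by_cases h3 : 1 ≤ x + y
    · exact Or.inl h3
    · have := h x (by linarith) (by linarith)
      have hx : 0 < x := by linarith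
      refine Or.inr (le_of_mul_le_mul_left ?_ hx)
      nlinarith

lemma M_iff {a b s : ℝ} (h : a + b + s = 0) : M a b s ↔ (-1 ≤ a ∧ -1 ≤ b ∧ -1 ≤ s) ∧
    (a - b ≤ 8 / 5 ∧ b - a ≤ 8 / 5 ∧ b - s ≤ 8 / 5 ∧ s - b ≤ 8 / 5 ∧ s - a ≤ 8 / 5 ∧
      a - s ≤ 8 / 5) ∧ ∀ τ : ℝ, 2 / 5 ≤ τ → τ ≤ 3 / 5 →
      12 / 25 * τ ≤ 6 / 25 * (1 + a) + τ ^ 2 * (1 + b) ∧
      12 / 25 * τ ≤ 6 / 25 * (1 + b) + τ ^ 2 * (1 + s) ∧
      12 / 25 * τ ≤ 6 / 25 * (1 + s) + τ ^ 2 * (1 + a) := by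
  unfold M
  refine and_congr_right fun _ => and_congr_right fun ⟨b1, b2, b3, b4, b5, b6⟩ => ?_
  have e1 := cap_iff (x := 1 + a) (y := 1 + b) (by linarith) (by linarith)
  have e2 := cap_iff (x := 1 + b) (y := 1 + s) (by linarith) (by linarith)
  have e3 := cap_iff (x := 1 + s) (y := 1 + a) (by linarith) (by linarith)
  rw [show s ≤ 1 ↔ 1 ≤ 1 + a + (1 + b) from ⟨fun _ => by linarith, fun _ => by linarith⟩,
    show a ≤ 1 ↔ 1 ≤ 1 + b + (1 + s) from ⟨fun _ => by linarith, fun _ => by linarith⟩,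
    show b ≤ 1 ↔ 1 ≤ 1 + s + (1 + a) from ⟨fun _ => by linarith, fun _ => by linarith⟩, e1, e2, e3]
  exact ⟨fun h τ k1 k2 => ⟨h.1 τ k1 k2, h.2.1 τ k1 k2, h.2.2 τ k1 k2⟩,
    fun h => ⟨fun τ k1 k2 => (h τ k1 k2).1, fun τ k1 k2 => (h τ k1 k2).2.1,
      fun τ k1 k2 => (h τ k1 k2).2.2⟩⟩

abbrev E := EuclideanSpace ℝ (Fin 2)

/-- the body `ε K₁` -/
def body (ε : ℝ) : Set E := {p | M (ε * p 0) (ε * p 1) (ε * (-p 0 - p 1))}

lemma body_convex (ε : ℝ) : Convex ℝ (body ε) := by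
  intro p hp q hq l k hl hk hlk
  simp only [body, Set.mem_ofPred_eq] at *
  rw [M_iff (by ring)] at hp hq ⊢
  obtain ⟨⟨a1, a2, a3⟩, ⟨b1, b2, b3, b4, b5, b6⟩, c⟩ := hp
  obtain ⟨⟨a1', a2', a3'⟩, ⟨b1', b2', b3', b4', b5', b6'⟩, c'⟩ := hq
  have key : ∀ x y x' y' : ℝ, x ≤ y → x' ≤ y' → l * x + k * x' ≤ l * y + k * y' :=
    fun x y x' y' h h' => add_le_add (mul_le_mul_of_nonneg_left h hl)
      (mul_le_mul_of_nonneg_left h' hk)
  obtain rfl : k = 1 - l := by linarith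
  simp only [PiLp.add_apply, PiLp.smul_apply, smul_eq_mul]
  refine ⟨⟨by linarith [key _ _ _ _ a1 a1'], by linarith [key _ _ _ _ a2 a2'],
    by linarith [key _ _ _ _ a3 a3']⟩, ⟨by linarith [key _ _ _ _ b1 b1'],
    by linarith [key _ _ _ _ b2 b2'], by linarith [key _ _ _ _ b3 b3'],
    by linarith [key _ _ _ _ b4 b4'], by linarith [key _ _ _ _ b5 b5'],
    by linarith [key _ _ _ _ b6 b6']⟩, fun τ k1 k2 => ?_⟩
  obtain ⟨c1, c2, c3⟩ := c τ k1 k2
  obtain ⟨c1', c2', c3'⟩ := c' τ k1 k2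
  exact ⟨by linarith [key _ _ _ _ c1 c1'], by linarith [key _ _ _ _ c2 c2'],
    by linarith [key _ _ _ _ c3 c3']⟩

lemma compact_of {S : Set E} (hS : IsClosed S) (h : ∀ p ∈ S, |p 0| ≤ 2 ∧ |p 1| ≤ 2) :
    IsCompact S := by
  refine Metric.isCompact_of_isClosed_isBounded hS ((Metric.isBounded_closedBall (x := 0)
    (r := 3)).subset fun p hp => ?_)
  rw [mem_closedBall_zero_iff, EuclideanSpace.norm_eq, Real.sqrt_le_iff, Fin.sum_univ_two]
  have := h p hp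
  rw [Real.norm_eq_abs, Real.norm_eq_abs]
  exact ⟨by norm_num, by nlinarith [this.1, this.2, abs_nonneg (p 0), abs_nonneg (p 1)]⟩

lemma body_compact {ε : ℝ} (hε : ε = 1 ∨ ε = -1) : IsCompact (body ε) := by
  refine compact_of ?_ fun p hp => ?_
  · simp only [body, M, Set.ofPred_and, Set.ofPred_or]
    refine IsClosed.inter (IsClosed.inter ?_ (IsClosed.inter ?_ ?_)) (IsClosed.inter
      (IsClosed.inter ?_ (IsClosed.inter ?_ (IsClosed.inter ?_ (IsClosed.inter ?_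
        (IsClosed.inter ?_ ?_))))) (IsClosed.inter (IsClosed.union ?_ ?_)
          (IsClosed.inter (IsClosed.union ?_ ?_) (IsClosed.union ?_ ?_)))) <;>
      exact isClosed_le (by fun_prop) (by fun_prop)
  · obtain ⟨⟨a1, a2, a3⟩, -⟩ := hp
    rcases hε with rfl | rfl <;> simp only [abs_le] <;> refine ⟨⟨?_, ?_⟩, ?_, ?_⟩ <;> linarith

/-- hexagon of size `r` -/
def hex (r : ℝ) : Set E := {p | |p 0| ≤ r ∧ |p 1| ≤ r ∧ |-p 0 - p 1| ≤ r}

lemma hex_sub {r R : ℝ} (h : r < R) : hex r ⊆ interior (hex R) := by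
  refine Set.Subset.trans (b := {p : E | |p 0| < R ∧ |p 1| < R ∧ |-p 0 - p 1| < R})
    (fun p hp => ⟨hp.1.trans_lt h, hp.2.1.trans_lt h, hp.2.2.trans_lt h⟩)
    (interior_maximal (fun p hp => ⟨hp.1.le, hp.2.1.le, hp.2.2.le⟩) ?_)
  simp only [Set.ofPred_and]
  refine IsOpen.inter ?_ (IsOpen.inter ?_ ?_) <;> exact isOpen_lt (by fun_prop) (by fun_prop)

lemma hex_body {ε : ℝ} (hε : ε = 1 ∨ ε = -1) : hex (4 / 5) ⊆ body ε := by
  rintro p ⟨h1, h2, h3⟩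
  rw [abs_le] at h1 h2 h3
  rcases hε with rfl | rfl <;>
  exact ⟨⟨by linarith, by linarith, by linarith⟩, ⟨by linarith, by linarith, by linarith,
    by linarith, by linarith, by linarith⟩, Or.inl (by linarith), Or.inl (by linarith),
    Or.inl (by linarith)⟩

lemma hex_convex (r : ℝ) : Convex ℝ (hex r) := by
  rintro p ⟨h1, h2, h3⟩ q ⟨h4, h5, h6⟩ l k hl hk hlk
  simp only [hex, Set.mem_ofPred_eq, abs_le, PiLp.add_apply, PiLp.smul_apply, smul_eq_mul] at *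
  obtain rfl : k = 1 - l := by linarith
  refine ⟨⟨?_, ?_⟩, ⟨?_, ?_⟩, ?_, ?_⟩ <;> nlinarith

lemma hex_compact : IsCompact (hex (19 / 25)) := by
  refine compact_of ?_ fun p hp => ⟨by linarith [hp.1], by linarith [hp.2.1]⟩
  simp only [hex, Set.ofPred_and]
  refine IsClosed.inter ?_ (IsClosed.inter ?_ ?_) <;> exact isClosed_le (by fun_prop) (by fun_prop)

end Pool.Agent.H85.HexCap
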