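import Mathlib

namespace Pool.Agent.H85.LY

open MeasureTheory ProbabilityTheory Filter Topology Finset
open scoped ENNReal

lemma slln {Ω : Type} [MeasurableSpace Ω] (μ : Measure Ω) (S : ℕ → Ω → ℝ)
    (hi : ∀ n, Integrable (fun x => S n x ^ 2) μ) (hm : ∀ n, Measurable (S n))
    (h1 : ∀ n x, |S (n + 1) x - S n x| ≤ 1) (C : ℝ) (hC : ∀ n, ∫ x, S n x ^ 2 ∂μ ≤ C * n) :
    ∀ᵐ x ∂μ, Tendsto (fun n => |S n x| / n) atTop (𝓝 0) := by
  have a : ∫⁻ x, ∑' k : ℕ, ENNReal.ofReal (S (k ^ 2) x ^ 2 / (k : ℝ) ^ 4) ∂μ ≠ ∞ := by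
    rw [lintegral_tsum fun k => by fun_prop]
    refine ne_top_of_le_ne_top (b := ∑' k : ℕ, ENNReal.ofReal (C * (1 / (k : ℝ) ^ 2))) ?_
      (ENNReal.tsum_le_tsum fun k => ?_)
    · exact ((Real.summable_one_div_nat_pow.2 one_lt_two).mul_left C).tsum_ofReal_ne_top
    rw [← ofReal_integral_eq_lintegral_ofReal ((hi _).div_const _)
      (Eventually.of_forall fun x => by positivity), integral_div]
    refine ENNReal.ofReal_le_ofReal ?_
    rcases Nat.eq_zero_or_pos k with rfl | h
    · simp
    refine (div_le_div_of_nonneg_right (hC _) (by positivity)).trans_eq ?_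
    push_cast
    field_simp
  have lip : ∀ x n m, |S (n + m) x| ≤ |S n x| + m := fun x n m => by
    induction m with
    | zero => simp
    | succ m ih =>
      have := h1 (n + m) x
      have := abs_sub_abs_le_abs_sub (S (n + m + 1) x) (S (n + m) x)
      rw [← add_assoc]
      push_cast
      linarith
  filter_upwards [ae_lt_top (by fun_prop) a] with x hx
  have b := (ENNReal.tendsto_toReal ENNReal.zero_ne_top).comp
    (ENNReal.tendsto_atTop_zero_of_tsum_ne_top hx.ne)
  have c : Tendsto (fun k : ℕ => |S (k ^ 2) x| / (k : ℝ) ^ 2) atTop (𝓝 0) := by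
    have := b.sqrt
    simp only [ENNReal.toReal_zero, Real.sqrt_zero] at this
    refine this.congr fun k => ?_
    rw [Function.comp, ENNReal.toReal_ofReal (by positivity), ← abs_of_nonneg (sq_nonneg (k : ℝ)),
      ← abs_div, ← Real.sqrt_sq_eq_abs]
    congr 1
    ring
  have d : Tendsto Nat.sqrt atTop atTop :=
    tendsto_atTop_atTop.2 fun b => ⟨b * b, fun n hn => Nat.le_sqrt.2 hn⟩
  have e := (c.add (tendsto_const_div_atTop_nhds_zero_nat (2 : ℝ))).comp d
  rw [add_zero] at e
  refine squeeze_zero' (Eventually.of_forall fun n => by positivity) ?_ e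
  filter_upwards [eventually_gt_atTop 0] with n hn
  have k0 : (0 : ℝ) < n.sqrt := by exact_mod_cast Nat.sqrt_pos.2 hn
  have k1 := Nat.sqrt_le' n
  have k2 := Nat.sqrt_le_add n
  obtain ⟨m, hm⟩ := Nat.exists_eq_add_of_le k1
  have k3 : (m : ℝ) ≤ 2 * n.sqrt := by exact_mod_cast (by nlinarith : m ≤ 2 * n.sqrt)
  have k4 := lip x (n.sqrt ^ 2) m
  rw [← hm] at k4
  calc |S n x| / n ≤ (|S (n.sqrt ^ 2) x| + 2 * n.sqrt) / (n.sqrt : ℝ) ^ 2 := by
        gcongr
        · linarith
        · exact_mod_cast k1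
    _ = _ := by simp only [Function.comp]; field_simp

variable (q : Measure ℝ) [IsProbabilityMeasure q]

noncomputable abbrev P : Measure (ℤ → ℝ) := Measure.infinitePi fun _ => q

lemma indep (S T : Finset ℤ) (h : Disjoint S T) (F G : (ℤ → ℝ) → ℝ) (mF : Measurable F)
    (mG : Measurable G) (hF : ∀ x y, (∀ k ∈ S, x k = y k) → F x = F y)
    (hG : ∀ x y, (∀ k ∈ T, x k = y k) → G x = G y) :
    ∫ x, F x * G x ∂P q = (∫ x, F x ∂P q) * ∫ x, G x ∂P q := by
  have m : ∀ S : Finset ℤ, Measurable fun (y : S → ℝ) (k : ℤ) =>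
      if h : k ∈ S then y ⟨k, h⟩ else 0 := fun S =>
    measurable_pi_lambda _ fun k => by split_ifs <;> fun_prop
  have := ((iIndepFun_infinitePi (P := fun _ : ℤ => q) (X := fun _ x => x)
    (by fun_prop)).indepFun_finset S T h (by fun_prop)).comp (mF.comp (m S)) (mG.comp (m T))
  have e : IndepFun F G (P q) := by
    convert this using 1
    · exact funext fun x => hF _ _ fun k hk => by simp [hk]
    · exact funext fun x => hG _ _ fun k hk => by simp [hk]
  exact e.integral_fun_mul_eq_mul_integral mF.aestronglyMeasurable mG.aestronglyMeasurable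

/-- change the sign of one coordinate -/
def flip (m : ℤ) (x : ℤ → ℝ) (k : ℤ) : ℝ := if k = m then -x k else x k

lemma abs_flip (m : ℤ) (x : ℤ → ℝ) (k : ℤ) : |flip m x k| = |x k| := by
  unfold flip
  split_ifs <;> simp

lemma odd_zero (hq : q.map (fun x => -x) = q) (m : ℤ) (F : (ℤ → ℝ) → ℝ) (mF : Measurable F)
    (hF : ∀ x, F (flip m x) = -F x) : ∫ x, F x ∂P q = 0 := by
  have m1 : ∀ k : ℤ, Measurable fun t : ℝ => if k = m then -t else t := fun k => by
    split_ifs <;> fun_prop
  have a : (P q).map (flip m) = P q := by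
    refine (Measure.infinitePi_map_pi (fun _ : ℤ => q) m1).trans ?_
    congr 1
    ext1 k
    split_ifs
    · exact hq
    · exact Measure.map_id
  have b := integral_map (μ := P q) (φ := flip m) (f := F)
    (measurable_pi_lambda _ fun k => (m1 k).comp (measurable_pi_apply k)).aemeasurable
    mF.aestronglyMeasurable
  simp only [a, hF, integral_neg] at b
  linarith

/-- measurable and bounded by one -/
def Bd (F : (ℤ → ℝ) → ℝ) : Prop := Measurable F ∧ ∀ x, |F x| ≤ 1

lemma Bd.mul {F G : (ℤ → ℝ) → ℝ} (a : Bd F) (b : Bd G) : Bd fun x => F x * G x :=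
  ⟨a.1.mul b.1, fun x => by
    rw [abs_mul]
    exact mul_le_one₀ (a.2 x) (abs_nonneg _) (b.2 x)⟩

lemma Bd.prod (T : Finset ℕ) {F : ℕ → (ℤ → ℝ) → ℝ} (a : ∀ k, Bd (F k)) :
    Bd fun x => ∏ k ∈ T, F k x :=
  ⟨Finset.measurable_fun_prod _ fun k _ => (a k).1, fun x => by
    rw [abs_prod]
    exact prod_le_one (fun _ _ => abs_nonneg _) fun k _ => (a k).2 x⟩

lemma Bd.int {F : (ℤ → ℝ) → ℝ} (a : Bd F) : Integrable F (P q) :=
  Integrable.of_bound a.1.aestronglyMeasurable 1 (Eventually.of_forall a.2)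

noncomputable def h (k : ℕ) (x : ℤ → ℝ) : ℝ := if |x k| = |x (k + 1)| then 0 else 1
noncomputable def s (k : ℕ) (x : ℤ → ℝ) : ℝ := if |x k| = |x (k + 1)| ∧ 0 < x k then -1 else 1
noncomputable def nn (k : ℕ) (x : ℤ → ℝ) : ℝ := if |x k| = |x (k + 1)| ∧ 0 < |x k| then 0 else 1

lemma bh (k : ℕ) : Bd (h k) :=
  ⟨Measurable.ite (by measurability) measurable_const measurable_const, fun x => by
    unfold h; split_ifs <;> simp⟩

lemma bs (k : ℕ) : Bd (s k) :=
  ⟨Measurable.ite (by measurability) measurable_const measurable_const, fun x => by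
    unfold s; split_ifs <;> simp⟩

lemma bn (k : ℕ) : Bd (nn k) :=
  ⟨Measurable.ite (by measurability) measurable_const measurable_const, fun x => by
    unfold nn; split_ifs <;> simp⟩

lemma swap (hq : q.map (fun x => -x) = q) (T : Finset ℕ) : ∀ g : (ℤ → ℝ) → ℝ, Bd g →
    (∀ m x, g (flip m x) = g x) →
    ∫ x, g x * ∏ k ∈ T, s k x ∂P q = ∫ x, g x * ∏ k ∈ T, nn k x ∂P q := by
  induction T using Finset.induction_on with
  | empty => simp
  | insert m T hm ih =>
    intro g bg hg
    simp only [prod_insert hm, ← mul_assoc]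
    have en : ∀ j x, nn m (flip j x) = nn m x := fun j x => by simp only [nn, abs_flip]
    rw [← ih _ (bg.mul (bn m)) fun j x => by rw [hg, en], ← sub_eq_zero, ← integral_sub
      (((bg.mul (bs m)).mul (Bd.prod T bs)).int q) (((bg.mul (bn m)).mul (Bd.prod T bs)).int q)]
    refine odd_zero q hq m _ (((bg.mul (bs m)).mul (Bd.prod T bs)).1.sub
      ((bg.mul (bn m)).mul (Bd.prod T bs)).1) fun x => ?_
    have e1 : ∏ k ∈ T, s k (flip m x) = ∏ k ∈ T, s k x := prod_congr rfl fun k hk => by
      have : (k : ℤ) ≠ m := fun e => hm (Nat.cast_injective e ▸ hk)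
      simp only [s, abs_flip]
      simp [flip, this]
    have e2 : s m (flip m x) = 2 * nn m x - s m x := by
      simp only [s, nn, abs_flip]
      simp only [flip, if_true]
      by_cases a : |x m| = |x (m + 1)|
      · rcases lt_trichotomy (x m) 0 with b | b | b
        · simp [← a, b, b.le, b.ne]
        · simp [b]; norm_num
        · simp [← a, b, b.le, b.ne']
      · simp [a]; norm_num
    rw [e1, e2, hg, en]
    ring

lemma nn_nonneg (k : ℕ) (x : ℤ → ℝ) : 0 ≤ nn k x := by unfold nn; split_ifs <;> simp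

lemma nn_le (k : ℕ) (x : ℤ → ℝ) : nn k x ≤ 1 := (le_abs_self _).trans ((bn k).2 x)

lemma int_nn (z : ℝ) (hz : 0 < |z|) (k : ℕ) : ∫ x, nn k x ∂P q ≤ 1 - q.real {z} ^ 2 := by
  have b : ∀ j : ℤ, Bd fun x => if x j = z then 1 else 0 := fun j =>
    ⟨Measurable.ite (by measurability) measurable_const measurable_const, fun x => by
      beta_reduce; split_ifs <;> simp⟩
  have c : ∀ j : ℤ, ∫ x, (if x j = z then 1 else 0) ∂P q = q.real {z} := fun j => by
    have := integral_indicator_one (μ := P q) (measurable_pi_apply j (measurableSet_singleton z))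
    rw [← (measurePreserving_eval_infinitePi (fun _ : ℤ => q) j).measureReal_preimage
      (measurableSet_singleton z).nullMeasurableSet]
    refine Eq.trans (integral_congr_ae (Eventually.of_forall fun x => ?_)) this
    by_cases a : x j = z <;> simp [Set.indicator, a]
  have d := indep q {(k : ℤ)} {(k : ℤ) + 1} (by simp) _ _ (b k).1 (b (k + 1)).1
    (fun x y h => by simp only [h k (by simp)]) (fun x y h => by simp only [h (k + 1) (by simp)])
  rw [c, c, ← sq] at d
  rw [← d, le_sub_iff_add_le, ← integral_add ((bn k).int q) (((b k).mul (b (k + 1))).int q)]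
  refine (integral_mono (((bn k).int q).add (((b k).mul (b (k + 1))).int q)) (integrable_const 1)
    fun x => ?_).trans (by simp)
  have := nn_le k x
  by_cases h1 : x k = z <;> by_cases h2 : x (k + 1) = z <;> simp [h1, h2, this]
  simp [nn, h1, h2, hz]

lemma decay (r : ℝ) (r0 : 0 < r) (r1 : r ≤ 1) (hr : ∀ k, ∫ x, nn k x ∂P q ≤ r ^ 2) (i m : ℕ) :
    ∫ x, ∏ k ∈ Ico i (i + m), nn k x ∂P q ≤ r ^ m / r := by
  have one : ∀ T : Finset ℕ, ∫ x, ∏ k ∈ T, nn k x ∂P q ≤ 1 := fun T =>
    (integral_mono ((Bd.prod T bn).int q) (integrable_const 1)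
      fun x => (le_abs_self _).trans ((Bd.prod T bn).2 x)).trans (by simp)
  induction m using Nat.twoStepInduction with
  | zero => exact (one _).trans (by rw [pow_zero, le_div_iff₀ r0]; linarith)
  | one => exact (one _).trans (by rw [pow_one, div_self r0.ne'])
  | more m ih _ =>
    have d := indep q (Icc (i : ℤ) (i + m)) {(i + m + 1 : ℤ), (i + m + 2 : ℤ)}
      (by simp [disjoint_left]; omega) _ _
      (Bd.prod (Ico i (i + m)) bn).1 (bn (i + m + 1)).1
      (fun x y h => prod_congr rfl fun k hk => by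
        have := mem_Ico.1 hk
        simp only [nn, h k (mem_Icc.2 (by omega)), h (k + 1) (mem_Icc.2 (by omega))])
      (fun x y h => by
        simp only [nn, h (i + m + 1 : ℕ) (by simp), h ((i + m + 1 : ℕ) + 1) (by simp [add_assoc])])
    calc _ ≤ ∫ x, (∏ k ∈ Ico i (i + m), nn k x) * nn (i + m + 1) x ∂P q := by
          refine integral_mono ((Bd.prod _ bn).int q) (((Bd.prod _ bn).mul (bn _)).int q) fun x => ?_
          simp only [← add_assoc i m 2]
          rw [prod_Ico_succ_top (by omega), prod_Ico_succ_top (by omega)]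
          exact mul_le_mul_of_nonneg_right (mul_le_of_le_one_right
            (prod_nonneg fun k _ => nn_nonneg k x) (nn_le _ x)) (nn_nonneg _ x)
      _ ≤ r ^ m / r * r ^ 2 := by
          rw [d]
          exact mul_le_mul ih (hr _) (integral_nonneg (nn_nonneg _)) (by positivity)
      _ = _ := by ring

/-- the current orientation -/
noncomputable def ep (n : ℕ) (x : ℤ → ℝ) : ℝ := ∏ k ∈ range n, s k x

/-- the exponent -/
noncomputable def S (n : ℕ) (x : ℤ → ℝ) : ℝ := ∑ k ∈ range n, h k x * ep k x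

lemma ep_cases (n : ℕ) (x : ℤ → ℝ) : ep n x = 1 ∨ ep n x = -1 := by
  induction n with
  | zero => simp [ep]
  | succ n ih =>
    rw [ep, prod_range_succ, ← ep, s]
    split_ifs <;> rcases ih with a | a <;> simp [a]

lemma bY (k : ℕ) : Bd fun x => h k x * ep k x := (bh k).mul (Bd.prod _ bs)

lemma corr (hq : q.map (fun x => -x) = q) (r : ℝ) (r0 : 0 < r) (r1 : r ≤ 1)
    (hr : ∀ k, ∫ x, nn k x ∂P q ≤ r ^ 2) (i n : ℕ) (hi : i ≤ n) :
    ∫ x, (h i x * ep i x) * (h n x * ep n x) ∂P q ≤ r ^ (n - i) / r := by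
  have e : ∀ x, (h i x * ep i x) * (h n x * ep n x) = (h i x * h n x) * ∏ k ∈ Ico i n, s k x :=
    fun x => by
      have : ep n x = ep i x * ∏ k ∈ Ico i n, s k x := (prod_range_mul_prod_Ico _ hi).symm
      rw [this]
      rcases ep_cases i x with a | a <;> rw [a] <;> ring
  simp only [e]
  rw [swap q hq _ _ ((bh i).mul (bh n)) fun m x => by simp only [h, abs_flip]]
  refine le_trans (integral_mono ((((bh i).mul (bh n)).mul (Bd.prod _ bn)).int q)
    ((Bd.prod _ bn).int q) fun x => ?_) (by simpa [hi] using decay q r r0 r1 hr i (n - i))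
  exact mul_le_of_le_one_left (prod_nonneg fun k _ => nn_nonneg k x)
    ((le_abs_self _).trans (((bh i).mul (bh n)).2 x))

lemma S_ae (hq : q.map (fun x => -x) = q) (z : ℝ) (hz : 0 < |z|) (h0 : 0 < q.real {z}) :
    ∀ᵐ x ∂P q, Tendsto (fun n => |S n x| / n) atTop (𝓝 0) := by
  obtain ⟨r, r0, r1, hr⟩ : ∃ r : ℝ, 0 < r ∧ r < 1 ∧ 1 - q.real {z} ^ 2 ≤ r ^ 2 := by
    have : q.real {z} ≤ 1 := measureReal_le_one
    refine ⟨1 - q.real {z} ^ 2 / 2, by nlinarith, by nlinarith, by nlinarith [sq_nonneg (q.real {z} ^ 2)]⟩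
  have e : ∀ n x, S n x ^ 2 = ∑ i ∈ range n, ∑ j ∈ range n,
      (h i x * ep i x) * (h j x * ep j x) := fun n x => by rw [sq, S, sum_mul_sum]
  have g : ∀ T : Finset ℕ, ∑ k ∈ T, r ^ k ≤ (1 - r)⁻¹ := fun T => by
    rw [← tsum_geometric_of_lt_one r0.le r1]
    exact (summable_geometric_of_lt_one r0.le r1).sum_le_tsum _ fun _ _ => by positivity
  refine slln _ S (fun n => ?_) (fun n => Finset.measurable_fun_sum _ fun k _ => (bY k).1)
    (fun n x => by simpa [S, sum_range_succ] using (bY n).2 x) (2 * (1 - r)⁻¹ / r) fun n => ?_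
  · simp only [e]
    exact integrable_finsetSum _ fun i _ => integrable_finsetSum _ fun j _ =>
      ((bY i).mul (bY j)).int q
  simp only [e]
  rw [integral_finsetSum _ fun i _ => integrable_finsetSum _ fun j _ => ((bY i).mul (bY j)).int q]
  refine (sum_le_card_nsmul _ _ (2 * (1 - r)⁻¹ / r) fun i _ => ?_).trans (by simp [mul_comm])
  rw [integral_finsetSum _ fun j _ => ((bY i).mul (bY j)).int q,
    ← sum_filter_add_sum_filter_not _ (i ≤ ·), two_mul, add_div]
  have c := corr q hq r r0 r1.le fun k => (int_nn q z hz k).trans hr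
  refine add_le_add ((sum_le_sum fun j hj => c i j (mem_filter.1 hj).2).trans ?_)
    ((sum_le_sum (g := fun j => r ^ (i - j) / r) fun j hj => ?_).trans ?_)
  · rw [← sum_div, ← sum_image (g := fun j => j - i) (f := fun k => r ^ k)
      fun a ha b hb e => by simp at ha hb e; omega]
    exact div_le_div_of_nonneg_right (g _) r0.le
  · simpa only [mul_comm (h i _ * ep i _)] using c j i (not_le.1 (mem_filter.1 hj).2).le
  · rw [← sum_div, ← sum_image (g := fun j => i - j) (f := fun k => r ^ k)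
      fun a ha b hb e => by simp at ha hb e; omega]
    exact div_le_div_of_nonneg_right (g _) r0.le

end Pool.Agent.H85.LY
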