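import Mathlib

/-! Support function and (Gaussian form of the) mean width. -/

namespace Pool.Agent.H85.MW

open MeasureTheory

/-- support function -/
noncomputable def supp {n : ℕ} (K : Set (EuclideanSpace ℝ (Fin n))) (v : EuclideanSpace ℝ (Fin n)) :
    ℝ := sSup ((fun y => inner ℝ y v) '' K)

/-- `∫ h_K(v) e^{-|v|²} dv`, a positive constant multiple (depending only on `n`) of the mean
width, i.e. of the first intrinsic volume `V₁`. -/
noncomputable def W {n : ℕ} (K : Set (EuclideanSpace ℝ (Fin n))) : ℝ :=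
  ∫ v : EuclideanSpace ℝ (Fin n), supp K v * Real.exp (-‖v‖ ^ 2)

/-- the class `𝒦ⁿ` (for `b = false`) or `𝒦ⁿₙ` (for `b = true`) -/
def Cls {n : ℕ} (b : Bool) (K : Set (EuclideanSpace ℝ (Fin n))) : Prop :=
  IsCompact K ∧ Convex ℝ K ∧ K.Nonempty ∧ (b = true → (interior K).Nonempty)

end Pool.Agent.H85.MW
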