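import Mathlib

/-! Mean width of a compact convex set and the classes of convex sets. -/

namespace Pool.Agent.H85.MW2

open MeasureTheory

/-- mean width `w(K) = 2 / (n κₙ) ∫_{S^{n-1}} h_K(u) du`: twice the average of the support
function `h_K(u) = sup {⟨y,u⟩ : y ∈ K}` over the unit sphere with its surface measure -/
noncomputable def mw {n : ℕ} (K : Set (EuclideanSpace ℝ (Fin n))) : ℝ :=
  2 * ⨍ u : Metric.sphere (0 : EuclideanSpace ℝ (Fin n)) 1,
    sSup ((fun y => inner ℝ y u.1) '' K) ∂(volume : Measure (EuclideanSpace ℝ (Fin n))).toSphere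

/-- the class `𝒦ⁿ` of nonempty compact convex sets (for `b = false`), or the class `𝒦ⁿₙ` of
convex bodies (for `b = true`) -/
def Cls {n : ℕ} (b : Bool) (K : Set (EuclideanSpace ℝ (Fin n))) : Prop :=
  IsCompact K ∧ Convex ℝ K ∧ K.Nonempty ∧ (b = true → (interior K).Nonempty)

/-- `K` is `H`-symmetric: `R_H K = K`, with `R_H` the orthogonal reflection in `H` -/
def Sym {n : ℕ} (H : Submodule ℝ (EuclideanSpace ℝ (Fin n)))
    (K : Set (EuclideanSpace ℝ (Fin n))) : Prop := H.reflection '' K = K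

/-- `D` is a symmetrization `𝓑 → 𝓑_H` which is monotonic, mean width preserving and invariant on
`H`-symmetric sets -/
structure Good {n : ℕ} (H : Submodule ℝ (EuclideanSpace ℝ (Fin n))) (b : Bool)
    (D : Set (EuclideanSpace ℝ (Fin n)) → Set (EuclideanSpace ℝ (Fin n))) : Prop where
  maps : ∀ K, Cls b K → Cls b (D K) ∧ Sym H (D K)
  mono : ∀ K L, Cls b K → Cls b L → K ⊆ L → D K ⊆ D L
  width : ∀ K, Cls b K → mw (D K) = mw K
  fixes : ∀ K, Cls b K → Sym H K → D K = K

end Pool.Agent.H85.MW2
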