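import Pool.Agent.H85.MWSph

/-! Rigidity of mean-width preserving symmetrizations for `dim H ≥ 1`, part 1. -/

namespace Pool.Agent.H85.MW

open MeasureTheory Set Pointwise Metric Filter Topology

variable {n : ℕ} {K L A S : Set (EuclideanSpace ℝ (Fin n))} {b : Bool}
  {R : EuclideanSpace ℝ (Fin n) ≃ₗᵢ[ℝ] EuclideanSpace ℝ (Fin n)}
  {F : Set (EuclideanSpace ℝ (Fin n)) → Set (EuclideanSpace ℝ (Fin n))}

lemma lin_int (y : EuclideanSpace ℝ (Fin n)) :
    Integrable fun v : EuclideanSpace ℝ (Fin n) => inner ℝ y v * Real.exp (-‖v‖ ^ 2) :=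
  int_of_bound (R := ‖y‖) (by fun_prop) fun v => abs_real_inner_le_norm _ _

lemma lin_zero (y : EuclideanSpace ℝ (Fin n)) :
    ∫ v : EuclideanSpace ℝ (Fin n), inner ℝ y v * Real.exp (-‖v‖ ^ 2) = 0 := by
  have h := integral_neg_eq_self
    (fun v : EuclideanSpace ℝ (Fin n) => inner ℝ y v * Real.exp (-‖v‖ ^ 2)) volume
  simp only [inner_neg_right, norm_neg, neg_mul, integral_neg] at h
  linarith

/-- the Gaussian mean of the norm -/
noncomputable def c0 (n : ℕ) : ℝ := ∫ v : EuclideanSpace ℝ (Fin n), ‖v‖ * Real.exp (-‖v‖ ^ 2)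

lemma W_le_add (hK : IsCompact K) (hn : K.Nonempty) (hL : IsCompact L) (hLn : L.Nonempty)
    {y : EuclideanSpace ℝ (Fin n)} {ε : ℝ}
    (h : ∀ v, supp L v ≤ supp K v + inner ℝ y v + ε * ‖v‖) : W L ≤ W K + ε * c0 n := by
  have h1 : W K + ε * c0 n = ∫ v : EuclideanSpace ℝ (Fin n),
      (supp K v + inner ℝ y v + ε * ‖v‖) * Real.exp (-‖v‖ ^ 2) := by
    simp only [add_mul, mul_assoc]
    rw [integral_add (f := fun v => supp K v * Real.exp (-‖v‖ ^ 2) + inner ℝ y v *
      Real.exp (-‖v‖ ^ 2)) ((supp_int hK hn).add (lin_int y)) (gauss_int.const_mul ε),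
      integral_add (supp_int hK hn) (lin_int y), lin_zero, integral_const_mul, W, c0, add_zero]
  rw [h1]
  refine integral_mono (supp_int hL hLn) ?_ fun v =>
    mul_le_mul_of_nonneg_right (h v) (Real.exp_pos _).le
  simp only [add_mul, mul_assoc]
  exact ((supp_int hK hn).add (lin_int y)).add (gauss_int.const_mul ε)

lemma le_of_eps {x y c : ℝ} (h : ∀ ε > 0, x ≤ y + ε * c) : x ≤ y := by
  have : Tendsto (fun ε : ℝ => y + ε * c) (𝓝[>] 0) (𝓝 (y + 0 * c)) :=
    (Continuous.tendsto (by fun_prop) 0).mono_left nhdsWithin_le_nhds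
  simpa using ge_of_tendsto this (eventually_nhdsWithin_of_forall h)

lemma sub_of_W (hK : IsCompact K) (hc : Convex ℝ K) (hn : K.Nonempty) (hL : IsCompact L)
    (h : K ⊆ L) (hW : W L ≤ W K) : L ⊆ K := by
  intro x hx
  by_contra hxK
  obtain ⟨f, u, h1, h2⟩ := geometric_hahn_banach_closed_point hc hK.isClosed hxK
  set v := (InnerProductSpace.toDual ℝ _).symm f
  have hf : ∀ a, inner ℝ a v = f a := fun a => by
    rw [real_inner_comm]; exact InnerProductSpace.toDual_symm_apply
  have h3 : supp K v ≤ u := supp_le hn fun a ha => by rw [hf]; exact (h1 a ha).le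
  have h4 := le_supp hL hx v
  rw [hf] at h4
  have hi := (supp_int hL (hn.mono h)).sub (supp_int hK hn)
  have hcK := supp_cont hK
  have hcL := supp_cont hL
  have := integral_pos_of_integrable_nonneg_nonzero (x := v) (by fun_prop) hi
    (fun w => sub_nonneg.2 (mul_le_mul_of_nonneg_right (supp_mono hn hL h w) (Real.exp_pos _).le))
    (ne_of_gt (sub_pos.2 (mul_lt_mul_of_pos_right (by linarith) (Real.exp_pos _))))
  simp only [Pi.sub_apply] at this
  rw [integral_sub (supp_int hL (hn.mono h)) (supp_int hK hn)] at this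
  simp only [W] at hW
  linarith

/-- thickening -/
def Th (K : Set (EuclideanSpace ℝ (Fin n))) (ε : ℝ) : Set (EuclideanSpace ℝ (Fin n)) :=
  K + closedBall 0 ε

lemma Th_cls (hK : IsCompact K) (hc : Convex ℝ K) (hn : K.Nonempty) {ε : ℝ} (hε : 0 < ε) :
    Cls b (Th K ε) := by
  obtain ⟨x, hx⟩ := hn
  refine ⟨hK.add (isCompact_closedBall _ _), hc.add (convex_closedBall _ _),
    ⟨_, x, hx, 0, by simp [hε.le], rfl⟩, fun _ => ⟨x, ?_⟩⟩
  refine mem_interior.2 ⟨ball x ε, fun z hz => ⟨x, hx, z - x, ?_, by simp⟩, isOpen_ball, by simpa⟩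
  simpa [dist_eq_norm] using (mem_ball.1 hz).le

lemma supp_Th (hK : IsCompact K) (hn : K.Nonempty) {ε : ℝ} (hε : 0 ≤ ε)
    (v : EuclideanSpace ℝ (Fin n)) : supp (Th K ε) v = supp K v + ε * ‖v‖ := by
  apply le_antisymm
  · obtain ⟨x, hx⟩ := hn
    refine supp_le (K := Th K ε) ⟨_, x, hx, 0, by simp [hε], rfl⟩ ?_
    rintro _ ⟨x, hx, z, hz, rfl⟩
    rw [inner_add_left]
    exact add_le_add (le_supp hK hx v) ((real_inner_le_norm _ _).trans
      (mul_le_mul_of_nonneg_right (by simpa using hz) (norm_nonneg _)))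
  · obtain ⟨x, hx, h⟩ := exists_supp hK hn v
    have := le_supp (K := Th K ε) (hK.add (isCompact_closedBall _ _))
      ⟨x, hx, (ε * ‖v‖⁻¹) • v, ?_, rfl⟩ v
    · rw [inner_add_left, h, real_inner_smul_left, real_inner_self_eq_norm_sq] at this
      refine le_trans (le_of_eq ?_) this
      by_cases hv : ‖v‖ = 0
      · simp [hv]
      · field_simp
    · rw [mem_closedBall_zero_iff, norm_smul, Real.norm_of_nonneg (by positivity), mul_assoc]
      exact mul_le_of_le_one_right hε (inv_mul_le_one_of_le₀ le_rfl (norm_nonneg _))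

lemma Th_sym (h : ∀ x ∈ K, R x ∈ K) (ε : ℝ) : ∀ x ∈ Th K ε, R x ∈ Th K ε := by
  rintro _ ⟨x, hx, z, hz, rfl⟩
  exact ⟨_, h x hx, R z, by simpa using hz, by simp⟩

lemma supp_seg (p a v : EuclideanSpace ℝ (Fin n)) :
    supp (segment ℝ (p - a) (p + a)) v = inner ℝ p v + |inner ℝ a v| := by
  have hc : IsCompact (segment ℝ (p - a) (p + a)) := by
    rw [segment_eq_image_lineMap]
    exact isCompact_Icc.image AffineMap.lineMap_continuous
  apply le_antisymm
  · refine supp_le ⟨_, left_mem_segment _ _ _⟩ ?_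
    rintro _ ⟨s, t, hs, ht, hst, rfl⟩
    simp only [inner_add_left, inner_sub_left, real_inner_smul_left]
    obtain rfl : s = 1 - t := by linarith
    nlinarith [le_abs_self (inner ℝ a v), neg_abs_le (inner ℝ a v)]
  · have h1 := le_supp hc (left_mem_segment _ _ _) v
    have h2 := le_supp hc (right_mem_segment _ _ _) v
    rw [inner_sub_left] at h1
    rw [inner_add_left] at h2
    rcases abs_cases (inner ℝ a v) with h | h <;> linarith

lemma seg_compact (p q : EuclideanSpace ℝ (Fin n)) : IsCompact (segment ℝ p q) := by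
  rw [segment_eq_image_lineMap]
  exact isCompact_Icc.image AffineMap.lineMap_continuous

lemma seg_sym {p a : EuclideanSpace ℝ (Fin n)} (hp : R p = p) (ha : R a = -a) :
    ∀ x ∈ segment ℝ (p - a) (p + a), R x ∈ segment ℝ (p - a) (p + a) := by
  rintro _ ⟨s, t, hs, ht, hst, rfl⟩
  exact ⟨t, s, ht, hs, by linarith, by simp [hp, ha, add_comm, sub_eq_add_neg]⟩

/-- the hypotheses on a symmetrization -/
structure G (R : EuclideanSpace ℝ (Fin n) ≃ₗᵢ[ℝ] EuclideanSpace ℝ (Fin n)) (b : Bool)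
    (F : Set (EuclideanSpace ℝ (Fin n)) → Set (EuclideanSpace ℝ (Fin n))) : Prop where
  inv : ∀ x, R (R x) = x
  maps : ∀ K, Cls b K → Cls b (F K) ∧ ∀ x ∈ F K, R x ∈ F K
  mono : ∀ K L, Cls b K → Cls b L → K ⊆ L → F K ⊆ F L
  width : ∀ K, Cls b K → W (F K) = W K
  fixes : ∀ K, Cls b K → (∀ x ∈ K, R x ∈ K) → F K = K

lemma max_int (hA : Cls b A) (hS : Cls b S) : Integrable fun v : EuclideanSpace ℝ (Fin n) =>
    max (supp A v) (supp S v) * Real.exp (-‖v‖ ^ 2) := by
  simp only [max_mul_of_nonneg _ _ (Real.exp_pos _).le]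
  exact (supp_int hA.1 hA.2.2.1).sup (supp_int hS.1 hS.2.2.1)

lemma KI (hF : G R b F) (hA : Cls b A) (hS : Cls b S) (hs : ∀ x ∈ S, R x ∈ S) :
    ∫ v : EuclideanSpace ℝ (Fin n), max (supp (F A) v) (supp S v) * Real.exp (-‖v‖ ^ 2) ≤
    ∫ v : EuclideanSpace ℝ (Fin n), max (supp A v) (supp S v) * Real.exp (-‖v‖ ^ 2) := by
  set C : Set (EuclideanSpace ℝ (Fin n)) := {x | ∀ v, inner ℝ x v ≤ max (supp A v) (supp S v)}
  have hAC : A ⊆ C := fun x hx v => le_max_of_le_left (le_supp hA.1 hx v)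
  have hSC : S ⊆ C := fun x hx v => le_max_of_le_right (le_supp hS.1 hx v)
  have hC : Cls b C := by
    refine ⟨isCompact_of_isClosed_isBounded ?_ ?_, ?_, hA.2.2.1.mono hAC,
      fun h => (hA.2.2.2 h).mono (interior_mono hAC)⟩
    · simp only [C, ofPred_forall]
      exact isClosed_iInter fun v => isClosed_le (by fun_prop) continuous_const
    · obtain ⟨R1, h1⟩ := supp_bound hA.1 hA.2.2.1
      obtain ⟨R2, h2⟩ := supp_bound hS.1 hS.2.2.1
      refine isBounded_iff_forall_norm_le.2 ⟨|R1| + |R2|, fun x hx => ?_⟩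
      have h3 := hx x
      rw [real_inner_self_eq_norm_sq] at h3
      have h4 : max (supp A x) (supp S x) ≤ (|R1| + |R2|) * ‖x‖ :=
        max_le (by nlinarith [(abs_le.1 (h1 x)).2, le_abs_self R1, abs_nonneg R2, norm_nonneg x])
          (by nlinarith [(abs_le.1 (h2 x)).2, le_abs_self R2, abs_nonneg R1, norm_nonneg x])
      rcases (norm_nonneg x).eq_or_lt with h | h
      · rw [← h]; positivity
      · nlinarith
    · simp only [C, ofPred_forall]
      exact convex_iInter fun v => convex_halfSpace_le ⟨fun a b => inner_add_left _ _ _,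
        fun c a => real_inner_smul_left _ _ _⟩ _
  have hFC := (hF.maps C hC).1
  have hFA := (hF.maps A hA).1
  calc _ ≤ W (F C) := by
        refine integral_mono (max_int hFA hS) (supp_int hFC.1 hFC.2.2.1) fun v =>
          mul_le_mul_of_nonneg_right (max_le ?_ ?_) (Real.exp_pos _).le
        · exact supp_mono hFA.2.2.1 hFC.1 (hF.mono _ _ hA hC hAC) v
        · exact supp_mono hS.2.2.1 hFC.1 (hF.fixes S hS hs ▸ hF.mono _ _ hS hC hSC) v
    _ = W C := hF.width C hC
    _ ≤ _ := integral_mono (supp_int hC.1 hC.2.2.1) (max_int hA hS) fun v =>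
          mul_le_mul_of_nonneg_right (supp_le hC.2.2.1 fun x hx => hx v) (Real.exp_pos _).le

lemma ae_inner_ne {z : EuclideanSpace ℝ (Fin n)} (hz : z ≠ 0) :
    ∀ᵐ v : EuclideanSpace ℝ (Fin n), inner ℝ z v ≠ 0 := by
  have := Measure.addHaar_submodule (volume : Measure (EuclideanSpace ℝ (Fin n))) (ℝ ∙ z)ᗮ
    (by simpa using hz)
  rw [ae_iff]
  convert this using 2
  ext v
  simp [Submodule.mem_orthogonal_singleton_iff_inner_right]

lemma CI (hF : G R b F) (hA : Cls b A) {e c : EuclideanSpace ℝ (Fin n)} (he0 : e ≠ 0)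
    (he : R e = e) (hc : R c = -c) :
    ∫ v : EuclideanSpace ℝ (Fin n), (if |inner ℝ c v| < inner ℝ e v then
      (supp (F A) v - supp A v) * Real.exp (-‖v‖ ^ 2) else 0) ≤ 0 := by
  have hFA := (hF.maps A hA).1
  set S : ℕ → Set (EuclideanSpace ℝ (Fin n)) := fun k =>
    Th (segment ℝ (-((k : ℝ) • e) - (k : ℝ) • c) (-((k : ℝ) • e) + (k : ℝ) • c)) 1
  have hS : ∀ k, Cls b (S k) := fun k =>
    Th_cls (seg_compact _ _) (convex_segment _ _) ⟨_, left_mem_segment _ _ _⟩ one_pos
  have hSs : ∀ k v, supp (S k) v = k * (|inner ℝ c v| - inner ℝ e v) + ‖v‖ := fun k v => by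
    rw [supp_Th (seg_compact _ _) ⟨_, left_mem_segment _ _ _⟩ zero_le_one, supp_seg]
    simp only [inner_neg_left, real_inner_smul_left, abs_mul, Nat.abs_cast]
    ring
  have h1 : ∀ k, ∫ v : EuclideanSpace ℝ (Fin n), (max (supp (F A) v) (supp (S k) v) -
      max (supp A v) (supp (S k) v)) * Real.exp (-‖v‖ ^ 2) ≤ 0 := fun k => by
    simp only [sub_mul]
    rw [integral_sub (max_int hFA (hS k)) (max_int hA (hS k)), sub_nonpos]
    exact KI hF hA (hS k) (Th_sym (seg_sym (by simp [he]) (by simp [hc])) 1)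
  have hcA := supp_cont hA.1
  have hcF := supp_cont hFA.1
  refine le_of_tendsto' (tendsto_integral_of_dominated_convergence
    (fun v => ‖supp (F A) v * Real.exp (-‖v‖ ^ 2) - supp A v * Real.exp (-‖v‖ ^ 2)‖)
    (fun k => ?_) ((supp_int hFA.1 hFA.2.2.1).sub (supp_int hA.1 hA.2.2.1)).norm
    (fun k => Eventually.of_forall fun v => ?_) ?_) h1
  · have := supp_cont (hS k).1
    exact Continuous.aestronglyMeasurable (by fun_prop)
  · rw [← sub_mul, norm_mul, norm_mul]
    exact mul_le_mul_of_nonneg_right (abs_max_sub_max_le_abs _ _ _) (norm_nonneg _)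
  · have h2 : e - c ≠ 0 := fun h => he0 (by
      have h3 := congrArg R h
      rw [map_sub, he, hc, map_zero] at h3
      have : (2 : ℝ) • e = 0 := by rw [two_smul, ← add_zero 0]; nth_rw 1 [← h, ← h3]; abel
      simpa using this)
    have h3 : e + c ≠ 0 := fun h => h2 (by
      have h3 := congrArg R h
      rwa [map_add, he, hc, map_zero, ← sub_eq_add_neg] at h3)
    filter_upwards [ae_inner_ne h2, ae_inner_ne h3] with v hv2 hv3
    rw [inner_sub_left] at hv2
    rw [inner_add_left] at hv3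
    simp only [hSs]
    refine tendsto_const_nhds.congr' ?_
    split_ifs with h
    · have := (tendsto_natCast_atTop_atTop (R := ℝ)).atTop_mul_const_of_neg (sub_neg.2 h)
      filter_upwards [this.eventually_le_atBot (supp (F A) v - ‖v‖),
        this.eventually_le_atBot (supp A v - ‖v‖)] with k h4 h5
      rw [max_eq_left (by linarith), max_eq_left (by linarith)]
    · have h' : 0 < |inner ℝ c v| - inner ℝ e v := by
        rcases abs_cases (inner ℝ c v) with h6 | h6
        · exact sub_pos.2 (lt_of_le_of_ne (not_lt.1 h) (by rw [h6.1]; exact sub_ne_zero.1 hv2))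
        · exact sub_pos.2 (lt_of_le_of_ne (not_lt.1 h) (by rw [h6.1]; intro h7; apply hv3; linarith))
      have := (tendsto_natCast_atTop_atTop (R := ℝ)).atTop_mul_const h'
      filter_upwards [this.eventually_ge_atTop (supp (F A) v - ‖v‖),
        this.eventually_ge_atTop (supp A v - ‖v‖)] with k h4 h5
      rw [max_eq_right (by linarith), max_eq_right (by linarith), sub_self, zero_mul]

end Pool.Agent.H85.MW
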