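import Pool.Agent.H85.MWRig1

/-! Rigidity of mean-width preserving symmetrizations for `dim H ≥ 1`, part 2. -/

namespace Pool.Agent.H85.MW

open MeasureTheory Set Pointwise Metric Filter Topology

variable {n : ℕ} {K L A S : Set (EuclideanSpace ℝ (Fin n))} {b : Bool}
  {R : EuclideanSpace ℝ (Fin n) ≃ₗᵢ[ℝ] EuclideanSpace ℝ (Fin n)}
  {F : Set (EuclideanSpace ℝ (Fin n)) → Set (EuclideanSpace ℝ (Fin n))}

lemma gauss_int' : Integrable fun v : EuclideanSpace ℝ (Fin n) => ‖v‖ * Real.exp (-‖v‖ ^ 2 / 2) := by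
  have h := (GaussianFourier.integrable_cexp_neg_mul_sq_norm_add (V := EuclideanSpace ℝ (Fin n))
    (b := 1 / 4) (by norm_num) 0 0).norm
  refine h.mono' (by fun_prop) (Filter.Eventually.of_forall fun v => ?_)
  rw [Real.norm_of_nonneg (by positivity), Complex.norm_exp]
  have e : (-(1 / 4 : ℂ) * (‖v‖ : ℂ) ^ 2 + 0 * (inner ℝ (0 : EuclideanSpace ℝ (Fin n)) v : ℝ)).re =
      -(1 / 4) * ‖v‖ ^ 2 := by
    simp [← Complex.ofReal_pow]
  rw [e, show -‖v‖ ^ 2 / 2 = -(1 / 4) * ‖v‖ ^ 2 + -(1 / 4 * ‖v‖ ^ 2) by ring, Real.exp_add,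
    mul_comm, mul_assoc]
  refine mul_le_of_le_one_right (by positivity) ?_
  rw [Real.exp_neg, inv_mul_le_iff₀ (by positivity), mul_one]
  nlinarith [Real.add_one_le_exp (1 / 4 * ‖v‖ ^ 2), sq_nonneg (‖v‖ / 2 - 1)]

lemma le_of_eps' {x y c : ℝ} (h : ∀ ε > 0, ε ≤ 1 → x ≤ y + ε * c) : x ≤ y := by
  have : Tendsto (fun ε : ℝ => y + ε * c) (𝓝[>] 0) (𝓝 (y + 0 * c)) :=
    (Continuous.tendsto (by fun_prop) 0).mono_left nhdsWithin_le_nhds
  simpa using ge_of_tendsto this (by
    filter_upwards [Ioc_mem_nhdsGT (zero_lt_one' ℝ)] with ε hε using h ε hε.1 hε.2)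

lemma ite_int {f : EuclideanSpace ℝ (Fin n) → ℝ} (hf : Integrable f)
    (c e : EuclideanSpace ℝ (Fin n)) :
    Integrable fun v => if |inner ℝ c v| < inner ℝ e v then f v else 0 := by
  have := hf.indicator (s := {v | |inner ℝ c v| < inner ℝ e v})
    (isOpen_lt (by fun_prop) (by fun_prop)).measurableSet
  refine this.congr (Eventually.of_forall fun v => ?_)
  simp [indicator_apply]

lemma line {e a w : EuclideanSpace ℝ (Fin n)} (he : ‖e‖ = 1) (ha : ‖a‖ = 1)
    (hea : inner ℝ e a = 0) (hwa : inner ℝ w a = 0) (hwe : inner ℝ w e = 0) {l α : ℝ} (hα : 0 ≤ α)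
    (h : ∀ r : ℝ, ∫ v : EuclideanSpace ℝ (Fin n), (if |inner ℝ (r • a) v| < inner ℝ e v then
      (|inner ℝ (l • a + w) v| - α * |inner ℝ a v|) * Real.exp (-‖v‖ ^ 2) else 0) ≤ 0) :
    w = 0 := by
  by_contra hw
  set g : EuclideanSpace ℝ (Fin n) → ℝ := fun v =>
    min |inner ℝ w v| (max 0 (inner ℝ e v - |inner ℝ a v|)) * Real.exp (-‖v‖ ^ 2)
  have hgi : Integrable g := int_of_bound (R := ‖w‖) (by fun_prop) fun v => by
    rw [abs_of_nonneg (by positivity)]
    exact (min_le_left _ _).trans (abs_real_inner_le_norm _ _)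
  have hg : 0 < ∫ v, g v := by
    refine integral_pos_of_integrable_nonneg_nonzero (x := e + w) (by fun_prop) hgi
      (fun v => by positivity) (ne_of_gt ?_)
    have h1 : inner ℝ a (e + w) = 0 := by
      rw [inner_add_right, real_inner_comm, hea, real_inner_comm, hwa, add_zero]
    have h2 : inner ℝ e (e + w) = 1 := by
      rw [inner_add_right, real_inner_self_eq_norm_sq, he, real_inner_comm, hwe]; norm_num
    have h3 : inner ℝ w (e + w) = ‖w‖ ^ 2 := by
      rw [inner_add_right, hwe, real_inner_self_eq_norm_sq, zero_add]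
    have := norm_pos_iff.2 hw
    simp only [g, h1, h2, h3]
    refine mul_pos (lt_min (by positivity) (by norm_num)) (Real.exp_pos _)
  refine absurd (le_of_eps' (c := (|l| + α) * ∫ v : EuclideanSpace ℝ (Fin n),
    ‖v‖ * Real.exp (-‖v‖ ^ 2 / 2)) fun ε hε hε1 => ?_) (not_le.2 hg)
  set f : EuclideanSpace ℝ (Fin n) → ℝ := fun v => if |inner ℝ (ε⁻¹ • a) v| < inner ℝ e v then
      (|inner ℝ (l • a + w) v| - α * |inner ℝ a v|) * Real.exp (-‖v‖ ^ 2) else 0
  have hfi : Integrable f := ite_int (int_of_bound (R := ‖l • a + w‖ + α * ‖a‖) (by fun_prop)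
    fun v => (abs_sub _ _).trans (by
      rw [abs_abs, abs_mul, abs_abs, abs_of_nonneg hα, add_mul, mul_assoc]
      gcongr <;> exact abs_real_inner_le_norm _ _)) _ _
  let T : EuclideanSpace ℝ (Fin n) →ₗ[ℝ] EuclideanSpace ℝ (Fin n) :=
    LinearMap.id - (1 - ε) • ((innerSL ℝ a).smulRight a).toLinearMap
  have hT : ∀ v, T v = v - ((1 - ε) * inner ℝ a v) • a := fun v => by simp [T, smul_smul]
  have hTa : ∀ v, inner ℝ a (T v) = ε * inner ℝ a v := fun v => by
    rw [hT, inner_sub_right, real_inner_smul_right, real_inner_self_eq_norm_sq, ha]; ring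
  have hTe : ∀ v, inner ℝ e (T v) = inner ℝ e v := fun v => by
    rw [hT, inner_sub_right, real_inner_smul_right, hea]; ring
  have hTw : ∀ v, inner ℝ w (T v) = inner ℝ w v := fun v => by
    rw [hT, inner_sub_right, real_inner_smul_right, hwa]; ring
  have hTn : ∀ v, ‖T v‖ ^ 2 = ‖v‖ ^ 2 - (1 - ε ^ 2) * inner ℝ a v ^ 2 := fun v => by
    rw [hT, norm_sub_sq_real, real_inner_smul_right, norm_smul, ha, real_inner_comm, mul_one,
      Real.norm_eq_abs, sq_abs]
    ring
  have hdet : LinearMap.det T ≠ 0 := by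
    rw [Ne, LinearMap.det_eq_zero_iff_ker_ne_bot, not_not, LinearMap.ker_eq_bot']
    intro v hv
    have h1 := hTa v
    rw [hv, inner_zero_right, eq_comm, mul_eq_zero, or_iff_right hε.ne'] at h1
    rwa [hT, h1, mul_zero, zero_smul, sub_zero] at hv
  have hm := Measure.map_linearMap_addHaar_eq_smul_addHaar
    (volume : Measure (EuclideanSpace ℝ (Fin n))) hdet
  have hTm : AEMeasurable T volume := T.continuous_of_finiteDimensional.measurable.aemeasurable
  have hfi' : Integrable f (Measure.map T volume) := by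
    rw [hm]; exact hfi.smul_measure ENNReal.ofReal_ne_top
  have h1 : ∫ v, f (T v) ≤ 0 := by
    rw [← integral_map hTm hfi'.aestronglyMeasurable, hm, integral_smul_measure]
    exact mul_nonpos_of_nonneg_of_nonpos ENNReal.toReal_nonneg (h _)
  have h2 : Integrable fun v => f (T v) := (integrable_map_measure hfi'.aestronglyMeasurable hTm).1 hfi'
  refine le_trans ?_ (add_le_add_left h1 _)
  rw [← mul_assoc, ← integral_const_mul, ← integral_add h2 (gauss_int'.const_mul _)]
  refine integral_mono hgi (h2.add (gauss_int'.const_mul _)) fun v => ?_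
  simp only [g, f, real_inner_smul_left, inner_add_left, hTa, hTe, hTw,
    inv_mul_cancel_left₀ hε.ne']
  have hav : |inner ℝ a v| ≤ ‖v‖ := by simpa [ha] using abs_real_inner_le_norm a v
  split_ifs with hv
  · have h3 : inner ℝ e v ≤ ‖T v‖ := by simpa [he, hTe] using real_inner_le_norm e (T v)
    have h4 : inner ℝ a v ^ 2 ≤ ‖T v‖ ^ 2 := by
      rw [← sq_abs]; exact pow_le_pow_left₀ (abs_nonneg _) (by linarith) 2
    have h5 := hTn v
    have h6 : Real.exp (-‖v‖ ^ 2) ≤ Real.exp (-‖T v‖ ^ 2) := Real.exp_le_exp.2 (by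
      nlinarith [sq_nonneg (inner ℝ a v), mul_nonneg (sub_nonneg.2 (pow_le_one₀ hε.le hε1 (n := 2)))
        (sq_nonneg (inner ℝ a v))])
    have h7 : Real.exp (-‖T v‖ ^ 2) ≤ Real.exp (-‖v‖ ^ 2 / 2) := Real.exp_le_exp.2 (by
      nlinarith [mul_nonneg (sq_nonneg ε) (sq_nonneg (inner ℝ a v))])
    have h8 : |inner ℝ w v| - ε * (|l| + α) * ‖v‖ ≤
        |l * (ε * inner ℝ a v) + inner ℝ w v| - α * |ε * inner ℝ a v| := by
      have h9 := abs_sub (l * (ε * inner ℝ a v) + inner ℝ w v) (l * (ε * inner ℝ a v))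
      rw [add_sub_cancel_left, abs_mul l, abs_mul ε, abs_of_pos hε] at h9
      rw [abs_mul ε, abs_of_pos hε]
      nlinarith [mul_le_mul_of_nonneg_left hav (mul_nonneg hε.le hα),
        mul_le_mul_of_nonneg_left hav (mul_nonneg hε.le (abs_nonneg l))]
    calc _ ≤ |inner ℝ w v| * Real.exp (-‖T v‖ ^ 2) :=
          mul_le_mul (min_le_left _ _) h6 (by positivity) (by positivity)
      _ ≤ _ := by
          have h10 := mul_le_mul_of_nonneg_right h8 (Real.exp_pos (-‖T v‖ ^ 2)).le
          have h11 := mul_le_mul_of_nonneg_left h7 (by positivity : 0 ≤ ε * (|l| + α) * ‖v‖)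
          nlinarith
  · rw [max_eq_left (by linarith), min_eq_right (abs_nonneg _), zero_mul]
    positivity

lemma Th_mono (h : K ⊆ L) {ε δ : ℝ} (hε : ε ≤ δ) : Th K ε ⊆ Th L δ :=
  add_subset_add h (closedBall_subset_closedBall hε)

lemma subset_Th {ε : ℝ} (hε : 0 ≤ ε) : K ⊆ Th K ε := fun x hx => ⟨x, hx, 0, by simpa, by simp⟩

lemma ite_odd (hF : G R b F) {e c y : EuclideanSpace ℝ (Fin n)} (he : R e = e) (hc : R c = -c)
    (hy : R y = -y) : ∫ v : EuclideanSpace ℝ (Fin n), (if |inner ℝ c v| < inner ℝ e v then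
      inner ℝ y v * Real.exp (-‖v‖ ^ 2) else 0) = 0 := by
  have h := R.measurePreserving.integral_comp R.toHomeomorph.measurableEmbedding
    (fun v : EuclideanSpace ℝ (Fin n) => if |inner ℝ c v| < inner ℝ e v then
      inner ℝ y v * Real.exp (-‖v‖ ^ 2) else 0)
  have hR : ∀ z v, inner ℝ z (R v) = inner ℝ (R z) v := fun z v => by
    rw [← R.inner_map_map, hF.inv]
  simp only [hR, he, hc, hy, inner_neg_left, abs_neg, R.norm_map, neg_mul] at h
  have h2 : ∀ (p : Prop) [Decidable p] (x : ℝ), (if p then -x else 0) = -(if p then x else 0) :=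
    fun p _ x => by split_ifs <;> simp
  simp only [h2, integral_neg] at h
  linarith

lemma seg (hF : G R b F) {e p a y : EuclideanSpace ℝ (Fin n)} (he1 : ‖e‖ = 1) (he : R e = e)
    (hp : R p = p) (ha : R a = -a) (hy : R y = -y) {ε : ℝ} (hε : 0 < ε) :
    p + a ∈ F (Th (segment ℝ (p + y - a) (p + y + a)) ε) := by
  set J := segment ℝ (p + y - a) (p + y + a)
  have hJ : IsCompact J := seg_compact _ _
  have hJn : J.Nonempty := ⟨_, left_mem_segment _ _ _⟩
  have hA : ∀ ε : Ioi (0 : ℝ), Cls b (Th J ε) := fun ε => Th_cls hJ (convex_segment _ _) hJn ε.2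
  have hB : ∀ ε : Ioi (0 : ℝ), Cls b (F (Th J ε)) := fun ε => (hF.maps _ (hA ε)).1
  set Q := ⋂ ε : Ioi (0 : ℝ), F (Th J ε)
  suffices p + a ∈ Q from mem_iInter.1 this ⟨ε, hε⟩
  have hdir : Directed (· ⊇ ·) fun ε : Ioi (0 : ℝ) => F (Th J ε) := fun s t =>
    ⟨min s t, hF.mono _ _ (hA _) (hA _) (Th_mono le_rfl (min_le_left s t)),
      hF.mono _ _ (hA _) (hA _) (Th_mono le_rfl (min_le_right s t))⟩
  have hQ : IsCompact Q := (hB ⟨1, zero_lt_one' ℝ⟩).1.of_isClosed_subset
    (isClosed_iInter fun ε => (hB ε).1.isClosed) (iInter_subset _ _)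
  have hQc : Convex ℝ Q := convex_iInter fun ε => (hB ε).2.1
  have hQn : Q.Nonempty := IsCompact.nonempty_iInter_of_directed_nonempty_isCompact_isClosed _ hdir
    (fun ε => (hB ε).2.2.1) (fun ε => (hB ε).1) fun ε => (hB ε).1.isClosed
  have hQs : ∀ x ∈ Q, R x ∈ Q := fun x hx =>
    mem_iInter.2 fun ε => (hF.maps _ (hA ε)).2 x (mem_iInter.1 hx ε)
  have hQp : ∀ x ∈ Q, R x = p - (x - p) := fun x hx => by
    have : ‖x + R x - (p + p)‖ ≤ 0 := le_of_eps (c := 2) fun ε hε => by
      obtain ⟨M, hM⟩ := (hA ⟨ε, hε⟩).1.isBounded.exists_norm_le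
      set S : Set (EuclideanSpace ℝ (Fin n)) :=
        closedBall 0 M ∩ (fun x => x + R x) ⁻¹' closedBall (p + p) (ε * 2)
      have hAS : Th J ε ⊆ S := fun z hz => ⟨by simpa using hM z hz, by
        obtain ⟨_, ⟨s, t, -, -, hst, rfl⟩, z, hz, rfl⟩ := hz
        obtain rfl : s = 1 - t := by linarith
        rw [mem_closedBall_zero_iff] at hz
        rw [mem_preimage, mem_closedBall, dist_eq_norm]
        calc _ = ‖z + R z‖ := by
              congr 1
              simp only [map_add, map_smul, map_sub, hp, hy, ha]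
              module
          _ ≤ _ := (norm_add_le _ _).trans (by rw [R.norm_map]; linarith)⟩
      have hS : Cls b S := ⟨(isCompact_closedBall _ _).inter_right
        (isClosed_closedBall.preimage (by fun_prop)), (convex_closedBall _ _).inter
        ((convex_closedBall _ _).is_linear_preimage ⟨fun x y => by simp only [map_add]; abel,
          fun c x => by simp⟩), (hA ⟨ε, hε⟩).2.2.1.mono hAS,
        fun h => ((hA ⟨ε, hε⟩).2.2.2 h).mono (interior_mono hAS)⟩
      have h1 := hF.mono _ _ (hA ⟨ε, hε⟩) hS hAS (mem_iInter.1 hx ⟨ε, hε⟩)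
      rw [hF.fixes S hS fun z hz => ⟨by simpa using hz.1, by
        simpa [hF.inv, add_comm] using hz.2⟩] at h1
      simpa [dist_eq_norm] using h1.2
    rw [norm_le_zero_iff, sub_eq_zero] at this
    rw [eq_sub_of_add_eq' this]; abel
  have hpQ : p ∈ Q := by
    obtain ⟨x, hx⟩ := hQn
    have := hQc hx (hQs x hx) (a := 1 / 2) (b := 1 / 2) (by norm_num) (by norm_num) (by norm_num)
    rw [hQp x hx] at this
    convert this using 1
    module
  by_cases ha0 : a = 0
  · simpa [ha0] using hpQ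
  have han := norm_pos_iff.2 ha0
  have hodd : ∀ z, R z = -z → inner ℝ z e = 0 := fun z hz => by
    have := R.inner_map_map z e
    rw [hz, he, inner_neg_left] at this
    linarith
  have hline : ∀ x ∈ Q, ∃ m : ℝ, x = p + m • a := fun x hx => by
    set u := ‖a‖⁻¹ • a
    have hu : ‖u‖ = 1 := norm_smul_inv_norm ha0
    have hRu : R u = -u := by simp [u, ha]
    have hRq : R (x - p) = -(x - p) := by rw [map_sub, hQp x hx, hp]; abel
    have hw : x - p - inner ℝ u (x - p) • u = 0 := by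
      refine line (l := inner ℝ u (x - p)) (α := ‖a‖) he1 hu (by rw [real_inner_comm, hodd u hRu])
        ?_ (hodd _ (by rw [map_sub, map_smul, hRq, hRu]; module)) han.le fun r => ?_
      · rw [inner_sub_left, real_inner_smul_left, real_inner_self_eq_norm_sq, hu, real_inner_comm]
        ring
      refine le_of_eps (c := c0 n) fun ε hε => ?_
      have h1 := CI hF (hA ⟨ε, hε⟩) (c := r • u) (by rintro rfl; simp at he1) he (by simp [hRu])
      have h2 := ite_odd hF (c := r • u) he (by simp [hRu]) hy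
      have i1 := ite_int ((supp_int (hB ⟨ε, hε⟩).1 (hB ⟨ε, hε⟩).2.2.1).sub
        (supp_int (hA ⟨ε, hε⟩).1 (hA ⟨ε, hε⟩).2.2.1)) (r • u) e
      simp only [Pi.sub_apply, ← sub_mul] at i1
      have i2 := ite_int (lin_int y) (r • u) e
      refine le_trans ?_ (add_le_add_left (add_nonpos h1 h2.le) _)
      rw [c0, ← integral_const_mul, ← integral_add i1 i2]
      refine le_trans ?_ (integral_add (i1.add i2) (gauss_int.const_mul _)).le
      refine integral_mono (ite_int (int_of_bound (R := ‖x - p‖ + ‖a‖ * ‖u‖) (by fun_prop)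
        fun v => (abs_sub _ _).trans ?_) _ _) ((i1.add i2).add (gauss_int.const_mul _)) fun v => ?_
      · rw [abs_abs, abs_mul, abs_abs, abs_of_nonneg han.le, add_mul, mul_assoc, add_sub_cancel]
        gcongr <;> exact abs_real_inner_le_norm _ _
      simp only [Pi.add_apply, add_sub_cancel]
      split_ifs
      · rw [← mul_assoc, ← add_mul, ← add_mul]
        refine mul_le_mul_of_nonneg_right ?_ (Real.exp_pos _).le
        have h3 := le_supp (hB ⟨ε, hε⟩).1 (mem_iInter.1 hx ⟨ε, hε⟩) v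
        have h4 := le_supp (hB ⟨ε, hε⟩).1 (mem_iInter.1 (hQs x hx) ⟨ε, hε⟩) v
        have h5 : ‖a‖ * |inner ℝ u v| = |inner ℝ a v| := by
          rw [real_inner_smul_left, abs_mul, abs_of_pos (inv_pos.2 han),
            mul_inv_cancel_left₀ han.ne']
        rw [hQp x hx] at h4
        rw [supp_Th hJ hJn hε.le, supp_seg, h5]
        simp only [inner_sub_left, inner_add_left] at h3 h4 ⊢
        rcases abs_cases (inner ℝ x v - inner ℝ p v) with h6 | h6 <;> linarith
      · positivity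
    exact ⟨inner ℝ u (x - p) * ‖a‖⁻¹, by rw [mul_smul, ← sub_eq_zero.1 hw]; abel⟩
  by_contra hpa
  have hsub : Q ⊆ segment ℝ (p - a) (p + a) := fun x hx => by
    obtain ⟨m, rfl⟩ := hline x hx
    have key : ∀ m : ℝ, p + m • a ∈ Q → m ≤ 1 := fun m hm => by
      by_contra h
      have h0 : 0 < m := by linarith
      have := hQc hpQ hm (a := 1 - m⁻¹) (b := m⁻¹)
        (sub_nonneg.2 (inv_le_one_of_one_le₀ (by linarith))) (by positivity) (by ring)
      rw [smul_add, smul_smul, inv_mul_cancel₀ h0.ne'] at this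
      exact hpa (by convert this using 1; module)
    have h1 := key m hx
    have h2 := key (-m) (by convert hQs _ hx using 1; simp [hp, ha])
    exact ⟨(1 - m) / 2, (1 + m) / 2, by linarith, by linarith, by ring, by module⟩
  refine hpa (sub_of_W hQ hQc hQn (seg_compact _ _) hsub ?_ (right_mem_segment _ _ _))
  refine le_of_eps (c := c0 n) fun δ hδ => ?_
  obtain ⟨ε, hε⟩ := exists_subset_nhds_of_isCompact' hdir (fun ε => (hB ε).1)
    (fun ε => (hB ε).1.isClosed) (U := Th Q δ) fun x hx => by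
      refine mem_of_superset (closedBall_mem_nhds x hδ) fun z hz => ⟨x, hx, z - x, ?_, by simp⟩
      simpa [dist_eq_norm] using hz
  calc _ ≤ W (Th J ε) + 0 * c0 n := W_le_add (y := -y) (hA ε).1 (hA ε).2.2.1 (seg_compact _ _)
        ⟨_, left_mem_segment _ _ _⟩ fun v => by
          rw [supp_Th hJ hJn (le_of_lt ε.2), supp_seg, supp_seg, inner_add_left, inner_neg_left]
          have := mul_nonneg (le_of_lt ε.2) (norm_nonneg v)
          linarith
    _ = W (F (Th J ε)) := by rw [hF.width _ (hA ε), zero_mul, add_zero]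
    _ ≤ _ := W_le_add (y := 0) hQ hQn (hB ε).1 (hB ε).2.2.1 fun v => by
          rw [inner_zero_left, add_zero, ← supp_Th hQ hQn hδ.le]
          exact supp_mono (hB ε).2.2.1 (Th_cls (b := false) hQ hQc hQn hδ).1 hε v

lemma rigid (hF : G R b F) {e y : EuclideanSpace ℝ (Fin n)} (he1 : ‖e‖ = 1) (he : R e = e)
    (hK : Cls b K) (hs : ∀ x ∈ K, R x ∈ K) (hy : R y = -y) : F ((fun x => x + y) '' K) = K := by
  set K' := (fun x => x + y) '' K
  have hK' : Cls b K' := ⟨hK.1.image (by fun_prop), by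
    simpa [K', add_comm] using hK.2.1.translate y, hK.2.2.1.image _, fun h => by
      have := (Homeomorph.addRight y).image_interior K
      simp only [Homeomorph.coe_addRight] at this
      rw [← this]
      exact (hK.2.2.2 h).image _⟩
  have hsup : ∀ v, supp K' v = supp K v + inner ℝ y v := fun v => by
    apply le_antisymm
    · refine supp_le hK'.2.2.1 ?_
      rintro _ ⟨x, hx, rfl⟩
      rw [inner_add_left]
      exact add_le_add_left (le_supp hK.1 hx v) _
    · obtain ⟨x, hx, h⟩ := exists_supp hK.1 hK.2.2.1 v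
      rw [← h, ← inner_add_left]
      exact le_supp hK'.1 ⟨x, hx, rfl⟩ v
  have hA : ∀ ε : Ioi (0 : ℝ), Cls b (Th K' ε) := fun ε => Th_cls hK'.1 hK'.2.1 hK'.2.2.1 ε.2
  have hB : ∀ ε : Ioi (0 : ℝ), Cls b (F (Th K' ε)) := fun ε => (hF.maps _ (hA ε)).1
  set Q := ⋂ ε : Ioi (0 : ℝ), F (Th K' ε)
  have hQ : IsCompact Q := (hB ⟨1, zero_lt_one' ℝ⟩).1.of_isClosed_subset
    (isClosed_iInter fun ε => (hB ε).1.isClosed) (iInter_subset _ _)
  have hKQ : K ⊆ Q := fun x hx => mem_iInter.2 fun ε => by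
    have h1 := seg hF (p := (1 / 2 : ℝ) • (x + R x)) (a := (1 / 2 : ℝ) • (x - R x)) he1 he
      (by simp [hF.inv, add_comm]) (by simp only [map_smul, map_sub, hF.inv]; module) hy ε.2
    rw [show (1 / 2 : ℝ) • (x + R x) + (1 / 2 : ℝ) • (x - R x) = x by module] at h1
    refine hF.mono _ _ (Th_cls (seg_compact _ _) (convex_segment _ _) ⟨_, left_mem_segment _ _ _⟩
      ε.2) (hA ε) (Th_mono (hK'.2.1.segment_subset ⟨R x, hs x hx, ?_⟩ ⟨x, hx, ?_⟩) le_rfl) h1 <;>
    · simp only; module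
  have hQK : Q ⊆ K := sub_of_W hK.1 hK.2.1 hK.2.2.1 hQ hKQ (le_of_eps (c := c0 n) fun ε hε =>
    calc _ ≤ W (F (Th K' ε)) := W_mono hQ (hK.2.2.1.mono hKQ) (hB ⟨ε, hε⟩).1
            (iInter_subset (fun ε : Ioi (0 : ℝ) => F (Th K' ε)) ⟨ε, hε⟩)
      _ = W (Th K' ε) := hF.width _ (hA ⟨ε, hε⟩)
      _ ≤ _ := W_le_add (y := y) hK.1 hK.2.2.1 (hA ⟨ε, hε⟩).1 (hA ⟨ε, hε⟩).2.2.1 fun v => by
          rw [supp_Th hK'.1 hK'.2.2.1 hε.le, hsup])
  have hFK := (hF.maps _ hK').1
  have h1 : F K' ⊆ K := fun x hx => hQK (mem_iInter.2 fun ε =>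
    hF.mono _ _ hK' (hA ε) (subset_Th (le_of_lt ε.2)) hx)
  refine h1.antisymm (sub_of_W hFK.1 hFK.2.1 hFK.2.2.1 hK.1 h1 ?_)
  rw [hF.width _ hK']
  simpa using W_le_add (y := -y) (ε := 0) hK'.1 hK'.2.2.1 hK.1 hK.2.2.1 fun v => by
    rw [hsup, inner_neg_left]; linarith

end Pool.Agent.H85.MW
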