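import Pool.Agent.H85.MWSym
import Pool.Agent.H85.MWDefs2

/-! The Gaussian integral of the support function is a positive multiple of the mean width. -/

namespace Pool.Agent.H85.MW

open MeasureTheory Set Pointwise Metric

variable {n : ℕ} {K L : Set (EuclideanSpace ℝ (Fin n))}

lemma supp_smul (hK : IsCompact K) (hn : K.Nonempty) {r : ℝ} (hr : 0 ≤ r)
    (v : EuclideanSpace ℝ (Fin n)) : supp K (r • v) = r * supp K v := by
  apply le_antisymm
  · refine supp_le hn fun x hx => ?_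
    rw [real_inner_smul_right]
    exact mul_le_mul_of_nonneg_left (le_supp hK hx v) hr
  · obtain ⟨x, hx, h⟩ := exists_supp hK hn v
    rw [← h, ← real_inner_smul_right]
    exact le_supp hK hx _

lemma W_eq_mw (hn : 0 < n) : ∃ c : ℝ, 0 < c ∧ ∀ K : Set (EuclideanSpace ℝ (Fin n)), IsCompact K →
    K.Nonempty → W K = c * MW2.mw K := by
  have : Nontrivial (EuclideanSpace ℝ (Fin n)) := by
    have : Nonempty (Fin n) := ⟨⟨0, hn⟩⟩
    infer_instance
  set μ : Measure (EuclideanSpace ℝ (Fin n)) := volume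
  set c₁ : ℝ := ∫ r : Ioi (0 : ℝ), r.1 * Real.exp (-r.1 ^ 2)
    ∂.volumeIoiPow (Module.finrank ℝ (EuclideanSpace ℝ (Fin n)) - 1)
  have hm : 0 < μ.toSphere.real univ := by
    rw [measureReal_def]
    exact ENNReal.toReal_pos (Measure.measure_univ_ne_zero.2 μ.toSphere_ne_zero) (measure_ne_top _ _)
  have key : ∀ K : Set (EuclideanSpace ℝ (Fin n)), IsCompact K → K.Nonempty →
      W K = (c₁ * μ.toSphere.real univ / 2) * MW2.mw K := fun K hK hKn => by
    have h1 : W K = ∫ x : ({(0)}ᶜ : Set (EuclideanSpace ℝ (Fin n))),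
        supp K x.1 * Real.exp (-‖x.1‖ ^ 2) ∂(μ.comap (↑)) := by
      rw [integral_subtype_comap (measurableSet_singleton _).compl
        fun x ↦ supp K x * Real.exp (-‖x‖ ^ 2), restrict_compl_singleton, W]
    have h2 := μ.measurePreserving_homeomorphUnitSphereProd.integral_comp
        (Homeomorph.measurableEmbedding _)
        (fun p => supp K p.1.1 * (p.2.1 * Real.exp (-p.2.1 ^ 2)))
    rw [integral_prod_mul (fun u : sphere (0 : EuclideanSpace ℝ (Fin n)) 1 => supp K u.1)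
      (fun r : Ioi (0 : ℝ) => r.1 * Real.exp (-r.1 ^ 2))] at h2
    have h3 : W K = (∫ u : sphere (0 : EuclideanSpace ℝ (Fin n)) 1, supp K u.1 ∂μ.toSphere) * c₁ := by
      rw [h1, ← h2]
      refine integral_congr_ae (Filter.Eventually.of_forall fun x => ?_)
      have hx : 0 < ‖x.1‖ := norm_pos_iff.2 x.2
      simp only [homeomorphUnitSphereProd_apply_fst_coe, homeomorphUnitSphereProd_apply_snd_coe]
      rw [supp_smul hK hKn (by positivity)]
      field_simp
    rw [h3, MW2.mw, average_eq, smul_eq_mul]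
    simp only [supp, μ] at hm ⊢
    field_simp
  refine ⟨c₁ * μ.toSphere.real univ / 2, ?_, key⟩
  have h0 : 0 ≤ c₁ := integral_nonneg fun r => mul_nonneg (le_of_lt r.2) (Real.exp_pos _).le
  rcases h0.eq_or_lt with h | h
  · obtain ⟨x, hx⟩ := exists_norm_eq (EuclideanSpace ℝ (Fin n)) zero_le_one
    have := W_pos (isCompact_closedBall (0 : EuclideanSpace ℝ (Fin n)) 1) (x := x) (y := 0)
      (by simp [hx]) (by simp) (by rintro rfl; simp at hx)
    rw [key _ (isCompact_closedBall _ _) (by simp), ← h] at this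
    simp at this
  · positivity

lemma mw_eq_iff (hn : 0 < n) (hK : IsCompact K) (hKn : K.Nonempty) (hL : IsCompact L)
    (hLn : L.Nonempty) : MW2.mw K = MW2.mw L ↔ W K = W L := by
  obtain ⟨c, hc, h⟩ := W_eq_mw hn
  rw [h K hK hKn, h L hL hLn, mul_right_inj' hc.ne']

lemma sym_bot : MW2.Sym ⊥ K ↔ ∀ x ∈ K, -x ∈ K := by
  simp only [MW2.Sym, Submodule.reflection_bot]
  constructor
  · intro h x hx
    rw [← h]
    exact ⟨x, hx, rfl⟩
  · intro h
    ext x
    exact ⟨by rintro ⟨y, hy, rfl⟩; exact h y hy, fun hx => ⟨-x, h x hx, by simp⟩⟩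

lemma good_D (hn : 0 < n) (b : Bool) : MW2.Good (n := n) ⊥ b D where
  maps _ hK := ⟨D_cls (b := b) hn hK, sym_bot.2 fun _ => D_neg⟩
  mono _ _ hK hL h := D_mono hK.1 hK.2.1 hK.2.2.1 hL.1 hL.2.1 h
  width _ hK := (mw_eq_iff hn (D_compact hK.1 hK.2.1 hK.2.2.1) ⟨0, zero_mem_D⟩ hK.1 hK.2.2.1).2
    (W_D hK.1 hK.2.1 hK.2.2.1)
  fixes _ hK hs := D_symm hK.1 hK.2.1 hK.2.2.1 (sym_bot.1 hs)

end Pool.Agent.H85.MW
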