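import Pool.Agent.H85.MWDefs

/-! An exotic monotone mean-width preserving symmetrization with respect to the origin. -/

namespace Pool.Agent.H85.MW

open MeasureTheory Set Pointwise

variable {n : ℕ} {K L : Set (EuclideanSpace ℝ (Fin n))}

lemma le_supp (hK : IsCompact K) {x : (EuclideanSpace ℝ (Fin n))} (hx : x ∈ K) (v : (EuclideanSpace ℝ (Fin n))) : inner ℝ x v ≤ supp K v :=
  le_csSup (hK.image (by fun_prop)).bddAbove ⟨x, hx, rfl⟩

lemma supp_le (hn : K.Nonempty) {v : (EuclideanSpace ℝ (Fin n))} {c : ℝ} (h : ∀ x ∈ K, inner ℝ x v ≤ c) : supp K v ≤ c :=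
  csSup_le (hn.image _) (by rintro _ ⟨x, hx, rfl⟩; exact h x hx)

lemma exists_supp (hK : IsCompact K) (hn : K.Nonempty) (v : (EuclideanSpace ℝ (Fin n))) : ∃ x ∈ K, inner ℝ x v = supp K v :=
  (hK.image (f := fun y => inner ℝ y v) (by fun_prop)).sSup_mem (hn.image _)

lemma supp_mono (hn : K.Nonempty) (hL : IsCompact L) (h : K ⊆ L) (v : (EuclideanSpace ℝ (Fin n))) : supp K v ≤ supp L v :=
  supp_le hn fun _ hx => le_supp hL (h hx) v

lemma supp_cont (hK : IsCompact K) : Continuous (supp K) :=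
  hK.continuous_sSup (f := fun (v : (EuclideanSpace ℝ (Fin n))) (y : (EuclideanSpace ℝ (Fin n))) => inner ℝ y v) (by fun_prop)

lemma supp_bound (hK : IsCompact K) (hn : K.Nonempty) : ∃ R, ∀ v, |supp K v| ≤ R * ‖v‖ := by
  obtain ⟨R, hR⟩ := hK.isBounded.exists_norm_le
  refine ⟨R, fun v => ?_⟩
  obtain ⟨x, hx, h⟩ := exists_supp hK hn v
  rw [← h]
  exact (abs_real_inner_le_norm _ _).trans (mul_le_mul_of_nonneg_right (hR x hx) (norm_nonneg _))

lemma gauss_int : Integrable fun v : (EuclideanSpace ℝ (Fin n)) => ‖v‖ * Real.exp (-‖v‖ ^ 2) := by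
  have h := (GaussianFourier.integrable_cexp_neg_mul_sq_norm_add (V := (EuclideanSpace ℝ (Fin n))) (b := 1 / 2)
    (by norm_num) 0 0).norm
  refine h.mono' (by fun_prop) (Filter.Eventually.of_forall fun v => ?_)
  rw [Real.norm_of_nonneg (by positivity), Complex.norm_exp]
  have e : (-(1 / 2 : ℂ) * (‖v‖ : ℂ) ^ 2 + 0 * (inner ℝ (0 : (EuclideanSpace ℝ (Fin n))) v : ℝ)).re = -(1 / 2) * ‖v‖ ^ 2 := by
    simp [← Complex.ofReal_pow]
  rw [e, show -‖v‖ ^ 2 = -(1 / 2) * ‖v‖ ^ 2 + -(1 / 2 * ‖v‖ ^ 2) by ring, Real.exp_add,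
    mul_comm, mul_assoc]
  refine mul_le_of_le_one_right (by positivity) ?_
  rw [Real.exp_neg, inv_mul_le_iff₀ (by positivity), mul_one]
  nlinarith [Real.add_one_le_exp (1 / 2 * ‖v‖ ^ 2), sq_nonneg (‖v‖ - 1)]

lemma int_of_bound {f : (EuclideanSpace ℝ (Fin n)) → ℝ} (hf : Continuous f) {R : ℝ} (h : ∀ v, |f v| ≤ R * ‖v‖) :
    Integrable fun v : (EuclideanSpace ℝ (Fin n)) => f v * Real.exp (-‖v‖ ^ 2) := by
  refine (gauss_int.const_mul R).mono' (by fun_prop) (Filter.Eventually.of_forall fun v => ?_)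
  rw [Real.norm_eq_abs, abs_mul, abs_of_pos (Real.exp_pos _), ← mul_assoc]
  exact mul_le_mul_of_nonneg_right (h v) (Real.exp_pos _).le

lemma supp_int (hK : IsCompact K) (hn : K.Nonempty) :
    Integrable fun v : (EuclideanSpace ℝ (Fin n)) => supp K v * Real.exp (-‖v‖ ^ 2) := by
  obtain ⟨R, hR⟩ := supp_bound hK hn
  exact int_of_bound (supp_cont hK) hR

lemma W_neg (K : Set (EuclideanSpace ℝ (Fin n))) : ∫ v : (EuclideanSpace ℝ (Fin n)), supp K (-v) * Real.exp (-‖v‖ ^ 2) = W K := by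
  rw [W, ← integral_neg_eq_self]
  simp

lemma supp_neg_int (hK : IsCompact K) (hn : K.Nonempty) :
    Integrable fun v : (EuclideanSpace ℝ (Fin n)) => supp K (-v) * Real.exp (-‖v‖ ^ 2) := by
  obtain ⟨R, hR⟩ := supp_bound hK hn
  exact int_of_bound (R := R) ((supp_cont hK).comp continuous_neg) fun v => by simpa using hR (-v)

lemma two_W (hK : IsCompact K) (hn : K.Nonempty) :
    ∫ v : (EuclideanSpace ℝ (Fin n)), (supp K v + supp K (-v)) * Real.exp (-‖v‖ ^ 2) = 2 * W K := by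
  simp only [add_mul]
  rw [integral_add (supp_int hK hn) (supp_neg_int hK hn), W_neg, two_mul, W]

lemma width_ge (hK : IsCompact K) {x y : (EuclideanSpace ℝ (Fin n))} (hx : x ∈ K) (hy : y ∈ K) (v : (EuclideanSpace ℝ (Fin n))) :
    inner ℝ (x - y) v ≤ supp K v + supp K (-v) := by
  have h1 := le_supp hK hx v
  have h2 := le_supp hK hy (-v)
  rw [inner_neg_right] at h2
  rw [inner_sub_left]
  linarith

lemma W_nonneg (hK : IsCompact K) (hn : K.Nonempty) : 0 ≤ W K := by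
  have : 0 ≤ 2 * W K := by
    rw [← two_W hK hn]
    refine integral_nonneg fun v => mul_nonneg ?_ (Real.exp_pos _).le
    obtain ⟨x, hx⟩ := hn
    simpa using width_ge hK hx hx v
  linarith

lemma W_pos (hK : IsCompact K) {x y : (EuclideanSpace ℝ (Fin n))} (hx : x ∈ K) (hy : y ∈ K) (hxy : x ≠ y) : 0 < W K := by
  have : 0 < 2 * W K := by
    rw [← two_W hK ⟨x, hx⟩]
    have hc := supp_cont hK
    refine integral_pos_of_integrable_nonneg_nonzero (x := x - y) (by fun_prop) ?_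
      (fun v => mul_nonneg (by simpa using width_ge hK hx hx v) (Real.exp_pos _).le) ?_
    · simp only [add_mul]
      exact (supp_int hK ⟨x, hx⟩).add (supp_neg_int hK ⟨x, hx⟩)
    · refine mul_ne_zero (ne_of_gt (lt_of_lt_of_le ?_ (width_ge hK hx hy _))) (Real.exp_pos _).ne'
      exact real_inner_self_pos.2 (sub_ne_zero.2 hxy)
  linarith

/-- `conv (K ∪ {0})` -/
def K0 (K : Set (EuclideanSpace ℝ (Fin n))) : Set (EuclideanSpace ℝ (Fin n)) := convexHull ℝ (insert 0 K)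

lemma K0_compact (hK : IsCompact K) (hc : Convex ℝ K) (hn : K.Nonempty) : IsCompact (K0 K) := by
  rw [K0, convexHull_insert hn, hc.convexHull_eq]
  have : convexJoin ℝ {0} K = (fun p : ℝ × (EuclideanSpace ℝ (Fin n)) => p.1 • p.2) '' (Icc 0 1 ×ˢ K) := by
    ext z
    simp only [mem_convexJoin, mem_singleton_iff, exists_eq_left, segment_eq_image, smul_zero,
      zero_add, mem_image, mem_prod, Prod.exists]
    exact ⟨fun ⟨y, hy, t, ht, h⟩ => ⟨t, y, ⟨ht, hy⟩, h⟩, fun ⟨t, y, h1, h⟩ => ⟨y, h1.2, t, h1.1, h⟩⟩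
  rw [this]
  exact (isCompact_Icc.prod hK).image (by fun_prop)

lemma zero_mem_K0 : (0 : (EuclideanSpace ℝ (Fin n))) ∈ K0 K := subset_convexHull _ _ (mem_insert _ _)
lemma subset_K0 : K ⊆ K0 K := (subset_insert _ _).trans (subset_convexHull _ _)

lemma supp_K0 (hK : IsCompact K) (hc : Convex ℝ K) (hn : K.Nonempty) (v : (EuclideanSpace ℝ (Fin n))) :
    supp (K0 K) v = max (supp K v) 0 := by
  apply le_antisymm
  · refine supp_le ⟨0, zero_mem_K0⟩ fun x hx => ?_
    refine convexHull_min (t := {x : (EuclideanSpace ℝ (Fin n)) | inner ℝ x v ≤ max (supp K v) 0}) ?_ ?_ hx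
    · rintro y (rfl | hy)
      · simp
      · exact le_max_of_le_left (le_supp hK hy v)
    · exact convex_halfSpace_le ⟨fun a b => inner_add_left _ _ _,
        fun c a => real_inner_smul_left _ _ _⟩ _
  · exact max_le (supp_mono hn (K0_compact hK hc hn) subset_K0 v)
      (by simpa using le_supp (K0_compact hK hc hn) zero_mem_K0 v)

/-- the ratio of mean widths -/
noncomputable def θ (K : Set (EuclideanSpace ℝ (Fin n))) : ℝ := W K / W (K0 K)

/-- the exotic symmetrization -/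
noncomputable def D (K : Set (EuclideanSpace ℝ (Fin n))) : Set (EuclideanSpace ℝ (Fin n)) := (θ K / 2) • (K0 K - K0 K)

lemma W_mono (hK : IsCompact K) (hn : K.Nonempty) (hL : IsCompact L) (h : K ⊆ L) : W K ≤ W L :=
  integral_mono (supp_int hK hn) (supp_int hL (hn.mono h)) fun v =>
    mul_le_mul_of_nonneg_right (supp_mono hn hL h v) (Real.exp_pos _).le

lemma θ_nonneg (hK : IsCompact K) (hc : Convex ℝ K) (hn : K.Nonempty) : 0 ≤ θ K :=
  div_nonneg (W_nonneg hK hn) (W_nonneg (K0_compact hK hc hn) ⟨0, zero_mem_K0⟩)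

lemma θ_mono (hK : IsCompact K) (hc : Convex ℝ K) (hn : K.Nonempty) (hL : IsCompact L)
    (hcL : Convex ℝ L) (h : K ⊆ L) : θ K ≤ θ L := by
  have hnL := hn.mono h
  have hK0 := K0_compact hK hc hn
  have hL0 := K0_compact hL hcL hnL
  have h1 : W (K0 L) - W L ≤ W (K0 K) - W K := by
    simp only [W]
    rw [← integral_sub (supp_int hL0 ⟨0, zero_mem_K0⟩) (supp_int hL hnL),
      ← integral_sub (supp_int hK0 ⟨0, zero_mem_K0⟩) (supp_int hK hn)]
    refine integral_mono ((supp_int hL0 ⟨0, zero_mem_K0⟩).sub (supp_int hL hnL))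
      ((supp_int hK0 ⟨0, zero_mem_K0⟩).sub (supp_int hK hn)) fun v => ?_
    simp only [← sub_mul]
    refine mul_le_mul_of_nonneg_right ?_ (Real.exp_pos _).le
    rw [supp_K0 hK hc hn, supp_K0 hL hcL hnL]
    have := supp_mono hn hL h v
    rcases le_total (supp K v) 0 with h1 | h1 <;> rcases le_total (supp L v) 0 with h2 | h2 <;>
      simp [h1, h2] <;> linarith
  have h2 := W_mono hK hn hL h
  have h3 := W_nonneg hK hn
  have h4 := W_mono hK hn hK0 subset_K0
  have h5 := W_mono hL hnL hL0 subset_K0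
  rcases h3.eq_or_lt with h6 | h6
  · rw [θ, ← h6, zero_div]
    exact θ_nonneg hL hcL hnL
  · rw [θ, θ, div_le_div_iff₀ (by linarith) (by linarith)]
    nlinarith

lemma mem_D {z : (EuclideanSpace ℝ (Fin n))} : z ∈ D K ↔ ∃ x ∈ K0 K, ∃ y ∈ K0 K, (θ K / 2) • (x - y) = z := by
  simp only [D, mem_smul_set, mem_sub]
  exact ⟨fun ⟨_, ⟨x, hx, y, hy, h⟩, h'⟩ => ⟨x, hx, y, hy, h ▸ h'⟩,
    fun ⟨x, hx, y, hy, h⟩ => ⟨_, ⟨x, hx, y, hy, rfl⟩, h⟩⟩

lemma D_compact (hK : IsCompact K) (hc : Convex ℝ K) (hn : K.Nonempty) : IsCompact (D K) := by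
  have := K0_compact hK hc hn
  rw [D, sub_eq_add_neg]
  exact (this.add this.neg).smul _

lemma D_convex : Convex ℝ (D K) := ((convex_convexHull _ _).sub (convex_convexHull _ _)).smul _

lemma zero_mem_D : (0 : (EuclideanSpace ℝ (Fin n))) ∈ D K := mem_D.2 ⟨0, zero_mem_K0, 0, zero_mem_K0, by simp⟩

lemma D_neg {z : (EuclideanSpace ℝ (Fin n))} (hz : z ∈ D K) : -z ∈ D K := by
  obtain ⟨x, hx, y, hy, rfl⟩ := mem_D.1 hz
  exact mem_D.2 ⟨y, hy, x, hx, by rw [← smul_neg, neg_sub]⟩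

lemma D_mono (hK : IsCompact K) (hc : Convex ℝ K) (hn : K.Nonempty) (hL : IsCompact L)
    (hcL : Convex ℝ L) (h : K ⊆ L) : D K ⊆ D L := by
  intro z hz
  obtain ⟨x, hx, y, hy, rfl⟩ := mem_D.1 hz
  have h0 : K0 K ⊆ K0 L := convexHull_mono (insert_subset_insert h)
  have h1 := θ_mono hK hc hn hL hcL h
  have h2 := θ_nonneg hK hc hn
  rcases h2.eq_or_lt with h3 | h3
  · rw [← h3]; simpa using zero_mem_D
  · have h4 : (θ L / 2) • (x - y) ∈ D L := mem_D.2 ⟨x, h0 hx, y, h0 hy, rfl⟩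
    have h5 := D_convex.smul_mem_of_zero_mem zero_mem_D h4 (t := θ K / θ L)
      ⟨by have := h2.trans h1; positivity, (div_le_one (by linarith)).2 h1⟩
    rwa [smul_smul, show θ K / θ L * (θ L / 2) = θ K / 2 by
      have : θ L ≠ 0 := by linarith
      field_simp] at h5

lemma W_D (hK : IsCompact K) (hc : Convex ℝ K) (hn : K.Nonempty) : W (D K) = W K := by
  have hK0 := K0_compact hK hc hn
  have ht := θ_nonneg hK hc hn
  have h1 : ∀ v, supp (D K) v = θ K / 2 * (supp (K0 K) v + supp (K0 K) (-v)) := fun v => by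
    apply le_antisymm
    · refine supp_le ⟨0, zero_mem_D⟩ fun z hz => ?_
      obtain ⟨x, hx, y, hy, rfl⟩ := mem_D.1 hz
      rw [real_inner_smul_left]
      exact mul_le_mul_of_nonneg_left (width_ge hK0 hx hy v) (by positivity)
    · obtain ⟨x, hx, h1⟩ := exists_supp hK0 ⟨0, zero_mem_K0⟩ v
      obtain ⟨y, hy, h2⟩ := exists_supp hK0 ⟨0, zero_mem_K0⟩ (-v)
      have := le_supp (D_compact hK hc hn) (mem_D.2 ⟨x, hx, y, hy, rfl⟩) v
      rw [real_inner_smul_left, inner_sub_left] at this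
      rw [← h1, ← h2, inner_neg_right]
      exact this
  have h2 : W (D K) = θ K * W (K0 K) := by
    rw [W]
    simp only [h1, mul_assoc]
    rw [integral_const_mul, two_W hK0 ⟨0, zero_mem_K0⟩]
    ring
  rw [h2, θ]
  have h3 := W_nonneg hK hn
  have h4 := W_mono hK hn hK0 subset_K0
  rcases (h3.trans h4).eq_or_lt with h5 | h5
  · rw [← h5, mul_zero]; linarith
  · field_simp

lemma θ_pos (hK : IsCompact K) (hc : Convex ℝ K) {x y : (EuclideanSpace ℝ (Fin n))} (hx : x ∈ K) (hy : y ∈ K)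
    (hxy : x ≠ y) : 0 < θ K :=
  div_pos (W_pos hK hx hy hxy)
    (W_pos (K0_compact hK hc ⟨x, hx⟩) (subset_K0 hx) (subset_K0 hy) hxy)

lemma D_symm (hK : IsCompact K) (hc : Convex ℝ K) (hn : K.Nonempty) (hs : ∀ x ∈ K, -x ∈ K) :
    D K = K := by
  have hmid : ∀ x ∈ K, ∀ y ∈ K, (1 / 2 : ℝ) • (x - y) ∈ K := fun x hx y hy => by
    have := hc hx (hs y hy) (a := 1 / 2) (b := 1 / 2) (by norm_num) (by norm_num) (by norm_num)
    rwa [← smul_add, ← sub_eq_add_neg] at this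
  have h0 : (0 : (EuclideanSpace ℝ (Fin n))) ∈ K := by
    obtain ⟨x, hx⟩ := hn
    simpa using hmid x hx x hx
  have h1 : K0 K = K := by rw [K0, insert_eq_of_mem h0, hc.convexHull_eq]
  by_cases h : ∃ x ∈ K, x ≠ 0
  · obtain ⟨x, hx, hx0⟩ := h
    have h2 : θ K = 1 := by rw [θ, h1, div_self (W_pos hK hx h0 hx0).ne']
    ext z
    rw [mem_D, h1, h2]
    refine ⟨by rintro ⟨x, hx, y, hy, rfl⟩; exact hmid x hx y hy, fun hz => ⟨z, hz, -z, hs z hz, ?_⟩⟩
    rw [sub_neg_eq_add, ← two_smul ℝ z, smul_smul]; simp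
  · push Not at h
    ext z
    rw [mem_D, h1]
    refine ⟨by rintro ⟨x, hx, y, hy, rfl⟩; simpa [h x hx, h y hy] using h0,
      fun hz => ⟨0, h0, 0, h0, by simp [h z hz]⟩⟩

lemma D_cls (hn : 0 < n) {b : Bool} (hK : Cls b K) : Cls b (D K) := by
  refine ⟨D_compact hK.1 hK.2.1 hK.2.2.1, D_convex, ⟨0, zero_mem_D⟩, fun hb => ?_⟩
  obtain ⟨x, hx⟩ := hK.2.2.2 hb
  have : Nontrivial (EuclideanSpace ℝ (Fin n)) := by
    have : Nonempty (Fin n) := ⟨⟨0, hn⟩⟩
    infer_instance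
  obtain ⟨y, hy, hyx⟩ : ∃ y ∈ interior K, y ≠ x := by
    have := (isOpen_interior.mem_nhds hx)
    obtain ⟨y, h1, h2⟩ := ((Filter.Eventually.filter_mono nhdsWithin_le_nhds this).and
      (self_mem_nhdsWithin (a := x) (s := {x}ᶜ))).exists
    exact ⟨y, h1, h2⟩
  have ht := θ_pos hK.1 hK.2.1 (interior_subset hy) (interior_subset hx) hyx
  have ho : IsOpen ((θ K / 2) • (interior K - {x})) :=
    (isOpen_interior.sub_right).smul₀ (by positivity)
  refine ⟨_, interior_maximal ?_ ho ⟨_, ⟨x, hx, x, rfl, rfl⟩, rfl⟩⟩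
  exact smul_set_mono (sub_subset_sub (interior_subset.trans subset_K0)
    (singleton_subset_iff.2 (subset_K0 (interior_subset hx))))

lemma D_ball (hn : 2 ≤ n) : ∃ x : (EuclideanSpace ℝ (Fin n)), D ((fun y => y + x) '' Metric.closedBall 0 1) ≠
    Metric.closedBall 0 1 := by
  let i : Fin n := ⟨0, by omega⟩
  let j : Fin n := ⟨1, by omega⟩
  have hij : j ≠ i := by simp [i, j]
  refine ⟨EuclideanSpace.single i 2, fun h => ?_⟩
  set A : Set (EuclideanSpace ℝ (Fin n)) := (fun y => y + EuclideanSpace.single i 2) '' Metric.closedBall 0 1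
  have h1 : ∀ a ∈ K0 A, |a j| ≤ 1 := fun a ha => by
    refine convexHull_min (t := {a : (EuclideanSpace ℝ (Fin n)) | |a j| ≤ 1}) ?_ ?_ ha
    · rintro _ (rfl | ⟨y, hy, rfl⟩)
      · simp
      · have := PiLp.norm_apply_le y j
        simp only [mem_closedBall_zero_iff] at hy
        simpa [hij] using this.trans hy
    · exact (convex_closedBall (0 : ℝ) 1).is_linear_preimage (f := fun a : (EuclideanSpace ℝ (Fin n)) => a j)
        ⟨fun _ _ => rfl, fun _ _ => rfl⟩ |> fun h => by simpa [preimage, Real.dist_eq] using h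
  have h2 : (EuclideanSpace.single j 1 : (EuclideanSpace ℝ (Fin n))) ∈ D A := by rw [h]; simp
  obtain ⟨x, hx, y, hy, hxy⟩ := mem_D.1 h2
  have h3 := congrArg (fun z : (EuclideanSpace ℝ (Fin n)) => z j) hxy
  simp only [PiLp.smul_apply, PiLp.sub_apply, smul_eq_mul, PiLp.single_apply,
    if_true] at h3
  have h4 : (θ A / 2) • (EuclideanSpace.single i 1 + EuclideanSpace.single i 2 - 0 : (EuclideanSpace ℝ (Fin n))) ∈ D A :=
    mem_D.2 ⟨_, subset_K0 ⟨_, by simp, rfl⟩, 0, zero_mem_K0, rfl⟩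
  rw [h, mem_closedBall_zero_iff] at h4
  have h5 := (PiLp.norm_apply_le _ i).trans h4
  simp only [PiLp.smul_apply, PiLp.sub_apply, PiLp.add_apply, smul_eq_mul,
    PiLp.single_apply, if_true, PiLp.zero_apply, Real.norm_eq_abs, abs_le] at h5
  have h6 := abs_le.1 (h1 x hx)
  have h7 := abs_le.1 (h1 y hy)
  nlinarith [h5.1, h5.2]

end Pool.Agent.H85.MW
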