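import Pool.Agent.H85.SemiRiemDefs

set_option autoImplicit false

namespace Pool.Agent.H85.Nil

open Set MeasureTheory Filter Pool.Agent.H85.SemiRiemDefs
open scoped Manifold ContDiff Topology

/-- The integral Heisenberg group. -/
@[ext] structure Heis where
  a : ℤ
  b : ℤ
  c : ℤ

instance : Mul Heis := ⟨fun x y => ⟨x.a + y.a, x.b + y.b, x.c + y.c + y.a * x.b⟩⟩
instance : One Heis := ⟨⟨0, 0, 0⟩⟩
instance : Inv Heis := ⟨fun x => ⟨-x.a, -x.b, -x.c + x.a * x.b⟩⟩

@[simp] theorem mul_a (x y : Heis) : (x * y).a = x.a + y.a := rfl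
@[simp] theorem mul_b (x y : Heis) : (x * y).b = x.b + y.b := rfl
@[simp] theorem mul_c (x y : Heis) : (x * y).c = x.c + y.c + y.a * x.b := rfl
@[simp] theorem one_a : (1 : Heis).a = 0 := rfl
@[simp] theorem one_b : (1 : Heis).b = 0 := rfl
@[simp] theorem one_c : (1 : Heis).c = 0 := rfl
@[simp] theorem inv_a (x : Heis) : x⁻¹.a = -x.a := rfl
@[simp] theorem inv_b (x : Heis) : x⁻¹.b = -x.b := rfl
@[simp] theorem inv_c (x : Heis) : x⁻¹.c = -x.c + x.a * x.b := rfl

instance : Group Heis := Group.ofLeftAxioms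
  (fun x y z => by ext <;> simp <;> ring)
  (fun x => by ext <;> simp)
  (fun x => by ext <;> simp)

/-- The linear part of the action. -/
noncomputable def L (a : ℝ) : Euc 3 →L[ℝ] Euc 3 :=
  LinearMap.toContinuousLinearMap
    { toFun := fun w => !₂[w 0, w 1 + a * w 0, w 2 - a * w 1 - a ^ 2 / 2 * w 0]
      map_add' := fun v w => by ext i; fin_cases i <;> simp <;> ring
      map_smul' := fun r w => by ext i; fin_cases i <;> simp <;> ring }

@[simp] theorem L0 (a : ℝ) (w : Euc 3) : L a w 0 = w 0 := rfl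
@[simp] theorem L1 (a : ℝ) (w : Euc 3) : L a w 1 = w 1 + a * w 0 := rfl
@[simp] theorem L2 (a : ℝ) (w : Euc 3) : L a w 2 = w 2 - a * w 1 - a ^ 2 / 2 * w 0 := rfl

/-- The translation part of the action. -/
noncomputable def tr (g : Heis) : Euc 3 :=
  !₂[g.a, g.b + (g.a : ℝ) ^ 2 / 2, g.c - (g.a : ℝ) * g.b - (g.a : ℝ) ^ 3 / 6]

noncomputable instance : SMul Heis (Euc 3) := ⟨fun g p => L g.a p + tr g⟩

theorem smul_def (g : Heis) (p : Euc 3) : g • p = L g.a p + tr g := rfl

@[simp] theorem smul0 (g : Heis) (p : Euc 3) : (g • p) 0 = p 0 + g.a := rfl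
@[simp] theorem smul1 (g : Heis) (p : Euc 3) :
    (g • p) 1 = p 1 + g.a * p 0 + (g.b + (g.a : ℝ) ^ 2 / 2) := rfl
@[simp] theorem smul2 (g : Heis) (p : Euc 3) : (g • p) 2 = p 2 - g.a * p 1 - (g.a : ℝ) ^ 2 / 2 * p 0
    + (g.c - (g.a : ℝ) * g.b - (g.a : ℝ) ^ 3 / 6) := rfl

theorem ext3 {p q : Euc 3} (h0 : p 0 = q 0) (h1 : p 1 = q 1) (h2 : p 2 = q 2) : p = q := by
  ext i; fin_cases i
  · exact h0
  · exact h1
  · exact h2

noncomputable instance : MulAction Heis (Euc 3) where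
  one_smul p := by apply ext3 <;> simp
  mul_smul g h p := by apply ext3 <;> simp <;> ring

instance : ContinuousConstSMul Heis (Euc 3) :=
  ⟨fun g => ((L g.a).continuous.add continuous_const : Continuous fun p => L g.a p + tr g)⟩

/-- The real group parameters carrying the first point to the second. -/
noncomputable def par (z : Euc 3 × Euc 3) : ℝ × ℝ × ℝ :=
  (z.2 0 - z.1 0, z.2 1 - z.1 1 - (z.2 0 - z.1 0) * z.1 0 - (z.2 0 - z.1 0) ^ 2 / 2,
    z.2 2 - z.1 2 + (z.2 0 - z.1 0) * (z.2 1 - (z.2 0 - z.1 0) * z.1 0 - (z.2 0 - z.1 0) ^ 2 / 2)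
      + (z.2 0 - z.1 0) ^ 2 / 2 * z.1 0 + (z.2 0 - z.1 0) ^ 3 / 6)

theorem par_smul (g : Heis) (p : Euc 3) : par (p, g • p) = ((g.a : ℝ), (g.b : ℝ), (g.c : ℝ)) := by
  simp only [par, smul0, smul1, smul2, Prod.mk.injEq]
  refine ⟨by ring, by ring, by ring⟩

instance : IsCancelSMul Heis (Euc 3) where
  right_cancel' g h p hp := by
    have := par_smul g p
    rw [hp, par_smul] at this
    simp only [Prod.mk.injEq, Int.cast_inj] at this
    exact Heis.ext this.1.symm this.2.1.symm this.2.2.symm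

instance : ProperlyDiscontinuousSMul Heis (Euc 3) where
  finite_disjoint_inter_image {K K'} hK hK' := by
    have hc : Continuous par := by unfold par; fun_prop
    have hcl : Topology.IsClosedEmbedding
        (Prod.map ((↑) : ℤ → ℝ) (Prod.map ((↑) : ℤ → ℝ) ((↑) : ℤ → ℝ))) :=
      Int.isClosedEmbedding_coe_real.prodMap
        (Int.isClosedEmbedding_coe_real.prodMap Int.isClosedEmbedding_coe_real)
    have hf := (hcl.isCompact_preimage ((hK.prod hK').image hc)).finite_of_discrete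
    refine (hf.image fun z => (⟨z.1, z.2.1, z.2.2⟩ : Heis)).subset ?_
    rintro g ⟨_, ⟨p, hp, rfl⟩, hq⟩
    exact ⟨(g.a, g.b, g.c), ⟨(p, g • p), ⟨hp, hq⟩, par_smul g p⟩, rfl⟩

/-- The nilmanifold. -/
def N : Type := MulAction.orbitRel.Quotient Heis (Euc 3)

instance : TopologicalSpace N :=
  inferInstanceAs (TopologicalSpace (MulAction.orbitRel.Quotient Heis (Euc 3)))

instance : T2Space N :=
  inferInstanceAs (T2Space (Quotient (MulAction.orbitRel Heis (Euc 3))))

/-- The projection. -/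
noncomputable def pr : Euc 3 → N := Quotient.mk _

theorem pr_loc : IsLocalHomeomorph pr :=
  (isQuotientCoveringMap_quotientMk_of_properlyDiscontinuousSMul
    (G := Heis) (E := Euc 3)).isCoveringMap.isLocalHomeomorph

theorem pr_smul (g : Heis) (p : Euc 3) : pr (g • p) = pr p :=
  Quotient.sound ⟨g, rfl⟩

theorem pr_eq {p q : Euc 3} (h : pr p = pr q) : ∃ g : Heis, g • q = p := Quotient.exact h

theorem pr_out (x : N) : pr (Quotient.out x) = x := Quotient.out_eq x

instance : CompactSpace N := by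
  refine ⟨?_⟩
  have : pr '' Metric.closedBall 0 2 = univ := by
    refine eq_univ_of_forall fun x => ?_
    let p : Euc 3 := Quotient.out x
    let a : ℤ := -⌊p 0⌋
    let b : ℤ := -⌊p 1 + a * p 0 + (a : ℝ) ^ 2 / 2⌋
    let c : ℤ := -⌊p 2 - a * p 1 - (a : ℝ) ^ 2 / 2 * p 0 - (a : ℝ) * b - (a : ℝ) ^ 3 / 6⌋
    refine ⟨(⟨a, b, c⟩ : Heis) • p, ?_, (pr_smul _ _).trans (pr_out x)⟩
    have key : ∀ i, ((⟨a, b, c⟩ : Heis) • p) i ^ 2 ≤ 1 := by
      have h : ∀ (r s : ℝ) (k : ℤ), k = -⌊r⌋ → s = r + k → s ^ 2 ≤ 1 := by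
        rintro r _ _ rfl rfl
        have h1 := Int.floor_le r
        have h2 := Int.lt_floor_add_one r
        push_cast
        nlinarith
      intro i
      fin_cases i
      · exact h (p 0) _ a rfl (by simp)
      · exact h (p 1 + a * p 0 + (a : ℝ) ^ 2 / 2) _ b rfl (by simp; ring)
      · exact h (p 2 - a * p 1 - (a : ℝ) ^ 2 / 2 * p 0 - (a : ℝ) * b - (a : ℝ) ^ 3 / 6) _ c rfl
          (by simp; ring)
    rw [mem_closedBall_zero_iff, EuclideanSpace.norm_eq]
    refine Real.sqrt_le_iff.2 ⟨by norm_num, ?_⟩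
    simp only [Fin.sum_univ_three, Real.norm_eq_abs, sq_abs]
    linarith [key 0, key 1, key 2]
  rw [← this]
  exact (isCompact_closedBall _ _).image pr_loc.continuous

noncomputable instance : ChartedSpace (Euc 3) N where
  atlas := range pr_loc.localInverseAt
  chartAt x := pr_loc.localInverseAt (Quotient.out x)
  mem_chart_source x := by
    have := pr_loc.apply_self_mem_localInverseAt_source (x := Quotient.out x)
    rwa [pr_out x] at this
  chart_mem_atlas x := ⟨_, rfl⟩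

theorem atlas_symm {e : OpenPartialHomeomorph N (Euc 3)} (he : e ∈ atlas (Euc 3) N) :
    (e.symm : Euc 3 → N) = pr := by
  obtain ⟨p, rfl⟩ := he
  exact pr_loc.localInverseAt_symm p

theorem pr_chart {e : OpenPartialHomeomorph N (Euc 3)} (he : e ∈ atlas (Euc 3) N) {x : N}
    (hx : x ∈ e.source) : pr (e x) = x := by
  rw [← atlas_symm he]; exact e.left_inv hx

theorem chart_pr {e : OpenPartialHomeomorph N (Euc 3)} (he : e ∈ atlas (Euc 3) N) {p : Euc 3}
    (hp : p ∈ e.target) : e (pr p) = p := by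
  rw [← atlas_symm he]; exact e.right_inv hp

theorem chart_local {e : OpenPartialHomeomorph N (Euc 3)} (he : e ∈ atlas (Euc 3) N) {p : Euc 3}
    (hp : pr p ∈ e.source) : ∃ g : Heis, (e ∘ pr) =ᶠ[𝓝 p] fun q => g • q := by
  obtain ⟨g, hg⟩ := pr_eq (pr_chart he hp)
  refine ⟨g, ?_⟩
  have : ∀ᶠ q in 𝓝 p, g • q ∈ e.target :=
    (continuous_const_smul g).continuousAt.eventually_mem
      (e.open_target.mem_nhds (by rw [hg]; exact e.map_source hp))
  filter_upwards [this] with q hq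
  rw [Function.comp_apply, ← pr_smul g q, chart_pr he hq]

theorem smul_hasFDerivAt (g : Heis) (p : Euc 3) : HasFDerivAt (fun q : Euc 3 => g • q) (L g.a) p :=
  (L g.a).hasFDerivAt.add_const (tr g)

theorem smul_contDiff (g : Heis) : ContDiff ℝ ∞ (fun q : Euc 3 => g • q) :=
  (L g.a).contDiff.add contDiff_const

instance : IsManifold 𝓘(ℝ, Euc 3) ∞ N := by
  refine isManifold_of_contDiffOn _ _ _ fun e e' he he' => ?_
  intro p hp
  simp only [mfld_simps] at hp ⊢
  rw [atlas_symm he] at hp ⊢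
  obtain ⟨g, hg⟩ := chart_local he' hp.2
  exact ((smul_contDiff g).contDiffAt.congr_of_eventuallyEq hg).contDiffWithinAt

theorem pr_hasMFDerivAt (p : Euc 3) : ∃ g : Heis, chartAt (Euc 3) (pr p) (pr p) = g • p ∧
    HasMFDerivAt 𝓘(ℝ, Euc 3) 𝓘(ℝ, Euc 3) pr p (L g.a) := by
  obtain ⟨g, hg⟩ := chart_local (chart_mem_atlas (Euc 3) (pr p)) (mem_chart_source _ _)
  refine ⟨g, hg.eq_of_nhds, pr_loc.continuous.continuousAt, ?_⟩
  simp only [mfld_simps, hasFDerivWithinAt_univ]
  exact (smul_hasFDerivAt g p).congr_of_eventuallyEq hg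

/-- The flat Lorentz form `2 du dv + dx^2`. -/
noncomputable def B : Euc 3 →L[ℝ] Euc 3 →L[ℝ] ℝ :=
  (EuclideanSpace.proj (0 : Fin 3)).smulRight (EuclideanSpace.proj (2 : Fin 3))
    + (EuclideanSpace.proj (2 : Fin 3)).smulRight (EuclideanSpace.proj (0 : Fin 3))
    + (EuclideanSpace.proj (1 : Fin 3)).smulRight (EuclideanSpace.proj (1 : Fin 3))

@[simp] theorem B_apply (v w : Euc 3) : B v w = v 0 * w 2 + v 2 * w 0 + v 1 * w 1 := by
  simp [B]

/-- The invariant form `dx - u du`. -/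
noncomputable def th (p : Euc 3) : Euc 3 →L[ℝ] ℝ :=
  EuclideanSpace.proj (1 : Fin 3) - p 0 • EuclideanSpace.proj (0 : Fin 3)

@[simp] theorem th_apply (p w : Euc 3) : th p w = w 1 - p 0 * w 0 := by
  simp [th]

/-- The metric on the nilmanifold. -/
noncomputable def gN : Bilin (Euc 3) N := fun _ v w => B v w

/-- The one-form on the nilmanifold. -/
noncomputable def eta : OneForm (Euc 3) N := fun x v => th (chartAt (Euc 3) x x) v

/-- The differential of the projection. -/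
noncomputable def D (p : Euc 3) : Euc 3 →L[ℝ] Euc 3 := mfderiv 𝓘(ℝ, Euc 3) 𝓘(ℝ, Euc 3) pr p

theorem D_spec (p : Euc 3) : ∃ g : Heis, chartAt (Euc 3) (pr p) (pr p) = g • p ∧ D p = L g.a := by
  obtain ⟨g, h1, h2⟩ := pr_hasMFDerivAt p
  exact ⟨g, h1, h2.mfderiv⟩

theorem pr_mdiff (p : Euc 3) : HasMFDerivAt 𝓘(ℝ, Euc 3) 𝓘(ℝ, Euc 3) pr p (D p) := by
  obtain ⟨g, _, h2⟩ := pr_hasMFDerivAt p
  exact h2.mdifferentiableAt.hasMFDerivAt

theorem B_D (p v w : Euc 3) : B (D p v) (D p w) = B v w := by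
  obtain ⟨g, _, h⟩ := D_spec p
  rw [h]; simp; ring

theorem D_zero (p v : Euc 3) : D p v 0 = v 0 := by
  obtain ⟨g, _, h⟩ := D_spec p
  rw [h]; simp

theorem th_D (p v : Euc 3) : th (chartAt (Euc 3) (pr p) (pr p)) (D p v) = th p v := by
  obtain ⟨g, h1, h⟩ := D_spec p
  rw [h, h1]; simp; ring

theorem dInv_eq {e : OpenPartialHomeomorph N (Euc 3)} (he : e ∈ atlas (Euc 3) N) (y v : Euc 3) :
    (dInv e y v : Euc 3) = D y v := by
  have : (mfderiv 𝓘(ℝ, Euc 3) 𝓘(ℝ, Euc 3) e.symm y : Euc 3 →L[ℝ] Euc 3) = D y := by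
    unfold D; rw [atlas_symm he]
  exact congrArg (fun f : Euc 3 →L[ℝ] Euc 3 => f v) this

theorem locBilin_eq {e : OpenPartialHomeomorph N (Euc 3)} (he : e ∈ atlas (Euc 3) N) :
    locBilin gN e = fun _ v w => B v w := by
  funext y v w
  show B (dInv e y v) (dInv e y w) = B v w
  rw [dInv_eq he, dInv_eq he, B_D]

theorem locForm_eq {e : OpenPartialHomeomorph N (Euc 3)} (he : e ∈ atlas (Euc 3) N) :
    locForm eta e = fun y v => th y v := by
  funext y v
  show th (chartAt (Euc 3) (e.symm y) (e.symm y)) (dInv e y v) = th y v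
  rw [dInv_eq he, atlas_symm he, th_D]

theorem B_nondeg (v : Euc 3) (h : ∀ w, B v w = 0) : v = 0 := by
  have h0 := h !₂[1, 0, 0]
  have h1 := h !₂[0, 1, 0]
  have h2 := h !₂[0, 0, 1]
  simp at h0 h1 h2
  exact ext3 h2 h1 h0

theorem gN_metric : IsIndefiniteMetric gN where
  lin x v := ⟨(B v).map_add, (B v).map_smul⟩
  symm x v w := by
    show B v w = B w v
    simp; ring
  nondeg x v h := B_nondeg v h
  pos x := ⟨(!₂[0, 1, 0] : Euc 3), by
    show 0 < B !₂[0, 1, 0] !₂[0, 1, 0]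
    simp⟩
  neg x := ⟨(!₂[1, 0, -1] : Euc 3), by
    show B !₂[1, 0, -1] !₂[1, 0, -1] < 0
    simp⟩
  smooth e he v w := by rw [locBilin_eq he]; exact contDiffOn_const

theorem eta_smooth : IsSmoothForm eta := by
  refine ⟨fun x => ⟨(th _).map_add, (th _).map_smul⟩, fun e he v => ?_⟩
  rw [locForm_eq he]
  simp only [th_apply]
  fun_prop

theorem geodesicEq_iff {c : ℝ → Euc 3} {t : ℝ} :
    GeodesicEq (fun _ v w => B v w) c t ↔ deriv (deriv c) t = 0 := by
  unfold GeodesicEq dd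
  constructor
  · intro h
    exact B_nondeg _ fun w => by simpa using h w
  · intro h w
    simp [h]

/-- Straight lines. -/
noncomputable def line (y w : Euc 3) (t : ℝ) : Euc 3 := y + t • w

theorem line_hasDerivAt (y w : Euc 3) (t : ℝ) : HasDerivAt (line y w) w t := by
  have := ((hasDerivAt_id t).smul_const w).const_add y
  rw [one_smul] at this
  exact this

theorem line_cont (y w : Euc 3) : Continuous (line y w) := by unfold line; fun_prop

theorem smul_line (g : Heis) (y w : Euc 3) (t : ℝ) :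
    g • line y w t = line (g • y) (L g.a w) t := by
  simp only [smul_def, line, map_add, map_smul]
  abel

theorem line_geodesic (y w : Euc 3) : IsGeodesicOn gN (pr ∘ line y w) univ := by
  intro t _
  refine ⟨(pr_loc.continuous.comp (line_cont y w)).continuousAt, fun e he ht => ?_⟩
  obtain ⟨g, hg⟩ := chart_local he ht
  have h1 : (e ∘ (pr ∘ line y w)) =ᶠ[𝓝 t] line (g • y) (L g.a w) := by
    filter_upwards [(line_cont y w).continuousAt.eventually hg] with s hs
    rw [← smul_line]; exact hs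
  refine ⟨ContDiffAt.congr_of_eventuallyEq (by unfold line; fun_prop) h1, ?_⟩
  rw [locBilin_eq he, geodesicEq_iff, h1.deriv.deriv_eq]
  have : deriv (line (g • y) (L g.a w)) = fun _ => L g.a w :=
    funext fun s => (line_hasDerivAt _ _ s).deriv
  rw [this]; simp

theorem vel_line (y w : Euc 3) (t : ℝ) :
    (vel (Euc 3) (pr ∘ line y w) t : Euc 3) = D (line y w t) w := by
  have h1 : HasMFDerivAt 𝓘(ℝ, ℝ) 𝓘(ℝ, Euc 3) (line y w) t
      (ContinuousLinearMap.toSpanSingleton ℝ w) :=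
    (line_hasDerivAt y w t).hasFDerivAt.hasMFDerivAt
  have h2 := ((pr_mdiff (line y w t)).comp t h1).mfderiv
  unfold vel
  rw [h2]
  show D (line y w t) ((1 : ℝ) • w) = _
  rw [one_smul]

theorem geodesic_local {γ : ℝ → N} {s : Set ℝ} (hs : IsOpen s) (hγ : IsGeodesicOn gN γ s)
    {t : ℝ} (ht : t ∈ s) : ∃ y w : Euc 3, γ =ᶠ[𝓝 t] pr ∘ line y w := by
  let e := chartAt (Euc 3) (γ t)
  have he : e ∈ atlas (Euc 3) N := chart_mem_atlas _ _
  have h1 : ∀ᶠ r in 𝓝 t, r ∈ s ∧ γ r ∈ e.source :=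
    Filter.Eventually.and (hs.mem_nhds ht)
      ((hγ t ht).1.eventually_mem (e.open_source.mem_nhds (mem_chart_source _ _)))
  obtain ⟨ε, hε, hb⟩ := Metric.eventually_nhds_iff_ball.1 h1
  have hc : ∀ r ∈ Metric.ball t ε, ContDiffAt ℝ 2 (e ∘ γ) r ∧ deriv (deriv (e ∘ γ)) r = 0 := by
    intro r hr
    have := (hγ r (hb r hr).1).2 e he (hb r hr).2
    rw [locBilin_eq he, geodesicEq_iff] at this
    exact this
  have hpc : IsPreconnected (Metric.ball t ε) := (convex_ball t ε).isPreconnected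
  have hd1 : ∀ r ∈ Metric.ball t ε, DifferentiableAt ℝ (e ∘ γ) r := fun r hr =>
    (hc r hr).1.differentiableAt (by norm_num)
  have hd2 : ∀ r ∈ Metric.ball t ε, DifferentiableAt ℝ (deriv (e ∘ γ)) r := fun r hr => by
    have h := ((hc r hr).1.fderiv_right (m := 1) (by norm_num)).differentiableAt (by norm_num)
    exact h.clm_apply (differentiableAt_const (1 : ℝ))
  obtain ⟨w, hw⟩ := Metric.isOpen_ball.exists_is_const_of_deriv_eq_zero hpc
    (fun r hr => (hd2 r hr).differentiableWithinAt) (fun r hr => (hc r hr).2)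
  have hd3 : ∀ r ∈ Metric.ball t ε, HasDerivAt (fun r => (e ∘ γ) r - line 0 w r) 0 r := by
    intro r hr
    have := (hd1 r hr).hasDerivAt.sub (line_hasDerivAt 0 w r)
    rwa [hw r hr, sub_self] at this
  obtain ⟨y, hy⟩ := Metric.isOpen_ball.exists_is_const_of_deriv_eq_zero hpc
    (fun r hr => (hd3 r hr).differentiableAt.differentiableWithinAt) (fun r hr => (hd3 r hr).deriv)
  refine ⟨y, w, ?_⟩
  filter_upwards [Metric.ball_mem_nhds t hε] with r hr
  have : line y w r = e (γ r) := by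
    have := hy r hr
    simp only [line, zero_add, Function.comp_apply] at this ⊢
    rw [← this]; abel
  rw [Function.comp_apply, this, pr_chart he (hb r hr).2]

theorem line_ext {y w y' w' : Euc 3} {t : ℝ} (h : line y w =ᶠ[𝓝 t] line y' w') :
    line y w = line y' w' := by
  have hw : w = w' := by
    rw [← (line_hasDerivAt y w t).deriv, ← (line_hasDerivAt y' w' t).deriv, h.deriv_eq]
  have hy := h.eq_of_nhds
  simp only [line, hw, add_left_inj] at hy
  rw [hw, hy]

theorem pr_line_ext {y w y' w' : Euc 3} {t : ℝ} (h : pr ∘ line y w =ᶠ[𝓝 t] pr ∘ line y' w') :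
    pr ∘ line y w = pr ∘ line y' w' := by
  let e := chartAt (Euc 3) (pr (line y w t))
  have he : e ∈ atlas (Euc 3) N := chart_mem_atlas _ _
  obtain ⟨g, hg⟩ := chart_local he (p := line y w t) (mem_chart_source _ _)
  obtain ⟨g', hg'⟩ := chart_local he (p := line y' w' t) (by
    have := h.eq_of_nhds
    simp only [Function.comp_apply] at this
    rw [← this]; exact mem_chart_source _ _)
  have h1 : line (g • y) (L g.a w) =ᶠ[𝓝 t] line (g' • y') (L g'.a w') := by
    filter_upwards [(line_cont y w).continuousAt.eventually hg,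
      (line_cont y' w').continuousAt.eventually hg', h] with s h1 h2 h3
    rw [← smul_line, ← smul_line]
    simp only [Function.comp_apply] at h1 h2 h3
    rw [← h1, ← h2, h3]
  funext s
  have := congrFun (line_ext h1) s
  rw [← smul_line, ← smul_line] at this
  rw [Function.comp_apply, Function.comp_apply, ← pr_smul g, this, pr_smul]

theorem geodesic_global {γ : ℝ → N} {s : Set ℝ} (hs : IsOpen s) (hs' : IsPreconnected s)
    (hγ : IsGeodesicOn gN γ s) : ∃ y w : Euc 3, EqOn (pr ∘ line y w) γ s := by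
  rcases s.eq_empty_or_nonempty with rfl | ⟨t, ht⟩
  · exact ⟨0, 0, fun _ h => h.elim⟩
  obtain ⟨y, w, h⟩ := geodesic_local hs hγ ht
  refine ⟨y, w, fun r hr => ?_⟩
  have : s ⊆ {r | γ =ᶠ[𝓝 r] pr ∘ line y w} := by
    refine hs'.subset_of_closure_inter_subset isOpen_setOfPred_eventually_nhds ⟨t, ht, h⟩ ?_
    rintro r ⟨hr1, hr2⟩
    obtain ⟨y', w', h'⟩ := geodesic_local hs hγ hr2
    obtain ⟨r', h1, h2⟩ := mem_closure_iff_nhds.1 hr1 _ h'.eventually_nhds
    have h3 : pr ∘ line y' w' = pr ∘ line y w :=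
      pr_line_ext (t := r') (Filter.EventuallyEq.trans (Filter.EventuallyEq.symm h1) h2)
    rw [← h3]; exact h'
  exact (this hr).eq_of_nhds.symm

theorem geodesic_univ {γ : ℝ → N} (hγ : IsGeodesicOn gN γ univ) :
    ∃ y w : Euc 3, γ = pr ∘ line y w := by
  obtain ⟨y, w, h⟩ := geodesic_global isOpen_univ isPreconnected_univ hγ
  exact ⟨y, w, funext fun t => (h trivial).symm⟩

theorem D_chart (x : N) (v : Euc 3) : D (chartAt (Euc 3) x x) v = v := by
  have hx : pr (chartAt (Euc 3) x x) = x := pr_chart (chart_mem_atlas _ _) (mem_chart_source _ _)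
  obtain ⟨g, h1, h⟩ := D_spec (chartAt (Euc 3) x x)
  rw [hx] at h1
  have : g = 1 := IsCancelSMul.right_cancel g 1 (chartAt (Euc 3) x x)
    (by rw [one_smul]; exact h1.symm)
  rw [h, this]
  apply ext3 <;> simp

theorem velT_line (y w : Euc 3) (t : ℝ) : velT (Euc 3) (pr ∘ line y w) t =
    (⟨pr (line y w t), D (line y w t) w⟩ : TangentBundle 𝓘(ℝ, Euc 3) N) := by
  unfold velT
  rw [vel_line]; rfl

theorem gN_complete : IsComplete gN := by
  refine ⟨fun p => ⟨pr ∘ line (chartAt (Euc 3) p.1 p.1) p.2, line_geodesic _ _, ?_⟩,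
    fun a b γ hγ => ?_⟩
  · rw [velT_line]
    have h0 : line (chartAt (Euc 3) p.1 p.1) p.2 0 = chartAt (Euc 3) p.1 p.1 := by simp [line]
    rw [h0, D_chart]
    have hx : pr (chartAt (Euc 3) p.1 p.1) = p.1 :=
      pr_chart (chart_mem_atlas _ _) (mem_chart_source _ _)
    exact Bundle.TotalSpace.ext hx HEq.rfl
  · obtain ⟨y, w, h⟩ := geodesic_global isOpen_Ioo isPreconnected_Ioo hγ
    exact ⟨_, line_geodesic y w, h⟩

theorem eta_line (y w : Euc 3) (t : ℝ) :
    eta ((pr ∘ line y w) t) (vel (Euc 3) (pr ∘ line y w) t) = -(w 0) ^ 2 * t + (w 1 - y 0 * w 0) := by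
  rw [vel_line]
  show th (chartAt (Euc 3) (pr (line y w t)) (pr (line y w t))) (D (line y w t) w) = _
  rw [th_D]
  simp [line]; ring

/-- The one-form as a function on the tangent bundle. -/
noncomputable def etaT (p : TangentBundle 𝓘(ℝ, Euc 3) N) : ℝ := eta p.1 p.2

theorem etaT_cont : Continuous etaT := by
  rw [continuous_iff_continuousAt]
  intro p
  let E := chartAt (ModelProd (Euc 3) (Euc 3)) p
  have hE : ContinuousAt (E : TangentBundle 𝓘(ℝ, Euc 3) N → Euc 3 × Euc 3) p :=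
    E.continuousAt (mem_chart_source _ _)
  have hF : Continuous fun z : Euc 3 × Euc 3 => th z.1 z.2 := by
    simp only [th_apply]; fun_prop
  refine (hF.continuousAt.comp hE).congr ?_
  filter_upwards [E.open_source.mem_nhds (mem_chart_source _ p)] with q hq2
  have he : chartAt (Euc 3) p.1 ∈ atlas (Euc 3) N := chart_mem_atlas _ _
  have hq3 : (E q).1 ∈ (chartAt (Euc 3) p.1).target :=
    (chartAt (Euc 3) p.1).map_source ((TangentBundle.mem_chart_source_iff q p).1 hq2)
  have h := tangentMap_chart_symm (I := 𝓡 3) (p := p)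
    (q := (⟨(E q).1, (E q).2⟩ : TangentBundle 𝓘(ℝ, Euc 3) (Euc 3))) hq3
  have h' : (chartAt (ModelProd (Euc 3) (Euc 3)) p).symm
      (Bundle.TotalSpace.toProd (Euc 3) (Euc 3) ⟨(E q).1, (E q).2⟩) = q := E.left_inv hq2
  replace h := h.trans h'
  show th (E q).1 (E q).2 = etaT q
  rw [← congrFun (congrFun (locForm_eq he) (E q).1) (E q).2]
  conv_rhs => rw [← h]
  rfl

theorem unbounded_of_ne (p w : Euc 3) (hw : w 0 ≠ 0) :
    (⟨pr p, D p w⟩ : TangentBundle 𝓘(ℝ, Euc 3) N) ∈ UnboundedOrbits gN := by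
  rintro γ hγ h0 ⟨K, hK, hsub⟩
  obtain ⟨y', w', rfl⟩ := geodesic_univ hγ
  have hw' : w' 0 = w 0 := by
    rw [velT_line] at h0
    have := congrArg (fun q : TangentBundle 𝓘(ℝ, Euc 3) N => (show Euc 3 from q.2) 0) h0
    simpa only [D_zero] using this
  obtain ⟨b, hb⟩ := (hK.image etaT_cont).bddAbove
  have h1 := hb ⟨_, hsub ⟨-(b + 1 - (w' 1 - y' 0 * w' 0)) / (w' 0) ^ 2, rfl⟩, rfl⟩
  have h2 := eta_line y' w' (-(b + 1 - (w' 1 - y' 0 * w' 0)) / (w' 0) ^ 2)
  have h3 : -(w' 0) ^ 2 * (-(b + 1 - (w' 1 - y' 0 * w' 0)) / (w' 0) ^ 2) + (w' 1 - y' 0 * w' 0)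
      = b + 1 := by
    have : w' 0 ≠ 0 := hw' ▸ hw
    field_simp
    ring
  have h4 : etaT (velT (Euc 3) (pr ∘ line y' w') (-(b + 1 - (w' 1 - y' 0 * w' 0)) / (w' 0) ^ 2))
      = b + 1 := h2.trans h3
  linarith

theorem mk_eq {e : OpenPartialHomeomorph N (Euc 3)} (he : e ∈ atlas (Euc 3) N) (y v : Euc 3) :
    ofChart e (y, v) = ⟨pr y, D y v⟩ :=
  Bundle.TotalSpace.ext (congrFun (atlas_symm he) y) (heq_of_eq (dInv_eq he y v))

theorem null_bounded : IsNull (UnboundedOrbits gN)ᶜ := by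
  intro e he
  let f : (Euc 3 × Euc 3) →L[ℝ] ℝ :=
    (EuclideanSpace.proj (0 : Fin 3)).comp (ContinuousLinearMap.snd ℝ _ _)
  have hk : volume ((LinearMap.ker (f : (Euc 3 × Euc 3) →ₗ[ℝ] ℝ) : Submodule ℝ (Euc 3 × Euc 3)) :
      Set (Euc 3 × Euc 3)) = 0 := by
    have : (volume : Measure (Euc 3 × Euc 3)).IsAddHaarMeasure :=
      Measure.prod.instIsAddHaarMeasure _ _
    refine Measure.addHaar_submodule _ _ fun h => ?_
    have : ((0, !₂[1, 0, 0]) : Euc 3 × Euc 3) ∈ LinearMap.ker (f : (Euc 3 × Euc 3) →ₗ[ℝ] ℝ) :=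
      h ▸ Submodule.mem_top
    simp [f] at this
  refine measure_mono_null ?_ hk
  rintro ⟨y, w⟩ ⟨_, h⟩
  by_contra hw
  rw [mk_eq he] at h
  exact h (unbounded_of_ne y w (by simpa [f] using hw))

theorem not_null_unbounded : ¬ IsNull (UnboundedOrbits gN) := by
  intro h
  let e := chartAt (Euc 3) (pr 0)
  have he : e ∈ atlas (Euc 3) N := chart_mem_atlas _ _
  have h1 := measure_union_null (h e he) (null_bounded e he)
  have h2 : 0 < volume (e.target ×ˢ (univ : Set (Euc 3))) :=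
    (e.open_target.prod isOpen_univ).measure_pos _ ⟨(e (pr 0), 0), mem_chart_target _ _, trivial⟩
  refine h2.ne' (measure_mono_null ?_ h1)
  rintro q ⟨hq, _⟩
  by_cases h3 : ofChart e q ∈ UnboundedOrbits gN
  · exact Or.inl ⟨hq, h3⟩
  · exact Or.inr ⟨hq, h3⟩

theorem lightlike_example : IsLightlike gN (pr ∘ line 0 !₂[1, 0, 0]) := by
  refine ⟨line_geodesic _ _, ?_, fun t => ?_⟩
  · rintro ⟨x, hx⟩
    obtain ⟨g, hg⟩ := pr_eq ((hx (1 / 2)).trans (hx 0).symm)
    have h := congrArg (fun q : Euc 3 => q 0) hg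
    simp [line] at h
    have h2 : ((2 * g.a : ℤ) : ℝ) = ((1 : ℤ) : ℝ) := by push_cast; rw [h]; norm_num
    have := Int.cast_injective h2
    omega
  · rw [vel_line]
    show B (D _ _) (D _ _) = 0
    rw [B_D]; simp

end Pool.Agent.H85.Nil
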