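import Pool.Agent.H85.Harm

set_option autoImplicit false

namespace Pool.Agent.H85.Orb3

open MvPolynomial Module Pool.Agent.H85.Harm

theorem mem_hom {k : ℕ} {p : MvPolynomial (Fin 4) ℝ} : p ∈ homogeneousSubmodule (Fin 4) ℝ k ↔
    ∀ m, coeff m p ≠ 0 → m 0 + m 1 + m 2 + m 3 = k := by
  have : ∀ m : Fin 4 →₀ ℕ, Finsupp.weight 1 m = m 0 + m 1 + m 2 + m 3 := fun m => by
    rw [← Fin.sum_univ_four, ← Finsupp.degree_eq_sum, Finsupp.degree_eq_weight_one]; rfl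
  simp only [mem_homogeneousSubmodule, IsHomogeneous, IsWeightedHomogeneous, this]

theorem fix_diag (ε : Fin 4 → ℤˣ) (p : MvPolynomial (Fin 4) ℝ) : act (sp 1 ε).1 p = p ↔
    ∀ m, coeff m p ≠ 0 → ∏ i, ((ε i : ℤ) : ℝ) ^ m i = 1 := by
  have h := coeff_act_sp 1 ε p
  simp only [Equiv.Perm.coe_one, Finsupp.mapDomain_id] at h
  rw [MvPolynomial.ext_iff]
  refine forall_congr' fun m => ?_
  rw [h]
  exact ⟨fun a b => mul_right_cancel₀ b (by rw [a, one_mul]), fun a => by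
    by_cases b : coeff m p = 0
    · simp [b]
    · rw [a b, one_mul]⟩

theorem sgn (a b : ℕ) : (-1 : ℝ) ^ a * (-1) ^ b = 1 ↔ (a + b) % 2 = 0 := by
  rw [← pow_add, neg_one_pow_eq_one_iff_even (by norm_num), Nat.even_iff]

def S1 : Set (Matrix.orthogonalGroup (Fin 4) ℝ) :=
  {sp 1 ![-1, -1, 1, 1], sp 1 ![1, -1, -1, 1], sp 1 ![1, 1, -1, -1]}

def Rt : Matrix.orthogonalGroup (Fin 4) ℝ := sp (Equiv.swap 2 3) ![1, 1, -1, 1]

def S2 : Set (Matrix.orthogonalGroup (Fin 4) ℝ) := {sp 1 ![-1, -1, 1, 1], Rt}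

def A1 (k : ℕ) : Set (Fin 4 →₀ ℕ) :=
  {m | m 0 + m 1 + m 2 + m 3 = k ∧ (m 0 + m 1) % 2 = 0 ∧ (m 1 + m 2) % 2 = 0 ∧ (m 2 + m 3) % 2 = 0}

def A2 (k : ℕ) : Set (Fin 4 →₀ ℕ) :=
  {m | m 0 + m 1 + m 2 + m 3 = k ∧ (m 0 + m 1) % 2 = 0 ∧ (m 2 + m 3) % 2 = 0 ∧
    (m 3 < m 2 ∨ (m 2 = m 3 ∧ m 2 % 2 = 0))}

theorem dim1 (k : ℕ) : finrank ℝ ↥(homogeneousSubmodule (Fin 4) ℝ k ⊓ Inv S1) = Nat.card (A1 k) := by
  have : homogeneousSubmodule (Fin 4) ℝ k ⊓ Inv S1 = restrictSupport ℝ (A1 k) := by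
    ext p
    simp only [Submodule.mem_inf, mem_hom, mem_Inv, S1, Set.mem_insert_iff, Set.mem_singleton_iff,
      forall_eq_or_imp, forall_eq, fix_diag, Fin.prod_univ_four, mem_restrictSupport_iff,
      Set.subset_def, Finset.mem_coe, MvPolynomial.mem_support_iff, A1, Set.mem_ofPred_eq, ← sgn, imp_and,
      forall_and]
    simp
  rw [this, finrank_eq_nat_card_basis (basisRestrictSupport ℝ (A1 k))]

noncomputable def sw (m : Fin 4 →₀ ℕ) : Fin 4 →₀ ℕ := m.mapDomain (Equiv.swap (2 : Fin 4) 3)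

theorem sw_apply (m : Fin 4 →₀ ℕ) : sw m 0 = m 0 ∧ sw m 1 = m 1 ∧ sw m 2 = m 3 ∧ sw m 3 = m 2 := by
  simp only [sw, Finsupp.mapDomain_equiv_apply]
  exact ⟨rfl, rfl, rfl, rfl⟩

theorem ext4 {a b : Fin 4 →₀ ℕ} (h0 : a 0 = b 0) (h1 : a 1 = b 1) (h2 : a 2 = b 2)
    (h3 : a 3 = b 3) : a = b := by
  ext i; fin_cases i <;> assumption

theorem sw_sw (m : Fin 4 →₀ ℕ) : sw (sw m) = m := by
  have := sw_apply m
  have := sw_apply (sw m)
  exact ext4 (by omega) (by omega) (by omega) (by omega)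

theorem coeff_Rt (p : MvPolynomial (Fin 4) ℝ) (m : Fin 4 →₀ ℕ) :
    coeff m (act Rt.1 p) = (-1) ^ m 3 * coeff (sw m) p := by
  have := coeff_act_sp (Equiv.swap (2 : Fin 4) 3) ![1, 1, -1, 1] p (sw m)
  rw [show (sw m).mapDomain (Equiv.swap (2 : Fin 4) 3) = m from sw_sw m] at this
  simpa [Rt, Fin.prod_univ_four, (sw_apply m).2.2.1] using this

theorem mem2 {k : ℕ} {p : MvPolynomial (Fin 4) ℝ} :
    p ∈ homogeneousSubmodule (Fin 4) ℝ k ⊓ Inv S2 ↔
    (∀ m, coeff m p ≠ 0 → m 0 + m 1 + m 2 + m 3 = k ∧ (m 0 + m 1) % 2 = 0) ∧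
      ∀ m, (-1) ^ m 3 * coeff (sw m) p = coeff m p := by
  simp only [Submodule.mem_inf, mem_hom, mem_Inv, S2, Set.mem_insert_iff, Set.mem_singleton_iff,
    forall_eq_or_imp, forall_eq, fix_diag, Fin.prod_univ_four, ← sgn, imp_and, forall_and,
    MvPolynomial.ext_iff (p := act Rt.1 p), coeff_Rt]
  simp [and_assoc]

theorem fin2 (k : ℕ) : Finite (A2 k) :=
  (Finsupp.finite_of_degree_le k).subset fun m hm => by
    have := hm.1
    simp only [Set.mem_ofPred_eq, Finsupp.degree_eq_sum, Fin.sum_univ_four]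
    omega

theorem dim2 (k : ℕ) : finrank ℝ ↥(homogeneousSubmodule (Fin 4) ℝ k ⊓ Inv S2) = Nat.card (A2 k) := by
  have := fin2 k
  have hpm : ∀ n : ℕ, (n % 2 = 0 ∧ (-1 : ℝ) ^ n = 1) ∨ (n % 2 = 1 ∧ (-1 : ℝ) ^ n = -1) := by
    intro n
    rcases Nat.even_or_odd n with h | h
    · exact Or.inl ⟨Nat.even_iff.1 h, h.neg_one_pow⟩
    · exact Or.inr ⟨Nat.odd_iff.1 h, h.neg_one_pow⟩
  apply le_antisymm
  · have := Fintype.ofFinite (A2 k)
    rw [Nat.card_eq_fintype_card, ← finrank_fintype_fun_eq_card ℝ]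
    refine LinearMap.finrank_le_finrank_of_injective
      (f := (LinearMap.pi fun m : A2 k => lcoeff ℝ m.1) ∘ₗ Submodule.subtype _) ?_
    rw [← LinearMap.ker_eq_bot, eq_bot_iff]
    rintro ⟨p, hp⟩ h
    have h0 : ∀ m ∈ A2 k, coeff m p = 0 := fun m hm => congrFun (LinearMap.mem_ker.1 h) ⟨m, hm⟩
    obtain ⟨h1, h2⟩ := mem2.1 hp
    refine Subtype.ext (MvPolynomial.ext _ _ fun m => ?_)
    by_contra hm
    have hm : coeff m p ≠ 0 := hm
    have a1 := h2 m
    have a2 := h2 (sw m)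
    obtain ⟨s0, s1, s2, s3⟩ := sw_apply m
    rw [sw_sw, s3] at a2
    have a3 := h1 m hm
    have a4 : m ∉ A2 k := fun h => hm (h0 m h)
    have a5 : sw m ∉ A2 k := fun h => hm (by rw [← a1, h0 _ h, mul_zero])
    simp only [A2, Set.mem_ofPred_eq, s0, s1, s2, s3] at a4 a5
    have a6 : m 2 = m 3 → sw m = m := fun h => ext4 s0 s1 (by omega) (by omega)
    rcases hpm (m 2) with ⟨b1, b2⟩ | ⟨b1, b2⟩ <;> rcases hpm (m 3) with ⟨b3, b4⟩ | ⟨b3, b4⟩ <;>
      rw [b2] at a2 <;> rw [b4] at a1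
    · omega
    · exact hm (by linarith)
    · exact hm (by linarith)
    · rw [a6 (by omega)] at a1
      exact hm (by linarith)
  · rw [← finrank_eq_nat_card_basis (basisRestrictSupport ℝ (A2 k))]
    have hc : ∀ (p : MvPolynomial (Fin 4) ℝ) m, coeff m (p + act Rt.1 p) =
        coeff m p + (-1) ^ m 3 * coeff (sw m) p := fun p m => by rw [coeff_add, coeff_Rt]
    have hs : ∀ p ∈ restrictSupport ℝ (A2 k), ∀ m, coeff m p ≠ 0 → m ∈ A2 k :=
      fun p hp m hm => hp (MvPolynomial.mem_support_iff.2 hm)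
    suffices H : ∀ p ∈ restrictSupport ℝ (A2 k), p + act Rt.1 p ∈
        homogeneousSubmodule (Fin 4) ℝ k ⊓ Inv S2 by
      refine LinearMap.finrank_le_finrank_of_injective
        (f := (LinearMap.id + (act Rt.1).toLinearMap).restrict H) ?_
      rw [← LinearMap.ker_eq_bot, eq_bot_iff]
      rintro ⟨p, hp⟩ h
      have h0 : p + act Rt.1 p = 0 := congrArg Subtype.val (LinearMap.mem_ker.1 h)
      refine Subtype.ext (MvPolynomial.ext _ _ fun m => ?_)
      by_contra hm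
      have hm : coeff m p ≠ 0 := hm
      have a1 := hc p m
      rw [h0, coeff_zero] at a1
      obtain ⟨s0, s1, s2, s3⟩ := sw_apply m
      have a2 := hs p hp m hm
      by_cases h : coeff (sw m) p = 0
      · exact hm (by simpa [h] using a1.symm)
      · have a3 := hs p hp _ h
        simp only [A2, Set.mem_ofPred_eq] at a2 a3
        rw [ext4 s0 s1 (b := m) (by omega) (by omega)] at a1
        rcases hpm (m 3) with ⟨b3, b4⟩ | ⟨b3, b4⟩
        · rw [b4] at a1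
          exact hm (by linarith)
        · omega
    intro p hp
    refine mem2.2 ⟨fun m hm => ?_, fun m => ?_⟩
    · rw [hc] at hm
      obtain ⟨s0, s1, s2, s3⟩ := sw_apply m
      by_cases h : coeff m p = 0
      · have := hs p hp (sw m) fun h' => hm (by simp [h, h'])
        simp only [A2, Set.mem_ofPred_eq] at this
        omega
      · exact ⟨(hs p hp m h).1, (hs p hp m h).2.1⟩
    · rw [hc, hc, sw_sw, (sw_apply m).2.2.2]
      by_cases h : coeff m p = 0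
      · simp [h]
      · rw [mul_add, ← mul_assoc, mul_comm ((-1 : ℝ) ^ m 3) ((-1) ^ m 2),
          (sgn _ _).2 (hs p hp m h).2.2.1]
        ring

noncomputable def mk4 (a b c d : ℕ) : Fin 4 →₀ ℕ := Finsupp.equivFunOnFinite.symm ![a, b, c, d]

theorem card_eq (k : ℕ) : Nat.card (A1 k) = Nat.card (A2 k) := by
  have h : ∀ a b c d, mk4 a b c d 0 = a ∧ mk4 a b c d 1 = b ∧ mk4 a b c d 2 = c ∧
      mk4 a b c d 3 = d := fun a b c d => ⟨rfl, rfl, rfl, rfl⟩
  refine (Nat.card_congr (Equiv.ofBijective (fun m : A2 k => (⟨if m.1 0 % 2 = 0 then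
    mk4 (m.1 0 + m.1 2 % 2) (m.1 1 + m.1 2 % 2) (m.1 2 - 2 * (m.1 2 % 2)) (m.1 3) else
    mk4 (m.1 0 - 1 + m.1 2 % 2) (m.1 1 - 1 + m.1 2 % 2) (m.1 3) (m.1 2 - 2 * (m.1 2 % 2) + 2),
      ?_⟩ : A1 k)) ⟨?_, ?_⟩)).symm
  · have := m.2
    simp only [A2, Set.mem_ofPred_eq] at this
    split_ifs <;> simp only [A1, Set.mem_ofPred_eq, h] <;> omega
  · rintro ⟨a, ha⟩ ⟨b, hb⟩ hab
    have hab := congrArg Subtype.val hab
    dsimp only at hab
    have h0 := DFunLike.congr_fun hab 0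
    have h1 := DFunLike.congr_fun hab 1
    have h2 := DFunLike.congr_fun hab 2
    have h3 := DFunLike.congr_fun hab 3
    simp only [A2, Set.mem_ofPred_eq] at ha hb
    suffices a 0 = b 0 ∧ a 1 = b 1 ∧ a 2 = b 2 ∧ a 3 = b 3 from
      Subtype.ext (ext4 this.1 this.2.1 this.2.2.1 this.2.2.2)
    clear hab
    replace ha := ha.2
    replace hb := hb.2
    split_ifs at h0 h1 h2 h3 <;> simp only [h] at h0 h1 h2 h3 <;>
      rcases Nat.mod_two_eq_zero_or_one (a 2) with c | c <;>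
      rcases Nat.mod_two_eq_zero_or_one (b 2) with d | d <;>
      rw [c, d] at h0 h1 <;> omega
  · rintro ⟨m, hm⟩
    simp only [A1, Set.mem_ofPred_eq] at hm
    by_cases hc : m 3 ≤ m 2
    · refine ⟨⟨mk4 (m 0 - m 2 % 2) (m 1 - m 2 % 2) (m 2 + 2 * (m 2 % 2)) (m 3), ?_⟩,
        Subtype.ext ?_⟩
      · simp only [A2, Set.mem_ofPred_eq, h]; omega
      · simp only [h]
        rw [if_pos (by omega)]
        refine ext4 ?_ ?_ ?_ ?_ <;> simp only [h] <;> omega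
    · refine ⟨⟨mk4 (m 0 + 1 - m 2 % 2) (m 1 + 1 - m 2 % 2) (m 3 - 2 + 2 * (m 2 % 2)) (m 2), ?_⟩,
        Subtype.ext ?_⟩
      · simp only [A2, Set.mem_ofPred_eq, h]; omega
      · simp only [h]
        rw [if_neg (by omega)]
        refine ext4 ?_ ?_ ?_ ?_ <;> simp only [h] <;> omega

theorem sq_one {g : Matrix.orthogonalGroup (Fin 4) ℝ} (hg : g ∈ Subgroup.closure S1) :
    g * g = 1 := by
  have : g.1.IsDiag := by
    induction hg using Subgroup.closure_induction with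
    | mem g hg => rcases hg with rfl | rfl | rfl <;> intro i j h <;> simp [sp, h.symm]
    | one => exact Matrix.isDiag_one
    | mul a b _ _ ha hb =>
      rw [Submonoid.coe_mul, ← ha.diagonal_diag, ← hb.diagonal_diag, Matrix.diagonal_mul_diagonal]
      exact Matrix.isDiag_diagonal _
    | inv a _ ha => exact ha.transpose
  have h := (Matrix.mem_orthogonalGroup_iff _ _).1 g.2
  rw [this.isSymm.eq] at h
  exact Subtype.ext h

theorem main : Finite (Subgroup.closure S2) ∧ Finite (Subgroup.closure S1) ∧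
    (¬ ∃ h : Matrix.orthogonalGroup (Fin 4) ℝ, ∀ g, g ∈ Subgroup.closure S2 ↔
      h * g * h⁻¹ ∈ Subgroup.closure S1) ∧ ∀ k : ℕ,
    finrank ℝ ↥(homogeneousSubmodule (Fin 4) ℝ k ⊓ LinearMap.ker lap ⊓
      Inv (Subgroup.closure S2 : Set _)) = finrank ℝ ↥(homogeneousSubmodule (Fin 4) ℝ k ⊓
      LinearMap.ker lap ⊓ Inv (Subgroup.closure S1 : Set _)) := by
  have hz : ∀ (π : Equiv.Perm (Fin 4)) ε i j, ∃ z : ℤ, (sp π ε).1 i j = z := fun π ε i j =>
    ⟨if j = π i then ε i else 0, by simp [sp]⟩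
  refine ⟨finite_closure ?_, finite_closure ?_, ?_, finrank_harm_eq (lap_Inv _) (r2_Inv _)
    (lap_Inv _) (r2_Inv _) fun k => ?_⟩
  · rintro _ (rfl | rfl) <;> exact hz _ _
  · rintro _ (rfl | rfl | rfl) <;> exact hz _ _
  · rintro ⟨h, hh⟩
    have := sq_one ((hh Rt).1 (Subgroup.subset_closure (Or.inr rfl)))
    have h2 : Rt * Rt = 1 := by
      rw [conj_mul, conj_eq_one_iff] at this
      exact this
    have := congrFun (congrFun (congrArg Subtype.val h2) 2) 2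
    simp [Rt, sp, Matrix.mul_apply, Fin.sum_univ_four, Equiv.swap_apply_def] at this
    norm_num at this
  · rw [Inv_closure, Inv_closure, dim1, dim2, card_eq]

end Pool.Agent.H85.Orb3
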