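import Pool.Agent.H85.SemiRiemDefs

set_option autoImplicit false

namespace Pool.Agent.H85.ParDefs

open Set Pool.Agent.H85.SemiRiemDefs
open scoped Manifold ContDiff Topology

variable {E : Type} [NormedAddCommGroup E] [NormedSpace ℝ E]
  {M : Type} [TopologicalSpace M] [ChartedSpace E M]

/-- Christoffel symbols of the coordinate metric `G` at `y`: the vector `c = Γ(u,v)` with
`G(c,z) = (1/2) (∂_u G(v,z) + ∂_v G(u,z) - ∂_z G(u,v))` for all `z` (it exists and is unique when
`G` is nondegenerate). -/
noncomputable def chris (G : E → E → E → ℝ) (y u v : E) : E :=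
  Classical.epsilon fun c => ∀ z, G y c z = (1 / 2) * (dd (fun y' => G y' v z) y u
    + dd (fun y' => G y' u z) y v - dd (fun y' => G y' u v) y z)

/-- Coordinates in the chart `e` of a tangent vector. -/
noncomputable def coord (e : OpenPartialHomeomorph M E) (x : M) (v : Tx E x) : E :=
  mfderiv 𝓘(ℝ, E) 𝓘(ℝ, E) e x v

/-- Coordinate expression in the chart `e` of a field of endomorphisms. -/
noncomputable def locEnd (A : ∀ x : M, Tx E x →ₗ[ℝ] Tx E x) (e : OpenPartialHomeomorph M E)
    (y v : E) : E :=
  coord e (e.symm y) (A (e.symm y) (dInv e y v))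

/-- A smooth `(1,1)`-tensor field with `∇ A = 0` for the Levi-Civita connection of `g`. -/
def IsParallelEnd (g : Bilin E M) (A : ∀ x : M, Tx E x →ₗ[ℝ] Tx E x) : Prop :=
  ∀ e ∈ atlas E M, ∀ v, ContDiffOn ℝ ∞ (fun y => locEnd A e y v) e.target ∧
    ∀ y ∈ e.target, ∀ u, fderiv ℝ (fun y' => locEnd A e y' v) y u
      + chris (locBilin g e) y u (locEnd A e y v) - locEnd A e y (chris (locBilin g e) y u v) = 0

/-- For a covering `π : M' → M`, a vector field on `M'` is a section `V` of `π^* TM`.  It is
smooth and parallel for `π^* g` when this holds in the charts of `M'` obtained from the charts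
`e` of `M` and the local sections `s` of `π`. -/
def IsParallelVec (g : Bilin E M) {M' : Type} [TopologicalSpace M'] (π : M' → M)
    (V : ∀ x : M', Tx E (π x)) : Prop :=
  ∀ e ∈ atlas E M, ∀ (U : Set E) (s : E → M'), IsOpen U → U ⊆ e.target → ContinuousOn s U →
    (∀ y ∈ U, π (s y) = e.symm y) →
    ContDiffOn ℝ ∞ (fun y => coord e (π (s y)) (V (s y))) U ∧
      ∀ y ∈ U, ∀ u, fderiv ℝ (fun y' => coord e (π (s y')) (V (s y'))) y u
        + chris (locBilin g e) y u (coord e (π (s y)) (V (s y))) = 0

end Pool.Agent.H85.ParDefs
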