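import Pool.Agent.H85.RcD

namespace Pool.Agent.H85.Rc
open Sum Function

theorem Tm.eval_congr (S : Str) (t : Tm) {ρ ρ' : ℕ → S.M} (h : ∀ i, t.occ i → ρ i = ρ' i) :
    t.eval S ρ = t.eval S ρ' := by
  induction t with
  | var i => exact h i rfl
  | zero => rfl
  | one => rfl
  | add s t ihs iht =>
    simp only [Tm.eval]; rw [ihs fun i hi => h i (Or.inl hi), iht fun i hi => h i (Or.inr hi)]
  | mul s t ihs iht =>
    simp only [Tm.eval]; rw [ihs fun i hi => h i (Or.inl hi), iht fun i hi => h i (Or.inr hi)]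

theorem sat_congr (S : Str) (φ : Fm) : ∀ {ρ ρ' : ℕ → S.M}, (∀ i, φ.free i → ρ i = ρ' i) →
    (Sat S φ ρ ↔ Sat S φ ρ') := by
  induction φ with
  | eq s t =>
    intro ρ ρ' h; simp only [Sat]
    rw [s.eval_congr S fun i hi => h i (Or.inl hi), t.eval_congr S fun i hi => h i (Or.inr hi)]
  | lt s t =>
    intro ρ ρ' h; simp only [Sat]
    rw [s.eval_congr S fun i hi => h i (Or.inl hi), t.eval_congr S fun i hi => h i (Or.inr hi)]
  | neg φ ih => intro ρ ρ' h; simp only [Sat]; rw [ih h]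
  | and φ ψ ih1 ih2 =>
    intro ρ ρ' h; simp only [Sat]
    rw [ih1 fun i hi => h i (Or.inl hi), ih2 fun i hi => h i (Or.inr hi)]
  | all v φ ih =>
    intro ρ ρ' h; simp only [Sat]
    refine forall_congr' fun x => ih fun i hi => ?_
    by_cases e : i = v
    · subst e; simp
    · simp [update_of_ne e, h i ⟨e, hi⟩]
  | ex v φ ih =>
    intro ρ ρ' h; simp only [Sat]
    refine exists_congr fun x => ih fun i hi => ?_
    by_cases e : i = v
    · subst e; simp
    · simp [update_of_ne e, h i ⟨e, hi⟩]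

theorem Tm.occ_bdd (t : Tm) : ∃ K, ∀ i, t.occ i → i < K := by
  induction t with
  | var j => exact ⟨j + 1, fun i hi => by cases hi; omega⟩
  | zero => exact ⟨0, fun i hi => hi.elim⟩
  | one => exact ⟨0, fun i hi => hi.elim⟩
  | add s t a b =>
    obtain ⟨K, a⟩ := a; obtain ⟨K', b⟩ := b
    exact ⟨K + K', fun i hi => hi.elim (fun h => by have := a i h; omega) fun h => by have := b i h; omega⟩
  | mul s t a b =>
    obtain ⟨K, a⟩ := a; obtain ⟨K', b⟩ := b
    exact ⟨K + K', fun i hi => hi.elim (fun h => by have := a i h; omega) fun h => by have := b i h; omega⟩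

theorem Fm.free_bdd (φ : Fm) : ∃ K, ∀ i, φ.free i → i < K := by
  induction φ with
  | eq s t =>
    obtain ⟨K, a⟩ := s.occ_bdd; obtain ⟨K', b⟩ := t.occ_bdd
    exact ⟨K + K', fun i hi => hi.elim (fun h => by have := a i h; omega) fun h => by have := b i h; omega⟩
  | lt s t =>
    obtain ⟨K, a⟩ := s.occ_bdd; obtain ⟨K', b⟩ := t.occ_bdd
    exact ⟨K + K', fun i hi => hi.elim (fun h => by have := a i h; omega) fun h => by have := b i h; omega⟩
  | neg φ ih => exact ih
  | and φ ψ a b =>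
    obtain ⟨K, a⟩ := a; obtain ⟨K', b⟩ := b
    exact ⟨K + K', fun i hi => hi.elim (fun h => by have := a i h; omega) fun h => by have := b i h; omega⟩
  | all v φ ih => obtain ⟨K, a⟩ := ih; exact ⟨K, fun i hi => a i hi.2⟩
  | ex v φ ih => obtain ⟨K, a⟩ := ih; exact ⟨K, fun i hi => a i hi.2⟩

@[simp] theorem sat_imp (S : Str) (φ ψ : Fm) (ρ) : Sat S (φ.imp ψ) ρ ↔ (Sat S φ ρ → Sat S ψ ρ) := by
  simp [Fm.imp, Sat]
@[simp] theorem sat_iff (S : Str) (φ ψ : Fm) (ρ) : Sat S (φ.iff ψ) ρ ↔ (Sat S φ ρ ↔ Sat S ψ ρ) := by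
  simp only [Fm.iff, Sat, sat_imp]; exact iff_def.symm

abbrev LN := List ℕ
abbrev MM := ℕ ⊕ LN

def rel (a b : LN) : Prop := a.length = 1 ∧ 2 ≤ a.headI ∧ b = [a.headI + 1]
instance (a b : LN) : Decidable (rel a b) := by unfold rel; infer_instance

theorem rel_iff {a b : LN} : rel a b ↔ ∃ i, 2 ≤ i ∧ a = [i] ∧ b = [i + 1] := by
  constructor
  · rintro ⟨h1, h2, h3⟩
    obtain ⟨i, rfl⟩ := List.length_eq_one_iff.1 h1
    exact ⟨i, h2, rfl, h3⟩
  · rintro ⟨i, h, rfl, rfl⟩; exact ⟨rfl, h, rfl⟩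

def addM (c : Bool) : MM → MM → MM
  | inl n, inl m => inl (n + m)
  | inl _, inr a => inr a
  | inr a, inl _ => inr a
  | inr a, inr b => inr (if c then (if rel b a then a else b) else (if rel a b then b else a))

def mulM (L : LN → ℕ) : MM → MM → MM
  | inl n, inl m => inl (n * m)
  | inr a, inl m => if m = 0 then inl 0 else inr a
  | inl n, inr a => if n = 0 then inl (L a) else inr a.dropLast
  | inr a, inr _ => inr a

def ltM : MM → MM → Prop
  | inl n, inl m => n < m
  | inl _, inr _ => True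
  | inr _, inl _ => False
  | inr a, inr b => a = b ∨ rel a b

abbrev Md (c : Bool) (L : LN → ℕ) : Str := ⟨MM, inl 0, inl 1, addM c, mulM L, ltM⟩

theorem lt_char (c : Bool) (x y : MM) :
    ltM x y ↔ ∃ z, (if c then addM c (addM c z (inl 1)) x else addM c x (addM c z (inl 1))) = y := by
  constructor
  · intro h
    rcases x with n | a <;> rcases y with m | b
    · refine ⟨inl (m - n - 1), ?_⟩
      simp only [ltM] at h
      cases c <;> simp [addM] <;> omega
    · exact ⟨inr b, by cases c <;> simp [addM]⟩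
    · exact h.elim
    · refine ⟨inr b, ?_⟩
      rcases h with rfl | h <;> cases c <;> simp [addM, *]
  · rintro ⟨z, rfl⟩
    rcases x with n | a <;> rcases z with m | b <;> cases c <;> simp [addM, ltM]
    all_goals first | omega | (split_ifs <;> simp [*])

theorem md_Q (c : Bool) (L : LN → ℕ) : ∀ φ ∈ Qax c, Models (Md c L) φ := by
  intro φ hφ ρ
  simp only [Qax, List.mem_cons, List.not_mem_nil, or_false] at hφ
  rcases hφ with rfl | rfl | rfl | rfl | rfl | rfl | rfl | rfl | rfl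
  · simp only [Sat, Tm.eval, Md]; rcases ρ 0 with n | a <;> simp [addM]
  · simp only [sat_imp, Sat, Tm.eval, Md]
    rcases ρ 0 with n | a <;> rcases ρ 1 with m | b <;> simp [addM]
  · simp only [sat_imp, Sat, Tm.eval, Md, update_self, update_of_ne (show (0 : ℕ) ≠ 1 by decide)]
    rcases ρ 0 with n | a
    · intro h; refine ⟨inl (n - 1), ?_⟩
      have : n ≠ 0 := fun e => h (by rw [e])
      simp only [addM]; congr 1; omega
    · intro _; exact ⟨inr a, rfl⟩
  · simp only [Sat, Tm.eval, Md]; rcases ρ 0 with n | a <;> simp [addM]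
  · simp only [Sat, Tm.eval, Md]
    rcases ρ 0 with n | a <;> rcases ρ 1 with m | b <;> simp [addM, add_assoc]
  · simp only [Sat, Tm.eval, Md]; rcases ρ 0 with n | a <;> simp [mulM]
  · simp only [Sat, Tm.eval, Md]
    rcases ρ 0 with n | a <;> rcases ρ 1 with m | b <;> simp only [addM, mulM]
    · rw [Nat.mul_succ]
    · split_ifs with h <;> simp [addM, h]
    · split_ifs with h1 h2 h2 <;> simp_all [addM]
    · simp
  · simp [Sat, Tm.eval, Md, addM]
  · have := lt_char c (ρ 0) (ρ 1)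
    cases c <;> simpa [Sat, Tm.eval, Md, update_of_ne] using this

structure Hom (L L' : LN → ℕ) (f : LN → LN) : Prop where
  inj : Injective f
  drop : ∀ s, f s.dropLast = (f s).dropLast
  lab : ∀ s, L' (f s) = L s
  rl : ∀ a b, rel (f a) (f b) ↔ rel a b

theorem Hom.eval {c L L' f} (h : Hom L L' f) (t : Tm) (ρ : ℕ → MM) :
    t.eval (Md c L') (Sum.map id f ∘ ρ) = Sum.map id f (t.eval (Md c L) ρ) := by
  induction t with
  | var i => rfl
  | zero => rfl
  | one => rfl
  | add s t a b =>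
    simp only [Tm.eval] at a b ⊢; rw [a, b]
    generalize s.eval (Md c L) ρ = x; generalize t.eval (Md c L) ρ = y
    rcases x with n | p <;> rcases y with m | q <;> simp [Md, addM, h.rl]
    split_ifs <;> rfl
  | mul s t a b =>
    simp only [Tm.eval] at a b ⊢; rw [a, b]
    generalize s.eval (Md c L) ρ = x; generalize t.eval (Md c L) ρ = y
    rcases x with n | p <;> rcases y with m | q <;> simp only [Md, mulM, Sum.map_inl, Sum.map_inr, id]
    all_goals split_ifs <;> simp [h.lab, h.drop]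

theorem Hom.lt {L L' f} (h : Hom L L' f) (x y : MM) :
    ltM (Sum.map id f x) (Sum.map id f y) ↔ ltM x y := by
  rcases x with n | p <;> rcases y with m | q <;> simp [ltM, h.rl, h.inj.eq_iff]

theorem Hom.injF {L L' f} (h : Hom L L' f) : Injective (Sum.map id f : MM → MM) :=
  Sum.map_injective.2 ⟨injective_id, h.inj⟩

theorem Hom.qf {c L L' f} (h : Hom L L' f) {φ} (hφ : IsQF φ) (ρ : ℕ → MM) :
    Sat (Md c L') φ (Sum.map id f ∘ ρ) ↔ Sat (Md c L) φ ρ := by
  induction hφ with
  | eq s t => simp only [Sat]; rw [h.eval, h.eval]; exact h.injF.eq_iff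
  | lt s t => simp only [Sat]; rw [h.eval, h.eval]; exact h.lt _ _
  | neg _ ih => simp only [Sat]; rw [ih]
  | and _ _ a b => simp only [Sat]; rw [a, b]

theorem Hom.exist {c L L' f} (h : Hom L L' f) {φ} (hφ : IsExist φ) : ∀ (ρ : ℕ → MM),
    Sat (Md c L) φ ρ → Sat (Md c L') φ (Sum.map id f ∘ ρ) := by
  induction hφ with
  | qf a => exact fun ρ => (h.qf a ρ).2
  | ex v _ ih =>
    rintro ρ ⟨x, hx⟩
    refine ⟨Sum.map id f x, ?_⟩
    have := ih _ hx
    erw [comp_update] at this; exact this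

theorem Hom.d0 {c L L' f} (h : Hom L L' f) (hb : ∀ a b, rel a (f b) → ∃ a', a = f a')
    {φ} (hφ : IsD0 φ) : ∀ (ρ : ℕ → MM),
    Sat (Md c L') φ (Sum.map id f ∘ ρ) ↔ Sat (Md c L) φ ρ := by
  have key : ∀ y x : MM, ltM y (Sum.map id f x) → ∃ y', y = Sum.map id f y' := by
    intro y x hy
    rcases y with n | a
    · exact ⟨inl n, rfl⟩
    · rcases x with m | b
      · exact hy.elim
      · rcases hy with rfl | hy
        · exact ⟨inr b, rfl⟩
        · obtain ⟨a', rfl⟩ := hb _ _ hy; exact ⟨inr a', rfl⟩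
  have tv : ∀ (S : Str) (v) (t : Tm), ¬ t.occ v → ∀ (ρ : ℕ → S.M) x,
      t.eval S (update ρ v x) = t.eval S ρ := fun S v t ht ρ x =>
    t.eval_congr S fun i hi => update_of_ne (fun e : i = v => ht (e ▸ hi)) _ _
  induction hφ with
  | eq s t => intro ρ; simp only [Sat]; rw [h.eval, h.eval]; exact h.injF.eq_iff
  | lt s t => intro ρ; simp only [Sat]; rw [h.eval, h.eval]; exact h.lt _ _
  | neg _ ih => intro ρ; simp only [Sat]; rw [ih]
  | and _ _ a b => intro ρ; simp only [Sat]; rw [a, b]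
  | ball v t ht _ ih =>
    intro ρ
    simp only [Sat, sat_imp, Tm.eval, update_self, tv _ v t ht]
    rw [h.eval]
    constructor
    · intro H x hx
      have := H (Sum.map id f x) ((h.lt _ _).2 hx)
      rw [← comp_update, ih] at this; exact this
    · intro H y hy
      obtain ⟨x, rfl⟩ := key _ _ hy
      rw [← comp_update, ih]; exact H x ((h.lt _ _).1 hy)
  | bex v t ht _ ih =>
    intro ρ
    simp only [Sat, Tm.eval, update_self, tv _ v t ht]
    rw [h.eval]
    constructor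
    · rintro ⟨y, hy, H⟩
      obtain ⟨x, rfl⟩ := key _ _ hy
      rw [← comp_update, ih] at H; exact ⟨x, (h.lt _ _).1 hy, H⟩
    · rintro ⟨x, hx, H⟩
      refine ⟨Sum.map id f x, (h.lt _ _).2 hx, ?_⟩
      rw [← comp_update, ih]; exact H

structure B (P : Prop) (L L' : LN → ℕ) (f : LN → LN) : Prop where
  inj : Injective f
  nil : f [] = []
  drop : ∀ s, f s.dropLast = (f s).dropLast
  lab : ∀ s, L' (f s) = L s
  fix : P → ∀ i, f [i] = [i]

def E (P : Prop) : ℕ → (LN → ℕ) → (LN → ℕ) → (LN → LN) → Prop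
  | 0, L, L', f => B P L L' f
  | k + 1, L, L', f => B P L L' f ∧
      ∀ S : Set LN, S.Finite → ∃ g, E P k L' L g ∧ ∀ s ∈ S, g (f s) = s

theorem E.b {P k L L' f} (h : E P k L L' f) : B P L L' f := by
  cases k
  · exact h
  · exact h.1

theorem B.d0 {c L L' f} (h : B True L L' f) {φ} (hφ : IsD0 φ) (ρ : ℕ → MM) :
    Sat (Md c L') φ (Sum.map id f ∘ ρ) ↔ Sat (Md c L) φ ρ := by
  have e : ∀ a i, f a = [i] ↔ a = [i] := fun a i => by
    rw [← h.inj.eq_iff (a := a), h.fix trivial]
  refine Hom.d0 ⟨h.inj, h.drop, h.lab, fun a b => ?_⟩ (fun a b hab => ?_) hφ ρ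
  · simp only [rel_iff, e]
  · obtain ⟨i, -, rfl, -⟩ := rel_iff.1 hab
    exact ⟨[i], (h.fix trivial i).symm⟩

/-- the two preservation statements at level `k` -/
def Pres (c : Bool) (k : ℕ) : Prop := ∀ L L' f, E True k L L' f → ∀ φ,
  (Lev false k φ → ∀ ρ : ℕ → MM, Sat (Md c L) φ ρ → Sat (Md c L') φ (Sum.map id f ∘ ρ)) ∧
  (Lev true k φ → ∀ ρ : ℕ → MM, Sat (Md c L') φ (Sum.map id f ∘ ρ) → Sat (Md c L) φ ρ)

theorem Pres.next {c k} (H : Pres c k) {L L' f} (h : E True k L L' f) {b n φ} (hφ : Lev b n φ)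
    (hn : n = k + 1) : ∀ ρ : ℕ → MM,
    (b = true → Sat (Md c L) φ ρ → Sat (Md c L') φ (Sum.map id f ∘ ρ)) ∧
    (b = false → Sat (Md c L') φ (Sum.map id f ∘ ρ) → Sat (Md c L) φ ρ) := by
  induction hφ with
  | d0 => omega
  | up b n a _ =>
    intro ρ
    obtain rfl : n = k := by omega
    exact ⟨fun e => by subst e; exact (H _ _ _ h _).1 a ρ, fun e => by subst e; exact (H _ _ _ h _).2 a ρ⟩
  | ex n v _ ih =>
    intro ρ
    refine ⟨fun _ => ?_, fun e => by cases e⟩
    rintro ⟨x, hx⟩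
    refine ⟨Sum.map id f x, ?_⟩
    have := (ih hn _).1 rfl hx
    erw [comp_update] at this; exact this
  | all n v _ ih =>
    intro ρ
    refine ⟨fun e => (by cases e), fun _ H' x => (ih hn _).2 rfl ?_⟩
    rw [comp_update]; exact H' _

theorem pres (c : Bool) (k : ℕ) : Pres c k := by
  induction k with
  | zero =>
    intro L L' f h φ
    constructor
    · intro a ρ; cases a with | d0 _ a => exact (B.d0 h a ρ).2
    · intro a ρ; cases a with | d0 _ a => exact (B.d0 h a ρ).1
  | succ k ih =>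
    intro L L' f h φ
    obtain ⟨K, hK⟩ := φ.free_bdd
    have key : ∀ ρ : ℕ → MM, ∃ g, E True k L' L g ∧
        (Sat (Md c L) φ (Sum.map id g ∘ (Sum.map id f ∘ ρ)) ↔ Sat (Md c L) φ ρ) := by
      intro ρ
      have hf : (inr ⁻¹' (ρ '' Set.Iio K) : Set LN).Finite :=
        ((Set.finite_Iio K).image ρ).preimage inr_injective.injOn
      obtain ⟨g, hg, hs⟩ := h.2 _ hf
      refine ⟨g, hg, sat_congr _ φ fun i hi => ?_⟩
      have := hK i hi
      simp only [comp]
      rcases e : ρ i with n | a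
      · rfl
      · simp only [Sum.map_inr]; rw [hs a ⟨i, this, e⟩]
    constructor
    · intro a ρ hs
      obtain ⟨g, hg, e⟩ := key ρ
      exact (ih.next hg a rfl _).2 rfl (e.2 hs)
    · intro a ρ hs
      obtain ⟨g, hg, e⟩ := key ρ
      exact e.1 ((ih.next hg a rfl _).1 rfl hs)

end Pool.Agent.H85.Rc
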