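import Pool.Agent.H85.RcA

namespace Pool.Agent.H85.Rc
open Sum Function

def glue (σ : ℕ → ℕ) (f : ℕ → LN → LN) : LN → LN
  | [] => []
  | i :: s => σ i :: f i s

def child (L : LN → ℕ) (i : ℕ) : LN → ℕ := fun s => L (i :: s)

theorem glue_B {P : Prop} {L L' : LN → ℕ} {σ : ℕ → ℕ} (hσ : Injective σ) (hP : P → ∀ i, σ i = i)
    (h0 : L' [] = L []) {f : ℕ → LN → LN} (hf : ∀ i, B False (child L i) (child L' (σ i)) (f i)) :
    B P L L' (glue σ f) where
  inj := by
    intro a b h
    rcases a with _ | ⟨i, s⟩ <;> rcases b with _ | ⟨j, t⟩ <;> simp only [glue] at h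
    · rfl
    · cases h
    · cases h
    · obtain ⟨h1, h2⟩ := List.cons.inj h
      obtain rfl := hσ h1
      rw [(hf i).inj h2]
  nil := rfl
  drop := by
    intro a
    rcases a with _ | ⟨i, s⟩
    · rfl
    · by_cases e : s = []
      · subst e; simp [glue, (hf i).nil]
      · have : f i s ≠ [] := fun h => e ((hf i).inj (h.trans (hf i).nil.symm))
        rw [List.dropLast_cons_of_ne_nil e]
        simp only [glue]
        rw [List.dropLast_cons_of_ne_nil this, (hf i).drop]
  lab := by
    intro a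
    rcases a with _ | ⟨i, s⟩
    · exact h0
    · exact (hf i).lab s
  fix := fun p i => by simp [glue, hP p, (hf i).nil]

theorem E_id (P : Prop) (k : ℕ) (L : LN → ℕ) : E P k L L id := by
  have : B P L L id := ⟨injective_id, rfl, fun _ => rfl, fun _ => rfl, fun _ _ => rfl⟩
  induction k with
  | zero => exact this
  | succ k ih => exact ⟨this, fun S _ => ⟨id, ih, fun _ _ => rfl⟩⟩

theorem glue_E {P : Prop} (k : ℕ) : ∀ {L L' : LN → ℕ} (σ : ℕ ≃ ℕ) (_ : P → ∀ i, σ i = i)
    (_ : L' [] = L []) {f : ℕ → LN → LN} (_ : ∀ i, E False k (child L i) (child L' (σ i)) (f i)),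
    E P k L L' (glue σ f) := by
  induction k with
  | zero => intro L L' σ hP h0 f hf; exact glue_B σ.injective hP h0 hf
  | succ k ih =>
    intro L L' σ hP h0 f hf
    refine ⟨glue_B σ.injective hP h0 fun i => (hf i).b, fun S hS => ?_⟩
    have : ∀ i, ∃ g, E False k (child L' (σ i)) (child L i) g ∧ ∀ s, i :: s ∈ S → g (f i s) = s :=
      fun i => (hf i).2 _ (hS.preimage (f := fun s => i :: s) (List.cons_injective.injOn))
    choose g hg hs using this
    refine ⟨glue σ.symm fun j => g (σ.symm j), ih σ.symm (fun p i => ?_) h0.symm fun j => ?_, ?_⟩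
    · rw [Equiv.symm_apply_eq, hP p]
    · have := hg (σ.symm j); rwa [σ.apply_symm_apply] at this
    · intro s h
      rcases s with _ | ⟨i, s⟩
      · rfl
      · simp [glue, hs i s h]

def dl (q i : ℕ) : ℕ := if q % 2 = 1 then q - 3 else if i % 2 = 0 then q - 2 else q - 1

def step (c : ℕ → ℕ) (st : ℕ × ℕ) (i : ℕ) : ℕ × ℕ :=
  if st.1 = 0 then (if i = 0 then (0, st.2 + 1) else if i = 1 then (1, c st.2) else (2, 0))
  else (2, dl st.2 i)

def out (st : ℕ × ℕ) : ℕ := if st.1 = 1 then 2 else if st.1 ≠ 0 ∧ st.2 = 1 then 1 else 0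

def lab (c : ℕ → ℕ) (st : ℕ × ℕ) (s : LN) : ℕ := out (s.foldl (step c) st)

theorem child_lab (c st i) : child (lab c st) i = lab c (step c st i) := rfl

theorem lab_indep {c c' : ℕ → ℕ} (s : LN) : ∀ st : ℕ × ℕ, (st.1 = 0 → ∀ j, st.2 ≤ j → c j = c' j) →
    lab c st s = lab c' st s := by
  induction s with
  | nil => intro st _; rfl
  | cons i s ih =>
    intro st h
    have e : step c st i = step c' st i := by
      unfold step; split_ifs with h1 <;> first | rfl | rw [h h1 _ le_rfl]
    show lab c (step c st i) s = lab c' (step c' st i) s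
    rw [← e]
    refine ih _ fun h1 j hj => ?_
    unfold step at h1 hj
    split_ifs at h1 hj with h2 h3 h4 <;> simp at h1
    exact h h2 j (by simp at hj; omega)

theorem lab_eq (c c' : ℕ → ℕ) (st : ℕ × ℕ) (h : st.1 = 0 → ∀ j, st.2 ≤ j → c j = c' j) :
    lab c st = lab c' st := funext fun s => lab_indep s st h

theorem lab_zero (c) (s : LN) : lab c (2, 0) s = 0 := by
  induction s with
  | nil => rfl
  | cons i s ih =>
    show lab c (step c (2, 0) i) s = 0
    have : step c (2, 0) i = (2, 0) := by simp [step, dl]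
    rw [this, ih]

theorem exists_tau (F : Set ℕ) (hF : F.Finite) :
    ∃ τ : ℕ ≃ ℕ, ∀ i ∈ F, τ (2 * i) = i := by
  let s : Set ℕ := (fun i => 2 * i) '' F
  haveI : Finite s := (hF.image _).to_subtype
  let f : s ↪ ℕ := ⟨fun x => x.1 / 2, by
    rintro ⟨_, i, _, rfl⟩ ⟨_, j, _, rfl⟩ h
    simp only at h
    congr 1; simp only; omega⟩
  obtain ⟨g, hg⟩ := Cardinal.extend_function_of_lt f
    (by rw [Cardinal.mk_nat]; exact Cardinal.lt_aleph0_of_finite _) ⟨Equiv.refl ℕ⟩
  refine ⟨g, fun i hi => ?_⟩
  have := hg ⟨2 * i, i, hi, rfl⟩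
  simp only [f, Embedding.coeFn_mk] at this
  rw [this]; omega

theorem fk (c c' : ℕ → ℕ) (k : ℕ) : ∀ m, m ≠ 0 →
    E False k (lab c (m, 2 * k + 3)) (lab c' (m, 2 * k + 2)) (glue (2 * ·) fun _ => id) := by
  have hB : ∀ (c c' : ℕ → ℕ) k m, m ≠ 0 →
      B False (lab c (m, 2 * k + 3)) (lab c' (m, 2 * k + 2)) (glue (2 * ·) fun _ => id) := by
    intro c c' k m hm
    refine glue_B (fun a b h => by simpa using h) False.elim (by simp [lab, out]) fun i => ?_
    rw [child_lab, child_lab]
    have e1 : step c (m, 2 * k + 3) i = (2, 2 * k) := by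
      simp only [step, dl, hm, if_false]; rw [if_pos (by omega)]; rfl
    have e2 : step c' (m, 2 * k + 2) (2 * i) = (2, 2 * k) := by
      simp only [step, dl, hm, if_false]; rw [if_neg (by omega), if_pos (by omega)]; rfl
    rw [e1, e2, lab_eq c c' (2, 2 * k) (by simp)]
    exact (E_id False 0 _)
  induction k generalizing c c' with
  | zero => exact hB c c' 0
  | succ k ih =>
    intro m hm
    refine ⟨hB _ _ _ _ hm, fun S hS => ?_⟩
    obtain ⟨τ, hτ⟩ := exists_tau (List.headI '' S) (hS.image _)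
    refine ⟨glue τ fun j => if j % 2 = 0 then id else glue (2 * ·) fun _ => id,
      glue_E k τ False.elim (by simp [lab, out]) fun j => ?_, ?_⟩
    · rw [child_lab, child_lab]
      have e1 : step c (m, 2 * (k + 1) + 3) (τ j) = (2, 2 * k + 2) := by
        simp only [step, dl, hm, if_false]; rw [if_pos (by omega)]; rfl
      rw [e1]
      by_cases hj : j % 2 = 0
      · have e2 : step c' (m, 2 * (k + 1) + 2) j = (2, 2 * k + 2) := by
          simp only [step, dl, hm, if_false]; rw [if_neg (by omega), if_pos hj]; rfl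
        rw [e2, if_pos hj, lab_eq c c' (2, 2 * k + 2) (by simp)]
        exact E_id _ _ _
      · have e2 : step c' (m, 2 * (k + 1) + 2) j = (2, 2 * k + 3) := by
          simp only [step, dl, hm, if_false]; rw [if_neg (by omega), if_neg hj]; rfl
        rw [e2, if_neg hj]
        exact ih c' c 2 (by decide)
    · intro s hs
      rcases s with _ | ⟨i, s⟩
      · rfl
      · have := hτ i ⟨_, hs, rfl⟩
        simp [glue, this]

def c0 (n : ℕ) : ℕ := 2 * n + 3
def c1 (N : ℕ) (n : ℕ) : ℕ := if n = N then 2 * n + 2 else 2 * n + 3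

theorem spine (N : ℕ) (d : ℕ) : ∀ (P : Prop) n, n + d = N →
    ∃ f, E P N (lab c0 (0, n)) (lab (c1 N) (0, n)) f := by
  have junk : ∀ n i, i ≠ 0 → ∃ f, E False N (child (lab c0 (0, n)) i) (child (lab (c1 N) (0, n)) i) f := by
    intro n i hi
    rw [child_lab, child_lab]
    by_cases h1 : i = 1
    · subst h1
      by_cases h2 : n = N
      · subst h2
        exact ⟨_, by simpa [step, c0, c1] using fk c0 (c1 n) n 1 (by decide)⟩
      · refine ⟨id, ?_⟩
        have e1 : step c0 (0, n) 1 = (1, 2 * n + 3) := by simp [step, c0]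
        have e2 : step (c1 N) (0, n) 1 = (1, 2 * n + 3) := by simp [step, c1, h2]
        rw [e1, e2, lab_eq c0 (c1 N) (1, 2 * n + 3) (by simp)]
        exact E_id _ _ _
    · refine ⟨id, ?_⟩
      have e1 : ∀ c, step c (0, n) i = (2, 0) := fun c => by simp [step, hi, h1]
      rw [e1, e1, lab_eq c0 (c1 N) (2, 0) (by simp)]
      exact E_id _ _ _
  have fin : ∀ (P : Prop) n, (∃ f, E False N (lab c0 (0, n + 1)) (lab (c1 N) (0, n + 1)) f) →
      ∃ f, E P N (lab c0 (0, n)) (lab (c1 N) (0, n)) f := by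
    intro P n h
    have : ∀ i, ∃ f, E False N (child (lab c0 (0, n)) i) (child (lab (c1 N) (0, n)) i) f := by
      intro i
      by_cases hi : i = 0
      · subst hi; exact h
      · exact junk n i hi
    choose f hf using this
    exact ⟨_, glue_E N (Equiv.refl ℕ) (fun _ _ => rfl) (by rfl) hf⟩
  induction d with
  | zero =>
    intro P n h
    refine fin P n ⟨id, ?_⟩
    rw [lab_eq c0 (c1 N) (0, n + 1) fun _ j hj => by
      simp only [c0, c1]; rw [if_neg (by simp at hj; omega)]]
    exact E_id _ _ _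
  | succ d ih => intro P n h; exact fin P n (ih False (n + 1) (by omega))

/-- level formulas -/
def zeta : ℕ → ℕ → Fm
  | 0, v => .eq (Tm.zero.mul (.var v)) .one
  | k + 1, v => .all (v + 1) ((Fm.and (.eq (Tm.one.mul (.var (v + 1))) (.var v))
      (.neg (.eq (.var (v + 1)) (.var v)))).imp (.neg (zeta k (v + 1))))

theorem zeta_free (k : ℕ) : ∀ v i, (zeta k v).free i → i = v := by
  induction k with
  | zero => intro v i h; simpa [zeta, Fm.free, Tm.occ] using h
  | succ k ih =>
    intro v i h
    simp only [zeta, Fm.free, Tm.occ, Fm.imp, false_or] at h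
    have := ih (v + 1) i
    tauto

def stt (c : ℕ → ℕ) (s : LN) : ℕ × ℕ := s.foldl (step c) (0, 0)

theorem stt_concat (c s i) : stt c (s ++ [i]) = step c (stt c s) i := by simp [stt]

theorem zeta_sat (b : Bool) (c : ℕ → ℕ) (k : ℕ) : ∀ v (ρ : ℕ → MM) s, ρ v = inr s →
    (stt c s).1 ≠ 0 → (k = 0 → (stt c s).1 ≠ 1) →
    ((stt c s).2 = 2 * k + 1 → Sat (Md b (lab c (0, 0))) (zeta k v) ρ) ∧
    ((stt c s).2 = 2 * k → ¬ Sat (Md b (lab c (0, 0))) (zeta k v) ρ) := by
  induction k with
  | zero =>
    intro v ρ s hv h0 h1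
    have h1 := h1 rfl
    have : lab c (0, 0) s = out (stt c s) := rfl
    constructor <;> intro h <;> simp [zeta, Sat, Tm.eval, hv, mulM, this, out, h0, h1, h]
  | succ k ih =>
    intro v ρ s hv h0 _
    simp only [zeta, Sat, sat_imp, Tm.eval, update_self, update_of_ne (show v ≠ v + 1 by omega), hv]
    constructor
    · rintro h x ⟨h1, h2⟩
      rcases x with n | t
      · simp [mulM] at h1
      · simp only [mulM, one_ne_zero, if_false, inr.injEq] at h1 h2
        have ht : t ≠ [] := by rintro rfl; exact h2 h1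
        obtain ⟨i, hi⟩ : ∃ i, t = s ++ [i] := ⟨t.getLast ht, by rw [← h1, List.dropLast_append_getLast]⟩
        have e : stt c t = (2, 2 * k) := by
          rw [hi, stt_concat]; simp only [step, dl, h0, if_false, h]; rw [if_pos (by omega)]; rfl
        exact (ih (v + 1) _ t (update_self ..) (by simp [e]) (by simp [e])).2 (by simp [e])
    · intro h H
      have e : stt c (s ++ [1]) = (2, 2 * k + 1) := by
        rw [stt_concat]; simp only [step, dl, h0, if_false, h]; rw [if_neg (by omega), if_neg (by omega)]; rfl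
      exact H (inr (s ++ [1])) ⟨by simp [mulM], by simp⟩
        ((ih (v + 1) _ _ (update_self ..) (by simp [e]) (by simp [e])).1 (by simp [e]))

def pw : ℕ → Tm
  | 0 => .var 0
  | n + 1 => Tm.one.mul (pw n)

theorem pw_occ (n i) : (pw n).occ i → i = 0 := by
  induction n with
  | zero => exact id
  | succ n ih => simpa [pw, Tm.occ] using ih

theorem pw_eval (b L) (ρ : ℕ → MM) (s) (h : ρ 0 = inr s) (n : ℕ) :
    (pw n).eval (Md b L) ρ = inr (s.take (s.length - n)) := by
  induction n with
  | zero => simp [pw, Tm.eval, h]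
  | succ n ih =>
    simp only [pw, Tm.eval, ih, mulM, one_ne_zero, if_false, List.dropLast_eq_take, List.take_take,
      List.length_take]
    congr 2; omega

theorem take_eq (s : LN) (n : ℕ) :
    s.take (s.length - n) = s.take (s.length - (n + 1)) ↔ s.length ≤ n := by
  constructor
  · intro h; have := congrArg List.length h; simp at this; omega
  · intro h; congr 1; omega

def theta (N : ℕ) : Fm := .all 0 ((Fm.and (.eq (Tm.zero.mul (.var 0)) (Tm.one.add .one))
  (.and (.eq (pw (N + 1)) (pw (N + 2))) (.neg (.eq (pw N) (pw (N + 1)))))).imp (zeta (N + 1) 0))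

theorem theta_closed (N) : Closed (theta N) := by
  intro i h
  simp only [theta, Fm.free, Tm.occ, Fm.imp, false_or] at h
  have := zeta_free (N + 1) 0 i
  have := pw_occ N i
  have := pw_occ (N + 1) i
  have := pw_occ (N + 2) i
  tauto

theorem stt_inv (c) (s : LN) : ((stt c s).1 = 0 → (stt c s).2 = s.length) ∧
    ((stt c s).1 = 1 → (stt c s).2 = c (s.length - 1)) := by
  induction s using List.reverseRecOn with
  | nil => simp [stt]
  | append_singleton s i ih =>
    rw [stt_concat]; unfold step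
    split_ifs with h1 h2 h3 <;> simp [ih.1, *]

theorem theta_true (b N) : Models (Md b (lab c0 (0, 0))) (theta N) := by
  intro ρ x
  simp only [sat_imp, Sat, Tm.eval, update_self]
  rintro ⟨h1, h2, h3⟩
  rcases x with n | s
  · simp [mulM, addM] at h1
  · rw [pw_eval _ _ _ s (update_self ..), pw_eval _ _ _ s (update_self ..), inr.injEq, take_eq] at h2 h3
    have : lab c0 (0, 0) s = out (stt c0 s) := rfl
    simp only [mulM, addM, if_true, inl.injEq, this, out] at h1
    have e : (stt c0 s).1 = 1 := by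
      by_contra e; rw [if_neg e] at h1; split_ifs at h1 <;> omega
    refine (zeta_sat b c0 (N + 1) 0 _ s (update_self ..) (by omega) (by omega)).1 ?_
    rw [(stt_inv c0 s).2 e, c0]; omega

theorem stt_rep (c n) : stt c (List.replicate n 0) = (0, n) := by
  induction n with
  | zero => rfl
  | succ n ih => rw [List.replicate_succ', stt_concat, ih]; simp [step]

theorem theta_false (b N ρ) : ¬ Sat (Md b (lab (c1 N) (0, 0))) (theta N) ρ := by
  intro h
  have e : stt (c1 N) (List.replicate N 0 ++ [1]) = (1, 2 * N + 2) := by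
    rw [stt_concat, stt_rep]; simp [step, c1]
  have := h (inr (List.replicate N 0 ++ [1]))
  simp only [sat_imp, Sat, Tm.eval, update_self] at this
  refine (zeta_sat b (c1 N) (N + 1) 0 _ _ (update_self ..) (by simp [e]) (by omega)).2
    (by rw [e]; rfl) (this ⟨?_, ?_, ?_⟩)
  · have : lab (c1 N) (0, 0) (List.replicate N 0 ++ [1]) = out (stt (c1 N) _) := rfl
    simp only [mulM, addM, if_true, this, e, out]
  · rw [pw_eval _ _ _ _ (update_self ..), pw_eval _ _ _ _ (update_self ..), inr.injEq, take_eq]; simp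
  · rw [pw_eval _ _ _ _ (update_self ..), pw_eval _ _ _ _ (update_self ..), inr.injEq, take_eq]; simp

/-- the model and its theory -/
abbrev M0 (b : Bool) : Str := Md b (lab c0 (0, 0))
def Th (b : Bool) : Set Fm := {φ | Closed φ ∧ Models (M0 b) φ}

theorem prov_sound {b φ} (h : Prov (Th b) φ) : Models (M0 b) φ := h _ fun _ hψ => hψ.2

theorem Lev.mono {b n φ} (h : Lev b n φ) : Lev b (n + 1) φ := by
  induction h with
  | d0 b a => exact .up b 0 (.d0 _ a)
  | up b n _ ih => exact .up b _ ih
  | ex n v _ ih => exact .ex _ v ih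
  | all n v _ ih => exact .all _ v ih

theorem not_restricted (b) : ¬ Restricted (Th b) := by
  rintro ⟨n, A, hA, H⟩
  obtain ⟨f, hf⟩ := spine n n True 0 (by omega)
  have h1 : ∀ φ ∈ A, Models (Md b (lab (c1 n) (0, 0))) φ := by
    intro φ hφ ρ
    have m : Models (M0 b) φ := ((H φ (hA φ hφ).1).2 fun S hS => hS φ hφ).2
    have l : Lev true (n + 1) φ := (hA φ hφ).2.mono
    have := ((pres b n).next hf l rfl fun _ => inl 0).1 rfl (m _)
    exact (sat_congr _ φ fun i hi => ((hA φ hφ).1 i hi).elim).1 this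
  exact theta_false b n (fun _ => inl 0)
    ((H _ (theta_closed n)).1 ⟨theta_closed n, theta_true b n⟩ _ h1 _)

theorem th_theory (b) : IsTheory (Th b) := ⟨fun _ h => h.1, fun _ h h' => ⟨h, prov_sound h'⟩⟩

theorem th_nrestr (b) : NRestr (Th b) := by
  rintro U hU ⟨S, hS⟩ - hsub
  have : U = Th b := by
    refine Set.Subset.antisymm (fun φ hφ => ⟨hU.1 φ hφ, fun ρ => ?_⟩) hsub
    by_contra h
    have : Fm.neg φ ∈ Th b := ⟨hU.1 φ hφ, fun ρ' h' =>
      h ((sat_congr _ φ fun i hi => (hU.1 φ hφ i hi).elim).1 h')⟩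
    exact hS _ (hsub this) (fun _ => S.zero) (hS _ hφ _)
  rw [this]; exact not_restricted b

def sg (i : ℕ) : ℕ := if i < 2 then i else i + 1

theorem hom_shift : Hom (lab c0 (0, 0)) (lab c0 (0, 0)) (glue sg fun _ => id) := by
  have hi : Injective sg := fun a b h => by unfold sg at h; split_ifs at h <;> omega
  have hB : B False (lab c0 (0, 0)) (lab c0 (0, 0)) (glue sg fun _ => id) := by
    refine glue_B hi False.elim rfl fun i => ?_
    rw [child_lab, child_lab]
    have : step c0 (0, 0) (sg i) = step c0 (0, 0) i := by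
      unfold sg; split_ifs with h
      · rfl
      · simp [step, show i ≠ 0 by omega, show i ≠ 1 by omega]
    rw [this]; exact E_id False 0 _
  refine ⟨hB.inj, hB.drop, hB.lab, fun a b => ?_⟩
  simp only [rel_iff]
  constructor
  · rintro ⟨i, hi, h1, h2⟩
    rcases a with _ | ⟨j, s⟩ <;> rcases b with _ | ⟨l, t⟩ <;> simp [glue] at h1 h2
    obtain ⟨h1, rfl⟩ := h1; obtain ⟨h2, rfl⟩ := h2
    unfold sg at h1 h2
    refine ⟨j, by split_ifs at h1 <;> omega, rfl, ?_⟩
    congr 1; split_ifs at h1 h2 <;> omega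
  · rintro ⟨i, hi, rfl, rfl⟩
    exact ⟨i + 1, by omega, by simp [glue, sg, show ¬ i < 2 by omega],
      by simp [glue, sg, show ¬ i + 1 < 2 by omega]⟩

def sig0 : Fm := .all 1 ((Fm.lt (.var 1) (.var 0)).imp
  ((Fm.eq ((Tm.var 1).add .one) (.var 1)).imp (.eq (.var 1) (.var 0))))

theorem th_not_mrdp (b) : ¬ MRDP (Th b) := by
  intro h
  obtain ⟨ε, hε, H⟩ := h sig0 (.up _ _ (.d0 _ (.ball _ _ (by simp [Tm.occ])
    (.neg (.and (.eq _ _) (.neg (.eq _ _)))))))
  have H := prov_sound H
  have h1 : Sat (M0 b) sig0 fun _ => inr [2] := by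
    intro x
    simp only [sat_imp, Sat, Tm.eval, update_self, update_of_ne (show (0 : ℕ) ≠ 1 by decide)]
    rcases x with n | a
    · simp [addM]
    · rintro (rfl | h) _
      · rfl
      · obtain ⟨i, hi, -, h⟩ := rel_iff.1 h
        simp at h; omega
  have h2 := hom_shift.exist (c := b) hε _ (((sat_iff ..).1 (H _)).1 h1)
  have h3 := ((sat_iff ..).1 (H _)).2 h2 (inr [2])
  simp [Sat, Tm.eval, glue, sg, ltM, addM, rel] at h3

end Pool.Agent.H85.Rc
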