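import Pool.Agent.H85.RcB

namespace Pool.Agent.H85.Rc
open Sum Function

theorem iso_sat {S S' : Str} (e : S.M ≃ S'.M) (h0 : e S.zero = S'.zero) (h1 : e S.one = S'.one)
    (ha : ∀ x y, e (S.add x y) = S'.add (e x) (e y)) (hm : ∀ x y, e (S.mul x y) = S'.mul (e x) (e y))
    (hl : ∀ x y, S.lt x y ↔ S'.lt (e x) (e y)) (φ : Fm) :
    ∀ ρ, Sat S φ ρ ↔ Sat S' φ (e ∘ ρ) := by
  have ht : ∀ (t : Tm) ρ, t.eval S' (e ∘ ρ) = e (t.eval S ρ) := by
    intro t ρ
    induction t with
    | var i => rfl
    | zero => exact h0.symm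
    | one => exact h1.symm
    | add s t a b => simp only [Tm.eval, a, b, ha]
    | mul s t a b => simp only [Tm.eval, a, b, hm]
  induction φ with
  | eq s t => intro ρ; simp only [Sat, ht, e.injective.eq_iff]
  | lt s t => intro ρ; simp only [Sat, ht, hl]
  | neg φ ih => intro ρ; simp only [Sat, ih]
  | and φ ψ a b => intro ρ; simp only [Sat, a, b]
  | all v φ ih =>
    intro ρ; simp only [Sat, ih, comp_update]
    exact ⟨fun h y => by simpa using h (e.symm y), fun h x => h _⟩
  | ex v φ ih =>
    intro ρ; simp only [Sat, ih, comp_update]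
    exact ⟨fun ⟨x, h⟩ => ⟨_, h⟩, fun ⟨y, h⟩ => ⟨e.symm y, by simpa using h⟩⟩

theorem prim_rel : PrimrecRel rel := by
  unfold rel
  refine PrimrecPred.and (Primrec.eq.comp (Primrec.list_length.comp Primrec.fst) (Primrec.const 1))
    (PrimrecPred.and (Primrec.nat_le.comp (Primrec.const 2) (Primrec.list_headI.comp Primrec.fst))
      (Primrec.eq.comp Primrec.snd (Primrec.list_cons.comp
        (Primrec.succ.comp (Primrec.list_headI.comp Primrec.fst)) (Primrec.const []))))

theorem prim_dl : Primrec₂ dl := by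
  unfold dl
  have m1 : Primrec fun p : ℕ × ℕ => p.1 % 2 := Primrec.nat_mod.comp Primrec.fst (Primrec.const 2)
  have m2 : Primrec fun p : ℕ × ℕ => p.2 % 2 := Primrec.nat_mod.comp Primrec.snd (Primrec.const 2)
  exact Primrec.ite (Primrec.eq.comp m1 (Primrec.const 1))
    (Primrec.nat_sub.comp Primrec.fst (Primrec.const 3))
    (Primrec.ite (Primrec.eq.comp m2 (Primrec.const 0))
      (Primrec.nat_sub.comp Primrec.fst (Primrec.const 2))
      (Primrec.nat_sub.comp Primrec.fst (Primrec.const 1)))

theorem prim_step : Primrec₂ (step c0) := by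
  unfold step c0
  have a1 : Primrec fun p : (ℕ × ℕ) × ℕ => p.1.1 := Primrec.fst.comp Primrec.fst
  have a2 : Primrec fun p : (ℕ × ℕ) × ℕ => p.1.2 := Primrec.snd.comp Primrec.fst
  exact Primrec.ite (Primrec.eq.comp a1 (Primrec.const 0))
    (Primrec.ite (Primrec.eq.comp Primrec.snd (Primrec.const 0))
      ((Primrec.const 0).pair (Primrec.succ.comp a2))
      (Primrec.ite (Primrec.eq.comp Primrec.snd (Primrec.const 1))
        ((Primrec.const 1).pair (Primrec.nat_add.comp (Primrec.nat_mul.comp (Primrec.const 2) a2)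
          (Primrec.const 3)))
        (Primrec.const (2, 0))))
    ((Primrec.const 2).pair (prim_dl.comp a2 Primrec.snd))

theorem prim_out : Primrec out := by
  unfold out
  exact Primrec.ite (Primrec.eq.comp Primrec.fst (Primrec.const 1)) (Primrec.const 2)
    (Primrec.ite (PrimrecPred.and (PrimrecPred.not (Primrec.eq.comp Primrec.fst (Primrec.const 0)))
      (Primrec.eq.comp Primrec.snd (Primrec.const 1))) (Primrec.const 1) (Primrec.const 0))

theorem prim_lab : Primrec (lab c0 (0, 0)) := by
  unfold lab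
  exact prim_out.comp (Primrec.list_foldl Primrec.id (Primrec.const (0, 0))
    (prim_step.comp (Primrec.fst.comp Primrec.snd) (Primrec.snd.comp Primrec.snd)).to₂)

theorem prim_drop : Primrec (List.dropLast : LN → LN) := by
  have : (List.dropLast : LN → LN) = fun s => s.reverse.tail.reverse := by
    funext s; simp
  rw [this]
  exact Primrec.list_reverse.comp (Primrec.list_tail.comp Primrec.list_reverse)

theorem prim_cases {β : Type} [Primcodable β] {F : MM → MM → β}
    (h1 : Primrec₂ fun n m => F (inl n) (inl m)) (h2 : Primrec₂ fun n a => F (inl n) (inr a))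
    (h3 : Primrec₂ fun a n => F (inr a) (inl n)) (h4 : Primrec₂ fun a b => F (inr a) (inr b)) :
    Primrec₂ F := by
  have l : Primrec₂ fun (y : MM) n => F (inl n) y :=
    (Primrec.sumCasesOn (f := fun p : MM × ℕ => p.1) Primrec.fst
      (h1.comp (Primrec.snd.comp Primrec.fst) Primrec.snd).to₂
      (h2.comp (Primrec.snd.comp Primrec.fst) Primrec.snd).to₂).of_eq fun p => by
        rcases p with ⟨y | y, n⟩ <;> rfl
  have r : Primrec₂ fun (y : MM) a => F (inr a) y :=
    (Primrec.sumCasesOn (f := fun p : MM × LN => p.1) Primrec.fst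
      (h3.comp (Primrec.snd.comp Primrec.fst) Primrec.snd).to₂
      (h4.comp (Primrec.snd.comp Primrec.fst) Primrec.snd).to₂).of_eq fun p => by
        rcases p with ⟨y | y, n⟩ <;> rfl
  exact (Primrec.sumCasesOn (f := fun p : MM × MM => p.1) Primrec.fst
      (l.comp (Primrec.snd.comp Primrec.fst) Primrec.snd).to₂
      (r.comp (Primrec.snd.comp Primrec.fst) Primrec.snd).to₂).of_eq fun p => by
        rcases p with ⟨y | y, n⟩ <;> rfl

theorem prim_add (b : Bool) : Primrec₂ (addM b) := by
  refine prim_cases (Primrec.sumInl.comp Primrec.nat_add) (Primrec.sumInr.comp Primrec.snd)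
    (Primrec.sumInr.comp Primrec.fst) (Primrec.sumInr.comp ?_)
  cases b
  · exact (Primrec.ite prim_rel Primrec.snd Primrec.fst).of_eq fun _ => rfl
  · exact (Primrec.ite (prim_rel.comp Primrec.snd Primrec.fst) Primrec.fst Primrec.snd).of_eq
      fun _ => rfl

theorem prim_mul : Primrec₂ (mulM (lab c0 (0, 0))) :=
  prim_cases (Primrec.sumInl.comp Primrec.nat_mul)
    (Primrec.ite (Primrec.eq.comp Primrec.fst (Primrec.const 0))
      (Primrec.sumInl.comp (prim_lab.comp Primrec.snd)) (Primrec.sumInr.comp (prim_drop.comp Primrec.snd)))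
    (Primrec.ite (Primrec.eq.comp Primrec.snd (Primrec.const 0)) (Primrec.const (inl 0))
      (Primrec.sumInr.comp Primrec.fst))
    (Primrec.sumInr.comp Primrec.fst)

def ltB : MM → MM → Bool
  | inl n, inl m => decide (n < m)
  | inl _, inr _ => true
  | inr _, inl _ => false
  | inr a, inr b => decide (a = b ∨ rel a b)

theorem ltB_iff (x y : MM) : ltM x y ↔ ltB x y = true := by
  rcases x with n | a <;> rcases y with m | b <;> simp [ltM, ltB]

theorem prim_lt : Primrec₂ ltB :=
  prim_cases Primrec.nat_lt.decide (Primrec.const true) (Primrec.const false)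
    (PrimrecPred.or Primrec.eq prim_rel).decide

noncomputable def ee : MM ≃ ℕ := Denumerable.eqv MM

theorem prim_ee : Primrec ee := Primrec.encode.of_eq fun _ => rfl

theorem prim_ee_symm : Primrec ee.symm := by
  refine (Primrec.option_getD.comp (Primrec.decode (α := MM)) (Primrec.const (inl 0))).of_eq fun n => ?_
  have : Encodable.decode (α := MM) (Encodable.encode (ee.symm n)) = some (ee.symm n) :=
    Encodable.encodek _
  have e : Encodable.encode (ee.symm n) = n := ee.apply_symm_apply n
  rw [e] at this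
  erw [this]; rfl

theorem th_not_nrec (b) : ¬ NRec (Th b) := by
  intro h
  have a1 : Primrec fun p : ℕ × ℕ => ee.symm p.1 := prim_ee_symm.comp Primrec.fst
  have a2 : Primrec fun p : ℕ × ℕ => ee.symm p.2 := prim_ee_symm.comp Primrec.snd
  refine h ⟨ee (inl 0), ee (inl 1), fun x y => ee (addM b (ee.symm x) (ee.symm y)),
    fun x y => ee (mulM (lab c0 (0, 0)) (ee.symm x) (ee.symm y)),
    fun x y => ltM (ee.symm x) (ee.symm y),
    (prim_ee.comp ((prim_add b).comp a1 a2)).to_comp, (prim_ee.comp (prim_mul.comp a1 a2)).to_comp,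
    ?_, ?_, ?_⟩
  · rw [ComputablePred.computable_iff]
    exact ⟨fun p => ltB (ee.symm p.1) (ee.symm p.2), (prim_lt.comp a1 a2).to_comp,
      funext fun p => propext (ltB_iff _ _)⟩
  · intro φ hφ ρ
    have := (iso_sat (S := M0 b) (S' := ⟨ℕ, ee (inl 0), ee (inl 1),
      fun x y => ee (addM b (ee.symm x) (ee.symm y)),
      fun x y => ee (mulM (lab c0 (0, 0)) (ee.symm x) (ee.symm y)),
      fun x y => ltM (ee.symm x) (ee.symm y)⟩) ee rfl rfl (by simp) (by simp) (by simp) φ
      (ee.symm ∘ ρ)).1 (hφ.2 _)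
    have e : (ee : MM → ℕ) ∘ ee.symm ∘ ρ = ρ := by funext i; simp
    erw [e] at this; exact this
  · rintro ⟨e, -, h1, ha, -⟩
    have := ha (ee (inr [])) (ee (inl 1))
    simp only [Equiv.symm_apply_apply, addM] at this h1
    rw [h1] at this
    simp [Std] at this

end Pool.Agent.H85.Rc
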