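import Mathlib

/-! Syntax and semantics of the language `{0,1,+,×,<}` and the classes of theories of MP_352f7f. -/
namespace Pool.Agent.H85.Rc

/-- terms -/
inductive Tm
  | var (i : ℕ) | zero | one | add (s t : Tm) | mul (s t : Tm)

/-- formulas (named variables) -/
inductive Fm
  | eq (s t : Tm) | lt (s t : Tm) | neg (φ : Fm) | and (φ ψ : Fm)
  | all (v : ℕ) (φ : Fm) | ex (v : ℕ) (φ : Fm)

def Fm.imp (φ ψ : Fm) : Fm := .neg (.and φ (.neg ψ))
def Fm.iff (φ ψ : Fm) : Fm := .and (φ.imp ψ) (ψ.imp φ)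

/-- variable `i` occurs in the term -/
def Tm.occ : Tm → ℕ → Prop
  | .var j, i => i = j
  | .zero, _ => False
  | .one, _ => False
  | .add s t, i => s.occ i ∨ t.occ i
  | .mul s t, i => s.occ i ∨ t.occ i

/-- variable `i` is free in the formula -/
def Fm.free : Fm → ℕ → Prop
  | .eq s t, i => s.occ i ∨ t.occ i
  | .lt s t, i => s.occ i ∨ t.occ i
  | .neg φ, i => φ.free i
  | .and φ ψ, i => φ.free i ∨ ψ.free i
  | .all v φ, i => i ≠ v ∧ φ.free i
  | .ex v φ, i => i ≠ v ∧ φ.free i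

/-- sentences -/
def Closed (φ : Fm) : Prop := ∀ i, ¬ φ.free i

/-- structures for the language -/
structure Str where
  M : Type
  zero : M
  one : M
  add : M → M → M
  mul : M → M → M
  lt : M → M → Prop

def Tm.eval (S : Str) (ρ : ℕ → S.M) : Tm → S.M
  | .var i => ρ i
  | .zero => S.zero
  | .one => S.one
  | .add s t => S.add (s.eval S ρ) (t.eval S ρ)
  | .mul s t => S.mul (s.eval S ρ) (t.eval S ρ)

/-- Tarski semantics -/
def Sat (S : Str) : Fm → (ℕ → S.M) → Prop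
  | .eq s t, ρ => s.eval S ρ = t.eval S ρ
  | .lt s t, ρ => S.lt (s.eval S ρ) (t.eval S ρ)
  | .neg φ, ρ => ¬ Sat S φ ρ
  | .and φ ψ, ρ => Sat S φ ρ ∧ Sat S ψ ρ
  | .all v φ, ρ => ∀ x, Sat S φ (Function.update ρ v x)
  | .ex v φ, ρ => ∃ x, Sat S φ (Function.update ρ v x)

/-- the universal closure of `φ` holds in `S` -/
def Models (S : Str) (φ : Fm) : Prop := ∀ ρ, Sat S φ ρ

/-- `T` proves the universal closure of `φ` (semantic consequence, i.e. provability by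
the completeness theorem) -/
def Prov (T : Set Fm) (φ : Fm) : Prop := ∀ S : Str, (∀ ψ ∈ T, Models S ψ) → Models S φ

/-- quantifier-free formulas -/
inductive IsQF : Fm → Prop
  | eq (s t) : IsQF (.eq s t)
  | lt (s t) : IsQF (.lt s t)
  | neg {φ} : IsQF φ → IsQF (.neg φ)
  | and {φ ψ} : IsQF φ → IsQF ψ → IsQF (.and φ ψ)

/-- existential formulas -/
inductive IsExist : Fm → Prop
  | qf {φ} : IsQF φ → IsExist φ
  | ex (v) {φ} : IsExist φ → IsExist (.ex v φ)

/-- bounded formulas -/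
inductive IsD0 : Fm → Prop
  | eq (s t) : IsD0 (.eq s t)
  | lt (s t) : IsD0 (.lt s t)
  | neg {φ} : IsD0 φ → IsD0 (.neg φ)
  | and {φ ψ} : IsD0 φ → IsD0 ψ → IsD0 (.and φ ψ)
  | ball (v) (t : Tm) {φ} : ¬ t.occ v → IsD0 φ → IsD0 (.all v ((Fm.lt (.var v) t).imp φ))
  | bex (v) (t : Tm) {φ} : ¬ t.occ v → IsD0 φ → IsD0 (.ex v (.and (.lt (.var v) t) φ))

/-- `Lev true n` is `Σ_n`, `Lev false n` is `Π_n` (blocks may be empty) -/
inductive Lev : Bool → ℕ → Fm → Prop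
  | d0 (b) {φ} : IsD0 φ → Lev b 0 φ
  | up (b n) {φ} : Lev (!b) n φ → Lev b (n + 1) φ
  | ex (n v) {φ} : Lev true (n + 1) φ → Lev true (n + 1) (.ex v φ)
  | all (n v) {φ} : Lev false (n + 1) φ → Lev false (n + 1) (.all v φ)

/-- axioms of Robinson arithmetic; `c` selects the defining axiom of `<`:
`x < y ↔ ∃ z, (z+1) + x = y` for `c = true`, `x < y ↔ ∃ z, x + (z+1) = y` for `c = false` -/
def Qax (c : Bool) : List Fm :=
  let x := Tm.var 0; let y := Tm.var 1; let z := Tm.var 2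
  [ .neg (.eq (x.add .one) .zero),
    (Fm.eq (x.add .one) (y.add .one)).imp (.eq x y),
    (Fm.neg (.eq x .zero)).imp (.ex 1 (.eq x (y.add .one))),
    .eq (x.add .zero) x,
    .eq (x.add (y.add .one)) ((x.add y).add .one),
    .eq (x.mul .zero) .zero,
    .eq (x.mul (y.add .one)) ((x.mul y).add x),
    .eq (Tm.zero.add .one) .one,
    (Fm.lt x y).iff (.ex 2 (.eq (if c then (z.add .one).add x else x.add (z.add .one)) y)) ]

/-- deductively closed set of sentences -/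
def IsTheory (T : Set Fm) : Prop :=
  (∀ φ ∈ T, Closed φ) ∧ ∀ φ, Closed φ → Prov T φ → φ ∈ T

def Consistent (T : Set Fm) : Prop := ∃ S : Str, ∀ ψ ∈ T, Models S ψ

def Complete (T : Set Fm) : Prop := ∀ φ, Closed φ → φ ∈ T ∨ Fm.neg φ ∈ T

/-- the class `T_Q` -/
def InTQ (c : Bool) (T : Set Fm) : Prop :=
  IsTheory T ∧ Consistent T ∧ ∀ φ ∈ Qax c, Prov T φ

/-- axiomatized by `Σ_n`-sentences for some `n` -/
def Restricted (T : Set Fm) : Prop :=
  ∃ (n : ℕ) (A : Set Fm), (∀ φ ∈ A, Closed φ ∧ Lev true n φ) ∧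
    ∀ φ, Closed φ → (φ ∈ T ↔ Prov A φ)

/-- no completion is of restricted complexity -/
def NRestr (T : Set Fm) : Prop :=
  ∀ U, IsTheory U → Consistent U → Complete U → T ⊆ U → ¬ Restricted U

/-- `T` proves MRDP -/
def MRDP (T : Set Fm) : Prop :=
  ∀ σ, Lev true 1 σ → ∃ ε, IsExist ε ∧ Prov T (σ.iff ε)

/-- numerals -/
def num : ℕ → Tm
  | 0 => .zero
  | n + 1 => (num n).add .one

/-- the truth schema for bounded formulas in the two variables `0, 1`: one formula `S` which,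
with the variable `2` set to a suitable numeral, is provably equivalent to any given one -/
def TruthSchema (T : Set Fm) : Prop :=
  ∃ S : Fm, ∀ φ, IsD0 φ → (∀ i, φ.free i → i < 2) →
    ∃ e : ℕ, Prov T ((Fm.eq (.var 2) (num e)).imp (S.iff φ))

def Iso (S S' : Str) : Prop :=
  ∃ e : S.M ≃ S'.M, e S.zero = S'.zero ∧ e S.one = S'.one ∧
    (∀ x y, e (S.add x y) = S'.add (e x) (e y)) ∧ (∀ x y, e (S.mul x y) = S'.mul (e x) (e y)) ∧
    ∀ x y, S.lt x y ↔ S'.lt (e x) (e y)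

/-- the standard model -/
def Std : Str := ⟨ℕ, 0, 1, (· + ·), (· * ·), (· < ·)⟩

/-- no nonstandard recursive model -/
def NRec (T : Set Fm) : Prop :=
  ¬ ∃ (z o : ℕ) (a m : ℕ → ℕ → ℕ) (l : ℕ → ℕ → Prop), Computable₂ a ∧ Computable₂ m ∧
    ComputablePred (fun p : ℕ × ℕ => l p.1 p.2) ∧
    (∀ φ ∈ T, Models ⟨ℕ, z, o, a, m, l⟩ φ) ∧ ¬ Iso ⟨ℕ, z, o, a, m, l⟩ Std

end Pool.Agent.H85.Rc
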