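import Pool.Agent.H85.RcD

/-! Definable truth predicates for bounded formulas (compositional clauses). -/
namespace Pool.Agent.H85.Rc

/-- value of the numeral `k` -/
def nv (S : Str) (k : ℕ) : S.M := (num k).eval S fun _ => S.zero

/-- evaluate a formula with the variables `2, 3, 4, 5` set to `x, y, i, u` -/
def ap (S : Str) (Φ : Fm) (x y i u : S.M) : Prop :=
  Sat S Φ fun k => if k = 2 then x else if k = 3 then y else if k = 4 then i else u

/-- Tarski's compositional clauses for bounded formulas in the structure `S`, for a relation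
`sat φ y` (the code of `φ` is satisfied by `y`), a class `asn` of assignments and a relation
`val y i u` (the assignment `y` gives the value `u` to the variable `i`). -/
structure Comp (S : Str) (sat : Fm → S.M → Prop) (asn : S.M → Prop)
    (val : S.M → ℕ → S.M → Prop) : Prop where
  ex : ∃ y, asn y
  tot : ∀ y i, asn y → ∃! u, val y i u
  upd : ∀ y i u, asn y → ∃ y', asn y' ∧ val y' i u ∧ ∀ j w, j ≠ i → (val y' j w ↔ val y j w)
  eq : ∀ s t y ρ, asn y → (∀ i, val y i (ρ i)) → (sat (.eq s t) y ↔ s.eval S ρ = t.eval S ρ)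
  lt : ∀ s t y ρ, asn y → (∀ i, val y i (ρ i)) → (sat (.lt s t) y ↔ S.lt (s.eval S ρ) (t.eval S ρ))
  neg : ∀ φ y, IsD0 φ → asn y → (sat (.neg φ) y ↔ ¬ sat φ y)
  and : ∀ φ ψ y, IsD0 φ → IsD0 ψ → asn y → (sat (.and φ ψ) y ↔ sat φ y ∧ sat ψ y)
  ball : ∀ v (t : Tm) φ y ρ, ¬ t.occ v → IsD0 φ → asn y → (∀ i, val y i (ρ i)) →
    (sat (.all v ((Fm.lt (.var v) t).imp φ)) y ↔ ∀ y' u, asn y' → val y' v u →
      (∀ j w, j ≠ v → (val y' j w ↔ val y j w)) → S.lt u (t.eval S ρ) → sat φ y')
  bex : ∀ v (t : Tm) φ y ρ, ¬ t.occ v → IsD0 φ → asn y → (∀ i, val y i (ρ i)) →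
    (sat (.ex v (.and (.lt (.var v) t) φ)) y ↔ ∃ y' u, asn y' ∧ val y' v u ∧
      (∀ j w, j ≠ v → (val y' j w ↔ val y j w)) ∧ S.lt u (t.eval S ρ) ∧ sat φ y')

/-- `T` supports a definable truth predicate for bounded formulas: for some coding of formulas by
numbers there are formulas `Φ(x,y)` (satisfaction), `A(y)` (assignments) and `V(y,i,u)` (values)
such that the compositional clauses hold, for every standard formula, in all models of `T`. -/
def Truth (T : Set Fm) : Prop :=
  ∃ (code : Fm → ℕ) (Φ A V : Fm), (∀ k, Φ.free k → k = 2 ∨ k = 3) ∧ (∀ k, A.free k → k = 3) ∧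
    (∀ k, V.free k → k = 3 ∨ k = 4 ∨ k = 5) ∧
    ∀ S : Str, (∀ ψ ∈ T, Models S ψ) →
      Comp S (fun φ y => ap S Φ (nv S (code φ)) y y y) (fun y => ap S A y y y y)
        (fun y i u => ap S V y y (nv S i) u)

end Pool.Agent.H85.Rc
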