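import Pool.Agent.H85.RcC

namespace Pool.Agent.H85.Rc
open Sum Function

def sh (i : ℕ) : ℕ := if i = 0 then 0 else i + 1
def enc (x : ℕ → ℕ) (j : ℕ) : MM := if j = 1 then inr [] else inl (x (j - 1))

@[simp] theorem enc_sh (x i) : enc x (sh i) = inl (x i) := by
  unfold enc sh; split_ifs with h1 h2 h2 <;> simp_all
theorem sh_ne (i) : sh i ≠ 1 := by unfold sh; split_ifs <;> omega

theorem enc_update (x v y) : enc (update x v y) = update (enc x) (sh v) (inl y) := by
  funext j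
  by_cases h : j = sh v
  · subst h; simp
  · rw [update_of_ne h]; unfold enc
    split_ifs with h1
    · rfl
    · rw [update_of_ne]; intro e; apply h; unfold sh; split_ifs <;> omega

variable (b : Bool)

def Df (D : Set (ℕ → ℕ)) : Prop := ∃ ψ, IsD0 ψ ∧ ∀ x, Sat (M0 b) ψ (enc x) ↔ x ∈ D

variable {b}
theorem Df.univ : Df b Set.univ := ⟨.eq .zero .zero, .eq _ _, fun x => by simp [Sat]⟩
theorem Df.compl {D} (h : Df b D) : Df b Dᶜ := by
  obtain ⟨ψ, a, h⟩ := h; exact ⟨.neg ψ, .neg a, fun x => by simp [Sat, h]⟩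
theorem Df.inter {D D'} (h : Df b D) (h' : Df b D') : Df b (D ∩ D') := by
  obtain ⟨ψ, a, h⟩ := h; obtain ⟨ψ', a', h'⟩ := h'
  exact ⟨.and ψ ψ', .and a a', fun x => by simp [Sat, h, h']⟩

def allv (v : ℕ) (D : Set (ℕ → ℕ)) : Set (ℕ → ℕ) := {x | ∀ y, update x v y ∈ D}

theorem Df.all {D} (h : Df b D) (v) : Df b (allv v D) := by
  obtain ⟨ψ, a, h⟩ := h
  refine ⟨.all (sh v) ((Fm.lt (.var (sh v)) (.var 1)).imp
    ((Fm.neg (.eq ((Tm.var (sh v)).add .one) (.var (sh v)))).imp ψ)),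
    .ball _ _ (sh_ne v) (.neg (.and (.neg (.eq _ _)) (.neg a))), fun x => ?_⟩
  simp only [Sat, sat_imp, Tm.eval, update_self, update_of_ne (sh_ne v).symm, allv, Set.mem_setOf_eq]
  constructor
  · intro H y
    rw [← h, enc_update]; exact H (inl y) (by simp [enc, ltM]) (by simp [addM])
  · intro H z _ hz
    rcases z with y | a
    · rw [← enc_update, h]; exact H y
    · exact (hz rfl).elim

theorem Df.sInter {F : Set (Set (ℕ → ℕ))} (hF : F.Finite) (h : ∀ D ∈ F, Df b D) : Df b (⋂₀ F) := by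
  induction F, hF using Set.Finite.induction_on with
  | empty => simpa using Df.univ
  | insert _ _ ih =>
    rw [Set.sInter_insert]
    exact (h _ (Set.mem_insert ..)).inter (ih fun D hD => h D (Set.mem_insert_of_mem _ hD))

def mrg (u : ℕ → Option LN) (x : ℕ → ℕ) (i : ℕ) : MM := (u i).elim (inl (x i)) inr
def slice (R : Set (ℕ → MM)) (u : ℕ → Option LN) : Set (ℕ → ℕ) := {x | mrg u x ∈ R}

theorem mrg_update (u x v o y) :
    mrg (update u v o) (update x v y) = update (mrg u x) v (o.elim (inl y) inr) := by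
  funext i
  by_cases h : i = v
  · subst h; simp [mrg]
  · simp [mrg, update_of_ne h]

variable (b)
def Good (R : Set (ℕ → MM)) : Prop := (Set.range (slice R)).Finite ∧ ∀ u, Df b (slice R u)
variable {b}

theorem Good.compl {R} (h : Good b R) : Good b Rᶜ :=
  ⟨(h.1.image fun D => Dᶜ).subset (by rintro _ ⟨u, rfl⟩; exact ⟨_, ⟨u, rfl⟩, rfl⟩), fun u => (h.2 u).compl⟩

theorem Good.inter {R R'} (h : Good b R) (h' : Good b R') : Good b (R ∩ R') :=
  ⟨(h.1.image2 (· ∩ ·) h'.1).subset (by rintro _ ⟨u, rfl⟩; exact ⟨_, ⟨u, rfl⟩, _, ⟨u, rfl⟩, rfl⟩),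
    fun u => (h.2 u).inter (h'.2 u)⟩

theorem Good.all {R} (h : Good b R) (v) : Good b {ρ | ∀ z, update ρ v z ∈ R} := by
  have key : ∀ u, slice {ρ | ∀ z, update ρ v z ∈ R} u =
      ⋂₀ (allv v '' Set.range fun o => slice R (update u v o)) := by
    intro u; ext x
    simp only [slice, Set.mem_setOf_eq, Set.sInter_image, Set.mem_iInter, Set.forall_mem_range, allv,
      mrg_update]
    constructor
    · intro H o y; exact H _
    · intro H z
      rcases z with y | a
      · exact H none y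
      · exact H (some a) 0
  have sub : ∀ u, (Set.range fun o => slice R (update u v o)) ⊆ Set.range (slice R) := by
    rintro u _ ⟨o, rfl⟩; exact ⟨_, rfl⟩
  refine ⟨(h.1.finite_subsets.image fun S => ⋂₀ (allv v '' S)).subset ?_, fun u => ?_⟩
  · rintro _ ⟨u, rfl⟩; exact ⟨_, sub u, (key u).symm⟩
  · rw [key]
    refine Df.sInter ((h.1.subset (sub u)).image _) ?_
    rintro _ ⟨_, ⟨o, rfl⟩, rfl⟩; exact (h.2 _).all v

theorem Good.ex {R} (h : Good b R) (v) : Good b {ρ | ∃ z, update ρ v z ∈ R} := by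
  have := (h.compl.all v).compl
  convert this using 1; ext ρ
  simp only [Set.mem_setOf_eq, Set.mem_compl_iff, not_forall, not_not]

inductive GI | a | m | l | e | t | f | z0 | n1 | n0 | r0 | r1 | r2 | o
  deriving Fintype

def gs : GI → ℕ → ℕ → ℕ → Prop
  | .a, n, m, l => n + m = l
  | .m, n, m, l => n * m = l
  | .l, n, m, _ => n < m
  | .e, n, m, _ => n = m
  | .t, _, _, _ => True
  | .f, _, _, _ => False
  | .z0, _, m, l => m = 0 ∧ 0 = l
  | .n1, _, m, _ => ¬ m = 0
  | .n0, n, _, _ => ¬ n = 0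
  | .r0, n, _, l => n = 0 ∧ 0 = l
  | .r1, n, _, l => n = 0 ∧ 1 = l
  | .r2, n, _, l => n = 0 ∧ 2 = l
  | .o, _, _, l => 1 = l

theorem df_gs (p : GI) (i j k : ℕ) : Df b {x | gs p (x i) (x j) (x k)} := by
  let I := Tm.var (sh i); let J := Tm.var (sh j); let K := Tm.var (sh k)
  cases p
  · exact ⟨.eq (I.add J) K, .eq _ _, fun x => by simp [I, J, K, Sat, Tm.eval, addM, gs]⟩
  · exact ⟨.eq (I.mul J) K, .eq _ _, fun x => by simp [I, J, K, Sat, Tm.eval, mulM, gs]⟩
  · exact ⟨.lt I J, .lt _ _, fun x => by simp [I, J, Sat, Tm.eval, ltM, gs]⟩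
  · exact ⟨.eq I J, .eq _ _, fun x => by simp [I, J, Sat, Tm.eval, gs]⟩
  · exact ⟨.eq I I, .eq _ _, fun x => by simp [Sat, gs]⟩
  · exact ⟨.neg (.eq I I), .neg (.eq _ _), fun x => by simp [Sat, gs]⟩
  · exact ⟨.and (.eq J .zero) (.eq .zero K), .and (.eq _ _) (.eq _ _),
      fun x => by simp [J, K, Sat, Tm.eval, gs]⟩
  · exact ⟨.neg (.eq J .zero), .neg (.eq _ _), fun x => by simp [J, Sat, Tm.eval, gs]⟩
  · exact ⟨.neg (.eq I .zero), .neg (.eq _ _), fun x => by simp [I, Sat, Tm.eval, gs]⟩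
  · exact ⟨.and (.eq I .zero) (.eq .zero K), .and (.eq _ _) (.eq _ _),
      fun x => by simp [I, K, Sat, Tm.eval, gs]⟩
  · exact ⟨.and (.eq I .zero) (.eq .one K), .and (.eq _ _) (.eq _ _),
      fun x => by simp [I, K, Sat, Tm.eval, gs]⟩
  · exact ⟨.and (.eq I .zero) (.eq (Tm.one.add .one) K), .and (.eq _ _) (.eq _ _),
      fun x => by simp [I, K, Sat, Tm.eval, gs, addM]⟩
  · exact ⟨.eq .one K, .eq _ _, fun x => by simp [K, Sat, Tm.eval, gs]⟩

theorem good_base {G : MM → MM → MM → Prop}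
    (h : ∀ o1 o2 o3 : Option LN, ∃ p, ∀ n m l,
      G (o1.elim (inl n) inr) (o2.elim (inl m) inr) (o3.elim (inl l) inr) ↔ gs p n m l)
    (i j k : ℕ) : Good b {ρ | G (ρ i) (ρ j) (ρ k)} := by
  have key : ∀ u, ∃ p, slice {ρ | G (ρ i) (ρ j) (ρ k)} u = {x | gs p (x i) (x j) (x k)} := by
    intro u
    obtain ⟨p, hp⟩ := h (u i) (u j) (u k)
    exact ⟨p, Set.ext fun x => hp _ _ _⟩
  refine ⟨(Set.finite_range fun p : GI => {x : ℕ → ℕ | gs p (x i) (x j) (x k)}).subset ?_, fun u => ?_⟩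
  · rintro _ ⟨u, rfl⟩; obtain ⟨p, hp⟩ := key u; exact ⟨p, hp.symm⟩
  · obtain ⟨p, hp⟩ := key u; rw [hp]; exact df_gs p i j k

theorem cst (q : Prop) : ∃ p, ∀ n m l, q ↔ gs p n m l := by
  by_cases h : q
  · exact ⟨.t, by simp [gs, h]⟩
  · exact ⟨.f, by simp [gs, h]⟩

theorem good_eq (i j k : ℕ) : Good b {ρ | (fun x y _ : MM => x = y) (ρ i) (ρ j) (ρ k)} := by
  refine good_base (G := fun x y _ : MM => x = y) (fun o1 o2 o3 => ?_) i j k
  rcases o1 with _ | a <;> rcases o2 with _ | c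
  · exact ⟨.e, by simp [gs]⟩
  · exact ⟨.f, by simp [gs]⟩
  · exact ⟨.f, by simp [gs]⟩
  · exact cst ((inr a : MM) = inr c)

theorem good_lt (i j k : ℕ) : Good b {ρ | (fun x y _ : MM => ltM x y) (ρ i) (ρ j) (ρ k)} := by
  refine good_base (G := fun x y _ : MM => ltM x y) (fun o1 o2 o3 => ?_) i j k
  rcases o1 with _ | a <;> rcases o2 with _ | c
  · exact ⟨.l, by simp [gs, ltM]⟩
  · exact ⟨.t, by simp [gs, ltM]⟩
  · exact ⟨.f, by simp [gs, ltM]⟩
  · exact cst _

theorem good_add (i j k : ℕ) : Good b {ρ | (fun x y z : MM => addM b x y = z) (ρ i) (ρ j) (ρ k)} := by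
  refine good_base (G := fun x y z : MM => addM b x y = z) (fun o1 o2 o3 => ?_) i j k
  rcases o1 with _ | a <;> rcases o2 with _ | c <;> rcases o3 with _ | d <;>
    simp only [Option.elim, addM]
  · exact ⟨.a, by simp [gs]⟩
  · exact ⟨.f, by simp [gs]⟩
  · exact ⟨.f, by simp [gs]⟩
  · exact cst _
  · exact ⟨.f, by simp [gs]⟩
  · exact cst _
  · exact ⟨.f, by simp [gs]⟩
  · exact cst _

theorem good_mul (i j k : ℕ) :
    Good b {ρ | (fun x y z : MM => mulM (lab c0 (0, 0)) x y = z) (ρ i) (ρ j) (ρ k)} := by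
  refine good_base (G := fun x y z : MM => mulM (lab c0 (0, 0)) x y = z) (fun o1 o2 o3 => ?_) i j k
  rcases o1 with _ | a <;> rcases o2 with _ | c <;> rcases o3 with _ | d <;>
    simp only [Option.elim, mulM]
  · exact ⟨.m, by simp [gs]⟩
  · exact ⟨.f, by simp [gs]⟩
  · have : lab c0 (0, 0) c = 0 ∨ lab c0 (0, 0) c = 1 ∨ lab c0 (0, 0) c = 2 := by
      unfold lab out; split_ifs <;> simp
    rcases this with h | h | h
    · exact ⟨.r0, fun n m l => by split_ifs with e <;> simp [gs, h, e]⟩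
    · exact ⟨.r1, fun n m l => by split_ifs with e <;> simp [gs, h, e]⟩
    · exact ⟨.r2, fun n m l => by split_ifs with e <;> simp [gs, h, e]⟩
  · by_cases h : c.dropLast = d
    · exact ⟨.n0, fun n m l => by split_ifs with e <;> simp [gs, h, e]⟩
    · exact ⟨.f, fun n m l => by split_ifs with e <;> simp [gs, h]⟩
  · exact ⟨.z0, fun n m l => by split_ifs with e <;> simp [gs, e]⟩
  · by_cases h : a = d
    · exact ⟨.n1, fun n m l => by split_ifs with e <;> simp [gs, h, e]⟩
    · exact ⟨.f, fun n m l => by split_ifs with e <;> simp [gs, h]⟩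
  · exact ⟨.f, by simp [gs]⟩
  · exact cst _

theorem good_bin {G : MM → MM → MM → Prop} (hG : ∀ i j k, Good b {ρ | G (ρ i) (ρ j) (ρ k)})
    {s t : Tm} (hs : ∀ v, Good b {ρ | s.eval (M0 b) ρ = ρ v})
    (ht : ∀ v, Good b {ρ | t.eval (M0 b) ρ = ρ v}) (v : ℕ) :
    Good b {ρ | G (s.eval (M0 b) ρ) (t.eval (M0 b) ρ) (ρ v)} := by
  obtain ⟨K, hK⟩ := (s.add t).occ_bdd
  have := ((((hs (K + v + 1)).inter (ht (K + v + 2))).inter
    (hG (K + v + 1) (K + v + 2) v)).ex (K + v + 2)).ex (K + v + 1)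
  convert this using 1; ext ρ
  have e : ∀ (r : Tm), (∀ i, r.occ i → i < K) → ∀ y z : MM,
      r.eval (M0 b) (update (update ρ (K + v + 1) y) (K + v + 2) z) = r.eval (M0 b) ρ :=
    fun r hr y z => r.eval_congr _ fun i hi => by
      have := hr i hi
      rw [update_of_ne (by omega), update_of_ne (by omega)]
  simp only [Set.mem_setOf_eq, Set.mem_inter_iff, e s fun i hi => hK i (Or.inl hi),
    e t fun i hi => hK i (Or.inr hi), update_self,
    update_of_ne (show K + v + 1 ≠ K + v + 2 by omega), update_of_ne (show v ≠ K + v + 2 by omega),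
    update_of_ne (show v ≠ K + v + 1 by omega)]
  constructor
  · intro h; exact ⟨_, _, ⟨rfl, rfl⟩, h⟩
  · rintro ⟨_, _, ⟨rfl, rfl⟩, h⟩; exact h

theorem good_tm (t : Tm) : ∀ v, Good b {ρ | t.eval (M0 b) ρ = ρ v} := by
  induction t with
  | var i => exact fun v => good_eq i v v
  | zero =>
    intro v
    refine good_base (G := fun x _ z : MM => x = inl 0 ∧ inl 0 = z) (fun o1 o2 o3 => ?_) v v v
      |> fun h => by convert h using 2; ext; simp [Tm.eval, eq_comm]
    rcases o1 with _ | a <;> rcases o3 with _ | d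
    · exact ⟨.r0, by simp [gs]⟩
    all_goals exact ⟨.f, by simp [gs]⟩
  | one =>
    intro v
    refine good_base (G := fun _ _ z : MM => inl 1 = z) (fun o1 o2 o3 => ?_) v v v
    rcases o3 with _ | d
    · exact ⟨.o, by simp [gs]⟩
    · exact ⟨.f, by simp [gs]⟩
  | add s t a c => exact good_bin (G := fun x y z : MM => addM b x y = z) good_add a c
  | mul s t a c => exact good_bin (G := fun x y z : MM => mulM (lab c0 (0, 0)) x y = z) good_mul a c

theorem good_fm (φ : Fm) : Good b {ρ | Sat (M0 b) φ ρ} := by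
  induction φ with
  | eq s t => exact good_bin (G := fun x y _ : MM => x = y) good_eq (good_tm s) (good_tm t) 0
  | lt s t => exact good_bin (G := fun x y _ : MM => ltM x y) good_lt (good_tm s) (good_tm t) 0
  | neg φ ih => exact ih.compl
  | and φ ψ a c => exact a.inter c
  | all v φ ih => exact ih.all v
  | ex v φ ih => exact ih.ex v

def wrap (ψ : Fm) : ℕ → Fm
  | 0 => ψ
  | n + 1 => .ex (n + 2) (.and (.lt (.var (n + 2)) (.var 1))
      (.and (.eq (.var (n + 2)) (if n + 2 = 3 then .var 0 else .zero)) (wrap ψ n)))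

theorem wrap_d0 {ψ} (h : IsD0 ψ) (n) : IsD0 (wrap ψ n) := by
  induction n with
  | zero => exact h
  | succ n ih => exact .bex _ _ (by simp [Tm.occ]) (.and (.eq _ _) ih)

theorem wrap_free (ψ n i) : (wrap ψ n).free i → i < 2 ∨ (ψ.free i ∧ n + 2 ≤ i) := by
  induction n with
  | zero => intro h; by_cases e : i < 2 <;> [exact Or.inl e; exact Or.inr ⟨h, by omega⟩]
  | succ n ih =>
    rintro ⟨h1, (h | h) | (h | h) | h⟩
    · exact (h1 h).elim
    · left; cases h; omega
    · exact (h1 h).elim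
    · left; split_ifs at h
      · cases h; omega
      · exact h.elim
    · rcases ih h with h | h
      · exact Or.inl h
      · exact Or.inr ⟨h.1, by omega⟩

theorem wrap_sat (ψ : Fm) (e : ℕ) (n : ℕ) : ∀ ρ : ℕ → MM, ρ 0 = inl e → ρ 1 = inr [] →
    (Sat (M0 b) (wrap ψ n) ρ ↔
      Sat (M0 b) ψ fun i => if 2 ≤ i ∧ i < n + 2 then inl (if i = 3 then e else 0) else ρ i) := by
  induction n with
  | zero =>
    intro ρ _ _
    have : (fun i => if 2 ≤ i ∧ i < 0 + 2 then inl (if i = 3 then e else 0) else ρ i) = ρ :=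
      funext fun i => if_neg (by omega)
    rw [this]; rfl
  | succ n ih =>
    intro ρ h0 h1
    have t : ∀ z : MM, (if n + 2 = 3 then Tm.var 0 else Tm.zero).eval (M0 b) (update ρ (n + 2) z) =
        inl (if n + 2 = 3 then e else 0) := by
      intro z; split_ifs <;> simp [Tm.eval, h0]
    simp only [wrap, Sat, t, Tm.eval, update_self, update_of_ne (show 1 ≠ n + 2 by omega), h1]
    have e2 : (fun i => if 2 ≤ i ∧ i < n + 2 then inl (if i = 3 then e else 0) else
        update ρ (n + 2) (inl (if n + 2 = 3 then e else 0)) i) =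
        fun i => if 2 ≤ i ∧ i < n + 1 + 2 then inl (if i = 3 then e else 0) else ρ i := by
      funext i
      by_cases h : i = n + 2
      · subst h; simp
      · rw [update_of_ne h]; congr 1; apply propext; omega
    constructor
    · rintro ⟨_, -, rfl, h⟩
      rw [ih _ (by simp [h0]) (by simp [h1]), e2] at h; exact h
    · intro h
      refine ⟨_, by simp [ltM], rfl, ?_⟩
      rw [ih _ (by simp [h0]) (by simp [h1]), e2]; exact h

theorem num_eval (ρ) (e : ℕ) : (num e).eval (M0 b) ρ = inl e := by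
  induction e with
  | zero => rfl
  | succ e ih => simp only [num, Tm.eval, ih, addM]

theorem th_not_truth (b) : ¬ TruthSchema (Th b) := by
  rintro ⟨S, H⟩
  let u : ℕ → Option LN := fun i => if i = 1 then some [] else none
  obtain ⟨ψ, hψ, h⟩ := (good_fm (b := b) S.neg).2 u
  obtain ⟨K, hK⟩ := ψ.free_bdd
  obtain ⟨e, he⟩ := H (wrap ψ K) (wrap_d0 hψ K) fun i hi =>
    (wrap_free ψ K i hi).elim id fun h => by have := hK i h.1; omega
  let x : ℕ → ℕ := fun i => if i = 0 ∨ i = 2 then e else 0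
  have h1 := prov_sound he (mrg u x)
  rw [sat_imp, sat_iff] at h1
  have h2 := h1 (by simp only [Sat, num_eval]; simp [Tm.eval, mrg, u, x])
  rw [wrap_sat ψ e K _ (by simp [mrg, u, x]) (by simp [mrg, u]),
    sat_congr _ ψ (ρ' := enc x) fun i hi => ?_, h] at h2
  · exact iff_not_self h2
  · have := hK i hi
    by_cases h2 : 2 ≤ i
    · rw [if_pos ⟨h2, by omega⟩]
      simp only [enc, x, if_neg (show i ≠ 1 by omega)]
      congr 2; apply propext; omega
    · rw [if_neg (by omega)]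
      have : i = 0 ∨ i = 1 := by omega
      rcases this with rfl | rfl <;> simp [mrg, enc, u]

end Pool.Agent.H85.Rc
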