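import Mathlib

namespace Pool.Agent.H85.Rm1

open MeasureTheory Set Filter Metric Real
open scoped RealInnerProductSpace FourierTransform Topology ENNReal Convolution

abbrev E (n : ℕ) := EuclideanSpace ℝ (Fin n)

variable {n : ℕ}

/-- The radial function of `M`. -/
noncomputable def rad (M : Set (E n)) (x : E n) : ℝ := sSup {t : ℝ | 0 ≤ t ∧ t • x ∈ M}

/-- The `p`-th mean over `y ∈ K` of the radial function of `K - y` in direction `u`. -/
noncomputable def mean (p : ℝ) (K : Set (E n)) (u : E n) : ℝ :=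
  ((volume.real K)⁻¹ * ∫ y in K, rad ((· - y) '' K) u ^ p) ^ (1 / p)

/-- The radial `p`-th mean body. -/
def R (p : ℝ) (K : Set (E n)) : Set (E n) :=
  {x | ∃ u, ‖u‖ = 1 ∧ ∃ t, 0 ≤ t ∧ t ≤ mean p K u ∧ x = t • u}

lemma posFT {g : E n → ℂ} (hg : Integrable g) (hc : ContinuousAt g 0) {h : E n → ℝ}
    (h0 : ∀ w, 0 ≤ h w) (e : ∀ w, 𝓕 g w = h w) : Integrable h := by
  have hm : Continuous h := (Complex.continuous_re.comp (VectorFourier.fourierIntegral_continuous
    continuous_fourierChar (innerSL ℝ).continuous₂ hg)).congr fun w =>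
      (congrArg Complex.re (e w)).trans (Complex.ofReal_re _)
  have hb : ∀ w, h w ≤ ∫ x, ‖g x‖ := fun w => by
    have := VectorFourier.norm_fourierIntegral_le_integral_norm 𝐞 volume (innerₗ (E n)) g w
    change ‖𝓕 g w‖ ≤ _ at this
    rwa [e, Complex.norm_real, norm_of_nonneg (h0 w)] at this
  let F : ℕ → E n → ℝ := fun k w => rexp (-((k : ℝ) + 1)⁻¹ * ‖w‖ ^ 2) * h w
  have J : ∀ c : ℝ, 0 < c → Integrable fun w : E n =>
      Complex.exp (-c⁻¹ * ‖w‖ ^ 2 + 2 * π * Complex.I * ⟪(0 : E n), w⟫) := fun c hc =>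
    GaussianFourier.integrable_cexp_neg_mul_sq_norm_add (by simpa) _ _
  have iF : ∀ k, Integrable (F k) := fun k => by
    refine Integrable.mul_bdd (c := ∫ x, ‖g x‖) ((J _ k.cast_add_one_pos).norm.congr
      (ae_of_all _ fun w => ?_)) hm.aestronglyMeasurable (ae_of_all _ fun w => by
        rw [norm_of_nonneg (h0 w)]; exact hb w)
    simp only [inner_zero_left, Complex.ofReal_zero, mul_zero, add_zero]
    norm_cast
    exact norm_of_nonneg (exp_pos _).le
  have T : Tendsto (fun k => ∫ w, F k w) atTop (𝓝 (g 0).re) := by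
    refine ((Complex.continuous_re.tendsto _).comp ((tendsto_integral_gaussian_smul' hg hc).comp
      (tendsto_atTop_add_const_right _ 1 tendsto_natCast_atTop_atTop))).congr fun k => ?_
    have c0 : (0 : ℝ) < k + 1 := k.cast_add_one_pos
    have := VectorFourier.integral_fourierIntegral_smul_eq_flip (L := innerₗ (E n))
      continuous_fourierChar continuous_inner (J _ c0) hg
    rw [flip_innerₗ] at this
    change ∫ w, 𝓕 (fun w : E n => Complex.exp (-((k : ℝ) + 1 : ℝ)⁻¹ * ‖w‖ ^ 2 +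
      2 * π * Complex.I * ⟪(0 : E n), w⟫)) w • g w = ∫ w, _ • 𝓕 g w at this
    rw [← Complex.ofReal_re (∫ w, F k w), ← integral_complex_ofReal]
    simp only [Function.comp_apply]
    congr 1
    refine (integral_congr_ae (ae_of_all _ fun w => ?_)).trans (this.trans
      (integral_congr_ae (ae_of_all _ fun w => by simp [F, e])))
    beta_reduce
    generalize (k : ℝ) + 1 = c at c0
    rw [fourier_gaussian_innerProductSpace' (by simpa using c0)]
    simp only [Complex.ofReal_inv, div_inv_eq_mul, mul_right_comm _ (c : ℂ)]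
  refine ⟨hm.aestronglyMeasurable, ?_⟩
  rw [hasFiniteIntegral_iff_ofReal (ae_of_all _ h0)]
  have L := lintegral_liminf_le' (μ := volume) (u := atTop) (f := fun k w => ENNReal.ofReal (F k w))
    fun k => (iF k).aemeasurable.ennreal_ofReal
  simp_rw [← ofReal_integral_eq_lintegral_ofReal (iF _) (ae_of_all _ fun w =>
    mul_nonneg (exp_pos _).le (h0 w))] at L
  rw [(ENNReal.tendsto_ofReal T).liminf_eq] at L
  refine lt_of_le_of_lt (le_of_eq (lintegral_congr fun w => ?_)) (L.trans_lt ENNReal.ofReal_lt_top)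
  refine (Tendsto.liminf_eq (ENNReal.tendsto_ofReal ?_)).symm
  simpa [F] using (((tendsto_inv_atTop_zero.comp (tendsto_atTop_add_const_right _ (1 : ℝ)
    tendsto_natCast_atTop_atTop)).neg.mul_const (‖w‖ ^ 2)).rexp).mul_const (h w)

/-- The volume of the part of `K` that a translation by `z` moves out of `K`. -/
noncomputable def d (K : Set (E n)) (z : E n) : ℝ := volume.real {y ∈ K | y + z ∉ K}

lemma d_lip {K : Set (E n)} (hK : IsCompact K) (hc : Convex ℝ K) (hi : (interior K).Nonempty) :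
    ∃ C, ∀ z, d K z ≤ C ∧ d K z ≤ C * ‖z‖ := by
  obtain ⟨a, ha⟩ := hi
  obtain ⟨δ, δ0, hδ⟩ := nhds_basis_closedBall.mem_iff.1 (mem_interior_iff_mem_nhds.1 ha)
  have V0 : 0 ≤ volume.real K := measureReal_nonneg
  have h1 : ∀ z, d K z ≤ volume.real K := fun z =>
    measureReal_mono (sep_subset _ _) hK.measure_lt_top.ne
  refine ⟨max (volume.real K) ((n + 1) * volume.real K / δ), fun z => ⟨(h1 z).trans
    (le_max_left _ _), le_trans ?_ (mul_le_mul_of_nonneg_right (le_max_right _ _)
      (norm_nonneg z))⟩⟩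
  rcases eq_or_ne z 0 with rfl | z0
  · simp [d]
  have t0 : 0 < ‖z‖ / δ := div_pos (norm_pos_iff.2 z0) δ0
  rw [show (n + 1) * volume.real K / δ * ‖z‖ = (n + 1) * volume.real K * (‖z‖ / δ) by ring]
  have e : ‖(‖z‖ / δ)⁻¹ • z‖ = δ := by
    rw [norm_smul, norm_of_nonneg (inv_pos.2 t0).le]
    field_simp [norm_ne_zero_iff.2 z0]
  generalize ‖z‖ / δ = t at t0 e
  have n0 : (0 : ℝ) ≤ n := n.cast_nonneg
  rcases le_total 1 t with t1 | t1
  · nlinarith [h1 z, mul_nonneg n0 V0, mul_le_mul_of_nonneg_left t1 V0]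
  let H := AffineMap.homothety a (1 - t) '' K
  have k : ∀ y ∈ H, ∀ b ∈ closedBall a δ, y + t • (b - a) ∈ K := by
    rintro _ ⟨y, hy, rfl⟩ b hb
    convert hc hy (hδ hb) (sub_nonneg.2 t1) t0.le (by ring) using 1
    simp only [AffineMap.homothety_apply, vsub_eq_sub, vadd_eq_add]
    module
  have h2 : d K z ≤ volume.real K - volume.real H := by
    rw [← measureReal_sdiff (fun y hy => by simpa using k y hy a (mem_closedBall_self δ0.le))
      (hK.image (AffineMap.homothety_continuous _ _)).measurableSet hK.measure_lt_top.ne]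
    refine measureReal_mono (fun y hy => ⟨hy.1, fun hH => hy.2 ?_⟩)
      (measure_ne_top_of_subset sdiff_subset hK.measure_lt_top.ne)
    simpa [smul_smul, t0.ne'] using k y hH (a + t⁻¹ • z) (by simp [e])
  have h3 : volume.real H = (1 - t) ^ n * volume.real K := by
    simp [H, Measure.real, Measure.addHaar_image_homothety, abs_of_nonneg (sub_nonneg.2 t1),
      pow_nonneg (sub_nonneg.2 t1)]
  have := one_add_mul_le_pow (a := -t) (by linarith) n
  rw [← sub_eq_add_neg] at this
  nlinarith [mul_le_mul_of_nonneg_right this V0, mul_nonneg t0.le V0]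

lemma d_cont {K : Set (E n)} (hK : IsCompact K) (hc : Convex ℝ K) (hi : (interior K).Nonempty) :
    Continuous (d K) := by
  obtain ⟨C, hC⟩ := d_lip hK hc hi
  refine (LipschitzWith.of_le_add_mul' C fun z w => ?_).continuous
  have f : ∀ z, volume {y ∈ K | y + z ∉ K} ≠ ∞ := fun z =>
    measure_ne_top_of_subset (sep_subset _ _) hK.measure_lt_top.ne
  have e := measure_preimage_add_right volume w {y ∈ K | y + (z - w) ∉ K}
  refine (measureReal_mono (s₂ := {y ∈ K | y + w ∉ K} ∪ (· + w) ⁻¹' {y ∈ K | y + (z - w) ∉ K})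
    (fun y hy => ?_) (measure_union_ne_top (f _) (e ▸ f _))).trans ((measureReal_union_le _ _).trans
      (add_le_add le_rfl ?_))
  · by_cases h : y + w ∈ K
    exacts [.inr ⟨h, by simpa using hy.2⟩, .inl ⟨hy.1, h⟩]
  · rw [Measure.real, e, dist_eq_norm]
    exact (hC _).2

/-- The spectral density of the covariogram. -/
noncomputable def sp (K : Set (E n)) (w : E n) : ℝ := ‖𝓕 (K.indicator fun _ => (1 : ℂ)) w‖ ^ 2

lemma spec {K : Set (E n)} (hK : IsCompact K) (hc : Convex ℝ K) (hi : (interior K).Nonempty) :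
    Integrable (sp K) ∧ ∀ z, d K z = ∫ w, (1 - cos (2 * π * ⟪w, z⟫)) * sp K w := by
  set χ : E n → ℂ := K.indicator fun _ => 1
  have i1 : Integrable χ := (integrableOn_const hK.measure_lt_top.ne).integrable_indicator
    hK.measurableSet
  set g := (fun t => χ (-t)) ⋆[ContinuousLinearMap.mul ℂ ℂ] χ
  have ig : Integrable g := i1.comp_neg.integrable_convolution _ i1
  have e1 : ∀ z, g z = (volume.real K - d K z : ℝ) := fun z => by
    have m : MeasurableSet ((· + z) ⁻¹' K) := hK.measurableSet.preimage (by fun_prop)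
    rw [← measureReal_inter_add_sdiff (s := K) m hK.measure_lt_top.ne]
    simp only [g, convolution_def, ContinuousLinearMap.mul_apply']
    rw [← integral_neg_eq_self, show d K z = volume.real (K \ (· + z) ⁻¹' K) from rfl,
      add_sub_cancel_right, ← integral_indicator_one (hK.measurableSet.inter m),
      ← integral_complex_ofReal]
    refine integral_congr_ae (ae_of_all _ fun y => ?_)
    by_cases h1 : y ∈ K <;> by_cases h2 : y + z ∈ K <;> simp [χ, h1, h2, add_comm z]
  have cg : Continuous g := (Complex.continuous_ofReal.comp (continuous_const.sub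
    (d_cont hK hc hi))).congr fun z => (e1 z).symm
  have e2 : ∀ w, 𝓕 g w = sp K w := fun w => by
    rw [fourier_mul_convolution_eq i1.comp_neg i1, ← fourierInv_eq_fourier_comp_neg, sp,
      Complex.ofReal_pow, ← Complex.conj_mul', fourier_eq, fourierInv_eq, ← integral_conj]
    congr 2 with y
    by_cases h : y ∈ K <;> simp [χ, h, Circle.smul_def, ← Circle.coe_inv_eq_conj,
      AddChar.map_neg_eq_inv]
  have i2 : Integrable (sp K) := posFT ig cg.continuousAt (fun w => sq_nonneg _) e2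
  have i3 : ∀ z : E n, Integrable fun w => cos (2 * π * ⟪w, z⟫) * sp K w := fun z =>
    i2.bdd_mul (c := 1) (Continuous.aestronglyMeasurable (by fun_prop))
      (ae_of_all _ fun w => abs_cos_le_one _)
  have e3 : ∀ z, volume.real K - d K z = ∫ w, cos (2 * π * ⟪w, z⟫) * sp K w := fun z => by
    have i4 : Integrable (𝓕 g) := i2.ofReal.congr (ae_of_all _ fun w => (e2 w).symm)
    have := congrArg Complex.re ((e1 z).symm.trans (ig.fourierInv_fourier_eq i4
      cg.continuousAt).symm)
    rw [Complex.ofReal_re, fourierInv_eq] at this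
    rw [this, ← RCLike.re_to_complex, ← integral_re]
    · simp [e2, Circle.smul_def, fourierChar_apply, Complex.exp_re]
    · simp_rw [Circle.smul_def, smul_eq_mul]
      exact i4.bdd_mul (c := 1) (Continuous.aestronglyMeasurable (by
        have := continuous_fourierChar
        fun_prop)) (ae_of_all _ fun w => by simp)
  refine ⟨i2, fun z => ?_⟩
  have := e3 0
  simp only [inner_zero_right, mul_zero, cos_zero, one_mul] at this
  simp_rw [sub_mul, one_mul]
  rw [integral_sub i2 (i3 z), ← e3, ← this]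
  simp [d]

lemma fin {q C : ℝ} (q0 : 0 < q) (q1 : q < 1) {f : ℝ → ℝ} (hf : Continuous f)
    (h : ∀ r, 0 < r → 0 ≤ f r ∧ f r ≤ C ∧ f r ≤ C * r) :
    IntegrableOn (fun r => r ^ (-q - 1) * f r) (Ioi 0) := by
  have m : ∀ s, AEStronglyMeasurable (fun r : ℝ => r ^ (-q - 1) * f r) (volume.restrict s) :=
    fun s => Measurable.aestronglyMeasurable (by fun_prop)
  rw [← Ioc_union_Ioi_eq_Ioi zero_le_one]
  refine IntegrableOn.union (Integrable.mono' (((intervalIntegral.intervalIntegrable_rpow'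
    (a := 0) (b := 1) (r := -q) (by linarith)).1).const_mul C) (m _) ?_) (Integrable.mono'
      ((integrableOn_Ioi_rpow_of_lt (a := -q - 1) (by linarith) one_pos).mul_const C) (m _) ?_)
  · filter_upwards [ae_restrict_mem measurableSet_Ioc] with r hr
    obtain ⟨a, -, b⟩ := h r hr.1
    have := rpow_pos_of_pos hr.1 (-q - 1)
    rw [norm_of_nonneg (by positivity), show r ^ (-q) = r ^ (-q - 1) * r by
      rw [← rpow_add_one hr.1.ne']; simp]
    nlinarith
  · filter_upwards [ae_restrict_mem measurableSet_Ioi] with r hr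
    have r0 : 0 < r := one_pos.trans hr
    obtain ⟨a, b, -⟩ := h r r0
    rw [norm_of_nonneg (by positivity)]
    gcongr

lemma cosI {q : ℝ} (q0 : 0 < q) (q1 : q < 1) (t : ℝ) :
    IntegrableOn (fun r => r ^ (-q - 1) * (1 - cos (2 * π * (r * t)))) (Ioi 0) := by
  refine fin (C := 2 + 2 * π * |t|) q0 q1 (by fun_prop) fun r r0 => ?_
  have a := abs_cos_sub_cos_le 0 (2 * π * (r * t))
  rw [cos_zero, zero_sub, abs_neg, abs_mul, abs_mul r, abs_of_pos r0, abs_of_pos two_pi_pos] at a
  have b : 0 ≤ 2 * π * |t| := by positivity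
  exact ⟨sub_nonneg.2 (cos_le_one _), by linarith [neg_one_le_cos (2 * π * (r * t))],
    by nlinarith [le_abs_self (1 - cos (2 * π * (r * t)))]⟩

lemma cosV {q : ℝ} (q0 : 0 < q) (q1 : q < 1) : ∃ c : ℝ, 0 < c ∧ ∀ t : ℝ,
    ∫ r in Ioi 0, r ^ (-q - 1) * (1 - cos (2 * π * (r * t))) = c * |t| ^ q := by
  refine ⟨∫ r in Ioi 0, r ^ (-q - 1) * (1 - cos (2 * π * (r * 1))), ?_, fun t => ?_⟩
  · refine (setIntegral_pos_iff_support_of_nonneg_ae ?_ (cosI q0 q1 1)).2 ?_
    · filter_upwards [ae_restrict_mem measurableSet_Ioi] with r hr using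
        mul_nonneg (rpow_nonneg (le_of_lt hr) _) (sub_nonneg.2 (cos_le_one _))
    · refine lt_of_lt_of_le ?_ (measure_mono (s := Ioo (1 / 4) (3 / 4)) fun r hr => ?_)
      · simp
        norm_num
      have r0 : 0 < r := lt_trans (by norm_num) hr.1
      have := cos_nonpos_of_pi_div_two_le_of_le (x := 2 * π * (r * 1))
        (by nlinarith [pi_pos, hr.1]) (by nlinarith [pi_pos, hr.2])
      exact ⟨mul_ne_zero (rpow_pos_of_pos r0 _).ne' (by linarith), r0⟩
  wlog t0 : 0 ≤ t generalizing t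
  · simpa using this (-t) (by linarith)
  rcases t0.eq_or_lt with rfl | t0
  · simp [q0.ne']
  have := integral_comp_mul_left_Ioi (fun r => r ^ (-q - 1) * (1 - cos (2 * π * (r * 1)))) 0 t0
  rw [mul_zero, smul_eq_mul, eq_inv_mul_iff_mul_eq₀ t0.ne'] at this
  rw [← this, abs_of_pos t0, mul_right_comm, ← integral_const_mul]
  refine setIntegral_congr_fun measurableSet_Ioi fun r hr => ?_
  simp only [mul_one, mul_comm t r]
  have : t ^ (-q - 1) * t * t ^ q = 1 := by
    rw [← rpow_add_one t0.ne', ← rpow_add t0]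
    simp
  rw [mul_rpow (le_of_lt hr) t0.le]
  linear_combination (-(r ^ (-q - 1) * (1 - cos (2 * π * (r * t))))) * this

lemma radI {K : Set (E n)} (hK : IsCompact K) (hc : Convex ℝ K) {y x : E n} (hy : y ∈ interior K)
    (x0 : x ≠ 0) : 0 < rad ((· - y) '' K) x ∧
      ∀ r, 0 < r → (y + r • x ∉ K ↔ rad ((· - y) '' K) x < r) := by
  have e : {t : ℝ | 0 ≤ t ∧ t • x ∈ (· - y) '' K} = Ici 0 ∩ (fun t : ℝ => y + t • x) ⁻¹' K := by
    ext t
    simp [image_sub_right, add_comm]
  rw [rad, e]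
  set S := Ici 0 ∩ (fun t : ℝ => y + t • x) ⁻¹' K
  have y0 : (0 : ℝ) ∈ S := ⟨mem_Ici.2 le_rfl, by simpa using interior_subset hy⟩
  have bd : BddAbove S := by
    obtain ⟨C, hC⟩ := hK.isBounded.exists_norm_le
    refine ⟨(C + ‖y‖) / ‖x‖, fun t ht => (le_div_iff₀ (norm_pos_iff.2 x0)).2 ?_⟩
    have := norm_sub_le (y + t • x) y
    rw [add_sub_cancel_left, norm_smul, norm_of_nonneg ht.1] at this
    linarith [hC _ ht.2]
  have hs := (isClosed_Ici.inter (hK.isClosed.preimage (by fun_prop))).csSup_mem ⟨_, y0⟩ bd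
  have cv : Convex ℝ S := (convex_Ici 0).inter (by
    simpa [AffineMap.lineMap_apply, add_comm, preimage] using
      hc.affine_preimage (AffineMap.lineMap y (y + x)))
  refine ⟨?_, fun r r0 => ⟨fun h => lt_of_not_ge fun k => h (cv.ordConnected.out y0 hs
    ⟨r0.le, k⟩).2, fun h k => h.not_ge (le_csSup bd ⟨r0.le, k⟩)⟩⟩
  have : ∀ᶠ t : ℝ in 𝓝[>] 0, y + t • x ∈ K := nhdsWithin_le_nhds
    ((show Continuous fun t : ℝ => y + t • x by fun_prop).continuousAt.preimage_mem_nhds
      (by simpa using mem_interior_iff_mem_nhds.1 hy))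
  obtain ⟨t, h1, h2⟩ := (this.and self_mem_nhdsWithin).exists
  exact lt_of_lt_of_le h2 (le_csSup bd ⟨le_of_lt h2, h1⟩)

lemma psiI {K : Set (E n)} (hK : IsCompact K) (hc : Convex ℝ K) (hi : (interior K).Nonempty)
    {q : ℝ} (q0 : 0 < q) (q1 : q < 1) (x : E n) :
    IntegrableOn (fun r : ℝ => r ^ (-q - 1) * d K (r • x)) (Ioi 0) := by
  obtain ⟨C, hC⟩ := d_lip hK hc hi
  have := d_cont hK hc hi
  refine fin (C := max C (C * ‖x‖)) q0 q1 (by fun_prop) fun r r0 => ⟨measureReal_nonneg,
    (hC _).1.trans (le_max_left _ _), (hC _).2.trans ?_⟩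
  rw [norm_smul, norm_of_nonneg r0.le, mul_comm r, ← mul_assoc]
  exact mul_le_mul_of_nonneg_right (le_max_right _ _) r0.le

lemma radA {K : Set (E n)} (hK : IsCompact K) (hc : Convex ℝ K) (hi : (interior K).Nonempty)
    {q : ℝ} (q0 : 0 < q) (q1 : q < 1) {x : E n} (x0 : x ≠ 0) :
    ∫ y in K, rad ((· - y) '' K) x ^ (-q) = q * ∫ r in Ioi 0, r ^ (-q - 1) * d K (r • x) := by
  let U : Set (E n × ℝ) := {z | z.1 + z.2 • x ∉ K}
  have mU : MeasurableSet U := (hK.measurableSet.preimage (by fun_prop)).compl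
  let F : E n → ℝ → ℝ := fun y r => U.indicator (fun z => z.2 ^ (-q - 1)) (y, r)
  have mF : Measurable (Function.uncurry F) := Measurable.indicator (by fun_prop) mU
  have m : ∀ r : ℝ, MeasurableSet {y | y + r • x ∉ K} := fun r =>
    (hK.measurableSet.preimage (by fun_prop)).compl
  have e0 : ∀ r, (F · r) = {y | y + r • x ∉ K}.indicator fun _ => r ^ (-q - 1) := fun r => rfl
  have e1 : ∀ r, ∫ y in K, F y r = r ^ (-q - 1) * d K (r • x) := fun r => by
    rw [e0, integral_indicator_const _ (m r), measureReal_restrict_apply (m r), inter_comm,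
      smul_eq_mul, mul_comm]
    rfl
  have : IsFiniteMeasure (volume.restrict K) := isFiniteMeasure_restrict.2 hK.measure_lt_top.ne
  have I : Integrable (Function.uncurry F) ((volume.restrict K).prod (volume.restrict (Ioi 0))) := by
    refine (integrable_prod_iff' mF.aestronglyMeasurable).2 ⟨ae_of_all _ fun r =>
      (integrable_const (r ^ (-q - 1))).indicator (m r), (psiI hK hc hi q0 q1 x).congr ?_⟩
    filter_upwards [ae_restrict_mem measurableSet_Ioi] with r hr
    rw [← e1]
    exact integral_congr_ae (ae_of_all _ fun y => (norm_of_nonneg (r := F y r)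
      (indicator_apply_nonneg fun _ => rpow_nonneg (le_of_lt hr) _)).symm)
  simp_rw [← e1]
  rw [← integral_integral_swap I, ← integral_const_mul]
  refine integral_congr_ae ?_
  filter_upwards [ae_restrict_of_ae (compl_mem_ae_iff.2 (hc.addHaar_frontier volume)),
    ae_restrict_mem hK.measurableSet] with y h1 h2
  obtain ⟨a, b⟩ := radI hK hc (y := y) (by_contra fun k => h1 ⟨subset_closure h2, k⟩) x0
  generalize rad ((· - y) '' K) x = ρ at a b
  rw [setIntegral_congr_fun (g := (Ioi ρ).indicator (· ^ (-q - 1))) measurableSet_Ioi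
    fun r hr => by
      simp only [F, U, indicator, mem_ofPred_eq, b r hr, mem_Ioi], setIntegral_indicator measurableSet_Ioi,
      Ioi_inter_Ioi, max_eq_right a.le, integral_Ioi_rpow_of_lt (by linarith) a]
  simp only [sub_add_cancel]
  field_simp

lemma radB {K : Set (E n)} (hK : IsCompact K) (hc : Convex ℝ K) (hi : (interior K).Nonempty)
    {q : ℝ} (q0 : 0 < q) (q1 : q < 1) : ∃ c : ℝ, 0 < c ∧ ∀ x : E n,
      Integrable (fun w => |⟪w, x⟫| ^ q * sp K w) ∧
      ∫ r in Ioi 0, r ^ (-q - 1) * d K (r • x) = c * ∫ w, |⟪w, x⟫| ^ q * sp K w := by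
  obtain ⟨c, c0, hc0⟩ := cosV q0 q1
  obtain ⟨i, hs⟩ := spec hK hc hi
  refine ⟨c, c0, fun x => ?_⟩
  let F : ℝ → E n → ℝ := fun r w => r ^ (-q - 1) * (1 - cos (2 * π * (r * ⟪w, x⟫))) * sp K w
  have e1 : ∀ r, ∫ w, F r w = r ^ (-q - 1) * d K (r • x) := fun r => by
    simp_rw [hs, ← integral_const_mul, inner_smul_right, F, mul_assoc]
  have e2 : ∀ w, ∫ r in Ioi 0, F r w = c * (|⟪w, x⟫| ^ q * sp K w) := fun w => by
    rw [integral_mul_const, hc0, mul_assoc]
  have I : Integrable (Function.uncurry F) ((volume.restrict (Ioi 0)).prod volume) := by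
    refine (integrable_prod_iff (AEStronglyMeasurable.mul (Measurable.aestronglyMeasurable
      (by fun_prop)) i.1.comp_snd)).2 ⟨ae_of_all _ fun r => i.bdd_mul (c := |r ^ (-q - 1)| * 2)
        (Measurable.aestronglyMeasurable (by fun_prop)) (ae_of_all _ fun w => ?_),
          (psiI hK hc hi q0 q1 x).congr ?_⟩
    · rw [norm_mul]
      refine mul_le_mul_of_nonneg_left (abs_le.2 ⟨?_, ?_⟩) (abs_nonneg _) <;>
        linarith [cos_le_one (2 * π * (r * ⟪w, x⟫)), neg_one_le_cos (2 * π * (r * ⟪w, x⟫))]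
    filter_upwards [ae_restrict_mem measurableSet_Ioi] with r hr
    rw [← e1]
    exact integral_congr_ae (ae_of_all _ fun y => (norm_of_nonneg (mul_nonneg (mul_nonneg
      (rpow_nonneg (le_of_lt hr) _) (sub_nonneg.2 (cos_le_one _))) (sq_nonneg _))).symm)
  refine ⟨(integrable_const_mul_iff (IsUnit.mk0 c c0.ne') _).1 (I.integral_prod_right.congr
    (ae_of_all _ e2)), ?_⟩
  simp_rw [← e1]
  rw [integral_integral_swap I, ← integral_const_mul]
  exact integral_congr_ae (ae_of_all _ e2)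

lemma radR {K : Set (E n)} (hK : IsCompact K) (hc : Convex ℝ K) (hi : (interior K).Nonempty)
    {q : ℝ} (q0 : 0 < q) (q1 : q < 1) {x : E n} (x0 : x ≠ 0) : rad (R (-q) K) x ^ (-q) =
      (volume.real K)⁻¹ * q * ∫ r in Ioi 0, r ^ (-q - 1) * d K (r • x) := by
  have n0 := norm_pos_iff.2 x0
  have u1 : ‖‖x‖⁻¹ • x‖ = 1 := norm_smul_inv_norm x0
  have M0 : 0 ≤ (volume.real K)⁻¹ * ∫ y in K, rad ((· - y) '' K) (‖x‖⁻¹ • x) ^ (-q) :=
    mul_nonneg (inv_nonneg.2 measureReal_nonneg) (integral_nonneg fun y =>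
      rpow_nonneg (sSup_nonneg fun t ht => ht.1) _)
  have m0 : 0 ≤ mean (-q) K (‖x‖⁻¹ • x) := rpow_nonneg M0 _
  have e : {t : ℝ | 0 ≤ t ∧ t • x ∈ R (-q) K} = Icc 0 (mean (-q) K (‖x‖⁻¹ • x) / ‖x‖) := by
    refine Set.ext fun t => and_congr_right fun t0 => ⟨fun ⟨v, v1, s, s0, s1, h⟩ => ?_, fun h =>
      ⟨_, u1, t * ‖x‖, by positivity, (le_div_iff₀ n0).1 h, by simp [smul_smul, n0.ne']⟩⟩
    rcases t0.eq_or_lt with rfl | t0
    · positivity
    have a := congrArg norm h
    rw [norm_smul, norm_smul, v1, mul_one, norm_of_nonneg s0, norm_of_nonneg t0.le] at a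
    have : v = ‖x‖⁻¹ • x := smul_right_injective _ (a ▸ mul_pos t0 n0 : 0 < s).ne' (by
      beta_reduce
      rw [← h, ← a, smul_smul, mul_inv_cancel_right₀ n0.ne'])
    rw [le_div_iff₀ n0, a, ← this]
    exact s1
  obtain ⟨c, -, hb⟩ := radB hK hc hi q0 q1
  rw [rad, e, csSup_Icc (by positivity), div_rpow m0 n0.le, mean, one_div, rpow_inv_rpow M0
    (neg_ne_zero.2 q0.ne'), radA hK hc hi q0 q1 (norm_ne_zero_iff.1 (u1.trans_ne one_ne_zero)),
      (hb _).2, (hb _).2]
  simp_rw [inner_smul_right, abs_mul, abs_of_pos (inv_pos.2 n0), mul_rpow (inv_pos.2 n0).le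
    (abs_nonneg _), mul_assoc, integral_const_mul, inv_rpow n0.le, ← rpow_neg n0.le]
  field_simp

end Pool.Agent.H85.Rm1
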