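import Pool.Agent.H85.Rm1

namespace Pool.Agent.H85.Rm2

open MeasureTheory Set Filter Metric Real Pool.Agent.H85.Rm1
open scoped RealInnerProductSpace FourierTransform Topology ContDiff

variable {n : ℕ}

/-- The Fourier transform with kernel `exp (-i ⟪x, ξ⟫)`. -/
noncomputable def ft (φ : E n → ℝ) (ξ : E n) : ℂ :=
  ∫ x, Complex.exp (-(⟪x, ξ⟫ : ℝ) * Complex.I) * φ x

lemma ftI {φ : E n → ℝ} (h1 : ContDiff ℝ ∞ φ) (h2 : HasCompactSupport φ) :
    Integrable (ft φ) ∧ Integrable (fun x => ‖x‖ * ‖ft φ x‖) ∧ ∀ v : E n,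
      ∫ x, ((1 - cos ⟪x, v⟫ : ℝ) : ℂ) * ft φ x = ((2 * π) ^ n * (φ 0 - (φ v + φ (-v)) / 2) : ℝ) := by
  let f := (h2.comp_left (g := Complex.ofReal) rfl).toSchwartzMap
    (Complex.ofRealCLM.contDiff.comp h1)
  have t0 : (0 : ℝ) < (2 * π)⁻¹ := by positivity
  have e : ft φ = fun ξ => 𝓕 f ((2 * π)⁻¹ • ξ) := funext fun ξ => by
    rw [SchwartzMap.fourier_coe, fourier_eq']
    refine integral_congr_ae (ae_of_all _ fun x => ?_)
    simp only [inner_smul_right, smul_eq_mul]
    congr 3
    · push_cast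
      field_simp
  have i1 : Integrable (ft φ) := e ▸ (𝓕 f).integrable.comp_smul t0.ne'
  have k : ∀ v : E n, Integrable (fun x => Complex.exp ((⟪x, v⟫ : ℝ) * Complex.I) * ft φ x) ∧
      ∫ x, Complex.exp ((⟪x, v⟫ : ℝ) * Complex.I) * ft φ x = ((2 * π) ^ n * φ v : ℝ) := fun v => by
    refine ⟨i1.bdd_mul (c := 1) (Continuous.aestronglyMeasurable (by fun_prop))
      (ae_of_all _ fun x => (Complex.norm_exp_ofReal_mul_I _).le), ?_⟩
    have a := f.integrable.fourierInv_fourier_eq (𝓕 f).integrable (v := v) f.continuous.continuousAt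
    have b := Measure.integral_comp_smul volume (fun y : E n =>
      Complex.exp ((2 * π * ⟪y, v⟫ : ℝ) * Complex.I) • 𝓕 (f : E n → ℂ) y) (2 * π)⁻¹
    rw [← fourierInv_eq', a, inv_pow, inv_inv, finrank_euclideanSpace_fin,
      abs_of_pos (by positivity), Complex.real_smul] at b
    rw [Complex.ofReal_mul _ (φ v), e]
    refine (integral_congr_ae (ae_of_all _ fun x => ?_)).trans b
    simp only [real_inner_smul_left, mul_inv_cancel_left₀ two_pi_pos.ne']
    rfl
  refine ⟨i1, ?_, fun v => ?_⟩
  · refine ((((𝓕 f).integrable_pow_mul volume 1).comp_smul t0.ne').const_mul (2 * π)).congr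
      (ae_of_all _ fun x => ?_)
    simp only [e, norm_smul, pow_one, norm_of_nonneg t0.le]
    field_simp
  have : ∀ x, ((1 - cos ⟪x, v⟫ : ℝ) : ℂ) * ft φ x =
      Complex.exp ((⟪x, (0 : E n)⟫ : ℝ) * Complex.I) * ft φ x -
      (Complex.exp ((⟪x, v⟫ : ℝ) * Complex.I) * ft φ x +
        Complex.exp ((⟪x, -v⟫ : ℝ) * Complex.I) * ft φ x) / 2 := fun x => by
    have := Complex.two_cos (⟪x, v⟫ : ℝ)
    simp only [inner_neg_right, inner_zero_right]
    push_cast
    simp only [zero_mul, Complex.exp_zero]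
    linear_combination (-ft φ x / 2) * this
  simp_rw [this]
  rw [integral_sub (k 0).1 (((k v).1.fun_add (k (-v)).1).div_const 2), integral_div,
    integral_add (k v).1 (k (-v)).1, (k 0).2, (k v).2, (k (-v)).2]
  push_cast
  ring

lemma sp_neg (K : Set (E n)) (w : E n) : sp K (-w) = sp K w := by
  rw [sp, sp, ← fourierInv_eq_fourier_neg, ← Complex.norm_conj (𝓕 (K.indicator fun _ => (1 : ℂ)) w),
    fourier_eq, fourierInv_eq,
    ← integral_conj]
  congr 3 with y
  by_cases h : y ∈ K <;> simp [h, Circle.smul_def, ← Circle.coe_inv_eq_conj,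
    AddChar.map_neg_eq_inv]

variable {K : Set (E n)} (hK : IsCompact K) (hc : Convex ℝ K) (hi : (interior K).Nonempty)
include hK hc hi

lemma step {φ : E n → ℝ} (h1 : ContDiff ℝ ∞ φ) (h2 : HasCompactSupport φ) (h0 : φ 0 = 0) (r : ℝ) :
    ∫ x, (d K (r • x) : ℂ) * ft φ x = (-(2 * π) ^ n * ∫ w, sp K w * φ ((2 * π * r) • w) : ℝ) := by
  obtain ⟨i1, -, e1⟩ := ftI h1 h2
  obtain ⟨i2, e2⟩ := spec hK hc hi
  obtain ⟨B, hB⟩ := h1.continuous.bounded_above_of_compact_support h2
  have := h1.continuous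
  have i3 : ∀ a : ℝ, Integrable fun w => sp K w * φ (a • w) := fun a =>
    i2.mul_bdd (Continuous.aestronglyMeasurable (by fun_prop)) (ae_of_all _ fun w => hB _)
  have I : Integrable (Function.uncurry fun x w : E n =>
      ((1 - cos ⟪x, (2 * π * r) • w⟫ : ℝ) : ℂ) * (ft φ x * sp K w)) (volume.prod volume) :=
    (i1.mul_prod i2.ofReal).bdd_mul (c := 2) (Continuous.aestronglyMeasurable (by fun_prop))
      (ae_of_all _ fun z => by
        rw [Complex.norm_real]
        refine abs_le.2 ⟨?_, ?_⟩ <;> linarith [cos_le_one ⟪z.1, (2 * π * r) • z.2⟫,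
          neg_one_le_cos ⟪z.1, (2 * π * r) • z.2⟫])
  refine (integral_congr_ae (ae_of_all _ fun x => ?_)).trans ((integral_integral_swap I).trans ?_)
  · simp only [e2, ← integral_complex_ofReal, ← integral_mul_const, inner_smul_right]
    refine integral_congr_ae (ae_of_all _ fun w => ?_)
    simp only [real_inner_comm x w, mul_assoc]
    push_cast
    ring
  simp_rw [← mul_assoc, integral_mul_const, e1, ← Complex.ofReal_mul, integral_complex_ofReal]
  have a : ∫ w, sp K w * φ (-(2 * π * r) • w) = ∫ w, sp K w * φ ((2 * π * r) • w) := by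
    rw [← integral_neg_eq_self]
    simp [sp_neg]
  rw [show -(2 * π) ^ n * ∫ w, sp K w * φ ((2 * π * r) • w) = -(2 * π) ^ n / 2 *
    ((∫ w, sp K w * φ ((2 * π * r) • w)) + ∫ w, sp K w * φ (-(2 * π * r) • w)) by rw [a]; ring,
    ← integral_add (i3 _) (i3 _), ← integral_const_mul]
  congr 2 with w
  rw [h0, neg_smul]
  ring

variable {q : ℝ} (q0 : 0 < q) (q1 : q < 1)
include q0 q1

lemma mom : Integrable fun w : E n => ‖w‖ ^ q * sp K w := by
  obtain ⟨c, c0, hb⟩ := radB hK hc hi q0 q1
  have ms := (spec hK hc hi).1.aemeasurable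
  refine (integrable_finsetSum Finset.univ fun i _ =>
    (hb (EuclideanSpace.single i 1)).1).mono' (AEMeasurable.aestronglyMeasurable (by fun_prop))
      (ae_of_all _ fun w => ?_)
  rw [norm_of_nonneg (r := _ * sp K w) (mul_nonneg (by positivity) (sq_nonneg _)),
    ← Finset.sum_mul]
  refine mul_le_mul_of_nonneg_right (le_trans (rpow_le_rpow (norm_nonneg _) (?_ :
    _ ≤ ∑ i, |⟪w, EuclideanSpace.single i 1⟫|) q0.le) ?_) (sq_nonneg _)
  · conv_lhs => rw [← (EuclideanSpace.basisFun (Fin n) ℝ).sum_repr w]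
    exact (norm_sum_le _ _).trans (by simp [norm_smul, EuclideanSpace.inner_single_right])
  · induction (Finset.univ : Finset (Fin n)) using Finset.induction_on with
    | empty => simp [q0.ne']
    | insert i s hi ih =>
      rw [Finset.sum_insert hi, Finset.sum_insert hi]
      exact (rpow_add_le_add_rpow (abs_nonneg _) (by positivity) q0.le q1.le).trans
        (add_le_add le_rfl ih)

lemma main {φ : E n → ℝ} (h1 : ContDiff ℝ ∞ φ) (h2 : HasCompactSupport φ) (h0 : φ 0 = 0) :
    ∫ x, ((∫ r in Ioi 0, r ^ (-q - 1) * d K (r • x) : ℝ) : ℂ) * ft φ x = (-(2 * π) ^ n *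
      ∫ s in Ioi 0, ∫ w, s ^ (q - 1) * (sp K w * φ ((2 * π * s⁻¹) • w)) : ℝ) := by
  obtain ⟨i1, i2, -⟩ := ftI h1 h2
  obtain ⟨c, c0, hb⟩ := radB hK hc hi q0 q1
  have := d_cont hK hc hi
  have M := mom hK hc hi q0 q1
  have I : Integrable (Function.uncurry fun (x : E n) (r : ℝ) =>
      ((r ^ (-q - 1) * d K (r • x) : ℝ) : ℂ) * ft φ x) (volume.prod (volume.restrict (Ioi 0))) := by
    have m : AEStronglyMeasurable (Function.uncurry fun (x : E n) (r : ℝ) =>
        ((r ^ (-q - 1) * d K (r • x) : ℝ) : ℂ) * ft φ x) (volume.prod (volume.restrict (Ioi 0))) :=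
      AEStronglyMeasurable.mul (Measurable.aestronglyMeasurable (by fun_prop)) i1.1.comp_fst
    refine (integrable_prod_iff m).2 ⟨ae_of_all _ fun x => (psiI hK hc hi q0 q1 x).ofReal.mul_const
      (ft φ x), ((i1.norm.add i2).const_mul (c * ∫ w, ‖w‖ ^ q * sp K w)).mono' m.norm.integral_prod_right'
        (ae_of_all _ fun x => ?_)⟩
    rw [norm_of_nonneg (integral_nonneg fun _ => norm_nonneg _), setIntegral_congr_fun
      (g := fun r => r ^ (-q - 1) * d K (r • x) * ‖ft φ x‖) measurableSet_Ioi fun r hr => by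
        simp only [Function.uncurry_apply_pair, norm_mul, Complex.norm_real]
        rw [norm_of_nonneg (rpow_nonneg (le_of_lt hr) _), norm_of_nonneg (r := d K _)
          measureReal_nonneg], integral_mul_const, (hb x).2, Pi.add_apply, ← one_add_mul,
          ← mul_assoc, mul_assoc c _ (1 + ‖x‖), ← integral_mul_const (1 + ‖x‖)]
    gcongr c * ?_ * _
    refine integral_mono (hb x).1 (M.mul_const _) fun w => ?_
    have a : ‖x‖ ^ q ≤ 1 + ‖x‖ := (rpow_le_rpow (norm_nonneg _) (le_add_of_nonneg_left zero_le_one)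
      q0.le).trans (rpow_le_self_of_one_le (le_add_of_nonneg_right (norm_nonneg _)) q1.le)
    have b := rpow_le_rpow (abs_nonneg _) (abs_real_inner_le_norm w x) q0.le
    rw [mul_rpow (norm_nonneg _) (norm_nonneg _)] at b
    simp only [mul_right_comm _ (sp K w)]
    exact mul_le_mul_of_nonneg_right (b.trans (by gcongr)) (sq_nonneg _)
  simp_rw [← integral_complex_ofReal, ← integral_mul_const]
  rw [integral_integral_swap I]
  simp_rw [Complex.ofReal_mul, mul_assoc, integral_const_mul, step hK hc hi h1 h2 h0,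
    ← Complex.ofReal_mul, integral_complex_ofReal]
  rw [← integral_comp_rpow_Ioi _ (p := -1) (by norm_num), ← integral_const_mul]
  congr 1
  refine setIntegral_congr_fun measurableSet_Ioi fun s hs => ?_
  have : s ^ (q - 1) = s ^ (-1 - 1 : ℝ) * (s ^ (-1 : ℝ)) ^ (-q - 1) := by
    rw [← rpow_mul (le_of_lt hs), ← rpow_add hs]
    congr 1
    ring
  simp only [this, smul_eq_mul, rpow_neg_one, mul_assoc, abs_neg, abs_one]
  ring

lemma swap {o : E n → ℝ} (mo : Measurable o) {B : ℝ} (hB : ∀ x, ‖o x‖ ≤ B)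
    (h0 : ∀ x, ‖x‖ ≤ 1 → o x = 0) : Integrable (Function.uncurry fun (s : ℝ) (ξ : E n) =>
      s ^ (q - 1) * s ^ n * sp K ((s / (2 * π)) • ξ) * o ξ) ((volume.restrict (Ioi 0)).prod volume)
      ∧ (2 * π) ^ n * ∫ s in Ioi 0, ∫ w, s ^ (q - 1) * (sp K w * o ((2 * π * s⁻¹) • w)) =
        ∫ ξ, (∫ s in Ioi 0, s ^ (q - 1) * s ^ n * sp K ((s / (2 * π)) • ξ)) * o ξ := by
  have i2 := (spec hK hc hi).1
  have cs : Continuous (sp K) := (VectorFourier.fourierIntegral_continuous continuous_fourierChar
    (innerSL ℝ).continuous₂ ((integrableOn_const hK.measure_lt_top.ne).integrable_indicator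
      hK.measurableSet)).norm.pow 2
  have s0 : ∀ w, 0 ≤ sp K w := fun w => sq_nonneg _
  have e : ∀ (o : E n → ℝ) (s : ℝ), 0 < s → ∫ ξ, s ^ (q - 1) * s ^ n * sp K ((s / (2 * π)) • ξ) * o ξ
      = (2 * π) ^ n * ∫ w, s ^ (q - 1) * (sp K w * o ((2 * π * s⁻¹) • w)) := fun o s hs => by
    have b := Measure.integral_comp_smul volume (fun w : E n => sp K w * o ((2 * π * s⁻¹) • w))
      (s / (2 * π))
    simp only [smul_smul, show 2 * π * s⁻¹ * (s / (2 * π)) = 1 by field_simp, one_smul,
      finrank_euclideanSpace_fin, smul_eq_mul] at b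
    simp_rw [mul_assoc, integral_const_mul]
    rw [b, abs_of_pos (by positivity), div_pow]
    simp only [mul_assoc]
    field_simp
  have G : Integrable (Function.uncurry fun (s : ℝ) (w : E n) => s ^ (q - 1) *
      (sp K w * ‖o ((2 * π * s⁻¹) • w)‖)) ((volume.restrict (Ioi 0)).prod volume) := by
    have j : ∀ w : E n, IntegrableOn ((Ioc 0 (2 * π * ‖w‖)).indicator (· ^ (q - 1))) (Ioi 0) :=
      fun w => (((intervalIntegral.intervalIntegrable_rpow' (a := 0) (by linarith)).1
        ).integrable_indicator measurableSet_Ioc).integrableOn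
    let U : Set (ℝ × E n) := {z | z.1 ∈ Ioc 0 (2 * π * ‖z.2‖)}
    have mU : MeasurableSet U := (measurableSet_lt measurable_const measurable_fst).inter
      (measurableSet_le measurable_fst (by fun_prop))
    refine Integrable.mono' (g := fun z => U.indicator (fun z => z.1 ^ (q - 1)) z * (sp K z.2 * B))
      ((integrable_prod_iff' (Measurable.aestronglyMeasurable ((Measurable.indicator (by fun_prop)
        mU).mul (by fun_prop)))).2 ⟨ae_of_all _ fun w => (j w).mul_const (sp K w * B),
          (((mom hK hc hi q0 q1).const_mul ((2 * π) ^ q / q)).mul_const B).congr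
            (ae_of_all _ fun w => ?_)⟩) (Measurable.aestronglyMeasurable (by fun_prop))
              ((Measure.quasiMeasurePreserving_fst.ae (ae_restrict_mem measurableSet_Ioi)).mono
                fun z => ?_)
    · have B0 : 0 ≤ B := (norm_nonneg _).trans (hB 0)
      refine Eq.symm ((setIntegral_congr_fun (g := fun s => (Ioc 0 (2 * π * ‖w‖)).indicator
        (· ^ (q - 1)) s * (sp K w * B)) measurableSet_Ioi fun s hs => norm_of_nonneg (mul_nonneg
          (indicator_apply_nonneg fun _ => rpow_nonneg (le_of_lt hs) _)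
            (mul_nonneg (s0 w) B0))).trans ?_)
      rw [integral_mul_const, setIntegral_indicator measurableSet_Ioc, inter_eq_right.2
          Ioc_subset_Ioi_self, ← intervalIntegral.integral_of_le (by positivity),
          integral_rpow (.inl (by linarith)), sub_add_cancel, zero_rpow q0.ne',
          mul_rpow two_pi_pos.le (norm_nonneg _)]
      ring
    · rintro (hs : 0 < z.1)
      have := s0 z.2
      rw [Function.uncurry, norm_of_nonneg (by positivity)]
      by_cases h : z ∈ U
      · rw [indicator_of_mem h]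
        gcongr
        exact hB _
      rw [indicator_of_notMem h, h0 _ (by
        rw [norm_smul, norm_of_nonneg (by positivity), mul_right_comm, mul_inv_le_iff₀ hs, one_mul]
        exact le_of_not_ge fun k => h ⟨hs, k⟩)]
      simp
  have I : Integrable (Function.uncurry fun (s : ℝ) (ξ : E n) => s ^ (q - 1) * s ^ n *
      sp K ((s / (2 * π)) • ξ) * o ξ) ((volume.restrict (Ioi 0)).prod volume) := by
    refine (integrable_prod_iff (Measurable.aestronglyMeasurable (by fun_prop))).2 ⟨?_,
      (G.integral_prod_left.const_mul ((2 * π) ^ n)).congr ?_⟩ <;>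
        filter_upwards [ae_restrict_mem measurableSet_Ioi] with s (hs : 0 < s)
    · exact ((i2.comp_smul (R := s / (2 * π)) (by positivity)).const_mul
        (s ^ (q - 1) * s ^ n)).mul_bdd mo.aestronglyMeasurable
        (ae_of_all _ hB)
    refine (e (fun x => ‖o x‖) s hs).symm.trans (integral_congr_ae (ae_of_all _ fun ξ => ?_))
    have := s0 ((s / (2 * π)) • ξ)
    simp only [Function.uncurry_apply_pair]
    rw [norm_mul, norm_of_nonneg (r := _ * sp K _) (by positivity)]
  refine ⟨I, ?_⟩
  simp_rw [← integral_mul_const]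
  rw [← integral_integral_swap I, ← integral_const_mul]
  exact setIntegral_congr_fun measurableSet_Ioi fun s hs => (e o s hs).symm

end Pool.Agent.H85.Rm2
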