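import Mathlib

/-! A mod 2 index invariant of chord data on four strands: abstract part. -/

namespace Pool.Agent.H85.SV

open Finset Function Classical

abbrev Key := ℕ × Bool

def fl (k : Key) : Key := (k.1, !k.2)

@[simp] lemma fl_fl (k : Key) : fl (fl k) = k := by simp [fl]

lemma fl_ne (k : Key) : fl k ≠ k := by
  obtain ⟨a, o⟩ := k
  cases o <;> simp [fl]

noncomputable def I (p : Prop) : ZMod 2 := if p then 1 else 0

lemma I_congr {p q : Prop} (h : p ↔ q) : I p = I q := by rw [propext h]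

lemma I_neg {p : Prop} (h : ¬ p) : I p = 0 := if_neg h

lemma two (x : ZMod 2) : x + x = 0 := CharTwo.add_self_eq_zero x

variable {K : Finset Key} {τ τ' : Key → ℕ} {r r' : Key → Key → Prop} {a b g x y : Key}

noncomputable def F (r : Key → Key → Prop) (a g : Key) : ZMod 2 := I (r g a) + I (r g (fl a))

noncomputable def P (K : Finset Key) (r : Key → Key → Prop) (a b : Key) : ZMod 2 :=
  ∑ g ∈ K, F r a g * F (swap r) b (fl g)

def ty (τ : Key → ℕ) (a b : Key) : Prop := τ a = 0 ∧ τ (fl a) = 2 ∧ τ b = 1 ∧ τ (fl b) = 3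

noncomputable def term (K : Finset Key) (τ : Key → ℕ) (r : Key → Key → Prop) (a b : Key) : ZMod 2 :=
  if ty τ a b then P K r a b * P K (swap r) a b else 0

noncomputable def nu (K : Finset Key) (τ : Key → ℕ) (r : Key → Key → Prop) : ZMod 2 :=
  ∑ a ∈ K, ∑ b ∈ K, term K τ r a b

lemma P_symm (hK : ∀ g ∈ K, fl g ∈ K) : P K r a b = P K (swap r) b a := by
  unfold P
  refine sum_bij' (fun g _ => fl g) (fun g _ => fl g) hK hK (by simp) (by simp) fun g _ => ?_
  rw [fl_fl, mul_comm]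

lemma P_congr (hK : ∀ g ∈ K, fl g ∈ K) (h : ∀ g ∈ K, ∀ h ∈ K, r g h ↔ r' g h) (ha : a ∈ K)
    (hb : b ∈ K) : P K r a b = P K r' a b := by
  refine sum_congr rfl fun g hg => ?_
  simp only [F, swap]
  rw [I_congr (h g hg a ha), I_congr (h g hg _ (hK a ha)), I_congr (h b hb _ (hK g hg)),
    I_congr (h _ (hK b hb) _ (hK g hg))]

lemma nu_congr (hK : ∀ g ∈ K, fl g ∈ K) (ht : ∀ g ∈ K, τ g = τ' g)
    (h : ∀ g ∈ K, ∀ h ∈ K, r g h ↔ r' g h) : nu K τ r = nu K τ' r' := by
  refine sum_congr rfl fun a ha => sum_congr rfl fun b hb => ?_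
  simp only [term, ty, ht a ha, ht b hb, ht _ (hK a ha), ht _ (hK b hb), P_congr hK h ha hb,
    P_congr (r := swap r) (r' := swap r') hK (fun g hg k hk => h k hk g hg) ha hb]
  congr

lemma F_zero (hr : ∀ g h, r g h → τ g = τ h) (h1 : τ g ≠ τ a) (h2 : τ g ≠ τ (fl a)) :
    F r a g = 0 := by
  rw [F, I_neg fun h => h1 (hr _ _ h), I_neg fun h => h2 (hr _ _ h), add_zero]

lemma hr_swap (hr : ∀ g h, r g h → τ g = τ h) : ∀ g h, swap r g h → τ g = τ h :=
  fun _ _ h => (hr _ _ h).symm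

lemma P_del1 (hr : ∀ g h, r g h → τ g = τ h) (h1 : x ∉ K) (h2 : fl x ∉ K) (hx : τ x = τ (fl x))
    (ht : ty τ a b) : P (insert x (insert (fl x) K)) r a b = P K r a b := by
  have key : ∀ g, τ g = τ (fl g) → F r a g * F (swap r) b (fl g) = 0 := fun g hg => by
    obtain ⟨t1, t2, t3, t4⟩ := ht
    by_cases h : τ g = 0 ∨ τ g = 2
    · rw [F_zero (hr_swap hr) (g := fl g) (by omega) (by omega), mul_zero]
    · rw [F_zero hr (g := g) (by omega) (by omega), zero_mul]
  rw [P, sum_insert (by simp [h1, (fl_ne x).symm]), sum_insert h2, key x hx,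
    key _ (by simp [hx]), zero_add, zero_add, P]

lemma nu_del1 (hr : ∀ g h, r g h → τ g = τ h) (h1 : x ∉ K) (h2 : fl x ∉ K) (hx : τ x = τ (fl x)) :
    nu (insert x (insert (fl x) K)) τ r = nu K τ r := by
  have k1 : ∀ K' a b, τ a = τ (fl a) → term K' τ r a b = 0 := fun K' a b h =>
    if_neg fun t => by obtain ⟨t1, t2, -, -⟩ := t; omega
  have k2 : ∀ K' a b, τ b = τ (fl b) → term K' τ r a b = 0 := fun K' a b h =>
    if_neg fun t => by obtain ⟨-, -, t1, t2⟩ := t; omega
  have h3 : x ∉ insert (fl x) K := by simp [h1, (fl_ne x).symm]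
  have hx' : τ (fl x) = τ (fl (fl x)) := by simp [hx]
  simp only [nu, sum_insert h3, sum_insert h2, k1 _ x _ hx, k1 _ _ _ hx', k2 _ _ x hx,
    k2 _ _ _ hx', sum_const_zero, zero_add]
  refine sum_congr rfl fun a _ => sum_congr rfl fun b _ => ?_
  unfold term
  split_ifs with ht
  · rw [P_del1 hr h1 h2 hx ht, P_del1 (hr_swap hr) h1 h2 hx ht]
  · rfl

/-- `x` and `y` look alike from the keys in `K` -/
def Adj (K : Finset Key) (τ : Key → ℕ) (r : Key → Key → Prop) (x y : Key) : Prop :=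
  τ x = τ y ∧ ∀ g ∈ K, (r g x ↔ r g y) ∧ (r x g ↔ r y g)

lemma Adj.swap (h : Adj K τ r x y) : Adj K τ (swap r) x y :=
  ⟨h.1, fun g hg => (h.2 g hg).symm⟩

lemma sum4 (f : Key → ZMod 2) (hn : [x, y, fl x, fl y].Nodup)
    (hd : ∀ g ∈ [x, y, fl x, fl y], g ∉ K) (h1 : f x = f y) (h2 : f (fl x) = f (fl y)) :
    ∑ g ∈ [x, y, fl x, fl y].toFinset ∪ K, f g = ∑ g ∈ K, f g := by
  rw [sum_union (disjoint_left.2 fun g hg => hd g (List.mem_toFinset.1 hg)), List.sum_toFinset _ hn]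
  simp only [List.map_cons, List.map_nil, List.sum_cons, List.sum_nil, h1, h2, add_zero]
  rw [two, add_zero, two, zero_add]

lemma P_del2 (hK : ∀ g ∈ K, fl g ∈ K) (hn : [x, y, fl x, fl y].Nodup)
    (hd : ∀ g ∈ [x, y, fl x, fl y], g ∉ K) (h1 : Adj K τ r x y) (h2 : Adj K τ r (fl x) (fl y))
    (ha : a ∈ K) (hb : b ∈ K) : P ([x, y, fl x, fl y].toFinset ∪ K) r a b = P K r a b := by
  have key : ∀ x y, Adj K τ r x y → Adj K τ r (fl x) (fl y) →
      F r a x * F (swap r) b (fl x) = F r a y * F (swap r) b (fl y) := fun x y h1 h2 => by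
    simp only [F, swap]
    rw [I_congr (h1.2 a ha).2, I_congr (h1.2 _ (hK a ha)).2, I_congr (h2.2 b hb).1,
      I_congr (h2.2 _ (hK b hb)).1]
  exact sum4 _ hn hd (key _ _ h1 h2) (key _ _ h2 (by simpa using h1))

lemma P_left {X : Finset Key} (hr : ∀ g h, r g h → τ g = τ h) (h1 : Adj K τ r x y)
    (h2 : Adj K τ r (fl x) (fl y)) (hX : ∀ g ∈ X, τ (fl g) = τ x ∨ τ (fl g) = τ (fl x))
    (h3 : τ x ≠ τ b ∧ τ x ≠ τ (fl b) ∧ τ (fl x) ≠ τ b ∧ τ (fl x) ≠ τ (fl b)) :
    P (X ∪ K) r x b = P (X ∪ K) r y b := by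
  refine sum_congr rfl fun g hg => ?_
  rcases mem_union.1 hg with h | h
  · have := hX g h
    rw [F_zero (hr_swap hr) (g := fl g) (by omega) (by omega), mul_zero, mul_zero]
  · simp only [F]
    rw [I_congr (h1.2 g h).1, I_congr (h2.2 g h).1]

lemma nu_del2 (hr : ∀ g h, r g h → τ g = τ h) (hK : ∀ g ∈ K, fl g ∈ K)
    (hn : [x, y, fl x, fl y].Nodup)
    (hd : ∀ g ∈ [x, y, fl x, fl y], g ∉ K) (h1 : Adj K τ r x y) (h2 : Adj K τ r (fl x) (fl y)) :
    nu ([x, y, fl x, fl y].toFinset ∪ K) τ r = nu K τ r := by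
  set X := [x, y, fl x, fl y].toFinset
  have hX : ∀ g ∈ X, τ (fl g) = τ x ∨ τ (fl g) = τ (fl x) := fun g hg => by
    simp only [X, List.toFinset_cons, List.toFinset_nil, mem_insert, notMem_empty, or_false] at hg
    rcases hg with rfl | rfl | rfl | rfl <;> simp [h1.1, h2.1]
  have hK' : ∀ g ∈ X ∪ K, fl g ∈ X ∪ K := fun g hg => by
    rcases mem_union.1 hg with h | h
    · refine mem_union_left _ ?_
      simp only [X, List.toFinset_cons, List.toFinset_nil, mem_insert, notMem_empty, or_false]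
        at h ⊢
      rcases h with rfl | rfl | rfl | rfl <;> simp
    · exact mem_union_right _ (hK g h)
  have k1 : ∀ x y b, Adj K τ r x y → Adj K τ r (fl x) (fl y) →
      (∀ g ∈ X, τ (fl g) = τ x ∨ τ (fl g) = τ (fl x)) →
      term (X ∪ K) τ r x b = term (X ∪ K) τ r y b ∧
      term (X ∪ K) τ r b x = term (X ∪ K) τ r b y := fun x y b h1 h2 hX => by
    simp only [term, ty, ← h1.1, ← h2.1]
    constructor <;> split_ifs with ht
    · rw [P_left hr h1 h2 hX (by omega), P_left (hr_swap hr) h1.swap h2.swap hX (by omega)]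
    · rfl
    · rw [P_symm (b := x) hK', P_symm (r := swap r) (a := b) (b := x) hK', P_symm (b := y) hK',
        P_symm (r := swap r) (a := b) (b := y) hK']
      rw [P_left (r := swap (swap r)) hr h1 h2 hX (by omega),
        P_left (hr_swap hr) h1.swap h2.swap hX (by omega)]
    · rfl
  have h1' : Adj K τ r (fl (fl x)) (fl (fl y)) := by simpa using h1
  have hX' : ∀ g ∈ X, τ (fl g) = τ (fl x) ∨ τ (fl g) = τ (fl (fl x)) := by
    simpa [or_comm] using hX
  unfold nu
  rw [sum4 _ hn hd (sum_congr rfl fun b _ => (k1 x y b h1 h2 hX).1)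
    (sum_congr rfl fun b _ => (k1 _ _ b h2 h1' hX').1)]
  refine sum_congr rfl fun a ha => ?_
  rw [sum4 _ hn hd (k1 x y a h1 h2 hX).2 (k1 _ _ a h2 h1' hX').2]
  refine sum_congr rfl fun b hb => ?_
  simp only [term, X, P_del2 hK hn hd h1 h2 ha hb, P_del2 hK hn hd h1.swap h2.swap ha hb]

/-- the effect of a triangle move -/
structure Tri (K : Finset Key) (τ : Key → ℕ) (r r' : Key → Key → Prop) (T : Key → Prop)
    (σ : Key → Key) : Prop where
  inv : ∀ g, σ (σ g) = g
  mem : ∀ g ∈ K, σ g ∈ K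
  tσ : ∀ g, T g → T (σ g)
  tf : ∀ g, T g → T (fl g)
  same : ∀ g ∈ K, ∀ h ∈ K, ¬ (T g ∧ h = σ g) → (r' g h ↔ r g h)
  flip : ∀ g ∈ K, T g → (r' g (σ g) ↔ ¬ r g (σ g))
  adj : ∀ g ∈ K, T g → ∀ h ∈ K, ¬ T h → (r h g ↔ r h (σ g)) ∧ (r g h ↔ r (σ g) h)
  hex : ∀ g, T g → fl (σ g) = σ (fl (σ (fl g)))
  share : ∀ g h, T g → T h → τ g = τ h ∨ τ g = τ (fl h) ∨ τ (fl g) = τ h ∨ τ (fl g) = τ (fl h)

variable {T : Key → Prop} {σ : Key → Key}

lemma Tri.swap (h : Tri K τ r r' T σ) : Tri K τ (swap r) (swap r') T σ :=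
  ⟨h.inv, h.mem, h.tσ, h.tf,
    fun g hg k hk q => h.same k hk g hg fun ⟨q1, q2⟩ => q ⟨q2 ▸ h.tσ _ q1, by rw [q2, h.inv]⟩,
    fun g hg q => by simpa [h.inv, Function.swap] using h.flip _ (h.mem g hg) (h.tσ g q),
    fun g hg q k hk q' => (h.adj g hg q k hk q').symm, h.hex, h.share⟩

lemma Tri.F_out (h : Tri K τ r r' T σ) (hK : ∀ g ∈ K, fl g ∈ K) (ha : a ∈ K) (hT : ¬ T a)
    (hg : g ∈ K) : F r' a g = F r a g := by
  simp only [F]
  rw [I_congr (h.same g hg a ha fun q => hT (q.2 ▸ h.tσ g q.1)),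
    I_congr (h.same g hg _ (hK a ha) fun q => hT (by
      have : T (fl a) := q.2 ▸ h.tσ g q.1
      simpa using h.tf _ this))]

lemma Tri.I_in (h : Tri K τ r r' T σ) (ha : a ∈ K) (hT : T a) (hg : g ∈ K) :
    I (r' g a) = I (r g a) + if σ a = g then 1 else 0 := by
  split_ifs with q
  · subst q
    have := h.flip _ hg (h.tσ a hT)
    rw [h.inv] at this
    rw [I_congr this]
    unfold I
    split_ifs <;> rfl
  · rw [add_zero, I_congr (h.same g hg a ha fun q' => q (by rw [q'.2, h.inv]))]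

lemma Tri.P_left (h : Tri K τ r r' T σ) (hK : ∀ g ∈ K, fl g ∈ K) (ha : a ∈ K) (hb : b ∈ K)
    (hT : ¬ T b) : P K r' a b = P K r a b := by
  have h1 : ∀ g ∈ K, F (Function.swap r') b (fl g) = F (Function.swap r) b (fl g) :=
    fun g hg => h.swap.F_out hK hb hT (hK g hg)
  by_cases hTa : T a
  · have h2 : ∀ g ∈ K, F r' a g * F (Function.swap r') b (fl g) =
        F r a g * F (Function.swap r) b (fl g) +
        ((if σ a = g then F (Function.swap r) b (fl g) else 0) +
          if σ (fl a) = g then F (Function.swap r) b (fl g) else 0) := fun g hg => by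
      rw [h1 g hg, F, h.I_in ha hTa hg, h.I_in (hK a ha) (h.tf a hTa) hg, F.eq_1 r]
      split_ifs <;> ring
    rw [P, sum_congr rfl h2, sum_add_distrib, sum_add_distrib, sum_ite_eq, sum_ite_eq,
      if_pos (h.mem a ha), if_pos (h.mem _ (hK a ha)), h.hex a hTa]
    have hz := hK _ (h.mem _ (hK a ha))
    have hTz := h.tf _ (h.tσ _ (h.tf a hTa))
    have : F (Function.swap r) b (σ (fl (σ (fl a)))) = F (Function.swap r) b (fl (σ (fl a))) := by
      simp only [F, Function.swap]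
      rw [I_congr (h.adj _ hz hTz b hb hT).1,
        I_congr (h.adj _ hz hTz _ (hK b hb) fun q => hT (by simpa using h.tf _ q)).1]
    rw [this, two, add_zero, P]
  · exact sum_congr rfl fun g hg => by rw [h1 g hg, h.F_out hK ha hTa hg]

lemma Tri.P_eq (h : Tri K τ r r' T σ) (hK : ∀ g ∈ K, fl g ∈ K) (ha : a ∈ K) (hb : b ∈ K)
    (ht : ty τ a b) : P K r' a b = P K r a b := by
  by_cases hT : T b
  · rw [P_symm hK, P_symm (r := r) hK]
    refine h.swap.P_left hK hb ha fun q => ?_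
    have := h.share a b q hT
    obtain ⟨t1, t2, t3, t4⟩ := ht
    omega
  · exact h.P_left hK ha hb hT

lemma Tri.nu_eq (h : Tri K τ r r' T σ) (hK : ∀ g ∈ K, fl g ∈ K) : nu K τ r' = nu K τ r := by
  refine sum_congr rfl fun a ha => sum_congr rfl fun b hb => ?_
  unfold term
  split_ifs with ht
  · rw [h.P_eq hK ha hb ht, h.swap.P_eq hK ha hb ht]
  · rfl

lemma nu_mono (hK : ∀ g ∈ K, fl g ∈ K) (h : ℕ → ℕ)
    (hr : ∀ g ∈ K, ∀ k ∈ K, r g k → h g.1 < h k.1) : nu K τ r = 0 := by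
  refine sum_eq_zero fun a ha => sum_eq_zero fun b hb => ?_
  unfold term
  split_ifs
  · rcases le_total (h a.1) (h b.1) with q | q
    · refine mul_eq_zero_of_left (sum_eq_zero fun g hg => ?_) _
      by_cases q' : h g.1 < h a.1
      · rw [F, F, I_neg (p := swap r (fl g) b) fun k => by
          have := hr _ hb _ (hK g hg) k; simp only [fl] at this; omega,
          I_neg (p := swap r (fl g) (fl b)) fun k => by
            have := hr _ (hK b hb) _ (hK g hg) k; simp only [fl] at this; omega]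
        simp
      · rw [F, I_neg fun k => q' (hr _ hg _ ha k), I_neg (p := r g (fl a)) fun k => q' (hr g hg (fl a) (hK a ha) k)]
        simp
    · refine mul_eq_zero_of_right _ (sum_eq_zero fun g hg => ?_)
      by_cases q' : h a.1 < h g.1
      · rw [F, F, I_neg (p := swap (swap r) (fl g) b) fun k => by
          have := hr _ (hK g hg) _ hb k; simp only [fl] at this; omega,
          I_neg (p := swap (swap r) (fl g) (fl b)) fun k => by
            have := hr _ (hK g hg) _ (hK b hb) k; simp only [fl] at this; omega]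
        simp
      · rw [F, I_neg (p := swap r g a) fun k => q' (hr _ ha _ hg k),
          I_neg (p := swap r g (fl a)) fun k => q' (hr (fl a) (hK a ha) g hg k)]
        simp
  · rfl

lemma nu_map (f : Key → Key) (hf : Injective f) (hfl : ∀ g, f (fl g) = fl (f g)) :
    nu (K.image f) τ r = nu K (τ ∘ f) (fun g h => r (f g) (f h)) := by
  simp only [nu, term, P, F, ty, sum_image (hf.injOn), comp, hfl, swap]

end Pool.Agent.H85.SV
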