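import Pool.Agent.H85.SVAbs
import Pool.Agent.H85.GaussSV
import Pool.Agent.H85.GaussW

/-! A mod 2 index invariant of virtual string links up to self-virtualization. -/

namespace Pool.Agent.H85.SV

open Gauss

def key (e : End) : Key := (e.1, e.2.1)

def keys (w : Word) : List Key := (w.filterMap id).map key

def pos : Word → Key → ℕ
  | [], _ => 0
  | none :: w, k => pos w k + 1
  | some e :: w, k => if key e = k then 0 else pos w k + 1

def tau : Word → Key → ℕ
  | [], _ => 0
  | none :: w, k => tau w k + 1
  | some e :: w, k => if key e = k then 0 else tau w k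

def rel (w : Word) (g h : Key) : Prop := tau w g = tau w h ∧ pos w g < pos w h

noncomputable def inv (w : Word) : ZMod 2 := nu (keys w).toFinset (tau w) (rel w)

@[simp] lemma keys_nil : keys [] = [] := rfl
@[simp] lemma keys_none (w : Word) : keys (none :: w) = keys w := rfl
@[simp] lemma keys_some (e : End) (w : Word) : keys (some e :: w) = key e :: keys w := rfl
@[simp] lemma keys_append (x y : Word) : keys (x ++ y) = keys x ++ keys y := by
  simp [keys, List.filterMap_append]

lemma pos_append (x y : Word) (k : Key) :
    pos (x ++ y) k = if k ∈ keys x then pos x k else x.length + pos y k := by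
  induction x with
  | nil => simp
  | cons p x ih =>
    cases p with
    | none => simp only [List.cons_append, pos, ih, keys_none, List.length_cons]; split_ifs <;> omega
    | some e =>
      simp only [List.cons_append, pos, ih, keys_some, List.length_cons, List.mem_cons]
      by_cases h : key e = k
      · simp [h]
      · simp only [h, if_false, Ne.symm h, false_or]; split_ifs <;> omega

lemma tau_append (x y : Word) (k : Key) :
    tau (x ++ y) k = if k ∈ keys x then tau x k else x.count none + tau y k := by
  induction x with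
  | nil => simp
  | cons p x ih =>
    cases p with
    | none =>
      simp only [List.cons_append, tau, ih, keys_none, List.count_cons_self]; split_ifs <;> omega
    | some e =>
      simp only [List.cons_append, tau, ih, keys_some, List.mem_cons]
      by_cases h : key e = k
      · simp [h]
      · simp [h, Ne.symm h]

lemma pos_lt {w : Word} {k : Key} (h : k ∈ keys w) : pos w k < w.length := by
  induction w with
  | nil => simp at h
  | cons p w ih =>
    cases p with
    | none => simpa [pos] using ih h
    | some e =>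
      simp only [pos, List.length_cons]
      split_ifs with q
      · omega
      · have := ih (by simpa [Ne.symm q] using h); omega

lemma pos_inj {w : Word} {k k' : Key} (h : k ∈ keys w) (h' : k' ∈ keys w) (e : pos w k = pos w k') :
    k = k' := by
  induction w with
  | nil => simp at h
  | cons p w ih =>
    cases p with
    | none => exact ih h h' (by simpa [pos] using e)
    | some f =>
      simp only [pos] at e
      split_ifs at e with q q' q'
      · exact q.symm.trans q'
      · exact ih (by simpa [Ne.symm q] using h) (by simpa [Ne.symm q'] using h') (by omega)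

lemma tau_seg {S : Word} (h : none ∉ S) (k : Key) : tau S k = 0 := by
  induction S with
  | nil => rfl
  | cons p S ih =>
    cases p with
    | none => simp at h
    | some e => simp [tau, ih (fun q => h (List.mem_cons_of_mem _ q))]

lemma tau_mid {x S y : Word} (h : none ∉ S) (hn : (keys (x ++ S ++ y)).Nodup) {k : Key}
    (hk : k ∈ keys S) : tau (x ++ S ++ y) k = x.count none := by
  have : k ∉ keys x := fun q => by
    simp only [keys_append, List.append_assoc, List.nodup_append] at hn
    exact hn.2.2 k q k (List.mem_append_left _ hk) rfl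
  simp [tau_append, this, hk, tau_seg h]

/-- `w'` extends `w` -/
def Ext (w w' : Word) : Prop := (∀ g ∈ keys w, tau w g = tau w' g) ∧
  ∀ g ∈ keys w, ∀ h ∈ keys w, pos w g < pos w h ↔ pos w' g < pos w' h

lemma Ext.trans {u v w : Word} (h : Ext u v) (h' : Ext v w) (s : ∀ g ∈ keys u, g ∈ keys v) :
    Ext u w :=
  ⟨fun g hg => (h.1 g hg).trans (h'.1 g (s g hg)),
    fun g hg k hk => (h.2 g hg k hk).trans (h'.2 g (s g hg) k (s k hk))⟩

lemma ext_ins {x S y : Word} (h : none ∉ S) (hn : (keys (x ++ S ++ y)).Nodup) :
    Ext (x ++ y) (x ++ S ++ y) := by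
  have key : ∀ g ∈ keys (x ++ y), g ∉ keys S := fun g hg q => by
    simp only [keys_append, List.append_assoc, List.nodup_append, List.mem_append] at hn hg
    rcases hg with hg | hg
    · exact hn.2.2 g hg g (Or.inl q) rfl
    · exact hn.2.1.2.2 g q g hg rfl
  refine ⟨fun g hg => ?_, fun g hg k hk => ?_⟩
  · simp [tau_append, key g hg, List.count_eq_zero.2 h]
  · simp only [List.append_assoc, pos_append, key g hg, key k hk, if_false]
    split_ifs with q1 q2 q2
    · rfl
    · have := pos_lt q1; omega
    · have := pos_lt q2; omega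
    · omega

lemma Ext.nu_eq {w w' : Word} (h : Ext w w') (hK : ∀ g ∈ keys w, fl g ∈ keys w) :
    inv w = nu (keys w).toFinset (tau w') (rel w') :=
  nu_congr (by simpa using hK) (by simpa using h.1) fun g hg k hk => by
    rw [List.mem_toFinset] at hg hk
    simp only [rel, h.1 g hg, h.1 k hk, h.2 g hg k hk]

lemma two_mid {x y : Word} {e f : End} (hn : (keys (x ++ [some e, some f] ++ y)).Nodup) :
    pos (x ++ [some e, some f] ++ y) (key f) = pos (x ++ [some e, some f] ++ y) (key e) + 1 ∧
    tau (x ++ [some e, some f] ++ y) (key e) = tau (x ++ [some e, some f] ++ y) (key f) := by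
  refine ⟨?_, (tau_mid (by simp) hn (by simp)).trans (tau_mid (by simp) hn (by simp)).symm⟩
  simp only [keys_append, List.append_assoc, List.nodup_append, keys_some, keys_nil,
    List.mem_append, List.mem_cons, List.nodup_cons] at hn
  have h1 : key e ∉ keys x := fun q => hn.2.2 _ q _ (by simp) rfl
  have h2 : key f ∉ keys x := fun q => hn.2.2 _ q _ (by simp) rfl
  have h3 : key e ≠ key f := by simpa using hn.2.1.1.1
  simp [pos_append, h1, h2, pos, h3]

lemma adj_of {w : Word} {K : Finset Key} {p q : Key} (hp : p ∈ keys w) (hq : q ∈ keys w)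
    (h1 : pos w q = pos w p + 1 ∨ pos w p = pos w q + 1) (h2 : tau w p = tau w q)
    (hK : ∀ g ∈ K, g ∈ keys w ∧ g ≠ p ∧ g ≠ q) : Adj K (tau w) (rel w) p q := by
  refine ⟨h2, fun g hg => ?_⟩
  obtain ⟨k1, k2, k3⟩ := hK g hg
  have := mt (pos_inj k1 hp) k2
  have := mt (pos_inj k1 hq) k3
  simp only [rel, h2]
  constructor <;> refine and_congr_right fun _ => by omega

lemma swap_mid {x y : Word} {e f : End} (hn : (keys (x ++ [some e, some f] ++ y)).Nodup) (k : Key) :
    pos (x ++ [some f, some e] ++ y) k =
      pos (x ++ [some e, some f] ++ y) (Equiv.swap (key e) (key f) k) ∧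
    tau (x ++ [some f, some e] ++ y) k = tau (x ++ [some e, some f] ++ y) k := by
  simp only [keys_append, List.append_assoc, List.nodup_append, keys_some, keys_nil,
    List.mem_append, List.mem_cons, List.nodup_cons] at hn
  have h1 : key e ∉ keys x := fun q => hn.2.2 _ q _ (by simp) rfl
  have h2 : key f ∉ keys x := fun q => hn.2.2 _ q _ (by simp) rfl
  have h3 : key e ≠ key f := by simpa using hn.2.1.1.1
  by_cases a : k = key e
  · subst a; simp [pos_append, tau_append, h1, h2, pos, tau, h3, h3.symm]
  by_cases b : k = key f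
  · subst b; simp [pos_append, tau_append, h1, h2, pos, tau, h3]
  simp [pos_append, tau_append, pos, tau, Equiv.swap_apply_of_ne_of_ne a b, Ne.symm a, Ne.symm b]

lemma hrel (w : Word) : ∀ g h, rel w g h → tau w g = tau w h := fun _ _ h => h.1

lemma inv_sv {x y z : Word} {a : ℕ} {o s : Bool} (hy : none ∉ y)
    (hK : ∀ g ∈ keys (x ++ y ++ z), fl g ∈ keys (x ++ y ++ z))
    (hn : (keys (x ++ [some (a, o, s)] ++ y ++ [some (a, !o, s)] ++ z)).Nodup) :
    inv (x ++ y ++ z) = inv (x ++ [some (a, o, s)] ++ y ++ [some (a, !o, s)] ++ z) := by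
  have e1 : Ext (x ++ [some (a, o, s)] ++ y ++ z) _ := ext_ins (by simp) hn
  have e2 : Ext (x ++ (y ++ z)) (x ++ [some (a, o, s)] ++ (y ++ z)) := ext_ins (by simp)
    (hn.sublist (by simp))
  rw [← List.append_assoc, ← List.append_assoc] at e2
  rw [(e2.trans e1 (by simp; tauto)).nu_eq hK]
  have hn' := hn
  simp only [keys_append, keys_some, keys_nil, List.nodup_append, List.mem_append, List.mem_cons,
    List.not_mem_nil, or_false, key] at hn'
  rw [← nu_del1 (x := (a, o)) (hrel _)]
  · unfold inv
    congr 1
    ext k
    simp [fl, key]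
  · simp only [keys_append, List.mem_toFinset, List.mem_append]
    grind
  · simp only [keys_append, List.mem_toFinset, List.mem_append, fl]
    grind
  · have e : x ++ [some (a, o, s)] ++ y ++ [some (a, !o, s)] ++ z =
        x ++ ([some (a, o, s)] ++ y ++ [some (a, !o, s)]) ++ z := by simp
    rw [e] at hn ⊢
    rw [tau_mid (by simpa using hy) hn (by simp [key]),
      tau_mid (by simpa using hy) hn (by simp [key, fl])]

lemma inv_r2 {x y z : Word} {e f e' f' : End}
    (h : key e' = fl (key e) ∧ key f' = fl (key f) ∨ key e' = fl (key f) ∧ key f' = fl (key e))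
    (hK : ∀ g ∈ keys (x ++ y ++ z), fl g ∈ keys (x ++ y ++ z))
    (hn : (keys (x ++ [some e, some f] ++ y ++ [some e', some f'] ++ z)).Nodup) :
    inv (x ++ y ++ z) = inv (x ++ [some e, some f] ++ y ++ [some e', some f'] ++ z) := by
  have e1 : Ext (x ++ [some e, some f] ++ y ++ z) _ := ext_ins (by simp) hn
  have e2 : Ext (x ++ (y ++ z)) (x ++ [some e, some f] ++ (y ++ z)) := ext_ins (by simp)
    (hn.sublist (by simp))
  rw [← List.append_assoc, ← List.append_assoc] at e2
  rw [(e2.trans e1 (by simp; tauto)).nu_eq hK]
  have t2 := two_mid hn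
  have t1 := two_mid (x := x) (e := e) (f := f) (y := y ++ [some e', some f'] ++ z)
    (by simpa using hn)
  simp only [← List.append_assoc] at t1
  have hn' := hn
  simp only [keys_append, keys_some, keys_nil, List.nodup_append, List.mem_append, List.mem_cons,
    List.not_mem_nil, or_false, List.nodup_cons, List.nodup_nil] at hn'
  rw [← nu_del2 (x := key e) (y := key f) (hrel _) (by simpa using hK)]
  · unfold inv
    congr 1
    ext k
    rcases h with ⟨h1, h2⟩ | ⟨h1, h2⟩ <;> simp [h1, h2] <;> tauto
  · simp only [List.nodup_cons, List.mem_cons, List.not_mem_nil, List.nodup_nil]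
    grind
  · simp only [keys_append, List.mem_toFinset, List.mem_append, List.mem_cons, List.not_mem_nil]
    grind
  · refine adj_of (by simp) (by simp) (Or.inl t1.1) t1.2 fun g hg => ?_
    simp only [keys_append, List.mem_toFinset, List.mem_append, keys_some, keys_nil,
      List.mem_cons] at hg ⊢
    grind
  · refine adj_of (by rcases h with h | h <;> simp [h.1, h.2])
      (by rcases h with h | h <;> simp [h.1, h.2]) (by grind) (by grind) fun g hg => ?_
    simp only [keys_append, List.mem_toFinset, List.mem_append, keys_some, keys_nil,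
      List.mem_cons] at hg ⊢
    grind

lemma inv_tri {w w' : Word} {T : Key → Prop} {σ : Key → Key}
    (hK : ∀ g ∈ keys w, fl g ∈ keys w) (hk : ∀ g, g ∈ keys w' ↔ g ∈ keys w)
    (hp : ∀ k, pos w' k = pos w (σ k)) (ht : ∀ k, tau w' k = tau w k) (i : ∀ g, σ (σ g) = g)
    (h1 : ∀ g, T g → (pos w (σ g) = pos w g + 1 ∨ pos w g = pos w (σ g) + 1) ∧
      tau w (σ g) = tau w g ∧ T (σ g) ∧ σ g ∈ keys w ∧ T (fl g) ∧ fl (σ g) = σ (fl (σ (fl g))))
    (h2 : ∀ g, ¬ T g → σ g = g)
    (h3 : ∀ g h, T g → T h → tau w g = tau w h ∨ tau w g = tau w (fl h) ∨ tau w (fl g) = tau w h ∨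
      tau w (fl g) = tau w (fl h)) : inv w = inv w' := by
  have hm : ∀ g ∈ keys w, σ g ∈ keys w := fun g hg => by
    by_cases q : T g
    · exact (h1 g q).2.2.2.1
    · rwa [h2 g q]
  have hd : ∀ g, pos w (σ g) = pos w g + 1 ∨ pos w g = pos w (σ g) + 1 ∨ σ g = g := fun g => by
    by_cases q : T g
    · have := (h1 g q).1; tauto
    · simp [h2 g q]
  have e : inv w' = nu (keys w).toFinset (tau w) (rel w') := by
    unfold inv
    rw [show (keys w').toFinset = (keys w).toFinset by ext; simp [hk], funext ht]
  rw [e]
  refine (Tri.nu_eq (T := T) (σ := σ) ⟨i, by simpa using hm, fun g q => (h1 g q).2.2.1,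
    fun g q => (h1 g q).2.2.2.2.1, fun g hg k hk q => ?_, fun g hg q => ?_,
    fun g hg q k hk q' => ?_, fun g q => (h1 g q).2.2.2.2.2, h3⟩ (by simpa using hK)).symm
  · rw [List.mem_toFinset] at hg hk
    simp only [rel, ht, hp]
    refine and_congr_right fun _ => ?_
    by_cases a : g = k
    · simp [a]
    have b : k ≠ σ g := fun c => by
      by_cases d : T g
      · exact q ⟨d, c⟩
      · exact a (by rw [c, h2 g d])
    have c1 := mt (pos_inj hg hk) a
    have c2 := mt (pos_inj hk (hm g hg)) b
    have c3 := mt (pos_inj hg (hm k hk)) fun c => b (by rw [c, i])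
    have c4 := mt (pos_inj (hm g hg) (hm k hk)) fun c => a (by rw [← i g, c, i])
    rcases hd g with d | d | d <;> rcases hd k with d' | d' | d' <;>
      first | omega | (rw [d] at *; omega) | (rw [d'] at *; omega) | rw [d, d']
  · have := h1 g q
    simp only [rel, ht, hp, i, this.2.1, true_and]
    omega
  · rw [List.mem_toFinset] at hg hk
    have := h1 g q
    exact (adj_of (K := {k}) hg (hm g hg) this.1 this.2.1.symm (by
      simp only [Finset.mem_singleton, forall_eq]
      exact ⟨hk, fun c => q' (c ▸ q), fun c => q' (c ▸ this.2.2.1)⟩)).2 k (by simp)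

lemma inv_r3 {x y z v : Word} {e1 f1 e2 f2 e3 f3 : End} {a b c : ℕ}
    (h : ∀ p ∈ [((a, true), (b, true)), ((a, false), (c, true)), ((b, false), (c, false))],
      ∃ q ∈ [(key e1, key f1), (key e2, key f2), (key e3, key f3)], p = q ∨ p = q.swap)
    (h' : ∀ g ∈ [key e1, key f1, key e2, key f2, key e3, key f3], g ∈
      [(a, true), (b, true), (a, false), (c, true), (b, false), (c, false)])
    (hK : ∀ g ∈ keys (x ++ [some e1, some f1] ++ y ++ [some e2, some f2] ++ z ++
      [some e3, some f3] ++ v), fl g ∈ keys (x ++ [some e1, some f1] ++ y ++ [some e2, some f2] ++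
      z ++ [some e3, some f3] ++ v))
    (hn : (keys (x ++ [some e1, some f1] ++ y ++ [some e2, some f2] ++ z ++
      [some e3, some f3] ++ v)).Nodup) :
    inv (x ++ [some e1, some f1] ++ y ++ [some e2, some f2] ++ z ++ [some e3, some f3] ++ v) =
    inv (x ++ [some f1, some e1] ++ y ++ [some f2, some e2] ++ z ++ [some f3, some e3] ++ v) := by
  have s3 := swap_mid hn
  have t3 := two_mid hn
  have t2 := two_mid (x := x ++ [some e1, some f1] ++ y) (e := e2) (f := f2)
    (y := z ++ [some e3, some f3] ++ v) (by simpa using hn)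
  have t1 := two_mid (x := x) (e := e1) (f := f1)
    (y := y ++ [some e2, some f2] ++ z ++ [some e3, some f3] ++ v) (by simpa using hn)
  have s2 := swap_mid (x := x ++ [some e1, some f1] ++ y) (e := e2) (f := f2)
    (y := z ++ [some f3, some e3] ++ v) (hn.perm (by
      simp only [keys_append, keys_some, keys_nil, List.append_assoc, List.perm_append_left_iff,
        List.perm_append_right_iff]
      exact .swap ..))
  have s1 := swap_mid (x := x) (e := e1) (f := f1)
    (y := y ++ [some f2, some e2] ++ z ++ [some f3, some e3] ++ v) (hn.perm (by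
      simp only [keys_append, keys_some, keys_nil, List.append_assoc, List.perm_append_left_iff]
      exact (List.Perm.swap ..).append ((List.Perm.refl _).append
        ((List.Perm.swap ..).append (.refl _)))))
  simp only [← List.append_assoc] at s1 s2 t1 t2
  have h6 : [key e1, key f1, key e2, key f2, key e3, key f3].Nodup := hn.sublist (by
    simp only [keys_append, keys_some, keys_nil, List.append_assoc]
    exact (((List.Sublist.refl [key e1, key f1]).append ((List.nil_sublist _).append
      ((List.Sublist.refl [key e2, key f2]).append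
      ((List.nil_sublist _).append ((List.Sublist.refl [key e3, key f3]).append
      (List.nil_sublist _)))))).trans (List.sublist_append_right _ _)))
  have hm : ∀ g ∈ [key e1, key f1, key e2, key f2, key e3, key f3], g ∈ keys (x ++
      [some e1, some f1] ++ y ++ [some e2, some f2] ++ z ++ [some e3, some f3] ++ v) := by simp
  set σ : Key → Key := fun k =>
    Equiv.swap (key e3) (key f3) (Equiv.swap (key e2) (key f2) (Equiv.swap (key e1) (key f1) k))
  have hσ : (σ (key e1) = key f1 ∧ σ (key f1) = key e1) ∧ (σ (key e2) = key f2 ∧ σ (key f2) = key e2)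
      ∧ (σ (key e3) = key f3 ∧ σ (key f3) = key e3) ∧
      ∀ g ∉ [key e1, key f1, key e2, key f2, key e3, key f3], σ g = g := by
    simp only [σ, Equiv.swap_apply_def, List.nodup_cons, List.mem_cons, List.not_mem_nil] at h6 ⊢
    grind
  have hk : ∀ g, g ∈ keys (x ++ [some f1, some e1] ++ y ++ [some f2, some e2] ++ z ++
      [some f3, some e3] ++ v) ↔ g ∈ keys (x ++ [some e1, some f1] ++ y ++ [some e2, some f2] ++
      z ++ [some e3, some f3] ++ v) := by
    simp only [keys_append, keys_some, keys_nil, List.mem_append, List.mem_cons]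
    grind
  have hp := fun k => (s1 k).1.trans ((s2 _).1.trans (s3 _).1)
  have ht := fun k => (s1 k).2.trans ((s2 _).2.trans (s3 _).2)
  generalize x ++ [some e1, some f1] ++ y ++ [some e2, some f2] ++ z ++ [some e3, some f3] ++ v = w
    at hK hm t1 t2 t3 hp ht hk ⊢
  clear s1 s2 s3 hn
  have h7 : ∀ p ∈ [((a, true), (b, true)), ((a, false), (c, true)), ((b, false), (c, false))],
      σ p.1 = p.2 ∧ σ p.2 = p.1 ∧ tau w p.1 = tau w p.2 ∧
      p.1 ∈ [key e1, key f1, key e2, key f2, key e3, key f3] ∧
      p.2 ∈ [key e1, key f1, key e2, key f2, key e3, key f3] := fun p hp => by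
    obtain ⟨q, hq, k⟩ := h p hp
    simp only [List.mem_cons, List.not_mem_nil, or_false] at hq
    rcases hq with rfl | rfl | rfl <;> rcases k with rfl | rfl <;> simp [hσ, t1.2, t2.2, t3.2]
  simp only [List.forall_mem_cons] at h7
  obtain ⟨⟨a1, a2, a3, a4, a5⟩, ⟨b1, b2, b3, b4, b5⟩, ⟨c1, c2, c3, c4, c5⟩, -⟩ := h7
  refine inv_tri (T := fun g => g ∈ [key e1, key f1, key e2, key f2, key e3, key f3]) (σ := σ)
    hK hk hp ht (fun g => ?_) (fun g hg => ?_) hσ.2.2.2 fun g k hg hk => ?_
  · by_cases hg : g ∈ [key e1, key f1, key e2, key f2, key e3, key f3]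
    · simp only [List.mem_cons, List.not_mem_nil, or_false] at hg
      rcases hg with rfl | rfl | rfl | rfl | rfl | rfl <;> simp [hσ]
    · rw [hσ.2.2.2 g hg, hσ.2.2.2 g hg]
  · have k1 : (pos w (σ g) = pos w g + 1 ∨ pos w g = pos w (σ g) + 1) ∧ tau w (σ g) = tau w g ∧
        σ g ∈ [key e1, key f1, key e2, key f2, key e3, key f3] := by
      simp only [List.mem_cons, List.not_mem_nil, or_false] at hg
      rcases hg with rfl | rfl | rfl | rfl | rfl | rfl <;> simp [hσ, t1, t2, t3]
    refine ⟨k1.1, k1.2.1, k1.2.2, hm _ k1.2.2, ?_⟩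
    have := h' g hg
    simp only [List.mem_cons, List.not_mem_nil, or_false] at this
    rcases this with rfl | rfl | rfl | rfl | rfl | rfl <;>
      simp only [fl, Bool.not_true, Bool.not_false, a1, a2, b1, b2, c1, c2, a4, a5, b4, b5, c4, c5,
        and_self]
  · have h1 := h' g hg
    have h2 := h' k hk
    simp only [List.mem_cons, List.not_mem_nil, or_false] at h1 h2
    rcases h1 with rfl | rfl | rfl | rfl | rfl | rfl <;>
      rcases h2 with rfl | rfl | rfl | rfl | rfl | rfl <;>
      simp only [fl, Bool.not_true, Bool.not_false, a3, b3, c3, true_or, or_true]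

lemma keys_map (σ : ℕ → ℕ) (w : Word) : keys (w.map (Option.map fun e => (σ e.1, e.2))) =
    (keys w).map fun k => (σ k.1, k.2) := by
  induction w with
  | nil => rfl
  | cons p w ih => cases p <;> simp [ih, key]

lemma pos_map {σ : ℕ → ℕ} (hσ : Function.Injective σ) (w : Word) (k : Key) :
    pos (w.map (Option.map fun e => (σ e.1, e.2))) (σ k.1, k.2) = pos w k ∧
    tau (w.map (Option.map fun e => (σ e.1, e.2))) (σ k.1, k.2) = tau w k := by
  induction w with
  | nil => exact ⟨rfl, rfl⟩
  | cons p w ih => cases p <;> simp [pos, tau, ih, key, hσ.eq_iff, Prod.ext_iff]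

lemma inv_move {w w' : Word} (h : MoveSV w w') (hK : ∀ g ∈ keys w, fl g ∈ keys w)
    (hn0 : (keys w).Nodup) (hn : (keys w').Nodup) : inv w = inv w' := by
  cases h with
  | sv x y z a o s hy => exact inv_sv hy hK hn
  | move _ _ h =>
    cases h with
    | rename σ hσ w =>
      unfold inv
      rw [keys_map, show ((keys w).map fun k => (σ k.1, k.2)).toFinset =
        (keys w).toFinset.image fun k => (σ k.1, k.2) by ext; simp,
        nu_map (fun k => (σ k.1, k.2)) (fun g h q => by
        simpa [Prod.ext_iff, hσ.eq_iff] using q) fun g => rfl]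
      congr 1
      · funext k; exact (pos_map hσ _ k).2.symm
      · funext g k; simp only [rel, pos_map hσ]
    | r1 x y a s d =>
      cases d
      · simpa [ord, O, U] using inv_sv (x := x) (y := []) (z := y) (a := a) (o := false) (s := s)
          (by simp) (by simpa using hK) (by simpa [ord, O, U] using hn)
      · simpa [ord, O, U] using inv_sv (x := x) (y := []) (z := y) (a := a) (o := true) (s := s)
          (by simp) (by simpa using hK) (by simpa [ord, O, U] using hn)
    | r2 x y z P Q a b s d hp =>
      rcases perm2 hp with ⟨rfl, rfl⟩ | ⟨rfl, rfl⟩ <;> cases d <;>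
        exact inv_r2 (by simp [key, fl]) hK hn
    | r3 x y z v P Q R a b c sa sb sc' t m u hp h1 h2 =>
      have two : ∀ S ∈ [P, Q, R], Two S := by
        intro S hS
        have := hp.subset hS
        simp only [List.mem_cons, List.not_mem_nil, or_false] at this
        rcases this with rfl | rfl | rfl <;> exact two_ord _ _ _
      obtain ⟨e1, f1, rfl⟩ := two P (by simp)
      obtain ⟨e2, f2, rfl⟩ := two Q (by simp)
      obtain ⟨e3, f3, rfl⟩ := two R (by simp)
      have k1 : ∀ d e f, ord d (some e) (some f) ∈ [[some e1, some f1], [some e2, some f2],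
          [some e3, some f3]] → ∃ q ∈ [(key e1, key f1), (key e2, key f2), (key e3, key f3)],
          (key e, key f) = q ∨ (key e, key f) = q.swap := fun d e f h => by
        cases d <;> simp only [ord, List.mem_cons, List.not_mem_nil, or_false, if_true,
          Bool.false_eq_true, if_false, List.cons.injEq, Option.some.injEq, and_true] at h <;>
        rcases h with ⟨rfl, rfl⟩ | ⟨rfl, rfl⟩ | ⟨rfl, rfl⟩ <;> simp
      refine inv_r3 (a := a) (b := b) (c := c) ?_ ?_ hK hn0
      · simp only [List.forall_mem_cons]
        exact ⟨k1 t (a, true, sa) (b, true, sb) (hp.symm.subset (by simp [O])),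
          k1 m (a, false, sa) (c, true, sc') (hp.symm.subset (by simp [O, U])),
          k1 u (b, false, sb) (c, false, sc') (hp.symm.subset (by simp [U])), by simp⟩
      · have := ((hp.map keys).flatten).subset
        intro g hg
        have := this (a := g) (by simpa using hg)
        cases t <;> cases m <;> cases u <;> simp [ord, O, U, key] at this ⊢ <;> tauto
    | oc h => simp at h
    | sc h => simp at h

lemma wf_keys {n : ℕ} {D : Diagram} (h : WF n D) :
    (∀ g ∈ keys (flat D), fl g ∈ keys (flat D)) ∧ (keys (flat D)).Nodup := by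
  rw [keys, filterMap_flat]
  refine ⟨fun g hg => ?_, h.2.1⟩
  obtain ⟨e, he, rfl⟩ := List.mem_map.1 hg
  exact List.mem_map.2 ⟨_, h.2.2 e he, rfl⟩

lemma inv_eqv {n : ℕ} {D D' : Diagram} (h : EqvSV n D D') : inv (flat D) = inv (flat D') := by
  induction h with
  | rel D D' k => exact inv_move k.2.2 (wf_keys k.1).1 (wf_keys k.1).2 (wf_keys k.2.1).2
  | refl _ => rfl
  | symm _ _ _ ih => exact ih.symm
  | trans _ _ _ _ _ i1 i2 => exact i1.trans i2

lemma pos_pair {h : ℕ → ℕ} {c : List End} (hc : c.Pairwise fun e e' => h e.1 < h e'.1) {g k : Key}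
    (hg : g ∈ keys (c.map some)) (hk : k ∈ keys (c.map some))
    (hp : pos (c.map some) g < pos (c.map some) k) : h g.1 < h k.1 := by
  induction c with
  | nil => simp at hg
  | cons e c ih =>
    simp only [List.map_cons, pos, keys_some, List.mem_cons, List.pairwise_cons] at hg hk hp hc
    split_ifs at hp with q q' q'
    · omega
    · obtain ⟨f, hf, rfl⟩ := List.mem_map.1 (hk.resolve_left (Ne.symm q'))
      subst q
      exact hc.1 f (by simpa using hf)
    · omega
    · exact ih hc.2 (hg.resolve_left (Ne.symm q)) (hk.resolve_left (Ne.symm q')) (by omega)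

lemma inv_mono {n : ℕ} {D : Diagram} (hw : WF n D) (hm : Mono D) : inv (flat D) = 0 := by
  obtain ⟨h, hh⟩ := hm
  refine nu_mono (by simpa using (wf_keys hw).1) h ?_
  simp only [List.mem_toFinset]
  clear hw
  induction D with
  | nil => simp [flat_nil]
  | cons c D ih =>
    intro g hg k hk ⟨q1, q2⟩
    have t : ∀ k, tau (c.map some) k = 0 := tau_seg (by simp)
    simp only [flat_cons, keys_append, keys_none, List.mem_append, tau_append, pos_append, tau,
      pos, t] at hg hk q1 q2
    by_cases a : g ∈ keys (c.map some) <;> by_cases b : k ∈ keys (c.map some) <;>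
      simp only [a, b, if_true, if_false] at q1 q2
    · exact pos_pair (hh c (by simp)) a b q2
    · omega
    · omega
    · exact ih (fun c hc => hh c (by simp [hc])) g (hg.resolve_left a) k (hk.resolve_left b)
        ⟨by omega, by omega⟩

end Pool.Agent.H85.SV
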