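import Mathlib

set_option autoImplicit false

namespace Pool.Agent.H85.SemiRiemDefs

open Set MeasureTheory
open scoped Manifold ContDiff Topology

/-- Euclidean `n`-space, the model space of an `n`-manifold. -/
abbrev Euc (n : ℕ) : Type := EuclideanSpace ℝ (Fin n)

variable {E : Type} [NormedAddCommGroup E] [NormedSpace ℝ E]
  {M : Type} [TopologicalSpace M] [ChartedSpace E M]

variable (E) in
/-- The tangent space at `x` of a manifold modelled on `E`. -/
abbrev Tx (x : M) : Type := TangentSpace 𝓘(ℝ, E) x

variable (E M) in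
/-- The tangent bundle of a manifold modelled on `E`. -/
abbrev TM : Type := TangentBundle 𝓘(ℝ, E) M

variable (E M) in
/-- A field of functions of two tangent vectors. -/
abbrev Bilin : Type := ∀ x : M, Tx E x → Tx E x → ℝ

variable (E M) in
/-- A field of functions of one tangent vector. -/
abbrev OneForm : Type := ∀ x : M, Tx E x → ℝ

/-- The differential of the inverse of the chart `e` at a point `y` of the model space. -/
noncomputable def dInv (e : OpenPartialHomeomorph M E) (y v : E) : Tx E (e.symm y) :=
  mfderiv 𝓘(ℝ, E) 𝓘(ℝ, E) e.symm y v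

/-- The coordinate expression of `g` in the chart `e`. -/
noncomputable def locBilin (g : Bilin E M) (e : OpenPartialHomeomorph M E) (y v w : E) : ℝ :=
  g (e.symm y) (dInv e y v) (dInv e y w)

/-- The coordinate expression of `η` in the chart `e`. -/
noncomputable def locForm (η : OneForm E M) (e : OpenPartialHomeomorph M E) (y v : E) : ℝ :=
  η (e.symm y) (dInv e y v)

/-- A linear function on a tangent space. -/
def IsLin {x : M} (f : Tx E x → ℝ) : Prop := IsLinearMap ℝ f

/-- A smooth semi-Riemannian metric of indefinite signature: bilinear, symmetric, nondegenerate,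
taking both signs at every point, and with smooth coefficients in every chart. -/
structure IsIndefiniteMetric (g : Bilin E M) : Prop where
  lin : ∀ x v, IsLin (g x v)
  symm : ∀ x v w, g x v w = g x w v
  nondeg : ∀ x v, (∀ w, g x v w = 0) → v = 0
  pos : ∀ x, ∃ v, 0 < g x v v
  neg : ∀ x, ∃ v, g x v v < 0
  smooth : ∀ e ∈ atlas E M, ∀ v w, ContDiffOn ℝ ∞ (fun y => locBilin g e y v w) e.target

/-- A smooth one-form: linear on each tangent space, with smooth coefficients in every chart. -/
structure IsSmoothForm (η : OneForm E M) : Prop where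
  lin : ∀ x, IsLin (η x)
  smooth : ∀ e ∈ atlas E M, ∀ v, ContDiffOn ℝ ∞ (fun y => locForm η e y v) e.target

/-- The derivative of `f` at `y` in the direction `v`. -/
noncomputable def dd (f : E → ℝ) (y v : E) : ℝ := fderiv ℝ f y v

/-- The geodesic equation of the Levi-Civita connection at time `t` for a coordinate curve `c` and
a coordinate metric `G`, with the upper index lowered:
`g_kl c''^k + (d_i g_jl - (1/2) d_l g_ij) c'^i c'^j = 0` for all `l`. -/
def GeodesicEq (G : E → E → E → ℝ) (c : ℝ → E) (t : ℝ) : Prop :=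
  ∀ w : E, G (c t) (deriv (deriv c) t) w + dd (fun y => G y (deriv c t) w) (c t) (deriv c t)
    - (1 / 2) * dd (fun y => G y (deriv c t) (deriv c t)) (c t) w = 0

/-- `γ` is an affinely parametrised geodesic of `g` on the set of times `s`. -/
def IsGeodesicOn (g : Bilin E M) (γ : ℝ → M) (s : Set ℝ) : Prop :=
  ∀ t ∈ s, ContinuousAt γ t ∧ ∀ e ∈ atlas E M, γ t ∈ e.source →
    ContDiffAt ℝ 2 (e ∘ γ) t ∧ GeodesicEq (locBilin g e) (e ∘ γ) t

variable (E) in
/-- The velocity vector of a curve. -/
noncomputable def vel (γ : ℝ → M) (t : ℝ) : Tx E (γ t) :=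
  mfderiv 𝓘(ℝ, ℝ) 𝓘(ℝ, E) γ t (1 : ℝ)

variable (E) in
/-- The velocity of a curve as a point of the tangent bundle. -/
noncomputable def velT (γ : ℝ → M) (t : ℝ) : TM E M := ⟨γ t, vel E γ t⟩

/-- Geodesic completeness: every tangent vector is the initial velocity of a geodesic defined on
the whole line, and every geodesic on a bounded open interval extends to the whole line. -/
def IsComplete (g : Bilin E M) : Prop :=
  (∀ p : TM E M, ∃ γ : ℝ → M, IsGeodesicOn g γ univ ∧ velT E γ 0 = p) ∧
  ∀ (a b : ℝ) (γ : ℝ → M), IsGeodesicOn g γ (Ioo a b) →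
    ∃ γ' : ℝ → M, IsGeodesicOn g γ' univ ∧ EqOn γ' γ (Ioo a b)

/-- The tangent vector with coordinates `q` in the chart `e`. -/
noncomputable def ofChart (e : OpenPartialHomeomorph M E) (q : E × E) : TM E M :=
  ⟨e.symm q.1, dInv e q.1 q.2⟩

/-- A subset of the tangent bundle is null if it is Lebesgue null in every chart. -/
def IsNull [MeasureSpace E] (S : Set (TM E M)) : Prop :=
  ∀ e ∈ atlas E M, volume {q : E × E | q.1 ∈ e.target ∧ ofChart e q ∈ S} = 0

/-- A subset of the tangent bundle is bounded if it lies in a compact set. -/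
def IsBdd [IsManifold 𝓘(ℝ, E) ∞ M] (S : Set (TM E M)) : Prop :=
  ∃ K : Set (TM E M), IsCompact K ∧ S ⊆ K

/-- The tangent vectors whose geodesic orbit is unbounded. -/
def UnboundedOrbits [IsManifold 𝓘(ℝ, E) ∞ M] (g : Bilin E M) : Set (TM E M) :=
  {p | ∀ γ : ℝ → M, IsGeodesicOn g γ univ → velT E γ 0 = p → ¬ IsBdd (range (velT E γ))}

/-- A light-like geodesic defined on the whole line. -/
def IsLightlike (g : Bilin E M) (γ : ℝ → M) : Prop :=
  IsGeodesicOn g γ univ ∧ (¬ ∃ x, ∀ t, γ t = x) ∧ ∀ t, g (γ t) (vel E γ t) (vel E γ t) = 0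

end Pool.Agent.H85.SemiRiemDefs
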