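import Mathlib

namespace Pool.Agent.H85.Shell1

open Set Metric MeasureTheory Filter Topology

abbrev E := Fin 4 → ℝ

def om (u v : E) : ℝ := u 0 * v 1 - u 1 * v 0 + u 2 * v 3 - u 3 * v 2

noncomputable def D (u : E → ℝ) (i : Fin 4) (x : E) : ℝ := fderiv ℝ u x (Pi.single i 1)

variable {u v f g a b : E → ℝ} {t : ℝ}

lemma cD (hu : ContDiff ℝ 2 u) (i : Fin 4) : ContDiff ℝ 1 (D u i) :=
  (hu.fderiv_right (m := 1) (by norm_num)).clm_apply contDiff_const

lemma cD0 (hu : ContDiff ℝ 1 u) (i : Fin 4) : Continuous (D u i) :=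
  (hu.continuous_fderiv (by norm_num)).clm_apply continuous_const

lemma D_mul (hu : ContDiff ℝ 1 u) (hv : ContDiff ℝ 1 v) (i : Fin 4) (x : E) :
    D (fun y => u y * v y) i x = D u i x * v x + u x * D v i x := by
  simp only [D]
  rw [fderiv_fun_mul (hu.differentiable (by norm_num) x) (hv.differentiable (by norm_num) x)]
  simp
  ring

lemma D_add (hu : ContDiff ℝ 1 u) (hv : ContDiff ℝ 1 v) (i : Fin 4) (x : E) :
    D (fun y => u y + v y) i x = D u i x + D v i x := by
  simp only [D]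
  rw [fderiv_fun_add (hu.differentiable (by norm_num) x) (hv.differentiable (by norm_num) x)]
  simp

lemma D_sub (hu : ContDiff ℝ 1 u) (hv : ContDiff ℝ 1 v) (i : Fin 4) (x : E) :
    D (fun y => u y - v y) i x = D u i x - D v i x := by
  simp only [D]
  rw [fderiv_fun_sub (hu.differentiable (by norm_num) x) (hv.differentiable (by norm_num) x)]
  simp

lemma D_comm (hu : ContDiff ℝ 2 u) (i j : Fin 4) (x : E) : D (D u i) j x = D (D u j) i x := by
  have h := (hu.contDiffAt (x := x)).isSymmSndFDerivAt (by simp)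
  have d := ((hu.fderiv_right (m := 1) (by norm_num)).differentiable (by norm_num) x)
  have e : ∀ i j : Fin 4, D (D u i) j x =
      fderiv ℝ (fderiv ℝ u) x (Pi.single j 1) (Pi.single i 1) := fun i j => by
    unfold D
    rw [fderiv_clm_apply d (differentiableAt_const _)]
    simp
  rw [e, e, h]

lemma ib {F : Type} [NormedAddCommGroup F] {u : E → F} (h : Continuous u) :
    IntegrableOn u (ball 0 t) :=
  (h.continuousOn.integrableOn_compact (isCompact_closedBall 0 t)).mono_set ball_subset_closedBall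

lemma stokes (hV : ContDiff ℝ 1 v) (h : ∀ x ∈ sphere (0 : E) t, v =ᶠ[𝓝 x] 0) (i : Fin 4) :
    ∫ x in ball 0 t, D v i x = 0 := by
  set U := indicator (ball 0 t) v
  have h1 : ∀ x ∈ ball (0 : E) t, U =ᶠ[𝓝 x] v := fun x hx => by
    filter_upwards [isOpen_ball.mem_nhds hx] with y hy using indicator_of_mem hy v
  have h2 : ∀ x ∉ ball (0 : E) t, U =ᶠ[𝓝 x] fun _ => 0 := fun x hx => by
    by_cases hs : x ∈ sphere (0 : E) t
    · filter_upwards [h x hs] with y hy
      exact indicator_apply_eq_zero.2 fun _ => hy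
    have : x ∈ (closedBall (0 : E) t)ᶜ := fun k => by
      rw [← ball_union_sphere] at k
      exact k.elim hx hs
    filter_upwards [isClosed_closedBall.isOpen_compl.mem_nhds this] with y hy
    exact indicator_of_notMem (fun k => hy (ball_subset_closedBall k)) v
  have h3 : ContDiff ℝ 1 U := contDiff_iff_contDiffAt.2 fun x => by
    by_cases hx : x ∈ ball (0 : E) t
    · exact hV.contDiffAt.congr_of_eventuallyEq (h1 x hx)
    · exact contDiffAt_const.congr_of_eventuallyEq (h2 x hx)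
  have h4 : HasCompactSupport U := HasCompactSupport.intro (isCompact_closedBall 0 t) fun x hx =>
    indicator_of_notMem (fun k => hx (ball_subset_closedBall k)) v
  have h5 : indicator (ball 0 t) (D v i) = D U i := funext fun x => by
    by_cases hx : x ∈ ball (0 : E) t
    · rw [indicator_of_mem hx, D, D, (h1 x hx).fderiv_eq]
    · rw [indicator_of_notMem hx, D, (h2 x hx).fderiv_eq]
      simp
  have h6 : Integrable (D U i) := h5 ▸ (integrable_indicator_iff measurableSet_ball).2 (ib (cD0 hV i))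
  rw [← integral_indicator measurableSet_ball, h5]
  simpa [D] using integral_mul_fderiv_eq_neg_fderiv_mul_of_integrable (μ := volume)
    (f := fun _ : E => (1 : ℝ)) (g := U) (v := Pi.single i 1) (by simp) (by simp only [one_mul]; exact h6)
    (by simpa using h3.continuous.integrable_of_hasCompactSupport h4) (fun _ _ => by fun_prop)
    fun x _ => h3.differentiable (by norm_num) x

def Cl (W : Fin 4 → Fin 4 → E → ℝ) : Prop := (∀ k l, ContDiff ℝ 1 (W k l)) ∧
  ∀ j k l x, D (W k l) j x - D (W j l) k x + D (W j k) l x = 0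

noncomputable def T (g : E → ℝ) (W : Fin 4 → Fin 4 → E → ℝ) (j k l : Fin 4) (x : E) : ℝ :=
  D g j x * W k l x - D g k x * W j l x + D g l x * W j k x

noncomputable def B (f g : E → ℝ) (W : Fin 4 → Fin 4 → E → ℝ) (x : E) : ℝ :=
  D f 0 x * T g W 1 2 3 x - D f 1 x * T g W 0 2 3 x + D f 2 x * T g W 0 1 3 x -
    D f 3 x * T g W 0 1 2 x

noncomputable def br (a b : E → ℝ) (k l : Fin 4) (x : E) : ℝ := D a k x * D b l x - D a l x * D b k x

lemma cl_br (ha : ContDiff ℝ 2 a) (hb : ContDiff ℝ 2 b) : Cl (br a b) := by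
  refine ⟨fun k l => ((cD ha k).mul (cD hb l)).sub ((cD ha l).mul (cD hb k)), fun j k l x => ?_⟩
  have : ∀ i k l, D (br a b k l) i x = D (D a k) i x * D b l x + D a k x * D (D b l) i x -
      (D (D a l) i x * D b k x + D a l x * D (D b k) i x) := fun i k l => by
    rw [← D_mul (cD ha k) (cD hb l), ← D_mul (cD ha l) (cD hb k),
      ← D_sub ((cD ha k).mul (cD hb l)) ((cD ha l).mul (cD hb k))]
    rfl
  rw [this, this, this, D_comm ha k j, D_comm ha l j, D_comm ha l k, D_comm hb k j, D_comm hb l j,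
    D_comm hb l k]
  ring

lemma nlw {W : Fin 4 → Fin 4 → E → ℝ} (hf : ContDiff ℝ 1 f) (hg : ContDiff ℝ 2 g) (hW : Cl W)
    (h : ∀ x ∈ sphere (0 : E) t, ∀ᶠ y in 𝓝 x, ∀ k l, f y * W k l y = 0) :
    ∫ x in ball 0 t, B f g W x = 0 := by
  have m := fun j k l => (cD hg j).mul (hW.1 k l)
  have cT : ∀ j k l, ContDiff ℝ 1 (T g W j k l) := fun j k l =>
    ((m j k l).sub (m k j l)).add (m l j k)
  have c := fun j k l => hf.mul (cT j k l)
  have e : ∀ i j k l x, D (fun y => f y * T g W j k l y) i x = D f i x * T g W j k l x + f x *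
      (D (D g j) i x * W k l x + D g j x * D (W k l) i x - (D (D g k) i x * W j l x +
      D g k x * D (W j l) i x) + (D (D g l) i x * W j k x + D g l x * D (W j k) i x)) :=
    fun i j k l x => by
    rw [D_mul hf (cT j k l), ← D_mul (cD hg j) (hW.1 k l), ← D_mul (cD hg k) (hW.1 j l),
      ← D_mul (cD hg l) (hW.1 j k), ← D_sub (m j k l) (m k j l),
      ← D_add ((m j k l).sub (m k j l)) (m l j k)]
    rfl
  have s : ∀ i j k l, ∫ x in ball 0 t, D (fun y => f y * T g W j k l y) i x = 0 := fun i j k l =>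
    stokes (c j k l) (fun x hx => by
      filter_upwards [h x hx] with y hy
      simp only [T, Pi.zero_apply]
      linear_combination D g j y * hy k l - D g k y * hy j l + D g l y * hy j k) i
  have I : ∀ i j k l, IntegrableOn (D (fun y => f y * T g W j k l y) i) (ball 0 t) :=
    fun i j k l => ib (cD0 (c j k l) i)
  have : B f g W = fun x => D (fun y => f y * T g W 1 2 3 y) 0 x -
      D (fun y => f y * T g W 0 2 3 y) 1 x + D (fun y => f y * T g W 0 1 3 y) 2 x -
      D (fun y => f y * T g W 0 1 2 y) 3 x := funext fun x => by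
    simp only [e, B]
    rw [D_comm hg 1 0, D_comm hg 2 0, D_comm hg 3 0, D_comm hg 2 1, D_comm hg 3 1, D_comm hg 3 2]
    linear_combination f x * (D g 0 x * hW.2 1 2 3 x - D g 1 x * hW.2 0 2 3 x +
      D g 2 x * hW.2 0 1 3 x - D g 3 x * hW.2 0 1 2 x)
  rw [this, integral_sub, integral_add, integral_sub, s, s, s, s]
  · simp
  exacts [I _ _ _ _, I _ _ _ _, (I _ _ _ _).sub (I _ _ _ _), I _ _ _ _,
    ((I _ _ _ _).sub (I _ _ _ _)).add (I _ _ _ _), I _ _ _ _]

def Sy (A : E →L[ℝ] E) : Prop := ∀ u v, om (A u) (A v) = om u v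

variable {ψ : E → E}

noncomputable def J (ψ : E → E) : E → ℝ := B (ψ · 0) (ψ · 1) (br (ψ · 2) (ψ · 3))

lemma cc (h : ContDiff ℝ 2 ψ) (m : Fin 4) : ContDiff ℝ 2 (ψ · m) := contDiff_pi.1 h m

lemma D_co (h : ContDiff ℝ 2 ψ) (m k : Fin 4) (x : E) :
    D (ψ · m) k x = fderiv ℝ ψ x (Pi.single k 1) m := by
  have := (hasFDerivAt_pi'.1 (h.differentiable (by norm_num) x).hasFDerivAt m).fderiv
  rw [D, this]
  rfl

lemma cJ (h : ContDiff ℝ 2 ψ) : Continuous (J ψ) := by
  have := fun m k => cD0 ((cc h m).of_le (by norm_num : (1 : WithTop ℕ∞) ≤ 2)) k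
  unfold J B T br
  fun_prop

lemma Sy.pf {A : E →L[ℝ] E} (h : Sy A) : om (A (Pi.single 0 1)) (A (Pi.single 1 1)) *
    om (A (Pi.single 2 1)) (A (Pi.single 3 1)) - om (A (Pi.single 0 1)) (A (Pi.single 2 1)) *
    om (A (Pi.single 1 1)) (A (Pi.single 3 1)) + om (A (Pi.single 0 1)) (A (Pi.single 3 1)) *
    om (A (Pi.single 1 1)) (A (Pi.single 2 1)) = 1 := by
  simp only [h _ _]
  simp [om]

lemma Sy.det {A : E →L[ℝ] E} (h : Sy A) : A.det = 1 := by
  rw [← h.pf, ContinuousLinearMap.det, ← LinearMap.det_toMatrix']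
  have e : ∀ i j, LinearMap.toMatrix' (A : E →ₗ[ℝ] E) i j = A (Pi.single j 1) i := fun i j => by
    rw [LinearMap.toMatrix'_apply]
    congr 2
  simp only [← e, om]
  generalize LinearMap.toMatrix' (A : E →ₗ[ℝ] E) = M
  simp [Matrix.det_succ_row_zero, Fin.sum_univ_succ, Fin.succAbove, Matrix.submatrix]
  ring

lemma J_one (h : ContDiff ℝ 2 ψ) {x : E} (hs : Sy (fderiv ℝ ψ x)) : J ψ x = 1 := by
  rw [← hs.pf]
  simp only [J, B, T, br, D_co h, om]
  ring

lemma intJ (h : ContDiff ℝ 2 ψ) (hs : ∀ x ∈ sphere (0 : E) t, ∀ᶠ y in 𝓝 x, Sy (fderiv ℝ ψ y)) :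
    ∫ x in ball 0 t, J ψ x = volume.real (ball (0 : E) t) := by
  let W : Fin 4 → Fin 4 → E → ℝ := fun k l x => br (ψ · 0) (ψ · 1) k l x +
    br (ψ · 2) (ψ · 3) k l x - om (Pi.single k 1) (Pi.single l 1)
  have c1 := cl_br (cc h 0) (cc h 1)
  have c2 := cl_br (cc h 2) (cc h 3)
  have hW : Cl W := by
    refine ⟨fun k l => ((c1.1 k l).add (c2.1 k l)).sub contDiff_const, fun j k l x => ?_⟩
    have : ∀ i k l, D (W k l) i x = D (br (ψ · 0) (ψ · 1) k l) i x +
        D (br (ψ · 2) (ψ · 3) k l) i x := fun i k l => by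
      rw [D_sub ((c1.1 k l).add (c2.1 k l)) contDiff_const, D_add (c1.1 k l) (c2.1 k l)]
      simp [D]
    rw [this, this, this]
    linear_combination c1.2 j k l x + c2.2 j k l x
  have z : ∀ f g : E → ℝ, ContDiff ℝ 2 f → ContDiff ℝ 2 g → IntegrableOn (B f g W) (ball 0 t) ∧
      ∫ x in ball 0 t, B f g W x = 0 := fun f g hf hg => by
    have hf' := hf.of_le (by norm_num : (1 : WithTop ℕ∞) ≤ 2)
    refine ⟨ib ?_, nlw hf' hg hW fun x hx => ?_⟩
    · have := cD0 hf'
      have := cD0 (hg.of_le (by norm_num : (1 : WithTop ℕ∞) ≤ 2))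
      have := fun k l => (hW.1 k l).continuous
      unfold B T
      fun_prop
    filter_upwards [hs x hx] with y hy k l
    refine mul_eq_zero_of_right _ ?_
    simp only [W, br, D_co h]
    rw [← hy]
    simp only [om]
    ring
  have i : ContDiff ℝ 2 (fun x : E => x) := contDiff_id
  have z1 := z _ _ (cc h 0) (cc h 1)
  have z2 := z _ _ (cc h 2) (cc h 3)
  have z3 := z _ _ (cc i 0) (cc i 1)
  have z4 := z _ _ (cc i 2) (cc i 3)
  have : J ψ = fun x => 1 + (1 / 2) * (B (ψ · 0) (ψ · 1) W x + B (ψ · 2) (ψ · 3) W x +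
      B (· 0) (· 1) W x + B (· 2) (· 3) W x) := funext fun x => by
    simp only [J, B, T, W, br, D_co i, fderiv_fun_id]
    simp [om]
    ring
  rw [this, integral_add, integral_const_mul, integral_add, integral_add, integral_add, z1.2, z2.2,
    z3.2, z4.2]
  · simp
  exacts [z1.1, z2.1, z1.1.add z2.1, z3.1, (z1.1.add z2.1).add z3.1, z4.1, ib continuous_const,
    (((z1.1.add z2.1).add z3.1).add z4.1).const_mul _]

lemma fd_apply (u : E → ℝ) (x w : E) : fderiv ℝ u x w = ∑ m, D u m x * w m := by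
  conv_lhs => rw [← Finset.univ_sum_single w]
  rw [map_sum]
  refine Finset.sum_congr rfl fun m _ => ?_
  rw [D, mul_comm, ← smul_eq_mul, ← map_smul, ← Pi.single_smul, smul_eq_mul, mul_one]

lemma factA (h : ContDiff ℝ 2 ψ) {η : E → ℝ} (hη : ContDiff ℝ 2 η) (hc : HasCompactSupport η)
    {y : E} (hy : ∀ x ∈ sphere (0 : E) t, ψ x - y ∉ tsupport η) :
    HasFDerivAt (fun y => ∫ x in ball 0 t, J ψ x * η (ψ x - y)) (0 : E →L[ℝ] ℝ) y := by
  have c1 : Continuous (fderiv ℝ η) := hη.continuous_fderiv (by norm_num)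
  obtain ⟨M, hM⟩ := c1.bounded_above_of_compact_support (hc.fderiv ℝ)
  have cj := cJ h
  have cψ := h.continuous
  have cη := hη.continuous
  have I : IntegrableOn (fun x => J ψ x • -fderiv ℝ η (ψ x - y)) (ball 0 t) := ib (by fun_prop)
  have := hasFDerivAt_integral_of_dominated_of_fderiv_le (μ := volume.restrict (ball (0 : E) t))
    (F := fun y x => J ψ x * η (ψ x - y)) (F' := fun y x => J ψ x • -fderiv ℝ η (ψ x - y))
    (bound := fun x => ‖J ψ x‖ * M) (x₀ := y) univ_mem
    (.of_forall fun y => Continuous.aestronglyMeasurable (by fun_prop)) (ib (by fun_prop))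
    I.1 (.of_forall fun x y _ => by
      rw [norm_smul, norm_neg]
      exact mul_le_mul_of_nonneg_left (hM _) (norm_nonneg _)) (ib (by fun_prop))
    (.of_forall fun x y _ => by
      have := ((hη.differentiable (by norm_num) (ψ x - y)).hasFDerivAt.comp y
        ((hasFDerivAt_id y).const_sub (ψ x))).const_mul (J ψ x)
      exact this.congr_fderiv (by ext; simp))
  refine this.congr_fderiv (Eq.symm ?_)
  refine ContinuousLinearMap.coe_injective ((Pi.basisFun ℝ (Fin 4)).ext fun i => ?_)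
  have hf : ContDiff ℝ 1 fun x => η (ψ x - y) :=
    (hη.comp (h.sub contDiff_const)).of_le (by norm_num)
  have hD : ∀ k x, D (fun x => η (ψ x - y)) k x = ∑ m, D η m (ψ x - y) * D (ψ · m) k x :=
    fun k x => by
    have := ((hη.differentiable (by norm_num) (ψ x - y)).hasFDerivAt.comp x
      ((h.differentiable (by norm_num) x).hasFDerivAt.sub_const y)).fderiv
    simp only [D_co h, ← fd_apply]
    exact congrArg (· (Pi.single k 1)) this
  have z : ∀ a b c, ∫ x in ball 0 t, B (fun x => η (ψ x - y)) (ψ · a) (br (ψ · b) (ψ · c)) x = 0 :=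
    fun a b c => nlw hf (cc h a) (cl_br (cc h b) (cc h c)) fun x hx => by
      have : ∀ᶠ x' in 𝓝 x, ψ x' - y ∈ (tsupport η)ᶜ :=
        (cψ.sub continuous_const).continuousAt.eventually_mem
          ((isClosed_tsupport η).isOpen_compl.mem_nhds (hy x hx))
      filter_upwards [this] with x' h' k l
      rw [image_eq_zero_of_notMem_tsupport h', zero_mul]
  simp only [Pi.basisFun_apply, ContinuousLinearMap.coe_coe, zero_apply]
  rw [ContinuousLinearMap.integral_apply I]
  have k : ∀ (s : ℝ) a b c, (∀ x, -(J ψ x * D η i (ψ x - y)) =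
      s * B (fun x => η (ψ x - y)) (ψ · a) (br (ψ · b) (ψ · c)) x) →
      0 = ∫ x in ball 0 t, (J ψ x • -fderiv ℝ η (ψ x - y)) (Pi.single i 1) := fun s a b c e => by
    rw [← mul_zero s, ← z a b c, ← integral_const_mul]
    simp [← e, D]
  fin_cases i
  · exact k (-1) 1 2 3 fun x => by simp [J, B, T, br, hD, Fin.sum_univ_four]; ring
  · exact k 1 0 2 3 fun x => by simp [J, B, T, br, hD, Fin.sum_univ_four]; ring
  · exact k (-1) 0 1 3 fun x => by simp [J, B, T, br, hD, Fin.sum_univ_four]; ring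
  · exact k 1 0 1 2 fun x => by simp [J, B, T, br, hD, Fin.sum_univ_four]; ring

end Pool.Agent.H85.Shell1
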