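import Mathlib
import Pool.Agent.H85.Shell1

namespace Pool.Agent.H85.Shell2

open Set Metric MeasureTheory Filter Topology Pool.Agent.H85.Shell1

def R (I : Set ℝ) : Set E := {x | ‖x‖ ∈ I}

lemma rk : 1 < Module.rank ℝ E := by simp

lemma R_conn {I : Set ℝ} (h : IsConnected I) (h0 : I ⊆ Ioi 0) : IsConnected (R I) := by
  have : R I = (fun p : ℝ × E => p.1 • p.2) '' (I ×ˢ sphere 0 1) := by
    ext x
    constructor
    · intro hx
      have : ‖x‖ ≠ 0 := (h0 hx).ne'
      exact ⟨(‖x‖, ‖x‖⁻¹ • x), ⟨hx, by simp [norm_smul, this]⟩, by simp [smul_smul, this]⟩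
    · rintro ⟨⟨r, v⟩, ⟨h1, h2⟩, rfl⟩
      have : |r| = r := abs_of_pos (h0 h1)
      simp only [mem_sphere_zero_iff_norm] at h2
      simpa [R, norm_smul, h2, this] using h1
  rw [this]
  exact (h.prod (isConnected_sphere rk 0 zero_le_one)).image _ (by fun_prop)

lemma R_open {I : Set ℝ} (h : IsOpen I) : IsOpen (R I) := h.preimage continuous_norm

lemma R_meas {I : Set ℝ} (h : MeasurableSet I) : MeasurableSet (R I) := measurable_norm h

lemma R_cpt (s t : ℝ) : IsCompact (R (Icc s t)) :=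
  (isCompact_closedBall 0 t).of_isClosed_subset (isClosed_Icc.preimage continuous_norm)
    fun _ hx => mem_closedBall_zero_iff.2 hx.2

lemma op {ψ : E → E} {U : Set E} (hU : IsOpen U) (h : ContDiff ℝ 2 ψ)
    (hs : ∀ x ∈ U, Sy (fderiv ℝ ψ x)) : IsOpen (ψ '' U) := by
  refine isOpen_iff_mem_nhds.2 ?_
  rintro _ ⟨x, hx, rfl⟩
  have d : (fderiv ℝ ψ x).det ≠ 0 := by rw [(hs x hx).det]; exact one_ne_zero
  have : HasStrictFDerivAt ψ ((fderiv ℝ ψ x).toContinuousLinearEquivOfDetNeZero d : E →L[ℝ] E) x := by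
    simpa using h.contDiffAt.hasStrictFDerivAt (by norm_num)
  rw [← this.map_nhds_eq_of_equiv]
  exact image_mem_map (hU.mem_nhds hx)

lemma fub {μ : Measure E} [SFinite μ] {j η : E → ℝ} {ψ : E → E} (hj : Continuous j)
    (hj' : Integrable j μ) (hψ : Continuous ψ) (hη : Continuous η) (h0 : ∀ z, 0 ≤ η z)
    (h1 : Integrable η) (h2 : ∫ z, η z = 1) : ∫ y, ∫ x, j x * η (ψ x - y) ∂μ = ∫ x, j x ∂μ := by
  rw [← integral_integral_swap]
  · simp only [integral_const_mul, integral_sub_left_eq_self, h2, mul_one]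
  refine (integrable_prod_iff (Continuous.aestronglyMeasurable (by
    unfold Function.uncurry; fun_prop))).2 ⟨.of_forall fun x =>
      (h1.comp_sub_left (ψ x)).const_mul (j x), ?_⟩
  simp only [Function.uncurry, norm_mul, integral_const_mul, Real.norm_of_nonneg (h0 _),
    integral_sub_left_eq_self, h2, mul_one]
  exact hj'.norm

lemma key0 {ψ : E → E} {a ρ b : ℝ} (a0 : 0 < a) (h1 : a < ρ) (h2 : ρ < b) (h : ContDiff ℝ 2 ψ)
    (hi : InjOn ψ (R (Ioo a b))) (hs : ∀ x ∈ R (Ioo a b), Sy (fderiv ℝ ψ x))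
    (hX : ψ '' R {ρ} ⊆ ball 0 1) : ∃ H H' : Set E, IsOpen H ∧ IsOpen H' ∧ Disjoint H H' ∧
      H ∪ H' = (ψ '' R {ρ})ᶜ ∧ H ⊆ ball 0 1 ∧ volume H = volume (ball (0 : E) ρ) ∧
      ψ '' R (Ioo ρ b) ⊆ H' := by
  obtain ⟨s, s1, s2⟩ := exists_between h1
  obtain ⟨t, t1, t2⟩ := exists_between h2
  obtain ⟨u, u1, u2⟩ := exists_between t1
  have cψ := h.continuous
  have mo : ∀ {I I' : Set ℝ}, I ⊆ I' → ψ '' R I ⊆ ψ '' R I' := fun k =>
    image_mono fun _ hx => k hx
  have un : ∀ {I I1 I2 : Set ℝ}, I ⊆ I1 ∪ I2 → ψ '' R I ⊆ ψ '' R I1 ∪ ψ '' R I2 := fun k => by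
    rw [← image_union]
    exact image_mono fun _ hx => k hx
  have dj : ∀ {I I' : Set ℝ}, I ⊆ Ioo a b → I' ⊆ Ioo a b → (∀ r ∈ I, r ∉ I') →
      Disjoint (ψ '' R I) (ψ '' R I') := fun k k' e => disjoint_left.2 (by
    rintro _ ⟨x, hx, rfl⟩ ⟨x', hx', e'⟩
    exact e _ hx (hi (k' hx') (k hx) e' ▸ hx'))
  have oo : ∀ p q, a ≤ p → q ≤ b → IsOpen (ψ '' R (Ioo p q)) := fun p q k k' =>
    op (R_open isOpen_Ioo) h fun x hx => hs x (Ioo_subset_Ioo k k' hx)
  have cn : ∀ p q, a ≤ p → p < q → IsConnected (ψ '' R (Ioo p q)) := fun p q k k' =>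
    (R_conn (isConnected_Ioo k') fun x hx => by grind).image _ cψ.continuousOn
  set S := ψ '' R {ρ} with hS
  obtain ⟨ε1, e1, he1⟩ := ((Icc_self ρ ▸ R_cpt ρ ρ).image cψ).exists_cthickening_subset_open
    (oo s u s1.le (by linarith)) (mo (by grind))
  obtain ⟨ε2, e2, he2⟩ := ((R_cpt s u).image cψ).exists_cthickening_subset_open
    (oo a t le_rfl t2.le) (mo (by grind))
  have e0 := lt_min e1 e2
  set ε := min ε1 ε2
  set Z := cthickening ε S
  have hZ : Z ⊆ ψ '' R (Ioo s u) := (cthickening_mono (min_le_left _ _) _).trans he1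
  have hT : ∀ y ∈ ψ '' R (Ioo s u), closedBall y ε ⊆ ψ '' R (Ioo a t) := fun y hy =>
    ((closedBall_subset_cthickening (mo Ioo_subset_Icc_self hy) _).trans
      (cthickening_mono (min_le_right _ _) _)).trans he2
  have hZ' : ∀ y ∉ Z, closedBall y ε ⊆ Sᶜ := fun y hy z hz hz' =>
    hy (mem_cthickening_of_dist_le y z ε S hz' (mem_closedBall'.1 hz))
  let β : ContDiffBump (0 : E) := ⟨ε / 2, ε, by linarith, by linarith⟩
  set η := β.normed volume
  have η1 : ∀ z y, z ∉ closedBall y ε → z - y ∉ tsupport η := fun z y hz => by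
    rwa [β.tsupport_normed_eq, mem_closedBall_zero_iff, ← mem_closedBall_iff_norm]
  have η2 : ∀ y, Integrable fun z => η (z - y) := fun y => β.integrable_normed.comp_sub_right y
  have η3 : ∀ y, ∫ z, η (z - y) = 1 := fun y => by
    rw [integral_sub_right_eq_self, β.integral_normed]
  let m : Set E → E → ℝ := fun U y => ∫ z in U, η (z - y)
  have m1 : ∀ U y, closedBall y ε ⊆ U → m U y = 1 := fun U y k => by
    rw [← η3 y]
    exact setIntegral_eq_integral_of_forall_compl_eq_zero fun z hz =>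
      image_eq_zero_of_notMem_tsupport (η1 z y fun k' => hz (k k'))
  have m0 : ∀ U y, Disjoint (closedBall y ε) U → m U y = 0 := fun U y k =>
    setIntegral_eq_zero_of_forall_eq_zero fun z hz =>
      image_eq_zero_of_notMem_tsupport (η1 z y (disjoint_right.1 k hz))
  let N : ℝ → E → ℝ := fun r y => ∫ x in ball 0 r, J ψ x * η (ψ x - y)
  have dN : ∀ r y, Disjoint (closedBall y ε) (ψ '' R {r}) → HasFDerivAt (N r) (0 : E →L[ℝ] ℝ) y :=
    fun r y k => factA h β.contDiff_normed β.hasCompactSupport_normed fun x hx =>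
      η1 _ _ (disjoint_right.1 k ⟨x, mem_sphere_zero_iff_norm.1 hx, rfl⟩)
  have cη : Continuous η := β.continuous_normed
  have cj := cJ h
  set A := ψ '' R (Ico ρ t)
  have fd : ∀ x ∈ R (Ico ρ t), HasFDerivWithinAt ψ (fderiv ℝ ψ x) (R (Ico ρ t)) x := fun x _ =>
    (h.differentiable (by norm_num) x).hasFDerivAt.hasFDerivWithinAt
  have iA : InjOn ψ (R (Ico ρ t)) := hi.mono fun x (hx : ‖x‖ ∈ Ico ρ t) =>
    show ‖x‖ ∈ Ioo a b by grind
  have mA : MeasurableSet A := measurable_image_of_fderivWithin (R_meas measurableSet_Ico) fd iA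
  have hB : ∀ y, N ρ y = N t y - m A y := fun y => by
    have : ball (0 : E) t = ball 0 ρ ∪ R (Ico ρ t) := by
      ext x
      simp only [R, mem_union, mem_ball_zero_iff, mem_setOf]
      grind
    have I : IntegrableOn (fun x => J ψ x * η (ψ x - y)) (ball 0 t) := ib (by fun_prop)
    simp only [N, m, A]
    rw [integral_image_eq_integral_abs_det_fderiv_smul _ (R_meas measurableSet_Ico) fd iA]
    rw [this] at I ⊢
    rw [setIntegral_union (disjoint_left.2 fun x hx hx' =>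
      (mem_ball_zero_iff.1 hx).not_ge hx'.1) (R_meas measurableSet_Ico) I.left_of_union
      I.right_of_union, setIntegral_congr_fun (R_meas measurableSet_Ico)
      (g := fun x => |(fderiv ℝ ψ x).det| • η (ψ x - y)) fun x (hx : ‖x‖ ∈ Ico ρ t) => by
        have k := hs x (show ‖x‖ ∈ Ioo a b by grind)
        simp [J_one h k, k.det]]
    ring
  have d1 : ∀ y ∈ ψ '' R (Ioo s u), HasFDerivAt (N t) (0 : E →L[ℝ] ℝ) y := fun y hy =>
    dN t y ((dj (by grind) (by grind) (by grind)).mono_left (hT y hy))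
  obtain ⟨c, hc⟩ := (oo s u s1.le (by linarith)).exists_is_const_of_fderiv_eq_zero (𝕜 := ℝ)
    (cn s u s1.le (by linarith)).2 (fun y hy => (d1 y hy).differentiableAt.differentiableWithinAt)
    fun y hy => (d1 y hy).fderiv
  have d2 : ∀ y ∈ Zᶜ, HasFDerivAt (N ρ) (0 : E →L[ℝ] ℝ) y := fun y hy =>
    dN ρ y (subset_compl_iff_disjoint_right.1 (hZ' y hy))
  have oZ : ∀ I, IsOpen (Zᶜ ∩ N ρ ⁻¹' I) :=
    isClosed_cthickening.isOpen_compl.isOpen_inter_preimage_of_fderiv_eq_zero (𝕜 := ℝ)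
      (fun y hy => (d2 y hy).differentiableAt.differentiableWithinAt) fun y hy => (d2 y hy).fderiv
  have pb : ∀ y : E, IsPreconnected (closedBall y ε) := fun y => (convex_closedBall y ε).isPreconnected
  have sb : ∀ y ∈ ψ '' R (Ioo s u), y ∉ Z →
      closedBall y ε ⊆ ψ '' R (Ioo a ρ) ∪ ψ '' R (Ioo ρ t) := fun y hy hy' z hz => by
    obtain ⟨x, hx, rfl⟩ := hT y hy hz
    have : ‖x‖ ≠ ρ := fun k => hZ' y hy' hz ⟨x, k, rfl⟩
    exact un (I := Ioo a t \ {ρ}) (by grind) ⟨x, ⟨hx, this⟩, rfl⟩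
  have dPQ : Disjoint (ψ '' R (Ioo a ρ)) (ψ '' R (Ioo ρ t)) := dj (by grind) (by grind) (by grind)
  have f1 : ∀ y ∈ ψ '' R (Ioo s ρ), y ∉ Z → N ρ y = c := fun y hy hy' => by
    have k := mo (Ioo_subset_Ioo_right u1.le) hy
    rw [hB, hc y k, m0, sub_zero]
    exact (dj (by grind) (by grind) (by grind)).mono_left ((pb y).subset_left_of_subset_union
      (oo a ρ le_rfl h2.le) (oo ρ t h1.le t2.le) dPQ (sb y k hy')
      ⟨y, mem_closedBall_self e0.le, mo (by grind) hy⟩)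
  have f2 : ∀ y ∈ ψ '' R (Ioo ρ u), y ∉ Z → N ρ y ≠ c := fun y hy hy' => by
    have k := mo (Ioo_subset_Ioo_left s2.le) hy
    rw [hB, hc y k, m1]
    · linarith
    exact ((pb y).subset_right_of_subset_union (oo a ρ le_rfl h2.le) (oo ρ t h1.le t2.le) dPQ
      (sb y k hy') ⟨y, mem_closedBall_self e0.le, mo (by grind) hy⟩).trans (mo (by grind))
  set H := ψ '' R (Ioo s ρ) ∪ Zᶜ ∩ N ρ ⁻¹' {c}
  set H' := ψ '' R (Ioo ρ u) ∪ Zᶜ ∩ N ρ ⁻¹' {c}ᶜ
  have oH : IsOpen H := (oo s ρ s1.le h2.le).union (oZ _)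
  have oH' : IsOpen H' := (oo ρ u h1.le (by linarith)).union (oZ _)
  have dH : Disjoint H H' := disjoint_left.2 (by
    rintro y (k | k) (k' | k')
    exacts [disjoint_left.1 (dj (by grind) (by grind) (by grind)) k k', k'.2 (f1 y k k'.1),
      f2 y k' k.1 k.2, k'.2 k.2])
  have cov : H ∪ H' = Sᶜ := by
    refine Subset.antisymm ?_ fun y hy => ?_
    · rintro y ((k | k) | (k | k))
      exacts [disjoint_left.1 (dj (by grind) (by grind) (by grind)) k,
        hZ' y k.1 (mem_closedBall_self e0.le),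
        disjoint_left.1 (dj (by grind) (by grind) (by grind)) k,
        hZ' y k.1 (mem_closedBall_self e0.le)]
    by_cases k : y ∈ Z
    · obtain ⟨x, hx, rfl⟩ := hZ k
      have : ‖x‖ ≠ ρ := fun k => hy ⟨x, k, rfl⟩
      exact (un (I := Ioo s u \ {ρ}) (by grind) ⟨x, ⟨hx, this⟩, rfl⟩).imp .inl .inl
    by_cases k' : N ρ y = c
    exacts [.inl (.inr ⟨k, k'⟩), .inr (.inr ⟨k, k'⟩)]
  have hP : ψ '' R (Ioo a ρ) ⊆ H := by
    obtain ⟨y, hy⟩ := (cn s ρ s1.le s2).1
    exact (cn a ρ le_rfl h1).2.subset_left_of_subset_union oH oH' dH (cov ▸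
      subset_compl_iff_disjoint_right.2 (dj (by grind) (by grind) (by grind)))
      ⟨y, mo (by grind) hy, .inl hy⟩
  have hQ : ψ '' R (Ioo ρ b) ⊆ H' := by
    obtain ⟨y, hy⟩ := (cn ρ u h1.le u1).1
    exact (cn ρ b h1.le h2).2.subset_right_of_subset_union oH oH' dH (cov ▸
      subset_compl_iff_disjoint_right.2 (dj (by grind) (by grind) (by grind)))
      ⟨y, mo (by grind) hy, .inl hy⟩
  have dA : Disjoint H A := disjoint_left.2 fun y hy hy' =>
    (un (I1 := {ρ}) (I2 := Ioo ρ b) (by grind) hy').elim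
      (fun k => (cov ▸ .inl hy : y ∈ Sᶜ) k) fun k => disjoint_left.1 dH hy (hQ k)
  have lc : IsLocallyConstant fun y => N ρ y - m H y := by
    refine (IsLocallyConstant.iff_exists_open _).2 fun y => ?_
    by_cases k : y ∈ Z
    · have : ∀ y ∈ ψ '' R (Ioo s u), N ρ y - m H y = c - 1 := fun y hy => by
        rw [hB, hc y hy, ← m1 (H ∪ A) y ((hT y hy).trans ((un (by grind)).trans
          (union_subset_union_left _ hP)))]
        simp only [m]
        rw [setIntegral_union dA mA (η2 y).integrableOn (η2 y).integrableOn]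
        ring
      exact ⟨_, oo s u s1.le (by linarith), hZ k, fun x hx => by rw [this x hx, this y (hZ k)]⟩
    rcases (cov ▸ hZ' y k (mem_closedBall_self e0.le) : y ∈ H ∪ H') with k' | k'
    · have : ∀ y ∈ H, y ∉ Z → m H y = 1 := fun y hy hy' => m1 _ _ ((pb y).subset_left_of_subset_union
        oH oH' dH (cov ▸ hZ' y hy') ⟨y, mem_closedBall_self e0.le, hy⟩)
      exact ⟨_, oH.inter (oZ {N ρ y}), ⟨k', k, rfl⟩, fun x hx => by
        rw [this x hx.1 hx.2.1, this y k' k, hx.2.2]⟩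
    · have : ∀ y ∈ H', y ∉ Z → m H y = 0 := fun y hy hy' => m0 _ _ (dH.symm.mono_left
        ((pb y).subset_right_of_subset_union oH oH' dH (cov ▸ hZ' y hy')
          ⟨y, mem_closedBall_self e0.le, hy⟩))
      exact ⟨_, oH'.inter (oZ {N ρ y}), ⟨k', k, rfl⟩, fun x hx => by
        rw [this x hx.1 hx.2.1, this y k' k, hx.2.2]⟩
  obtain ⟨M, hM⟩ := (isCompact_closedBall (0 : E) ρ).exists_bound_of_continuousOn cψ.continuousOn
  have M0 : 0 ≤ M := (norm_nonneg _).trans (hM 0 (mem_closedBall_self (by linarith)))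
  let y0 : E := fun _ => M + 1 + ε
  have n0 : ‖y0‖ = M + 1 + ε := by rw [pi_norm_const, Real.norm_of_nonneg (by linarith)]
  have b0 : ∀ z ∈ closedBall y0 ε, M + 1 ≤ ‖z‖ := fun z hz => by
    have := norm_sub_norm_le y0 z
    have := mem_closedBall_iff_norm'.1 hz
    linarith
  have b1 : closedBall y0 ε ⊆ R (Ici 1) := fun z hz => show 1 ≤ ‖z‖ by linarith [b0 z hz]
  have N0 : N ρ y0 = 0 := setIntegral_eq_zero_of_forall_eq_zero fun x hx => by
    rw [image_eq_zero_of_notMem_tsupport (η1 _ _ fun k => ?_), mul_zero]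
    linarith [b0 _ k, hM x (ball_subset_closedBall hx)]
  have iN : ∫ y, N ρ y = volume.real (ball (0 : E) ρ) := by
    rw [fub cj (ib cj) cψ cη β.nonneg_normed β.integrable_normed β.integral_normed]
    refine intJ h fun x hx => ?_
    have := mem_sphere_zero_iff_norm.1 hx
    filter_upwards [(R_open isOpen_Ioo).mem_nhds (show ‖x‖ ∈ Ioo a b by grind)] using hs
  have F := fun y => lc.apply_eq_of_preconnectedSpace y y0
  rcases (R_conn (I := Ici 1) isConnected_Ici (by grind)).2.subset_or_subset oH oH' dH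
    (cov ▸ show R (Ici 1) ⊆ Sᶜ from fun z hz k => (mem_ball_zero_iff.1 (hX k)).not_ge hz)
    with k | k
  · exfalso
    have : ∫ y, N ρ y ≤ 0 := integral_nonpos fun y => by
      have := F y
      rw [N0, m1 _ _ (b1.trans k)] at this
      have : m H y ≤ 1 := η3 y ▸ setIntegral_le_integral (η2 y) (.of_forall fun _ =>
        β.nonneg_normed _)
      show N ρ y ≤ 0
      linarith
    rw [iN] at this
    exact this.not_gt (ENNReal.toReal_pos (measure_ball_pos _ _ (by linarith)).ne'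
      measure_ball_lt_top.ne)
  have hH : H ⊆ ball 0 1 := fun z hz => mem_ball_zero_iff.2 (lt_of_not_ge fun k' =>
    disjoint_left.1 dH hz (k k'))
  have fin : volume H < ⊤ := (measure_mono hH).trans_lt measure_ball_lt_top
  refine ⟨H, H', oH, oH', dH, cov, hH, ?_, hQ⟩
  rw [← measureReal_eq_measureReal_iff fin.ne measure_ball_lt_top.ne, ← iN]
  have := fub (μ := volume.restrict H) (j := fun _ => 1) continuous_const
    (integrableOn_const fin.ne) continuous_id cη β.nonneg_normed β.integrable_normed β.integral_normed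
  simp only [one_mul, id, integral_const, smul_eq_mul, mul_one, measureReal_restrict_apply_univ] at this
  rw [← this]
  refine integral_congr_ae (.of_forall fun y => ?_)
  have := F y
  rw [N0, m0 _ _ (dH.symm.mono_left (b1.trans k))] at this
  show m H y = N ρ y
  linarith

lemma key {φ : E → E} {a ρ b : ℝ} (a0 : 0 < a) (h1 : a < ρ) (h2 : ρ < b)
    (h : ContDiffOn ℝ 2 φ (R (Ioo a b))) (hi : InjOn φ (R (Ioo a b)))
    (hs : ∀ x ∈ R (Ioo a b), Sy (fderiv ℝ φ x)) (hX : MapsTo φ (R (Ioo a b)) (ball 0 1)) :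
    ∃ H H' : Set E, IsOpen H ∧ IsOpen H' ∧ Disjoint H H' ∧ H ∪ H' = (φ '' R {ρ})ᶜ ∧
      H ⊆ ball 0 1 ∧ volume H = volume (ball (0 : E) ρ) ∧ φ '' R (Ioo ρ b) ⊆ H' := by
  obtain ⟨s, s1, s2⟩ := exists_between h1
  obtain ⟨s', s3, s4⟩ := exists_between s1
  obtain ⟨t, t1, t2⟩ := exists_between h2
  obtain ⟨t', t3, t4⟩ := exists_between t2
  let β : ContDiffBump (0 : E) := ⟨s', s, by linarith, s4⟩
  let γ : ContDiffBump (0 : E) := ⟨t, t', by linarith, t3⟩
  let ψ : E → E := fun x => (γ x * (1 - β x)) • φ x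
  have e : ∀ x ∈ R (Ioo s t), ψ x = φ x := fun x hx => by
    simp only [ψ]
    rw [γ.one_of_mem_closedBall (mem_closedBall_zero_iff.2 hx.2.le),
      β.zero_of_le_dist (by simpa using hx.1.le)]
    simp
  have sub : R (Ioo s t) ⊆ R (Ioo a b) := fun x hx => Ioo_subset_Ioo s1.le t2.le hx
  have c : ContDiff ℝ 2 ψ := contDiff_iff_contDiffAt.2 fun x => by
    by_cases hx : x ∈ R (Ioo a b)
    · exact (γ.contDiff.mul (contDiff_const.sub β.contDiff)).contDiffAt.smul
        (h.contDiffAt ((R_open isOpen_Ioo).mem_nhds hx))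
    refine (contDiffAt_const (c := 0)).congr_of_eventuallyEq ?_
    by_cases k : ‖x‖ < s'
    · filter_upwards [(R_open isOpen_Iio).mem_nhds (show x ∈ R (Iio s') from k)] with y hy
      simp [ψ, β.one_of_mem_closedBall (mem_closedBall_zero_iff.2 (le_of_lt hy))]
    · filter_upwards [(R_open isOpen_Ioi).mem_nhds (show ‖x‖ ∈ Ioi t' by
        simp only [R, mem_setOf] at hx
        grind)] with y hy
      simp [ψ, γ.zero_of_le_dist (x := y) (by simpa using le_of_lt hy)]
  have e1 : ∀ I ⊆ Ioo s t, ψ '' R I = φ '' R I := fun I k => image_congr fun x hx => e x (k hx)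
  obtain ⟨H, H', o, o', d, cov, k1, k2, k3⟩ := key0 (by linarith : 0 < s) s2 t1 c
    ((hi.mono sub).congr fun x hx => (e x hx).symm) (fun x hx => by
      rw [EventuallyEq.fderiv_eq (f := φ) (by
        filter_upwards [(R_open isOpen_Ioo).mem_nhds hx] using e)]
      exact hs x (sub hx)) (by
      rw [e1 _ (by grind)]
      rintro _ ⟨x, hx : ‖x‖ = ρ, rfl⟩
      exact hX (show ‖x‖ ∈ Ioo a b by grind))
  rw [e1 _ (by grind)] at cov k3
  refine ⟨H, H', o, o', d, cov, k1, k2, ?_⟩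
  have sub' : R (Ioo ρ b) ⊆ R (Ioo a b) := fun x hx => Ioo_subset_Ioo_left h1.le hx
  obtain ⟨x, hx⟩ := (R_conn (isConnected_Ioo t1) (by grind)).1
  refine ((R_conn (isConnected_Ioo h2) (by grind)).image _
    (h.continuousOn.mono sub')).2.subset_right_of_subset_union o o' d ?_
    ⟨φ x, ⟨x, Ioo_subset_Ioo_right t2.le hx, rfl⟩, k3 ⟨x, hx, rfl⟩⟩
  rw [cov]
  rintro _ ⟨x, hx, rfl⟩ ⟨y, hy : ‖y‖ = ρ, k⟩
  have := hi (show ‖y‖ ∈ Ioo a b by grind) (sub' hx) k
  exact hx.1.ne (this ▸ hy.symm)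

lemma vol {φ : E → E} {U I : Set E} (hU : IsOpen U) (h : ContDiffOn ℝ 2 φ U) (hi : InjOn φ U)
    (hs : ∀ x ∈ U, Sy (fderiv ℝ φ x)) (hI : MeasurableSet I) (k : I ⊆ U) :
    MeasurableSet (φ '' I) ∧ volume (φ '' I) = volume I := by
  have fd : ∀ x ∈ I, HasFDerivWithinAt φ (fderiv ℝ φ x) I x := fun x hx =>
    ((h.contDiffAt (hU.mem_nhds (k hx))).differentiableAt
      (by norm_num)).hasFDerivAt.hasFDerivWithinAt
  refine ⟨measurable_image_of_fderivWithin hI fd (hi.mono k), ?_⟩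
  rw [← lintegral_abs_det_fderiv_eq_addHaar_image _ hI fd (hi.mono k),
    setLIntegral_congr_fun hI (g := fun _ => 1) fun x hx => by simp [(hs x (k hx)).det]]
  simp

end Pool.Agent.H85.Shell2
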