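import Mathlib
import Pool.Agent.H85.Cov

set_option autoImplicit false

namespace Pool.Agent.H85.Sierp

open Set Filter Cardinal MeasureTheory Topology Pool.Agent.H85.CovDefs Pool.Agent.H85.Cov
open scoped ENNReal

/-- A set of reals meeting every null set in a countable set is Hurewicz. -/
theorem hurewicz_of_null {Y : Set ℝ} (hY : ∀ N : Set ℝ, volume N = 0 → (Y ∩ N).Countable) :
    Hurewicz Y := by
  refine hurewicz_of_arr fun u hu => ?_
  obtain ⟨v, hv1, hv2, hv3⟩ := arr_extend hu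
  let B : ℕ → ℕ → Set ℝ := fun n k => (Icc (-(n : ℝ)) n ∩ ⋃ k, v n k) \ v n k
  have hB : ∀ n, ∃ k, volume (B n k) < (2 : ℝ≥0∞)⁻¹ ^ n := by
    intro n
    have ht := tendsto_measure_iInter_atTop (μ := volume) (s := B n)
      (fun k => ((measurableSet_Icc.inter (isOpen_iUnion (hv1 n)).measurableSet).diff
        (hv1 n k).measurableSet).nullMeasurableSet)
      (fun a b hab => sdiff_subset_sdiff_right (hv2 n hab))
      ⟨0, ((measure_mono (sdiff_subset.trans inter_subset_left)).trans_lt measure_Icc_lt_top).ne⟩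
    have h0 : ⋂ k, B n k = ∅ := by
      refine eq_empty_of_forall_notMem fun x hx => ?_
      obtain ⟨k, hk⟩ := mem_iUnion.1 (mem_iInter.1 hx 0).1.2
      exact (mem_iInter.1 hx k).2 hk
    rw [h0, measure_empty] at ht
    exact (ht.eventually (gt_mem_nhds (ENNReal.pow_pos (by simp) n))).exists
  choose k hk using hB
  have hN : volume {x | ∃ᶠ n in atTop, x ∈ B n (k n)} = 0 := by
    refine measure_setOfPred_frequently_eq_zero (ne_top_of_le_ne_top ?_
      (ENNReal.tsum_le_tsum fun n => (hk n).le))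
    rw [ENNReal.tsum_geometric]; simp
  obtain ⟨g, hg⟩ := absorb hu.2.1 ((hY _ hN).preimage Subtype.val_injective)
    (fun n x _ => hu.2.2 n x)
  refine ⟨fun n => max (k n) (g n), fun y => ?_⟩
  by_cases hy : ∃ᶠ n in atTop, y.1 ∈ B n (k n)
  · exact (hg y ⟨y.2, hy⟩).mono fun n hn => hu.2.1 n (le_max_right _ _) hn
  · rw [not_frequently] at hy
    obtain ⟨m, hm⟩ := exists_nat_ge |y.1|
    filter_upwards [hy, eventually_ge_atTop m] with n hn hmn
    have h1 : |y.1| ≤ n := hm.trans (by exact_mod_cast hmn)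
    obtain ⟨j, hj⟩ := hu.2.2 n y
    refine hu.2.1 n (le_max_left _ _) ((hv3 _ _ y).1 ?_)
    by_contra hc
    exact hn ⟨⟨abs_le.1 h1, mem_iUnion.2 ⟨j, (hv3 _ _ y).2 hj⟩⟩, hc⟩

/-- An enumeration of the rationals in which each one appears infinitely often. -/
noncomputable def q (n : ℕ) : ℚ := (Denumerable.eqv ℚ).symm (Nat.unpair n).1

/-- An uncountable null Borel set of points often close to the rationals. -/
theorem exists_G (g : ℕ → ℕ) : ∃ G : Set ℝ, MeasurableSet G ∧ volume G = 0 ∧ ¬ G.Countable ∧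
    ∀ z ∈ G, ∃ᶠ n in atTop, |z - q n| < 1 / ((g n : ℝ) + 1) := by
  let r : ℕ → ℝ := fun n => min (1 / ((g n : ℝ) + 1)) ((1 / 2) ^ n)
  have hr : ∀ n, 0 < r n := fun n => lt_min (by positivity) (by positivity)
  let O : ℕ → Set ℝ := fun N => ⋃ n ∈ Ici N, Metric.ball (q n : ℝ) (r n)
  have hO : ∀ N, IsOpen (O N) := fun N => isOpen_biUnion fun n _ => Metric.isOpen_ball
  have hfr : ∀ z ∈ ⋂ N, O N, ∃ᶠ n in atTop, z ∈ Metric.ball (q n : ℝ) (r n) := fun z hz =>
    frequently_atTop.2 fun N => by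
      obtain ⟨n, hn, h⟩ := mem_iUnion₂.1 (mem_iInter.1 hz N)
      exact ⟨n, hn, h⟩
  refine ⟨⋂ N, O N, MeasurableSet.iInter fun N => (hO N).measurableSet, ?_, fun hc => ?_,
    fun z hz => (hfr z hz).mono fun n hn => ?_⟩
  · refine measure_mono_null hfr (measure_setOfPred_frequently_eq_zero (ne_top_of_le_ne_top
      (b := ∑' n, 2 * (2 : ℝ≥0∞)⁻¹ ^ n) ?_ (ENNReal.tsum_le_tsum fun n => ?_)))
    · rw [ENNReal.tsum_mul_left, ENNReal.tsum_geometric]; simp [ENNReal.mul_eq_top]
    · change volume (Metric.ball (q n : ℝ) (r n)) ≤ _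
      rw [Real.volume_ball, ENNReal.ofReal_mul (by norm_num)]
      refine mul_le_mul (by simp) ?_ (by simp) (by simp)
      refine (ENNReal.ofReal_le_ofReal (min_le_right _ _)).trans ?_
      rw [ENNReal.ofReal_pow (by norm_num), one_div, ENNReal.ofReal_inv_of_pos (by norm_num)]
      simp
  · have h1 : (⋂ N, O N) ∈ residual ℝ := countable_iInter_mem.2 fun N =>
      residual_of_dense_open (hO N) (Rat.denseRange_cast.mono (by
        rintro _ ⟨a, rfl⟩
        refine mem_biUnion (x := Nat.pair (Denumerable.eqv ℚ a) N) (Nat.right_le_pair _ _) ?_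
        simp [q, hr]))
    have h2 : (⋂ z ∈ (⋂ N, O N), ({z}ᶜ : Set ℝ)) ∈ residual ℝ :=
      (countable_bInter_mem hc).2 fun z _ =>
        residual_of_dense_open isOpen_compl_singleton (dense_compl_singleton z)
    obtain ⟨z, hz1, hz2⟩ := (dense_of_mem_residual (inter_mem h1 h2)).nonempty
    exact mem_iInter₂.1 hz2 z hz1 rfl
  · rw [Metric.mem_ball, Real.dist_eq] at hn
    exact hn.trans_le (min_le_left _ _)

/-- The basic step of the construction. -/
theorem step {S : Set ℝ} (hS : Sierpinski S) (g : ℕ → ℕ) {N : Set ℝ} (hNm : MeasurableSet N)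
    (hN : volume N = 0) : ∃ y, y ∉ N ∧ (∀ s ∈ S, ∀ a : ℚ, s + y ≠ a) ∧
      ∃ s ∈ S, ∃ᶠ n in atTop, |s + y - q n| < 1 / ((g n : ℝ) + 1) := by
  obtain ⟨G, hGm, hG0, hGc, hG⟩ := exists_G g
  have := hGm.standardBorel
  let e : ℝ ≃ᵐ G := PolishSpace.measurableEquivOfNotCountable (not_countable)
    (fun h => hGc (countable_coe_iff.1 h))
  let φ : ℝ → ℝ := fun t => (e t : ℝ)
  have hφm : Measurable φ := measurable_subtype_coe.comp e.measurable
  have hφi : Function.Injective φ := Subtype.val_injective.comp e.injective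
  have h1 : ∀ᵐ t ∂(volume : Measure ℝ), ∀ᵐ s ∂(volume : Measure ℝ), φ t - s ∉ N :=
    Eventually.of_forall fun t => by
      have := (Measure.measurePreserving_sub_left (volume : Measure ℝ) (φ t)).measure_preimage
        hNm.nullMeasurableSet
      rw [hN] at this
      exact measure_eq_zero_iff_ae_notMem.1 this
  replace h1 := (Measure.ae_ae_comm (p := fun t s => φ t - s ∉ N)
    (((hφm.comp measurable_fst).sub measurable_snd) hNm.compl)).1 h1
  obtain ⟨s, hs, hsg⟩ : ∃ s ∈ S, ∀ᵐ t ∂(volume : Measure ℝ), φ t - s ∉ N := by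
    by_contra hc
    push Not at hc
    exact hS.1 ((hS.2 _ (ae_iff.1 h1)).mono fun s hs => mem_inter hs (hc s hs))
  have hE : {t | ∃ a : ℚ, s + a - φ t ∈ S}.Countable := by
    rw [ofPred_exists]
    refine countable_iUnion fun a => ?_
    have h0 : volume ((fun x => s + a - x) ⁻¹' G) = 0 := by
      rw [(Measure.measurePreserving_sub_left (volume : Measure ℝ) (s + a)).measure_preimage
        hGm.nullMeasurableSet, hG0]
    refine ((hS.2 _ h0).preimage (f := fun t => s + a - φ t)
      (sub_right_injective.comp hφi)).mono ?_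
    intro t ht
    exact ⟨ht, by simp [φ]⟩
  obtain ⟨t, ht1, ht2⟩ := (hsg.and (measure_eq_zero_iff_ae_notMem.1
    (hE.measure_zero (volume : Measure ℝ)))).exists
  refine ⟨φ t - s, ht1, fun s' hs' a ha => ht2 ⟨a, ?_⟩, s, hs, ?_⟩
  · rwa [show s + a - φ t = s' by linarith]
  · rw [add_sub_cancel]; exact hG _ (e t).2

theorem mk_measurable_le : #{N : Set ℝ | MeasurableSet N} ≤ continuum := by
  have := MeasurableSpace.cardinal_measurableSet_le_continuum
    (s := MeasurableSpace.countableGeneratingSet ℝ)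
    ((le_aleph0_iff_set_countable.2 MeasurableSpace.countable_countableGeneratingSet).trans
      aleph0_le_continuum)
  rwa [MeasurableSpace.generateFrom_countableGeneratingSet] at this

theorem main (hCH : continuum.{0} = aleph 1) {S : Set ℝ} (hS : Sierpinski S) :
    ∃ Y : Set ℝ, Hurewicz Y ∧ ¬ Hurewicz (S × Y) := by
  let ι := (ℕ → ℕ) × {N : Set ℝ | MeasurableSet N ∧ volume N = 0}
  have hι : #ι ≤ continuum := by
    have h1 : #{N : Set ℝ | MeasurableSet N ∧ volume N = 0} ≤ continuum :=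
      (mk_le_mk_of_subset fun N hN => hN.1).trans mk_measurable_le
    simp only [ι, mk_prod, lift_id, mk_pi, prod_const, mk_nat, aleph0_power_aleph0]
    exact (mul_le_mul_right h1 _).trans continuum_mul_self.le
  obtain ⟨L, hc, hL⟩ := ch_rel hCH ι hι
  choose y hy1 hy2 hy3 using fun i : ι => step hS i.1 (N := ⋃ j ∈ L i, (j.2 : Set ℝ))
    (MeasurableSet.biUnion (hc i) fun j _ => j.2.2.1)
    ((measure_biUnion_null_iff (hc i)).2 fun j _ => j.2.2.2)
  refine ⟨range y, hurewicz_of_null fun N hN => ?_, fun hH => ?_⟩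
  · let j : ι := (0, ⟨toMeasurable volume N, measurableSet_toMeasurable _ _, by simpa using hN⟩)
    refine ((hc j).image y).mono ?_
    rintro _ ⟨⟨i, rfl⟩, hi⟩
    refine ⟨i, ?_, rfl⟩
    by_contra hij
    exact hy1 i (mem_biUnion (x := j) ((hL i j).resolve_left hij) (subset_toMeasurable _ _ hi))
  · obtain ⟨g, hg⟩ := arr_of_hurewicz hH
      (u := fun n k => {p : S × range y | 1 / ((k : ℝ) + 1) < |p.1.1 + p.2.1 - q n|})
      ⟨fun n k => isOpen_lt continuous_const (by fun_prop), fun n a b hab p hp => by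
        refine lt_of_le_of_lt ?_ (show 1 / ((a : ℝ) + 1) < _ from hp)
        exact one_div_le_one_div_of_le (by positivity) (by exact_mod_cast Nat.succ_le_succ hab),
      fun n p => by
        obtain ⟨i, hi⟩ := p.2.2
        exact exists_nat_one_div_lt (abs_pos.2 (sub_ne_zero.2 (hi ▸ hy2 i _ p.1.2 _)))⟩
    let i : ι := (g, ⟨∅, MeasurableSet.empty, measure_empty⟩)
    obtain ⟨s, hs, hfr⟩ := hy3 i
    obtain ⟨n, h1, h2⟩ := (hfr.and_eventually (hg (⟨s, hs⟩, ⟨y i, i, rfl⟩))).exists
    exact lt_asymm h1 h2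

end Pool.Agent.H85.Sierp
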