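import Pool.Agent.H85.SigmaHomDefs
import Pool.Agent.H83.Rec

set_option autoImplicit false

namespace Pool.Agent.H85.SigmaHom

open Set TopologicalSpace Cardinal Filter Topology Pool.Agent.H85.SigmaHomDefs

/-- The Cantor group. -/
abbrev C : Type := ℕ → ZMod 2

theorem mk_C : #C = 𝔠 := by simp [C]

theorem mk_span_lt {S : Set C} (hS : #S < 𝔠) : #(Submodule.span (ZMod 2) S : Set C) < 𝔠 := by
  have h : (Submodule.span (ZMod 2) S : Set C) ⊆
      range (fun l : List S => (l.map Subtype.val).sum) := by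
    intro x hx
    induction hx using Submodule.span_induction with
    | mem x hx => exact ⟨[⟨x, hx⟩], by simp⟩
    | zero => exact ⟨[], by simp⟩
    | add x y _ _ hx hy =>
      obtain ⟨l, rfl⟩ := hx
      obtain ⟨l', rfl⟩ := hy
      exact ⟨l ++ l', by simp⟩
    | smul a x _ hx =>
      have : a = 0 ∨ a = 1 := by revert a; decide
      rcases this with rfl | rfl
      · exact ⟨[], by simp⟩
      · rwa [one_smul]
  exact ((mk_le_mk_of_subset h).trans mk_range_le).trans_lt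
    ((mk_list_le_max _).trans_lt (max_lt aleph0_lt_continuum hS))

theorem exists_notMem {V : Set C} (hV : #V < 𝔠) : ∃ x, x ∉ V := by
  by_contra h
  push Not at h
  rw [eq_univ_of_forall h, mk_univ, mk_C] at hV
  exact lt_irrefl _ hV

theorem mk_closed_le {Z : Type} [TopologicalSpace Z] [SecondCountableTopology Z] :
    #{s : Set Z // IsClosed s} ≤ 𝔠 := by
  have hc := (countable_countableBasis Z).to_subtype
  let f : {s : Set Z // IsClosed s} → Set (countableBasis Z) := fun s => {b | b.1 ⊆ s.1ᶜ}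
  have key : ∀ s t, f s = f t → s.1ᶜ ⊆ t.1ᶜ := by
    intro s t h x hx
    obtain ⟨b, hb, hxb, hbs⟩ :=
      (isBasis_countableBasis Z).exists_subset_of_mem_open hx s.2.isOpen_compl
    have : (⟨b, hb⟩ : countableBasis Z) ∈ f t := h ▸ hbs
    exact this hxb
  have hf : Function.Injective f := fun s t h =>
    Subtype.ext (compl_injective (Subset.antisymm (key s t h) (key t s h.symm)))
  refine (mk_le_of_injective hf).trans ?_
  rw [mk_set, ← two_power_aleph0]
  exact power_le_power_left two_ne_zero mk_le_aleph0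

/-- A relation with many non-diagonal pairs. -/
def Big (Γ : Set (C × C)) : Prop :=
  ∀ V : Set C, #V < 𝔠 → ∃ p ∈ Γ, p.1 ≠ p.2 ∧ p.1 ∉ V ∧ p.2 ∉ V

/-- Tasks. -/
abbrev Task : Type := {s : Set (C × C) // IsClosed s} ⊕ (Bool × C)

/-- Answers to tasks. -/
abbrev Ans : Type := Task × (C × C) × Bool

/-- The group on side `b`. -/
def G (S : Set Ans) (b : Bool) : Submodule (ZMod 2) C :=
  Submodule.span (ZMod 2) ((fun a : Ans => a.2.1.1) '' {a ∈ S | a.2.2 = b})

theorem G_mono {S T : Set Ans} (h : T ⊆ S) (b : Bool) : G T b ≤ G S b :=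
  Submodule.span_mono (image_mono fun _ ha => ⟨h ha.1, ha.2⟩)

theorem G_fin {S : Set Ans} {b : Bool} {x : C} (hx : x ∈ G S b) :
    ∃ T ⊆ S, T.Finite ∧ x ∈ G T b := by
  obtain ⟨F, hF, hxF⟩ := Submodule.mem_span_finite_of_mem_span hx
  obtain ⟨T, hT, hTf, hTe⟩ := F.finite_toSet.exists_subset_finite_image_eq hF
  refine ⟨T, fun a ha => (hT ha).1, hTf, Submodule.span_mono ?_ hxF⟩
  rw [← hTe]
  exact image_mono fun a ha => ⟨ha, (hT ha).2⟩

theorem G_insert {S : Set Ans} {a : Ans} {b : Bool} {z : C} (hz : z ∈ G (insert a S) b) :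
    z ∈ G S b ∨ (a.2.2 = b ∧ z - a.2.1.1 ∈ G S b) := by
  by_cases hb : a.2.2 = b
  · have : {c ∈ insert a S | c.2.2 = b} = insert a {c ∈ S | c.2.2 = b} := by
      ext c
      constructor
      · rintro ⟨rfl | h, h'⟩
        · exact Or.inl rfl
        · exact Or.inr ⟨h, h'⟩
      · rintro (rfl | ⟨h, h'⟩)
        · exact ⟨Or.inl rfl, hb⟩
        · exact ⟨Or.inr h, h'⟩
    rw [G, this, image_insert_eq, Submodule.mem_span_insert] at hz
    obtain ⟨r, w, hw, rfl⟩ := hz
    have hr : r = 0 ∨ r = 1 := by revert r; decide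
    rcases hr with rfl | rfl
    · left; simpa [G] using hw
    · right; exact ⟨hb, by simpa [G] using hw⟩
  · have : {c ∈ insert a S | c.2.2 = b} = {c ∈ S | c.2.2 = b} := by
      ext c
      constructor
      · rintro ⟨rfl | h, h'⟩
        · exact absurd h' hb
        · exact ⟨h, h'⟩
      · rintro ⟨h, h'⟩
        exact ⟨Or.inr h, h'⟩
    rw [G, this] at hz
    exact Or.inl hz

/-- The invariant of the construction. -/
def Inv (S : Set Ans) : Prop :=
  (∀ a ∈ S, ∀ b, a.2.1.2 ∉ G S b) ∧ (∀ z ∈ G S true, z ∈ G S false → z = 0) ∧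
    InjOn (fun a : Ans => a.2.1.1) S

/-- What an answer must satisfy. -/
def P (i : Task) (a : Ans) : Prop :=
  a.1 = i ∧ (∀ Γ, i = Sum.inl Γ → Big Γ.1 → a.2.1 ∈ Γ.1) ∧ ∀ b j, i = Sum.inr (b, j) → a.2.2 = b

theorem inv_insert {S : Set Ans} (hI : Inv S) {V : Submodule (ZMod 2) C} (hG : ∀ b, G S b ≤ V)
    (hy : ∀ a ∈ S, a.2.1.2 ∈ V) {a : Ans} (h1 : a.2.1.1 ∉ V) (h2 : a.2.1.2 ∉ V)
    (h3 : a.2.1.2 - a.2.1.1 ∉ G S a.2.2) : Inv (insert a S) := by
  have hx : ∀ c ∈ S, c.2.1.1 ∈ V := fun c hc =>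
    hG c.2.2 (Submodule.subset_span ⟨c, ⟨hc, rfl⟩, rfl⟩)
  have key : ∀ z ∈ V, ∀ b, z - a.2.1.1 ∉ G S b := fun z hz b h =>
    h1 (by simpa using V.sub_mem hz (hG b h))
  refine ⟨?_, ?_, ?_⟩
  · rintro c (rfl | hc) b h
    · rcases G_insert h with h | ⟨rfl, h⟩
      · exact h2 (hG b h)
      · exact h3 h
    · rcases G_insert h with h | ⟨_, h⟩
      · exact hI.1 c hc b h
      · exact key _ (hy c hc) b h
  · intro z hz hz'
    rcases G_insert hz with h | ⟨e, h⟩
    · rcases G_insert hz' with h' | ⟨_, h'⟩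
      · exact hI.2.1 z h h'
      · exact absurd h' (key z (hG _ h) _)
    · rcases G_insert hz' with h' | ⟨e', _⟩
      · exact absurd h (key z (hG _ h') _)
      · rw [e] at e'; cases e'
  · have hn : a ∉ S := fun h => h1 (hx a h)
    rw [injOn_insert hn]
    refine ⟨hI.2.2, ?_⟩
    rintro ⟨c, hc, h⟩
    have h' : c.2.1.1 = a.2.1.1 := h
    exact h1 (h' ▸ hx c hc)

theorem step (S : Set Ans) (i : Task) (hS : #S < 𝔠) (hI : Inv S) :
    ∃ a, P i a ∧ Inv (insert a S) := by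
  let W : Set C := (fun a : Ans => a.2.1.1) '' S ∪ (fun a : Ans => a.2.1.2) '' S
  have hW : #W < 𝔠 := (mk_union_le _ _).trans_lt
    (add_lt_of_lt aleph0_le_continuum (mk_image_le.trans_lt hS) (mk_image_le.trans_lt hS))
  let V := Submodule.span (ZMod 2) W
  have hG : ∀ b, G S b ≤ V := fun b =>
    Submodule.span_mono ((image_mono fun _ h => h.1).trans subset_union_left)
  have hy : ∀ a ∈ S, a.2.1.2 ∈ V := fun a ha => Submodule.subset_span (Or.inr ⟨a, ha, rfl⟩)
  have free : ∀ b : Bool, ∃ p : C × C, Inv (insert (i, p, b) S) := by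
    intro b
    obtain ⟨x, hx⟩ := exists_notMem (mk_span_lt hW)
    obtain ⟨y, hy'⟩ := exists_notMem (mk_span_lt (S := insert x W)
      (mk_insert_le.trans_lt (add_lt_of_lt aleph0_le_continuum hW
        (one_lt_aleph0.trans aleph0_lt_continuum))))
    have hle : V ≤ Submodule.span (ZMod 2) (insert x W) := Submodule.span_mono (subset_insert _ _)
    refine ⟨(x, y), inv_insert hI hG hy hx (fun h => hy' (hle h)) fun h => hy' ?_⟩
    have := Submodule.add_mem _ (hle (hG _ h)) (Submodule.subset_span (mem_insert x W))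
    simpa using this
  rcases i with Γ | ⟨b, j⟩
  · by_cases hB : Big Γ.1
    · obtain ⟨p, hp, hne, h1, h2⟩ := hB V (mk_span_lt hW)
      have : ∃ b, p.2 - p.1 ∉ G S b := by
        by_contra h
        push Not at h
        exact hne (sub_eq_zero.1 (hI.2.1 _ (h true) (h false))).symm
      obtain ⟨b, hb⟩ := this
      refine ⟨(Sum.inl Γ, p, b), ⟨rfl, ?_, ?_⟩, inv_insert hI hG hy h1 h2 hb⟩
      · rintro _ ⟨⟩ _; exact hp
      · rintro _ _ ⟨⟩
    · obtain ⟨p, hp⟩ := free true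
      refine ⟨_, ⟨rfl, ?_, ?_⟩, hp⟩
      · rintro _ ⟨⟩ h; exact absurd h hB
      · rintro _ _ ⟨⟩
  · obtain ⟨p, hp⟩ := free b
    refine ⟨_, ⟨rfl, ?_, ?_⟩, hp⟩
    · rintro _ ⟨⟩
    · rintro _ _ ⟨⟩; rfl

theorem exists_groups : ∃ H : Bool → Submodule (ZMod 2) C, (∀ b, 𝔠 ≤ #(H b : Set C)) ∧
    ∀ Γ : Set (C × C), IsClosed Γ → Big Γ → ∃ p ∈ Γ, (∃ b, p.1 ∈ H b) ∧ ∀ b, p.2 ∉ H b := by
  have hT : #Task ≤ 𝔠 := by
    rw [mk_sum, lift_id, lift_id, mk_prod, lift_id, lift_id, mk_C]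
    refine add_le_of_le aleph0_le_continuum mk_closed_le ?_
    simp
  have key : ∃ f : Task → Ans, (∀ i, P i (f i)) ∧ Inv (range f) := by
    refine Pool.Agent.H83.Rec.build 𝔠 hT P Inv ?_ ?_ ?_ step
    · intro S T h hT
      exact ⟨fun a ha b h' => h.1 a (hT ha) b (G_mono hT b h'),
        fun z h1 h2 => h.2.1 z (G_mono hT _ h1) (G_mono hT _ h2), h.2.2.mono hT⟩
    · intro S h
      refine ⟨fun a ha b h' => ?_, fun z h1 h2 => ?_, fun a ha c hc h' => ?_⟩
      · obtain ⟨T, hT, hTf, hx⟩ := G_fin h'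
        exact (h (insert a T) (insert_subset ha hT) (hTf.insert a)).1 a (mem_insert _ _) b
          (G_mono (subset_insert _ _) b hx)
      · obtain ⟨T, hT, hTf, hx⟩ := G_fin h1
        obtain ⟨T', hT', hTf', hx'⟩ := G_fin h2
        exact (h (T ∪ T') (union_subset hT hT') (hTf.union hTf')).2.1 z
          (G_mono subset_union_left _ hx) (G_mono subset_union_right _ hx')
      · exact (h {a, c} (by simp [insert_subset_iff, ha, hc]) (by simp)).2.2 (by simp) (by simp) h'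
    · refine ⟨fun _ h => h.elim, fun z hz _ => ?_, fun _ h => h.elim⟩
      simpa [G] using hz
  obtain ⟨f, hP, hI⟩ := key
  · refine ⟨G (range f), fun b => ?_, fun Γ hΓ hB => ?_⟩
    · rw [← mk_C]
      refine mk_le_of_injective (f := fun j => ⟨(f (Sum.inr (b, j))).2.1.1,
        Submodule.subset_span ⟨_, ⟨⟨_, rfl⟩, (hP _).2.2 b j rfl⟩, rfl⟩⟩) fun j k h => ?_
      have h1 := hI.2.2 ⟨_, rfl⟩ ⟨_, rfl⟩ (congrArg Subtype.val h)
      have h2 := (hP (Sum.inr (b, j))).1
      rw [h1, (hP _).1] at h2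
      simpa using h2.symm
    · exact ⟨_, (hP (Sum.inl ⟨Γ, hΓ⟩)).2.1 _ rfl hB,
        ⟨_, Submodule.subset_span ⟨_, ⟨⟨_, rfl⟩, rfl⟩, rfl⟩⟩, hI.1 _ ⟨_, rfl⟩⟩

theorem nhds_big {Z : Type} [TopologicalSpace Z] [SecondCountableTopology Z]
    (hZ : IsHomogeneous Z) (hc : 𝔠 ≤ #Z) {U : Set Z} (hU : IsOpen U) (hne : U.Nonempty) :
    𝔠 ≤ #U := by
  by_contra hlt
  push Not at hlt
  obtain ⟨x, hx⟩ := hne
  choose h hh using fun y => hZ x y
  obtain ⟨s, hs, hcov⟩ := countable_cover_nhds (f := fun y => h y '' U) fun y =>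
    ((h y).isOpenMap U hU).mem_nhds ⟨x, hx, hh y⟩
  have h1 : #Z ≤ #s * #U := by
    rw [← mk_univ, ← hcov, biUnion_eq_iUnion]
    refine (mk_iUnion_le _).trans (mul_le_mul_right ?_ _)
    exact ciSup_le' fun y => mk_image_le
  exact absurd (hc.trans h1) (not_le.2 (mul_lt_of_lt aleph0_le_continuum
    (hs.le_aleph0.trans_lt aleph0_lt_continuum) hlt))

theorem sub_hom (H : Submodule (ZMod 2) C) : IsHomogeneous (H : Set C) := fun x y =>
  ⟨Homeomorph.addRight (G := H) (y - x), by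
    show (x : H) + (y - x) = y
    abel⟩

theorem hom_of_homeo {Y Z : Type} [TopologicalSpace Y] [TopologicalSpace Z] (e : Y ≃ₜ Z)
    (h : IsHomogeneous Y) : IsHomogeneous Z := fun x y => by
  obtain ⟨f, hf⟩ := h (e.symm x) (e.symm y)
  exact ⟨(e.symm.trans f).trans e, by simp [hf]⟩

theorem moved_small {X : Set C}
    (hX : ∀ Γ : Set (C × C), IsClosed Γ → Big Γ → ∃ p ∈ Γ, p.1 ∈ X ∧ p.2 ∉ X)
    {A : Set X} (hA : IsClosed A) (h : A ≃ₜ A) : #{x | h x ≠ x} < 𝔠 := by
  let e : A → C := fun a => a.1.1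
  have he : IsEmbedding e := IsEmbedding.subtypeVal.comp IsEmbedding.subtypeVal
  let Γ : Set (C × C) := closure (range fun a => (e a, e (h a)))
  have hnb : ¬ Big Γ := by
    intro hB
    obtain ⟨p, hp, h1, h2⟩ := hX Γ isClosed_closure hB
    obtain ⟨u, hu, hlim⟩ := mem_closure_iff_seq_limit.1 hp
    choose a ha using hu
    have l1 : Tendsto (fun n => e (a n)) atTop (𝓝 p.1) :=
      ((continuous_fst.tendsto p).comp hlim).congr fun n => by simp [← ha n]
    have l2 : Tendsto (fun n => e (h (a n))) atTop (𝓝 p.2) :=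
      ((continuous_snd.tendsto p).comp hlim).congr fun n => by simp [← ha n]
    have l3 : Tendsto (fun n => (a n).1) atTop (𝓝 (⟨p.1, h1⟩ : X)) :=
      tendsto_subtype_rng.2 l1
    have hmem : (⟨p.1, h1⟩ : X) ∈ A := hA.mem_of_tendsto l3 (Eventually.of_forall fun n => (a n).2)
    have l4 : Tendsto a atTop (𝓝 (⟨_, hmem⟩ : A)) := tendsto_subtype_rng.2 l3
    have l5 := ((he.continuous.comp h.continuous).tendsto _).comp l4
    have := tendsto_nhds_unique l2 l5
    exact h2 (this ▸ (h ⟨_, hmem⟩).1.2)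
  unfold Big at hnb
  push Not at hnb
  obtain ⟨V, hV, hΓ⟩ := hnb
  have hsub : {x | h x ≠ x} ⊆ e ⁻¹' V ∪ (e ∘ h) ⁻¹' V := by
    intro x hx
    by_cases h1 : e x ∈ V
    · exact Or.inl h1
    · exact Or.inr (hΓ _ (subset_closure ⟨x, rfl⟩) (fun h' => hx (he.injective h').symm) h1)
  exact ((mk_le_mk_of_subset hsub).trans (mk_union_le _ _)).trans_lt
    (add_lt_of_lt aleph0_le_continuum
      ((mk_preimage_of_injective _ _ he.injective).trans_lt hV)
      ((mk_preimage_of_injective _ _ (he.injective.comp h.injective)).trans_lt hV))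

theorem zeroDim (X : Set C) (hne : X.Nonempty) : IsZeroDimSpace X := by
  refine ⟨inferInstance, inferInstance, hne.to_subtype, ?_⟩
  refine ((isTopologicalBasis_isClopen (X := C)).induced (Subtype.val : X → C)).of_isOpen_of_subset
    (fun s hs => hs.isOpen) ?_
  rintro _ ⟨s, hs, rfl⟩
  exact IsClopen.preimage hs continuous_subtype_val

theorem main : ∃ X : Set C, IsZeroDimSpace X ∧ IsSigmaHomogeneous X ∧ IsRigid X ∧
    ¬ IsSigmaHomogeneousClosed X := by
  obtain ⟨H, hH, hΓ⟩ := exists_groups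
  let X : Set C := ⋃ b, (H b : Set C)
  have hX : ∀ Γ : Set (C × C), IsClosed Γ → Big Γ → ∃ p ∈ Γ, p.1 ∈ X ∧ p.2 ∉ X := by
    intro Γ h1 h2
    obtain ⟨p, hp, ⟨b, hb⟩, h⟩ := hΓ Γ h1 h2
    exact ⟨p, hp, mem_iUnion.2 ⟨b, hb⟩, fun h' => (mem_iUnion.1 h').elim h⟩
  have hsub : ∀ b, (H b : Set C) ⊆ X := fun b => subset_iUnion (fun b => (H b : Set C)) b
  let A : Bool → Set X := fun b => range (inclusion (hsub b))
  have hA : ∀ b, IsHomogeneous (A b) := fun b =>
    hom_of_homeo (IsEmbedding.inclusion (hsub b)).toHomeomorph (sub_hom (H b))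
  have hXc : 𝔠 ≤ #X := (hH true).trans (mk_le_mk_of_subset (hsub true))
  have hopen : ∀ U : Set X, IsOpen U → U.Nonempty → 𝔠 ≤ #U := by
    rintro U hU ⟨⟨x, hx⟩, hxU⟩
    obtain ⟨b, hb⟩ := mem_iUnion.1 hx
    exact (nhds_big (sub_hom (H b)) (hH b) (hU.preimage (continuous_inclusion (hsub b)))
      ⟨⟨x, hb⟩, hxU⟩).trans (mk_preimage_of_injective _ _ (inclusion_injective _))
  refine ⟨X, zeroDim X ⟨0, hsub true (H true).zero_mem⟩,
    ⟨fun n => A (decide (n = 0)), fun n => hA _, eq_univ_of_forall ?_⟩, ⟨?_, fun h x => ?_⟩, ?_⟩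
  · rintro ⟨x, hx⟩
    obtain ⟨b, hb⟩ := mem_iUnion.1 hx
    cases b
    · exact mem_iUnion.2 ⟨1, ⟨x, hb⟩, rfl⟩
    · exact mem_iUnion.2 ⟨0, ⟨x, hb⟩, rfl⟩
  · exact one_lt_iff_nontrivial.1 ((one_lt_aleph0.trans aleph0_lt_continuum).trans_le hXc)
  · by_contra hne
    let e := Homeomorph.Set.univ X
    have h1 := moved_small hX isClosed_univ ((e.trans h).trans e.symm)
    have h2 := hopen {x | h x ≠ x} (isOpen_ne_fun h.continuous continuous_id) ⟨x, hne⟩
    refine absurd (h2.trans ?_) (not_le.2 h1)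
    refine mk_le_of_injective (f := fun z => ⟨e.symm z.1, fun h' => z.2 ?_⟩) fun z w h' => ?_
    · simpa using h'
    · exact Subtype.ext (e.symm.injective (congrArg Subtype.val h'))
  · rintro ⟨B, hB, hcov⟩
    have : ∃ n, 𝔠 ≤ #(B n) := by
      by_contra hn
      push Not at hn
      have h1 : #X ≤ ℵ₀ * ⨆ n, #(B n) := by
        rw [← mk_univ, ← hcov, ← mk_nat]
        exact mk_iUnion_le _
      have h2 : ⨆ n, #(B n) < 𝔠 := iSup_lt_of_lt_cof_ord (by
        rw [mk_nat, ← two_power_aleph0]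
        exact lt_cof_ord_power le_rfl one_lt_two) hn
      exact absurd (hXc.trans h1)
        (not_le.2 (mul_lt_of_lt aleph0_le_continuum aleph0_lt_continuum h2))
    obtain ⟨n, hn⟩ := this
    obtain ⟨x, y, hxy⟩ :=
      one_lt_iff_nontrivial.1 ((one_lt_aleph0.trans aleph0_lt_continuum).trans_le hn)
    obtain ⟨h, hh⟩ := (hB n).2 x y
    exact absurd (nhds_big (hB n).2 hn (isOpen_ne_fun h.continuous continuous_id)
      ⟨x, fun h' => hxy (h'.symm.trans hh)⟩) (not_le.2 (moved_small hX (hB n).1 h))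

end Pool.Agent.H85.SigmaHom
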