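import Mathlib

set_option autoImplicit false

namespace Pool.Agent.H85.SigmaHomDefs

open Set TopologicalSpace

/-- A separable metrizable nonempty space with a base of clopen sets. -/
def IsZeroDimSpace (X : Type) [TopologicalSpace X] : Prop :=
  SeparableSpace X ∧ MetrizableSpace X ∧ Nonempty X ∧ IsTopologicalBasis {s : Set X | IsClopen s}

/-- A homogeneous space. -/
def IsHomogeneous (X : Type) [TopologicalSpace X] : Prop :=
  ∀ x y : X, ∃ h : X ≃ₜ X, h x = y

/-- A countable union of homogeneous subspaces. -/
def IsSigmaHomogeneous (X : Type) [TopologicalSpace X] : Prop :=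
  ∃ A : ℕ → Set X, (∀ n, IsHomogeneous (A n)) ∧ ⋃ n, A n = univ

/-- A countable union of closed homogeneous subspaces. -/
def IsSigmaHomogeneousClosed (X : Type) [TopologicalSpace X] : Prop :=
  ∃ A : ℕ → Set X, (∀ n, IsClosed (A n) ∧ IsHomogeneous (A n)) ∧ ⋃ n, A n = univ

/-- A rigid space: at least two points, and no self-homeomorphism but the identity. -/
def IsRigid (X : Type) [TopologicalSpace X] : Prop :=
  Nontrivial X ∧ ∀ h : X ≃ₜ X, ∀ x, h x = x

end Pool.Agent.H85.SigmaHomDefs
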