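import Pool.Agent.H85.SingDefs

namespace Pool.Agent.H85.Sing

open MeasureTheory Filter Topology
open scoped ContDiff Manifold

instance : IsProbabilityMeasure μ := ⟨by simp [μ]⟩

abbrev E6 := EuclideanSpace ℝ (Fin 6)

lemma integrable_w (w : Lp E6 2 μ) : Integrable w μ :=
  (Lp.memLp w).integrable (by norm_num)

lemma int_norm_le (w : Lp E6 2 μ) : ∫ t, ‖w t‖ ∂μ ≤ ‖w‖ := by
  rw [integral_norm_eq_lintegral_enorm (Lp.aestronglyMeasurable w), Lp.norm_def,
    ← eLpNorm_one_eq_lintegral_enorm]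
  exact ENNReal.toReal_mono (Lp.eLpNorm_ne_top w)
    (eLpNorm_le_eLpNorm_of_exponent_le (by norm_num) (Lp.aestronglyMeasurable w))

lemma path_apply (q : E6) (w : Lp E6 2 μ) {t : ℝ} (ht : t ∈ Set.Icc (0 : ℝ) 1) (j : Fin 6) :
    path q w t j = q j + ∫ s in Set.Ioc 0 t, w s j ∂μ := by
  have hsub : Set.Ioc (0 : ℝ) t ⊆ Set.Icc 0 1 := fun x hx => ⟨hx.1.le, hx.2.trans ht.2⟩
  have h1 : (μ.restrict (Set.Ioc 0 t)) = volume.restrict (Set.Ioc 0 t) := by
    rw [Measure.restrict_restrict measurableSet_Ioc, Set.inter_eq_left.2 hsub]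
  have hi : Integrable w (μ.restrict (Set.Ioc 0 t)) := (integrable_w w).restrict
  have := (EuclideanSpace.proj j : E6 →L[ℝ] ℝ).integral_comp_comm hi
  have e : ∫ s in Set.Ioc 0 t, w s j ∂μ = (∫ s in Set.Ioc 0 t, w s ∂μ) j := this
  rw [e, path, intervalIntegral.integral_of_le ht.1, h1]
  rfl

lemma path_one (q : E6) (w : Lp E6 2 μ) (j : Fin 6) :
    path q w 1 j = q j + ∫ s, w s j ∂μ := by
  rw [path_apply q w ⟨zero_le_one, le_rfl⟩, Measure.restrict_restrict measurableSet_Ioc,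
    Set.inter_eq_left.2 Set.Ioc_subset_Icc_self, Measure.restrict_congr_set Ioc_ae_eq_Icc]

lemma coord_int (w : Lp E6 2 μ) (j : Fin 6) : Integrable (fun s => w s j) μ :=
  (EuclideanSpace.proj j : E6 →L[ℝ] ℝ).integrable_comp (integrable_w w)

lemma coord_le (u w : Lp E6 2 μ) (j : Fin 6) (hw : ∀ᵐ s ∂μ, w s j = 0) :
    ∫ s, |u s j| ∂μ ≤ ‖u - w‖ := by
  refine le_trans (integral_mono_ae (coord_int u j).abs (integrable_w (u - w)).norm ?_)
    (int_norm_le _)
  filter_upwards [hw, Lp.coeFn_sub u w] with s h1 h2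
  have := PiLp.norm_apply_le ((u - w) s) j
  rw [h2] at this ⊢
  simpa [h1] using this

/-- Key estimate. -/
lemma key {Δ : E6 → Submodule ℝ E6} {i j k : Fin 6} (hΔ : ∀ q v, v ∈ Δ q → v k = q j * v i)
    (q : E6) (u w : Lp E6 2 μ) (hi : ∀ᵐ s ∂μ, w s i = 0) (hj : ∀ᵐ s ∂μ, w s j = 0)
    (hu : Adm Δ q u) :
    |(path q u 1 k - q k) - q j * (path q u 1 i - q i)| ≤ ‖u - w‖ * ‖u - w‖ := by
  rw [path_one, path_one, add_sub_cancel_left, add_sub_cancel_left, ← integral_const_mul,
    ← integral_sub (coord_int u k) ((coord_int u i).const_mul _)]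
  have hb : ∀ᵐ s ∂μ, ‖u s k - q j * u s i‖ ≤ ‖u - w‖ * |u s i| := by
    filter_upwards [hu, ae_restrict_mem measurableSet_Icc] with s h1 h2
    rw [hΔ _ _ h1, path_apply q u h2, ← sub_mul, add_sub_cancel_left, Real.norm_eq_abs, abs_mul]
    refine mul_le_mul_of_nonneg_right ?_ (abs_nonneg _)
    refine le_trans ?_ (coord_le u w j hj)
    refine le_trans (abs_integral_le_integral_abs) ?_
    exact setIntegral_le_integral (coord_int u j).abs (Eventually.of_forall fun _ => abs_nonneg _)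
  have := norm_integral_le_of_norm_le ((coord_int u i).abs.const_mul ‖u - w‖) hb
  rw [integral_const_mul] at this
  exact le_trans this (mul_le_mul_of_nonneg_left (coord_le u w i hi) (norm_nonneg _))

lemma singular_of {Δ : E6 → Submodule ℝ E6} {i j k : Fin 6} (hik : i ≠ k)
    (hΔ : ∀ q v, v ∈ Δ q → v k = q j * v i)
    (q : E6) (w : Lp E6 2 μ) (hi : ∀ᵐ s ∂μ, w s i = 0) (hj : ∀ᵐ s ∂μ, w s j = 0)
    (hw : Adm Δ q w) : Singular Δ q w := by
  refine ⟨hw, EuclideanSpace.single k 1, ?_⟩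
  rintro ⟨W, h0, hd, hA, hv⟩
  have hc : ∀ l : Fin 6, HasDerivAt (fun s => path q (W s) 1 l)
      ((EuclideanSpace.single k (1 : ℝ) : E6) l) 0 := fun l =>
    (EuclideanSpace.proj l : E6 →L[ℝ] ℝ).hasFDerivAt.comp_hasDerivAt 0 hv
  have h1 : HasDerivAt (fun s => (path q (W s) 1 k - q k) - q j * (path q (W s) 1 i - q i)) 1 0 := by
    have := ((hc k).sub_const (q k)).sub (((hc i).sub_const (q i)).const_mul (q j))
    exact this.congr_deriv (by simp [hik])
  have hO : (fun s => W s - w) =O[𝓝 0] fun s : ℝ => s := by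
    simpa [h0] using hd.isBigO_sub
  have ho : (fun s => W s - w) =o[𝓝 0] fun _ : ℝ => (1 : ℝ) := by
    rw [Asymptotics.isLittleO_one_iff]
    have := hd.continuousAt.tendsto.sub_const w
    simpa [h0] using this
  have h2 : HasDerivAt (fun s => (path q (W s) 1 k - q k) - q j * (path q (W s) 1 i - q i)) 0 0 := by
    have hz : (path q (W 0) 1 k - q k) - q j * (path q (W 0) 1 i - q i) = 0 := by
      have := key hΔ q w w hi hj hw
      rw [h0]
      simpa using this
    rw [hasDerivAt_iff_isLittleO, hz]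
    simp only [sub_zero, smul_zero]
    have h3 := ho.norm_left.mul_isBigO hO.norm_left
    simp only [one_mul] at h3
    refine Asymptotics.IsBigO.trans_isLittleO ?_ h3
    refine Asymptotics.IsBigO.of_bound' ?_
    filter_upwards [hA] with s hs
    have := key hΔ q (W s) w hi hj hs
    rwa [Real.norm_eq_abs, Real.norm_of_nonneg (by positivity)]
  exact one_ne_zero (h1.unique h2)

/-- constant control -/
noncomputable def cst (v : E6) : Lp E6 2 μ := (memLp_const v).toLp _

lemma cst_ae (v : E6) : ∀ᵐ s ∂μ, cst v s = v := (memLp_const v).coeFn_toLp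

lemma path_cst (q v : E6) {t : ℝ} (ht : t ∈ Set.Icc (0 : ℝ) 1) (j : Fin 6) :
    path q (cst v) t j = q j + t * v j := by
  rw [path_apply q _ ht]
  congr 1
  have hsub : Set.Ioc (0 : ℝ) t ⊆ Set.Icc 0 1 := fun x hx => ⟨hx.1.le, hx.2.trans ht.2⟩
  rw [integral_congr_ae (g := fun _ => v j)
    (ae_restrict_of_ae ((cst_ae v).mono fun s hs => by simp [hs]))]
  simp [Measure.restrict_restrict measurableSet_Ioc, Set.inter_eq_left.2 hsub, ht.1, Measure.real]

/-- The product of two contact distributions on `ℝ³ × ℝ³`. -/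
def CC (q : E6) : Submodule ℝ E6 where
  carrier := {v | v 2 = q 1 * v 0 ∧ v 5 = q 4 * v 3}
  add_mem' := by
    rintro a b ⟨h1, h2⟩ ⟨h3, h4⟩
    constructor <;> simp [*] <;> ring
  zero_mem' := by simp
  smul_mem' := by
    rintro c a ⟨h1, h2⟩
    constructor <;> simp [*] <;> ring

lemma mem_CC {q v : E6} : v ∈ CC q ↔ v 2 = q 1 * v 0 ∧ v 5 = q 4 * v 3 := Iff.rfl

noncomputable def fr : Fin 4 → E6 → E6 :=
  ![fun q => !₂[1, 0, q 1, 0, 0, 0], fun _ => !₂[0, 1, 0, 0, 0, 0],
    fun q => !₂[0, 0, 0, 1, 0, q 4], fun _ => !₂[0, 0, 0, 0, 1, 0]]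

lemma smooth_CC : IsSmoothDist CC := by
  refine ⟨4, fun q₀ => ⟨Set.univ, univ_mem, fr, fun i => ?_, fun q _ => ⟨?_, ?_⟩⟩⟩
  · apply ContDiff.contDiffOn
    rw [contDiff_euclidean]
    intro l
    fin_cases i <;> fin_cases l <;> simp [fr] <;> fun_prop
  · rw [Fintype.linearIndependent_iff]
    intro g hg i
    have h := fun l => congrArg (fun v : E6 => v l) hg
    have h0 := h 0
    have h1 := h 1
    have h3 := h 3
    have h4 := h 4
    simp [Fin.sum_univ_four, fr] at h0 h1 h3 h4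
    fin_cases i <;> simp [*]
  · apply le_antisymm
    · rw [Submodule.span_le]
      rintro _ ⟨i, rfl⟩
      fin_cases i <;> simp [fr, mem_CC]
    · intro v hv
      rw [Submodule.mem_span_range_iff_exists_fun]
      refine ⟨![v 0, v 1, v 3, v 4], ?_⟩
      ext l
      fin_cases l <;> simp [Fin.sum_univ_four, fr, hv.1, hv.2, mul_comm]

/-- one singular step -/
def Step (a b : E6) : Prop := ∃ w, Singular CC a w ∧ path a w 1 = b

lemma step_of (q v : E6) (h1 : v 2 = q 1 * v 0) (h2 : v 1 * v 0 = 0) (h3 : v 5 = q 4 * v 3)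
    (h4 : v 4 * v 3 = 0) (h : (v 0 = 0 ∧ v 1 = 0) ∨ (v 3 = 0 ∧ v 4 = 0)) : Step q (q + v) := by
  have hA : Adm CC q (cst v) := by
    filter_upwards [cst_ae v, ae_restrict_mem measurableSet_Icc] with s hs h2'
    rw [hs, mem_CC, path_cst q v h2', path_cst q v h2']
    constructor
    · rw [add_mul, mul_assoc, h2, h1]; ring
    · rw [add_mul, mul_assoc, h4, h3]; ring
  refine ⟨cst v, ?_, ?_⟩
  · rcases h with h | h
    · exact singular_of (Δ := CC) (i := 0) (j := 1) (k := 2) (by decide) (fun q v hv => hv.1) q _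
        ((cst_ae v).mono fun s hs => by rw [hs, h.1]) ((cst_ae v).mono fun s hs => by rw [hs, h.2])
        hA
    · exact singular_of (Δ := CC) (i := 3) (j := 4) (k := 5) (by decide) (fun q v hv => hv.2) q _
        ((cst_ae v).mono fun s hs => by rw [hs, h.1]) ((cst_ae v).mono fun s hs => by rw [hs, h.2])
        hA
  · ext j
    rw [path_cst q v ⟨zero_le_one, le_rfl⟩]
    simp

lemma stepA (x y z a b c y' : ℝ) : Step !₂[x, y, z, a, b, c] !₂[x, y', z, a, b, c] := by
  have := step_of !₂[x, y, z, a, b, c] !₂[0, y' - y, 0, 0, 0, 0] (by simp) (by simp) (by simp)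
    (by simp) (by simp)
  convert this using 1
  ext l; fin_cases l <;> simp

lemma stepB (x y z a b c s : ℝ) : Step !₂[x, y, z, a, b, c] !₂[x + s, y, z + y * s, a, b, c] := by
  have := step_of !₂[x, y, z, a, b, c] !₂[s, 0, y * s, 0, 0, 0] (by simp) (by simp) (by simp)
    (by simp) (by simp)
  convert this using 1
  ext l; fin_cases l <;> simp

lemma stepC (x y z a b c b' : ℝ) : Step !₂[x, y, z, a, b, c] !₂[x, y, z, a, b', c] := by
  have := step_of !₂[x, y, z, a, b, c] !₂[0, 0, 0, 0, b' - b, 0] (by simp) (by simp) (by simp)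
    (by simp) (by simp)
  convert this using 1
  ext l; fin_cases l <;> simp

lemma stepD (x y z a b c s : ℝ) : Step !₂[x, y, z, a, b, c] !₂[x, y, z, a + s, b, c + b * s] := by
  have := step_of !₂[x, y, z, a, b, c] !₂[0, 0, 0, s, 0, b * s] (by simp) (by simp) (by simp)
    (by simp) (by simp)
  convert this using 1
  ext l; fin_cases l <;> simp

lemma trans_CC : SingTransitive CC := by
  intro p q
  change Relation.TransGen Step p q
  have e : ∀ p : E6, p = !₂[p 0, p 1, p 2, p 3, p 4, p 5] := fun p => by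
    ext l; fin_cases l <;> simp
  rw [e p, e q]
  generalize p 0 = x, p 1 = y, p 2 = z, p 3 = a, p 4 = b, p 5 = c
  generalize q 0 = x', q 1 = y', q 2 = z', q 3 = a', q 4 = b', q 5 = c'
  have t1 := ((((Relation.TransGen.single (stepA x y z a b c (z' - z))).tail
    (stepB _ _ _ _ _ _ 1)).tail (stepA _ _ _ _ _ _ 0)).tail (stepB _ _ _ _ _ _ (x' - x - 1))).tail
    (stepA _ _ _ _ _ _ y')
  have t2 := ((((t1.tail (stepC _ _ _ _ _ _ (c' - c))).tail
    (stepD _ _ _ _ _ _ 1)).tail (stepC _ _ _ _ _ _ 0)).tail (stepD _ _ _ _ _ _ (a' - a - 1))).tail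
    (stepC _ _ _ _ _ _ b')
  convert t2 using 3 <;> ring_nf

/-- the shear `(x, y, z, …) ↦ (x, y + a x, z + b x, …)` -/
noncomputable def shearF (a b : ℝ → ℝ) (q : E6) : E6 :=
  q + a (q 0) • EuclideanSpace.single 1 1 + b (q 0) • EuclideanSpace.single 2 1

lemma shearF_zero (a b : ℝ → ℝ) (q : E6) : shearF a b q 0 = q 0 := by simp [shearF]
lemma shearF_two (a b : ℝ → ℝ) (q : E6) : shearF a b q 2 = q 2 + b (q 0) := by simp [shearF]

lemma shearF_add (a b a' b' : ℝ → ℝ) (q : E6) :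
    shearF a b (shearF a' b' q) = shearF (a + a') (b + b') q := by
  rw [shearF, shearF_zero]
  simp only [shearF, Pi.add_apply, add_smul]
  abel

noncomputable def shear (a b : ℝ → ℝ) : Equiv.Perm E6 where
  toFun := shearF a b
  invFun := shearF (-a) (-b)
  left_inv q := by rw [shearF_add]; simp [shearF]
  right_inv q := by rw [shearF_add]; simp [shearF]

lemma shearF_smooth {a b : ℝ → ℝ} (ha : ContDiff ℝ ∞ a) (hb : ContDiff ℝ ∞ b) :
    ContDiff ℝ ∞ (shearF a b) := by
  unfold shearF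
  fun_prop

lemma shear_sym {f : ℝ → ℝ} (hf : ContDiff ℝ ∞ f) : IsSym CC (shear (deriv f) f) := by
  have hf' : ContDiff ℝ ∞ (deriv f) := hf.iterate_deriv 1
  refine ⟨shearF_smooth hf' hf, shearF_smooth hf'.neg hf.neg, fun q => ?_⟩
  have hp : HasFDerivAt (fun q : E6 => q 0) (EuclideanSpace.proj 0 : E6 →L[ℝ] ℝ) q :=
    (EuclideanSpace.proj 0 : E6 →L[ℝ] ℝ).hasFDerivAt
  have h1 := ((hf'.differentiable (by simp)) (q 0)).hasDerivAt.comp_hasFDerivAt q hp
  have h2 := ((hf.differentiable (by simp)) (q 0)).hasDerivAt.comp_hasFDerivAt q hp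
  have h3 := ((hasFDerivAt_id q).add (h1.smul_const (EuclideanSpace.single 1 (1 : ℝ) : E6))).add
    (h2.smul_const (EuclideanSpace.single 2 (1 : ℝ) : E6))
  have h4 : ∀ v : E6, fderiv ℝ (shear (deriv f) f) q v =
      v + (deriv (deriv f) (q 0) * v 0) • EuclideanSpace.single 1 1 +
        (deriv f (q 0) * v 0) • EuclideanSpace.single 2 1 := fun v => by
    have : fderiv ℝ (shear (deriv f) f) q = _ := h3.fderiv
    rw [this]
    simp
  ext u
  simp only [Submodule.mem_map, ContinuousLinearMap.coe_coe, h4, mem_CC]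
  constructor
  · rintro ⟨v, ⟨h5, h6⟩, rfl⟩
    constructor
    · simp [shear, shearF, h5]; ring
    · simp [shear, shearF, h6]
  · rintro ⟨h5, h6⟩
    refine ⟨u - (deriv (deriv f) (q 0) * u 0) • EuclideanSpace.single 1 1 -
        (deriv f (q 0) * u 0) • EuclideanSpace.single 2 1, ⟨?_, ?_⟩, ?_⟩
    · simp [shear, shearF] at h5
      simp [h5]; ring
    · simpa [shear, shearF] using h6
    · ext l
      fin_cases l <;> simp

theorem not_lie : ¬ SymIsLie CC := by
  rintro ⟨d, G, _, _, _, _, ρ, hinj, hr, hc, hflow⟩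
  have : IsTopologicalGroup G := topologicalGroup_of_lieGroup (𝓡 d) ∞
  have : LocallyCompactSpace G := ChartedSpace.locallyCompactSpace (EuclideanSpace ℝ (Fin d)) G
  have hev : ∀ q : E6, ∀ l : Fin 6, Continuous fun g : G => ρ g q l := fun q l => by
    have : Continuous fun g : G => ρ g q := hc.comp (continuous_id.prodMk continuous_const)
    fun_prop
  set β : G → ℝ → ℝ := fun g x => ρ g (EuclideanSpace.single 0 x) 2 with hβ
  set V : Set G := {g | ∀ q : E6, ρ g q 0 = q 0 ∧ ρ g q 2 = q 2 + β g (q 0)} with hV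
  have hVc : IsClosed V := by
    simp only [hV, Set.ofPred_forall, Set.ofPred_and]
    exact isClosed_iInter fun q => (isClosed_eq (hev q 0) continuous_const).inter
      (isClosed_eq (hev q 2) (continuous_const.add (hev _ 2)))
  have hadd : ∀ g ∈ V, ∀ h ∈ V, ∀ x, β (g * h) x = β g x + β h x := fun g hg h hh x => by
    simp only [hβ, map_mul, Equiv.Perm.mul_apply]
    rw [(hg _).2, (hh _).1]
    simp [hβ, add_comm]
  have hmul : ∀ g ∈ V, ∀ h ∈ V, g * h ∈ V := fun g hg h hh q => by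
    rw [hadd g hg h hh]
    simp only [map_mul, Equiv.Perm.mul_apply]
    rw [(hg _).1, (hg _).2, (hh _).1, (hh _).2]
    exact ⟨rfl, by ring⟩
  have hinv : ∀ g ∈ V, g⁻¹ ∈ V := fun g hg => by
    have h0 : ∀ q : E6, ρ g⁻¹ q 0 = q 0 ∧ ρ g⁻¹ q 2 = q 2 - β g (q 0) := fun q => by
      have h1 := hg (ρ g⁻¹ q)
      have e : ρ g (ρ g⁻¹ q) = q := by
        rw [← Equiv.Perm.mul_apply, ← map_mul, mul_inv_cancel, map_one]; rfl
      rw [e] at h1
      have h2 := h1.2
      rw [← h1.1] at h2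
      exact ⟨h1.1.symm, by linarith⟩
    intro q
    refine ⟨(h0 q).1, ?_⟩
    rw [(h0 q).2]
    simp only [hβ]
    rw [(h0 _).2]
    simp [hβ, sub_eq_add_neg]
  obtain ⟨K, hK, hK1⟩ := exists_compact_mem_nhds (1 : G)
  have hU : IsCompact (K ∩ V) := hK.inter_right hVc
  have hS : IsCompact ((fun u : G => u * u) '' (K ∩ V)) := hU.image (by fun_prop)
  obtain ⟨t, ht, hcov⟩ := hS.elim_nhds_subcover (fun x => (fun y => x⁻¹ * y) ⁻¹' K) fun x _ => by
    apply (show Continuous fun y => x⁻¹ * y by fun_prop).continuousAt.preimage_mem_nhds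
    simpa using hK1
  have htV : ∀ g ∈ t, g ∈ V := fun g hg => by
    obtain ⟨u, hu, rfl⟩ := ht g hg
    exact hmul _ hu.2 _ hu.2
  set n := t.card + 1
  let L : (Fin n → ℝ) →ₗ[ℝ] (t → ℝ) := Matrix.toLin' (Matrix.of fun (g : t) (j : Fin n) => β g j)
  obtain ⟨c, hc0, hcne⟩ := (Submodule.ne_bot_iff _).1
    (LinearMap.ker_ne_bot_of_finrank_lt (f := L) (by simp [n]))
  set lam : G → ℝ := fun g => ∑ j : Fin n, β g j * c j with hlam
  have hl0 : ∀ g ∈ t, lam g = 0 := fun g hg => congrFun (LinearMap.mem_ker.1 hc0) ⟨g, hg⟩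
  have hladd : ∀ g ∈ V, ∀ h ∈ V, lam (g * h) = lam g + lam h := fun g hg h hh => by
    simp only [hlam, hadd g hg h hh, add_mul, Finset.sum_add_distrib]
  have hlc : Continuous lam := continuous_finsetSum _ fun j _ => (hev _ 2).mul continuous_const
  have h1V : (1 : G) ∈ V := fun q => by simp [hβ]
  obtain ⟨u, hu, hmax⟩ := hU.exists_isMaxOn ⟨1, mem_of_mem_nhds hK1, h1V⟩ hlc.continuousOn
  have hu0 : lam u ≤ 0 := by
    obtain ⟨g, hg, hgu⟩ := Set.mem_iUnion₂.1 (hcov ⟨u, hu, rfl⟩)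
    have hgV := htV g hg
    have hm : g⁻¹ * (u * u) ∈ V := hmul _ (hinv g hgV) _ (hmul _ hu.2 _ hu.2)
    have h1 : lam (g⁻¹ * (u * u)) ≤ lam u := hmax ⟨hgu, hm⟩
    have h2 := hladd g hgV _ hm
    rw [mul_inv_cancel_left, hladd u hu.2 u hu.2, hl0 g hg] at h2
    linarith
  obtain ⟨j0, hj0⟩ := Function.ne_iff.1 hcne
  set f : ℝ → ℝ := fun x => c j0 * ∏ i ∈ Finset.univ.erase j0, ((x - (i : Fin n)) * ((j0 : ℝ) - (i : Fin n)))
    with hf
  have hfs : ContDiff ℝ ∞ f := contDiff_const.mul (contDiff_prod fun i _ => by fun_prop)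
  have hfs' : ContDiff ℝ ∞ (deriv f) := hfs.iterate_deriv 1
  have hex : ∀ s : ℝ, ∃ g, ρ g = shear (s • deriv f) (s • f) := fun s => by
    have := shear_sym (f := s • f) (hfs.const_smul s)
    rw [show deriv (s • f) = s • deriv f from funext fun _ => deriv_const_smul_field s f] at this
    exact (hr _).2 this
  choose γ hγ using hex
  have hγc : Continuous γ := by
    refine hflow γ (fun s t => hinj ?_) ?_
    · rw [map_mul, hγ, hγ, hγ]
      ext1 q
      change shearF _ _ q = shearF _ _ (shearF _ _ q)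
      rw [shearF_add, add_smul, add_smul]
    · simp only [hγ]
      change ContDiff ℝ ∞ fun p : ℝ × E6 => shearF _ _ p.2
      simp only [shearF, Pi.smul_apply, smul_eq_mul]
      fun_prop
  have hγβ : ∀ s x, β (γ s) x = s * f x := fun s x => by
    simp only [hβ, hγ]
    change shearF _ _ _ 2 = _
    rw [shearF_two]; simp
  have hγV : ∀ s, γ s ∈ V := fun s q => by
    rw [hγβ, hγ]
    exact ⟨shearF_zero _ _ _, shearF_two _ _ _⟩
  have hγ0 : γ 0 = 1 := hinj (by
    rw [hγ, map_one]; ext1 q; change shearF _ _ q = q; simp [shearF])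
  have hpos : 0 < ∑ j : Fin n, f j * c j := by
    rw [Finset.sum_eq_single j0]
    · simp only [hf]
      rw [mul_right_comm]
      refine mul_pos (mul_self_pos.2 hj0) (Finset.prod_pos fun i hi => mul_self_pos.2 ?_)
      rw [sub_ne_zero]
      exact fun h => (Finset.ne_of_mem_erase hi) (Fin.ext (by exact_mod_cast h.symm))
    · intro j _ hj
      simp only [hf]
      rw [Finset.prod_eq_zero (Finset.mem_erase.2 ⟨hj, Finset.mem_univ _⟩) (by simp)]
      simp
    · simp
  have hev' : ∀ᶠ s in 𝓝[>] (0 : ℝ), γ s ∈ K :=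
    nhdsWithin_le_nhds (hγc.continuousAt.preimage_mem_nhds (by rwa [hγ0]))
  obtain ⟨s, hs, hs0⟩ := (hev'.and self_mem_nhdsWithin).exists
  have h1 : lam (γ s) ≤ lam u := hmax ⟨hs, hγV s⟩
  have h2 : lam (γ s) = s * ∑ j : Fin n, f j * c j := by
    simp only [hlam, hγβ, Finset.mul_sum, mul_assoc]
  have := mul_pos hs0 hpos
  linarith

end Pool.Agent.H85.Sing
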