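import Mathlib

/-! Distributions on a finite-dimensional real vector space `E` (as a smooth manifold),
admissible paths, singular curves, symmetries. -/

namespace Pool.Agent.H85.Sing

open MeasureTheory Filter Topology
open scoped ContDiff Manifold

variable {E : Type} [NormedAddCommGroup E] [NormedSpace ℝ E]

/-- `Δ` is a smooth subbundle of `TE` of constant rank: near every point it has a smooth frame
with `k` members. -/
def IsSmoothDist (Δ : E → Submodule ℝ E) : Prop :=
  ∃ k : ℕ, ∀ q₀ : E, ∃ U ∈ 𝓝 q₀, ∃ X : Fin k → E → E, (∀ i, ContDiffOn ℝ ∞ (X i) U) ∧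
    ∀ q ∈ U, LinearIndependent ℝ (fun i => X i q) ∧
      Submodule.span ℝ (Set.range fun i => X i q) = Δ q

/-- Lebesgue measure on `[0,1]`. -/
noncomputable abbrev μ : Measure ℝ := volume.restrict (Set.Icc 0 1)

/-- The absolutely continuous path starting at `q₀` with square-integrable derivative `w`.
The `H¹`-topology on such paths is the `L²`-topology on `w`. -/
noncomputable def path (q₀ : E) (w : Lp E 2 μ) (t : ℝ) : E := q₀ + ∫ s in (0 : ℝ)..t, w s

/-- The path with initial point `q₀` and derivative `w` is admissible. -/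
def Adm (Δ : E → Submodule ℝ E) (q₀ : E) (w : Lp E 2 μ) : Prop :=
  ∀ᵐ t ∂μ, w t ∈ Δ (path q₀ w t)

/-- The path is a critical point of the endpoint map on the Hilbert manifold of admissible paths
starting at `q₀`: some vector `v` is not the derivative of the endpoint along any curve `W` of
admissible paths through the given path that is differentiable (in `H¹`) at `0`. -/
def Singular (Δ : E → Submodule ℝ E) (q₀ : E) (w : Lp E 2 μ) : Prop :=
  Adm Δ q₀ w ∧ ∃ v : E, ¬ ∃ W : ℝ → Lp E 2 μ, W 0 = w ∧ DifferentiableAt ℝ W 0 ∧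
    (∀ᶠ s in 𝓝 (0 : ℝ), Adm Δ q₀ (W s)) ∧ HasDerivAt (fun s => path q₀ (W s) 1) v 0

/-- Any two points are joined by a finite concatenation of singular curves. -/
def SingTransitive (Δ : E → Submodule ℝ E) : Prop :=
  ∀ p q : E, Relation.TransGen (fun a b => ∃ w, Singular Δ a w ∧ path a w 1 = b) p q

/-- A symmetry: a diffeomorphism `Φ` with `Φ_* Δ = Δ`. -/
def IsSym (Δ : E → Submodule ℝ E) (Φ : Equiv.Perm E) : Prop :=
  ContDiff ℝ ∞ Φ ∧ ContDiff ℝ ∞ Φ.symm ∧
    ∀ q, (Δ q).map (fderiv ℝ Φ q : E →ₗ[ℝ] E) = Δ (Φ q)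

/-- The symmetry group is a finite-dimensional Lie group (weak form): it is isomorphic through
`ρ` to a Lie group `G` modelled on `ℝ^d` whose action on `E` is continuous and in which every
smooth flow of symmetries is a continuous curve. -/
def SymIsLie (Δ : E → Submodule ℝ E) : Prop :=
  ∃ (d : ℕ) (G : Type) (_ : Group G) (_ : TopologicalSpace G)
    (_ : ChartedSpace (EuclideanSpace ℝ (Fin d)) G) (_ : LieGroup (𝓡 d) ∞ G)
    (ρ : G →* Equiv.Perm E), Function.Injective ρ ∧ (∀ Φ, Φ ∈ ρ.range ↔ IsSym Δ Φ) ∧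
      Continuous (fun p : G × E => ρ p.1 p.2) ∧
      ∀ c : ℝ → G, (∀ s t, c (s + t) = c s * c t) →
        ContDiff ℝ ∞ (fun p : ℝ × E => ρ (c p.1) p.2) → Continuous c

end Pool.Agent.H85.Sing
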