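import Pool.Agent.H85.Harm

set_option autoImplicit false

namespace Pool.Agent.H85.SpForm

open MvPolynomial Module Pool.Agent.H85.Harm

section
variable {σ : Type} [Fintype σ] [DecidableEq σ]

noncomputable def rep (k : ℕ) : Representation ℝ (Matrix.orthogonalGroup σ ℝ)
    ↥(homogeneousSubmodule σ ℝ k ⊓ LinearMap.ker lap) where
  toFun g := (act (g⁻¹).1).toLinearMap.restrict fun p hp => ⟨act_hom _ hp.1, by
    have h : lap p = 0 := hp.2
    change lap (act _ p) = 0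
    rw [lap_act ((Matrix.mem_orthogonalGroup_iff _ _).1 (g⁻¹).2), h, map_zero]⟩
  map_one' := LinearMap.ext fun p => Subtype.ext (by rw [inv_one]; exact act_one p.1)
  map_mul' g h := LinearMap.ext fun p => Subtype.ext (by
    rw [mul_inv_rev]; exact (act_act _ _ p.1).symm)

theorem avg (k : ℕ) (Γ : Subgroup (Matrix.orthogonalGroup σ ℝ)) [Fintype Γ] :
    (Nat.card Γ : ℝ)⁻¹ * ∑ g : Γ, (rep k).character g.1 =
      finrank ℝ ↥(homogeneousSubmodule σ ℝ k ⊓ LinearMap.ker lap ⊓ Inv (Γ : Set _)) := by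
  have : Invertible (Nat.card Γ : ℝ) := invertibleOfNonzero (Nat.cast_ne_zero.2 Nat.card_pos.ne')
  have : Module.Finite ℝ ↥(homogeneousSubmodule σ ℝ k ⊓ LinearMap.ker lap) := finite_hom k _
  refine (Representation.card_inv_mul_sum_char_eq_finrank
    (ρ := (rep (σ := σ) k).comp Γ.subtype)).trans ?_
  rw [← Submodule.finrank_map_subtype_eq]
  refine congrArg (fun S : Submodule ℝ (MvPolynomial σ ℝ) => (finrank ℝ S : ℝ)) ?_
  ext p
  simp only [Submodule.mem_map, Submodule.mem_inf (p := _ ⊓ _), mem_Inv,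
    Representation.mem_invariants]
  constructor
  · rintro ⟨q, hq, rfl⟩
    refine ⟨q.2, fun g hg => ?_⟩
    have := congrArg Subtype.val (hq ⟨g⁻¹, Γ.inv_mem hg⟩)
    exact (congrArg (fun x : Matrix.orthogonalGroup σ ℝ => act x.1 q.1) (inv_inv g)).symm.trans this
  · rintro ⟨a, b⟩
    exact ⟨⟨p, a⟩, fun g => Subtype.ext (b _ (Γ.inv_mem g.2)), rfl⟩

/-- Almost conjugate subgroups are isospectral. -/
theorem sunada {Γ Λ : Subgroup (Matrix.orthogonalGroup σ ℝ)} [Finite Γ] [Finite Λ] (φ : Γ ≃ Λ)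
    (h : ∀ g, IsConj g.1 (φ g).1) (k : ℕ) :
    finrank ℝ ↥(homogeneousSubmodule σ ℝ k ⊓ LinearMap.ker lap ⊓ Inv (Γ : Set _)) =
      finrank ℝ ↥(homogeneousSubmodule σ ℝ k ⊓ LinearMap.ker lap ⊓ Inv (Λ : Set _)) := by
  have := Fintype.ofFinite Γ
  have := Fintype.ofFinite Λ
  have e := avg k Γ
  rw [Nat.card_congr φ, Fintype.sum_equiv φ _ (fun g => (rep k).character g.1) fun g => by
    obtain ⟨c, hc⟩ := isConj_iff.1 (h g)
    rw [← hc, Representation.char_conj], avg] at e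
  exact_mod_cast e.symm

end

abbrev K : Type := ZMod 3 × ZMod 3
abbrev Z : Type := ZMod 819

noncomputable def R (s : Z) : Matrix (Fin 2) (Fin 2) ℝ :=
  !![(ZMod.toCircle s : ℂ).re, -(ZMod.toCircle s : ℂ).im;
    (ZMod.toCircle s : ℂ).im, (ZMod.toCircle s : ℂ).re]

theorem R_add (s t : Z) : R s * R t = R (s + t) := by
  ext i j
  fin_cases i <;> fin_cases j <;> simp [R, AddChar.map_add_eq_mul, Matrix.mul_apply] <;> ring

theorem R_zero : R 0 = 1 := by
  ext i j
  fin_cases i <;> fin_cases j <;> simp [R]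

theorem R_neg (s : Z) (i j : Fin 2) : R (-s) i j = R s j i := by
  fin_cases i <;> fin_cases j <;> simp [R, AddChar.map_neg_eq_inv]

theorem R_sq (s : Z) : (ZMod.toCircle s : ℂ).re ^ 2 + (ZMod.toCircle s : ℂ).im ^ 2 = 1 := by
  have := Circle.normSq_coe (ZMod.toCircle s)
  rw [Complex.normSq_apply] at this
  linarith

noncomputable def M (π : K → K) (s : K → Z) : Matrix (K × Fin 2) (K × Fin 2) ℝ :=
  Matrix.of fun a b => if b.1 = π a.1 then R (s a.1) a.2 b.2 else 0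

theorem M_mul (π π' : K → K) (s s' : K → Z) :
    M π s * M π' s' = M (fun k => π' (π k)) fun k => s k + s' (π k) := by
  ext a b
  rw [Matrix.mul_apply, Fintype.sum_prod_type,
    Finset.sum_eq_single (π a.1) (fun c _ hc => by simp [M, hc]) (by simp)]
  simp only [M, Matrix.of_apply, ← R_add, Matrix.mul_apply]
  split_ifs <;> simp_all

theorem M_one : M (fun k => k) (fun _ => 0) = 1 := by
  ext a b
  obtain ⟨a, i⟩ := a
  obtain ⟨b, j⟩ := b
  simp only [M, Matrix.of_apply, R_zero, Matrix.one_apply, Prod.mk.injEq]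
  by_cases h : a = b <;> simp [h, eq_comm]

noncomputable def e : Fin 18 ≃ K × Fin 2 := (Fintype.equivFinOfCardEq (by simp)).symm

noncomputable def mon (π : Equiv.Perm K) (s : K → Z) : Matrix.orthogonalGroup (Fin 18) ℝ :=
  ⟨(M π s).submatrix e e, by
    have : (M π s).transpose = M π.symm fun k => -s (π.symm k) := by
      ext a b
      simp only [M, Matrix.transpose_apply, Matrix.of_apply, R_neg, Equiv.eq_symm_apply]
      by_cases h : a.1 = π b.1
      · simp [h]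
      · simp [h, Ne.symm h]
    rw [Matrix.mem_orthogonalGroup_iff, Matrix.transpose_submatrix, Matrix.submatrix_mul_equiv,
      this, M_mul]
    simp [M_one]⟩

theorem mon_mul (π π' : Equiv.Perm K) (s s' : K → Z) :
    mon π s * mon π' s' = mon (π.trans π') fun k => s k + s' (π k) :=
  Subtype.ext (by
    simp only [mon, Submonoid.coe_mul, Matrix.submatrix_mul_equiv, M_mul]
    rfl)

theorem mon_inj {π π' : Equiv.Perm K} {s s' : K → Z} (h : mon π s = mon π' s') : s 0 = s' 0 := by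
  have h1 : ∀ a b, M π s a b = M π' s' a b := fun a b => by
    simpa [mon] using congrFun (congrFun (congrArg Subtype.val h) (e.symm a)) (e.symm b)
  have a := h1 (0, 0) (π 0, 0)
  have b := h1 (0, 1) (π 0, 0)
  by_cases c : π 0 = π' 0
  · simp [M, c, R] at a b
    exact ZMod.injective_toCircle (Circle.ext (Complex.ext a b))
  · have := R_sq (s 0)
    simp [M, c, R] at a b
    simp [a, b] at this

theorem mon_free {s : K → Z} (hs : ∀ k, s k ≠ 0) {v : Fin 18 → ℝ}
    (h : (mon (Equiv.addRight 0) s).1.mulVec v = v) : v = 0 := by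
  have h1 : ∀ k i, ∑ j, R (s k) i j * v (e.symm (k, j)) = v (e.symm (k, i)) := fun k i => by
    rw [← congrFun h (e.symm (k, i)), Matrix.mulVec, dotProduct, ← e.symm.sum_comp,
      Fintype.sum_prod_type, Finset.sum_eq_single k (fun c _ hc => by simp [mon, M, hc]) (by simp)]
    simp [mon, M]
  have h2 : ∀ k i, v (e.symm (k, i)) = 0 := fun k i => by
    have a := h1 k 0
    have b := h1 k 1
    have c := R_sq (s k)
    have d : (ZMod.toCircle (s k) : ℂ).re - 1 ≠ 0 := fun d => hs k (ZMod.injective_toCircle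
      (Circle.ext (Complex.ext (by simpa using sub_eq_zero.1 d) (by
        have : (ZMod.toCircle (s k) : ℂ).im ^ 2 = 0 := by nlinarith
        simpa using this))))
    simp [R] at a b
    refine mul_left_cancel₀ d ?_
    fin_cases i
    · change _ * v (e.symm (k, 0)) = _
      linear_combination (-((ZMod.toCircle (s k) : ℂ).re - 1) / 2) * a -
        (ZMod.toCircle (s k) : ℂ).im / 2 * b + v (e.symm (k, 0)) / 2 * c
    · change _ * v (e.symm (k, 1)) = _
      linear_combination (-((ZMod.toCircle (s k) : ℂ).re - 1) / 2) * b +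
        (ZMod.toCircle (s k) : ℂ).im / 2 * a + v (e.symm (k, 1)) / 2 * c
  ext a
  simpa using h2 (e a).1 (e a).2

def w (k : K) : Z := 352 ^ k.1.val * 757 ^ k.2.val
def bar : Z →+* ZMod 3 := ZMod.castHom (by norm_num) _
def d (ε : ZMod 3) (x : Z) : K := (bar x, ε * bar x)

theorem w_add : ∀ k l, w (k + l) = w k * w l := by decide +kernel
theorem w_bar : ∀ k, bar (w k) = 1 := by decide +kernel
theorem w_zero : w 0 = 1 := by decide +kernel

noncomputable def g (ε : ZMod 3) (x : Z) : Matrix.orthogonalGroup (Fin 18) ℝ :=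
  mon (Equiv.addRight (d ε x)) fun k => x * w k

theorem g_mul (ε : ZMod 3) (x y : Z) : g ε x * g ε y = g ε (x + w (d ε x) * y) := by
  rw [g, g, mon_mul, g]
  congr 1
  · ext k <;> simp [d, w_bar] <;> ring
  · ext k
    simp [w_add]
    ring

theorem g_zero (ε : ZMod 3) : g ε 0 = 1 :=
  mul_left_cancel (a := g ε 0) (by rw [g_mul]; simp)

theorem g_inj (ε : ZMod 3) : Function.Injective (g ε) := fun x y h => by
  simpa [w_zero] using mon_inj h

def Γ (ε : ZMod 3) : Subgroup (Matrix.orthogonalGroup (Fin 18) ℝ) where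
  carrier := Set.range (g ε)
  mul_mem' := by
    rintro _ _ ⟨x, rfl⟩ ⟨y, rfl⟩
    exact ⟨_, (g_mul ε x y).symm⟩
  one_mem' := ⟨0, g_zero ε⟩
  inv_mem' := by
    rintro _ ⟨x, rfl⟩
    refine ⟨-w (-d ε x) * x, eq_inv_of_mul_eq_one_right ?_⟩
    rw [g_mul, ← mul_assoc, mul_neg, ← w_add, add_neg_cancel, w_zero, ← g_zero ε]
    simp

noncomputable def eq (ε : ZMod 3) : Z ≃ Γ ε := Equiv.ofInjective _ (g_inj ε)

instance (ε : ZMod 3) : Finite (Γ ε) := Finite.of_equiv _ (eq ε)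

theorem free {ε : ZMod 3} (hε : ε = 1 ∨ ε = 2) : ∀ a ∈ Γ ε, ∀ v : Fin 18 → ℝ,
    a.1.mulVec v = v → a = 1 ∨ v = 0 := by
  have h0 : ∀ y : Z, y ≠ 0 → ∀ k, y * w k ≠ 0 := fun y hy k h => hy (by
    rw [← mul_one y, ← w_zero, ← add_neg_cancel k, w_add, ← mul_assoc, h, zero_mul])
  have h1 : ∀ y : Z, y ≠ 0 → bar y = 0 → ∀ v : Fin 18 → ℝ, (g ε y).1.mulVec v = v → v = 0 :=
    fun y hy hb v h => mon_free (h0 y hy) (by rwa [g, show d ε y = 0 by simp [d, hb]] at h)
  have h2 : ∀ x : Z, bar x ≠ 0 → x + w (d ε x) * (x + w (d ε x) * x) ≠ 0 ∧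
      bar (x + w (d ε x) * (x + w (d ε x) * x)) = 0 := by
    rcases hε with rfl | rfl <;> decide +kernel
  rintro _ ⟨x, rfl⟩ v h
  by_cases hx : x = 0
  · exact Or.inl (hx ▸ g_zero ε)
  by_cases hb : bar x = 0
  · exact Or.inr (h1 x hx hb v h)
  refine Or.inr (h1 _ (h2 x hb).1 (h2 x hb).2 v ?_)
  rw [← g_mul, ← g_mul]
  simp only [Submonoid.coe_mul, ← Matrix.mulVec_mulVec, h]

theorem conj (x : Z) : IsConj (g 1 x) (g 2 x) := by
  by_cases hb : bar x = 0
  · rw [g, g, show d 1 x = d 2 x by simp [d, hb]]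
  have h1 : ∀ ε c, 9 * c * x + x = 91 * x + w (d ε x) * (9 * c * x) →
      IsConj (g ε x) (g ε (91 * x)) := fun ε c h => by
    have a : bar 9 = 0 := by decide +kernel
    have b : bar 91 = 1 := by decide +kernel
    refine isConj_iff.2 ⟨g ε (9 * c * x), ?_⟩
    rw [mul_inv_eq_iff_eq_mul, g_mul, g_mul]
    have : d ε (9 * c * x) = 0 := by simp [d, a]
    rw [this, w_zero, one_mul, h]
    simp [d, b]
  have h2 : ∀ x : Z, bar x ≠ 0 →
      (9 * 60 * x + x = 91 * x + w (d 1 x) * (9 * 60 * x) ∨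
        9 * 41 * x + x = 91 * x + w (d 1 x) * (9 * 41 * x)) ∧
      (9 * 67 * x + x = 91 * x + w (d 2 x) * (9 * 67 * x) ∨
        9 * 34 * x + x = 91 * x + w (d 2 x) * (9 * 34 * x)) := by decide +kernel
  have h3 : ∀ k, 91 * w k = 91 := by decide +kernel
  have a : IsConj (g 1 x) (g 1 (91 * x)) := (h2 x hb).1.elim (h1 _ _) (h1 _ _)
  have b : IsConj (g 2 x) (g 2 (91 * x)) := (h2 x hb).2.elim (h1 _ _) (h1 _ _)
  refine a.trans (IsConj.trans (isConj_iff.2 ⟨mon ((Equiv.refl _).prodCongr (Equiv.neg _)) 0, ?_⟩)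
    b.symm)
  rw [mul_inv_eq_iff_eq_mul, g, g, mon_mul, mon_mul]
  have h4 : (2 : ZMod 3) = -1 := by decide
  congr 1
  · ext k <;> simp [d, h4, add_comm]
  · ext k
    simp [mul_right_comm _ x, h3]

def P (G : Type) [Group G] : Prop := ∃ B a c : G, a ≠ 1 ∧ c ≠ 1 ∧ a ^ 7 = 1 ∧ c ^ 13 = 1 ∧
  B * a = a ^ 2 * B ∧ B * c = c ^ 3 * B

theorem g_pow (ε : ZMod 3) (x : Z) (n : ℕ) : ∃ y, g ε x ^ n = g ε y ∧ bar y = n * bar x ∧
    (bar x = 0 → y = n * x) := by
  induction n with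
  | zero => exact ⟨0, by simp [g_zero]⟩
  | succ n ih =>
    obtain ⟨y, h1, h2, h3⟩ := ih
    refine ⟨_, by rw [pow_succ', h1, g_mul], by simp [w_bar, h2]; ring, fun h => ?_⟩
    have : d ε x = 0 := by simp [d, h]
    simp [this, w_zero, h3 h]
    ring

theorem g_pow' {ε : ZMod 3} {x : Z} (h : bar x = 0) (n : ℕ) : g ε x ^ n = g ε (n * x) := by
  obtain ⟨y, h1, -, h3⟩ := g_pow ε x n
  rw [h1, h3 h]

theorem P1 : P (Γ 1) := by
  have a : bar 117 = 0 := by decide +kernel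
  have c : bar 63 = 0 := by decide +kernel
  refine ⟨⟨_, 1, rfl⟩, ⟨_, 117, rfl⟩, ⟨_, 63, rfl⟩, fun h => ?_, fun h => ?_, Subtype.ext ?_,
    Subtype.ext ?_, Subtype.ext ?_, Subtype.ext ?_⟩
  · exact absurd (g_inj 1 ((congrArg Subtype.val h).trans (g_zero 1).symm)) (by decide +kernel)
  · exact absurd (g_inj 1 ((congrArg Subtype.val h).trans (g_zero 1).symm)) (by decide +kernel)
  · exact (g_pow' a 7).trans ((congrArg (g 1) (by decide +kernel)).trans (g_zero 1))
  · exact (g_pow' c 13).trans ((congrArg (g 1) (by decide +kernel)).trans (g_zero 1))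
  · change g 1 1 * g 1 117 = g 1 117 ^ 2 * g 1 1
    rw [g_pow' a, g_mul, g_mul]
    exact congrArg (g 1) (by decide +kernel)
  · change g 1 1 * g 1 63 = g 1 63 ^ 3 * g 1 1
    rw [g_pow' c, g_mul, g_mul]
    exact congrArg (g 1) (by decide +kernel)

theorem P2 : ¬ P (Γ 2) := by
  rintro ⟨⟨_, x, rfl⟩, ⟨_, y, rfl⟩, ⟨_, z, rfl⟩, h1, h2, h3, h4, h5, h6⟩
  have key : ∀ (y : Z) (n m : ℕ), (n : ZMod 3) = 1 → g 2 y ^ n = 1 →
      g 2 x * g 2 y = g 2 y ^ m * g 2 x → n * y = 0 ∧ w (d 2 x) * y = m * y := by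
    intro y n m hn a b
    obtain ⟨t, c1, c2, -⟩ := g_pow 2 y n
    have c3 : t = 0 := g_inj 2 (c1.symm.trans (a.trans (g_zero 2).symm))
    rw [c3, hn, one_mul, map_zero] at c2
    rw [g_pow' c2.symm] at a b
    have : d 2 (m * y) = 0 := by simp [d, ← c2]
    rw [g_mul, g_mul, this, w_zero] at b
    exact ⟨g_inj 2 (a.trans (g_zero 2).symm), by linear_combination g_inj 2 b⟩
  have a := key y 7 2 (by decide) (congrArg Subtype.val h3) (congrArg Subtype.val h5)
  have b := key z 13 3 (by decide) (congrArg Subtype.val h4) (congrArg Subtype.val h6)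
  have k1 : ∀ (t : ZMod 3) (y : Z), ((7 : ℕ) : Z) * y = 0 ∧ w (t, 2 * t) * y = (2 : ℕ) * y →
      y = 0 ∨ t = 1 := by decide +kernel
  have k2 : ∀ (t : ZMod 3) (y : Z), ((13 : ℕ) : Z) * y = 0 ∧ w (t, 2 * t) * y = (3 : ℕ) * y →
      y = 0 ∨ t = 2 := by decide +kernel
  rcases k1 _ _ a with rfl | c
  · exact h1 (Subtype.ext (g_zero 2))
  rcases k2 _ _ b with rfl | c'
  · exact h2 (Subtype.ext (g_zero 2))
  exact absurd (c.symm.trans c') (by decide)

theorem noniso : IsEmpty (Γ 1 ≃* Γ 2) := ⟨fun φ => P2 (by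
  obtain ⟨B, a, c, h1, h2, h3, h4, h5, h6⟩ := P1
  exact ⟨φ B, φ a, φ c, by simpa, by simpa, by rw [← map_pow, h3, map_one],
    by rw [← map_pow, h4, map_one], by rw [← map_mul, h5, map_mul, map_pow],
    by rw [← map_mul, h6, map_mul, map_pow]⟩)⟩

theorem iso (k : ℕ) :
    finrank ℝ ↥(homogeneousSubmodule (Fin 18) ℝ k ⊓ LinearMap.ker lap ⊓ Inv (Γ 1 : Set _)) =
      finrank ℝ ↥(homogeneousSubmodule (Fin 18) ℝ k ⊓ LinearMap.ker lap ⊓ Inv (Γ 2 : Set _)) :=
  sunada ((eq 1).symm.trans (eq 2)) (fun a => by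
    obtain ⟨x, rfl⟩ := (eq 1).surjective a
    rw [Equiv.trans_apply, Equiv.symm_apply_apply]
    exact conj x) k

end Pool.Agent.H85.SpForm
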