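import Pool.Agent.H81.PL

set_option autoImplicit false

namespace Pool.Agent.H85.SphProd

open Set MeasureTheory Matrix Metric
open scoped ENNReal Pointwise

variable {n : ℕ}

theorem vol_exp {K : Set (Fin n → ℝ)} (hK : MeasurableSet K) :
    volume (K ∩ {x | ∀ i, 0 < x i}) = ∫⁻ s : Fin n → ℝ, ENNReal.ofReal (∏ i, Real.exp (s i)) *
      K.indicator 1 (fun i => Real.exp (s i)) := by
  have him : (fun (s : Fin n → ℝ) i => Real.exp (s i)) '' univ = {x | ∀ i, 0 < x i} := by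
    ext x
    simp only [image_univ, mem_range, mem_ofPred_eq]
    exact ⟨by rintro ⟨s, rfl⟩ i; exact Real.exp_pos _,
      fun h => ⟨fun i => Real.log (x i), funext fun i => Real.exp_log (h i)⟩⟩
  have h := lintegral_image_eq_lintegral_abs_det_fderiv_mul (volume : Measure (Fin n → ℝ))
    (f := fun (s : Fin n → ℝ) i => Real.exp (s i)) (s := univ)
    (f' := fun s => ContinuousLinearMap.pi fun i =>
      (Real.exp (s i) • ContinuousLinearMap.id ℝ ℝ).comp (ContinuousLinearMap.proj i))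
    MeasurableSet.univ (fun s _ => by
      refine HasFDerivAt.hasFDerivWithinAt (hasFDerivAt_pi.2 fun i => ?_)
      exact (hasFDerivAt_apply (𝕜 := ℝ) i s).exp)
    (fun a _ b _ hab => funext fun i => Real.exp_injective (congrFun hab i)) (K.indicator 1)
  rw [him, lintegral_indicator_one hK, Measure.restrict_apply hK, Measure.restrict_univ] at h
  rw [h]
  refine lintegral_congr fun s => ?_
  rw [ContinuousLinearMap.det_pi, abs_of_nonneg (Finset.prod_nonneg fun i _ => by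
    simp [ContinuousLinearMap.det, Real.exp_nonneg])]
  simp [ContinuousLinearMap.det]

theorem vol_pos {K : Set (Fin n → ℝ)} (hK : ∀ x ∈ K, ∀ i, 0 ≤ x i) :
    volume (K ∩ {x | ∀ i, 0 < x i}) = volume K := by
  refine measure_congr ?_
  have : ∀ᵐ x : Fin n → ℝ, ∀ i, x i ≠ 0 := ae_all_iff.2 fun i => Measure.ae_eval_ne _ i 0
  filter_upwards [this] with x hx
  exact propext ⟨fun h => h.1, fun h => ⟨h, fun i => (hK x h i).lt_of_ne' (hx i)⟩⟩

/-- Multiplicative Brunn-Minkowski inequality on the orthant. -/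
theorem mul_bm {K L D : Set (Fin n → ℝ)} (hK : MeasurableSet K) (hL : MeasurableSet L)
    (hD : MeasurableSet D) (hK0 : ∀ x ∈ K, ∀ i, 0 ≤ x i) (hL0 : ∀ x ∈ L, ∀ i, 0 ≤ x i)
    (H : ∀ x ∈ K, ∀ y ∈ L, ∀ z : Fin n → ℝ, (∀ i, z i * z i = x i * y i) → z ∈ D) :
    volume K * volume L ≤ volume (D ∩ {x | ∀ i, 0 < x i}) * volume (D ∩ {x | ∀ i, 0 < x i}) := by
  have hm : ∀ {K : Set (Fin n → ℝ)}, MeasurableSet K → Measurable fun s : Fin n → ℝ =>
      ENNReal.ofReal (∏ i, Real.exp (s i)) * K.indicator 1 (fun i => Real.exp (s i)) :=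
    fun hK => (by fun_prop : Measurable fun s : Fin n → ℝ =>
      ENNReal.ofReal (∏ i, Real.exp (s i))).mul ((measurable_one.indicator hK).comp (by fun_prop))
  have h := Pool.Agent.H81.PL.hasPL_pi (a := 1 / 2) (b := 1 / 2) (by norm_num) (by norm_num)
    (by norm_num) n _ _ _ (hm hK) (hm hL) (hm hD) fun s t => by
      by_cases h1 : (fun i => Real.exp (s i)) ∈ K
      swap
      · simp [h1]
      by_cases h2 : (fun i => Real.exp (t i)) ∈ L
      swap
      · simp [h2]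
      have h4 : ∀ i, Real.exp (((1 / 2 : ℝ) • s + (1 / 2 : ℝ) • t) i) *
          Real.exp (((1 / 2 : ℝ) • s + (1 / 2 : ℝ) • t) i) = Real.exp (s i) * Real.exp (t i) := by
        intro i
        simp only [← Real.exp_add, Pi.add_apply, Pi.smul_apply, smul_eq_mul]
        congr 1; ring
      rw [indicator_of_mem h1, indicator_of_mem h2, indicator_of_mem (H _ h1 _ h2 _ h4)]
      simp only [Pi.one_apply, mul_one, ← Real.exp_sum]
      rw [ENNReal.ofReal_rpow_of_pos (Real.exp_pos _), ENNReal.ofReal_rpow_of_pos (Real.exp_pos _),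
        ← ENNReal.ofReal_mul (by positivity), ← Real.exp_mul, ← Real.exp_mul, ← Real.exp_add]
      simp [Finset.sum_add_distrib, Finset.sum_mul, mul_comm]
  rw [← vol_exp hK, ← vol_exp hL, ← vol_exp hD, vol_pos hK0, vol_pos hL0] at h
  have := mul_le_mul' h h
  rwa [mul_mul_mul_comm, ← ENNReal.rpow_add_of_nonneg _ _ (by norm_num) (by norm_num),
    ← ENNReal.rpow_add_of_nonneg _ _ (by norm_num) (by norm_num), add_halves, ENNReal.rpow_one,
    ENNReal.rpow_one] at this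

theorem core {M : Matrix (Fin n) (Fin n) ℝ} (hM : IsUnit M.det) :
    volume {x : Fin n → ℝ | (∀ i, 0 ≤ (M *ᵥ x) i) ∧ x ⬝ᵥ x < 1} *
      volume {x : Fin n → ℝ | (∀ i, 0 ≤ (M⁻¹ᵀ *ᵥ x) i) ∧ x ⬝ᵥ x < 1} ≤
    volume ({x : Fin n → ℝ | x ⬝ᵥ x < 1} ∩ {x | ∀ i, 0 < x i}) *
      volume ({x : Fin n → ℝ | x ⬝ᵥ x < 1} ∩ {x | ∀ i, 0 < x i}) := by
  have hm : ∀ N : Matrix (Fin n) (Fin n) ℝ, MeasurableSet
      {u : Fin n → ℝ | (∀ i, 0 ≤ u i) ∧ (N *ᵥ u) ⬝ᵥ (N *ᵥ u) < 1} := fun N => by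
    refine MeasurableSet.inter (s₁ := {u : Fin n → ℝ | ∀ i, 0 ≤ u i})
      (s₂ := {u : Fin n → ℝ | (N *ᵥ u) ⬝ᵥ (N *ᵥ u) < 1}) ?_
      (isOpen_lt (by fun_prop) continuous_const).measurableSet
    rw [ofPred_forall]
    exact MeasurableSet.iInter fun i => measurableSet_le measurable_const (measurable_pi_apply i)
  have hv : ∀ N N' : Matrix (Fin n) (Fin n) ℝ, N' * N = 1 →
      volume {x : Fin n → ℝ | (∀ i, 0 ≤ (N *ᵥ x) i) ∧ x ⬝ᵥ x < 1} ≤ ENNReal.ofReal |N'.det| *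
        volume {u : Fin n → ℝ | (∀ i, 0 ≤ u i) ∧ (N' *ᵥ u) ⬝ᵥ (N' *ᵥ u) < 1} := by
    intro N N' h
    rw [← LinearMap.det_toLin', ← Measure.addHaar_image_linearMap]
    refine measure_mono fun x hx => ⟨N *ᵥ x, ⟨hx.1, ?_⟩, ?_⟩
    · simpa [h] using hx.2
    · simp [h]
  have h1 := hv M M⁻¹ (nonsing_inv_mul M hM)
  have h2 := hv M⁻¹ᵀ Mᵀ (by rw [← transpose_mul, nonsing_inv_mul M hM, transpose_one])
  refine (mul_le_mul' h1 h2).trans ?_
  rw [mul_mul_mul_comm, ← ENNReal.ofReal_mul (abs_nonneg _), ← abs_mul, det_transpose,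
    det_nonsing_inv_mul_det M hM, abs_one, ENNReal.ofReal_one, one_mul]
  refine mul_bm (hm _) (hm _) (isOpen_lt (by fun_prop) continuous_const).measurableSet
    (fun x hx => hx.1) (fun x hx => hx.1) fun x hx y hy z hz => ?_
  have e1 : z ⬝ᵥ z = (M⁻¹ *ᵥ x) ⬝ᵥ (Mᵀ *ᵥ y) := by
    rw [dotProduct_comm (M⁻¹ *ᵥ x), mulVec_transpose, ← dotProduct_mulVec, mulVec_mulVec,
      mul_nonsing_inv M hM, one_mulVec]
    exact Finset.sum_congr rfl fun i _ => (hz i).trans (mul_comm _ _)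
  have a := hx.2
  have b := hy.2
  have c : 0 ≤ (M⁻¹ *ᵥ x - Mᵀ *ᵥ y) ⬝ᵥ (M⁻¹ *ᵥ x - Mᵀ *ᵥ y) :=
    Finset.sum_nonneg fun i _ => mul_self_nonneg _
  rw [sub_dotProduct, dotProduct_sub, dotProduct_sub, dotProduct_comm (Mᵀ *ᵥ y) (M⁻¹ *ᵥ x)] at c
  change z ⬝ᵥ z < 1
  linarith

theorem cone_le {s : Set (sphere (0 : EuclideanSpace ℝ (Fin n)) 1)} (hs : MeasurableSet s)
    {N : Matrix (Fin n) (Fin n) ℝ} (h : ∀ x ∈ s, ∀ i, 0 ≤ (N *ᵥ x.1.ofLp) i) :
    (volume : Measure (EuclideanSpace ℝ (Fin n))).toSphere s ≤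
      n * volume {x : Fin n → ℝ | (∀ i, 0 ≤ (N *ᵥ x) i) ∧ x ⬝ᵥ x < 1} := by
  have hm : MeasurableSet {x : Fin n → ℝ | (∀ i, 0 ≤ (N *ᵥ x) i) ∧ x ⬝ᵥ x < 1} := by
    refine MeasurableSet.inter (s₁ := {u : Fin n → ℝ | ∀ i, 0 ≤ (N *ᵥ u) i})
      (s₂ := {u : Fin n → ℝ | u ⬝ᵥ u < 1}) ?_
      (isOpen_lt (by fun_prop) continuous_const).measurableSet
    rw [ofPred_forall]
    exact MeasurableSet.iInter fun i => (isClosed_le continuous_const (by fun_prop)).measurableSet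
  rw [Measure.toSphere_apply' _ hs, finrank_euclideanSpace_fin,
    ← (PiLp.volume_preserving_ofLp (Fin n)).measure_preimage hm.nullMeasurableSet]
  gcongr
  rintro _ ⟨r, hr, _, ⟨x, hx, rfl⟩, rfl⟩
  have h1 : x.1.ofLp ⬝ᵥ x.1.ofLp = 1 := by
    have := real_inner_self_eq_norm_sq x.1
    rw [mem_sphere_zero_iff_norm.1 x.2, EuclideanSpace.inner_eq_star_dotProduct] at this
    simpa using this
  refine ⟨fun i => ?_, ?_⟩
  · simpa [mulVec_smul] using mul_nonneg hr.1.le (h x hx i)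
  · simp only [WithLp.ofLp_smul, smul_dotProduct, dotProduct_smul, h1, smul_eq_mul]
    nlinarith [hr.1, hr.2]

theorem le_cone {s : Set (sphere (0 : EuclideanSpace ℝ (Fin n)) 1)} (hs : MeasurableSet s)
    (h : ∀ x : sphere (0 : EuclideanSpace ℝ (Fin n)) 1, (∀ i, 0 ≤ x.1 i) → x ∈ s) :
    n * volume ({x : Fin n → ℝ | x ⬝ᵥ x < 1} ∩ {x | ∀ i, 0 < x i}) ≤
      (volume : Measure (EuclideanSpace ℝ (Fin n))).toSphere s := by
  rcases Nat.eq_zero_or_pos n with rfl | hn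
  · simp
  have hm : MeasurableSet ({x : Fin n → ℝ | x ⬝ᵥ x < 1} ∩ {x | ∀ i, 0 < x i}) := by
    refine (isOpen_lt (by fun_prop) continuous_const).measurableSet.inter ?_
    rw [ofPred_forall]
    exact MeasurableSet.iInter fun i => measurableSet_lt measurable_const (measurable_pi_apply i)
  rw [Measure.toSphere_apply' _ hs, finrank_euclideanSpace_fin,
    ← (PiLp.volume_preserving_ofLp (Fin n)).measure_preimage hm.nullMeasurableSet]
  gcongr
  rintro x ⟨h1, h2⟩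
  have h0 : 0 < ‖x‖ := norm_pos_iff.2 fun h0 => by simpa [h0] using h2 ⟨0, hn⟩
  have h3 : ‖x‖ ^ 2 < 1 := by
    rw [← real_inner_self_eq_norm_sq, EuclideanSpace.inner_eq_star_dotProduct]
    simpa using h1
  refine ⟨‖x‖, ⟨h0, by nlinarith⟩, ‖x‖⁻¹ • x, ⟨⟨_, by simp [norm_smul, h0.ne']⟩,
    h _ fun i => ?_, rfl⟩, by simp [smul_smul, h0.ne']⟩
  simpa using mul_nonneg (inv_nonneg.2 h0.le) (h2 i).le

theorem main (a : Fin n → EuclideanSpace ℝ (Fin n)) (ha : LinearIndependent ℝ a)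
    {s t : Set (sphere (0 : EuclideanSpace ℝ (Fin n)) 1)} (hs : MeasurableSet s)
    (ht : MeasurableSet t)
    (h1 : ∀ x : sphere (0 : EuclideanSpace ℝ (Fin n)) 1, (∀ i, 0 ≤ x.1 i) → x ∈ s)
    (h2 : ∀ x : sphere (0 : EuclideanSpace ℝ (Fin n)) 1, (∀ i, 0 ≤ x.1 i) → x ∈ t) :
    (volume : Measure (EuclideanSpace ℝ (Fin n))).toSphere
        {x : sphere (0 : EuclideanSpace ℝ (Fin n)) 1 | ∀ i, 0 ≤ inner ℝ x.1 (a i)} *
      (volume : Measure (EuclideanSpace ℝ (Fin n))).toSphere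
        {x : sphere (0 : EuclideanSpace ℝ (Fin n)) 1 |
          ∀ y : sphere (0 : EuclideanSpace ℝ (Fin n)) 1, (∀ i, 0 ≤ inner ℝ y.1 (a i)) →
            0 ≤ inner ℝ x.1 y.1} ≤
    (volume : Measure (EuclideanSpace ℝ (Fin n))).toSphere s *
      (volume : Measure (EuclideanSpace ℝ (Fin n))).toSphere t := by
  let M : Matrix (Fin n) (Fin n) ℝ := Matrix.of fun i j => a i j
  have hM : IsUnit M.det := by
    rw [← isUnit_iff_isUnit_det, ← linearIndependent_rows_iff_isUnit]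
    exact ha.map' (WithLp.linearEquiv 2 ℝ (Fin n → ℝ)).toLinearMap (LinearEquiv.ker _)
  have hi : ∀ (x : EuclideanSpace ℝ (Fin n)) i, inner ℝ x (a i) = (M *ᵥ x.ofLp) i := by
    intro x i
    rw [EuclideanSpace.inner_eq_star_dotProduct]
    rfl
  refine le_trans (mul_le_mul' (cone_le (N := M) ?_ fun x hx i => hi x i ▸ hx i)
    (cone_le (N := M⁻¹ᵀ) ?_ fun x hx i => ?_)) (le_trans ?_
      (mul_le_mul' (le_cone hs h1) (le_cone ht h2)))
  · rw [ofPred_forall]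
    exact MeasurableSet.iInter fun i => (isClosed_le continuous_const (by fun_prop)).measurableSet
  · simp only [ofPred_forall]
    exact (isClosed_iInter fun y => isClosed_iInter fun _ =>
      isClosed_le continuous_const (by fun_prop)).measurableSet
  · let b : EuclideanSpace ℝ (Fin n) := WithLp.toLp 2 (M⁻¹ *ᵥ Pi.single i 1)
    have hb : ∀ j, inner ℝ b (a j) = (Pi.single i 1 : Fin n → ℝ) j := fun j => by
      rw [hi, mulVec_mulVec, mul_nonsing_inv M hM, one_mulVec]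
    have h0 : 0 < ‖b‖ := norm_pos_iff.2 fun h0 => by simpa [h0] using hb i
    have := hx ⟨‖b‖⁻¹ • b, by simp [norm_smul, h0.ne']⟩ fun j => by
      rw [real_inner_smul_left, hb]
      exact mul_nonneg (inv_nonneg.2 h0.le) (by rw [Pi.single_apply]; split_ifs <;> norm_num)
    rw [real_inner_smul_right, mul_nonneg_iff_of_pos_left (inv_pos.2 h0),
      EuclideanSpace.inner_eq_star_dotProduct] at this
    simp only [b, mulVec_single_one, star_trivial] at this
    exact this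
  · rw [mul_mul_mul_comm, mul_mul_mul_comm (n : ℝ≥0∞) _ n]
    exact mul_le_mul' le_rfl (core hM)

end Pool.Agent.H85.SphProd
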