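import Mathlib
import Pool.Agent.H85.Tau
import Pool.Agent.H85.SplitDefs

set_option autoImplicit false

namespace Pool.Agent.H85.Split

open Set Filter Pool.Agent.H85.TauDefs Pool.Agent.H85.Tau Pool.Agent.H85.SplitDefs

variable {Y : Type}

/-- Every infinite fibre of a sequence is split by one set of indices. -/
theorem split_fibres {Z : Type} (w : ℕ → Z) : ∃ S : Set ℕ, ∀ z, {j | w j = z}.Infinite →
    {j | w j = z ∧ j ∈ S}.Infinite ∧ {j | w j = z ∧ j ∉ S}.Infinite := by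
  classical
  refine ⟨{j | Even (Nat.count (fun k => w k = w j) j)}, fun z hz => ⟨?_, ?_⟩⟩
  · refine infinite_of_injective_forall_mem (f := fun n => Nat.nth (fun k => w k = z) (2 * n))
      (fun a b hab => by have := Nat.nth_injective hz hab; omega) fun n => ?_
    have h1 : w (Nat.nth (fun k => w k = z) (2 * n)) = z := Nat.nth_mem_of_infinite hz _
    refine ⟨h1, ?_⟩
    simp only [mem_ofPred_eq, h1]
    rw [Nat.count_nth_of_infinite hz]
    exact even_two_mul n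
  · refine infinite_of_injective_forall_mem (f := fun n => Nat.nth (fun k => w k = z) (2 * n + 1))
      (fun a b hab => by have := Nat.nth_injective hz hab; omega) fun n => ?_
    have h1 : w (Nat.nth (fun k => w k = z) (2 * n + 1)) = z := Nat.nth_mem_of_infinite hz _
    refine ⟨h1, ?_⟩
    simp only [mem_ofPred_eq, h1]
    rw [Nat.count_nth_of_infinite hz]
    exact Nat.not_even_two_mul_add_one n

/-- Index form of the splitting of towers of open sets. -/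
theorem split_index [TopologicalSpace Y] [Nonempty Y] (h : Split (Omega Y) (Tau Y))
    {w : ℕ → Set Y} (ho : ∀ j, IsOpen (w j)) (h3 : ∀ x, {j | x ∈ w j}.Infinite)
    (h4 : ∀ x y, {j | x ∈ w j ∧ y ∉ w j}.Finite ∨ {j | y ∈ w j ∧ x ∉ w j}.Finite) :
    ∃ S : Set ℕ, ∀ x, {j | x ∈ w j ∧ j ∈ S}.Infinite ∧ {j | x ∈ w j ∧ j ∉ S}.Infinite := by
  by_cases hR : ∀ x, ∃ z, x ∈ z ∧ {j | w j = z}.Infinite
  · obtain ⟨S, hS⟩ := split_fibres w
    refine ⟨S, fun x => ?_⟩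
    obtain ⟨z, hx, hz⟩ := hR x
    constructor
    · refine (hS z hz).1.mono ?_
      rintro j ⟨rfl, hj⟩; exact ⟨hx, hj⟩
    · refine (hS z hz).2.mono ?_
      rintro j ⟨rfl, hj⟩; exact ⟨hx, hj⟩
  push Not at hR
  obtain ⟨x0, hx0⟩ := hR
  let C : Set (Set Y) := {U | (∃ j, w j = U) ∧ {j | w j = U}.Finite ∧ U ≠ univ}
  have hlarge : ∀ x, {U ∈ C | x ∈ U}.Infinite := by
    intro x hf
    have h1 : {j | x ∈ w j ∧ x0 ∈ w j}.Infinite := by
      rcases h4 x x0 with h' | h'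
      · refine ((h3 x).sdiff h').mono ?_
        rintro j ⟨hj, hj'⟩
        exact ⟨hj, by by_contra hc; exact hj' ⟨hj, hc⟩⟩
      · refine ((h3 x0).sdiff h').mono ?_
        rintro j ⟨hj, hj'⟩
        exact ⟨by by_contra hc; exact hj' ⟨hj, hc⟩, hj⟩
    refine h1 (((hf.biUnion (t := fun U => {j | w j = U}) fun U hU => hU.1.2.1).union
      (hx0 univ (mem_univ _))).subset ?_)
    rintro j ⟨hj, hj0⟩
    by_cases hu : w j = univ
    · exact Or.inr hu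
    · exact Or.inl (mem_biUnion (x := w j) ⟨⟨⟨j, rfl⟩, hx0 _ hj0, hu⟩, hj⟩ rfl)
  have hC : C ∈ Tau Y := by
    refine ⟨?_, ⟨?_, fun hc => hc.2.2 rfl⟩, hlarge, fun x y => ?_⟩
    · rintro U ⟨⟨j, rfl⟩, _⟩; exact ho j
    · refine eq_univ_of_forall fun x => ?_
      obtain ⟨U, hU, hx⟩ := (hlarge x).nonempty
      exact ⟨U, hU, hx⟩
    · rcases h4 x y with h' | h'
      · refine Or.inl ((h'.image w).subset ?_)
        rintro U ⟨⟨⟨j, rfl⟩, _⟩, hj⟩; exact ⟨j, hj, rfl⟩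
      · refine Or.inr ((h'.image w).subset ?_)
        rintro U ⟨⟨⟨j, rfl⟩, _⟩, hj⟩; exact ⟨j, hj, rfl⟩
  obtain ⟨V, W, hVW, hd, ⟨V', hV', hV⟩, W', hW', hW⟩ := h C (tau_sub_omega hC)
  refine ⟨{j | w j ∈ V}, fun x => ⟨fun hf => hV'.2.2.1 x ((hf.image w).subset ?_),
    fun hf => hW'.2.2.1 x ((hf.image w).subset ?_)⟩⟩
  · rintro U ⟨hU, hx⟩
    have : U ∈ C := hVW ▸ Or.inl (hV hU)
    obtain ⟨⟨j, rfl⟩, _⟩ := this
    exact ⟨j, ⟨hx, hV hU⟩, rfl⟩
  · rintro U ⟨hU, hx⟩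
    have : U ∈ C := hVW ▸ Or.inr (hW hU)
    obtain ⟨⟨j, rfl⟩, _⟩ := this
    exact ⟨j, ⟨hx, fun hc => hd.ne_of_mem hc (hW hU) rfl⟩, rfl⟩

/-- A tower with finite sections inside an array of open sets. -/
theorem tower_array [TopologicalSpace Y] [T1Space Y] (h : Split (Omega Y) (Tau Y))
    {v : ℕ → ℕ → Set Y} (ho : ∀ n m, IsOpen (v n m)) (hv : ∀ x n, ∀ᶠ m in atTop, x ∈ v n m) :
    ∃ D : Set (ℕ × ℕ), (∀ n, {d ∈ D | d.1 = n}.Finite) ∧
      (∀ x, {d ∈ D | x ∈ v d.1 d.2}.Infinite) ∧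
      ∀ x y, {d ∈ D | x ∈ v d.1 d.2 ∧ y ∉ v d.1 d.2}.Finite ∨
        {d ∈ D | y ∈ v d.1 d.2 ∧ x ∉ v d.1 d.2}.Finite := by
  have hfin : ∀ F : Set Y, F.Finite → ∀ n, ∃ m, F ⊆ v n m := fun F hF n =>
    ((eventually_all_finite hF).2 fun x _ => hv x n).exists
  rcases finite_or_infinite Y with hY | hY
  · choose m hm using hfin univ finite_univ
    refine ⟨range fun n => (n, m n), fun n => (finite_singleton (n, m n)).subset ?_, fun x => ?_,
      fun x y => Or.inl (finite_empty.subset ?_)⟩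
    · rintro _ ⟨⟨k, rfl⟩, rfl⟩; rfl
    · exact infinite_of_injective_forall_mem (f := fun n => (n, m n))
        (fun a b hab => congrArg Prod.fst hab) fun n => ⟨⟨n, rfl⟩, hm n (mem_univ _)⟩
    · rintro _ ⟨⟨k, rfl⟩, _, hy⟩; exact hy (hm k (mem_univ _))
  let p : ℕ → Y := Infinite.natEmbedding Y
  have hp : Function.Injective p := (Infinite.natEmbedding Y).injective
  let C : Set (Set Y) := range fun d : ℕ × ℕ => v d.1 d.2 \ {p d.1}
  have hC : C ∈ Omega Y := by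
    have hF : ∀ F : Set Y, F.Finite → ∃ U ∈ C, F ⊆ U := by
      intro F hF
      obtain ⟨n, hn⟩ := (hF.preimage hp.injOn).infinite_compl.nonempty
      obtain ⟨m, hm⟩ := hfin F hF n
      exact ⟨_, ⟨(n, m), rfl⟩, fun x hx => ⟨hm hx, fun hc => hn (by
        rw [mem_singleton_iff] at hc; rw [mem_preimage, ← hc]; exact hx)⟩⟩
    refine ⟨?_, ⟨eq_univ_of_forall fun x => ?_, ?_⟩, hF⟩
    · rintro _ ⟨d, rfl⟩; exact (ho _ _).sdiff isClosed_singleton
    · obtain ⟨U, hU, hx⟩ := hF {x} (finite_singleton x)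
      exact ⟨U, hU, hx rfl⟩
    · rintro ⟨d, hd⟩
      have : p d.1 ∈ v d.1 d.2 \ {p d.1} := by simp only [hd]; exact mem_univ _
      exact this.2 rfl
  obtain ⟨V, W, hVW, -, ⟨T, hT, hV⟩, -⟩ := h C hC
  have hTC : T ⊆ C := hV.trans (hVW ▸ subset_union_left)
  have hc : ∀ U : Set Y, ∃ d : ℕ × ℕ, U ∈ T → v d.1 d.2 \ {p d.1} = U := fun U => by
    by_cases hU : U ∈ T
    · obtain ⟨d, hd⟩ := hTC hU; exact ⟨d, fun _ => hd⟩
    · exact ⟨(0, 0), fun h' => absurd h' hU⟩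
  choose c hc using hc
  have hci : InjOn c T := fun U hU U' hU' he => by rw [← hc U hU, ← hc U' hU', he]
  -- it is enough to find a subfamily with finite sections
  suffices H : ∃ T' ⊆ T, (∀ n, {U ∈ T' | (c U).1 = n}.Finite) ∧ (∀ x, {U ∈ T' | x ∈ U}.Infinite) by
    obtain ⟨T', hT', h1, h2⟩ := H
    have hsec : ∀ n, {d ∈ c '' T' | d.1 = n}.Finite := fun n => ((h1 n).image c).subset (by
      rintro _ ⟨⟨U, hU, rfl⟩, hn⟩; exact ⟨U, ⟨hU, hn⟩, rfl⟩)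
    have key : ∀ x y, {U ∈ T | x ∈ U ∧ y ∉ U}.Finite →
        {d ∈ c '' T' | x ∈ v d.1 d.2 ∧ y ∉ v d.1 d.2}.Finite := by
      intro x y hf
      refine ((hf.image c).union ((fin_p hp x).biUnion fun n _ => hsec n)).subset ?_
      rintro _ ⟨⟨U, hU, rfl⟩, hx, hy⟩
      by_cases hpx : p (c U).1 = x
      · exact Or.inr (mem_biUnion (x := (c U).1) hpx ⟨⟨U, hU, rfl⟩, rfl⟩)
      · refine Or.inl ⟨U, ⟨hT' hU, ?_, ?_⟩, rfl⟩
        · rw [← hc U (hT' hU)]; exact ⟨hx, fun h' => hpx h'.symm⟩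
        · rw [← hc U (hT' hU)]; exact fun h' => hy h'.1
    refine ⟨c '' T', hsec, fun x => ?_, fun x y => (hT.2.2.2 x y).imp (key x y) (key y x)⟩
    refine ((h2 x).image (hci.mono fun U hU => hT' hU.1)).mono ?_
    rintro _ ⟨U, ⟨hU, hx⟩, rfl⟩
    refine ⟨⟨U, hU, rfl⟩, ?_⟩
    rw [← hc U (hT' hU)] at hx; exact hx.1
  by_cases hs : ∀ n, {U ∈ T | (c U).1 = n}.Finite
  · exact ⟨T, Subset.rfl, hs, hT.2.2.1⟩
  push Not at hs
  obtain ⟨n0, hn0⟩ := hs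
  have hgam : ∀ y, {U ∈ T | p n0 ∈ U ∧ y ∉ U}.Finite := by
    intro y
    by_cases hy : y = p n0
    · refine finite_empty.subset ?_
      rintro U ⟨_, h1, h2⟩; exact h2 (hy ▸ h1)
    refine (hT.2.2.2 (p n0) y).resolve_right fun hf => hn0 ?_
    obtain ⟨M, hM⟩ := eventually_atTop.1 (hv y n0)
    have hf2 : {U ∈ T | c U ∈ ({n0} : Set ℕ) ×ˢ Iio M}.Finite :=
      Finite.of_finite_image (((finite_singleton n0).prod (finite_Iio M)).subset (by
        rintro _ ⟨U, hU, rfl⟩; exact hU.2)) (hci.mono fun U hU => hU.1)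
    refine (hf.union hf2).subset ?_
    rintro U ⟨hU, hn⟩
    by_cases hm : (c U).2 < M
    · exact Or.inr ⟨hU, hn, hm⟩
    · refine Or.inl ⟨hU, ?_, ?_⟩
      · rw [← hc U hU, hn]; exact ⟨hM _ (not_lt.1 hm), hy⟩
      · rw [← hc U hU, hn]; exact fun h' => h'.2 rfl
  refine ⟨{U ∈ T | p n0 ∈ U}, fun U hU => hU.1, fun n => (hgam (p n)).subset ?_, fun x => ?_⟩
  · rintro U ⟨⟨hU, h0⟩, hn⟩
    refine ⟨hU, h0, ?_⟩
    rw [← hc U hU, hn]; exact fun h' => h'.2 rfl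
  · refine ((hT.2.2.1 (p n0)).sdiff (hgam x)).mono ?_
    rintro U ⟨⟨hU, h0⟩, h'⟩
    exact ⟨⟨hU, h0⟩, by by_contra hx; exact h' ⟨hU, h0, hx⟩⟩

/-- The sets of indices of a large sequence of open sets are split by one set. -/
theorem split_large [TopologicalSpace Y] [T1Space Y] [Nonempty Y] (h : Split (Omega Y) (Tau Y))
    {u : ℕ → Set Y} (ho : ∀ j, IsOpen (u j)) (h3 : ∀ x, {j | x ∈ u j}.Infinite) :
    ∃ S : Set ℕ, ∀ x, {j | x ∈ u j ∧ j ∈ S}.Infinite ∧ {j | x ∈ u j ∧ j ∉ S}.Infinite := by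
  let v : ℕ → ℕ → Set Y := fun n m => ⋃ i ∈ Ico n m, u i
  obtain ⟨D, hD1, hD2, hD3⟩ := tower_array h (v := v)
    (fun n m => isOpen_biUnion fun i _ => ho i) (fun x n => by
      obtain ⟨i, hi, hni⟩ := (h3 x).exists_gt n
      exact (eventually_gt_atTop i).mono fun m hm => mem_biUnion (x := i) ⟨hni.le, hm⟩ hi)
  have hb : ∀ a : ℕ, ∃ b, a < b ∧ ∀ d ∈ D, d.1 < a → d.2 ≤ b := by
    intro a
    have hf : {d ∈ D | d.1 < a}.Finite :=
      ((finite_Iio a).biUnion fun n _ => hD1 n).subset fun d hd =>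
        mem_biUnion (x := d.1) hd.2 ⟨hd.1, rfl⟩
    obtain ⟨b, hb⟩ := (hf.image Prod.snd).bddAbove
    exact ⟨max (a + 1) b, by omega, fun d hd hda =>
      (hb ⟨d, ⟨hd, hda⟩, rfl⟩).trans (le_max_right _ _)⟩
  choose g hg1 hg2 using hb
  let t : ℕ → ℕ := fun j => g^[j] 0
  have ht : ∀ j, t (j + 1) = g (t j) := fun j => Function.iterate_succ_apply' g j 0
  have hts : StrictMono t := strictMono_nat_of_lt_succ fun j => by rw [ht]; exact hg1 _
  have hblock : ∀ n, ∃ j, t j ≤ n ∧ n < t (j + 1) := fun n => by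
    classical
    have hex : ∃ j, n < t (j + 1) := ⟨n, (Nat.lt_succ_self n).trans_le (hts.le_apply)⟩
    refine ⟨Nat.find hex, ?_, Nat.find_spec hex⟩
    rcases hj : Nat.find hex with _ | j
    · exact Nat.zero_le _
    · exact not_lt.1 (Nat.find_min hex (by omega))
  choose f hf1 hf2 using hblock
  let W : ℕ → Set Y := fun j => ⋃ d ∈ {d ∈ D | f d.1 = j}, v d.1 d.2
  have hWo : ∀ j, IsOpen (W j) := fun j =>
    isOpen_biUnion fun d _ => isOpen_biUnion fun i _ => ho i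
  have hW3 : ∀ x, {j | x ∈ W j}.Infinite := by
    intro x hfin
    refine hD2 x ((hfin.biUnion (t := fun j => ⋃ n ∈ Iio (t (j + 1)), {d ∈ D | d.1 = n})
      fun j _ => (finite_Iio _).biUnion fun n _ => hD1 n).subset ?_)
    rintro d ⟨hd, hx⟩
    exact mem_biUnion (x := f d.1) (mem_biUnion (x := d) ⟨hd, rfl⟩ hx)
      (mem_biUnion (x := d.1) (hf2 _) ⟨hd, rfl⟩)
  have hkey : ∀ x y, {d ∈ D | x ∈ v d.1 d.2 ∧ y ∉ v d.1 d.2}.Finite →
      {j | x ∈ W j ∧ y ∉ W j}.Finite := by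
    intro x y hfin
    refine (hfin.image fun d => f d.1).subset ?_
    rintro j ⟨hx, hy⟩
    obtain ⟨d, ⟨hd, hj⟩, hx⟩ := mem_iUnion₂.1 hx
    exact ⟨d, ⟨hd, hx, fun hc => hy (mem_biUnion (x := d) ⟨hd, hj⟩ hc)⟩, hj⟩
  have hW4 : ∀ x y, {j | x ∈ W j ∧ y ∉ W j}.Finite ∨ {j | y ∈ W j ∧ x ∉ W j}.Finite :=
    fun x y => (hD3 x y).imp (hkey x y) (hkey y x)
  have hWsub : ∀ j x, x ∈ W j → ∃ i, t j ≤ i ∧ i < t (j + 2) ∧ x ∈ u i := by
    intro j x hx
    obtain ⟨d, ⟨hd, hj⟩, hx1⟩ := mem_iUnion₂.1 hx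
    obtain ⟨i, hi, hx2⟩ := mem_iUnion₂.1 (show x ∈ ⋃ i ∈ Ico d.1 d.2, u i from hx1)
    subst hj
    refine ⟨i, (hf1 _).trans hi.1, hi.2.trans_le ?_, hx2⟩
    rw [ht (f d.1 + 1)]
    exact hg2 _ d hd (hf2 _)
  have hpar : ∃ e, e < 2 ∧ ∀ x, {k | x ∈ W (2 * k + e)}.Infinite := by
    by_contra hcon
    push Not at hcon
    obtain ⟨x, hx⟩ := hcon 0 (by norm_num)
    obtain ⟨y, hy⟩ := hcon 1 (by norm_num)
    have hxy : {j | x ∈ W j ∧ y ∈ W j}.Finite := by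
      refine ((hx.image fun k => 2 * k + 0).union (hy.image fun k => 2 * k + 1)).subset ?_
      rintro j ⟨h1, h2⟩
      rcases Nat.even_or_odd' j with ⟨k, rfl | rfl⟩
      · exact Or.inl ⟨k, h1, rfl⟩
      · exact Or.inr ⟨k, h2, rfl⟩
    rcases hW4 x y with h' | h'
    · refine hW3 x ((hxy.union h').subset fun j hj => ?_)
      by_cases hc : y ∈ W j
      · exact Or.inl ⟨hj, hc⟩
      · exact Or.inr ⟨hj, hc⟩
    · refine hW3 y ((hxy.union h').subset fun j hj => ?_)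
      by_cases hc : x ∈ W j
      · exact Or.inl ⟨hc, hj⟩
      · exact Or.inr ⟨hj, hc⟩
  obtain ⟨e, -, he⟩ := hpar
  have hinj : Function.Injective fun k => 2 * k + e := fun a b hab => by
    simp only at hab; omega
  obtain ⟨S, hS⟩ := split_index h (w := fun k => W (2 * k + e)) (fun k => hWo _) he
    (fun x y => (hW4 x y).imp (fun h' => h'.preimage hinj.injOn) fun h' => h'.preimage hinj.injOn)
  have hdisj : ∀ k k' i, t (2 * k + e) ≤ i → i < t (2 * k + e + 2) → t (2 * k' + e) ≤ i →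
      i < t (2 * k' + e + 2) → k = k' := by
    intro k k' i h1 h2 h3 h4
    have a := hts.lt_iff_lt.1 (h1.trans_lt h4)
    have b := hts.lt_iff_lt.1 (h3.trans_lt h2)
    omega
  have hinf : ∀ (x : Y) (K : Set ℕ), {k | x ∈ W (2 * k + e) ∧ k ∈ K}.Infinite →
      {i | x ∈ u i ∧ ∃ k ∈ K, t (2 * k + e) ≤ i ∧ i < t (2 * k + e + 2)}.Infinite := by
    intro x K hK
    refine infinite_of_forall_exists_gt fun a => ?_
    obtain ⟨k, ⟨hx, hk⟩, hak⟩ := hK.exists_gt a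
    obtain ⟨i, h1, h2, h3⟩ := hWsub _ x hx
    refine ⟨i, ⟨h3, k, hk, h1, h2⟩, lt_of_lt_of_le ?_ h1⟩
    exact lt_of_lt_of_le (by omega) hts.le_apply
  refine ⟨{i | ∃ k ∈ S, t (2 * k + e) ≤ i ∧ i < t (2 * k + e + 2)},
    fun x => ⟨hinf x S (hS x).1, (hinf x Sᶜ (hS x).2).mono ?_⟩⟩
  rintro i ⟨hx, k, hk, h1, h2⟩
  refine ⟨hx, ?_⟩
  rintro ⟨k', hk', h3, h4⟩
  exact hk (hdisj k k' i h1 h2 h3 h4 ▸ hk')

theorem split_lambda [TopologicalSpace Y] [T1Space Y] [SecondCountableTopology Y]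
    (h : Split (Omega Y) (Tau Y)) : Split (Lambda Y) (Lambda Y) := by
  rintro C ⟨ho, hcov, h3⟩
  rcases isEmpty_or_nonempty Y with hY | hY
  · have hC : C = ∅ := eq_empty_of_forall_notMem fun U hU =>
      hcov.2 (by rwa [Subsingleton.elim (univ : Set Y) U])
    subst hC
    exact ⟨∅, ∅, by simp, by simp, ⟨∅, ⟨ho, hcov, h3⟩, Subset.rfl⟩, ∅, ⟨ho, hcov, h3⟩, Subset.rfl⟩
  obtain ⟨D, hDC, hDc, hD⟩ := countable_large ho h3
  have hDi : D.Infinite := (hD (Classical.arbitrary Y)).mono fun U hU => hU.1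
  obtain ⟨u, hu, hur⟩ : ∃ u : ℕ → Set Y, Function.Injective u ∧ range u = D := by
    have := hDc.to_subtype
    have := hDi.to_subtype
    obtain ⟨dn⟩ := nonempty_denumerable D
    refine ⟨fun n => (Denumerable.ofNat D n : Set Y), fun a b hab => ?_, ?_⟩
    · exact (Denumerable.eqv D).symm.injective (Subtype.ext hab)
    · ext U
      constructor
      · rintro ⟨n, rfl⟩; exact (Denumerable.ofNat D n).2
      · intro hU; exact ⟨Encodable.encode (⟨U, hU⟩ : D), by simp⟩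
  have huC : ∀ j, u j ∈ C := fun j => hDC (hur ▸ mem_range_self j)
  obtain ⟨S, hS⟩ := split_large h (u := u) (fun j => ho _ (huC j)) fun x hf =>
    hD x ((hf.image u).subset (by
      rintro U ⟨hU, hx⟩
      rw [← hur] at hU
      obtain ⟨j, rfl⟩ := hU
      exact ⟨j, hx, rfl⟩))
  have hL : ∀ K : Set ℕ, (∀ x, {j | x ∈ u j ∧ j ∈ K}.Infinite) → u '' K ∈ Lambda Y := by
    intro K hK
    have hl : ∀ x, {U ∈ u '' K | x ∈ U}.Infinite := fun x =>
      ((hK x).image hu.injOn).mono (by rintro _ ⟨j, hj, rfl⟩; exact ⟨⟨j, hj.2, rfl⟩, hj.1⟩)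
    refine ⟨?_, ⟨eq_univ_of_forall fun x => ?_, ?_⟩, hl⟩
    · rintro _ ⟨j, _, rfl⟩; exact ho _ (huC j)
    · obtain ⟨U, hU, hx⟩ := (hl x).nonempty
      exact ⟨U, hU, hx⟩
    · rintro ⟨j, _, hj⟩; exact hcov.2 (hj ▸ huC j)
  refine ⟨u '' S, C \ u '' S, union_sdiff_cancel ?_, disjoint_sdiff_right,
    ⟨_, hL S fun x => (hS x).1, Subset.rfl⟩, _, hL Sᶜ fun x => (hS x).2, ?_⟩
  · rintro _ ⟨j, _, rfl⟩; exact huC j
  · rintro _ ⟨j, hj, rfl⟩
    exact ⟨huC j, fun ⟨k, hk, hkj⟩ => hj (hu hkj ▸ hk)⟩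

end Pool.Agent.H85.Split
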