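import Pool.Agent.H85.Stek3Defs

set_option autoImplicit false

namespace Pool.Agent.H85.Stek3

open Set MeasureTheory Filter Real Pool.Agent.H85.Stek3Defs
open scoped ContDiff

noncomputable def J (F : ℝ → ℝ) : ℝ := ∫ t in Icc (0 : ℝ) 1, F t

@[fun_prop]
theorem J_cont {X : Type} [TopologicalSpace X] [FirstCountableTopology X] [LocallyCompactSpace X]
    (F : X → ℝ → ℝ) (h : Continuous fun p : X × ℝ => F p.1 p.2) : Continuous fun x => J (F x) :=
  continuous_parametric_integral_of_continuous h isCompact_Icc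

theorem J_mono {F G : ℝ → ℝ} (hF : Continuous F) (hG : Continuous G)
    (h : ∀ t ∈ Icc (0 : ℝ) 1, F t ≤ G t) : J F ≤ J G :=
  setIntegral_mono_on hF.integrableOn_Icc hG.integrableOn_Icc measurableSet_Icc h

theorem J_add {F G : ℝ → ℝ} (hF : Continuous F) (hG : Continuous G) :
    J (fun t => F t + G t) = J F + J G := integral_add hF.integrableOn_Icc hG.integrableOn_Icc

theorem J_cmul (c : ℝ) (F : ℝ → ℝ) : J (fun t => c * F t) = c * J F := integral_const_mul _ _

theorem J_mulc (c : ℝ) (F : ℝ → ℝ) : J (fun t => F t * c) = J F * c := integral_mul_const _ _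

theorem J_const (c : ℝ) : J (fun _ => c) = c := by simp [J]

theorem J_nonneg {F : ℝ → ℝ} (h : ∀ t, 0 ≤ F t) : 0 ≤ J F := integral_nonneg h

theorem J_swap {F : ℝ → ℝ → ℝ} (h : Continuous fun p : ℝ × ℝ => F p.1 p.2) :
    J (fun s => J fun t => F s t) = J fun t => J fun s => F s t := by
  refine integral_integral_swap ?_
  rw [Measure.prod_restrict]
  exact h.continuousOn.integrableOn_compact (isCompact_Icc.prod isCompact_Icc)

theorem J_eq (F : ℝ → ℝ) : J F = ∫ t in (0 : ℝ)..1, F t := by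
  rw [intervalIntegral.integral_of_le zero_le_one, J, integral_Icc_eq_integral_Ioc]

theorem one_dim {f f' : ℝ → ℝ} (h : ∀ t, HasDerivAt f (f' t) t) (hc : Continuous f') {s t : ℝ}
    (hs : s ∈ Icc (0 : ℝ) 1) (ht : t ∈ Icc (0 : ℝ) 1) : (f s - f t) ^ 2 ≤ J fun t => f' t ^ 2 := by
  wlog hts : t ≤ s generalizing s t
  · have := this ht hs (le_of_not_ge hts)
    linarith [show (f s - f t) ^ 2 = (f t - f s) ^ 2 by ring]
  have h1 := intervalIntegral.integral_eq_sub_of_hasDerivAt (a := t) (b := s) (fun x _ => h x)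
    (hc.intervalIntegrable _ _)
  set d := f s - f t
  have h2 : 0 ≤ ∫ x in t..s, (f' x ^ 2 + (-2 * d * f' x + d ^ 2)) :=
    intervalIntegral.integral_nonneg hts fun x _ => by nlinarith [sq_nonneg (f' x - d)]
  rw [intervalIntegral.integral_add (Continuous.intervalIntegrable (by fun_prop) _ _)
    (Continuous.intervalIntegrable (by fun_prop) _ _), intervalIntegral.integral_add
    (Continuous.intervalIntegrable (by fun_prop) _ _) (by simp),
    intervalIntegral.integral_const_mul, h1, intervalIntegral.integral_const, smul_eq_mul] at h2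
  have h3 : ∫ x in t..s, f' x ^ 2 ≤ J fun t => f' t ^ 2 := by
    rw [J_eq]
    exact intervalIntegral.integral_mono_interval ht.1 hts hs.2
      (Eventually.of_forall fun x => sq_nonneg _) (Continuous.intervalIntegrable (by fun_prop) _ _)
  nlinarith [sq_nonneg d, hs.2, ht.1, mul_nonneg (sq_nonneg d) (show 0 ≤ 1 - (s - t) by
    linarith [hs.2, ht.1])]

theorem key {u ur ux uy : ℝ → ℝ → ℝ → ℝ}
    (c0 : Continuous fun p : ℝ × ℝ × ℝ => u p.1 p.2.1 p.2.2)
    (c1 : Continuous fun p : ℝ × ℝ × ℝ => ur p.1 p.2.1 p.2.2)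
    (c2 : Continuous fun p : ℝ × ℝ × ℝ => ux p.1 p.2.1 p.2.2)
    (c3 : Continuous fun p : ℝ × ℝ × ℝ => uy p.1 p.2.1 p.2.2)
    (d1 : ∀ r x y, HasDerivAt (fun t => u t x y) (ur r x y) r)
    (d2 : ∀ r x y, HasDerivAt (fun t => u r t y) (ux r x y) x)
    (d3 : ∀ r x y, HasDerivAt (fun t => u r x t) (uy r x y) y)
    (hm : (J fun x => J fun y => u 0 x y) + (J fun x => J fun y => u 1 x y) = 0)
    {r s : ℝ} (hr : r ∈ Icc (0 : ℝ) 1) (hs : s ∈ Icc (0 : ℝ) 1) :
    (J fun x => J fun y => u 0 x y ^ 2) + (J fun x => J fun y => u 1 x y ^ 2) ≤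
      15 * (J fun t => J fun x => J fun y => ur t x y ^ 2) +
      5 * (J fun x => J fun y => ux r x y ^ 2) + 5 * J fun x => J fun y => uy s x y ^ 2 := by
  have h0 : (0 : ℝ) ∈ Icc (0 : ℝ) 1 := by simp
  have h1 : (1 : ℝ) ∈ Icc (0 : ℝ) 1 := by simp
  have H : (J fun x' => J fun y' => J fun x => J fun y =>
      u 0 x y ^ 2 + (u 0 x y * (-2 * u 1 x' y') + u 1 x' y' ^ 2)) ≤
      J fun x' => J fun y' => J fun x => J fun y => 5 * (J fun t => ur t x y ^ 2) +
        (5 * (J fun t => ux r t y ^ 2) + (5 * (J fun t => ur t x' y ^ 2) +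
        (5 * (J fun t => uy s x' t ^ 2) + 5 * J fun t => ur t x' y' ^ 2))) := by
    refine J_mono (by fun_prop) (by fun_prop) fun x' hx' => J_mono (by fun_prop) (by fun_prop)
      fun y' hy' => J_mono (by fun_prop) (by fun_prop) fun x hx => J_mono (by fun_prop)
      (by fun_prop) fun y hy => ?_
    have a1 := one_dim (fun t => d1 t x y) (by fun_prop) h0 hr
    have a2 := one_dim (fun t => d2 r t y) (by fun_prop) hx hx'
    have a3 := one_dim (fun t => d1 t x' y) (by fun_prop) hr hs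
    have a4 := one_dim (fun t => d3 s x' t) (by fun_prop) hy hy'
    have a5 := one_dim (fun t => d1 t x' y') (by fun_prop) hs h1
    have := sq_sum_le_card_mul_sum_sq (s := Finset.univ) (f := ![u 0 x y - u r x y,
      u r x y - u r x' y, u r x' y - u s x' y, u s x' y - u s x' y', u s x' y' - u 1 x' y'])
    simp only [Fin.sum_univ_five, Finset.card_univ, Fintype.card_fin, Matrix.cons_val] at this
    push_cast at this
    nlinarith
  simp (disch := fun_prop) only [J_add, J_cmul, J_mulc, J_const] at H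
  have e1 : (J fun t => J fun x => J fun y => ur t x y ^ 2) =
      J fun x => J fun y => J fun t => ur t x y ^ 2 := by
    rw [J_swap (by fun_prop)]
    exact congrArg J (funext fun x => J_swap (by fun_prop))
  rw [e1, J_swap (F := fun x y => ux r x y ^ 2) (by fun_prop)]
  rw [eq_neg_of_add_eq_zero_right hm] at H
  nlinarith [sq_nonneg (J fun x => J fun y => u 0 x y)]

theorem key2 {ur ux uy : ℝ → ℝ → ℝ → ℝ} {A K1 K2 : ℝ → ℝ} {B e : ℝ}
    (c1 : Continuous fun p : ℝ × ℝ × ℝ => ur p.1 p.2.1 p.2.2)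
    (c2 : Continuous fun p : ℝ × ℝ × ℝ => ux p.1 p.2.1 p.2.2)
    (c3 : Continuous fun p : ℝ × ℝ × ℝ => uy p.1 p.2.1 p.2.2)
    (cA : Continuous A) (cK1 : Continuous K1) (cK2 : Continuous K2) (h0 : 0 < e)
    (hA : ∀ r, 1 ≤ A r) (p1 : ∀ r, 0 < K1 r) (p2 : ∀ r, 0 < K2 r) (i1 : 1 / e ^ 2 ≤ J K1)
    (i2 : 1 / e ^ 2 ≤ J K2) (H : ∀ r s, r ∈ Icc (0 : ℝ) 1 → s ∈ Icc (0 : ℝ) 1 → B ≤
      15 * (J fun t => J fun x => J fun y => ur t x y ^ 2) +
      5 * (J fun x => J fun y => ux r x y ^ 2) + 5 * J fun x => J fun y => uy s x y ^ 2) :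
    B ≤ 15 * e * J fun r => J fun x => J fun y => A r / e * ur r x y ^ 2 +
      (e * (K1 r * ux r x y ^ 2) + e * (K2 r * uy r x y ^ 2)) := by
  simp (disch := fun_prop) only [J_add, J_cmul]
  have n0 : ∀ (v : ℝ → ℝ → ℝ → ℝ) r, 0 ≤ J fun x => J fun y => v r x y ^ 2 :=
    fun v r => J_nonneg fun _ => J_nonneg fun _ => sq_nonneg _
  have step : ∀ {K b : ℝ → ℝ} {c : ℝ}, Continuous K → Continuous b → (∀ r, 0 < K r) →
      (∀ r, 0 ≤ b r) → 1 / e ^ 2 ≤ J K → (∀ r ∈ Icc (0 : ℝ) 1, c ≤ 5 * b r) →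
      c ≤ 5 * (e ^ 2 * J fun r => K r * b r) := by
    intro K b c cK cb p hb i h
    have a1 := J_mono (F := fun r => c * K r) (G := fun r => 5 * (K r * b r)) (by fun_prop)
      (by fun_prop) fun r hr => by nlinarith [mul_le_mul_of_nonneg_left (h r hr) (p r).le]
    rw [J_cmul, J_cmul] at a1
    have a2 : 0 ≤ J fun r => K r * b r := J_nonneg fun r => mul_nonneg (p r).le (hb r)
    rw [div_le_iff₀ (by positivity)] at i
    rcases le_total c 0 with hc | hc
    · exact hc.trans (by positivity)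
    · nlinarith [mul_le_mul_of_nonneg_left i hc, mul_le_mul_of_nonneg_left a1 (sq_nonneg e)]
  have s1 := step (c := B - 15 * (J fun t => J fun x => J fun y => ur t x y ^ 2) -
    5 * (e ^ 2 * J fun r => K1 r * J fun x => J fun y => ux r x y ^ 2)) cK2 (by fun_prop) p2
    (n0 uy) i2 fun s hs => by
      have := step (c := B - 15 * (J fun t => J fun x => J fun y => ur t x y ^ 2) -
        5 * J fun x => J fun y => uy s x y ^ 2) cK1 (by fun_prop) p1 (n0 ux) i1
        fun r hr => by linarith [H r s hr hs]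
      linarith
  have s2 := J_mono (F := fun r => 1 / e * J fun x => J fun y => ur r x y ^ 2)
    (G := fun r => A r / e * J fun x => J fun y => ur r x y ^ 2) (by fun_prop) (by fun_prop)
    fun r _ => mul_le_mul_of_nonneg_right (by gcongr; exact hA r) (n0 ur r)
  rw [J_cmul, one_div, inv_mul_le_iff₀ h0] at s2
  have s3 : 0 ≤ e ^ 2 * J fun r => K1 r * J fun x => J fun y => ux r x y ^ 2 :=
    mul_nonneg (sq_nonneg _) (J_nonneg fun r => mul_nonneg (p1 r).le (n0 ux r))
  have s4 : 0 ≤ e ^ 2 * J fun r => K2 r * J fun x => J fun y => uy r x y ^ 2 :=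
    mul_nonneg (sq_nonneg _) (J_nonneg fun r => mul_nonneg (p2 r).le (n0 uy r))
  nlinarith

noncomputable def A (e r : ℝ) : ℝ := 1 + (1 / e - 1) * (1 - cos (2 * π * r))

noncomputable def K (L r : ℝ) : ℝ := exp (L * sin (2 * π * r))

noncomputable def met (e L : ℝ) (p : Pt) : Matrix (Fin 3) (Fin 3) ℝ :=
  Matrix.diagonal ![e ^ 2, A e (p 0) / K L (p 0), A e (p 0) * K L (p 0)]

theorem one_le_A {e : ℝ} (h0 : 0 < e) (h1 : e ≤ 1) (r : ℝ) : 1 ≤ A e r :=
  le_add_of_nonneg_right (mul_nonneg (by rw [sub_nonneg, le_div_iff₀ h0]; linarith)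
    (sub_nonneg.2 (cos_le_one _)))

theorem K_pos (L r : ℝ) : 0 < K L r := exp_pos _

theorem sqrt_det {e : ℝ} (h0 : 0 < e) (h1 : e ≤ 1) (L : ℝ) (p : Pt) :
    √(met e L p).det = e * A e (p 0) := by
  have := K_pos L (p 0)
  have := one_le_A h0 h1 (p 0)
  rw [sqrt_eq_iff_mul_self_eq_of_pos (by positivity)]
  simp only [met, Matrix.det_diagonal, Fin.prod_univ_three, Matrix.cons_val]
  field_simp

theorem induced_met (e L : ℝ) (p : Pt) (h : p 0 = 0 ∨ p 0 = 1) : induced (met e L) p = 1 := by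
  have : A e (p 0) = 1 ∧ K L (p 0) = 1 := by rcases h with h | h <;> simp [A, K, h]
  ext i j
  fin_cases i <;> fin_cases j <;> simp [induced, met, this]

theorem gradSq_met {e : ℝ} (h0 : 0 < e) (h1 : e ≤ 1) (L : ℝ) (u : Pt → ℝ) (p : Pt) :
    gradSq (met e L) u p * √(met e L p).det = A e (p 0) / e * fderiv ℝ u p (Pi.single 0 1) ^ 2 +
      (e * (K L (p 0) * fderiv ℝ u p (Pi.single 1 1) ^ 2) +
      e * (K (-L) (p 0) * fderiv ℝ u p (Pi.single 2 1) ^ 2)) := by
  have := K_pos L (p 0)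
  have := one_le_A h0 h1 (p 0)
  have hK : K (-L) (p 0) = (K L (p 0))⁻¹ := by simp [K, exp_neg]
  have hi : (met e L p)⁻¹ = Matrix.diagonal ![1 / e ^ 2, K L (p 0) / A e (p 0),
      1 / (A e (p 0) * K L (p 0))] := by
    refine Matrix.inv_eq_left_inv ?_
    rw [met, Matrix.diagonal_mul_diagonal, ← Matrix.diagonal_one]
    congr 1
    ext i
    fin_cases i <;> simp <;> field_simp
  rw [sqrt_det h0 h1, gradSq, hi, hK]
  simp [Fin.sum_univ_three]
  field_simp
  ring

theorem J_K (L : ℝ) : |L| / π ≤ J (K L) := by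
  have hc : Continuous (K L) := by unfold K; fun_prop
  have hi : ∀ a b : ℝ, ∫ t in a..b, L * sin (2 * π * t) =
      L * ((cos (2 * π * a) - cos (2 * π * b)) / (2 * π)) := by
    intro a b
    rw [intervalIntegral.integral_const_mul, intervalIntegral.integral_comp_mul_left
      (fun t => sin t) (by positivity), integral_sin, smul_eq_mul]
    ring
  have h : ∀ a b : ℝ, 0 ≤ a → a ≤ b → b ≤ 1 → ∫ t in a..b, L * sin (2 * π * t) ≤ J (K L) := by
    intro a b h0 h1 h2
    rw [J_eq]
    refine le_trans (intervalIntegral.integral_mono_on h1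
      (Continuous.intervalIntegrable (by fun_prop) _ _) (hc.intervalIntegrable _ _) fun t _ => ?_)
      (intervalIntegral.integral_mono_interval h0 h1 h2
        (Eventually.of_forall fun x => (K_pos L x).le) (hc.intervalIntegrable _ _))
    linarith [add_one_le_exp (L * sin (2 * π * t)), show K L t = exp (L * sin (2 * π * t)) from rfl]
  have a1 := h 0 (1 / 2) le_rfl (by norm_num) (by norm_num)
  have a2 := h (1 / 2) 1 (by norm_num) (by norm_num) le_rfl
  rw [hi, show 2 * π * (1 / 2) = π by ring] at a1 a2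
  simp only [mul_zero, cos_zero, cos_pi, mul_one, cos_two_pi] at a1 a2
  have := pi_pos
  rcases abs_cases L with h | h <;> rw [h.1]
  · exact le_trans (le_of_eq (by field_simp; ring)) a1
  · exact le_trans (le_of_eq (by field_simp; ring)) a2

theorem bound {e L : ℝ} (h0 : 0 < e) (h1 : e ≤ 1) (hL : 1 / e ^ 2 ≤ |L| / π) {u : Pt → ℝ}
    (hu : ContDiff ℝ 1 u) (hm : intB (met e L) u = 0) :
    intB (met e L) (fun p => u p ^ 2) ≤ 15 * e * intM (met e L) (gradSq (met e L) u) := by
  have hB : ∀ F : Pt → ℝ, intB (met e L) F =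
      (J fun x => J fun y => F ![0, x, y]) + J fun x => J fun y => F ![1, x, y] := by
    intro F
    simp [intB, J, induced_met]
  have hv : Continuous fun p : ℝ × ℝ × ℝ => (![p.1, p.2.1, p.2.2] : Pt) := by fun_prop
  have hd : ∀ i, Continuous fun p : ℝ × ℝ × ℝ =>
      fderiv ℝ u ![p.1, p.2.1, p.2.2] (Pi.single i 1) := fun i =>
    ((hu.continuous_fderiv one_ne_zero).comp hv).clm_apply continuous_const
  have hD : ∀ (c : ℝ → Pt) (t : ℝ) (i : Fin 3), (∀ j, HasDerivAt (fun s => c s j)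
      ((Pi.single i 1 : Pt) j) t) → HasDerivAt (fun s => u (c s))
      (fderiv ℝ u (c t) (Pi.single i 1)) t := fun c t i h =>
    (hu.differentiable one_ne_zero (c t)).hasFDerivAt.comp_hasDerivAt t (hasDerivAt_pi.2 h)
  have c1 := hd 0
  have c2 := hd 1
  have c3 := hd 2
  have H := fun r s => key (u := fun r x y => u ![r, x, y]) (r := r) (s := s)
    (hu.continuous.comp hv) c1 c2 c3
    (fun r x y => hD (fun t => ![t, x, y]) r 0 fun j => by
      fin_cases j <;> simp [hasDerivAt_id', hasDerivAt_const])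
    (fun r x y => hD (fun t => ![r, t, y]) x 1 fun j => by
      fin_cases j <;> simp [hasDerivAt_id', hasDerivAt_const])
    (fun r x y => hD (fun t => ![r, x, t]) y 2 fun j => by
      fin_cases j <;> simp [hasDerivAt_id', hasDerivAt_const]) (hB u ▸ hm)
  rw [hB]
  have hE : intM (met e L) (gradSq (met e L) u) = J fun r => J fun x => J fun y =>
      gradSq (met e L) u ![r, x, y] * √(met e L ![r, x, y]).det := rfl
  rw [hE]
  simp only [gradSq_met h0 h1, Matrix.cons_val_zero]
  exact key2 c1 c2 c3 (by unfold A; fun_prop) (by unfold K; fun_prop) (by unfold K; fun_prop) h0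
    (one_le_A h0 h1) (K_pos L) (K_pos _) (hL.trans (J_K L)) (hL.trans (abs_neg L ▸ J_K (-L))) H

theorem main : ∃ g : ℕ → Pt → Matrix (Fin 3) (Fin 3) ℝ, (∀ n, IsMetric (g n)) ∧
    (∀ n, intM (g n) (fun _ => 1) = 1) ∧ (∀ n p, p 0 = 0 ∨ p 0 = 1 → induced (g n) p = 1) ∧
    Tendsto (fun n => sigma1 (g n)) atTop atTop := by
  have h0 : ∀ n : ℕ, (0 : ℝ) < 1 / (n + 1) := fun n => by positivity
  have h1 : ∀ n : ℕ, (1 : ℝ) / (n + 1) ≤ 1 := fun n => by
    rw [div_le_one (by positivity)]; linarith [n.cast_nonneg (α := ℝ)]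
  refine ⟨fun n => met (1 / (n + 1)) (π * (n + 1) ^ 2), fun n => ⟨fun i j => ?_, fun p => ?_,
    fun p i hi => ?_⟩, fun n => ?_, fun n => induced_met _ _, ?_⟩
  · have : ContDiff ℝ ∞ fun p : Pt => A (1 / (n + 1)) (p 0) / K (π * (n + 1) ^ 2) (p 0) :=
      ContDiff.div (by unfold A; fun_prop) (by unfold K; fun_prop) fun p => (K_pos _ _).ne'
    have : ContDiff ℝ ∞ fun p : Pt => A (1 / (n + 1)) (p 0) * K (π * (n + 1) ^ 2) (p 0) := by
      unfold A K; fun_prop
    fin_cases i <;> fin_cases j <;> first | assumption | exact contDiff_const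
  · have := K_pos (π * (n + 1) ^ 2) (p 0)
    have := one_le_A (h0 n) (h1 n) (p 0)
    refine Matrix.PosDef.diagonal (Fin.forall_fin_succ.2 ⟨?_, Fin.forall_fin_two.2 ⟨?_, ?_⟩⟩) <;>
      simp only [Matrix.cons_val_zero, Matrix.cons_val_succ, Matrix.cons_val_one] <;> positivity
  · simp [met, hi.symm]
  · change J (fun r => J fun x => J fun y => _) = _
    simp only [sqrt_det (h0 n) (h1 n), Matrix.cons_val_zero, J_const, one_mul, J_cmul]
    have : J (fun r => cos (2 * π * r)) = 0 := by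
      rw [J_eq, intervalIntegral.integral_comp_mul_left (fun t => cos t) (by positivity)]
      simp
    have e : A (1 / (n + 1)) = fun r => (n + 1 : ℝ) + -n * cos (2 * π * r) := by
      ext r; simp only [A, one_div, inv_inv]; ring
    rw [e, J_add (by fun_prop) (by fun_prop), J_cmul, this, J_const]
    field_simp
    simp
  · refine tendsto_atTop_mono (f := fun n : ℕ => (n : ℝ) / 15) (fun n => le_csInf ?_ ?_)
      (tendsto_natCast_atTop_atTop.atTop_div_const (by norm_num))
    · refine ⟨_, fun p => p 0 - 1 / 2, by fun_prop, fun p i hi => by simp [hi.symm], ?_, ?_, rfl⟩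
      · simp [intB, induced_met]; norm_num
      · simp [intB, induced_met]; norm_num
    · rintro _ ⟨u, hu, -, hm, hB, rfl⟩
      have := bound (h0 n) (h1 n) (L := π * (n + 1) ^ 2) (by
        rw [abs_of_nonneg (by positivity)]; apply le_of_eq; field_simp) hu hm
      have hB0 : 0 < intB (met (1 / (n + 1)) (π * (n + 1) ^ 2)) fun p => u p ^ 2 :=
        lt_of_le_of_ne (add_nonneg (J_nonneg fun _ => J_nonneg fun _ => by positivity)
          (J_nonneg fun _ => J_nonneg fun _ => by positivity)) hB.symm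
      rw [le_div_iff₀ hB0]
      have h2 := mul_le_mul_of_nonneg_left this (show (0 : ℝ) ≤ (n + 1) / 15 by positivity)
      rw [← mul_assoc, show ((n : ℝ) + 1) / 15 * (15 * (1 / (n + 1))) = 1 by field_simp] at h2
      nlinarith

end Pool.Agent.H85.Stek3
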