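import Mathlib

set_option autoImplicit false

namespace Pool.Agent.H85.Stek3Defs

open Set MeasureTheory
open scoped ContDiff

/-- Coordinates `(r, x, y)` on the universal cover of `ℝ × T²`, where `T² = ℝ² / ℤ²`. The manifold
is `M = [0, 1] × T²`, with boundary `{0, 1} × T²`. -/
abbrev Pt : Type := Fin 3 → ℝ

/-- Functions which descend to `ℝ × T²`. -/
def Per {β : Type} (F : Pt → β) : Prop := ∀ p (i : Fin 3), i ≠ 0 → F (p + Pi.single i 1) = F p

/-- A smooth Riemannian metric, given by its matrix in the coordinates `(r, x, y)`. -/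
def IsMetric (g : Pt → Matrix (Fin 3) (Fin 3) ℝ) : Prop :=
  (∀ i j, ContDiff ℝ ∞ fun p => g p i j) ∧ (∀ p, (g p).PosDef) ∧ Per g

/-- The integral over `M` with respect to the Riemannian volume of `g`. -/
noncomputable def intM (g : Pt → Matrix (Fin 3) (Fin 3) ℝ) (F : Pt → ℝ) : ℝ :=
  ∫ r in Icc (0 : ℝ) 1, ∫ x in Icc (0 : ℝ) 1, ∫ y in Icc (0 : ℝ) 1,
    F ![r, x, y] * √(g ![r, x, y]).det

/-- The metric induced by `g` on the tori `r = const`. -/
def induced (g : Pt → Matrix (Fin 3) (Fin 3) ℝ) (p : Pt) : Matrix (Fin 2) (Fin 2) ℝ :=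
  (g p).submatrix Fin.succ Fin.succ

/-- The integral over the boundary of `M` with respect to the induced area. -/
noncomputable def intB (g : Pt → Matrix (Fin 3) (Fin 3) ℝ) (F : Pt → ℝ) : ℝ :=
  (∫ x in Icc (0 : ℝ) 1, ∫ y in Icc (0 : ℝ) 1, F ![0, x, y] * √(induced g ![0, x, y]).det) +
  ∫ x in Icc (0 : ℝ) 1, ∫ y in Icc (0 : ℝ) 1, F ![1, x, y] * √(induced g ![1, x, y]).det

/-- The squared length of the gradient. -/
noncomputable def gradSq (g : Pt → Matrix (Fin 3) (Fin 3) ℝ) (u : Pt → ℝ) (p : Pt) : ℝ :=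
  ∑ i, ∑ j, (g p)⁻¹ i j * fderiv ℝ u p (Pi.single i 1) * fderiv ℝ u p (Pi.single j 1)

/-- The first nonzero Steklov eigenvalue, by its variational formula. -/
noncomputable def sigma1 (g : Pt → Matrix (Fin 3) (Fin 3) ℝ) : ℝ :=
  sInf {s | ∃ u : Pt → ℝ, ContDiff ℝ 1 u ∧ Per u ∧ intB g u = 0 ∧
    intB g (fun p => u p ^ 2) ≠ 0 ∧ s = intM g (gradSq g u) / intB g fun p => u p ^ 2}

end Pool.Agent.H85.Stek3Defs
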