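import Mathlib

set_option autoImplicit false

namespace Pool.Agent.H85.Stek4Defs

open Real
open scoped ContDiff

/-- Coordinates `(r, θ, x, y)` on the universal cover of `ℝ × T³`, where `T³ = ℝ³ / (2 π ℤ)³`.
The manifold is `M = [0, π] × T³`, with boundary `{0, π} × T³`. -/
abbrev Pt : Type := Fin 4 → ℝ

/-- The universal cover of `M`. -/
def Strip : Set Pt := {p | 0 ≤ p 0 ∧ p 0 ≤ π}

/-- Functions which descend to `ℝ × T³`. -/
def Per {β : Type} (F : Pt → β) : Prop :=
  ∀ p (i : Fin 4), i ≠ 0 → F (p + Pi.single i (2 * π)) = F p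

/-- A smooth Riemannian metric, given by its matrix in the coordinates `(r, θ, x, y)`. -/
def IsMetric (g : Pt → Matrix (Fin 4) (Fin 4) ℝ) : Prop :=
  (∀ i j, ContDiff ℝ ∞ fun p => g p i j) ∧ (∀ p, (g p).PosDef) ∧ Per g

/-- The partial derivative in the `i`-th coordinate. -/
noncomputable def pd (i : Fin 4) (u : Pt → ℂ) (p : Pt) : ℂ := fderiv ℝ u p (Pi.single i 1)

/-- The `i`-th component of the gradient. -/
noncomputable def grad (g : Pt → Matrix (Fin 4) (Fin 4) ℝ) (u : Pt → ℂ) (i : Fin 4) (p : Pt) : ℂ :=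
  ∑ j, ((g p)⁻¹ i j : ℝ) * pd j u p

/-- The positive Laplace-Beltrami operator `- div grad`. -/
noncomputable def lap (g : Pt → Matrix (Fin 4) (Fin 4) ℝ) (u : Pt → ℂ) (p : Pt) : ℂ :=
  -(∑ i, pd i (fun q => (√(g q).det : ℝ) * grad g u i q) p) / (√(g p).det : ℝ)

/-- The derivative along the unit normal to the tori `r = const` which points towards
increasing `r`. -/
noncomputable def nd (g : Pt → Matrix (Fin 4) (Fin 4) ℝ) (u : Pt → ℂ) (p : Pt) : ℂ :=
  grad g u 0 p / (√((g p)⁻¹ 0 0) : ℝ)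

/-- The smooth functions `u` on `M` with `Δ u = l u` in `M` and `∂_ν u = s u` on the boundary, for
the outward unit normal `ν`. -/
def Eig (g : Pt → Matrix (Fin 4) (Fin 4) ℝ) (l s : ℝ) : Set (Strip → ℂ) :=
  {u | ∃ U : Pt → ℂ, ContDiff ℝ ∞ U ∧ Per U ∧ (∀ p ∈ Strip, lap g U p = l * U p) ∧
    (∀ p, p 0 = π → nd g U p = s * U p) ∧ (∀ p, p 0 = 0 → -nd g U p = s * U p) ∧
    ∀ p : Strip, u p = U p}

/-- The multiplicity of `s` as a Steklov eigenvalue (zero if it is not an eigenvalue). -/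
noncomputable def steklovMult (g : Pt → Matrix (Fin 4) (Fin 4) ℝ) (s : ℝ) : Cardinal :=
  Module.rank ℂ (Submodule.span ℂ (Eig g 0 s))

/-- The multiplicity of `l` as a Neumann eigenvalue (zero if it is not an eigenvalue). -/
noncomputable def neumannMult (g : Pt → Matrix (Fin 4) (Fin 4) ℝ) (l : ℝ) : Cardinal :=
  Module.rank ℂ (Submodule.span ℂ (Eig g l 0))

end Pool.Agent.H85.Stek4Defs
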