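import Pool.Agent.H85.Stek4Defs

set_option autoImplicit false

namespace Pool.Agent.H85.Stek4

open Set MeasureTheory Filter Real Topology Pool.Agent.H85.Stek4Defs
open scoped ContDiff

abbrev Sm (U : Pt → ℂ) : Prop := ContDiff ℝ ∞ U

theorem Sm.diff {U : Pt → ℂ} (h : Sm U) : Differentiable ℝ U := h.differentiable (by simp)

theorem Sm.fd {U : Pt → ℂ} (h : Sm U) (y : Pt) : Sm fun p => fderiv ℝ U p y :=
  (h.fderiv_right (m := ∞) (by simp)).clm_apply contDiff_const

theorem Sm.pd {U : Pt → ℂ} (h : Sm U) (i : Fin 4) : Sm (pd i U) := h.fd _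

theorem single_deriv (p : Pt) (i : Fin 4) (t : ℝ) :
    HasDerivAt (fun s : ℝ => p + Pi.single i s) (Pi.single i 1) t := by
  refine HasDerivAt.const_add p (hasDerivAt_pi.2 fun j => ?_)
  by_cases h : j = i
  · subst h; simpa using hasDerivAt_id' t
  · simpa [h] using hasDerivAt_const t (0 : ℝ)

theorem line {U : Pt → ℂ} (h : Differentiable ℝ U) (p : Pt) (i : Fin 4) (t : ℝ) :
    HasDerivAt (fun s : ℝ => U (p + Pi.single i s)) (pd i U (p + Pi.single i t)) t :=
  (h _).hasFDerivAt.comp_hasDerivAt t (single_deriv p i t)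

theorem pd_eq {U : Pt → ℂ} (h : Differentiable ℝ U) {p : Pt} {i : Fin 4} {d : ℂ}
    (hd : HasDerivAt (fun s : ℝ => U (p + Pi.single i s)) d 0) : pd i U p = d := by
  simpa using (line h p i 0).unique hd

theorem pd_shift (U : Pt → ℂ) (v : Pt) (i : Fin 4) :
    pd i (fun p => U (p + v)) = fun p => pd i U (p + v) := by
  ext p
  simp only [pd, fderiv_comp_add_right]

theorem pd_add {U V : Pt → ℂ} (hU : Sm U) (hV : Sm V) (i : Fin 4) :
    pd i (U + V) = pd i U + pd i V := by
  ext p
  simp [pd, fderiv_add (hU.diff p) (hV.diff p)]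

theorem pd_cmul {U : Pt → ℂ} (hU : Sm U) (c : ℂ) (i : Fin 4) :
    pd i (fun p => c * U p) = fun p => c * pd i U p := by
  ext p
  simp [pd, fderiv_const_mul (hU.diff p)]

def Inv (i : Fin 4) (w : Pt → ℝ) : Prop := ∀ p t, w (p + Pi.single i t) = w p

theorem pd_mul_inv {U : Pt → ℂ} (hU : Sm U) {w : Pt → ℝ} (hw : ContDiff ℝ ∞ w) {i : Fin 4}
    (h : Inv i w) (p : Pt) : pd i (fun q => w q * U q) p = w p * pd i U p := by
  refine pd_eq (Sm.diff ((Complex.ofRealCLM.contDiff.comp hw).mul hU)) ?_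
  simpa [h p] using (line hU.diff p i 0).const_mul (w p : ℂ)

noncomputable def E (m : ℤ) (t : ℝ) : ℂ := Complex.exp (m * t * Complex.I)

theorem E_add (m : ℤ) (s t : ℝ) : E m (s + t) = E m s * E m t := by
  simp only [E, ← Complex.exp_add]; congr 1; push_cast; ring

theorem E_per (m : ℤ) : E m (2 * π) = 1 := by
  simpa [E, mul_assoc] using Complex.exp_int_mul_two_pi_mul_I m

@[fun_prop] theorem E_cont (m : ℤ) : Continuous (E m) := by unfold E; fun_prop

noncomputable def F (i : Fin 4) (m : ℤ) (U : Pt → ℂ) (p : Pt) : ℂ :=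
  ∫ t in (0 : ℝ)..2 * π, E (-m) t * U (p + Pi.single i t)

@[fun_prop] theorem cont_single {X : Type} [TopologicalSpace X] (i : Fin 4) {f : X → ℝ}
    (hf : Continuous f) : Continuous fun x => (Pi.single i (f x) : Pt) :=
  (continuous_single (A := fun _ : Fin 4 => ℝ) i).comp hf

theorem param {H G : Type} [NormedAddCommGroup H] [NormedSpace ℝ H] [ProperSpace H]
    [NormedAddCommGroup G] [NormedSpace ℝ G] {f : H → ℝ → G} {f' : H → ℝ → H →L[ℝ] G}
    (c1 : Continuous fun z : H × ℝ => f z.1 z.2) (c2 : Continuous fun z : H × ℝ => f' z.1 z.2)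
    (hd : ∀ t q, HasFDerivAt (f · t) (f' q t) q) (a b : ℝ) (p : H) :
    HasFDerivAt (fun q => ∫ t in a..b, f q t) (∫ t in a..b, f' p t) p := by
  obtain ⟨C, hC⟩ := ((isCompact_closedBall p 1).prod (isCompact_uIcc (a := a)
    (b := b))).exists_bound_of_continuousOn c2.continuousOn
  exact intervalIntegral.hasFDerivAt_integral_of_dominated_of_fderiv_le (bound := fun _ => C)
    (Metric.closedBall_mem_nhds p one_pos) (Eventually.of_forall fun q =>
      (c1.comp (Continuous.prodMk_right q)).aestronglyMeasurable)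
    ((c1.comp (Continuous.prodMk_right p)).intervalIntegrable _ _)
    (c2.comp (Continuous.prodMk_right p)).aestronglyMeasurable
    (Eventually.of_forall fun t ht q hq => hC (q, t) ⟨hq, uIoc_subset_uIcc ht⟩)
    intervalIntegrable_const (Eventually.of_forall fun t _ q _ => hd t q)

theorem F_fd {U : Pt → ℂ} (h : Sm U) (i : Fin 4) (m : ℤ) (p : Pt) : HasFDerivAt (F i m U)
    (∫ t in (0 : ℝ)..2 * π, E (-m) t • fderiv ℝ U (p + Pi.single i t)) p := by
  have c0 := h.continuous
  have c1 := h.continuous_fderiv (by simp)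
  exact param (f := fun q t => E (-m) t * U (q + Pi.single i t))
    (f' := fun q t => E (-m) t • fderiv ℝ U (q + Pi.single i t)) (by fun_prop) (by fun_prop)
    (fun t q => ((hasFDerivAt_comp_add_right _).2
      (h.differentiable (by simp) _).hasFDerivAt).const_mul _) _ _ p

theorem F_fd' {U : Pt → ℂ} (h : Sm U) (i : Fin 4) (m : ℤ) (y : Pt) :
    (fun p => fderiv ℝ (F i m U) p y) = F i m fun q => fderiv ℝ U q y := by
  ext p
  have c1 := h.continuous_fderiv (by simp)
  rw [(F_fd h i m p).fderiv, ContinuousLinearMap.intervalIntegral_apply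
    (Continuous.intervalIntegrable (by fun_prop) _ _)]
  rfl

theorem F_pd {U : Pt → ℂ} (h : Sm U) (i : Fin 4) (m : ℤ) (j : Fin 4) :
    pd j (F i m U) = F i m (pd j U) := F_fd' h i m _

theorem Sm.F {U : Pt → ℂ} (h : Sm U) (i : Fin 4) (m : ℤ) : Sm (F i m U) := by
  refine contDiff_infty.2 fun n => ?_
  induction n generalizing U with
  | zero => exact contDiff_zero.2 (Differentiable.continuous fun p => (F_fd h i m p).differentiableAt)
  | succ n ih =>
    rw [Nat.cast_succ, contDiff_succ_iff_fderiv_apply]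
    exact ⟨fun p => (F_fd h i m p).differentiableAt, by simp, fun y => F_fd' h i m y ▸ ih (h.fd y)⟩

def Eqv (i : Fin 4) (m : ℤ) (V : Pt → ℂ) : Prop := ∀ p t, V (p + Pi.single i t) = E m t * V p

theorem F_eqv {U : Pt → ℂ} (h : Per U) {i : Fin 4} (hi : i ≠ 0) (m : ℤ) : Eqv i m (F i m U) := by
  intro p s
  have hp : Function.Periodic (fun t => E (-m) t * U (p + Pi.single i t)) (2 * π) := fun t => by
    simp only [E_add, E_per, mul_one, Pi.single_add, ← add_assoc, h _ i hi]
  have h1 : E m s * E (-m) s = 1 := by simp [E, ← Complex.exp_add]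
  have := hp.intervalIntegral_add_eq s 0
  rw [zero_add] at this
  rw [F, F, ← this, ← intervalIntegral.integral_const_mul]
  have h2 := intervalIntegral.integral_comp_add_left (a := 0) (b := 2 * π)
    (fun t => E m s * (E (-m) t * U (p + Pi.single i t))) s
  rw [add_zero] at h2
  rw [← h2]
  simp only [E_add, ← mul_assoc, h1, one_mul, Pi.single_add, add_assoc]

theorem Eqv.F {V : Pt → ℂ} {i j : Fin 4} {n : ℤ} (h : Eqv j n V) (m : ℤ) : Eqv j n (F i m V) := by
  intro p s
  simp only [Stek4.F, add_right_comm p, h _ s, mul_left_comm _ (E n s),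
    intervalIntegral.integral_const_mul]

theorem Eqv.pd {V : Pt → ℂ} {i : Fin 4} {m : ℤ} (h : Eqv i m V) (hV : Sm V) :
    pd i V = fun p => (m * Complex.I) * V p := by
  ext p
  refine pd_eq hV.diff ?_
  simp only [h p, E]
  have : HasDerivAt (fun t : ℝ => (m : ℂ) * t * Complex.I) (m * Complex.I) 0 := by
    simpa using ((hasDerivAt_id (0 : ℝ)).ofReal_comp.const_mul (m : ℂ)).mul_const Complex.I
  simpa using this.cexp.mul_const (V p)

theorem Eqv.F_eq {V : Pt → ℂ} {i : Fin 4} {n : ℤ} (h : Eqv i n V) (m : ℤ) :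
    Stek4.F i m V = fun p => (if m = n then 2 * π else 0 : ℂ) * V p := by
  ext p
  simp only [Stek4.F, h p, ← mul_assoc, intervalIntegral.integral_mul_const]
  congr 1
  have : ∀ t : ℝ, E (-m) t * E n t = Complex.exp ((n - m : ℤ) * Complex.I * t) := fun t => by
    simp only [E, ← Complex.exp_add]; congr 1; push_cast; ring
  simp only [this]
  split_ifs with hmn
  · simp [hmn]
  · rw [integral_exp_mul_complex (mul_ne_zero (Int.cast_ne_zero.2 (sub_ne_zero.2 (Ne.symm hmn)))
      Complex.I_ne_zero), show ((n - m : ℤ) : ℂ) * Complex.I * (2 * π : ℝ) =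
        (n - m : ℤ) * (2 * π * Complex.I) by push_cast; ring, Complex.exp_int_mul_two_pi_mul_I]
    simp

theorem F_per {U : Pt → ℂ} (h : Per U) (i : Fin 4) (m : ℤ) : Per (F i m U) := by
  intro p j hj
  simp only [F, add_right_comm p, h _ j hj]

theorem F_complete {U : Pt → ℂ} (hc : Continuous U) (h : Per U) {i : Fin 4} (hi : i ≠ 0) {p : Pt}
    (h0 : ∀ m, F i m U p = 0) : U p = 0 := by
  have hp : Function.Periodic (fun t => U (p + Pi.single i t)) (2 * π) := fun t => by
    simp only [Pi.single_add, ← add_assoc, h _ i hi]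
  have : Fact (0 < 2 * π) := ⟨two_pi_pos⟩
  let f : C(AddCircle (2 * π), ℂ) := ⟨hp.lift, continuous_coinduced_dom.2 (by
    change Continuous fun t : ℝ => U (p + Pi.single i t)
    fun_prop)⟩
  have h1 : fourierCoeff f = 0 := by
    ext m
    rw [fourierCoeff_eq_intervalIntegral _ _ 0, zero_add, Pi.zero_apply, smul_eq_zero]
    refine Or.inr (Eq.trans (intervalIntegral.integral_congr fun t _ => ?_) (h0 m))
    rw [fourier_coe_apply, smul_eq_mul, E]
    congr 2
    have : (π : ℂ) ≠ 0 := Complex.ofReal_ne_zero.2 pi_ne_zero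
    push_cast
    field_simp
  have h2 := hasSum_fourier_series_of_summable (f := f) (h1 ▸ summable_zero)
  simp only [h1, Pi.zero_apply, zero_smul] at h2
  have h3 : f ((0 : ℝ) : AddCircle (2 * π)) = 0 := by rw [h2.unique hasSum_zero]; rfl
  have h4 : U (p + Pi.single i 0) = 0 := h3
  simpa using h4

theorem F_add {U V : Pt → ℂ} (hU : Continuous U) (hV : Continuous V) (i : Fin 4) (m : ℤ) :
    F i m (U + V) = F i m U + F i m V := by
  ext p
  simp only [F, Pi.add_apply, mul_add]
  exact intervalIntegral.integral_add (Continuous.intervalIntegrable (by fun_prop) _ _)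
    (Continuous.intervalIntegrable (by fun_prop) _ _)

theorem F_cmul (U : Pt → ℂ) (c : ℂ) (i : Fin 4) (m : ℤ) :
    F i m (fun p => c * U p) = fun p => c * F i m U p := by
  ext p
  simp only [F, mul_left_comm _ c, intervalIntegral.integral_const_mul]

theorem F_sum {ι : Type} (s : Finset ι) {U : ι → Pt → ℂ} (hU : ∀ k, Continuous (U k))
    (i : Fin 4) (m : ℤ) (p : Pt) : F i m (fun q => ∑ k ∈ s, U k q) p = ∑ k ∈ s, F i m (U k) p := by
  simp only [F, Finset.mul_sum]
  exact intervalIntegral.integral_finsetSum fun k _ =>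
    Continuous.intervalIntegrable (by fun_prop) _ _

theorem F_congr {U V : Pt → ℂ} {i : Fin 4} (m : ℤ) {p : Pt}
    (h : ∀ t, U (p + Pi.single i t) = V (p + Pi.single i t)) : F i m U p = F i m V p := by
  simp only [F, h]

theorem max1 {v v' f f' : ℝ → ℝ} {a b t v2 f2 : ℝ} (hab : a < b) (ht : t ∈ Icc a b)
    (d1 : ∀ s, HasDerivAt v (v' s) s) (d2 : HasDerivAt v' v2 t) (d3 : ∀ s, HasDerivAt f (f' s) s)
    (d4 : HasDerivAt f' f2 t) (hm : ∀ s ∈ Icc a b, v s * exp (-f s) ≤ v t * exp (-f t))
    (ha : t = a → f' t * v t ≤ v' t) (hb : t = b → v' t ≤ f' t * v t) :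
    v2 ≤ (f2 + f' t ^ 2) * v t := by
  have e1 : ∀ s, HasDerivAt (fun s => v s * exp (-f s)) ((v' s - f' s * v s) * exp (-f s)) s :=
    fun s => ((d1 s).fun_mul (d3 s).fun_neg.exp).congr_deriv (by ring)
  have hp := exp_pos (-f t)
  have hmax : IsLocalMaxOn (fun s => v s * exp (-f s)) (Icc a b) t := IsMaxOn.localize hm
  have e2 : v' t = f' t * v t := by
    have k : ∀ c ∈ Icc a b, (c - t) * (v' t - f' t * v t) ≤ 0 := fun c hc => by
      have := hmax.hasFDerivWithinAt_nonpos (e1 t).hasFDerivAt.hasFDerivWithinAt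
        (sub_mem_posTangentConeAt_of_segment_subset ((convex_Icc a b).segment_subset ht hc))
      simp only [ContinuousLinearMap.toSpanSingleton_apply, smul_eq_mul, ← mul_assoc] at this
      exact nonpos_of_mul_nonpos_left this hp
    have k1 := k a (left_mem_Icc.2 hab.le)
    have k2 := k b (right_mem_Icc.2 hab.le)
    apply le_antisymm
    · rcases ht.2.eq_or_lt with h | h
      · exact hb h
      · nlinarith
    · rcases ht.1.eq_or_lt with h | h
      · exact ha h.symm
      · nlinarith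
  by_contra hc
  set ε := (v2 - (f2 + f' t ^ 2) * v t) * exp (-f t) / 4 with hε
  have hε0 : 0 < ε := by have := sub_pos.2 (not_le.1 hc); positivity
  have e3 : ∀ s, HasDerivAt (fun s => v s * exp (-f s) - ε * (s - t) ^ 2)
      ((v' s - f' s * v s) * exp (-f s) - ε * (2 * (s - t))) s := fun s =>
    ((e1 s).fun_sub ((((hasDerivAt_id' s).sub_const t).fun_pow 2).const_mul ε)).congr_deriv
      (by simp)
  have e4 : deriv (fun s => v s * exp (-f s) - ε * (s - t) ^ 2) =
      fun s => (v' s - f' s * v s) * exp (-f s) - ε * (2 * (s - t)) := funext fun s => (e3 s).deriv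
  have e5 : HasDerivAt (fun s => (v' s - f' s * v s) * exp (-f s) - ε * (2 * (s - t))) (2 * ε) t := by
    refine (((d2.fun_sub (d4.fun_mul (d1 t))).fun_mul (d3 t).fun_neg.exp).fun_sub
      ((((hasDerivAt_id' t).sub_const t).const_mul 2).const_mul ε)).congr_deriv ?_
    simp only [e2, hε]
    ring
  have e6 := isLocalMin_of_deriv_deriv_pos (x₀ := t)
    (f := fun s => v s * exp (-f s) - ε * (s - t) ^ 2) (by rw [e4, e5.deriv]; linarith)
    (by rw [e4]; simp [e2]) (e3 t).continuousAt
  have e7 : (𝓝[Icc a b \ {t}] t).NeBot := by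
    have := (uniqueDiffOn_Icc hab t ht).accPt
    rwa [accPt_principal_iff_nhdsWithin] at this
  obtain ⟨s, h1, h2, h3⟩ := ((e6.filter_mono (nhdsWithin_le_nhds (s := Icc a b \ {t}))).and
    self_mem_nhdsWithin).exists
  have := hm s h2
  have : 0 < ε * (s - t) ^ 2 := mul_pos hε0 (sq_pos_of_ne_zero (sub_ne_zero.2 h3))
  simp only [sub_self] at h1
  nlinarith

end Pool.Agent.H85.Stek4
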