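import Pool.Agent.H85.Stek4a

set_option autoImplicit false

namespace Pool.Agent.H85.Stek4

open Set MeasureTheory Filter Real Topology Pool.Agent.H85.Stek4Defs
open scoped ContDiff

theorem line_re {V : Pt → ℂ} (hV : Sm V) (z : ℂ) {c : ℝ → Pt} {i : Fin 4} (q : Pt)
    (h : ∀ s, c s = q + Pi.single i s) (t : ℝ) :
    HasDerivAt (fun s => (z * V (c s)).re) (z * pd i V (c t)).re t := by
  simp only [h]
  exact Complex.reCLM.hasFDerivAt.comp_hasDerivAt t ((line hV.diff q i t).const_mul z)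

theorem mp {V : Pt → ℂ} (hV : Sm V) (hper : Per V) {κ σ : ℝ} (hκ : 0 ≤ κ) {Q : Pt → ℝ}
    (heq : ∀ p ∈ Strip, pd 0 (pd 0 V) p + κ * pd 1 (pd 1 V) p = Q p * V p)
    (b1 : ∀ p, p 0 = π → pd 0 V p = σ * V p) (b0 : ∀ p, p 0 = 0 → -pd 0 V p = σ * V p)
    {f fr frr ft ftt : ℝ → ℝ → ℝ} (cf : Continuous fun z : ℝ × ℝ => f z.1 z.2)
    (fper : ∀ r θ, f r (θ + 2 * π) = f r θ)
    (d1 : ∀ r θ, HasDerivAt (fun s => f s θ) (fr r θ) r)
    (d2 : ∀ r θ, HasDerivAt (fun s => fr s θ) (frr r θ) r)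
    (d3 : ∀ r θ, HasDerivAt (fun s => f r s) (ft r θ) θ)
    (d4 : ∀ r θ, HasDerivAt (fun s => ft r s) (ftt r θ) θ)
    (hQ : ∀ p ∈ Strip, frr (p 0) (p 1) + fr (p 0) (p 1) ^ 2 +
      κ * (ftt (p 0) (p 1) + ft (p 0) (p 1) ^ 2) < Q p)
    (h0 : ∀ θ, fr 0 θ ≤ -σ) (hπ : ∀ θ, σ ≤ fr π θ) : ∀ p ∈ Strip, V p = 0 := by
  intro p hp
  by_contra hne
  let z := (starRingEnd ℂ) (V p)
  let P : ℝ → ℝ → Pt := fun r θ => ![r, θ, p 2, p 3]
  have P0 : ∀ θ s, P s θ = P 0 θ + Pi.single 0 s := fun θ s => by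
    ext i; fin_cases i <;> simp [P]
  have P1 : ∀ r s, P r s = P r 0 + Pi.single 1 s := fun r s => by
    ext i; fin_cases i <;> simp [P]
  let w : ℝ → ℝ → ℝ := fun r θ => (z * V (P r θ)).re * exp (-f r θ)
  have cV := hV.continuous
  have cw : Continuous fun y : ℝ × ℝ => w y.1 y.2 := by simp only [w, P]; fun_prop
  obtain ⟨⟨r, θ⟩, ⟨hr, -⟩, hm⟩ := ((isCompact_Icc (a := (0 : ℝ)) (b := π)).prod
    (isCompact_Icc (a := (0 : ℝ)) (b := 2 * π))).exists_isMaxOn
    ⟨(0, 0), by simp [pi_pos.le]⟩ cw.continuousOn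
  have hm' : ∀ s ∈ Icc (0 : ℝ) π, ∀ φ, w s φ ≤ w r θ := by
    intro s hs φ
    have : Function.Periodic (w s) (2 * π) := fun t => by
      have : P s (t + 2 * π) = P s t + Pi.single 1 (2 * π) := by
        ext i; fin_cases i <;> simp [P]
      simp only [w, fper, this, hper _ 1 (by simp)]
    obtain ⟨y, hy, e⟩ := this.exists_mem_Ico₀ two_pi_pos φ
    rw [e]
    exact hm (a := (s, y)) ⟨hs, Ico_subset_Icc_self hy⟩
  have hv : 0 < (z * V (P r θ)).re := by
    have h1 := hm' (p 0) hp (p 1)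
    have h2 : P (p 0) (p 1) = p := by ext i; fin_cases i <;> rfl
    have h3 : 0 < w (p 0) (p 1) := by
      simp only [w, h2, z, ← Complex.normSq_eq_conj_mul_self, Complex.ofReal_re]
      exact mul_pos (Complex.normSq_pos.2 hne) (exp_pos _)
    exact (mul_pos_iff_of_pos_right (exp_pos _)).1 (h3.trans_le h1)
  have k1 := max1 (f := fun s => f s θ) pi_pos hr (line_re hV z _ (P0 θ))
    (line_re (hV.pd 0) z _ (P0 θ) r) (fun s => d1 s θ) (d2 r θ) (fun s hs => hm' s hs θ)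
    (fun h => by
      obtain rfl : r = 0 := h
      have := b0 (P 0 θ) rfl
      rw [neg_eq_iff_eq_neg] at this
      rw [this, mul_neg, mul_left_comm, Complex.neg_re, Complex.re_ofReal_mul]
      nlinarith [h0 θ])
    (fun h => by
      obtain rfl : r = π := h
      rw [b1 (P π θ) rfl, mul_left_comm, Complex.re_ofReal_mul]
      nlinarith [hπ θ])
  have k2 := max1 (f := fun s => f r s) (a := θ - 1) (b := θ + 1) (t := θ) (by linarith)
    ⟨by linarith, by linarith⟩ (line_re hV z _ (P1 r)) (line_re (hV.pd 1) z _ (P1 r) θ)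
    (d3 r) (d4 r θ) (fun s _ => hm' r hr s) (fun h => by linarith) (fun h => by linarith)
  have k3 := congrArg (fun x => (z * x).re) (heq (P r θ) hr)
  simp only [mul_add, mul_left_comm z, Complex.add_re, Complex.re_ofReal_mul] at k3
  have k4 : frr r θ + fr r θ ^ 2 + κ * (ftt r θ + ft r θ ^ 2) < Q (P r θ) := hQ (P r θ) hr
  nlinarith [mul_le_mul_of_nonneg_left k2 hκ, mul_lt_mul_of_pos_right k4 hv]

theorem ode {v v' q : ℝ → ℝ} (d1 : ∀ s, HasDerivAt v (v' s) s)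
    (d2 : ∀ s ∈ Icc (0 : ℝ) π, HasDerivAt v' (-(q s * v s)) s) (hq : ∀ s, 0 < q s ∧ q s ≤ 1 / 16)
    (h0 : v' 0 = 0) (h1 : v' π = 0) : ∀ s ∈ Icc (0 : ℝ) π, v s = 0 := by
  obtain ⟨ξ, hξ, e⟩ := exists_hasDerivAt_eq_zero pi_pos
    (fun s hs => (d2 s hs).continuousAt.continuousWithinAt) (h0.trans h1.symm)
    fun s hs => d2 s (Ioo_subset_Icc_self hs)
  have e1 : v ξ = 0 := by simpa [(hq ξ).1.ne'] using e
  obtain ⟨t, ht, hm⟩ := (isCompact_Icc (a := (0 : ℝ)) (b := π)).exists_isMaxOn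
    (f := fun s => |v s|) ⟨0, by simp [pi_pos.le]⟩
    (fun s _ => (d1 s).continuousAt.abs.continuousWithinAt)
  have dist : ∀ x ∈ Icc (0 : ℝ) π, ∀ y ∈ Icc (0 : ℝ) π, ‖y - x‖ ≤ 3.15 := fun x hx y hy => by
    rw [Real.norm_eq_abs, abs_le]
    constructor <;> linarith [hx.1, hx.2, hy.1, hy.2, pi_lt_d2]
  have a1 : ∀ s ∈ Icc (0 : ℝ) π, ‖v' s‖ ≤ 1 / 16 * |v t| * 3.15 := fun s hs => by
    have := (convex_Icc (0 : ℝ) π).norm_image_sub_le_of_norm_hasDerivWithin_le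
      (C := 1 / 16 * |v t|) (fun x hx => (d2 x hx).hasDerivWithinAt) (fun x hx => by
        rw [norm_neg, norm_mul, Real.norm_of_nonneg (hq x).1.le]
        exact mul_le_mul (hq x).2 (hm hx) (abs_nonneg _) (by norm_num))
      (left_mem_Icc.2 pi_pos.le) hs
    rw [h0, sub_zero] at this
    exact this.trans (mul_le_mul_of_nonneg_left (dist _ (left_mem_Icc.2 pi_pos.le) _ hs)
      (by positivity))
  have a2 := (convex_Icc (0 : ℝ) π).norm_image_sub_le_of_norm_hasDerivWithin_le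
    (fun x _ => (d1 x).hasDerivWithinAt) a1 (Ioo_subset_Icc_self hξ) ht
  rw [e1, sub_zero, Real.norm_eq_abs] at a2
  have a3 := a2.trans (mul_le_mul_of_nonneg_left (dist _ (Ioo_subset_Icc_self hξ) _ ht)
    (by positivity))
  intro s hs
  have : |v s| ≤ |v t| := hm hs
  exact abs_nonpos_iff.1 (by linarith [abs_nonneg (v t)])

structure Sol (a : Pt → Matrix (Fin 4) (Fin 4) ℝ) (c : Pt → ℝ) (σ : ℝ) (U : Pt → ℂ) : Prop where
  sm : Sm U
  per : Per U
  eq : ∀ p ∈ Strip, ∑ i, ∑ j, (a p i j : ℂ) * pd i (pd j U) p + c p * U p = 0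
  b1 : ∀ p, p 0 = π → pd 0 U p = σ * U p
  b0 : ∀ p, p 0 = 0 → -pd 0 U p = σ * U p

variable {a : Pt → Matrix (Fin 4) (Fin 4) ℝ} {c : Pt → ℝ} {σ : ℝ} {U : Pt → ℂ}

theorem add0 (p : Pt) {i : Fin 4} (hi : i ≠ 0) (t : ℝ) : (p + Pi.single i t : Pt) 0 = p 0 := by
  simp [hi.symm]

theorem F_zero {U : Pt → ℂ} {i : Fin 4} (m : ℤ) {p : Pt}
    (h : ∀ t, U (p + Pi.single i t) = 0) : F i m U p = 0 := by simp [F, h]

theorem Sol.F (h : Sol a c σ U) {i : Fin 4} (hi : i ≠ 0) (ha : ∀ p t, a (p + Pi.single i t) = a p)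
    (hc : Inv i c) (m : ℤ) : Sol a c σ (F i m U) := by
  refine ⟨h.sm.F i m, F_per h.per i m, fun p hp => ?_, fun p hp => ?_, fun p hp => ?_⟩
  · have c1 : ∀ k l, Continuous fun q => (a p k l : ℂ) * pd k (pd l U) q :=
      fun k l => continuous_const.mul ((h.sm.pd l).pd k).continuous
    have c2 : ∀ k, Continuous fun q => ∑ l, (a p k l : ℂ) * pd k (pd l U) q :=
      fun k => continuous_finsetSum _ fun l _ => c1 k l
    have := F_zero (U := (fun q => ∑ k, ∑ l, (a p k l : ℂ) * pd k (pd l U) q) + fun q => c p * U q)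
      (i := i) m (p := p) fun t => by
        have := h.eq (p + Pi.single i t) ⟨by rw [add0 p hi]; exact hp.1,
          by rw [add0 p hi]; exact hp.2⟩
        rw [ha, hc p] at this
        exact this
    rw [F_add (continuous_finsetSum _ fun k _ => c2 k) (V := fun q => c p * U q)
      (continuous_const.mul h.sm.continuous), Pi.add_apply, F_sum _ c2, F_cmul] at this
    simp only [F_sum _ (c1 _), F_cmul] at this
    simp only [F_pd h.sm, F_pd (h.sm.pd _)]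
    exact this
  · rw [F_pd h.sm, F_congr m (V := fun q => σ * U q) fun t => h.b1 _ (by rw [add0 p hi, hp]), F_cmul]
  · rw [F_pd h.sm, F_congr m (V := fun q => -σ * U q) fun t => by
      rw [neg_mul, ← h.b0 _ (by rw [add0 p hi, hp]), neg_neg], F_cmul]
    simp

def sh {β : Type} (s : ℝ) (U : Pt → β) : Pt → β := fun p => U (p + Pi.single 1 s)

theorem Sol.sh (h : Sol a c σ U) (s : ℝ) : Sol (sh s a) (sh s c) σ (sh s U) := by
  have e : ∀ (i) (V : Pt → ℂ), pd i (Stek4.sh s V) = Stek4.sh s (pd i V) := fun i V => pd_shift V _ i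
  have e0 : ∀ p : Pt, (p + Pi.single 1 s : Pt) 0 = p 0 := fun p => add0 p (by simp) s
  refine ⟨h.sm.comp (contDiff_id.add contDiff_const), fun p j hj => ?_, fun p hp => ?_,
    fun p hp => ?_, fun p hp => ?_⟩
  · rw [Stek4.sh, add_right_comm p, h.per _ j hj]; rfl
  · simp only [e]
    exact h.eq _ (by simpa [Strip, e0] using hp)
  · rw [e]; exact h.b1 _ (by rw [e0, hp])
  · rw [e]; exact h.b0 _ (by rw [e0, hp])

def sub (a : Pt → Matrix (Fin 4) (Fin 4) ℝ) (c : Pt → ℝ) (σ : ℝ) : Submodule ℂ (Pt → ℂ) where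
  carrier := {U | Sol a c σ U}
  zero_mem' := by
    have : ∀ i, pd i 0 = 0 := fun i => by ext; simp [pd]
    exact ⟨contDiff_const, fun _ _ _ => rfl, by simp [this], by simp [this], by simp [this]⟩
  add_mem' := fun {U V} hU hV => by
    refine ⟨hU.sm.add hV.sm, fun p i hi => by simp [hU.per p i hi, hV.per p i hi], fun p hp => ?_,
      fun p hp => ?_, fun p hp => ?_⟩
    · simp only [pd_add hU.sm hV.sm, pd_add (hU.sm.pd _) (hV.sm.pd _), Pi.add_apply, mul_add,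
        Finset.sum_add_distrib]
      linear_combination hU.eq p hp + hV.eq p hp
    · simp only [pd_add hU.sm hV.sm, Pi.add_apply]
      linear_combination hU.b1 p hp + hV.b1 p hp
    · simp only [pd_add hU.sm hV.sm, Pi.add_apply]
      linear_combination hU.b0 p hp + hV.b0 p hp
  smul_mem' := fun z U hU => by
    change Sol a c σ fun p => z * U p
    refine ⟨contDiff_const.mul hU.sm, fun p i hi => by simp [hU.per p i hi], fun p hp => ?_,
      fun p hp => ?_, fun p hp => ?_⟩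
    · simp only [pd_cmul hU.sm, pd_cmul (hU.sm.pd _), mul_left_comm _ z, ← Finset.mul_sum]
      linear_combination z * hU.eq p hp
    · simp only [pd_cmul hU.sm]
      linear_combination z * hU.b1 p hp
    · simp only [pd_cmul hU.sm]
      linear_combination z * hU.b0 p hp

def blk (A B C : Pt → ℝ) (p : Pt) : Matrix (Fin 4) (Fin 4) ℝ :=
  !![1, 0, 0, 0; 0, 1, 0, 0; 0, 0, A p, B p; 0, 0, B p, C p]

theorem red {V : Pt → ℂ} (hV : Sm V) {m n : ℤ} (h2 : Eqv 2 m V) (h3 : Eqv 3 n V)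
    (A B C : Pt → ℝ) (p : Pt) : ∑ i, ∑ j, (blk A B C p i j : ℂ) * pd i (pd j V) p =
      pd 0 (pd 0 V) p + pd 1 (pd 1 V) p - (A p * m ^ 2 + 2 * B p * m * n + C p * n ^ 2 : ℝ) * V p := by
  simp only [Fin.sum_univ_four, blk, h2.pd hV, h3.pd hV, pd_cmul hV]
  simp
  linear_combination (A p * m ^ 2 + 2 * B p * m * n + C p * n ^ 2) * V p * Complex.I_mul_I

noncomputable def P (μ : ℤ × ℤ) (U : Pt → ℂ) : Pt → ℂ := F 2 μ.1 (F 3 μ.2 U)

theorem P_eqv (h : Per U) (μ : ℤ × ℤ) : Eqv 2 μ.1 (P μ U) ∧ Eqv 3 μ.2 (P μ U) :=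
  ⟨F_eqv (F_per h _ _) (by simp) _, (F_eqv h (by simp) _).F _⟩

theorem P_complete (hs : Sm U) (h : Per U) (h0 : ∀ μ, ∀ p ∈ Strip, P μ U p = 0) :
    ∀ p ∈ Strip, U p = 0 := fun p hp =>
  F_complete hs.continuous h (i := 3) (by simp) fun n =>
    F_complete (hs.F 3 n).continuous (F_per h _ _) (i := 2) (by simp) fun m => h0 (m, n) p hp

theorem P_eq {V : Pt → ℂ} {ν : ℤ × ℤ} (h2 : Eqv 2 ν.1 V) (h3 : Eqv 3 ν.2 V) (μ : ℤ × ℤ) (p : Pt) :
    P μ V p = (if μ = ν then (2 * π) ^ 2 else 0 : ℂ) * V p := by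
  rw [P, h3.F_eq, F_cmul, h2.F_eq]
  by_cases a : μ.1 = ν.1 <;> by_cases b : μ.2 = ν.2 <;> simp [Prod.ext_iff, a, b]
  ring

theorem P_zero {V : Pt → ℂ} (h : ∀ p ∈ Strip, V p = 0) (μ : ℤ × ℤ) : ∀ p ∈ Strip, P μ V p = 0 :=
  fun p hp => F_zero _ fun t => F_zero _ fun s => h _ (by simpa [Strip] using hp)

theorem rank_le {A B : Type} [AddCommGroup A] [Module ℂ A] [AddCommGroup B] [Module ℂ B]
    (f g : A →ₗ[ℂ] B) (h : LinearMap.ker g ≤ LinearMap.ker f) :
    Module.rank ℂ (LinearMap.range f) ≤ Module.rank ℂ (LinearMap.range g) := by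
  rw [← g.quotKerEquivRange.rank_eq, ← Submodule.range_liftQ (LinearMap.ker g) f h]
  exact rank_range_le _

def res : (Pt → ℂ) →ₗ[ℂ] (Strip → ℂ) := LinearMap.funLeft ℂ ℂ Subtype.val

theorem transplant {a a' : Pt → Matrix (Fin 4) (Fin 4) ℝ} {σ : ℝ} (s : ℤ × ℤ → ℝ)
    (S : Finset (ℤ × ℤ)) (h1 : ∀ U, Sol a 0 σ U → ∀ μ, Sol a' 0 σ (sh (s μ) (P μ U)))
    (h2 : ∀ U, Sol a 0 σ U → ∀ μ ∉ S, ∀ p ∈ Strip, P μ U p = 0) :
    Module.rank ℂ ((sub a 0 σ).map res) ≤ Module.rank ℂ ((sub a' 0 σ).map res) := by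
  let T : sub a 0 σ →ₗ[ℂ] (Pt → ℂ) :=
    { toFun := fun U => ∑ μ ∈ S, sh (s μ) (P μ U.1)
      map_add' := fun U V => by
        rw [← Finset.sum_add_distrib]
        refine Finset.sum_congr rfl fun μ _ => ?_
        rw [Submodule.coe_add, P, F_add U.2.sm.continuous V.2.sm.continuous,
          F_add (U.2.sm.F _ _).continuous (V.2.sm.F _ _).continuous]
        rfl
      map_smul' := fun z U => by
        rw [Finset.smul_sum]
        refine Finset.sum_congr rfl fun μ _ => ?_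
        change sh _ (F _ _ (F _ _ fun p => z * U.1 p)) = _
        rw [F_cmul, F_cmul]
        rfl }
  have := rank_le (res ∘ₗ (sub a 0 σ).subtype) (res ∘ₗ T) fun U hU => by
    have h0 : ∀ p ∈ Strip, T U p = 0 := fun p hp => congrFun (LinearMap.mem_ker.1 hU) ⟨p, hp⟩
    refine LinearMap.mem_ker.2 (funext fun p => P_complete U.2.sm U.2.per
      (fun μ q hq => ?_) p.1 p.2)
    by_cases hμ : μ ∈ S
    swap
    · exact h2 U U.2 μ hμ q hq
    have h3 := P_zero h0 μ (q + Pi.single 1 (-s μ)) (by simpa [Strip] using hq)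
    have h4 : ∀ ν i m, Eqv i m (P ν U.1) → Eqv i m (sh (s ν) (P ν U.1)) := fun ν i m h p t => by
      rw [sh, add_right_comm p, h _ t]; rfl
    have h5 : T U = fun q => ∑ ν ∈ S, sh (s ν) (P ν U.1) q := funext fun q => Finset.sum_apply _ _ _
    have h6 := fun ν => (h1 U U.2 ν).sm
    rw [h5, P, funext (F_sum S (fun ν => (h6 ν).continuous) 3 μ.2),
      F_sum S fun ν => ((h6 ν).F _ _).continuous] at h3
    have h7 := fun ν => P_eq (h4 ν _ _ (P_eqv U.2.per ν).1) (h4 ν _ _ (P_eqv U.2.per ν).2) μ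
    simp only [P] at h7
    simp only [P, h7] at h3
    simpa [hμ, sh, add_assoc, ← Pi.single_add, pi_ne_zero, P] using h3
  rw [LinearMap.range_comp, Submodule.range_subtype, LinearMap.range_comp] at this
  refine this.trans (Submodule.rank_mono (Submodule.map_mono ?_))
  rintro _ ⟨U, rfl⟩
  exact Submodule.sum_mem _ fun μ _ => h1 U U.2 μ

end Pool.Agent.H85.Stek4
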