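import Pool.Agent.H85.Stek4b

set_option autoImplicit false

namespace Pool.Agent.H85.Stek4

open Set MeasureTheory Filter Real Topology Pool.Agent.H85.Stek4Defs
open scoped ContDiff

noncomputable def met (ρ A B C : Pt → ℝ) (p : Pt) : Matrix (Fin 4) (Fin 4) ℝ :=
  !![ρ p, 0, 0, 0; 0, ρ p, 0, 0; 0, 0, 256 * C p / ρ p, -256 * B p / ρ p;
    0, 0, -256 * B p / ρ p, 256 * A p / ρ p]

structure Good (ρ A B C : Pt → ℝ) : Prop where
  s0 : ContDiff ℝ ∞ ρ
  s1 : ContDiff ℝ ∞ A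
  s2 : ContDiff ℝ ∞ B
  s3 : ContDiff ℝ ∞ C
  pos : ∀ p, 0 < ρ p
  posA : ∀ p, 0 < A p
  det : ∀ p, 256 * (A p * C p - B p ^ 2) = ρ p ^ 2
  inv : ∀ i, i = 2 ∨ i = 3 → Inv i ρ ∧ Inv i A ∧ Inv i B ∧ Inv i C
  per : Per ρ ∧ Per A ∧ Per B ∧ Per C
  bd : ∀ p, p 0 = 0 ∨ p 0 = π → ρ p = 1

variable {ρ A B C : Pt → ℝ}

theorem Good.inv_eq (h : Good ρ A B C) (p : Pt) : (met ρ A B C p)⁻¹ = (ρ p)⁻¹ • blk A B C p := by
  have h1 := (h.pos p).ne'
  have h2 := h.det p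
  refine Matrix.inv_eq_left_inv ?_
  ext i j
  fin_cases i <;> fin_cases j <;> simp [met, blk, Matrix.mul_apply, Fin.sum_univ_four] <;>
    field_simp <;> linarith

theorem Good.sqrt_det (h : Good ρ A B C) (p : Pt) : √(met ρ A B C p).det = 16 * ρ p := by
  have h1 := h.pos p
  have h2 := h.det p
  rw [sqrt_eq_iff_mul_self_eq_of_pos (by positivity)]
  simp [met, Matrix.det_succ_row_zero, Fin.sum_univ_succ, Fin.succAbove]
  field_simp
  nlinarith

theorem Good.metric (h : Good ρ A B C) : IsMetric (met ρ A B C) := by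
  refine ⟨fun i j => ?_, fun p => ?_, fun p i hi => ?_⟩
  · have a1 := (contDiff_const (c := (256 : ℝ)).mul h.s1).div h.s0 fun p => (h.pos p).ne'
    have a2 := (contDiff_const (c := (-256 : ℝ)).mul h.s2).div h.s0 fun p => (h.pos p).ne'
    have a3 := (contDiff_const (c := (256 : ℝ)).mul h.s3).div h.s0 fun p => (h.pos p).ne'
    have a4 := h.s0
    fin_cases i <;> fin_cases j <;> first | assumption | exact contDiff_const
  · have h1 := h.pos p
    have h2 := h.det p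
    have h3 := h.posA p
    refine Matrix.PosDef.of_dotProduct_mulVec_pos ?_ fun x hx => ?_
    · ext i j
      fin_cases i <;> fin_cases j <;> simp [met]
    · have e : star x ⬝ᵥ Matrix.mulVec (met ρ A B C p) x = ρ p * x 0 ^ 2 + ρ p * x 1 ^ 2 +
          (256 * (A p * x 3 - B p * x 2) ^ 2 + ρ p ^ 2 * x 2 ^ 2) / (A p * ρ p) := by
        simp [met, Matrix.mulVec, dotProduct, Fin.sum_univ_four]
        field_simp
        linear_combination x 2 ^ 2 * h2
      rw [e]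
      by_contra hc
      have n0 : 0 ≤ ρ p * x 0 ^ 2 := by positivity
      have n1 : 0 ≤ ρ p * x 1 ^ 2 := by positivity
      have n2 : 0 ≤ 256 * (A p * x 3 - B p * x 2) ^ 2 := by positivity
      have n3 : 0 ≤ ρ p ^ 2 * x 2 ^ 2 := by positivity
      have n4 := div_nonneg (add_nonneg n2 n3) (mul_pos h3 h1).le
      have n5 : (256 * (A p * x 3 - B p * x 2) ^ 2 + ρ p ^ 2 * x 2 ^ 2) / (A p * ρ p) = 0 := by
        linarith
      rw [div_eq_zero_iff, or_iff_left (mul_pos h3 h1).ne'] at n5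
      have z0 : x 0 = 0 := by simpa [h1.ne'] using show ρ p * x 0 ^ 2 = 0 by linarith
      have z1 : x 1 = 0 := by simpa [h1.ne'] using show ρ p * x 1 ^ 2 = 0 by linarith
      have z2 : x 2 = 0 := by simpa [h1.ne'] using show ρ p ^ 2 * x 2 ^ 2 = 0 by linarith
      have z3 : x 3 = 0 := by simpa [h1.ne', z2, h3.ne'] using n5
      exact hx (funext fun i => by fin_cases i <;> assumption)
  · simp only [met, h.per.1 p i hi, h.per.2.1 p i hi, h.per.2.2.1 p i hi, h.per.2.2.2 p i hi]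

theorem Good.lap_eq (h : Good ρ A B C) {U : Pt → ℂ} (hU : Sm U) (p : Pt) :
    lap (met ρ A B C) U p = -(∑ i, ∑ j, (blk A B C p i j : ℂ) * pd i (pd j U) p) / ρ p := by
  have e1 : ∀ i, (fun q => ((√(met ρ A B C q).det : ℝ) : ℂ) * grad (met ρ A B C) U i q) =
      fun q => 16 * ∑ j, (blk A B C q i j : ℂ) * pd j U q := by
    intro i
    ext q
    have : (ρ q : ℂ) ≠ 0 := Complex.ofReal_ne_zero.2 (h.pos q).ne'
    simp only [grad, h.inv_eq, h.sqrt_det, Matrix.smul_apply, smul_eq_mul, Finset.mul_sum]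
    refine Finset.sum_congr rfl fun j _ => ?_
    push_cast
    field_simp
  have sm : ∀ {w : Pt → ℝ}, ContDiff ℝ ∞ w → ∀ j, Sm fun q => (w q : ℂ) * pd j U q :=
    fun hw j => (Complex.ofRealCLM.contDiff.comp hw).mul (hU.pd j)
  have e2 : ∀ {v w : Pt → ℝ} {i}, ContDiff ℝ ∞ v → ContDiff ℝ ∞ w → Inv i v → Inv i w →
      pd i (fun q => 16 * ((v q : ℂ) * pd 2 U q + w q * pd 3 U q)) p =
      16 * (v p * pd i (pd 2 U) p + w p * pd i (pd 3 U) p) := by
    intro v w i h1 h2 h3 h4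
    rw [pd_cmul ((sm h1 2).add (sm h2 3)), ← pd_mul_inv (hU.pd 2) h1 h3,
      ← pd_mul_inv (hU.pd 3) h2 h4]
    exact congrArg _ (congrFun (pd_add (sm h1 2) (sm h2 3) i) p)
  have : (ρ p : ℂ) ≠ 0 := Complex.ofReal_ne_zero.2 (h.pos p).ne'
  obtain ⟨-, a1, a2, -⟩ := h.inv 2 (Or.inl rfl)
  obtain ⟨-, -, a3, a4⟩ := h.inv 3 (Or.inr rfl)
  simp only [lap, e1]
  rw [h.sqrt_det]
  simp [Fin.sum_univ_four, blk, pd_cmul (hU.pd _), e2 h.s1 h.s2 a1 a2, e2 h.s2 h.s3 a3 a4]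
  field_simp
  ring

theorem Good.nd_eq (h : Good ρ A B C) (U : Pt → ℂ) {p : Pt} (hp : p 0 = 0 ∨ p 0 = π) :
    nd (met ρ A B C) U p = pd 0 U p := by
  simp [nd, grad, h.inv_eq, h.bd p hp, blk, Fin.sum_univ_four]

theorem Good.span_eq (h : Good ρ A B C) {l : ℝ} {c : Pt → ℝ} (hc : ∀ p, c p = l * ρ p) (σ : ℝ) :
    Submodule.span ℂ (Eig (met ρ A B C) l σ) = (sub (blk A B C) c σ).map res := by
  have e : ∀ U, Sm U → ∀ p, (lap (met ρ A B C) U p = l * U p ↔
      ∑ i, ∑ j, (blk A B C p i j : ℂ) * pd i (pd j U) p + c p * U p = 0) := fun U hU p => by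
    rw [h.lap_eq hU, hc, div_eq_iff (Complex.ofReal_ne_zero.2 (h.pos p).ne')]
    push_cast
    constructor <;> intro h <;> linear_combination -h
  rw [← Submodule.span_eq ((sub (blk A B C) c σ).map res)]
  congr 1
  ext u
  constructor
  · rintro ⟨U, h1, h2, h3, h4, h5, h6⟩
    exact ⟨U, ⟨h1, h2, fun p hp => (e U h1 p).1 (h3 p hp),
      fun p hp => h.nd_eq U (Or.inr hp) ▸ h4 p hp, fun p hp => h.nd_eq U (Or.inl hp) ▸ h5 p hp⟩,
      funext fun p => (h6 p).symm⟩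
  · rintro ⟨U, hU, rfl⟩
    exact ⟨U, hU.sm, hU.per, fun p hp => (e U hU.sm p).2 (hU.eq p hp),
      fun p hp => (h.nd_eq U (Or.inr hp)).symm ▸ hU.b1 p hp,
      fun p hp => (h.nd_eq U (Or.inl hp)).symm ▸ hU.b0 p hp, fun _ => rfl⟩

theorem Good.solP (h : Good ρ A B C) {c : Pt → ℝ} (h2 : Inv 2 c) (h3 : Inv 3 c) {σ : ℝ}
    {U : Pt → ℂ} (hU : Sol (blk A B C) c σ U) (μ : ℤ × ℤ) : Sol (blk A B C) c σ (P μ U) := by
  have : ∀ i, i = 2 ∨ i = 3 → ∀ p t, blk A B C (p + Pi.single i t) = blk A B C p := fun i hi p t => by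
    obtain ⟨-, a1, a2, a3⟩ := h.inv i hi
    simp only [blk, a1 p, a2 p, a3 p]
  exact (hU.F (by simp) (this 3 (Or.inr rfl)) h3 _).F (by simp) (this 2 (Or.inl rfl)) h2 _

theorem Sol.conv {A' B' C' c : Pt → ℝ} {σ : ℝ} {V : Pt → ℂ} (h : Sol (blk A B C) c σ V) {m n : ℤ}
    (h2 : Eqv 2 m V) (h3 : Eqv 3 n V) (e : ∀ p, A p * m ^ 2 + 2 * B p * m * n + C p * n ^ 2 =
      A' p * m ^ 2 + 2 * B' p * m * n + C' p * n ^ 2) : Sol (blk A' B' C') c σ V :=
  ⟨h.sm, h.per, fun p hp => by rw [red h.sm h2 h3, ← e, ← red h.sm h2 h3]; exact h.eq p hp,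
    h.b1, h.b0⟩

theorem Eqv.sh {V : Pt → ℂ} {i : Fin 4} {m : ℤ} (h : Eqv i m V) (s : ℝ) : Eqv i m (sh s V) :=
  fun p t => by rw [Stek4.sh, add_right_comm p, h _ t]; rfl

theorem Sol.mode {c : Pt → ℝ} {σ : ℝ} {V : Pt → ℂ} (h : Sol (blk A B C) c σ V) {m n : ℤ}
    (h2 : Eqv 2 m V) (h3 : Eqv 3 n V) : ∀ p ∈ Strip, pd 0 (pd 0 V) p + (1 : ℝ) * pd 1 (pd 1 V) p =
      (A p * m ^ 2 + 2 * B p * m * n + C p * n ^ 2 - c p : ℝ) * V p := fun p hp => by
  have := h.eq p hp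
  rw [red h.sm h2 h3] at this
  push_cast at this ⊢
  linear_combination this

theorem high (h : Good ρ A B C) (σ : ℝ) (hQ : ∀ (m n : ℤ) p, ((m : ℝ) ^ 2 + n ^ 2) / 64 ≤
    A p * m ^ 2 + 2 * B p * m * n + C p * n ^ 2) : ∃ S : Finset (ℤ × ℤ), ∀ U,
      Sol (blk A B C) 0 σ U → ∀ μ ∉ S, ∀ p ∈ Strip, P μ U p = 0 := by
  obtain ⟨N, hN⟩ := exists_nat_gt (64 * (2 * |σ| + (|σ| * π) ^ 2))
  refine ⟨Finset.Icc (-N, -N) (N, N), fun U hU μ hμ => ?_⟩
  have h1 := h.solP (fun _ _ => rfl) (fun _ _ => rfl) hU μ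
  have h2 : (N : ℝ) ≤ μ.1 ^ 2 + μ.2 ^ 2 := by
    have : (N : ℤ) ≤ μ.1 ^ 2 + μ.2 ^ 2 := by
      simp only [Finset.mem_Icc, Prod.le_def, not_and_or, not_le] at hμ
      rcases hμ with (h | h) | h | h <;> nlinarith [sq_nonneg μ.1, sq_nonneg μ.2]
    exact_mod_cast this
  have h3 : σ ≤ |σ| * π := by nlinarith [le_abs_self σ, abs_nonneg σ, pi_gt_three]
  refine mp h1.sm h1.per zero_le_one (h1.mode (P_eqv hU.per μ).1 (P_eqv hU.per μ).2) h1.b1 h1.b0
    (f := fun r _ => |σ| * (r - π / 2) ^ 2) (fr := fun r _ => |σ| * (2 * (r - π / 2)))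
    (frr := fun _ _ => |σ| * 2) (ft := fun _ _ => 0) (ftt := fun _ _ => 0) (by fun_prop)
    (fun _ _ => rfl) (fun r _ => ?_) (fun r _ => ?_) (fun _ _ => hasDerivAt_const _ _)
    (fun _ _ => hasDerivAt_const _ _) (fun p hp => ?_) (fun _ => by linarith) fun _ => by linarith
  · exact ((((hasDerivAt_id' r).sub_const _).fun_pow 2).const_mul _).congr_deriv (by simp)
  · exact ((((hasDerivAt_id' r).sub_const _).const_mul 2).const_mul _).congr_deriv (by simp)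
  · have a1 : (2 * (p 0 - π / 2)) ^ 2 ≤ π ^ 2 := by nlinarith [hp.1, hp.2]
    have a2 := mul_le_mul_of_nonneg_left a1 (sq_nonneg |σ|)
    have := hQ μ.1 μ.2 p
    simp only [Pi.zero_apply]
    nlinarith

noncomputable def τ (p : Pt) : ℝ := (1 - cos (2 * p 0)) / 4
noncomputable def ρ1 (p : Pt) : ℝ := 1 - τ p ^ 2
noncomputable def A1 (p : Pt) : ℝ := (1 + τ p ^ 2 + 2 * τ p * cos (p 1)) / 16
noncomputable def B1 (p : Pt) : ℝ := 2 * τ p * sin (p 1) / 16
noncomputable def C1 (p : Pt) : ℝ := (1 + τ p ^ 2 - 2 * τ p * cos (p 1)) / 16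
noncomputable def ρ2 (p : Pt) : ℝ := 16 * A1 p

theorem τ_bd (p : Pt) : 0 ≤ τ p ∧ τ p ≤ 1 / 2 := by
  unfold τ
  constructor <;> linarith [cos_le_one (2 * p 0), neg_one_le_cos (2 * p 0)]

theorem w_bd (p : Pt) (s : ℝ) : 1 / 4 ≤ 1 + τ p ^ 2 + 2 * τ p * cos s := by
  obtain ⟨a, b⟩ := τ_bd p
  nlinarith [mul_le_mul_of_nonneg_left (neg_one_le_cos s) a]

theorem per_aux (G : ℝ → ℝ → ℝ → ℝ) : Per fun p : Pt => G (p 0) (cos (p 1)) (sin (p 1)) := by
  intro p i hi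
  fin_cases i <;> simp at hi ⊢

theorem good1 : Good ρ1 A1 B1 C1 := by
  refine ⟨by unfold ρ1 τ; fun_prop, by unfold A1 τ; fun_prop, by unfold B1 τ; fun_prop,
    by unfold C1 τ; fun_prop, fun p => ?_, fun p => ?_, fun p => ?_, ?_, ⟨?_, ?_, ?_, ?_⟩, ?_⟩
  · unfold ρ1; nlinarith [τ_bd p]
  · unfold A1; linarith [w_bd p (p 1)]
  · unfold ρ1 A1 B1 C1; linear_combination (-4 * τ p ^ 2) * sin_sq_add_cos_sq (p 1)
  · rintro i (rfl | rfl) <;> simp [Inv, ρ1, A1, B1, C1, τ]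
  · exact per_aux fun r _ _ => 1 - ((1 - cos (2 * r)) / 4) ^ 2
  · exact per_aux fun r c _ => (1 + ((1 - cos (2 * r)) / 4) ^ 2 + 2 * ((1 - cos (2 * r)) / 4) * c) / 16
  · exact per_aux fun r _ c => 2 * ((1 - cos (2 * r)) / 4) * c / 16
  · exact per_aux fun r c _ => (1 + ((1 - cos (2 * r)) / 4) ^ 2 - 2 * ((1 - cos (2 * r)) / 4) * c) / 16
  · rintro p (h | h) <;> simp [ρ1, τ, h]

theorem good2 : Good ρ2 A1 0 A1 := by
  refine ⟨contDiff_const.mul good1.s1, good1.s1, contDiff_const, good1.s1,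
    fun p => mul_pos (by norm_num) (good1.posA p), good1.posA, fun p => by simp [ρ2]; ring, ?_,
    ⟨fun p i hi => by rw [ρ2, good1.per.2.1 p i hi, ρ2], good1.per.2.1, fun _ _ _ => rfl,
      good1.per.2.1⟩, ?_⟩
  · rintro i (rfl | rfl) <;> simp [Inv, ρ2, A1, τ]
  · rintro p (h | h) <;> simp [ρ2, A1, τ, h]

theorem angle (μ : ℤ × ℤ) : ∃ s : ℝ, ∀ p, A1 p * μ.1 ^ 2 + 2 * B1 p * μ.1 * μ.2 + C1 p * μ.2 ^ 2 =
    (μ.1 ^ 2 + μ.2 ^ 2) * (1 + τ p ^ 2 + 2 * τ p * cos (p 1 - s)) / 16 := by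
  let z : ℂ := (⟨μ.1, μ.2⟩ : ℂ) ^ 2
  have h0 : ‖z‖ = μ.1 ^ 2 + μ.2 ^ 2 := by
    rw [norm_pow, Complex.sq_norm, Complex.normSq_mk]; ring
  have h1 := Complex.norm_mul_cos_arg z
  have h2 := Complex.norm_mul_sin_arg z
  rw [h0] at h1 h2
  have h3 : z.re = μ.1 ^ 2 - μ.2 ^ 2 := by simp [z, sq]
  have h4 : z.im = 2 * μ.1 * μ.2 := by simp [z, sq]; ring
  refine ⟨z.arg, fun p => ?_⟩
  rw [cos_sub, A1, B1, C1]
  linear_combination (-τ p * cos (p 1) / 8) * (h1.trans h3) - (τ p * sin (p 1) / 8) * (h2.trans h4)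

theorem steklov (σ : ℝ) : steklovMult (met ρ1 A1 B1 C1) σ = steklovMult (met ρ2 A1 0 A1) σ := by
  choose s hs using angle
  rw [steklovMult, steklovMult, good1.span_eq (c := 0) (by simp), good2.span_eq (c := 0) (by simp)]
  obtain ⟨S1, h1⟩ := high good1 σ fun m n p => by
    rw [hs (m, n)]
    nlinarith [mul_le_mul_of_nonneg_left (w_bd p (p 1 - s (m, n)))
      (add_nonneg (sq_nonneg (m : ℝ)) (sq_nonneg (n : ℝ)))]
  obtain ⟨S2, h2⟩ := high good2 σ fun m n p => by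
    simp only [A1, Pi.zero_apply]
    nlinarith [mul_le_mul_of_nonneg_left (w_bd p (p 1))
      (add_nonneg (sq_nonneg (m : ℝ)) (sq_nonneg (n : ℝ)))]
  refine le_antisymm (transplant s S1 (fun U hU μ => ?_) h1)
    (transplant (fun μ => -s μ) S2 (fun U hU μ => ?_) h2)
  · refine Sol.conv (A := sh (s μ) A1) (B := sh (s μ) B1) (C := sh (s μ) C1)
      ((good1.solP (fun _ _ => rfl) (fun _ _ => rfl) hU μ).sh _) ((P_eqv hU.per μ).1.sh _)
      ((P_eqv hU.per μ).2.sh _) fun p => ?_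
    simp only [sh, hs μ]
    simp [τ, A1]
    ring
  · refine Sol.conv (A := sh (-s μ) A1) (B := sh (-s μ) 0) (C := sh (-s μ) A1)
      ((good2.solP (fun _ _ => rfl) (fun _ _ => rfl) hU μ).sh _) ((P_eqv hU.per μ).1.sh _)
      ((P_eqv hU.per μ).2.sh _) fun p => ?_
    simp only [sh, hs μ]
    simp [τ, A1, sub_eq_add_neg]
    ring

theorem neu1 {U : Pt → ℂ} (hU : Sol (blk A1 B1 C1) (fun p => 1 / 16 * ρ1 p) 0 U) :
    ∀ p ∈ Strip, U p = 0 := by
  have i2 : ∀ i, i ≠ 0 → Inv i fun p => 1 / 16 * ρ1 p := fun i hi p t => by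
    simp only [ρ1, τ, add0 p hi]
  have hρ : ∀ p, 0 < 1 / 16 * ρ1 p ∧ 1 / 16 * ρ1 p ≤ 1 / 16 := fun p =>
    ⟨mul_pos (by norm_num) (good1.pos p), by unfold ρ1; nlinarith [sq_nonneg (τ p)]⟩
  refine P_complete hU.sm hU.per fun μ => ?_
  have h1 := good1.solP (i2 2 (by simp)) (i2 3 (by simp)) hU μ
  obtain ⟨e2, e3⟩ := P_eqv hU.per μ
  by_cases hμ : μ = 0
  · subst hμ
    have h2 : Sol (blk 0 0 0) _ 0 _ := h1.conv e2 e3 (by simp)
    refine fun p hp => F_complete h2.sm.continuous h2.per (i := 1) (by simp) fun k => ?_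
    have h3 := h2.F (i := 1) (by simp) (fun _ _ => rfl) (i2 1 (by simp)) k
    have h4 := F_eqv h2.per (i := 1) (by simp) k
    have h5 : ∀ q ∈ Strip, pd 0 (pd 0 (F 1 k (P 0 U))) q + (0 : ℝ) * pd 1 (pd 1 (F 1 k (P 0 U))) q =
        ((k : ℝ) ^ 2 - 1 / 16 * ρ1 q : ℝ) * F 1 k (P 0 U) q := fun q hq => by
      have := h3.mode (e2.F k) (e3.F k) q hq
      rw [h4.pd h3.sm, pd_cmul h3.sm, h4.pd h3.sm] at this
      simp only [Pi.zero_apply] at this
      push_cast at this ⊢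
      linear_combination this - k ^ 2 * F 1 k (P 0 U) q * Complex.I_mul_I
    by_cases hk : k = 0
    · subst hk
      set W := F 1 0 (P 0 U)
      let L : ℝ → Pt := fun s => ![s, p 1, p 2, p 3]
      have hL : ∀ s, L s = L 0 + Pi.single 0 s := fun s => by
        ext i; fin_cases i <;> simp [L]
      have := ode (q := fun s => 1 / 16 * ρ1 (L s)) (line_re h3.sm ((starRingEnd ℂ) (W p)) _ hL)
        (fun s hs => (line_re (h3.sm.pd 0) _ _ hL s).congr_deriv (by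
          have := h5 (L s) hs
          simp only [Complex.ofReal_zero, zero_mul, add_zero] at this
          rw [this, mul_left_comm, Complex.re_ofReal_mul]
          simp)) (fun s => hρ _) (by
            have := h3.b0 (L 0) rfl
            simp only [Complex.ofReal_zero, zero_mul, neg_eq_zero] at this
            simp [this]) (by simp [h3.b1 (L π) rfl]) (p 0) hp
      have e : L (p 0) = p := by ext i; fin_cases i <;> rfl
      simpa [e, ← Complex.normSq_eq_conj_mul_self] using this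
    · refine mp h3.sm h3.per le_rfl h5 h3.b1 h3.b0 (f := fun _ _ => 0) (fr := fun _ _ => 0)
        (frr := fun _ _ => 0) (ft := fun _ _ => 0) (ftt := fun _ _ => 0) (by fun_prop)
        (fun _ _ => rfl) (fun _ _ => hasDerivAt_const _ _) (fun _ _ => hasDerivAt_const _ _)
        (fun _ _ => hasDerivAt_const _ _) (fun _ _ => hasDerivAt_const _ _) (fun q _ => ?_)
        (by simp) (by simp) p hp
      have : (1 : ℝ) ≤ k ^ 2 := by exact_mod_cast (show (1 : ℤ) ≤ k ^ 2 from sq_pos_of_ne_zero hk)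
      linarith [(hρ q).2]
  · obtain ⟨s, hs⟩ := angle μ
    have h2 : (1 : ℝ) ≤ μ.1 ^ 2 + μ.2 ^ 2 := by
      have : (1 : ℤ) ≤ μ.1 ^ 2 + μ.2 ^ 2 := by
        rw [Prod.ext_iff, not_and_or] at hμ
        rcases hμ with h | h <;> nlinarith [sq_pos_of_ne_zero h, sq_nonneg μ.1, sq_nonneg μ.2]
      exact_mod_cast this
    have dc : ∀ r, HasDerivAt (fun r => cos (2 * r)) (-sin (2 * r) * 2) r := fun r =>
      ((hasDerivAt_id' r).const_mul 2).cos.congr_deriv (by simp)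
    have ds : ∀ r, HasDerivAt (fun r => sin (2 * r)) (cos (2 * r) * 2) r := fun r =>
      ((hasDerivAt_id' r).const_mul 2).sin.congr_deriv (by simp)
    refine mp h1.sm h1.per zero_le_one (h1.mode e2 e3) h1.b1 h1.b0
      (f := fun r θ => (cos (2 * r) / 16 - cos (2 * r) ^ 2 / 128 +
        (cos (2 * r) / 10 - 1 / 2) * cos (θ - s)) / 16)
      (fr := fun r θ => sin (2 * r) * (-1 / 8 + cos (2 * r) / 32 - cos (θ - s) / 5) / 16)
      (frr := fun r θ => (cos (2 * r) * 2 * (-1 / 8 + cos (2 * r) / 32 - cos (θ - s) / 5)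
        - sin (2 * r) ^ 2 / 16) / 16)
      (ft := fun r θ => (cos (2 * r) / 10 - 1 / 2) * -sin (θ - s) / 16)
      (ftt := fun r θ => (cos (2 * r) / 10 - 1 / 2) * -cos (θ - s) / 16) (by fun_prop)
      (fun r θ => by rw [add_sub_right_comm, cos_add_two_pi]) (fun r θ => ?_) (fun r θ => ?_)
      (fun r θ => ?_) (fun r θ => ?_) (fun p _ => ?_) (by simp) (by simp)
    · exact ((((((dc r).div_const 16).fun_sub (((dc r).fun_pow 2).div_const 128)).fun_add
        ((((dc r).div_const 10).sub_const _).mul_const _))).div_const 16).congr_deriv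
        (by simp; ring)
    · exact (((ds r).fun_mul ((((dc r).div_const 32).const_add _).sub_const _)).div_const
        16).congr_deriv (by ring)
    · exact (((((hasDerivAt_id' θ).sub_const s).cos.const_mul _).const_add _).div_const
        16).congr_deriv (by simp)
    · exact ((((hasDerivAt_id' θ).sub_const s).sin.fun_neg.const_mul _).div_const
        16).congr_deriv (by simp)
    · rw [hs]
      have w := mul_le_mul_of_nonneg_right h2 ((by norm_num : (0 : ℝ) ≤ 1 / 4).trans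
        (w_bd p (p 1 - s)))
      have a1 := sin_sq_add_cos_sq (2 * p 0)
      have a2 := sin_sq_le_one (p 1 - s)
      have a3 := sin_sq_le_one (2 * p 0)
      have b1 : (-1 / 8 + cos (2 * p 0) / 32 - cos (p 1 - s) / 5) ^ 2 ≤ 1 := by
        nlinarith [cos_le_one (2 * p 0), neg_one_le_cos (2 * p 0), cos_le_one (p 1 - s),
          neg_one_le_cos (p 1 - s)]
      have b2 : (cos (2 * p 0) / 10 - 1 / 2) ^ 2 ≤ 1 := by
        nlinarith [cos_le_one (2 * p 0), neg_one_le_cos (2 * p 0)]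
      have c1 := mul_le_one₀ a3 (sq_nonneg _) b1
      have c2 := mul_le_one₀ b2 (sq_nonneg _) a2
      simp only [ρ1, τ] at w ⊢
      nlinarith

theorem main : ∃ g₁ g₂ : Pt → Matrix (Fin 4) (Fin 4) ℝ, IsMetric g₁ ∧ IsMetric g₂ ∧
    (∀ s, steklovMult g₁ s = steklovMult g₂ s) ∧ ∃ l, neumannMult g₁ l ≠ neumannMult g₂ l := by
  refine ⟨_, _, good1.metric, good2.metric, steklov, 1 / 16, fun h => ?_⟩
  rw [neumannMult, neumannMult, good1.span_eq fun _ => rfl, good2.span_eq fun _ => rfl,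
    (Submodule.eq_bot_iff (Submodule.map res _)).2, rank_bot, eq_comm, Submodule.rank_eq_zero,
    Submodule.eq_bot_iff] at h
  · have s : Sm fun p => E 1 (p 2) := by
      unfold E
      exact ((contDiff_const.mul (Complex.ofRealCLM.contDiff.comp (contDiff_apply ℝ ℝ 2))).mul
        contDiff_const).cexp
    have e : ∀ i, Eqv i (if i = 2 then 1 else 0) fun p => E 1 (p 2) := fun i p t => by
      fin_cases i <;> simp [E_add, mul_comm] <;> simp [E]
    have e0 := (e 0).pd s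
    have e1 := (e 1).pd s
    have := h _ ⟨fun p => E 1 (p 2), ⟨s, fun p i hi => ?_, fun p _ => ?_, by simp [e0],
      by simp [e0]⟩, rfl⟩
    · simpa [res, E] using congrFun this ⟨0, by simp [Strip, pi_pos.le]⟩
    · exact (e i p _).trans (by rw [E_per, one_mul])
    · rw [red s (e 2) (e 3), e0, e1, pd_cmul s, pd_cmul s]
      simp [ρ2]
  · rintro _ ⟨U, hU, rfl⟩
    exact funext fun p => neu1 hU p.1 p.2

end Pool.Agent.H85.Stek4
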