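import Pool.Agent.H85.Stek4Defs

set_option autoImplicit false

namespace Pool.Agent.H85.Stek5Defs

open Real Pool.Agent.H85.Stek4Defs

/-- The partial derivative of a real function in the `i`-th coordinate. -/
noncomputable def rd (i : Fin 4) (f : Pt → ℝ) (p : Pt) : ℝ := fderiv ℝ f p (Pi.single i 1)

/-- The Christoffel symbol `Γ^k_{ij}` of the Levi-Civita connection. -/
noncomputable def chris (g : Pt → Matrix (Fin 4) (Fin 4) ℝ) (k i j : Fin 4) (p : Pt) : ℝ :=
  (∑ l, (g p)⁻¹ k l *
    (rd i (fun q => g q j l) p + rd j (fun q => g q i l) p - rd l (fun q => g q i j) p)) / 2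

/-- The second fundamental form `g (∇_i N, ∂_j) = Hess r (∂_i, ∂_j) / |grad r|` of the tori
`r = const`, for the unit normal `N = grad r / |grad r|`. -/
noncomputable def sff (g : Pt → Matrix (Fin 4) (Fin 4) ℝ) (p : Pt) : Matrix (Fin 3) (Fin 3) ℝ :=
  Matrix.of fun i j => -chris g 0 i.succ j.succ p / √((g p)⁻¹ 0 0)

/-- The shape operator of the boundary for the outward unit normal, which is `-N` at `r = 0`
and `N` at `r = π`. -/
noncomputable def shape (g : Pt → Matrix (Fin 4) (Fin 4) ℝ) (p : Pt) : Matrix (Fin 3) (Fin 3) ℝ :=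
  (if p 0 = 0 then (-1 : ℝ) else 1) • (((g p).submatrix Fin.succ Fin.succ)⁻¹ * sff g p)

/-- (P4) The mean curvature of the boundary is constant. -/
def ConstMean (g : Pt → Matrix (Fin 4) (Fin 4) ℝ) : Prop :=
  ∃ H : ℝ, ∀ p : Pt, p 0 = 0 ∨ p 0 = π → (shape g p).trace = H

/-- (P5) The principal curvatures of the boundary (the eigenvalues of the shape operator, with
multiplicity) are constant. -/
def ConstPrincipal (g : Pt → Matrix (Fin 4) (Fin 4) ℝ) : Prop :=
  ∃ κ : Multiset ℝ, ∀ p : Pt, p 0 = 0 ∨ p 0 = π → (shape g p).charpoly.roots = κ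

end Pool.Agent.H85.Stek5Defs
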