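import Pool.Agent.H85.Stek4c
import Pool.Agent.H85.Stek5Defs

set_option autoImplicit false

namespace Pool.Agent.H85.Stek5

open Set Real Pool.Agent.H85.Stek4Defs Pool.Agent.H85.Stek4 Pool.Agent.H85.Stek5Defs
open scoped ContDiff

noncomputable def τ (p : Pt) : ℝ := sin (p 0) / 2
noncomputable def ρ1 (p : Pt) : ℝ := 1 - τ p ^ 2
noncomputable def A1 (p : Pt) : ℝ := (1 + τ p ^ 2 + 2 * τ p * cos (p 1)) / 16
noncomputable def B1 (p : Pt) : ℝ := 2 * τ p * sin (p 1) / 16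
noncomputable def C1 (p : Pt) : ℝ := (1 + τ p ^ 2 - 2 * τ p * cos (p 1)) / 16
noncomputable def ρ2 (p : Pt) : ℝ := 16 * A1 p

theorem τ_bd (p : Pt) : -1 / 2 ≤ τ p ∧ τ p ≤ 1 / 2 := by
  unfold τ
  constructor <;> linarith [sin_le_one (p 0), neg_one_le_sin (p 0)]

theorem w_bd (p : Pt) (s : ℝ) : 1 / 4 ≤ 1 + τ p ^ 2 + 2 * τ p * cos s := by
  obtain ⟨a, b⟩ := τ_bd p
  rcases le_total 0 (τ p) with h | h
  · nlinarith [mul_le_mul_of_nonneg_left (neg_one_le_cos s) h]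
  · nlinarith [mul_le_mul_of_nonpos_left (cos_le_one s) h]

theorem good1 : Good ρ1 A1 B1 C1 := by
  refine ⟨by unfold ρ1 τ; fun_prop, by unfold A1 τ; fun_prop, by unfold B1 τ; fun_prop,
    by unfold C1 τ; fun_prop, fun p => ?_, fun p => ?_, fun p => ?_, ?_, ⟨?_, ?_, ?_, ?_⟩, ?_⟩
  · unfold ρ1; nlinarith [τ_bd p]
  · unfold A1; linarith [w_bd p (p 1)]
  · unfold ρ1 A1 B1 C1; linear_combination (-4 * τ p ^ 2) * sin_sq_add_cos_sq (p 1)
  · rintro i (rfl | rfl) <;> simp [Stek4.Inv, ρ1, A1, B1, C1, τ]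
  · exact per_aux fun r _ _ => 1 - (sin r / 2) ^ 2
  · exact per_aux fun r c _ => (1 + (sin r / 2) ^ 2 + 2 * (sin r / 2) * c) / 16
  · exact per_aux fun r _ c => 2 * (sin r / 2) * c / 16
  · exact per_aux fun r c _ => (1 + (sin r / 2) ^ 2 - 2 * (sin r / 2) * c) / 16
  · rintro p (h | h) <;> simp [ρ1, τ, h]

theorem good2 : Good ρ2 A1 0 A1 := by
  refine ⟨contDiff_const.mul good1.s1, good1.s1, contDiff_const, good1.s1,
    fun p => mul_pos (by norm_num) (good1.posA p), good1.posA, fun p => by simp [ρ2]; ring, ?_,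
    ⟨fun p i hi => by rw [ρ2, good1.per.2.1 p i hi, ρ2], good1.per.2.1, fun _ _ _ => rfl,
      good1.per.2.1⟩, ?_⟩
  · rintro i (rfl | rfl) <;> simp [Stek4.Inv, ρ2, A1, τ]
  · rintro p (h | h) <;> simp [ρ2, A1, τ, h]

theorem angle (μ : ℤ × ℤ) : ∃ s : ℝ, ∀ p, A1 p * μ.1 ^ 2 + 2 * B1 p * μ.1 * μ.2 + C1 p * μ.2 ^ 2 =
    (μ.1 ^ 2 + μ.2 ^ 2) * (1 + τ p ^ 2 + 2 * τ p * cos (p 1 - s)) / 16 := by
  let z : ℂ := (⟨μ.1, μ.2⟩ : ℂ) ^ 2
  have h0 : ‖z‖ = μ.1 ^ 2 + μ.2 ^ 2 := by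
    rw [norm_pow, Complex.sq_norm, Complex.normSq_mk]; ring
  have h1 := Complex.norm_mul_cos_arg z
  have h2 := Complex.norm_mul_sin_arg z
  rw [h0] at h1 h2
  have h3 : z.re = μ.1 ^ 2 - μ.2 ^ 2 := by simp [z, sq]
  have h4 : z.im = 2 * μ.1 * μ.2 := by simp [z, sq]; ring
  refine ⟨z.arg, fun p => ?_⟩
  rw [cos_sub, A1, B1, C1]
  linear_combination (-τ p * cos (p 1) / 8) * (h1.trans h3) - (τ p * sin (p 1) / 8) * (h2.trans h4)

theorem steklov (σ : ℝ) : steklovMult (met ρ1 A1 B1 C1) σ = steklovMult (met ρ2 A1 0 A1) σ := by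
  choose s hs using angle
  rw [steklovMult, steklovMult, good1.span_eq (c := 0) (by simp), good2.span_eq (c := 0) (by simp)]
  obtain ⟨S1, h1⟩ := high good1 σ fun m n p => by
    rw [hs (m, n)]
    nlinarith [mul_le_mul_of_nonneg_left (w_bd p (p 1 - s (m, n)))
      (add_nonneg (sq_nonneg (m : ℝ)) (sq_nonneg (n : ℝ)))]
  obtain ⟨S2, h2⟩ := high good2 σ fun m n p => by
    simp only [A1, Pi.zero_apply]
    nlinarith [mul_le_mul_of_nonneg_left (w_bd p (p 1))
      (add_nonneg (sq_nonneg (m : ℝ)) (sq_nonneg (n : ℝ)))]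
  refine le_antisymm (transplant s S1 (fun U hU μ => ?_) h1)
    (transplant (fun μ => -s μ) S2 (fun U hU μ => ?_) h2)
  · refine Sol.conv (A := sh (s μ) A1) (B := sh (s μ) B1) (C := sh (s μ) C1)
      ((good1.solP (fun _ _ => rfl) (fun _ _ => rfl) hU μ).sh _) ((P_eqv hU.per μ).1.sh _)
      ((P_eqv hU.per μ).2.sh _) fun p => ?_
    simp only [sh, hs μ]
    simp [τ, A1]
    ring
  · refine Sol.conv (A := sh (-s μ) A1) (B := sh (-s μ) 0) (C := sh (-s μ) A1)
      ((good2.solP (fun _ _ => rfl) (fun _ _ => rfl) hU μ).sh _) ((P_eqv hU.per μ).1.sh _)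
      ((P_eqv hU.per μ).2.sh _) fun p => ?_
    simp only [sh, hs μ]
    simp [τ, A1, sub_eq_add_neg]
    ring

theorem rd_comp (G : ℝ → ℝ → ℝ) {f : Pt → ℝ} (hf : ContDiff ℝ ∞ f)
    (e : ∀ q, f q = G (τ q) (q 1)) {p : Pt} (hp : p 0 = 0 ∨ p 0 = π) {d : ℝ}
    (h : HasDerivAt (fun x => G x (p 1)) d 0) : rd 0 f p = d * (cos (p 0) / 2) := by
  have h1 := (hf.differentiable (by simp) (p + Pi.single 0 (0 : ℝ))).hasFDerivAt.comp_hasDerivAt 0
    (single_deriv p 0 0)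
  have h2 : HasDerivAt (fun t : ℝ => sin (p 0 + t) / 2) (cos (p 0) / 2) 0 := by
    simpa using (((hasDerivAt_id' (0 : ℝ)).const_add (p 0)).sin).div_const 2
  have h3 : sin (p 0 + 0) / 2 = 0 := by rcases hp with h | h <;> simp [h]
  have h5 : HasDerivAt (fun x => G x (p 1)) d (sin (p 0 + 0) / 2) := by rw [h3]; exact h
  have h4 := h5.comp 0 h2
  simp only [Pi.single_zero, add_zero] at h1
  refine h1.unique (h4.congr_of_eventuallyEq (Filter.Eventually.of_forall fun t => ?_))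
  simp [e, τ]

variable {ρ A B C : Pt → ℝ}

theorem sff_eq (h : Good ρ A B C) {p : Pt} (hp : p 0 = 0 ∨ p 0 = π) (i j : Fin 3) :
    sff (met ρ A B C) p i j = rd 0 (fun q => met ρ A B C q i.succ j.succ) p / 2 := by
  have z : ∀ i : Fin 3, (fun q => met ρ A B C q i.succ 0) = fun _ => 0 := fun i => by
    fin_cases i <;> simp [met]
  simp [sff, chris, h.inv_eq, h.bd p hp, blk, Fin.sum_univ_four, z, rd]
  ring

theorem frac (a : ℝ) : HasDerivAt (fun x : ℝ => 256 * ((1 + x ^ 2 + 2 * x * a) / 16) / (1 - x ^ 2))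
    (32 * a) 0 := by
  refine ((((((hasDerivAt_id' (0 : ℝ)).fun_pow 2).const_add 1).fun_add
    (((hasDerivAt_id' 0).const_mul 2).mul_const a)).div_const 16).const_mul 256).fun_div
    (((hasDerivAt_id' 0).fun_pow 2).const_sub 1) (by simp) |>.congr_deriv ?_
  simp
  ring

theorem shape1 {p : Pt} (hp : p 0 = 0 ∨ p 0 = π) : shape (met ρ1 A1 B1 C1) p =
    !![0, 0, 0; 0, cos (p 1) / 2, sin (p 1) / 2; 0, sin (p 1) / 2, -cos (p 1) / 2] := by
  have t0 : τ p = 0 := by rcases hp with h | h <;> simp [τ, h]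
  have sm := good1.metric.1
  have e11 := rd_comp (fun x _ => 1 - x ^ 2) (sm 1 1) (fun _ => rfl) hp (d := 0)
    ((((hasDerivAt_id' 0).fun_pow 2).const_sub 1).congr_deriv (by simp))
  have e22 := rd_comp (fun x t => 256 * ((1 + x ^ 2 + 2 * x * -cos t) / 16) / (1 - x ^ 2)) (sm 2 2)
    (fun q => by simp [met, C1, ρ1, sub_eq_add_neg]) hp (frac _)
  have e33 := rd_comp (fun x t => 256 * ((1 + x ^ 2 + 2 * x * cos t) / 16) / (1 - x ^ 2)) (sm 3 3)
    (fun q => rfl) hp (frac _)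
  have f : HasDerivAt (fun x : ℝ => -256 * (2 * x * sin (p 1) / 16) / (1 - x ^ 2))
      (-32 * sin (p 1)) 0 := by
    refine ((((((hasDerivAt_id' (0 : ℝ)).const_mul 2).mul_const _).div_const 16).const_mul
      (-256)).fun_div (((hasDerivAt_id' 0).fun_pow 2).const_sub 1) (by simp)).congr_deriv ?_
    simp
    ring
  have e23 := rd_comp (fun x t => -256 * (2 * x * sin t / 16) / (1 - x ^ 2)) (sm 2 3)
    (fun q => rfl) hp f
  have z : ∀ i j : Fin 4, (∀ q, met ρ1 A1 B1 C1 q i j = 0) →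
      rd 0 (fun q => met ρ1 A1 B1 C1 q i j) p = 0 := fun i j h => by simp [h, rd]
  have inv : ((met ρ1 A1 B1 C1 p).submatrix Fin.succ Fin.succ)⁻¹ =
      !![1, 0, 0; 0, 1 / 16, 0; 0, 0, 1 / 16] := by
    refine Matrix.inv_eq_left_inv ?_
    ext i j
    fin_cases i <;> fin_cases j <;>
      simp [met, Matrix.mul_apply, Fin.sum_univ_three, ρ1, A1, B1, C1, t0] <;> norm_num
  have s : sff (met ρ1 A1 B1 C1) p = (cos (p 0) * 8) •
      !![0, 0, 0; 0, -cos (p 1), -sin (p 1); 0, -sin (p 1), cos (p 1)] := by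
    ext i j
    rw [sff_eq good1 hp]
    fin_cases i <;> fin_cases j <;>
      first
      | exact (congrArg (· / 2) (z _ _ fun _ => rfl)).trans (by simp)
      | exact (congrArg (· / 2) e11).trans (by simp)
      | exact (congrArg (· / 2) e22).trans (by simp; ring)
      | exact (congrArg (· / 2) e33).trans (by simp; ring)
      | exact (congrArg (· / 2) e23).trans (by simp; ring)
  rw [shape, inv, s]
  ext i j
  rcases hp with h | h <;> fin_cases i <;> fin_cases j <;>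
    simp [h, pi_ne_zero] <;> ring

theorem shape2 {p : Pt} (hp : p 0 = 0) : shape (met ρ2 A1 0 A1) p =
    !![-cos (p 1) / 2, 0, 0; 0, 0, 0; 0, 0, 0] := by
  have t0 : τ p = 0 := by simp [τ, hp]
  have sm := good2.metric.1
  have e11 := rd_comp (fun x t => 16 * ((1 + x ^ 2 + 2 * x * cos t) / 16)) (sm 1 1) (fun _ => rfl)
    (Or.inl hp) (d := 2 * cos (p 1)) (((((((hasDerivAt_id' (0 : ℝ)).fun_pow 2).const_add 1).fun_add
    (((hasDerivAt_id' 0).const_mul 2).mul_const _)).div_const 16).const_mul 16).congr_deriv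
    (by simp; ring))
  have z : ∀ (i j : Fin 4) (c : ℝ), (∀ q, met ρ2 A1 0 A1 q i j = c) →
      rd 0 (fun q => met ρ2 A1 0 A1 q i j) p = 0 := fun i j c h => by simp [h, rd]
  have q0 : ∀ q, met ρ2 A1 0 A1 q 2 3 = 0 := fun q => by simp [met]
  have q16 : ∀ q, 256 * A1 q / ρ2 q = 16 := fun q => by
    have := (good1.posA q).ne'
    rw [ρ2]
    field_simp
    norm_num
  have inv : ((met ρ2 A1 0 A1 p).submatrix Fin.succ Fin.succ)⁻¹ =
      !![1, 0, 0; 0, 1 / 16, 0; 0, 0, 1 / 16] := by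
    refine Matrix.inv_eq_left_inv ?_
    ext i j
    fin_cases i <;> fin_cases j <;>
      simp [met, Matrix.mul_apply, Fin.sum_univ_three, ρ2, A1, t0] <;> norm_num
  have e : 2 * cos (p 1) * (cos (p 0) / 2) = cos (p 1) := by
    rw [hp, cos_zero]
    ring
  rw [e] at e11
  have s : sff (met ρ2 A1 0 A1) p = !![cos (p 1) / 2, 0, 0; 0, 0, 0; 0, 0, 0] := by
    ext i j
    rw [sff_eq good2 (Or.inl hp)]
    fin_cases i <;> fin_cases j <;>
      first
      | exact (congrArg (· / 2) (z _ _ 0 fun _ => rfl)).trans (zero_div _)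
      | exact (congrArg (· / 2) (z 2 2 16 q16)).trans (zero_div _)
      | exact (congrArg (· / 2) (z 2 3 0 q0)).trans (zero_div _)
      | exact congrArg (· / 2) e11
  rw [shape, inv, s]
  ext i j
  fin_cases i <;> fin_cases j <;> simp [hp]
  ring

theorem main : ∃ g₁ g₂ : Pt → Matrix (Fin 4) (Fin 4) ℝ, IsMetric g₁ ∧ IsMetric g₂ ∧
    (∀ s, steklovMult g₁ s = steklovMult g₂ s) ∧ ConstMean g₁ ∧ ConstPrincipal g₁ ∧
    ¬ ConstMean g₂ ∧ ¬ ConstPrincipal g₂ := by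
  have a0 := shape2 (p := 0) rfl
  have a1 := shape2 (p := Pi.single 1 (π / 2)) (by simp)
  refine ⟨_, _, good1.metric, good2.metric, steklov, ⟨0, fun p hp => ?_⟩,
    ⟨(Polynomial.X ^ 3 - Polynomial.C (1 / 4 : ℝ) * Polynomial.X).roots, fun p hp => ?_⟩, ?_, ?_⟩
  · rw [shape1 hp, Matrix.trace_fin_three]
    simp
    ring
  · congr 1
    refine Polynomial.funext fun x => ?_
    rw [shape1 hp, Matrix.eval_charpoly, Matrix.det_fin_three]
    simp
    linear_combination (-x / 4) * sin_sq_add_cos_sq (p 1)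
  · rintro ⟨H, h⟩
    have b0 := h 0 (Or.inl rfl)
    have b1 := h (Pi.single 1 (π / 2)) (Or.inl (by simp))
    rw [a0, Matrix.trace_fin_three] at b0
    rw [a1, Matrix.trace_fin_three] at b1
    simp at b0 b1
    linarith
  · rintro ⟨κ, h⟩
    have b0 := h 0 (Or.inl rfl)
    have b1 := h (Pi.single 1 (π / 2)) (Or.inl (by simp))
    have c0 : (-1 / 2 : ℝ) ∈ κ := by
      rw [← b0, Polynomial.mem_roots (Matrix.charpoly_monic _).ne_zero, Polynomial.IsRoot, a0,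
        Matrix.eval_charpoly, Matrix.det_fin_three]
      simp
    rw [← b1, Polynomial.mem_roots (Matrix.charpoly_monic _).ne_zero, Polynomial.IsRoot, a1,
      Matrix.eval_charpoly, Matrix.det_fin_three] at c0
    simp at c0

end Pool.Agent.H85.Stek5
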