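import Mathlib

set_option autoImplicit false

namespace Pool.Agent.H85.StrongGammaDefs

open Set Filter

/-- Open `n`-covers of `X` not having `X` as a member. -/
def NCov (X : Type*) [TopologicalSpace X] (n : ℕ) : Set (Set (Set X)) :=
  {C | (∀ U ∈ C, IsOpen U) ∧ ⋃₀ C = univ ∧ univ ∉ C ∧
    ∀ F : Finset X, F.card = n → ∃ U ∈ C, (F : Set X) ⊆ U}

/-- Every point lies in all but finitely many terms. -/
def IsGamma {X : Type*} (U : ℕ → Set X) : Prop := ∀ x, ∀ᶠ n in atTop, x ∈ U n

/-- Strong gamma-sets; the term with index `n` is an `(n+1)`-cover. -/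
def StrongGamma (X : Type*) [TopologicalSpace X] : Prop :=
  ∀ C : ℕ → Set (Set X), (∀ n, C n ∈ NCov X (n + 1)) →
    ∃ U : ℕ → Set X, (∀ n, U n ∈ C n) ∧ IsGamma U

/-- ONE has a winning strategy: after `n` moves of TWO an `(n+1)`-cover is played, and no play
following the strategy gives a gamma-cover. -/
def OneWins (X : Type*) [TopologicalSpace X] : Prop :=
  ∃ s : List (Set X) → Set (Set X), (∀ l, s l ∈ NCov X (l.length + 1)) ∧
    ∀ U : ℕ → Set X, (∀ n, U n ∈ s ((List.range n).map U)) → ¬ IsGamma U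

end Pool.Agent.H85.StrongGammaDefs
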