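import Mathlib
import Pool.Agent.H85.StrongGammaDefs

set_option autoImplicit false

namespace Pool.Agent.H85.StrongGamma

open Set Filter Pool.Agent.H85.StrongGammaDefs

/-- Construction of a sequence by finite extensions. -/
theorem fusion {β : Type*} (T : ℕ → (ℕ → β) → ℕ → ℕ → Prop) (x0 : ℕ → β) (l0 : ℕ)
    (h : ∀ (j : ℕ) (x : ℕ → β) (l : ℕ), ∃ (x' : ℕ → β) (l' : ℕ), l < l' ∧ (∀ i < l, x' i = x i) ∧
      ∀ y : ℕ → β, (∀ i < l', y i = x' i) → T j y l l') :
    ∃ (y : ℕ → β) (L : ℕ → ℕ), StrictMono L ∧ L 0 = l0 ∧ (∀ i < l0, y i = x0 i) ∧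
      ∀ j, T j y (L j) (L (j + 1)) := by
  choose X Λ h1 h2 h3 using h
  let s : ℕ → (ℕ → β) × ℕ := fun n =>
    Nat.rec (x0, l0) (fun j p => (X j p.1 p.2, Λ j p.1 p.2)) n
  have hs : ∀ j, s (j + 1) = (X j (s j).1 (s j).2, Λ j (s j).1 (s j).2) := fun j => rfl
  have hL : StrictMono fun j => (s j).2 := strictMono_nat_of_lt_succ fun j => by
    rw [hs]; exact h1 _ _ _
  have hstab : ∀ a b, a ≤ b → ∀ i < (s a).2, (s b).1 i = (s a).1 i := by
    intro a b hab i hi
    induction b, hab using Nat.le_induction with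
    | base => rfl
    | succ b hab ih => rw [hs, ← ih]; exact h2 _ _ _ i (hi.trans_le (hL.monotone hab))
  have hy : ∀ a, ∀ i < (s a).2, (s (i + 1)).1 i = (s a).1 i := by
    intro a i hi
    rcases le_total a (i + 1) with h | h
    · exact hstab _ _ h i hi
    · exact (hstab _ _ h i ((Nat.lt_succ_self i).trans_le hL.le_apply)).symm
  exact ⟨fun i => (s (i + 1)).1 i, fun j => (s j).2, hL, rfl, hy 0,
    fun j => h3 j (s j).1 (s j).2 _ (hy (j + 1))⟩

theorem exists_block {L : ℕ → ℕ} (hL : StrictMono L) {i : ℕ} (hi : L 0 ≤ i) :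
    ∃ j, L j ≤ i ∧ i < L (j + 1) := by
  classical
  have hex : ∃ j, i < L (j + 1) := ⟨i, (Nat.lt_succ_self i).trans_le hL.le_apply⟩
  refine ⟨Nat.find hex, ?_, Nat.find_spec hex⟩
  rcases hj : Nat.find hex with _ | j
  · exact hi
  · exact not_lt.1 (Nat.find_min hex (by omega))

theorem nd_eq {β : Type*} {x y : ℕ → β} {l : ℕ} :
    (List.range l).map x = (List.range l).map y ↔ ∀ i < l, x i = y i := by
  rw [List.map_inj_left]; simp

variable {X : Type*} [TopologicalSpace X]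

theorem le_cov [Infinite X] {n : ℕ} {C : Set (Set X)} (hC : C ∈ NCov X n) {F : Finset X}
    (hF : F.card ≤ n) : ∃ U ∈ C, (F : Set X) ⊆ U := by
  obtain ⟨G, h1, h2⟩ := Infinite.exists_superset_card_eq F n hF
  obtain ⟨U, hU, h3⟩ := hC.2.2.2 G h2
  exact ⟨U, hU, (Finset.coe_subset.2 h1).trans h3⟩

theorem mem_ncov {n : ℕ} {C : Set (Set X)} (h1 : ∀ U ∈ C, IsOpen U ∧ U ≠ univ)
    (h2 : ∀ F : Finset X, F.card ≤ n + 1 → ∃ U ∈ C, (F : Set X) ⊆ U) : C ∈ NCov X (n + 1) := by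
  refine ⟨fun U hU => (h1 U hU).1, eq_univ_of_forall fun x => ?_, fun h => (h1 _ h).2 rfl,
    fun F hF => h2 F hF.le⟩
  obtain ⟨U, hU, h⟩ := h2 {x} (by simp)
  exact ⟨U, hU, h (by simp)⟩

theorem menger_n (hS : StrongGamma X) (n : ℕ) {W : ℕ → Set (Set X)}
    (ho : ∀ j, ∀ U ∈ W j, IsOpen U)
    (hW : ∀ j (F : Finset X), F.card ≤ n → ∃ U ∈ W j, (F : Set X) ⊆ U) :
    ∃ G : ℕ → Set (Set X), (∀ j, G j ⊆ W j ∧ (G j).Finite) ∧
      ∀ F : Finset X, F.card ≤ n → ∃ j, ∃ U ∈ G j, (F : Set X) ⊆ U := by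
  classical
  let Fc : ℕ → Set X → Prop := fun j Z => ∃ G ⊆ W j, G.Finite ∧
    ∀ F : Finset X, F.card ≤ n → (F : Set X) ⊆ Z → ∃ U ∈ G, (F : Set X) ⊆ U
  have hFc : ∀ j (E : Finset X), ∃ Z, IsOpen Z ∧ (E : Set X) ⊆ Z ∧ Fc j Z := by
    intro j E
    choose! u hu1 hu2 using hW j
    let P : Set (Finset X) := {t | t ⊆ E ∧ t.card ≤ n}
    have hP : P.Finite := (E.powerset.finite_toSet).subset fun t ht => by simpa using ht.1
    let O : X → Set X := fun x => ⋂ t ∈ {t ∈ P | x ∈ t}, u t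
    refine ⟨⋃ x ∈ E, O x, isOpen_biUnion fun x _ => (hP.subset fun t ht => ht.1).isOpen_biInter
      fun t ht => ho j _ (hu1 t ht.1.2), fun x hx => mem_biUnion hx (mem_iInter₂.2 fun t ht =>
        hu2 t ht.1.2 ht.2), u '' P, ?_, hP.image _, fun F hF hFZ => ?_⟩
    · rintro _ ⟨t, ht, rfl⟩; exact hu1 t ht.2
    · have : ∀ y, ∃ x, y ∈ F → x ∈ E ∧ y ∈ O x := fun y => by
        by_cases hy : y ∈ F
        · obtain ⟨x, hx, h⟩ := mem_iUnion₂.1 (hFZ hy); exact ⟨x, fun _ => ⟨hx, h⟩⟩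
        · exact ⟨y, fun h => absurd h hy⟩
      choose c hc using this
      have ht : F.image c ∈ P := ⟨fun x hx => by
        obtain ⟨y, hy, rfl⟩ := Finset.mem_image.1 hx; exact (hc y hy).1,
        Finset.card_image_le.trans hF⟩
      exact ⟨_, ⟨_, ht, rfl⟩, fun y hy =>
        mem_iInter₂.1 (hc y hy).2 _ ⟨ht, Finset.mem_image_of_mem c hy⟩⟩
  by_cases hu : ∃ j, Fc j univ
  · obtain ⟨j, G, h1, h2, h3⟩ := hu
    refine ⟨fun i => if i = j then G else ∅, fun i => ?_, fun F hF => ⟨j, ?_⟩⟩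
    · dsimp only
      split_ifs with h
      · exact ⟨h ▸ h1, h2⟩
      · simp
    · simpa using h3 F hF (subset_univ _)
  obtain ⟨Z, hZ1, hZ2⟩ := hS (fun j => {Z | IsOpen Z ∧ Fc j Z}) fun j =>
    mem_ncov (fun U hU => ⟨hU.1, fun h => hu ⟨j, h ▸ hU.2⟩⟩) fun F _ => by
      obtain ⟨Z, h1, h2, h3⟩ := hFc j F
      exact ⟨Z, ⟨h1, h3⟩, h2⟩
  choose G h1 h2 h3 using fun j => (hZ1 j).2
  refine ⟨G, fun j => ⟨h1 j, h2 j⟩, fun F hF => ?_⟩
  obtain ⟨j, hj⟩ := ((eventually_all_finset F).2 fun x _ => hZ2 x).exists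
  exact ⟨j, h3 j F hF hj⟩

/-- The node `τ` extends `σ` by legal moves containing `W`. -/
def Ext {Y : Type*} (s : List (Set Y) → Set (Set Y)) (W : Set Y) (σ τ : List (Set Y)) : Prop :=
  ∃ x : ℕ → Set Y, (List.range σ.length).map x = σ ∧ (List.range τ.length).map x = τ ∧
    ∀ i, σ.length ≤ i → i < τ.length → x i ∈ s ((List.range i).map x) ∧ W ⊆ x i

theorem Ext.anti {Y : Type*} {s : List (Set Y) → Set (Set Y)} {W W' : Set Y} {σ τ : List (Set Y)}
    (h : Ext s W σ τ) (hW : W' ⊆ W) : Ext s W' σ τ := by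
  obtain ⟨x, h1, h2, h3⟩ := h
  exact ⟨x, h1, h2, fun i a b => ⟨(h3 i a b).1, hW.trans (h3 i a b).2⟩⟩

theorem ext_exists [Infinite X] {s : List (Set X) → Set (Set X)}
    (hs : ∀ l, s l ∈ NCov X (l.length + 1)) (σ : List (Set X)) {F : Finset X}
    (hF : F.card ≤ σ.length + 1) (j : ℕ) : ∃ W, IsOpen W ∧ (F : Set X) ⊆ W ∧
      ∃ τ : List (Set X), τ.length = σ.length + j ∧ Ext s W σ τ := by
  induction j with
  | zero =>
    have : (List.range σ.length).map (fun i => σ.getD i ∅) = σ :=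
      List.ext_getElem (by simp) fun i h1 h2 => by simp [List.getD, h2]
    exact ⟨univ, isOpen_univ, subset_univ _, σ, rfl, _, this, this, fun i a b => by omega⟩
  | succ j ih =>
    obtain ⟨W, h1, h2, τ, h3, x, h4, h5, h6⟩ := ih
    obtain ⟨U, hU, h7⟩ := le_cov (hs τ) (F := F) (by omega)
    have hx : ∀ l ≤ τ.length, (List.range l).map (Function.update x τ.length U) =
        (List.range l).map x := fun l hl => nd_eq.2 fun i hi => Function.update_of_ne (by omega) _ _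
    refine ⟨W ∩ U, h1.inter ((hs τ).1 U hU), subset_inter h2 h7, τ ++ [U], by simp; omega,
      Function.update x τ.length U, by rw [hx _ (by omega), h4], ?_, fun i a b => ?_⟩
    · simp only [List.length_append, List.length_singleton, List.range_succ, List.map_append]
      rw [hx _ le_rfl, h5]; simp
    · simp only [List.length_append, List.length_singleton] at b
      rw [hx i (by omega)]
      by_cases hi : i = τ.length
      · subst hi
        rw [Function.update_self, h5]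
        exact ⟨hU, inter_subset_right⟩
      · rw [Function.update_of_ne hi]
        exact ⟨(h6 i a (by omega)).1, inter_subset_left.trans (h6 i a (by omega)).2⟩

theorem not_oneWins [Infinite X] (hS : StrongGamma X) : ¬ OneWins X := by
  rintro ⟨s, hs, hw⟩
  have hR : ∀ σ : List (Set X), ∃ R : ℕ → Set (List (Set X)), (∀ j, (R j).Finite ∧
      ∀ τ ∈ R j, τ.length = σ.length + j + 1) ∧ ∀ F : Finset X, F.card ≤ σ.length + 1 →
        ∃ j, ∃ τ ∈ R j, ∃ W, IsOpen W ∧ (F : Set X) ⊆ W ∧ Ext s W σ τ := by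
    intro σ
    obtain ⟨G, h1, h2⟩ := menger_n hS (σ.length + 1) (W := fun j => {W | IsOpen W ∧
      ∃ τ : List (Set X), τ.length = σ.length + (j + 1) ∧ Ext s W σ τ}) (fun j U hU => hU.1)
      fun j F hF => by
        obtain ⟨W, a1, a2, a3⟩ := ext_exists hs σ hF (j + 1)
        exact ⟨W, ⟨a1, a3⟩, a2⟩
    choose! t ht1 ht2 using fun j W (hW : W ∈ G j) => ((h1 j).1 hW).2
    refine ⟨fun j => t j '' G j, fun j => ⟨(h1 j).2.image _, ?_⟩, fun F hF => ?_⟩
    · rintro _ ⟨W, hW, rfl⟩; exact ht1 j W hW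
    · obtain ⟨j, W, a1, a2⟩ := h2 F hF
      exact ⟨j, _, ⟨W, a1, rfl⟩, W, ((h1 j).1 a1).1, a2, ht2 j W a1⟩
  choose R hR1 hR2 using hR
  let A : ℕ → Set (List (Set X)) := fun m =>
    Nat.rec {[]} (fun m B => B ∪ ⋃ σ ∈ B, R σ (m - σ.length)) m
  have hA : ∀ m, A (m + 1) = A m ∪ ⋃ σ ∈ A m, R σ (m - σ.length) := fun m => rfl
  have hAf : ∀ m, (A m).Finite := fun m => by
    induction m with
    | zero => exact finite_singleton _
    | succ m ih => rw [hA]; exact ih.union (ih.biUnion fun σ _ => (hR1 σ _).1)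
  have hAm : Monotone A := monotone_nat_of_le_succ fun m => by rw [hA]; exact subset_union_left
  obtain ⟨V, hV1, hV2⟩ := hS (fun n => {V | (IsOpen V ∧ V ≠ univ) ∧ ∀ σ ∈ A n, σ.length = n →
      ∃ τ : List (Set X), n < τ.length ∧ τ ∈ A τ.length ∧ Ext s V σ τ}) fun n =>
    mem_ncov (fun U hU => hU.1) fun F hF => by
      obtain ⟨U0, h0, h0'⟩ := le_cov (hs (List.replicate n ∅)) (F := F) (by simpa using hF)
      have : ∀ σ : List (Set X), ∃ W, IsOpen W ∧ (F : Set X) ⊆ W ∧ (σ ∈ A n → σ.length = n →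
          ∃ τ : List (Set X), n < τ.length ∧ τ ∈ A τ.length ∧ Ext s W σ τ) := fun σ => by
        by_cases hl : σ.length = n
        · obtain ⟨j, τ, a1, W, a2, a3, a4⟩ := hR2 σ F (by omega)
          have a5 := (hR1 σ j).2 τ a1
          refine ⟨W, a2, a3, fun hσ _ => ⟨τ, by omega, ?_, a4⟩⟩
          rw [a5, hA]
          exact Or.inr (mem_biUnion (hAm (by omega) hσ) (by simpa using a1))
        · exact ⟨univ, isOpen_univ, subset_univ _, fun _ h => absurd h hl⟩
      choose W h1 h2 h3 using this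
      refine ⟨U0 ∩ ⋂ σ ∈ A n, W σ, ⟨⟨((hs _).1 _ h0).inter ((hAf n).isOpen_biInter fun σ _ => h1 σ),
        fun h => (hs _).2.2.1 (by rwa [univ_subset_iff.1 (h ▸ inter_subset_left : univ ⊆ U0)] at h0)⟩,
        fun σ hσ hl => ?_⟩, subset_inter h0' (subset_iInter₂ fun σ _ => h2 σ)⟩
      obtain ⟨τ, a1, a2, a3⟩ := h3 σ hσ hl
      exact ⟨τ, a1, a2, a3.anti (inter_subset_right.trans (biInter_subset_of_mem hσ))⟩
  obtain ⟨U, L, hL, h0, -, hT⟩ := fusion (fun _ y l l' => (List.range l).map y ∈ A l →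
      (List.range l').map y ∈ A l' ∧ ∀ i, l ≤ i → i < l' →
        y i ∈ s ((List.range i).map y) ∧ V l ⊆ y i) (fun _ => ∅) 0 (fun _ x l => by
      by_cases hx : (List.range l).map x ∈ A l
      · obtain ⟨τ, a1, a2, x', a3, a4, a5⟩ := (hV1 l).2 _ hx (by simp)
        simp only [List.length_map, List.length_range] at a3 a5
        refine ⟨x', τ.length, a1, nd_eq.1 a3, fun y hy _ => ⟨by rw [nd_eq.2 hy, a4]; exact a2,
          fun i b1 b2 => ?_⟩⟩
        rw [hy i b2, nd_eq.2 fun k hk => hy k (hk.trans b2)]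
        exact a5 i b1 b2
      · exact ⟨x, l + 1, by omega, fun _ _ => rfl, fun y hy h =>
          absurd (by rwa [nd_eq.2 fun k hk => hy k (by omega)] at h) hx⟩)
  have hin : ∀ j, (List.range (L j)).map U ∈ A (L j) := fun j => by
    induction j with
    | zero => rw [h0]; rfl
    | succ j ih => exact (hT j ih).1
  refine hw U (fun n => ?_) fun x => ?_
  · obtain ⟨j, a1, a2⟩ := exists_block hL (i := n) (by omega)
    exact ((hT j (hin j)).2 n a1 a2).1
  · obtain ⟨N, hN⟩ := eventually_atTop.1 (hV2 x)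
    refine (eventually_ge_atTop (L N)).mono fun n hn => ?_
    obtain ⟨j, a1, a2⟩ := exists_block hL (i := n) (by omega)
    have : N ≤ j := Nat.lt_succ_iff.1 (hL.lt_iff_lt.1 (hn.trans_lt a2))
    exact ((hT j (hin j)).2 n a1 a2).2 (hN _ (this.trans hL.le_apply))

theorem main : StrongGamma X ↔ ¬ OneWins X := by
  constructor
  · intro hS
    rcases finite_or_infinite X with hX | hX
    · rcases isEmpty_or_nonempty X with he | hne
      · obtain ⟨U, hU, -⟩ := hS (fun _ => ∅) fun n => ⟨by simp, by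
          simp [Subsingleton.elim (univ : Set X) ∅], by simp, fun F hF => by
            simp [Subsingleton.elim F ∅] at hF⟩
        exact (hU 0).elim
      · rintro ⟨s, hs, -⟩
        have := Fintype.ofFinite X
        have hc : 0 < Fintype.card X := Fintype.card_pos
        have h1 := hs (List.replicate (Fintype.card X - 1) ∅)
        obtain ⟨U, hU, h⟩ := h1.2.2.2 Finset.univ (by simp; omega)
        rw [Finset.coe_univ, univ_subset_iff] at h
        exact h1.2.2.1 (h ▸ hU)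
    · exact not_oneWins hS
  · intro h C hC
    by_contra hc
    exact h ⟨fun l => C l.length, fun l => hC _, fun U hU hA => hc ⟨U, by simpa using hU, hA⟩⟩

end Pool.Agent.H85.StrongGamma
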