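import Pool.Agent.H85.TwoDefs

set_option autoImplicit false
set_option linter.unusedSectionVars false
set_option linter.unusedVariables false

namespace Pool.Agent.H85.TwoCoh

open Set Pool.Agent.H85.TwoDefs

abbrev A : Type := ZMod 2 × ZMod 2

def nrm {n : ℕ} (h : Fin (n + 1) → A) : Fin (n + 1) → A := fun t => h t - h 0

lemma sum_even {β : Type} [DecidableEq β] (L : List β) (h : ∀ b ∈ L, Even (L.count b))
    (ψ : β → ZMod 2) : (L.map ψ).sum = 0 := by
  rw [Finset.sum_list_map_count]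
  refine Finset.sum_eq_zero fun b hb => ?_
  obtain ⟨k, hk⟩ := h b (List.mem_toFinset.1 hb)
  rw [hk, add_smul]
  exact CharTwo.add_self_eq_zero _

variable {X M : Type} [TopologicalSpace X] [TopologicalSpace M] [AddAction A X] {pr : X → M}

lemma ex_lift (hq : IsAddQuotientCoveringMap pr A) {n : ℕ} (τ : Simp M n) :
    ∃ τ' : Simp X n, pr ∘ τ' = τ := by
  have : ContractibleSpace (stdSimplex ℝ (Fin (n + 1))) :=
    (convex_stdSimplex ℝ _).contractibleSpace ⟨_, single_mem_stdSimplex ℝ 0⟩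
  have : LocallyPathConnectedSpace (stdSimplex ℝ (Fin (n + 1))) :=
    (convex_stdSimplex ℝ _).locallyPathConnectedSpace
  obtain ⟨e, he⟩ := hq.surjective (τ (stdSimplex.vertex 0))
  obtain ⟨F, hF, -⟩ := hq.isCoveringMap.existsUnique_continuousMap_lifts τ _ e he
  exact ⟨F, hF.2⟩

lemma lift_rel (hq : IsAddQuotientCoveringMap pr A) {n : ℕ} (τ τ' : Simp X n)
    (h : pr ∘ τ = pr ∘ τ') : ∃ a : A, ∀ z, τ z = a +ᵥ τ' z := by
  obtain ⟨a, ha⟩ := hq.apply_eq_iff_mem_orbit.1 (congrFun h (stdSimplex.vertex 0))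
  have := hq.toContinuousConstVAdd
  refine ⟨a, congrFun (hq.isCoveringMap.eq_of_comp_eq τ.continuous
    (τ'.continuous.const_vadd a) ?_ _ ha.symm)⟩
  rw [h]
  ext z
  exact (hq.map_vadd a).symm

theorem lower (hq : IsAddQuotientCoveringMap pr A) (f : X → A) (hf : ∀ (a : A) x, f (a +ᵥ x) = a + f x)
    {n m : ℕ} (τ1 : (Fin (n + 2) → A) → Simp X (n + 1))
    (τ0 : Fin (n + 2) → (Fin (n + 1) → A) → Simp M n)
    (h1 : ∀ g t, f (τ1 g (stdSimplex.vertex t)) = g t)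
    (h2 : ∀ g i, pr ∘ face i (τ1 g) = τ0 i (nrm (g ∘ i.succAbove)))
    (c : Fin m → (Fin (n + 2) → A) → ZMod 2) (hc : ∀ k (a : A) g, c k (fun t => a + g t) = c k g)
    (hd : ∀ k (g : Fin (n + 3) → A), ∑ i : Fin (n + 3), c k (g ∘ i.succAbove) = 0)
    (Z : Fin m → List (Fin (n + 2) → A))
    (hZ : ∀ l (i : Fin (n + 2)), ∀ b ∈ (Z l).map (fun g => nrm (g ∘ i.succAbove)),
      Even (((Z l).map (fun g => nrm (g ∘ i.succAbove))).count b))
    (hp : ∀ k l, ((Z l).map (c k)).sum = if k = l then 1 else 0) :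
    (m : ℕ∞) ≤ betti M (n + 1) := by
  choose lift hlift using fun (k : ℕ) (τ : Simp M k) => ex_lift hq τ
  let Φ : Fin m → Cochain M (n + 1) := fun k τ => c k fun t => f (lift _ τ (stdSimplex.vertex t))
  have hΦ : ∀ k (τ : Simp M (n + 1)) (τ' : Simp X (n + 1)), pr ∘ τ' = τ →
      Φ k τ = c k fun t => f (τ' (stdSimplex.vertex t)) := fun k τ τ' h => by
    obtain ⟨a, ha⟩ := lift_rel hq (lift _ τ) τ' ((hlift _ τ).trans h.symm)
    simp only [Φ, ha, hf, hc]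
  have hco : ∀ k, Φ k ∈ cocycles M (n + 1) := fun k => by
    refine LinearMap.mem_ker.2 (funext fun τ => ?_)
    change ∑ i, Φ k (face i τ) = 0
    refine Eq.trans (Finset.sum_congr rfl fun i _ => ?_)
      (hd k fun t => f (lift _ τ (stdSimplex.vertex t)))
    rw [hΦ k (face i τ) (face i (lift _ τ)) (funext fun z => congrFun (hlift _ τ) _)]
    congr 1
    ext1 t
    simp [face, stdSimplex.map_vertex]
  let prC : C(X, M) := ⟨pr, hq.continuous⟩
  let ev : Fin m → Cochain M (n + 1) →ₗ[ZMod 2] ZMod 2 := fun l =>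
    ((Z l).map fun g => (LinearMap.proj (prC.comp (τ1 g)) :
      Cochain M (n + 1) →ₗ[ZMod 2] ZMod 2)).sum
  have hev : ∀ l φ, ev l φ = ((Z l).map fun g => φ (prC.comp (τ1 g))).sum := fun l φ => by
    simp only [ev]
    induction Z l with
    | nil => simp
    | cons g L ih => simp [ih]
  have hb : ∀ l ψ, ev l (cob M n ψ) = 0 := fun l ψ => by
    rw [hev]
    have : ∀ g, cob M n ψ (prC.comp (τ1 g)) = ∑ i, ψ (τ0 i (nrm (g ∘ i.succAbove))) := fun g => by
      change ∑ i, ψ (face i (prC.comp (τ1 g))) = _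
      exact Finset.sum_congr rfl fun i _ => congrArg ψ (ContinuousMap.ext (congrFun (h2 g i)))
    simp only [this]
    have h3 : ∀ L : List (Fin (n + 2) → A),
        (L.map fun g => ∑ i, ψ (τ0 i (nrm (g ∘ i.succAbove)))).sum =
          ∑ i, (L.map fun g => ψ (τ0 i (nrm (g ∘ i.succAbove)))).sum := fun L => by
      induction L with
      | nil => simp
      | cons g L ih => simp [ih, Finset.sum_add_distrib]
    rw [h3]
    refine Finset.sum_eq_zero fun i _ => ?_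
    have := sum_even _ (hZ l i) fun b => ψ (τ0 i b)
    rwa [List.map_map] at this
  have hli : LinearIndependent (ZMod 2) fun k => (Submodule.Quotient.mk ⟨Φ k, hco k⟩ : Coh M (n + 1)) := by
    rw [Fintype.linearIndependent_iff]
    intro a ha l
    have h4 : (Submodule.Quotient.mk (∑ k, a k • (⟨Φ k, hco k⟩ : cocycles M (n + 1))) :
        Coh M (n + 1)) = 0 := by
      rw [← ha, ← Submodule.mkQ_apply, map_sum]
      simp only [map_smul, Submodule.mkQ_apply]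
    rw [Submodule.Quotient.mk_eq_zero] at h4
    obtain ⟨ψ, hψ⟩ := h4
    have h5 := hb l ψ
    rw [hψ] at h5
    have h6 : ∀ k, ev l (Φ k) = if k = l then 1 else 0 := fun k => by
      rw [hev, ← hp]
      congr 1
      refine List.map_congr_left fun g _ => ?_
      rw [hΦ k _ (τ1 g) rfl]
      simp only [h1]
    simpa [h6] using h5
  have := hli.cardinal_le_rank
  rw [Cardinal.mk_fin] at this
  simpa [betti] using Cardinal.toENat.monotone' this

/-- the cocycles `x^i y^(n-i)` -/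
def cc (n : ℕ) (i : Fin (n + 1)) (g : Fin (n + 1) → A) : ZMod 2 :=
  ∏ t : Fin n, if t.1 < i.1 then (g t.succ - g t.castSucc).1 else (g t.succ - g t.castSucc).2

lemma cc_inv (n : ℕ) (i : Fin (n + 1)) (a : A) (g : Fin (n + 1) → A) :
    cc n i (fun t => a + g t) = cc n i g := by
  simp [cc]

def Z1 : Fin 2 → List (Fin 2 → A) := ![[![(0,0), (0,0)], ![(0,0), (0,1)]],
  [![(0,0), (0,0)], ![(0,0), (1,0)]]]

def Z2 : Fin 3 → List (Fin 3 → A) := ![[![(0,0), (0,0), (0,0)], ![(0,0), (0,0), (0,1)], ![(0,0), (0,1), (0,0)], ![(0,0), (0,1), (0,1)]],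
  [![(0,0), (0,0), (1,0)], ![(0,0), (0,0), (0,1)], ![(0,0), (1,0), (0,0)], ![(0,0), (1,0), (0,1)], ![(0,0), (0,1), (0,0)], ![(0,0), (0,1), (1,0)]],
  [![(0,0), (0,0), (0,0)], ![(0,0), (0,0), (1,0)], ![(0,0), (1,0), (0,0)], ![(0,0), (1,0), (1,0)]]]

def Z3 : Fin 4 → List (Fin 4 → A) := ![[![(0,0), (0,0), (0,0), (0,0)], ![(0,0), (0,0), (0,0), (0,1)], ![(0,0), (0,0), (0,1), (0,0)], ![(0,0), (0,0), (0,1), (0,1)], ![(0,0), (0,1), (0,0), (0,0)], ![(0,0), (0,1), (0,0), (0,1)], ![(0,0), (0,1), (0,1), (0,0)], ![(0,0), (0,1), (0,1), (0,1)]],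
  [![(0,0), (0,0), (0,0), (0,1)], ![(0,0), (0,0), (0,0), (1,1)], ![(0,0), (0,0), (1,0), (0,0)], ![(0,0), (0,0), (1,0), (0,1)], ![(0,0), (0,0), (0,1), (0,0)], ![(0,0), (0,0), (0,1), (1,1)], ![(0,0), (1,0), (0,0), (1,0)], ![(0,0), (1,0), (0,0), (1,1)], ![(0,0), (1,0), (0,1), (1,0)], ![(0,0), (1,0), (0,1), (1,1)], ![(0,0), (0,1), (0,0), (1,0)], ![(0,0), (0,1), (0,0), (0,1)], ![(0,0), (0,1), (1,0), (0,0)], ![(0,0), (0,1), (1,0), (0,1)], ![(0,0), (0,1), (0,1), (0,0)], ![(0,0), (0,1), (0,1), (1,0)]],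
  [![(0,0), (0,0), (0,0), (1,0)], ![(0,0), (0,0), (0,0), (1,1)], ![(0,0), (0,0), (1,0), (1,0)], ![(0,0), (0,0), (1,0), (0,1)], ![(0,0), (0,0), (0,1), (0,1)], ![(0,0), (0,0), (0,1), (1,1)], ![(0,0), (1,0), (0,0), (0,0)], ![(0,0), (1,0), (0,0), (1,1)], ![(0,0), (1,0), (1,0), (0,0)], ![(0,0), (1,0), (1,0), (0,1)], ![(0,0), (1,0), (0,1), (0,1)], ![(0,0), (1,0), (0,1), (1,1)], ![(0,0), (0,1), (0,0), (0,0)], ![(0,0), (0,1), (0,0), (1,0)], ![(0,0), (0,1), (1,0), (0,0)], ![(0,0), (0,1), (1,0), (1,0)]],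
  [![(0,0), (0,0), (0,0), (0,0)], ![(0,0), (0,0), (0,0), (1,0)], ![(0,0), (0,0), (1,0), (0,0)], ![(0,0), (0,0), (1,0), (1,0)], ![(0,0), (1,0), (0,0), (0,0)], ![(0,0), (1,0), (0,0), (1,0)], ![(0,0), (1,0), (1,0), (0,0)], ![(0,0), (1,0), (1,0), (1,0)]]]

lemma d1 : ∀ k (g : Fin 3 → A), ∑ i : Fin 3, cc 1 k (g ∘ i.succAbove) = 0 := by decide +kernel
lemma d2 : ∀ k (g : Fin 4 → A), ∑ i : Fin 4, cc 2 k (g ∘ i.succAbove) = 0 := by decide +kernel
lemma d3 : ∀ k (g : Fin 5 → A), ∑ i : Fin 5, cc 3 k (g ∘ i.succAbove) = 0 := by decide +kernel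

theorem total (hq : IsAddQuotientCoveringMap pr A) (f : X → A)
    (hf : ∀ (a : A) x, f (a +ᵥ x) = a + f x)
    (τ : ∀ n : ℕ, (Fin (n + 1) ↪ Fin 4) → (Fin (n + 1) → A) → Simp X n)
    (h1 : ∀ n p g t, f (τ n p g (stdSimplex.vertex t)) = g t)
    (h2 : ∀ n p g i, face i (τ (n + 1) p g) = τ n (i.succAboveEmb.trans p) (g ∘ i.succAbove))
    (h3 : ∀ n p g (a : A) z, τ n p (fun t => a + g t) z = a +ᵥ τ n p g z) :
    9 ≤ totalBetti M := by
  let prC : C(X, M) := ⟨pr, hq.continuous⟩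
  have key : ∀ n (p : Fin (n + 2) ↪ Fin 4) (g : Fin (n + 2) → A) (i : Fin (n + 2)),
      pr ∘ face i (τ (n + 1) p g) =
        prC.comp (τ n (i.succAboveEmb.trans p) (nrm (g ∘ i.succAbove))) := fun n p g i => by
    rw [h2]
    ext z
    have : nrm (g ∘ i.succAbove) = fun t => -(g ∘ i.succAbove) 0 + (g ∘ i.succAbove) t := by
      ext1 t; simp only [nrm]; abel
    rw [this]
    exact ((congrArg pr (h3 _ _ _ _ z)).trans (hq.map_vadd _)).symm
  have b1 := lower hq f hf (τ 1 (Fin.castLEEmb (by norm_num)))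
    (fun i h => prC.comp (τ 0 (i.succAboveEmb.trans (Fin.castLEEmb (by norm_num))) h)) (h1 1 _)
    (key 0 _) (cc 1)
    (cc_inv 1) d1 Z1 (by decide +kernel) (by decide +kernel)
  have b2 := lower hq f hf (τ 2 (Fin.castLEEmb (by norm_num)))
    (fun i h => prC.comp (τ 1 (i.succAboveEmb.trans (Fin.castLEEmb (by norm_num))) h)) (h1 2 _)
    (key 1 _) (cc 2)
    (cc_inv 2) d2 Z2 (by decide +kernel) (by decide +kernel)
  have b3 := lower hq f hf (τ 3 (Fin.castLEEmb (by norm_num)))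
    (fun i h => prC.comp (τ 2 (i.succAboveEmb.trans (Fin.castLEEmb (by norm_num))) h)) (h1 3 _)
    (key 2 _) (cc 3)
    (cc_inv 3) d3 Z3 (by decide +kernel) (by decide +kernel)
  refine le_trans ?_ (le_iSup (fun N : ℕ => ∑ n ∈ Finset.range N, betti M n) 4)
  simp only [Finset.sum_range_succ, Finset.sum_range_zero]
  exact le_trans (by norm_num) (add_le_add (add_le_add (add_le_add (zero_le (a := 0 + betti M 0)) b1) b2) b3)

end Pool.Agent.H85.TwoCoh
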