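import Pool.Agent.H85.SemiRiemDefs

set_option autoImplicit false

namespace Pool.Agent.H85.TwoDefs

open Set Pool.Agent.H85.SemiRiemDefs
open scoped Manifold ContDiff Topology

section cohomology
variable (M : Type) [TopologicalSpace M]

/-- Singular `n`-simplices of `M`. -/
abbrev Simp (n : ℕ) : Type := C(stdSimplex ℝ (Fin (n + 1)), M)

variable {M} in
/-- The `i`-th face of a singular simplex. -/
noncomputable def face {n : ℕ} (i : Fin (n + 2)) (τ : Simp M (n + 1)) : Simp M n :=
  τ.comp ⟨stdSimplex.map i.succAbove, stdSimplex.continuous_map _⟩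

/-- Singular `n`-cochains with coefficients in `ℤ/2`. -/
abbrev Cochain (n : ℕ) : Type := Simp M n → ZMod 2

/-- The coboundary operator (no signs are needed modulo 2). -/
noncomputable def cob (n : ℕ) : Cochain M n →ₗ[ZMod 2] Cochain M (n + 1) where
  toFun φ τ := ∑ i, φ (face i τ)
  map_add' φ ψ := by ext τ; simp [Finset.sum_add_distrib]
  map_smul' c φ := by ext τ; simp [Finset.mul_sum]

/-- The cocycles. -/
noncomputable def cocycles (n : ℕ) : Submodule (ZMod 2) (Cochain M n) := LinearMap.ker (cob M n)

/-- The coboundaries. -/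
noncomputable def cobdries : (n : ℕ) → Submodule (ZMod 2) (Cochain M n)
  | 0 => ⊥
  | n + 1 => LinearMap.range (cob M n)

/-- Singular cohomology `H^n(M; ℤ/2)`: cocycles modulo coboundaries. -/
abbrev Coh (n : ℕ) : Type := cocycles M n ⧸ (cobdries M n).submoduleOf (cocycles M n)

/-- The mod 2 Betti number `dim H^n(M; ℤ/2)`. -/
noncomputable def betti (n : ℕ) : ℕ∞ := Cardinal.toENat (Module.rank (ZMod 2) (Coh M n))

/-- The total mod 2 Betti number `∑ n, dim H^n(M; ℤ/2)`, as the supremum of the partial sums. -/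
noncomputable def totalBetti : ℕ∞ := ⨆ N : ℕ, ∑ n ∈ Finset.range N, betti M n

end cohomology

variable {E : Type} [NormedAddCommGroup E] [NormedSpace ℝ E]
  {M : Type} [TopologicalSpace M] [ChartedSpace E M]

/-- A smooth Riemannian metric: bilinear, symmetric, positive definite, with smooth coefficients
in every chart. -/
structure IsRiemannian (g : Bilin E M) : Prop where
  lin : ∀ x v, IsLin (g x v)
  symm : ∀ x v w, g x v w = g x w v
  pos : ∀ x v, v ≠ 0 → 0 < g x v v
  smooth : ∀ e ∈ atlas E M, ∀ v w, ContDiffOn ℝ ∞ (fun y => locBilin g e y v w) e.target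

variable (E) in
/-- The differential of a self-map of `M`. -/
noncomputable def dMap (f : M → M) (y : M) (v : Tx E y) : Tx E (f y) :=
  mfderiv 𝓘(ℝ, E) 𝓘(ℝ, E) f y v

variable (E) in
/-- Smoothness of a self-map of `M`. -/
def IsSmoothMap (f : M → M) : Prop := ContMDiff 𝓘(ℝ, E) 𝓘(ℝ, E) ∞ f

/-- `(M, g)` is a Riemannian symmetric space with geodesic symmetries `s x`: each `s x` is an
(involutive) isometry fixing `x` with differential `-id` on the tangent space at `x`. -/
structure IsSymmetric (g : Bilin E M) (s : M → M → M) : Prop where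
  riem : IsRiemannian g
  smooth : ∀ x, IsSmoothMap E (s x)
  invol : ∀ x y, s x (s x y) = y
  isom : ∀ x y v w, g (s x y) (dMap E (s x) y v) (dMap E (s x) y w) = g y v w
  fix : ∀ x, s x x = x
  diff : ∀ (x : M) (v : E), @Eq E (dMap E (s x) x v) (-v)

/-- Antipodal subsets. -/
def Antipodal {M : Type} (s : M → M → M) (A : Set M) : Prop := ∀ x ∈ A, ∀ y ∈ A, s x y = y

/-- The two-number: the largest cardinality of an antipodal set. -/
noncomputable def twoNumber {M : Type} (s : M → M → M) : ℕ∞ :=
  ⨆ A ∈ {A : Set M | Antipodal s A}, A.encard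

end Pool.Agent.H85.TwoDefs
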