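import Pool.Agent.H85.TwoSub

set_option autoImplicit false
set_option linter.unusedSectionVars false
set_option linter.unusedVariables false
set_option linter.unusedSimpArgs false

namespace Pool.Agent.H85.TwoM

open Set Filter Pool.Agent.H85.SemiRiemDefs Pool.Agent.H85.TwoDefs Pool.Agent.H85.TwoSub
open scoped Manifold ContDiff Topology InnerProductSpace

abbrev V4 : Type := EuclideanSpace ℝ (Fin 4)
abbrev W : Type := EuclideanSpace ℝ (Fin 3 → Fin 4)
abbrev E9 : Type := Fin 3 → Fin 3 → ℝ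

noncomputable def ten (x : Fin 3 → V4) : W := WithLp.toLp 2 fun p => ∏ k, x k (p k)

lemma inner_ten (x y : Fin 3 → V4) : ⟪ten x, ten y⟫_ℝ = ∏ k, ⟪x k, y k⟫_ℝ := by
  simp only [PiLp.inner_apply, ten, RCLike.inner_apply, conj_trivial, ← Finset.prod_mul_distrib]
  rw [Finset.prod_univ_sum, Fintype.piFinset_univ]

lemma ten_smul (c : Fin 3 → ℝ) (x : Fin 3 → V4) :
    ten (fun k => c k • x k) = (∏ k, c k) • ten x := by
  ext p
  simp [ten, Finset.prod_mul_distrib]

lemma contDiff_ten : ContDiff ℝ ∞ ten := by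
  refine contDiff_euclidean.2 fun p => ?_
  simp only [ten, Fin.prod_univ_three]
  fun_prop

noncomputable def e (j : Fin 4) : V4 := EuclideanSpace.single j 1

lemma ex_tmap (R : Fin 3 → V4 →L[ℝ] V4) :
    ∃ L : W →L[ℝ] W, ∀ x, L (ten x) = ten fun k => R k (x k) := by
  refine ⟨∑ p : Fin 3 → Fin 4,
    (EuclideanSpace.proj p : W →L[ℝ] ℝ).smulRight (ten fun k => R k (e (p k))), fun x => ?_⟩
  have h : ∀ k, R k (x k) = ∑ j, x k j • R k (e j) := fun k => by
    conv_lhs => rw [← (EuclideanSpace.basisFun (Fin 4) ℝ).sum_repr (x k)]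
    simp [e]
  ext q
  simp only [sum_apply, ContinuousLinearMap.smulRight_apply, h, ten, WithLp.ofLp_sum,
    Finset.sum_apply, WithLp.ofLp_smul, Pi.smul_apply, smul_eq_mul]
  rw [Finset.prod_univ_sum, Fintype.piFinset_univ]
  simp [Finset.prod_mul_distrib]

noncomputable def tmap (R : Fin 3 → V4 →L[ℝ] V4) : W →L[ℝ] W := (ex_tmap R).choose

lemma tmap_ten (R : Fin 3 → V4 →L[ℝ] V4) (x : Fin 3 → V4) :
    tmap R (ten x) = ten fun k => R k (x k) := (ex_tmap R).choose_spec x

lemma ten_expand (T : W) : T = ∑ p : Fin 3 → Fin 4, T p • ten fun k => e (p k) := by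
  have h : ∀ p : Fin 3 → Fin 4, (ten fun k => e (p k)) = EuclideanSpace.single p 1 := fun p => by
    ext q
    simp only [ten, e, PiLp.single_apply, Finset.prod_boole, Finset.mem_univ,
      true_implies, funext_iff]
  conv_lhs => rw [← (EuclideanSpace.basisFun (Fin 3 → Fin 4) ℝ).sum_repr T]
  simp [h]

def Iso (R : Fin 3 → V4 →L[ℝ] V4) : Prop := ∀ k a b, ⟪R k a, R k b⟫_ℝ = ⟪a, b⟫_ℝ

lemma tmap_inner {R : Fin 3 → V4 →L[ℝ] V4} (hR : Iso R) (T T' : W) :
    ⟪tmap R T, tmap R T'⟫_ℝ = ⟪T, T'⟫_ℝ := by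
  rw [ten_expand T, ten_expand T']
  simp only [map_sum, map_smul, sum_inner, inner_sum, inner_smul_left, inner_smul_right, tmap_ten,
    inner_ten, hR _]

lemma Iso.norm {R : Fin 3 → V4 →L[ℝ] V4} (hR : Iso R) (k : Fin 3) (a : V4) : ‖R k a‖ = ‖a‖ := by
  rw [norm_eq_sqrt_real_inner, hR, ← norm_eq_sqrt_real_inner]

/-- the symmetric space -/
def M : Type := {T : W // ∃ x : Fin 3 → V4, (∀ k, ‖x k‖ = 1) ∧ T = ten x}

instance : TopologicalSpace M := instTopologicalSpaceSubtype

instance : T2Space M := inferInstanceAs (T2Space {T : W // _})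

def F : M → W := Subtype.val

lemma F_ind : Topology.IsInducing F := Topology.IsInducing.subtypeVal

lemma F_inj : Function.Injective F := Subtype.val_injective

noncomputable def act (R : Fin 3 → V4 →L[ℝ] V4) (hR : Iso R) (T : M) : M :=
  ⟨tmap R (F T), by
    obtain ⟨_, x, hx, rfl⟩ := T
    exact ⟨_, fun k => (hR.norm k _).trans (hx k), tmap_ten R x⟩⟩

noncomputable def cv (w : Fin 3 → ℝ) : V4 := WithLp.toLp 2 (Fin.cons 1 w)

noncomputable def nz (v : V4) : V4 := ‖v‖⁻¹ • v

lemma cv_ne (w : Fin 3 → ℝ) : cv w ≠ 0 := fun h => by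
  simpa [cv] using congrArg (fun v : V4 => v 0) h

lemma norm_nz {v : V4} (h : v ≠ 0) : ‖nz v‖ = 1 := norm_smul_inv_norm h

lemma contDiff_cv : ContDiff ℝ ∞ cv := by
  refine contDiff_euclidean.2 fun j => ?_
  refine Fin.cases ?_ (fun j => ?_) j
  · simpa [cv] using contDiff_const
  · simp only [cv, Fin.cons_succ]; fun_prop

lemma contDiff_nzcv : ContDiff ℝ ∞ fun w => nz (cv w) :=
  ((contDiff_cv.norm ℝ cv_ne).inv fun w => norm_ne_zero_iff.2 (cv_ne w)).smul contDiff_cv

noncomputable def Φ0 (T : W) : E9 := fun k j => T (Function.update 0 k j.succ) / T 0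

lemma Φ0_ten {y : Fin 3 → V4} (hy : ∀ k, y k 0 ≠ 0) (k j : Fin 3) :
    Φ0 (ten y) k j = y k j.succ / y k 0 := by
  have h0 := hy 0
  have h1 := hy 1
  have h2 := hy 2
  fin_cases k <;> simp [Φ0, ten, Fin.prod_univ_three] <;> field_simp

lemma contDiffAt_Φ0 {T : W} (h : T 0 ≠ 0) : ContDiffAt ℝ ∞ Φ0 T := by
  refine contDiffAt_pi.2 fun k => contDiffAt_pi.2 fun j => ContDiffAt.div ?_ ?_ h <;> fun_prop

abbrev Fr : Type := Fin 3 → V4 ≃ₗᵢ[ℝ] V4

noncomputable def fw (R : Fr) : Fin 3 → V4 →L[ℝ] V4 := fun k => (R k).toContinuousLinearEquiv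
noncomputable def bw (R : Fr) : Fin 3 → V4 →L[ℝ] V4 := fun k => (R k).symm.toContinuousLinearEquiv

noncomputable def psi (R : Fr) (v : E9) : M :=
  ⟨ten fun k => R k (nz (cv (v k))), _, fun k => by rw [(R k).norm_map, norm_nz (cv_ne _)], rfl⟩

lemma contDiff_psi (R : Fr) : ContDiff ℝ ∞ (F ∘ psi R) :=
  contDiff_ten.comp (contDiff_pi.2 fun k => (R k).contDiff.comp
    (contDiff_nzcv.comp (contDiff_apply ℝ _ k)))

lemma bw_psi (R : Fr) (v : E9) : tmap (bw R) (F (psi R v)) = ten fun k => nz (cv (v k)) := by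
  change tmap (bw R) (ten _) = _
  simp [tmap_ten, bw]

lemma nzcv_zero (w : Fin 3 → ℝ) : 0 < nz (cv w) 0 := by
  have := norm_pos_iff.2 (cv_ne w)
  simpa [nz, cv] using this

noncomputable def chart (R : Fr) : OpenPartialHomeomorph M E9 where
  toFun T := Φ0 (tmap (bw R) (F T))
  invFun := psi R
  source := {T | 0 < tmap (bw R) (F T) 0}
  target := univ
  map_source' _ _ := trivial
  map_target' v _ := by
    change 0 < tmap (bw R) (F (psi R v)) 0
    rw [bw_psi]
    exact Finset.prod_pos (s := Finset.univ) fun k _ => nzcv_zero (v k)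
  left_inv' := by
    rintro ⟨_, x, hx, rfl⟩ h
    change 0 < tmap (bw R) (ten x) 0 at h
    apply F_inj
    change ten (fun k => R k (nz (cv (Φ0 (tmap (bw R) (ten x)) k)))) = ten x
    rw [tmap_ten] at h ⊢
    set y : Fin 3 → V4 := fun k => bw R k (x k) with hy
    have h' : 0 < ∏ k, y k 0 := h
    have h0 : ∀ k, y k 0 ≠ 0 := fun k => Finset.prod_ne_zero_iff.1 h'.ne' k (Finset.mem_univ _)
    have h1 : ∀ k, cv (Φ0 (ten y) k) = (y k 0)⁻¹ • y k := fun k => by
      ext j
      refine Fin.cases ?_ (fun j => ?_) j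
      · simp [cv, h0 k]
      · simp [cv, Φ0_ten h0, div_eq_inv_mul]
    have h2 : ∀ k, R k (nz (cv (Φ0 (ten y) k))) = (|y k 0| * (y k 0)⁻¹) • x k := fun k => by
      have : ‖y k‖ = 1 := by simp [hy, bw, hx]
      rw [h1, nz, norm_smul, this, smul_smul, map_smul]
      simp [hy, bw]
    simp only [h2]
    rw [ten_smul, Finset.prod_mul_distrib, ← Finset.abs_prod, Finset.prod_inv_distrib,
      abs_of_pos h', mul_inv_cancel₀ h'.ne', one_smul]
  right_inv' v _ := by
    ext k j
    change Φ0 (tmap (bw R) (F (psi R v))) k j = _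
    rw [bw_psi, Φ0_ten fun k => (nzcv_zero _).ne']
    have := norm_ne_zero_iff.2 (cv_ne (v k))
    simp only [nz, PiLp.smul_apply, smul_eq_mul]
    simp only [cv, Fin.cons_succ, Fin.cons_zero] at this ⊢
    field_simp
  open_source := isOpen_lt continuous_const
    (((EuclideanSpace.proj 0 : W →L[ℝ] ℝ).continuous.comp (tmap _).continuous).comp F_ind.continuous)
  open_target := isOpen_univ
  continuousOn_toFun T hT := (ContinuousAt.comp (f := fun T => tmap (bw R) (F T))
    (contDiffAt_Φ0 (ne_of_gt hT)).continuousAt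
    ((tmap _).continuous.comp F_ind.continuous).continuousAt).continuousWithinAt
  continuousOn_invFun := (F_ind.continuous_iff.2 (contDiff_psi R).continuous).continuousOn

noncomputable def rep (T : M) : Fin 3 → V4 := T.2.choose

lemma rep_norm (T : M) (k : Fin 3) : ‖rep T k‖ = 1 := T.2.choose_spec.1 k

lemma rep_ten (T : M) : F T = ten (rep T) := T.2.choose_spec.2

lemma ex_fr (a : V4) (ha : ‖a‖ = 1) : ∃ R : V4 ≃ₗᵢ[ℝ] V4, R (e 0) = a :=
  ⟨_, Submodule.reflection_sub (by simp [e, ha])⟩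

noncomputable def fr (T : M) : Fr := fun k => (ex_fr _ (rep_norm T k)).choose

lemma fr_e (T : M) (k : Fin 3) : fr T k (e 0) = rep T k := (ex_fr _ (rep_norm T k)).choose_spec

lemma psi_zero (T : M) : psi (fr T) 0 = T := by
  apply F_inj
  rw [rep_ten T]
  change ten _ = _
  congr 1
  ext1 k
  have : cv 0 = e 0 := by
    ext j
    refine Fin.cases ?_ (fun j => ?_) j <;> simp [cv, e]
  rw [Pi.zero_apply, this, ← fr_e]
  simp [nz, e]

noncomputable instance : ChartedSpace E9 M where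
  atlas := range chart
  chartAt T := chart (fr T)
  mem_chart_source T := by
    have := (chart (fr T)).map_target (x := 0) trivial
    change psi (fr T) 0 ∈ _ at this
    rwa [psi_zero] at this
  chart_mem_atlas T := ⟨_, rfl⟩

lemma sub : Sub E9 F where
  ind := F_ind
  ch := by
    rintro _ ⟨R, rfl⟩
    exact ⟨Φ0 ∘ tmap (bw R), fun T hT => ⟨(contDiffAt_Φ0 (ne_of_gt hT)).comp _
      (tmap _).contDiff.contDiffAt, rfl⟩, contDiff_psi R⟩

instance : IsManifold 𝓘(ℝ, E9) ∞ M := sub.isManifold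

noncomputable def rf (a : V4) : V4 →L[ℝ] V4 :=
  (2 : ℝ) • (innerSL ℝ a).smulRight a - ContinuousLinearMap.id ℝ V4

lemma rf_apply (a z : V4) : rf a z = (2 * ⟪a, z⟫_ℝ) • a - z := by
  simp [rf, smul_smul]

lemma rf_iso (T : M) : Iso fun k => rf (rep T k) := fun k a b => by
  have : ⟪rep T k, rep T k⟫_ℝ = 1 := by rw [real_inner_self_eq_norm_sq, rep_norm]; simp
  simp only [rf_apply, inner_sub_left, inner_sub_right, inner_smul_left, inner_smul_right, this,
    conj_trivial, real_inner_comm (rep T k) a]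
  ring

noncomputable def sy (T : M) : M → M := act _ (rf_iso T)

lemma F_sy (T U : M) : F (sy T U) = ten fun k => rf (rep T k) (rep U k) := by
  change tmap _ (F U) = _
  rw [rep_ten, tmap_ten]

theorem symmetric : IsSymmetric (gI E9 F) sy := by
  have h1 : ∀ T k, ⟪rep T k, rep T k⟫_ℝ = 1 := fun T k => by
    rw [real_inner_self_eq_norm_sq, rep_norm]; simp
  refine sub.symmetric sy (fun T => tmap fun k => rf (rep T k)) (fun _ _ => rfl)
    (fun T => tmap_inner (rf_iso T)) (fun T U => F_inj ?_) (fun T => F_inj ?_) (fun T => ?_)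
    fun T v => ?_
  · change tmap _ (F (sy T U)) = _
    rw [F_sy, tmap_ten, rep_ten U]
    congr 1
    ext1 k
    simp only [rf_apply, inner_sub_right, inner_smul_right, h1]
    module
  · rw [F_sy, rep_ten]
    congr 1
    ext1 k
    rw [rf_apply, h1]
    module
  · have := (chart (fr T)).right_inv (x := 0) trivial
    change chart (fr T) (psi (fr T) 0) = 0 at this
    rwa [psi_zero] at this
  · change tmap _ (ten _) = ten _
    rw [tmap_ten]
    congr 1
    ext1 k
    rw [rf_apply, ← fr_e, LinearIsometryEquiv.inner_map_map, ← map_smul, ← map_sub]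
    congr 1
    have hn : ‖cv (-v k)‖ = ‖cv (v k)‖ := by
      simp [EuclideanSpace.norm_eq, cv, Fin.sum_univ_succ]
    rw [Pi.neg_apply, nz, nz, hn]
    ext j
    refine Fin.cases ?_ (fun j => ?_) j
    · simp [cv, e, EuclideanSpace.inner_single_left]; ring
    · simp [cv, e]

end Pool.Agent.H85.TwoM
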