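import Pool.Agent.H85.TwoM
import Pool.Agent.H85.TwoCoh

set_option autoImplicit false
set_option linter.unusedSectionVars false
set_option linter.unusedVariables false
set_option linter.unusedSimpArgs false

namespace Pool.Agent.H85.TwoM

open Set Filter Pool.Agent.H85.TwoDefs Pool.Agent.H85.TwoCoh
open scoped Topology InnerProductSpace

lemma fiber {x y : Fin 3 → V4} (hx : ∀ k, ‖x k‖ = 1) (hy : ∀ k, ‖y k‖ = 1) (h : ten x = ten y) :
    ∃ ε : Fin 3 → ℝ, (∀ k, ε k = 1 ∨ ε k = -1) ∧ ∏ k, ε k = 1 ∧ ∀ k, x k = ε k • y k := by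
  have h1 : ∏ k, ⟪x k, y k⟫_ℝ = 1 := by
    rw [← inner_ten, h, inner_ten]
    simp [real_inner_self_eq_norm_sq, hy]
  have h2 : ∀ k, |⟪x k, y k⟫_ℝ| ≤ 1 := fun k => by
    simpa [hx, hy] using abs_real_inner_le_norm (x k) (y k)
  have h3 : ∀ k, |⟪x k, y k⟫_ℝ| = 1 := fun k => by
    refine le_antisymm (h2 k) ?_
    have h4 : ∏ k, |⟪x k, y k⟫_ℝ| = 1 := by rw [← Finset.abs_prod, h1, abs_one]
    rw [← Finset.mul_prod_erase _ _ (Finset.mem_univ k)] at h4
    rw [← h4]
    exact mul_le_of_le_one_right (abs_nonneg _)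
      (Finset.prod_le_one (fun _ _ => abs_nonneg _) fun _ _ => h2 _)
  refine ⟨_, fun k => (abs_eq zero_le_one).1 (h3 k), h1, fun k => ?_⟩
  rw [← sub_eq_zero, ← norm_eq_zero, ← sq_eq_zero_iff, norm_sub_sq_real, inner_smul_right,
    norm_smul, hx, hy, Real.norm_eq_abs, h3]
  have := sq_abs ⟪x k, y k⟫_ℝ
  rw [h3] at this
  nlinarith

lemma ex_sb (V : Type) [AddCommGroup V] [Module ℝ V] :
    ∃ sb : V → ZMod 2, ∀ v, v ≠ 0 → sb (-v) = 1 + sb v := by
  classical
  refine ⟨fun v => if WellOrderingRel v (-v) then 0 else 1, fun v hv => ?_⟩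
  have hne : v ≠ -v := fun h => hv (by
    have : (2 : ℝ) • v = 0 := by rw [two_smul]; nth_rewrite 2 [h]; simp
    simpa using this)
  simp only [neg_neg]
  rcases trichotomous_of WellOrderingRel v (-v) with h | h | h
  · rw [if_pos h, if_neg (asymm_of WellOrderingRel h)]; rfl
  · exact absurd h hne
  · rw [if_pos h, if_neg (asymm_of WellOrderingRel h)]; rfl

def tri (a b e : Fin 3) : Prop := (a = b → e = a) ∧ (a = e → b = a) ∧ (b = e → a = b)

instance (a b e : Fin 3) : Decidable (tri a b e) := by unfold tri; infer_instance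

set_option synthInstance.maxSize 2000 in
lemma k5aux : ∀ a b e : Fin 3, tri a b e → ∀ c f h : Fin 3, tri a c f → tri b c h → tri e f h →
    ∀ d g i j : Fin 3, tri a d g → tri b d i → tri c d j → tri e g i → tri f g j → tri h i j →
    b = a ∧ c = a ∧ d = a ∧ e = a ∧ f = a ∧ g = a ∧ h = a ∧ i = a ∧ j = a := by
  decide +kernel

lemma k5 (c : Fin 5 → Fin 5 → Fin 3) (hs : ∀ i j, c i j = c j i)
    (ht : ∀ i j l, i ≠ j → i ≠ l → j ≠ l → c i j = c i l → c j l = c i j) :
    ∀ i j, i ≠ j → c i j = c 0 1 := by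
  have t : ∀ i j l, i ≠ j → i ≠ l → j ≠ l → tri (c i j) (c i l) (c j l) := fun i j l h1 h2 h3 =>
    ⟨ht i j l h1 h2 h3, fun h => by
      have := ht j i l h1.symm h3 h2 (by rw [hs j i, h]); rwa [hs j i] at this, fun h => by
      have := ht l i j h2.symm h3.symm h1 (by rw [hs l i, hs l j, h]); rwa [hs l i] at this⟩
  obtain ⟨r1, r2, r3, r4, r5, r6, r7, r8, r9⟩ := k5aux _ _ _
    (t 0 1 2 (by decide) (by decide) (by decide)) _ _ _
    (t 0 1 3 (by decide) (by decide) (by decide)) (t 0 2 3 (by decide) (by decide) (by decide))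
    (t 1 2 3 (by decide) (by decide) (by decide)) _ _ _ _
    (t 0 1 4 (by decide) (by decide) (by decide)) (t 0 2 4 (by decide) (by decide) (by decide))
    (t 0 3 4 (by decide) (by decide) (by decide)) (t 1 2 4 (by decide) (by decide) (by decide))
    (t 1 3 4 (by decide) (by decide) (by decide)) (t 2 3 4 (by decide) (by decide) (by decide))
  intro i j hij
  fin_cases i <;> fin_cases j <;>
    first | exact absurd rfl hij | rfl | assumption | exact hs _ _ | (rw [hs]; assumption)

lemma pair {T U : M} (h : sy T U = U) (h1 : F U ≠ F T) (h2 : F U ≠ -F T) :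
    (∀ k, ⟪rep T k, rep U k⟫_ℝ ≠ 0 → rep U k = ⟪rep T k, rep U k⟫_ℝ • rep T k) ∧
    ∃ c : Fin 3, ∀ k, ⟪rep T k, rep U k⟫_ℝ ≠ 0 ↔ k = c := by
  have h3 := congrArg F h
  rw [F_sy, rep_ten] at h3
  obtain ⟨ε, e1, e2, e3⟩ := fiber (fun k => ((rf_iso T).norm k _).trans (rep_norm U k))
    (rep_norm U) h3
  simp only [rf_apply] at e3
  have hp : ∀ k, ε k = 1 → rep U k = ⟪rep T k, rep U k⟫_ℝ • rep T k := fun k hk => by
    have := e3 k
    rw [hk] at this
    have h4 : (2 : ℝ) • (rep U k - ⟪rep T k, rep U k⟫_ℝ • rep T k) = 0 := by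
      rw [← neg_eq_zero, ← sub_eq_zero.2 this]; module
    exact sub_eq_zero.1 ((smul_eq_zero.1 h4).resolve_left two_ne_zero)
  have hne : ∀ (S : M) k, rep S k ≠ 0 := fun S k h0 => by simpa [h0] using rep_norm S k
  have hm : ∀ k, ε k = -1 → ⟪rep T k, rep U k⟫_ℝ = 0 := fun k hk => by
    have := e3 k
    rw [hk, neg_smul, one_smul, sub_eq_add_neg, add_eq_right] at this
    simpa [hne] using this
  have hiff : ∀ k, ⟪rep T k, rep U k⟫_ℝ ≠ 0 ↔ ε k = 1 := fun k =>
    ⟨fun h0 => (e1 k).resolve_right fun h => h0 (hm k h), fun hk h0 => hne U k (by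
      rw [hp k hk, h0, zero_smul])⟩
  refine ⟨fun k hk => hp k ((hiff k).1 hk), ?_⟩
  simp only [hiff]
  rw [Fin.prod_univ_three] at e2
  have n1 : (-1 : ℝ) ≠ 1 := by norm_num
  rcases e1 0 with a | a <;> rcases e1 1 with b | b <;> rcases e1 2 with c | c <;>
    rw [a, b, c] at e2
  · exfalso
    have h5 : ∀ k, ε k = 1 := fun k => by fin_cases k <;> assumption
    have h6 : F U = (∏ k, ⟪rep T k, rep U k⟫_ℝ) • F T := by
      rw [rep_ten, rep_ten, ← ten_smul]
      exact congrArg ten (funext fun k => hp k (h5 k))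
    have h7 : ∀ S : M, ‖F S‖ = 1 := fun S => by
      rw [norm_eq_sqrt_real_inner, rep_ten, inner_ten]
      simp [real_inner_self_eq_norm_sq, rep_norm]
    have h8 := congrArg norm h6
    rw [norm_smul, h7, h7, mul_one, Real.norm_eq_abs, eq_comm, abs_eq zero_le_one] at h8
    rcases h8 with h8 | h8 <;> rw [h8] at h6
    · exact h1 (by simpa using h6)
    · exact h2 (by simpa using h6)
  · norm_num at e2
  · norm_num at e2
  · exact ⟨0, fun k => by fin_cases k <;> simp [a, b, c, n1]⟩
  · norm_num at e2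
  · exact ⟨1, fun k => by fin_cases k <;> simp [a, b, c, n1]⟩
  · exact ⟨2, fun k => by fin_cases k <;> simp [a, b, c, n1]⟩
  · norm_num at e2

lemma five (p : Fin 5 → M) (h : ∀ i j, sy (p i) (p j) = p j)
    (h1 : ∀ i j, i ≠ j → F (p j) ≠ F (p i)) (h2 : ∀ i j, F (p j) ≠ -F (p i)) : False := by
  have hp := fun i j hij => pair (h i j) (h1 i j hij) (h2 i j)
  choose! c hc using fun i j hij => (hp i j hij).2
  let c' : Fin 5 → Fin 5 → Fin 3 := fun i j => if i = j then 0 else c i j
  have hc' : ∀ i j, i ≠ j → ∀ k, ⟪rep (p i) k, rep (p j) k⟫_ℝ ≠ 0 ↔ k = c' i j := fun i j hij k => by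
    simp only [c', if_neg hij]; exact hc i j hij k
  have := k5 c' (fun i j => by
    by_cases hij : i = j
    · rw [hij]
    · rw [← hc' j i (Ne.symm hij), real_inner_comm, hc' i j hij]) (fun i j l a b d h0 => by
    have x1 := (hc' i j a _).2 rfl
    have x2 := (hc' i l b _).2 h0
    rw [eq_comm, ← hc' j l d, (hp i j a).1 _ x1, (hp i l b).1 _ x2, inner_smul_left,
      inner_smul_right, real_inner_self_eq_norm_sq, rep_norm]
    simpa using ⟨x1, x2⟩)
  obtain ⟨k, hk⟩ := exists_ne (c' 0 1)
  have ho : Orthonormal ℝ fun i => rep (p i) k := ⟨fun i => rep_norm _ _, fun i j hij => by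
    by_contra h0
    exact hk (((hc' i j hij k).1 h0).trans (this i j hij))⟩
  have := ho.linearIndependent.fintype_card_le_finrank
  simp at this

theorem two_le : twoNumber sy ≤ 8 := by
  obtain ⟨sb, hsb⟩ := ex_sb W
  refine iSup₂_le fun S hS => ?_
  have h4 : ∀ z : ZMod 2, (S ∩ {T | sb (F T) = z}).encard ≤ 4 := fun z => by
    by_contra hn
    obtain ⟨t, ht, ht5⟩ := Set.exists_subset_encard_eq (k := 5)
      (Order.add_one_le_of_lt (not_le.1 hn))
    have hf : t.Finite := Set.finite_of_encard_eq_coe (k := 5) ht5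
    have hc : hf.toFinset.card = 5 := by
      rw [hf.encard_eq_coe_toFinset_card] at ht5; exact_mod_cast ht5
    let q := hf.toFinset.equivFinOfCardEq hc
    have hm : ∀ i, (q.symm i : M) ∈ S ∩ {T | sb (F T) = z} := fun i =>
      ht (hf.mem_toFinset.1 (q.symm i).2)
    refine five (fun i => q.symm i) (fun i j => hS _ (hm i).1 _ (hm j).1)
      (fun i j hij h => hij (q.symm.injective (Subtype.ext (F_inj h))).symm) fun i j h => ?_
    have h0 : F (q.symm i) ≠ 0 := fun h0 => by
      have := inner_ten (rep (q.symm i)) (rep (q.symm i))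
      rw [← rep_ten, h0] at this
      simp [real_inner_self_eq_norm_sq, rep_norm] at this
    have h1 : sb (F (q.symm j)) = z := (hm j).2
    rw [h, hsb _ h0, (hm i).2] at h1
    simp at h1
  have hu : S ⊆ (S ∩ {T | sb (F T) = 0}) ∪ (S ∩ {T | sb (F T) = 1}) := fun T hT => by
    have : ∀ z : ZMod 2, z = 0 ∨ z = 1 := by decide
    exact (this _).imp (fun h => ⟨hT, h⟩) fun h => ⟨hT, h⟩
  exact (encard_le_encard hu).trans ((encard_union_le _ _).trans
    ((add_le_add (h4 0) (h4 1)).trans (by norm_num)))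

def X : Type := Fin 3 → Metric.sphere (0 : V4) 1

instance : TopologicalSpace X := Pi.topologicalSpace
instance : CompactSpace X := inferInstanceAs (CompactSpace (Fin 3 → Metric.sphere (0 : V4) 1))
instance : T2Space X := inferInstanceAs (T2Space (Fin 3 → Metric.sphere (0 : V4) 1))

instance : ConnectedSpace X := by
  have : ConnectedSpace (Metric.sphere (0 : V4) 1) := isConnected_iff_connectedSpace.1
    (isConnected_sphere (by rw [← Module.finrank_eq_rank]; simp) _ zero_le_one)
  exact inferInstanceAs (ConnectedSpace (Fin 3 → Metric.sphere (0 : V4) 1))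

noncomputable def sg (z : ZMod 2) : ℝ := if z = 0 then 1 else -1

lemma z2 : ∀ z : ZMod 2, z = 0 ∨ z = 1 := by decide

lemma sg_add (z w : ZMod 2) : sg (z + w) = sg z * sg w := by
  have : (1 + 1 : ZMod 2) = 0 := rfl
  rcases z2 z with rfl | rfl <;> rcases z2 w with rfl | rfl <;> simp [sg, this]

lemma sg_abs (z : ZMod 2) : |sg z| = 1 := by
  rcases z2 z with rfl | rfl <;> simp [sg]

def bit (a : A) : Fin 3 → ZMod 2 := ![a.1, a.2, a.1 + a.2]

lemma bit_add : ∀ (a b : A) (k : Fin 3), bit (a + b) k = bit a k + bit b k := by decide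

lemma bit_zero : ∀ k : Fin 3, bit 0 k = 0 := by decide

def xv (x : X) (k : Fin 3) : V4 := (x k).1

lemma xv_norm (x : X) (k : Fin 3) : ‖xv x k‖ = 1 := mem_sphere_zero_iff_norm.1 (x k).2

lemma X_ext {x y : X} (h : ∀ k, xv x k = xv y k) : x = y := funext fun k => Subtype.ext (h k)

def mkX (v : Fin 3 → V4) (h : ∀ k, ‖v k‖ = 1) : X := fun k => ⟨v k, by simpa using h k⟩

noncomputable instance : AddAction A X where
  vadd a x := mkX (fun k => sg (bit a k) • xv x k) fun k => by
    rw [norm_smul, Real.norm_eq_abs, sg_abs, xv_norm, mul_one]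
  zero_vadd x := X_ext fun k => by
    change sg (bit 0 k) • xv x k = _
    simp [bit_zero, sg]
  add_vadd a b x := X_ext fun k => by
    change sg (bit (a + b) k) • xv x k = sg (bit a k) • sg (bit b k) • xv x k
    rw [bit_add, sg_add, mul_smul]

lemma xv_vadd (a : A) (x : X) (k : Fin 3) : xv (a +ᵥ x) k = sg (bit a k) • xv x k := rfl

lemma cont_xv (k : Fin 3) : Continuous fun x => xv x k :=
  continuous_subtype_val.comp (continuous_apply k)

lemma cont_X {Y : Type} [TopologicalSpace Y] {f : Y → X} (h : ∀ k, Continuous fun y => xv (f y) k) :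
    Continuous f := continuous_pi fun k => (h k).subtype_mk _

instance : ContinuousConstVAdd A X := ⟨fun a => cont_X fun k => (cont_xv k).const_smul (sg (bit a k))⟩

instance : IsCancelVAdd A X where
  right_cancel' a b x h := by
    have h1 : ∀ k, bit a k = bit b k := fun k => by
      have h2 := congrArg (xv · k) h
      simp only [xv_vadd] at h2
      have h3 := smul_left_injective ℝ (fun h0 => by simpa [h0] using xv_norm x k) h2
      rcases z2 (bit a k) with h4 | h4 <;> rcases z2 (bit b k) with h5 | h5 <;>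
        simp [h4, h5, sg] at h3 ⊢ <;> norm_num at h3
    exact Prod.ext (h1 0) (h1 1)

noncomputable def pr (x : X) : M := ⟨ten (xv x), _, xv_norm x, rfl⟩

lemma cont_pr : Continuous pr :=
  F_ind.continuous_iff.2 (contDiff_ten.continuous.comp (continuous_pi cont_xv))

lemma surj_pr : Function.Surjective pr := fun T => ⟨mkX _ (rep_norm T), F_inj (rep_ten T).symm⟩

instance : CompactSpace M := surj_pr.compactSpace cont_pr

instance : ConnectedSpace M := surj_pr.connectedSpace cont_pr

lemma cover : IsAddQuotientCoveringMap pr A := by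
  refine (cont_pr.isClosedMap.isQuotientMap cont_pr
    surj_pr).isAddQuotientCoveringMap_of_properlyDiscontinuousVAdd fun {x y} => ⟨fun h => ?_, ?_⟩
  · obtain ⟨ε, h1, h2, h3⟩ := fiber (xv_norm x) (xv_norm y) (congrArg F h)
    have h4 : ∀ k, ∃ z, ε k = sg z := fun k =>
      (h1 k).elim (fun h => ⟨0, by simp [h, sg]⟩) fun h => ⟨1, by simp [h, sg]⟩
    choose z hz using h4
    refine ⟨(z 0, z 1), X_ext fun k => ?_⟩
    rw [xv_vadd, h3 k, hz]
    have : z 2 = z 0 + z 1 := by
      rw [Fin.prod_univ_three, hz, hz, hz, ← sg_add, ← sg_add] at h2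
      have h5 : z 0 + z 1 + z 2 = 0 := by
        by_contra hn
        rw [sg, if_neg hn] at h2; norm_num at h2
      generalize z 0 + z 1 = u, z 2 = w at h5
      revert u w; decide
    fin_cases k <;> simp [bit, this]
  · rintro ⟨a, rfl⟩
    apply F_inj
    change ten (fun k => sg (bit a k) • xv y k) = ten (xv y)
    rw [ten_smul, Fin.prod_univ_three, ← sg_add, ← sg_add]
    have : bit a 0 + bit a 1 + bit a 2 = 0 := by revert a; decide
    simp [this, sg]

theorem nine_le : 9 ≤ totalBetti M := by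
  obtain ⟨sb, hsb⟩ := ex_sb V4
  have hsg : ∀ z v, v ≠ 0 → sb (sg z • v) = z + sb v := fun z v hv => by
    rcases z2 z with rfl | rfl <;> simp [sg, hsb v hv]
  have he : ∀ j, e j ≠ 0 := fun j => by simp [e]
  let b : Fin 4 → V4 := fun j => sg (sb (e j)) • e j
  have hb : ∀ j, sb (b j) = 0 := fun j => by
    rw [hsg _ _ (he j)]; exact CharTwo.add_self_eq_zero _
  have hbn : ∀ j, ‖b j‖ = 1 := fun j => by simp [b, norm_smul, sg_abs, e]
  let u : ∀ n : ℕ, (Fin (n + 1) ↪ Fin 4) → (Fin (n + 1) → A) → Fin 3 →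
      stdSimplex ℝ (Fin (n + 1)) → V4 := fun n p g k t => ∑ i, t i • sg (bit (g i) k) • b (p i)
  have hu : ∀ n p g k t, u n p g k t ≠ 0 := fun n p g k t h0 => by
    have h1 : ∀ i, t i = 0 := fun i => by
      have h2 := congrArg (fun v : V4 => v (p i)) h0
      simp only [u, b, e, WithLp.ofLp_sum, Finset.sum_apply, WithLp.ofLp_smul, Pi.smul_apply,
        PiLp.single_apply, smul_eq_mul, EmbeddingLike.apply_eq_iff_eq, mul_ite, mul_one, mul_zero,
        Finset.sum_ite_eq, Finset.mem_univ, if_true, PiLp.zero_apply] at h2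
      simpa [abs_mul, sg_abs] using congrArg abs h2
    simpa [h1] using stdSimplex.sum_eq_one t
  have hc : ∀ n p g k, Continuous (u n p g k) := fun n p g k =>
    continuous_finsetSum _ fun i _ => ((continuous_apply i).comp continuous_subtype_val).smul
      continuous_const
  refine total cover (fun x => (sb (xv x 0), sb (xv x 1))) (fun a x => ?_)
    (fun n p g => ⟨fun t => mkX (fun k => nz (u n p g k t)) fun k => norm_nz (hu _ _ _ _ _),
      cont_X fun k => ((hc n p g k).norm.inv₀ fun t => norm_ne_zero_iff.2 (hu _ _ _ _ _)).smul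
        (hc n p g k)⟩) (fun n p g t => ?_) (fun n p g i => ?_) fun n p g a t => X_ext fun k => ?_
  · have h0 : ∀ k, xv x k ≠ 0 := fun k h0 => by simpa [h0] using xv_norm x k
    simp only [xv_vadd, hsg _ _ (h0 _)]
    rfl
  · have h1 : ∀ k, sb (nz (u n p g k (stdSimplex.vertex t))) = bit (g t) k := fun k => by
      have : u n p g k (stdSimplex.vertex t) = sg (bit (g t) k) • b (p t) := by
        simp [u, Pi.single_apply]
      rw [this, nz, norm_smul, hbn, Real.norm_eq_abs, sg_abs, mul_one, inv_one, one_smul,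
        hsg _ _ (fun h0 => by simpa [h0] using hbn (p t)), hb, add_zero]
    exact Prod.ext (h1 0) (h1 1)
  · ext1 t
    refine X_ext fun k => congrArg nz ?_
    change ∑ j, stdSimplex.map i.succAbove t j • _ = ∑ j, t j • _
    simp only [stdSimplex.map_coe, FunOnFinite.linearMap_apply_apply, Finset.sum_smul]
    rw [← Finset.sum_fiberwise (s := Finset.univ) (g := i.succAbove)]
    refine Finset.sum_congr rfl fun j _ => Finset.sum_congr rfl fun l hl => ?_
    rw [← (Finset.mem_filter.1 hl).2]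
    rfl
  · change nz (u n p (fun t => a + g t) k t) = sg (bit a k) • nz (u n p g k t)
    have : u n p (fun t => a + g t) k t = sg (bit a k) • u n p g k t := by
      simp only [u, bit_add, sg_add, mul_smul, Finset.smul_sum]
      exact Finset.sum_congr rfl fun i _ => smul_comm _ _ _
    rw [this, nz, nz, norm_smul, Real.norm_eq_abs, sg_abs, one_mul, smul_comm]

end Pool.Agent.H85.TwoM
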