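import Pool.Agent.H85.TwoDefs

set_option autoImplicit false
set_option linter.unusedSectionVars false
set_option linter.unusedVariables false

namespace Pool.Agent.H85.TwoSub

open Set Filter Pool.Agent.H85.SemiRiemDefs Pool.Agent.H85.TwoDefs
open scoped Manifold ContDiff Topology InnerProductSpace

variable (E : Type) [NormedAddCommGroup E] [NormedSpace ℝ E]
  {W : Type} [NormedAddCommGroup W] [InnerProductSpace ℝ W]
  {M : Type} [TopologicalSpace M] [ChartedSpace E M]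

structure Sub (F : M → W) : Prop where
  ind : Topology.IsInducing F
  ch : ∀ e ∈ atlas E M, ∃ Φ : W → E, (∀ x ∈ e.source, ContDiffAt ℝ ∞ Φ (F x) ∧ e x = Φ (F x)) ∧
    ContDiff ℝ ∞ (F ∘ e.symm)

variable {E} {F : M → W}

theorem Sub.isManifold (h : Sub E F) : IsManifold 𝓘(ℝ, E) ∞ M := by
  refine isManifold_of_contDiffOn _ _ _ fun e e' he he' => ?_
  obtain ⟨Φ, h1, -⟩ := h.ch e' he'
  obtain ⟨-, -, h2⟩ := h.ch e he
  intro p hp
  simp only [mfld_simps] at hp ⊢
  refine (((h1 _ hp.2).1.comp p h2.contDiffAt).contDiffWithinAt).congr (fun q hq => ?_) ?_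
  · exact (h1 _ hq.2).2
  · exact (h1 _ hp.2).2

variable [IsManifold 𝓘(ℝ, E) ∞ M]

theorem Sub.smooth (h : Sub E F) : ContMDiff 𝓘(ℝ, E) 𝓘(ℝ, W) ∞ F := fun x => by
  obtain ⟨-, -, h2⟩ := h.ch _ (chart_mem_atlas E x)
  have h3 : ContMDiffAt 𝓘(ℝ, E) 𝓘(ℝ, E) ∞ (chartAt E x) x :=
    (contMDiffOn_chart (I := 𝓘(ℝ, E)) (x := x)).contMDiffAt (chart_source_mem_nhds E x)
  refine (h2.contMDiff.contMDiffAt.comp x h3).congr_of_eventuallyEq ?_
  filter_upwards [chart_source_mem_nhds E x] with y hy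
  simp [(chartAt E x).left_inv hy]

theorem Sub.smooth_map (h : Sub E F) {f : M → M} (S : W →L[ℝ] W) (hf : ∀ y, F (f y) = S (F y)) :
    ContMDiff 𝓘(ℝ, E) 𝓘(ℝ, E) ∞ f := fun x => by
  have hc : Continuous f := h.ind.continuous_iff.2 (by
    rw [show F ∘ f = S ∘ F from funext hf]; exact S.continuous.comp h.ind.continuous)
  obtain ⟨Φ, h1, -⟩ := h.ch _ (chart_mem_atlas E (f x))
  have h2 := h1 _ (mem_chart_source E (f x))
  have h3 : ContMDiffAt 𝓘(ℝ, E) 𝓘(ℝ, E) ∞ (Φ ∘ S ∘ F) x := by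
    refine ContMDiffAt.comp x ?_ (S.contMDiff.contMDiffAt.comp x (h.smooth x))
    rw [Function.comp_apply, ← hf]
    exact h2.1.contMDiffAt
  have h4 : ContMDiffAt 𝓘(ℝ, E) 𝓘(ℝ, E) ∞ (chartAt E (f x)).symm ((Φ ∘ S ∘ F) x) := by
    have : (Φ ∘ S ∘ F) x = chartAt E (f x) (f x) := by rw [h2.2, hf]; rfl
    rw [this]
    exact (contMDiffOn_chart_symm (I := 𝓘(ℝ, E)) (x := f x)).contMDiffAt
      (chart_target_mem_nhds E (f x))
  refine (h4.comp x h3).congr_of_eventuallyEq ?_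
  filter_upwards [hc.continuousAt.eventually_mem (chart_source_mem_nhds E (f x))] with y hy
  simp only [Function.comp_apply]
  rw [← hf, ← (h1 _ hy).2, (chartAt E (f x)).left_inv hy]

variable (E F) in
noncomputable def dF (x : M) : E →L[ℝ] W := mfderiv 𝓘(ℝ, E) 𝓘(ℝ, W) F x

theorem Sub.md (h : Sub E F) (x : M) : MDifferentiableAt 𝓘(ℝ, E) 𝓘(ℝ, W) F x :=
  (h.smooth x).mdifferentiableAt (by simp)

theorem Sub.inj (h : Sub E F) (x : M) : Function.Injective (dF E F x) := by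
  obtain ⟨Φ, h1, -⟩ := h.ch _ (chart_mem_atlas E x)
  have h2 := h1 _ (mem_chart_source E x)
  have h3 : (chartAt E x : M → E) =ᶠ[𝓝 x] Φ ∘ F := by
    filter_upwards [chart_source_mem_nhds E x] with y hy using (h1 y hy).2
  have h4 := (mdifferentiable_chart (I := 𝓘(ℝ, E)) x).mfderiv_injective (mem_chart_source E x)
  rw [h3.mfderiv_eq, mfderiv_comp x (h2.1.contMDiffAt.mdifferentiableAt (by simp)) (h.md x)] at h4
  exact Function.Injective.of_comp h4

theorem Sub.dF_dInv (h : Sub E F) {e : OpenPartialHomeomorph M E} (he : e ∈ atlas E M) {y : E}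
    (hy : y ∈ e.target) (v : E) : dF E F (e.symm y) (dInv e y v) = fderiv ℝ (F ∘ e.symm) y v := by
  have := mfderiv_comp y (h.md (e.symm y))
    ((mdifferentiable_of_mem_atlas (I := 𝓘(ℝ, E)) he).mdifferentiableAt_symm hy)
  rw [mfderiv_eq_fderiv] at this
  rw [this]
  rfl

variable (E F) in
/-- the induced metric -/
noncomputable def gI : Bilin E M := fun x v w => ⟪dF E F x v, dF E F x w⟫_ℝ

theorem Sub.riem (h : Sub E F) : IsRiemannian (gI E F) where
  lin x v := (innerSL ℝ (dF E F x v) ∘L dF E F x).toLinearMap.isLinear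
  symm x v w := real_inner_comm _ _
  pos x v hv := real_inner_self_pos.2 fun h0 => hv (h.inj x (h0.trans (map_zero _).symm))
  smooth e he v w := by
    obtain ⟨-, -, h2⟩ := h.ch e he
    have h3 : ContDiff ℝ ∞ (fderiv ℝ (F ∘ e.symm)) := h2.fderiv_right (by simp)
    refine (((h3.clm_apply (contDiff_const (c := v))).inner ℝ
      (h3.clm_apply (contDiff_const (c := w)))).contDiffOn).congr fun y hy => ?_
    simp only [locBilin, gI, h.dF_dInv he hy]

theorem Sub.dF_dMap (h : Sub E F) {f : M → M} (S : W →L[ℝ] W) (hf : ∀ y, F (f y) = S (F y))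
    (y : M) (v : E) : dF E F (f y) (dMap E f y v) = S (dF E F y v) := by
  have h1 := mfderiv_comp y (h.md (f y)) ((h.smooth_map S hf y).mdifferentiableAt (by simp))
  have h2 := mfderiv_comp y (S.hasMFDerivAt (x := F y)).mdifferentiableAt (h.md y)
  rw [S.mfderiv_eq] at h2
  rw [show F ∘ f = S ∘ F from funext hf, h2] at h1
  exact (congrArg (fun T : E →L[ℝ] W => T v) h1).symm

theorem Sub.symmetric (h : Sub E F) (s : M → M → M) (S : M → W →L[ℝ] W)
    (hs : ∀ x y, F (s x y) = S x (F y)) (hS : ∀ x a b, ⟪S x a, S x b⟫_ℝ = ⟪a, b⟫_ℝ)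
    (invol : ∀ x y, s x (s x y) = y) (fix : ∀ x, s x x = x) (h0 : ∀ x : M, chartAt E x x = 0)
    (hneg : ∀ (x : M) (v : E), S x (F ((chartAt E x).symm v)) = F ((chartAt E x).symm (-v))) :
    IsSymmetric (gI E F) s where
  riem := h.riem
  smooth x := h.smooth_map (S x) (hs x)
  invol := invol
  isom x y v w := by simp only [gI, h.dF_dMap (S x) (hs x), hS]
  fix := fix
  diff x v := by
    obtain ⟨-, -, h2⟩ := h.ch _ (chart_mem_atlas E x)
    set Ψ := F ∘ (chartAt E x).symm with hΨ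
    have hd : HasFDerivAt Ψ (fderiv ℝ Ψ 0) 0 := (h2.differentiable (by simp) 0).hasFDerivAt
    have h3 : S x ∘L fderiv ℝ Ψ 0 = fderiv ℝ Ψ 0 ∘L (-ContinuousLinearMap.id ℝ E) := by
      have a1 := (S x).hasFDerivAt.comp 0 hd
      have a2 : HasFDerivAt (Ψ ∘ fun v => -v) _ 0 :=
        HasFDerivAt.comp 0 (by rw [neg_zero]; exact hd) (hasFDerivAt_id (0 : E)).neg
      rw [show S x ∘ Ψ = Ψ ∘ fun v => -v from funext (hneg x)] at a1
      exact a1.unique a2
    have h4 : F =ᶠ[𝓝 x] Ψ ∘ chartAt E x := by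
      filter_upwards [chart_source_mem_nhds E x] with y hy
      simp [hΨ, (chartAt E x).left_inv hy]
    have h5 : dF E F x v = fderiv ℝ Ψ 0 (mfderiv 𝓘(ℝ, E) 𝓘(ℝ, E) (chartAt E x) x v) := by
      unfold dF
      rw [h4.mfderiv_eq, mfderiv_comp x (h2.contMDiff.mdifferentiableAt (by simp))
        ((mdifferentiable_chart (I := 𝓘(ℝ, E)) x).mdifferentiableAt (mem_chart_source E x)),
        mfderiv_eq_fderiv, h0]
      rfl
    have h6 := h.dF_dMap (S x) (hs x) x v
    generalize dMap E (s x) x v = u at h6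
    change dF E F (s x x) (u : E) = _ at h6
    rw [fix] at h6
    apply h.inj x
    rw [h6, map_neg, h5]
    simpa using congrArg (fun T : E →L[ℝ] W => T _) h3

end Pool.Agent.H85.TwoSub
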