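import Mathlib

namespace Pool.Agent.H85.WB

open Finset

/-- numbers with `d` base four digits taken from `S` -/
def D (S : Finset ℤ) : ℕ → Finset ℤ
  | 0 => {0}
  | d + 1 => image₂ (fun s m => s + 4 * m) S (D S d)

lemma card_D (S : Finset ℤ) (d : ℕ) : (D S d).card ≤ S.card ^ d := by
  induction d with
  | zero => simp [D]
  | succ d ih =>
    refine (card_image₂_le _ _ _).trans ?_
    rw [pow_succ']
    exact Nat.mul_le_mul_left _ ih

lemma mem_succ {S : Finset ℤ} {d : ℕ} {n : ℤ} :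
    n ∈ D S (d + 1) ↔ ∃ s ∈ S, ∃ m ∈ D S d, s + 4 * m = n := mem_image₂

lemma cover (d : ℕ) : ∀ x c : ℤ, (c = 0 ∨ c = 1) → ∃ n ∈ D {0, 2} (d + 1), 0 < n ∧
    ∃ u ∈ D {2, 3} d, ∃ v ∈ D {1, 2, 3} d, 4 ^ d ∣ x + n - u ∧ 4 ^ d ∣ x - n - c - v := by
  induction d with
  | zero =>
    intro x c _
    exact ⟨2, mem_succ.2 ⟨2, by simp, 0, by simp [D], by simp⟩, by norm_num, 0, by simp [D], 0,
      by simp [D], by simp, by simp⟩
  | succ d ih =>
    intro x c hc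
    obtain ⟨ε, hε, h2⟩ : ∃ ε : ℤ, (ε = 0 ∨ ε = 1) ∧ (x % 4 + 2 * ε = 2 ∨ x % 4 + 2 * ε = 3) := by
      by_cases h : x % 4 < 2
      · exact ⟨1, by simp, by omega⟩
      · exact ⟨0, by simp, by omega⟩
    obtain ⟨n, hn, n0, u, hu, v, hv, d1, d2⟩ := ih (x / 4) ε hε
    refine ⟨2 * ε + 4 * n, mem_succ.2 ⟨_, by simp; omega, n, hn, rfl⟩, by omega,
      x % 4 + 2 * ε + 4 * u, mem_succ.2 ⟨_, by simp; omega, u, hu, rfl⟩,
      x % 4 + 2 * ε - c + 4 * v, mem_succ.2 ⟨_, by simp; omega, v, hv, rfl⟩, ?_, ?_⟩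
    · rw [pow_succ', show x + (2 * ε + 4 * n) - (x % 4 + 2 * ε + 4 * u) = 4 * (x / 4 + n - u) by omega]
      exact mul_dvd_mul_left _ d1
    · rw [pow_succ', show x - (2 * ε + 4 * n) - c - (x % 4 + 2 * ε - c + 4 * v) =
        4 * (x / 4 - n - ε - v) by omega]
      exact mul_dvd_mul_left _ d2

lemma bnd (d : ℕ) : ∀ n ∈ D {0, 2} d, 0 ≤ n ∧ n < 4 ^ d ∧ n % 2 = 0 := by
  induction d with
  | zero => simp [D]
  | succ d ih =>
    intro n hn
    obtain ⟨s, hs, m, hm, rfl⟩ := mem_succ.1 hn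
    have := ih m hm
    simp only [mem_insert, mem_singleton] at hs
    rw [pow_succ']
    omega

lemma zero_mem (d : ℕ) : (0 : ℤ) ∈ D {0, 2} d := by
  induction d with
  | zero => simp [D]
  | succ d ih => exact mem_succ.2 ⟨0, by simp, 0, ih, by simp⟩

lemma shrink (d : ℕ) : ∀ (d' : ℕ) (n : ℤ), n ∈ D {0, 2} d' → n < 4 ^ d → n ∈ D {0, 2} d := by
  induction d with
  | zero =>
    intro d' n h1 h2
    have := bnd _ _ h1
    simp only [D, mem_singleton]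
    omega
  | succ d ih =>
    intro d' n h1 h2
    cases d' with
    | zero =>
      simp only [D, mem_singleton] at h1
      exact h1 ▸ zero_mem _
    | succ d' =>
      obtain ⟨s, hs, m, hm, rfl⟩ := mem_succ.1 h1
      refine mem_succ.2 ⟨s, hs, m, ih d' m hm ?_, rfl⟩
      simp only [mem_insert, mem_singleton] at hs
      rw [pow_succ'] at h2
      omega

/-- one digit of a cube -/
def K1 : Finset (ℤ × ℤ × ℤ × ℤ) :=
  {(0, 0, 0, 0), (0, 2, 0, 0), (0, 0, 2, 0), (0, 0, 0, 2), (2, 0, 0, 0), (2, -2, 0, 0),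
    (2, 0, -2, 0), (2, 0, 0, -2)}

/-- cubes digit by digit -/
def K : ℕ → Finset (ℤ × ℤ × ℤ × ℤ)
  | 0 => {0}
  | d + 1 => image₂ (fun s m => s + (4 : ℤ) • m) K1 (K d)

lemma card_K (d : ℕ) : (K d).card ≤ 8 ^ d := by
  induction d with
  | zero => simp [K]
  | succ d ih =>
    refine (card_image₂_le _ _ _).trans ?_
    rw [pow_succ']
    exact Nat.mul_le_mul (by decide) ih

lemma mem_K (d : ℕ) : ∀ x a b c : ℤ, x ∈ D {0, 2} d → x + a ∈ D {0, 2} d → x + b ∈ D {0, 2} d →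
    x + c ∈ D {0, 2} d → x + a + b ∈ D {0, 2} d → x + a + c ∈ D {0, 2} d →
    x + b + c ∈ D {0, 2} d → (x, a, b, c) ∈ K d := by
  induction d with
  | zero =>
    intro x a b c h0 h1 h2 h3 _ _ _
    simp only [D, K, mem_singleton, Prod.ext_iff, Prod.fst_zero, Prod.snd_zero] at *
    omega
  | succ d ih =>
    intro x a b c h0 h1 h2 h3 h4 h5 h6
    obtain ⟨s0, t0, m0, k0, e0⟩ := mem_succ.1 h0
    obtain ⟨s1, t1, m1, k1, e1⟩ := mem_succ.1 h1
    obtain ⟨s2, t2, m2, k2, e2⟩ := mem_succ.1 h2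
    obtain ⟨s3, t3, m3, k3, e3⟩ := mem_succ.1 h3
    obtain ⟨s4, t4, m4, k4, e4⟩ := mem_succ.1 h4
    obtain ⟨s5, t5, m5, k5, e5⟩ := mem_succ.1 h5
    obtain ⟨s6, t6, m6, k6, e6⟩ := mem_succ.1 h6
    simp only [mem_insert, mem_singleton] at t0 t1 t2 t3 t4 t5 t6
    have p0 := (bnd _ _ k0).2.2
    have p1 := (bnd _ _ k1).2.2
    have p2 := (bnd _ _ k2).2.2
    have p3 := (bnd _ _ k3).2.2
    have p4 := (bnd _ _ k4).2.2
    have p5 := (bnd _ _ k5).2.2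
    have p6 := (bnd _ _ k6).2.2
    have q4 : m4 = m0 + (m1 - m0) + (m2 - m0) := by clear p3 p5 p6 t3 t5 t6 e3 e5 e6; omega
    have q5 : m5 = m0 + (m1 - m0) + (m3 - m0) := by clear p2 p4 p6 t2 t4 t6 e2 e4 e6 q4; omega
    have q6 : m6 = m0 + (m2 - m0) + (m3 - m0) := by clear p1 p5 p4 t1 t5 t4 e1 e5 e4 q4 q5; omega
    have r := ih m0 (m1 - m0) (m2 - m0) (m3 - m0) k0 (by simpa using k1) (by simpa using k2)
      (by simpa using k3) (q4 ▸ k4) (q5 ▸ k5) (q6 ▸ k6)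
    refine mem_image₂.2 ⟨(s0, s1 - s0, s2 - s0, s3 - s0), ?_, _, r, ?_⟩
    · have u4 : s4 = s1 + s2 - s0 := by omega
      have u5 : s5 = s1 + s3 - s0 := by omega
      have u6 : s6 = s2 + s3 - s0 := by omega
      rw [u4] at t4
      rw [u5] at t5
      rw [u6] at t6
      clear * - t0 t1 t2 t3 t4 t5 t6
      rcases t0 with rfl | rfl <;> rcases t1 with rfl | rfl <;> rcases t2 with rfl | rfl <;>
        rcases t3 with rfl | rfl <;> first | omega | decide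
    · simp only [Prod.smul_mk, Prod.mk_add_mk, smul_eq_mul, Prod.mk.injEq]
      omega

end Pool.Agent.H85.WB
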