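import Mathlib
import Pool.Agent.H85.WB1

namespace Pool.Agent.H85.WB

open MeasureTheory ProbabilityTheory Filter Topology
open scoped ENNReal NNReal

abbrev X := ∀ d : ℕ, ZMod (4 ^ d)

noncomputable def mu : Measure X :=
  Measure.infinitePi fun d => uniformOn (Set.univ : Set (ZMod (4 ^ d)))

instance : IsProbabilityMeasure mu := by unfold mu; infer_instance

def T : X ≃ᵐ X := MeasurableEquiv.addRight 1

lemma T_it (n : ℕ) (x : X) : T^[n] x = x + n := by
  induction n with
  | zero => simp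
  | succ n ih => rw [Function.iterate_succ_apply', ih]; simp [T, add_assoc]

lemma S_it (n : ℕ) (x : X) : T.symm^[n] x = x + -(n : X) := by
  induction n with
  | zero => simp
  | succ n ih => rw [Function.iterate_succ_apply', ih]; simp [T, add_assoc, add_comm]

lemma pres (y : X) : MeasurePreserving (· + y) mu mu := by
  refine ⟨measurable_add_const y, ?_⟩
  have := Measure.infinitePi_map_pi (fun d => uniformOn (Set.univ : Set (ZMod (4 ^ d))))
    (f := fun d z => z + y d) fun d => measurable_add_const _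
  refine this.trans ?_
  unfold mu
  congr 1
  ext d s hs
  rw [Measure.map_apply (measurable_add_const _) hs, uniformOn_univ, uniformOn_univ,
    measure_preimage_add_right]

def F (S : Finset ℤ) (d : ℕ) : Set X := {x | ∃ u ∈ D S d, x d = u}

lemma F_eq (S : Finset ℤ) (d : ℕ) : F S d = Function.eval d ⁻¹'
    (((D S d).image fun u : ℤ => (u : ZMod (4 ^ d)) : Finset _) : Set _) := by
  ext x
  simp [F, eq_comm]

lemma F_meas (S : Finset ℤ) (d : ℕ) : MeasurableSet (F S d) := by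
  rw [F_eq]
  exact measurable_pi_apply d (Finset.measurableSet _)

lemma F_le (S : Finset ℤ) (d : ℕ) : mu (F S d) ≤ ((S.card : ℝ≥0∞) / 4) ^ d := by
  rw [F_eq, mu, (measurePreserving_eval_infinitePi _ d).measure_preimage
    (Finset.measurableSet _).nullMeasurableSet, uniformOn_univ, Measure.count_apply_finset,
    ZMod.card, div_eq_mul_inv, div_eq_mul_inv, mul_pow, ← ENNReal.inv_pow]
  push_cast
  gcongr
  exact_mod_cast Finset.card_image_le.trans (card_D S d)

noncomputable def H (S : Finset ℤ) (a : ℝ≥0) (x : X) : ℝ≥0∞ :=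
  ∑' d, (F S d).indicator (fun _ => (a : ℝ≥0∞) ^ d) x

lemma H_meas (S : Finset ℤ) (a : ℝ≥0) : Measurable (H S a) :=
  Measurable.tsum fun d => measurable_const.indicator (F_meas S d)

lemma H_fin (S : Finset ℤ) (a : ℝ≥0) (h : a * S.card < 4) : ∫⁻ x, H S a x ∂mu ≠ ∞ := by
  unfold H
  rw [lintegral_tsum fun d => (measurable_const.indicator (F_meas S d)).aemeasurable]
  refine ne_top_of_le_ne_top (b := ∑' d : ℕ, ((a : ℝ≥0∞) * (S.card / 4)) ^ d) ?_
    (ENNReal.tsum_le_tsum fun d => ?_)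
  · rw [ENNReal.tsum_geometric, ENNReal.inv_ne_top]
    refine (tsub_pos_of_lt ?_).ne'
    rw [← mul_div_assoc, ENNReal.div_lt_iff (by simp) (by simp), one_mul]
    exact_mod_cast h
  · rw [lintegral_indicator_const (F_meas S d), mul_pow]
    gcongr
    exact F_le S d

noncomputable def f (S : Finset ℤ) (a : ℝ≥0) (t : ℝ) (x : X) : ℝ := (H S a x).toReal ^ t

lemma f_nonneg (S : Finset ℤ) (a : ℝ≥0) (t : ℝ) (x : X) : 0 ≤ f S a t x := by
  unfold f; positivity

lemma f_mem (S : Finset ℤ) (a : ℝ≥0) (h : a * S.card < 4) (t : ℝ) (ht : 0 < t) :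
    MemLp (fun x => (f S a t x : ℂ)) (ENNReal.ofReal (1 / t)) mu := by
  have h1 := memLp_one_iff_integrable.2
    (integrable_toReal_of_lintegral_ne_top (H_meas S a).aemeasurable (H_fin S a h))
  have h2 := h1.norm_rpow_div (ENNReal.ofReal t)
  rw [ENNReal.toReal_ofReal ht.le] at h2
  rw [ENNReal.ofReal_div_of_pos ht, ENNReal.ofReal_one]
  refine MemLp.ofReal (f := f S a t) ?_
  have e : f S a t = fun x => ‖(H S a x).toReal‖ ^ t := by
    ext x; simp [f]
  rw [e]
  exact h2

lemma f_ge (S : Finset ℤ) (a : ℝ≥0) (t : ℝ) (ht : 0 < t) (x : X) (hx : H S a x ≠ ∞) (d : ℕ)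
    (hd : x ∈ F S d) : ((a : ℝ) ^ t) ^ d ≤ f S a t x := by
  have : (a : ℝ≥0∞) ^ d ≤ H S a x := by
    refine le_trans ?_ (ENNReal.le_tsum d)
    rw [Set.indicator_of_mem hd]
  have h2 := ENNReal.toReal_mono hx this
  rw [← Real.rpow_natCast, ← Real.rpow_mul a.coe_nonneg, mul_comm, Real.rpow_mul a.coe_nonneg,
    Real.rpow_natCast]
  exact Real.rpow_le_rpow (by positivity) (by simpa using h2) ht.le

lemma ae_fin (S : Finset ℤ) (a : ℝ≥0) (h : a * S.card < 4) (y : ℕ → X) :
    ∀ᵐ x ∂mu, ∀ n, H S a (x + y n) ≠ ∞ := by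
  refine ae_all_iff.2 fun n => ?_
  exact (pres (y n)).quasiMeasurePreserving.ae
    ((ae_lt_top (H_meas S a) (H_fin S a h)).mono fun x hx => hx.ne)

lemma cover' (x : X) (d : ℕ) : ∃ n : ℕ, (n : ℤ) ∈ D {0, 2} (d + 1) ∧ 0 < n ∧
    x + n ∈ F {2, 3} d ∧ x + -(n : X) ∈ F {1, 2, 3} d := by
  obtain ⟨z, hz⟩ := ZMod.intCast_surjective (x d)
  obtain ⟨n, hn, n0, u, hu, v, hv, d1, d2⟩ := cover d z 0 (Or.inl rfl)
  lift n to ℕ using n0.le
  refine ⟨n, hn, by exact_mod_cast n0, ⟨u, hu, ?_⟩, v, hv, ?_⟩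
  · have := (ZMod.intCast_zmod_eq_zero_iff_dvd _ (4 ^ d)).2 (by exact_mod_cast d1)
    push_cast at this
    simp only [Pi.add_apply, Pi.natCast_apply, ← hz]
    exact sub_eq_zero.1 this
  · have := (ZMod.intCast_zmod_eq_zero_iff_dvd _ (4 ^ d)).2 (by exact_mod_cast d2)
    push_cast at this
    simp only [Pi.add_apply, Pi.neg_apply, Pi.natCast_apply, ← hz]
    linear_combination this

end Pool.Agent.H85.WB
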