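import Mathlib
import Pool.Agent.H85.WB2

namespace Pool.Agent.H85.WB

open Filter Topology Finset

open Classical in
/-- the spikes -/
noncomputable def sp (n : ℤ) : ℝ :=
  if 0 < n ∧ ∃ d, n ∈ D {0, 2} d then (n : ℝ) ^ (3 / 10 : ℝ) else 0

lemma sp_nonneg (n : ℤ) : 0 ≤ sp n := by
  unfold sp
  split_ifs with h
  · exact Real.rpow_nonneg (by exact_mod_cast h.1.le) _
  · rfl

/-- tenth root -/
noncomputable def y (N : ℕ) : ℝ := (N : ℝ) ^ (1 / 10 : ℝ)

lemma y_pow (N k : ℕ) : y N ^ k = (N : ℝ) ^ (k / 10 : ℝ) := by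
  rw [y, ← Real.rpow_natCast, ← Real.rpow_mul N.cast_nonneg]
  congr 1
  ring

lemma y_ten (N : ℕ) : y N ^ 10 = N := by rw [y_pow]; norm_num

lemma y_nonneg (N : ℕ) : 0 ≤ y N := Real.rpow_nonneg N.cast_nonneg _

lemma sp_le {n : ℤ} {N : ℕ} (h : n ≤ N) : sp n ≤ y N ^ 3 := by
  unfold sp
  split_ifs with k
  · rw [y_pow]
    exact Real.rpow_le_rpow (by exact_mod_cast k.1.le) (by exact_mod_cast h) (by norm_num)
  · exact pow_nonneg (y_nonneg N) _

lemma sp_mem {n : ℤ} {d : ℕ} (h : sp n ≠ 0) (k : n < 4 ^ d) : n ∈ D {0, 2} d := by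
  unfold sp at h
  split_ifs at h with j
  · obtain ⟨_, d', j⟩ := j
    exact shrink d d' n j k
  · exact absurd rfl h

lemma two_pow {N : ℕ} (h : N ≠ 0) : ∃ d : ℕ, (N : ℤ) < 4 ^ d ∧ (2 : ℝ) ^ d ≤ 2 * y N ^ 5 := by
  refine ⟨Nat.log 4 N + 1, by exact_mod_cast Nat.lt_pow_succ_log_self (by norm_num) N, ?_⟩
  have := y_nonneg N
  rw [← pow_le_pow_iff_left₀ (by positivity) (by positivity) two_ne_zero, ← pow_mul, mul_comm _ 2,
    pow_mul, mul_pow, ← pow_mul (y N), y_ten, pow_succ' _ (Nat.log 4 N)]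
  have : ((4 ^ Nat.log 4 N : ℕ) : ℝ) ≤ N := by exact_mod_cast Nat.pow_log_le_self 4 h
  push_cast at this
  norm_num
  exact this

lemma sum_sp {N : ℕ} (h : N ≠ 0) (I : Finset ℤ) (hI : ∀ n ∈ I, n ≤ N) :
    ∑ n ∈ I, sp n ≤ 2 * y N ^ 8 := by
  obtain ⟨d, h1, h2⟩ := two_pow h
  have := y_nonneg N
  rw [← sum_filter_ne_zero]
  refine (sum_le_card_nsmul _ _ _ fun n hn => sp_le (hI n (mem_filter.1 hn).1)).trans ?_
  have c : (I.filter fun n => sp n ≠ 0).card ≤ 2 ^ d :=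
    (card_le_card fun n hn => sp_mem (mem_filter.1 hn).2
      ((hI n (mem_filter.1 hn).1).trans_lt h1)).trans (card_D _ d)
  rw [nsmul_eq_mul]
  calc _ ≤ (2 * y N ^ 5) * y N ^ 3 := by
        gcongr
        exact le_trans (by exact_mod_cast c) h2
    _ = _ := by ring

lemma sum_cube {N : ℕ} (h : N ≠ 0) (I : Finset (ℤ × (Fin 3 → ℤ)))
    (hI : ∀ p ∈ I, ∀ ω : Finset (Fin 3), p.1 + ∑ i ∈ ω, p.2 i ≤ N) :
    ∑ p ∈ I, ∏ ω : Finset (Fin 3), sp (p.1 + ∑ i ∈ ω, p.2 i) ≤ 8 * y N ^ 39 := by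
  obtain ⟨d, h1, h2⟩ := two_pow h
  have := y_nonneg N
  rw [← sum_filter_ne_zero]
  refine (sum_le_card_nsmul _ _ (y N ^ 24) fun p hp => ?_).trans ?_
  · refine (prod_le_prod (fun _ _ => sp_nonneg _) fun ω _ =>
      sp_le (hI p (mem_filter.1 hp).1 ω)).trans ?_
    simp [← pow_mul]
  have c : (I.filter fun p => ∏ ω : Finset (Fin 3), sp (p.1 + ∑ i ∈ ω, p.2 i) ≠ 0).card ≤ 8 ^ d := by
    refine (card_le_card_of_injOn (fun p => (p.1, p.2 0, p.2 1, p.2 2)) (fun p hp => ?_)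
      fun p _ q _ e => ?_).trans (card_K d)
    · obtain ⟨k1, k2⟩ := mem_filter.1 hp
      have k := fun ω => sp_mem (prod_ne_zero_iff.1 k2 ω (mem_univ _)) ((hI p k1 ω).trans_lt h1)
      exact mem_K d _ _ _ _ (by simpa using k ∅) (by simpa using k {0}) (by simpa using k {1})
        (by simpa using k {2}) (by simpa [add_assoc] using k {0, 1})
        (by simpa [add_assoc] using k {0, 2}) (by simpa [add_assoc] using k {1, 2})
    · simp only [Prod.mk.injEq] at e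
      refine Prod.ext e.1 (funext fun i => ?_)
      fin_cases i
      exacts [e.2.1, e.2.2.1, e.2.2.2]
  rw [nsmul_eq_mul]
  calc _ ≤ (2 * y N ^ 5) ^ 3 * y N ^ 24 := by
        gcongr
        refine le_trans ?_ (pow_le_pow_left₀ (by positivity) h2 3)
        rw [← pow_mul, mul_comm d, pow_mul]
        exact_mod_cast c
    _ = _ := by ring

lemma log_le : ∀ᶠ N : ℕ in atTop, 0 < Real.log N ∧ Real.log N ^ 5 ≤ y N := by
  have := (isLittleO_log_rpow_rpow_atTop (s := 1 / 10) 5 (by norm_num)).comp_tendsto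
    tendsto_natCast_atTop_atTop
  filter_upwards [this.bound zero_lt_one, eventually_gt_atTop 1] with N h1 h2
  have k : 0 < Real.log N := Real.log_pos (by exact_mod_cast h2)
  refine ⟨k, ?_⟩
  simp only [Function.comp, one_mul, Real.norm_eq_abs] at h1
  rw [abs_of_nonneg (by positivity), abs_of_nonneg (by positivity)] at h1
  rw [← Real.rpow_natCast]
  exact h1

lemma ex_t : ∃ t : ℝ, 1 / 2 < t ∧ t < 1 ∧
    (2.64 : ℝ) < (1.999 : ℝ) ^ t * (1.333 : ℝ) ^ t := by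
  have c : ContinuousAt (fun t : ℝ => (1.999 : ℝ) ^ t * (1.333 : ℝ) ^ t) 1 :=
    (Real.continuousAt_const_rpow (by norm_num)).mul (Real.continuousAt_const_rpow (by norm_num))
  have h := c.eventually (lt_mem_nhds (a := 2.64) (by norm_num))
  obtain ⟨t, h1, h2, h3⟩ := (((h.and (lt_mem_nhds (a := 1 / 2) (by norm_num))).filter_mono
    nhdsWithin_le_nhds).and (self_mem_nhdsWithin (s := Set.Iio 1))).exists.imp
      fun t h => And.intro h.1.2 (And.intro h.2 h.1.1)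
  exact ⟨t, h1, h2, h3⟩

lemma sp_ge {n : ℕ} {d : ℕ} (h : (n : ℤ) ∈ D {0, 2} d) (n0 : 0 < n) :
    (n : ℝ) ≤ sp n * 2.6391 ^ d := by
  have h1 : (n : ℝ) ≤ 4 ^ d := by exact_mod_cast (bnd d _ h).2.1.le
  have h2 : sp n = y n ^ 3 := by
    rw [sp, if_pos ⟨by exact_mod_cast n0, d, h⟩, y_pow]
    norm_num
  have := y_nonneg n
  have h3 : y n ^ 7 ≤ 2.6391 ^ d := by
    rw [← pow_le_pow_iff_left₀ (by positivity) (by positivity) (by norm_num : 10 ≠ 0), ← pow_mul,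
      mul_comm 7, pow_mul, y_ten, ← pow_mul, mul_comm d, pow_mul]
    refine (pow_le_pow_left₀ n.cast_nonneg h1 7).trans ?_
    rw [← pow_mul, mul_comm d, pow_mul]
    gcongr
    norm_num
  calc (n : ℝ) = y n ^ 3 * y n ^ 7 := by rw [← pow_add, y_ten]
    _ ≤ _ := by rw [h2]; gcongr

end Pool.Agent.H85.WB
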